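import Pool.Agent.Lib.MP_7d41f7_al.D.TDefs
import Pool.Agent.Lib.MP_7d41f7_al.C.GS
import Pool.Agent.Lib.MP_7d41f7_al.L.SEl

/-! Group theory for the groups of small rank. -/

set_option autoImplicit false

namespace Pool.Agent.Lib.MP_7d41f7_al

open Subgroup

/-- The primes are different and not adjacent. -/
def NAd (G : Type) [Group G] (u r : ℕ) : Prop := u ≠ r ∧ ¬ Adj G u r

variable {G : Type} [Group G] [Finite G] {r s u v j : ℕ}

omit [Finite G] in
theorem NAd.symm (h : NAd G u r) : NAd G r u := ⟨h.1.symm, fun a => h.2 a.symm⟩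

theorem gsec2 (π : ℕ → Prop)
    (hp : ∀ r, π r → r.Prime ∧ r ∣ Nat.card G ∧ Cyc G r ∧ Tight G r)
    (link : ∀ r s, π r → π s → ∃ t, π t ∧ NAd G t r ∧ (t = s ∨ NAd G s t)) (ne : ∃ r, π r) :
    ∃ (K : Subgroup G) (_ : K.Normal) (H : Subgroup (G ⧸ K)), H.Normal ∧ IsSimpleGroup H ∧
      ¬ IsMulCommutative H ∧ centralizer (H : Set (G ⧸ K)) = ⊥ ∧
      (∀ r, π r → ¬ r ∣ Nat.card K ∧ ¬ r ∣ H.index) ∧ ∀ r u, π r → u.Prime → NAd G u r →
        u ^ (Nat.card K).factorization u ≡ 1 [MOD r ^ (Nat.card G).factorization r] ∧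
          u ^ H.index.factorization u ∣ r - 1 := by
  have all : ∀ (M : Subgroup G) [M.Normal] r s, π r → π s → r ∣ Nat.card M → s ∣ Nat.card M := by
    intro M _ r s hr hs d
    obtain ⟨t, ht, a, b⟩ := link r s hr hs
    have e := dvd_of_dvd M (hp r hr).1 (hp r hr).2.2.1 d (hp t ht).1 (hp t ht).2.1
      (hp t ht).2.2.2 a.2
    rcases b with rfl | b
    · exact e
    exact dvd_of_dvd M (hp t ht).1 (hp t ht).2.2.1 e (hp s hs).1 (hp s hs).2.1 (hp s hs).2.2.2 b.2
  obtain ⟨s, hs⟩ := ne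
  obtain ⟨t, ht, nt, -⟩ := link s s hs hs
  obtain ⟨K, _, k1, kmax⟩ := exists_core (G := G) (hp s hs).1
  have sj := QuotientGroup.mk'_surjective K
  have kg : ∀ r, π r → ¬ r ∣ Nat.card K := fun r hr d => k1 (all K r s hr hs d)
  have al : ∀ M : Subgroup (G ⧸ K), M.Normal → M ≠ ⊥ → ∀ r, π r → r ∣ Nat.card M := by
    intro M hM h0 r hr
    have a : s ∣ Nat.card (M.comap (QuotientGroup.mk' K)) := by
      by_contra e
      refine h0 (eq_bot_iff.2 fun x hx => ?_)
      obtain ⟨y, rfl⟩ := sj x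
      exact (QuotientGroup.eq_one_iff y).2 (kmax _ inferInstance e hx)
    exact ((hp r hr).1.dvd_mul.1 ((all _ s r hs hr a).trans
      (QuotientGroup.card_preimage_mk K M).dvd)).resolve_left (kg r hr)
  have : Nontrivial (G ⧸ K) := Finite.one_lt_card_iff_nontrivial.1 ((hp s hs).1.one_lt.trans_le
    (Nat.le_of_dvd Nat.card_pos (((hp s hs).1.dvd_mul.1
      (card_eq_card_quotient_mul_card_subgroup K ▸ (hp s hs).2.1)).resolve_right k1)))
  have cy : ∀ r, π r → Cyc (G ⧸ K) r := fun r hr => (hp r hr).2.2.1.of_surj sj (hp r hr).1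
  obtain ⟨H, hH, h0, h1, h2, h3⟩ := exists_socle (hp t ht).1 (hp s hs).1 nt.1 (cy s hs)
    (fun a => nt.2 (a.of_surj sj)) fun M hM h0 => ⟨al M hM h0 t ht, al M hM h0 s hs⟩
  have tp : ∀ r, π r → ∃ L : Subgroup (G ⧸ K), commutator (G ⧸ K) ≤ L ∧ L.index ∣ r - 1 ∧
      ∀ u i, u.Prime → NAd G u r → u ^ i ∣ H.index → u ^ i ∣ L.index := fun r hr => by
    obtain ⟨L, -, l1, l2, l3, l4⟩ := exists_top H (hp r hr).1 (cy r hr) (al H hH h0 r hr)
    refine ⟨L, l2, l3, fun u i hu a d => ?_⟩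
    rw [← relIndex_mul_index l1] at d
    exact ((hu.coprime_iff_not_dvd.2 fun c => (l4 u hu c).elim a.1
      fun b => a.2 (b.of_surj sj)).pow_left i).dvd_of_dvd_mul_left d
  have hc : H ≤ commutator (G ⧸ K) := by
    rcases h1.eq_bot_or_eq_top_of_normal (commutator H) inferInstance with e | e
    · have := map_subtype_commutator H
      rw [e, Subgroup.map_bot, eq_comm, commutator_eq_bot_iff_le_centralizer, h3] at this
      exact absurd (le_bot_iff.1 this) h0
    · have := map_subtype_commutator H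
      rw [e, ← MonoidHom.range_eq_map, range_subtype] at this
      exact this.trans_le (commutator_mono le_top le_top)
  refine ⟨K, inferInstance, H, hH, h1, h2, h3, fun r hr => ⟨kg r hr, fun d => ?_⟩,
    fun r u hr hu a => ⟨free_pow K (hp r hr).1 (kg r hr) hu a.1 a.2, ?_⟩⟩
  · obtain ⟨x, hx, a, -⟩ := link r r hr hr
    obtain ⟨L, l2, -, l4⟩ := tp x hx
    have := Fact.mk (hp r hr).1
    obtain ⟨P⟩ : Nonempty (Sylow r (G ⧸ K)) := inferInstance
    have := cy r hr P
    refine P.not_dvd_card_commutator_or_not_dvd_index_commutator.elim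
      (fun e => e ((al H hH h0 r hr).trans (card_dvd_of_le hc))) fun e => e ?_
    exact (pow_one r ▸ l4 r 1 (hp r hr).1 a.symm (by rwa [pow_one])).trans (index_dvd_of_le l2)
  · obtain ⟨L, -, l3, l4⟩ := tp r hr
    exact (l4 u _ hu a (Nat.ordProj_dvd _ _)).trans l3

theorem unip_exp {F V : Type} [Field F] [AddCommGroup V] [Module F V] [Module.Finite F V]
    (hv : v.Prime) (h0 : (v : F) = 0) {g : Module.End F V} {k : ℕ} (h : g ^ v ^ k = 1)
    (hd : Module.finrank F V ≤ v ^ j) : g ^ v ^ j = 1 := by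
  rcases subsingleton_or_nontrivial (Module.End F V) with _ | _
  · exact Subsingleton.elim _ _
  have := Fact.mk hv
  have : CharP (Module.End F V) v := (CharP.charP_iff_prime_eq_zero hv).2 (by
    rw [← map_natCast (algebraMap F (Module.End F V)), h0, map_zero])
  have e : ∀ n, (g - 1) ^ v ^ n = g ^ v ^ n - 1 := fun n => by
    rw [sub_pow_char_pow_of_commute _ _ (Commute.one_right g), one_pow]
  have h1 : IsNilpotent (g - 1) := ⟨v ^ k, by rw [e, h, sub_self]⟩
  have h2 := LinearMap.aeval_self_charpoly (g - 1)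
  rw [h1.charpoly_eq_X_pow_finrank, map_pow, Polynomial.aeval_X] at h2
  rw [← sub_eq_zero, ← e]
  exact pow_eq_zero_of_le hd h2

theorem not_cyc {F V Γ : Type} [Field F] [AddCommGroup V] [Module F V] [Module.Finite F V]
    [Group Γ] [Finite Γ] (ι : Γ →* Module.End F V) (hι : Function.Injective ι) (hv : v.Prime)
    (h0 : (v : F) = 0) (hd : Module.finrank F V ≤ v ^ j) (e : IsPQ G Γ)
    (h : v ^ (j + 1) ∣ Nat.card G) : ¬ Cyc G v := by
  intro hc
  have := Fact.mk hv
  obtain ⟨e⟩ := e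
  obtain ⟨P⟩ : Nonempty (Sylow v G) := inferInstance
  obtain ⟨g, hg⟩ := (hc P).exists_ofOrder_eq_natCard
  have h1 : Adj G (v ^ (j + 1)) 1 := adj_of_dvd (g := (g : G)) (by
    rw [mul_one, orderOf_coe, hg, P.card_eq_multiplicity]
    exact pow_dvd_pow _ ((hv.pow_dvd_iff_le_factorization Nat.card_pos.ne').1 h))
  obtain ⟨x, hx⟩ := h1.of_surj (φ := e.symm.toMonoidHom.comp (QuotientGroup.mk' (center Γ)))
    (e.symm.surjective.comp (QuotientGroup.mk'_surjective _))
  rw [mul_one] at hx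
  have h2 : ι x ^ v ^ j = 1 := unip_exp hv h0 (k := j + 1)
    (by rw [← map_pow, ← hx, pow_orderOf_eq_one, map_one]) hd
  rw [← map_pow, ← map_one ι] at h2
  have h3 := orderOf_dvd_of_pow_eq_one (hι h2)
  rw [hx, Nat.pow_dvd_pow_iff_le_right hv.one_lt] at h3
  omega

/-- The Sylow `v`-subgroups are not cyclic if they are large. -/
def NC (G : Type) [Group G] (v d : ℕ) : Prop :=
  ∀ j, d ≤ v ^ j → v ^ (j + 1) ∣ Nat.card G → ¬ Cyc G v

variable {m q : ℕ}

theorem nc_PL_aux1 {F : Type} [Field F] [Finite F] (hv : v.Prime) (h : v ∣ Nat.card F) :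
    (v : F) = 0 := by
  have := Fact.mk hv
  cases nonempty_fintype F
  exact (ringChar.spec F v).2 (by
    have h1 := (prime_dvd_char_iff_dvd_card (R := F) v).2 (by rwa [← Nat.card_eq_fintype_card])
    rw [(Nat.prime_dvd_prime_iff_eq hv (CharP.char_is_prime F (ringChar F))).1 h1])

theorem nc_PL_aux2 {F I Γ : Type} [Field F] [Finite F] [Fintype I] [DecidableEq I] [Group Γ]
    (f : Γ →* Matrix I I F) (hf : Function.Injective f) (e : IsPQ G Γ) (hv : v.Prime)
    (h : v ∣ Nat.card F) : NC G v (Fintype.card I) := fun j h1 h2 =>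
  have := Finite.of_injective f hf
  not_cyc ((Matrix.toLinAlgEquiv' : Matrix I I F ≃ₐ[F] _).toMulEquiv.toMonoidHom.comp f)
    ((Matrix.toLinAlgEquiv' : Matrix I I F ≃ₐ[F] _).injective.comp hf) hv (nc_PL_aux1 hv h)
    (by rwa [Module.finrank_fintype_fun_eq_card]) e h2

theorem nc_PL {F : Type} [Field F] [Finite F] (e : G ≃* PL m F) (hv : v.Prime)
    (h : v ∣ Nat.card F) : NC G v m := by
  have := nc_PL_aux2 (G := G) (Matrix.SpecialLinearGroup.coeMonoidHom (ι := Fin m) (R := F))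
    Matrix.SpecialLinearGroup.coeMonoidHom_injective ⟨e⟩ hv h
  rwa [Fintype.card_fin] at this

theorem nc_SU (e : IsSU G m q) (hv : v.Prime) (h : v ∣ q) : NC G v m := by
  obtain ⟨F, _, _, _, hc, -, e⟩ := e
  have := nc_PL_aux2 (Matrix.specialUnitaryGroup (Fin m) F).subtype Subtype.val_injective e hv
    (hc ▸ dvd_pow h two_ne_zero)
  rwa [Fintype.card_fin] at this

theorem nc_Sp (e : IsSp G m q) (hv : v.Prime) (h : v ∣ q) : NC G v (2 * m) := by
  obtain ⟨F, _, _, hc, e⟩ := e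
  have := nc_PL_aux2 (Matrix.symplecticGroup (Fin m) F).subtype Subtype.val_injective e hv (hc ▸ h)
  rwa [Fintype.card_sum, Fintype.card_fin, ← two_mul] at this

theorem nc_Om (e : IsOm G m q) (hv : v.Prime) (h : v ∣ q) : NC G v m := by
  obtain ⟨F, _, _, Q, hc, -, e⟩ := e
  intro j h1 h2
  have hi : Function.Injective (LinearEquiv.automorphismGroup.toLinearMapMonoidHom.comp
      ((orth Q).subtype.comp (_root_.commutator (orth Q)).subtype)) :=
    LinearEquiv.toLinearMap_injective.comp (Subtype.val_injective.comp Subtype.val_injective)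
  have : Finite (Module.End F (Fin m → F)) := DFunLike.finite _
  have := Finite.of_injective _ hi
  exact not_cyc _ hi hv (nc_PL_aux1 hv (hc ▸ h)) (by rwa [Module.finrank_fin_fun]) e h2

theorem adj_L2_aux1 {F : Type} [Field F] [Finite F] {e : ℕ} (h : e ∣ Nat.card F - 1) :
    ∃ A : SLn 2 F, orderOf A = e := by
  obtain ⟨g, hg⟩ := IsCyclic.exists_ofOrder_eq_natCard (α := Fˣ)
  have h1 := orderOf_pow_orderOf_div (orderOf_pos g).ne' (n := e) (by rwa [hg, Nat.card_units])
  let φ : Fˣ →* SLn 2 F :=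
    { toFun a := ⟨Matrix.diagonal ![(a : F), (a⁻¹ : Fˣ)], by simp⟩
      map_one' := by
        ext i j
        fin_cases i <;> fin_cases j <;> simp
      map_mul' := fun a b => by
        ext i j
        fin_cases i <;> fin_cases j <;> simp [mul_comm] }
  refine ⟨φ _, (orderOf_injective φ (fun a b k => Units.ext ?_) _).trans h1⟩
  exact congrArg (fun A : SLn 2 F => A.1 0 0) k

theorem adj_L2_aux2 (u : ℕ) : u ^ 2 - 1 = (u + 1) * (u - 1) := by
  simpa using Nat.sq_sub_sq u 1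

theorem adj_L2 {F : Type} [Field F] [Finite F] (hr : r.Prime) (hs : s.Prime) (hne : r ≠ s)
    (r2 : r ≠ 2) (s2 : s ≠ 2) (h : r ∣ Nat.card F - 1 ∧ s ∣ Nat.card F - 1 ∨
      r ∣ Nat.card F + 1 ∧ s ∣ Nat.card F + 1) : Adj (PL 2 F) r s := by
  have hc := (Nat.coprime_primes hr hs).2 hne
  have h1 : 1 < Nat.card F := Finite.one_lt_card
  obtain ⟨A, hA⟩ : ∃ A : SLn 2 F, orderOf A = r * s := by
    rcases h with h | h
    · exact adj_L2_aux1 (hc.mul_dvd_of_dvd_of_dvd h.1 h.2)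
    · have k : ∀ x, x.Prime → x ≠ 2 → x ∣ Nat.card F + 1 → x.Coprime (Nat.card F - 1) :=
        fun x hx x2 k1 => hx.coprime_iff_not_dvd.2 fun k2 => by
          have k3 := Nat.dvd_sub k1 k2
          rw [show Nat.card F + 1 - (Nat.card F - 1) = 2 by omega] at k3
          exact x2 ((Nat.prime_dvd_prime_iff_eq hx Nat.prime_two).1 k3)
      refine exists_el two_pos le_rfl ((hc.mul_dvd_of_dvd_of_dvd h.1 h.2).trans ?_)
        ((k r hr r2 h.1).mul_left (k s hs s2 h.2))
      rw [adj_L2_aux2]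
      exact dvd_mul_right _ _
  refine ⟨QuotientGroup.mk A, (orderOf_mk_center ?_).trans hA⟩
  rw [hA, card_center two_pos]
  exact (((Nat.coprime_primes hr Nat.prime_two).2 r2).mul_left
    ((Nat.coprime_primes hs Nat.prime_two).2 s2)).coprime_dvd_right (Nat.gcd_dvd_left _ _)

theorem three_L2 {F : Type} [Field F] [Finite F] (e : G ≃* PL 2 F) {a b c : ℕ}
    (h : ∀ x, x = a ∨ x = b ∨ x = c → x.Prime ∧ x ≠ 2 ∧ x ∣ Nat.card G ∧ ¬ x ∣ Nat.card F)
    (h1 : NAd G a b) (h2 : NAd G a c) (h3 : NAd G b c) : False := by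
  have hc := card_PL (F := F) (n := 2) two_pos
  rw [← Nat.card_congr e.toEquiv, ordSL, Finset.Icc_self, Finset.prod_singleton, adj_L2_aux2] at hc
  have k : ∀ x, x = a ∨ x = b ∨ x = c → x ∣ Nat.card F + 1 ∨ x ∣ Nat.card F - 1 := fun x hx => by
    obtain ⟨k1, -, k2, k3⟩ := h x hx
    exact k1.dvd_mul.1 ((k1.dvd_mul.1 (hc ▸ k2.mul_right _)).resolve_left
      fun k4 => k3 (k1.dvd_of_dvd_pow k4))
  have l : ∀ x y, x = a ∨ x = b ∨ x = c → y = a ∨ y = b ∨ y = c → NAd G x y →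
      ¬ (x ∣ Nat.card F - 1 ∧ y ∣ Nat.card F - 1 ∨ x ∣ Nat.card F + 1 ∧ y ∣ Nat.card F + 1) :=
    fun x y hx hy n k1 => n.2 ((adj_L2 (h x hx).1 (h y hy).1 n.1 (h x hx).2.1 (h y hy).2.1
      k1).of_surj (φ := e.toMonoidHom) e.surjective)
  have ka := k a (by simp)
  have kb := k b (by simp)
  have kc := k c (by simp)
  have l1 := l a b (by simp) (by simp) h1
  have l2 := l a c (by simp) (by simp) h2
  have l3 := l b c (by simp) (by simp) h3
  tauto

end Pool.Agent.Lib.MP_7d41f7_al
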