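import Pool.Agent.Lib.MP_7d41f7_al.D.TDefs

/-! The order of a group of Lie type and the order of its Sylow subgroup. -/

set_option autoImplicit false

namespace Pool.Agent.Lib.MP_7d41f7_al

open Finset

variable {h m u : ℕ}

theorem sz_of {e W : ℤ} {N s c : ℕ} (hu : 2 ≤ u) (he : 0 < e) (hh : h * e = u ^ N * W)
    (hW : W ≤ u ^ s) (hs : 3 * (N + s) ≤ N * c) : h ^ 3 ≤ (u ^ N) ^ c := by
  have h2 : (h : ℤ) ≤ u ^ (N + s) := by
    rw [pow_add]
    exact ((le_mul_of_one_le_right (Int.natCast_nonneg h) he).trans hh.le).trans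
      (mul_le_mul_of_nonneg_left hW (by positivity))
  have h3 : h ≤ u ^ (N + s) := by exact_mod_cast h2
  refine (Nat.pow_le_pow_left h3 3).trans ?_
  rw [← pow_mul, ← pow_mul, mul_comm _ 3]
  exact Nat.pow_le_pow_right (by omega) hs

theorem sz_dvd {e W ε : ℤ} {N : ℕ} (hε : ε * ε = 1) (hd : e ∣ u - ε) (hh : h * e = u ^ N * W) :
    u ^ N ∣ h := by
  obtain ⟨w, hw⟩ := hd
  have cp : IsCoprime (u : ℤ) e := ⟨ε, -ε * w, by linear_combination ε * hw + hε⟩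
  exact_mod_cast cp.pow_left.dvd_of_dvd_mul_right (Dvd.intro _ hh.symm)

theorem fat_sub {u : ℤ} (hu : 1 ≤ u) (i : ℕ) : 0 ≤ u ^ i - 1 := sub_nonneg.2 (one_le_pow₀ hu)

theorem fat_pair {u : ℤ} (hu : 1 ≤ u) {i j : ℕ} (h : j ≤ i) :
    (u ^ i + 1) * (u ^ j - 1) ≤ u ^ (i + j) := by
  have := pow_le_pow_right₀ hu h
  rw [pow_add]
  linarith

theorem fat_prodB {u : ℤ} (hu : 1 ≤ u) (m : ℕ) :
    ∏ i ∈ Icc 1 m, (u ^ (2 * i) - 1) ≤ u ^ (m * (m + 1)) := by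
  induction m with
  | zero => simp
  | succ m ih =>
    rw [prod_Icc_succ_top (by omega), show (m + 1) * (m + 1 + 1) = m * (m + 1) + 2 * (m + 1) by ring,
      pow_add u (m * (m + 1))]
    exact mul_le_mul ih (by omega) (fat_sub hu _) (by positivity)

theorem fat_prodU {u : ℤ} (hu : 1 ≤ u) (k : ℕ) :
    ∏ i ∈ Icc 2 (2 * k + 1), (u ^ i - (-1) ^ i) ≤ u ^ (k * (2 * k + 3)) := by
  induction k with
  | zero => simp
  | succ k ih =>
    rw [show 2 * (k + 1) + 1 = 2 * k + 1 + 1 + 1 by ring, prod_Icc_succ_top (by omega),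
      prod_Icc_succ_top (by omega), Even.neg_one_pow ⟨k + 1, by ring⟩,
      Odd.neg_one_pow ⟨k + 1, by ring⟩, sub_neg_eq_add, mul_assoc, mul_comm (_ - 1),
      show (k + 1) * (2 * (k + 1) + 3) = k * (2 * k + 3) + (2 * k + 1 + 1 + 1 + (2 * k + 1 + 1)) by
        ring, pow_add u (k * _)]
    exact mul_le_mul ih (fat_pair hu (by omega)) (mul_nonneg (by positivity) (fat_sub hu _))
      (by positivity)

theorem fat_prodA {u : ℤ} (hu : 1 ≤ u) (m : ℕ) :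
    ∏ i ∈ Icc 2 (m + 1), (u ^ i - 1) ≤ u ^ (m * (m + 3) / 2) := by
  induction m with
  | zero => simp
  | succ m ih =>
    rw [prod_Icc_succ_top (by omega), show (m + 1) * (m + 1 + 3) = m * (m + 3) + (m + 1 + 1) * 2 by
      ring, Nat.add_mul_div_right _ _ two_pos, pow_add u (_ / 2)]
    exact mul_le_mul ih (by omega) (fat_sub hu _) (by positivity)

theorem fat_one (hu : 2 ≤ u) : (1 : ℤ) ≤ u := by omega

theorem sz_A (hu : 2 ≤ u) (hm : 3 ≤ m) (hh : h * Nat.gcd m (u - 1) = ordSL m u) :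
    h ^ 3 ≤ (u ^ (m * (m - 1) / 2)) ^ 8 := by
  obtain ⟨k, rfl⟩ : ∃ k, m = k + 1 := ⟨m - 1, by omega⟩
  have c : ∀ i, ((u ^ i - 1 : ℕ) : ℤ) = (u : ℤ) ^ i - 1 := fun i => by
    rw [Nat.cast_pred (by positivity), Nat.cast_pow]
  refine sz_of hu (e := Nat.gcd (k + 1) (u - 1))
    (Int.natCast_pos.2 (Nat.gcd_pos_of_pos_left _ k.succ_pos)) ?_ (fat_prodA (fat_one hu) k) ?_
  · rw [← Nat.cast_mul, hh, ordSL, Nat.cast_mul, Nat.cast_prod, Nat.cast_pow]
    simp only [c]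
  · have := Nat.two_mul_div_two_of_even (mul_comm k _ ▸ Nat.even_mul_succ_self k)
    have := Nat.mul_div_le (k * (k + 3)) 2
    rw [Nat.add_sub_cancel]
    nlinarith

theorem sz_U (hu : 2 ≤ u) (hm : 3 ≤ m) (hh : OrdU m u h) :
    h ^ 3 ≤ (u ^ (m * (m - 1) / 2)) ^ 8 := by
  have u1 := fat_one hu
  have e0 : (0 : ℤ) < Int.gcd m ((u : ℤ) + 1) :=
    Int.natCast_pos.2 (Int.gcd_pos_of_ne_zero_left _ (by omega))
  rcases Nat.even_or_odd' (m - 1) with ⟨k, e | e⟩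
  · obtain rfl : m = 2 * k + 1 := by omega
    refine sz_of hu e0 hh (fat_prodU u1 k) ?_
    rw [Nat.add_sub_cancel, mul_left_comm, Nat.mul_div_cancel_left _ two_pos]
    nlinarith
  · obtain rfl : m = 2 * k + 1 + 1 := by omega
    refine sz_of (s := k * (2 * k + 3) + (2 * k + 1 + 1)) hu e0 hh ?_ ?_
    · rw [prod_Icc_succ_top (by omega), Even.neg_one_pow ⟨k + 1, by ring⟩, pow_add _ (k * _)]
      exact mul_le_mul (fat_prodU u1 k) (by omega) (fat_sub u1 _) (by positivity)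
    · rw [Nat.add_sub_cancel, show (2 * k + 1 + 1) * (2 * k + 1) = 2 * ((k + 1) * (2 * k + 1)) by
        ring, Nat.mul_div_cancel_left _ two_pos]
      have : 1 ≤ k := by omega
      nlinarith

theorem sz_B (hu : 2 ≤ u) (hm : 2 ≤ m) (hh : OrdB m u h) : h ^ 3 ≤ (u ^ (m * m)) ^ 8 :=
  sz_of hu (Int.natCast_pos.2 (Int.gcd_pos_of_ne_zero_left _ two_ne_zero)) hh
    (fat_prodB (fat_one hu) m) (by nlinarith)

theorem sz_D {ε : ℤ} (hε : ε = 1 ∨ ε = -1) (hu : 2 ≤ u) (hm : 4 ≤ m) (hh : OrdD ε m u h) :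
    h ^ 3 ≤ (u ^ (m * (m - 1))) ^ 8 := by
  have u1 := fat_one hu
  have u2 : (2 : ℤ) ≤ u := by omega
  obtain ⟨k, rfl⟩ : ∃ k, m = k + 1 := ⟨m - 1, by omega⟩
  refine sz_of (s := k + 1 + 1 + k * (k + 1)) hu
    (Int.natCast_pos.2 (Int.gcd_pos_of_ne_zero_left _ four_ne_zero))
    (hh.trans (mul_assoc _ _ _)) ?_ ?_
  · rw [pow_add _ (k + 1 + 1), Nat.add_sub_cancel]
    refine mul_le_mul ?_ (fat_prodB u1 k) (prod_nonneg fun i _ => fat_sub u1 _) (by positivity)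
    have := one_le_pow₀ (n := k + 1) u1
    rw [pow_succ _ (k + 1)]
    rcases hε with rfl | rfl <;> nlinarith
  · rw [Nat.add_sub_cancel]
    nlinarith

theorem sz_exc (hu : 2 ≤ u) (hh : ExcOrd2 u h) : ∃ N, u ^ N ∣ h ∧ h ^ 3 ≤ (u ^ N) ^ 8 ∧
    (¬ 2 ∣ u → h ^ 3 ≤ (u ^ N) ^ 7) := by
  have u1 := fat_one hu
  have s := fat_sub u1
  have l : ∀ i, (u : ℤ) ^ i - 1 ≤ u ^ i := fun i => by omega
  have z : ∀ a b : ℤ, a ≠ 0 → (0 : ℤ) < Int.gcd a b := fun a b e =>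
    Int.natCast_pos.2 (Int.gcd_pos_of_ne_zero_left _ e)
  have k : ∀ (J : List ℕ), (J.map fun i => (u : ℤ) ^ i - 1).prod ≤ u ^ J.sum := fun J => by
    induction J with
    | nil => simp
    | cons a J ih =>
      rw [List.map_cons, List.prod_cons, List.sum_cons, pow_add]
      exact mul_le_mul (l a) ih (List.prod_nonneg fun x hx => by
        obtain ⟨i, -, rfl⟩ := List.mem_map.1 hx
        exact s i) (by positivity)
  have p := fun i j => fat_pair u1 (i := i) (j := j)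
  have p0 : ∀ i j, 0 ≤ ((u : ℤ) ^ i + 1) * (u ^ j - 1) := fun i j =>
    mul_nonneg (by positivity) (s j)
  have w : ∀ (N : ℕ) {e W ε : ℤ} {s : ℕ}, ε * ε = 1 → e ∣ u - ε → 0 < e → h * e = u ^ N * W →
      W ≤ u ^ s → 3 * (N + s) ≤ N * 7 → ∃ N, u ^ N ∣ h ∧ h ^ 3 ≤ (u ^ N) ^ 8 ∧
        (¬ 2 ∣ u → h ^ 3 ≤ (u ^ N) ^ 7) := fun N _ _ _ _ a b c d e f =>
    ⟨N, sz_dvd a b d, sz_of hu c d e (by omega), fun _ => sz_of hu c d e f⟩
  have o := one_mul (1 : ℤ)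
  rcases hh with e | e | e | e | e | e | e | e | e | e
  · exact w 6 o (one_dvd _) one_pos (by simp [e, mul_assoc]) (k [6, 2]) (by decide)
  · exact w 24 o (one_dvd _) one_pos (by simp [e, mul_assoc]) (k [12, 8, 6, 2]) (by decide)
  · exact w 36 o (Int.gcd_dvd_right _ _) (z _ _ three_ne_zero) (by simp [e, mul_assoc])
      (k [12, 9, 8, 6, 5, 2]) (by decide)
  · refine w 36 (ε := -1) (s := 9 + 8 + (5 + 2) + [12, 6].sum) rfl
      (Int.gcd_dvd_right 3 (u + 1)) (z _ _ three_ne_zero)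
      (W := (u ^ 9 + 1) * (u ^ 8 - 1) * ((u ^ 5 + 1) * (u ^ 2 - 1)) *
        ([12, 6].map fun i => (u : ℤ) ^ i - 1).prod) (by simp [e]; ring) ?_ (by decide)
    rw [pow_add _ (_ + _), pow_add _ (9 + 8)]
    exact mul_le_mul (mul_le_mul (p 9 8 (by omega)) (p 5 2 (by omega)) (p0 _ _) (by positivity))
      (k _) (by simpa using mul_nonneg (s 12) (s 6)) (by positivity)
  · exact w 63 o (Int.gcd_dvd_right _ _) (z _ _ two_ne_zero) (by simp [e, mul_assoc])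
      (k [18, 14, 12, 10, 8, 6, 2]) (by decide)
  · exact w 120 o (one_dvd _) one_pos (by simp [e, mul_assoc]) (k [30, 24, 20, 18, 14, 12, 8, 2])
      (by decide)
  · refine w 12 (s := 10 + 6) o (one_dvd _) one_pos
      (W := (u ^ 8 + u ^ 4 + 1) * (u ^ 2 - 1) * (u ^ 6 - 1)) (by rw [e]; ring) ?_ (by decide)
    rw [pow_add _ 10]
    refine mul_le_mul ?_ (l 6) (s 6) (by positivity)
    have := pow_le_pow_right₀ u1 (show 6 ≤ 8 by omega)
    have := pow_le_pow_right₀ u1 (show 2 ≤ 4 by omega)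
    linarith
  · have d : (h : ℤ) * 1 = u ^ 2 * ((u ^ 2 + 1) * (u ^ 1 - 1)) := by rw [e.2]; ring
    exact ⟨2, sz_dvd o (one_dvd _) d, sz_of hu one_pos d (p 2 1 one_le_two) (by decide),
      fun c => absurd (by exact_mod_cast e.1) c⟩
  · exact w 3 o (one_dvd _) one_pos (by rw [e]; ring) (p 3 1 (by omega)) (by decide)
  · refine w 12 (s := 6 + 4 + (3 + 1)) o (one_dvd _) one_pos
      (W := (u ^ 6 + 1) * (u ^ 4 - 1) * ((u ^ 3 + 1) * (u ^ 1 - 1))) (by rw [e]; ring) ?_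
      (by decide)
    rw [pow_add _ (6 + 4)]
    exact mul_le_mul (p 6 4 (by omega)) (p 3 1 (by omega)) (p0 _ _) (by positivity)

end Pool.Agent.Lib.MP_7d41f7_al
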