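import Pool.Agent.Lib.MP_7d41f7_al.D.EI
import Pool.Agent.Lib.MP_7d41f7_al.D.YMain

/-! The exceptional groups of large rank: the section. -/

set_option autoImplicit false

namespace Pool.Agent.Lib.MP_7d41f7_al

open Subgroup

variable {G : Type} [Group G] [Finite G] {x : Ex} {r u q p f : ℕ}

omit [Finite G] in
theorem EData.na (h : EData G x q) (hx : x ∈ bigs) (hr : r.Prime) (hu : u.Prime)
    (g : Ord q r ∈ x.gs) (k : Ord q u ∈ x.ks) (a : Ord q u ≠ Ord q r) : NAd G u r := by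
  obtain ⟨s, -, -, t⟩ := te_gs x hx
  obtain ⟨t1, -, -, t2⟩ := t _ g
  have o := (te_ks x hx _ k).1
  exact ⟨fun e => a (e ▸ rfl), h.adj r u hr hu ((te_ks x hx _ (s g)).1.lt hr) (o.lt hu) t1 o.1 a
    ((t2 _ k).resolve_left a).2⟩

theorem ParE.dvd (P : ParE x q) (hr : r.Prime) (g : Ord q r ∈ x.ks) : (r : ℤ) ∣ x.ord q := by
  obtain ⟨a, b, -⟩ := te_ks x P.mem _ g
  have := P.q2
  have d : r ^ 1 ∣ pk q (Ord q r) := pk_pow (by rwa [Int.natAbs_natCast]) (by have := a.1; omega) hr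
    rfl (by simpa using (Ord.dvd_iff _).2 dvd_rfl)
  exact (Int.natCast_dvd_natCast.2 (((dvd_pow_self r one_ne_zero).trans d).trans
    (dvd_pow_self _ b.ne'))).trans (Ex.pk_dvd P.mem g)

theorem esec (P : ParE x q) (h : EData G x q) :
    ∃ (K : Subgroup G) (_ : K.Normal) (H : Subgroup (G ⧸ K)), H.Normal ∧ IsSimpleGroup H ∧
      ¬ IsMulCommutative H ∧ centralizer (H : Set (G ⧸ K)) = ⊥ ∧ KE (Nat.card H) x q := by
  obtain ⟨c, hc, hc'⟩ := h.card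
  obtain ⟨s, s1, -, t⟩ := te_gs x P.mem
  have nc : ∀ r, r.Prime → Ord q r ∈ x.ks → ¬ r ∣ c := fun r hr g d => by
    have := hc' r hr d
    have := (te_ks x P.mem _ g).1.1
    omega
  have ex : ∀ e, ∃ r, (r.Prime ∧ Ord q r ∈ x.gs) ∧ Ord q r ≠ e := fun e => by
    obtain ⟨y, hy, a⟩ := Finset.exists_mem_ne s1 e
    obtain ⟨r, hr, rfl, -⟩ := exists_cls (le_trans (by norm_num) P.q8) (te_ks x P.mem _ (s hy)).1.1
    exact ⟨r, ⟨hr, hy⟩, a⟩
  obtain ⟨K, _, H, h0, h1, h2, h3, h4, h5⟩ := gsec2 (G := G) (fun r => r.Prime ∧ Ord q r ∈ x.gs)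
    (fun r ⟨hr, g⟩ => ⟨hr, by
      have a := P.dvd hr (s g)
      rw [← hc, ← Nat.cast_mul, Int.natCast_dvd_natCast] at a
      exact (hr.dvd_mul.1 a).resolve_right (nc r hr (s g)),
      h.cyc r hr ((te_ks x P.mem _ (s g)).1.lt hr) (t _ g).1, by
      obtain ⟨u, hu, a, b, d⟩ := tight_E P hc hc' hr g
      have n := h.na P.mem hr hu g (s a) b.1
      exact ⟨u, hu, n.1, n.2, d⟩⟩)
    (fun r s' ⟨hr, g⟩ ⟨hs, k⟩ => by
      by_cases e : Ord q s' = Ord q r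
      · obtain ⟨y, ⟨hy, a⟩, b⟩ := ex (Ord q r)
        exact ⟨y, ⟨hy, a⟩, h.na P.mem hr hy g (s a) b,
          .inr (h.na P.mem hy hs a (s k) (e ▸ b.symm))⟩
      · exact ⟨s', ⟨hs, k⟩, h.na P.mem hr hs g (s k) e, .inl rfl⟩)
    ((ex 0).imp fun _ a => a.1)
  have cG : Nat.card G = Nat.card H * H.index * Nat.card K := by
    rw [H.card_mul_index, card_eq_card_quotient_mul_card_subgroup K]
  refine ⟨K, inferInstance, H, h0, h1, h2, h3, P, hc ▸ (Int.natCast_dvd_natCast.2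
    (cG ▸ (dvd_mul_right _ _).mul_right _)).mul_right _, fun u i hu g d => ?_⟩
  have a : ¬ u ∣ Nat.card K ∧ ¬ u ∣ H.index := by
    by_cases e : Ord q u ∈ x.gs
    · exact h4 u ⟨hu, e⟩
    have k := fun r hr (a : Ord q r ∈ x.gs) =>
      h5 r u ⟨hr, a⟩ hu (h.na P.mem hr hu a g fun c => e (c ▸ a))
    exact ⟨notK_E P hc hc' K.card_subgroup_dvd_card hu g fun r hr a => (k r hr a).1,
      fun d => notA_E P hu g e fun r hr a => (dvd_pow_self u
        (hu.factorization_pos_of_dvd H.index_ne_zero_of_finite d).ne').trans (k r hr a).2⟩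
  rw [← hc, ← Nat.cast_mul, Int.natCast_dvd_natCast, cG] at d
  have cp : ∀ x, ¬ u ∣ x → (u ^ i).Coprime x := fun x e => (hu.coprime_iff_not_dvd.2 e).pow_left i
  exact (cp _ a.2).dvd_of_dvd_mul_right ((cp _ a.1).dvd_of_dvd_mul_right
    ((cp c (nc u hu g)).dvd_of_dvd_mul_right d))

theorem emain (hp : p.Prime) (hf : 0 < f) (hx : x ≠ .G2 ∧ x ≠ .D3)
    (hq : 2 ^ 2000 ≤ (p ^ f) ^ x.dim) (h : EData G x (p ^ f)) :
    ∃ (K : Subgroup G) (_ : K.Normal) (H : Subgroup (G ⧸ K)), H.Normal ∧ IsSimpleGroup H ∧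
      ¬ IsMulCommutative H ∧ centralizer (H : Set (G ⧸ K)) = ⊥ ∧ HOutE H x (p ^ f) := by
  have P : ParE x (p ^ f) := ⟨by revert hx; cases x <;> decide, hq⟩
  obtain ⟨K, _, H, h0, h1, h2, h3, D⟩ := esec P h
  obtain ⟨s, -, -, t⟩ := te_gs x P.mem
  have sj := QuotientGroup.mk'_surjective K
  have lie : ∀ {v g N : ℕ}, v.Prime → (v ^ g) ^ N ∣ Nat.card H →
      Nat.card H ^ 3 ≤ ((v ^ g) ^ N) ^ 8 → v = p := fun {v g N} hv a b => by_contra fun hne =>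
    D.cross hv (fun d => hne ((Nat.prime_dvd_prime_iff_eq hv hp).1 (hv.dvd_of_dvd_pow d)))
      (pow_mul v g N ▸ a) (pow_mul v g N ▸ b)
  have u2 : ∀ {v g : ℕ}, v.Prime → 0 < g → 2 ≤ v ^ g := fun hv hg => Nat.one_lt_pow hg.ne' hv.one_lt
  have om : ∀ {m u : ℕ}, IsOm H m u → ∃ v g : ℕ, v.Prime ∧ 0 < g ∧ v ^ g = u :=
    fun ⟨F, _, _, _, e, _⟩ => e ▸ card_vg F
  have ec : ∀ {v g : ℕ}, v.Prime → 0 < g → ExcOrd2 (v ^ g : ℕ) (Nat.card H) → v = p :=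
    fun hv hg a => (sz_exc (u2 hv hg) a).elim fun _ b => lie hv b.1 b.2.1
  refine ⟨K, inferInstance, H, h0, h1, h2, h3, fun m => ⟨fun φ => ?_⟩, fun m F _ _ => ⟨fun φ => ?_⟩,
    fun m u hm a b => ?_, fun m u hm a b => ?_, fun ε m u hε hm a b => ?_, fun y u hu a => ?_,
    fun u hu a => ?_, D.not_spor⟩
  · rcases subsingleton_or_nontrivial (Fin m) with a | a
    · have := φ.injective.subsingleton
      exact false_of_nontrivial_of_subsingleton H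
    refine D.not_alt (m := m) hp ?_ fun r hr g _ => alt_lt hr
      (Ord.ne_two (b := (p ^ f : ℕ)) (by have := (te_ks x P.mem _ (s g)).1.1; omega))
      ((((h.cyc r hr ((te_ks x P.mem _ (s g)).1.lt hr) (t _ g).1).of_surj sj hr).sub hr H).of_surj
        (φ := φ.toMonoidHom) φ.surjective hr)
    rw [Nat.card_congr φ.toEquiv, two_mul_nat_card_alternatingGroup, Nat.card_perm, Nat.card_fin]
  · have hm : 2 ≤ m := by
      by_contra hm
      have := pl_small (F := F) (not_le.1 hm)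
      have := φ.injective.subsingleton
      exact false_of_nontrivial_of_subsingleton H
    obtain ⟨v, g, hv, hg, e⟩ := card_vg F
    have hh : Nat.card H * Nat.gcd m (v ^ g - 1) = ordSL m (v ^ g) := by
      rw [Nat.card_congr φ.toEquiv, e]
      exact card_PL (by omega)
    have L := lt_A hv hg hm hh
    rcases hm.eq_or_lt with rfl | m3
    swap
    · obtain rfl := lie hv L.pp (sz_A (u2 hv hg) m3 hh)
      exact D.lin hp hf hg hm hh
    obtain ⟨o, ho, o1, o2⟩ : ∃ o ∈ insert 0 x.ks, (o ≠ 0 → Ord (p ^ f : ℕ) v ∈ x.ks) ∧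
        ∀ e ∈ x.ks, e ≠ o → e ≠ Ord (p ^ f : ℕ) v := by
      by_cases k : Ord (p ^ f : ℕ) v ∈ x.ks
      · exact ⟨_, Finset.mem_insert_of_mem k, fun _ => k, fun _ _ => id⟩
      · exact ⟨0, Finset.mem_insert_self _ _, fun a => (a rfl).elim, fun _ a _ c => k (c ▸ a)⟩
    rcases te_l2 x P.mem o ho with ⟨a, b⟩ | ⟨a, ha, b, hb, c, hc, e1, e2, e3, e4, e5, e6⟩
    · exact D.cross3 hv (o1 a) (pow_mul v g _ ▸ L.pp) (pow_mul v g _ ▸ L.le) b
    have ex : ∀ e ∈ x.ks, e ≠ o → ∃ r, Ord (p ^ f : ℕ) r = e ∧ r.Prime ∧ r ≠ 2 ∧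
        r ∣ Nat.card H ∧ ¬ r ∣ Nat.card F := fun y hy k => by
      have y3 := (te_ks x P.mem _ hy).1.1
      obtain ⟨r, hr, rfl, -⟩ := exists_cls (le_trans (by norm_num) P.q8) y3
      exact ⟨r, rfl, hr, Ord.ne_two (b := (p ^ f : ℕ)) (by omega),
        pow_one r ▸ D.kept r 1 hr hy (by simpa using P.dvd hr hy), fun d => o2 _ hy k (by
          rw [(Nat.prime_dvd_prime_iff_eq hr hv).1 (hr.dvd_of_dvd_pow (e ▸ d))])⟩
    obtain ⟨a, rfl, ra⟩ := ex a (s ha) e4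
    obtain ⟨b, rfl, rb⟩ := ex b (s hb) e5
    obtain ⟨c, rfl, rc⟩ := ex c hc e6
    have n : ∀ r u, r.Prime → u.Prime → Ord (p ^ f : ℕ) r ∈ x.gs → Ord (p ^ f : ℕ) u ∈ x.ks →
        Ord (p ^ f : ℕ) r ≠ Ord (p ^ f : ℕ) u → NAd H u r := fun r u hr hu i j k =>
      (h.na P.mem hr hu i j k.symm).imp_right (mt fun e => e.of_sub.of_surj sj)
    refine three_L2 φ (a := c) (b := b) (c := a) ?_ (n b c rb.1 rc.1 hb hc e3)
      (n a c ra.1 rc.1 ha hc e2) (n a b ra.1 rb.1 ha (s hb) e1)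
    rintro _ (rfl | rfl | rfl)
    exacts [rc, rb, ra]
  · obtain ⟨v, g, hv, hg, rfl⟩ : ∃ v g : ℕ, v.Prime ∧ 0 < g ∧ v ^ g = u := by
      obtain ⟨F, _, _, _, e, -⟩ := a
      obtain ⟨v, g, hv, hg, e'⟩ := card_vg F
      exact (isPrimePow_nat_iff u).1 ((isPrimePow_pow_iff two_ne_zero).1
        (e ▸ e' ▸ hv.prime.isPrimePow.pow hg.ne'))
    obtain rfl := lie hv (lt_2A hv hg hm b).pp (sz_U (u2 hv hg) hm b)
    exact D.uni hp hf hg hm b
  · obtain ⟨v, g, hv, hg, rfl⟩ : ∃ v g : ℕ, v.Prime ∧ 0 < g ∧ v ^ g = u :=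
      a.elim (fun ⟨F, _, _, e, _⟩ => e ▸ card_vg F) om
    obtain rfl := lie hv (lt_B hv hg hm b).pp (sz_B (u2 hv hg) hm b)
    exact D.sym hp hf hg hm b
  · obtain ⟨v, g, hv, hg, rfl⟩ := om a
    obtain rfl : v = p := lie hv (N := m * (m - 1)) (by
      rcases hε with rfl | rfl
      exacts [(lt_D hv hg hm b).pp,
        (lt_2D hv hg hm (by simpa only [OrdD, sub_neg_eq_add] using b)).pp])
      (sz_D hε (u2 hv hg) hm b)
    exact D.ort hp hf hg hε hm b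
  · obtain ⟨v, g, hv, hg, rfl⟩ := (isPrimePow_nat_iff u).1 hu
    obtain rfl := ec hv hg (Ex.exc2 a)
    exact D.exc hp hf hg a
  · obtain ⟨v, g, hv, hg, rfl⟩ := (isPrimePow_nat_iff u).1 hu
    obtain rfl := ec hv hg a.exc2
    exact D.ree hp hf hg a

end Pool.Agent.Lib.MP_7d41f7_al
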