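import Pool.Agent.Lib.MP_7d41f7_al.C.KDef

/-! The order formulas of the exceptional groups. -/

set_option autoImplicit false

namespace Pool.Agent.Lib.MP_7d41f7_al

/-- The types `E₆`, `²E₆`, `E₇`, `E₈`, `F₄`, `G₂`, `³D₄`. -/
inductive Ex | E6 | U6 | E7 | E8 | F4 | G2 | D3
  deriving DecidableEq

/-- The order of the universal group. -/
def Ex.ord : Ex → ℤ → ℤ
  | .E6, u => u ^ 36 * (u ^ 12 - 1) * (u ^ 9 - 1) * (u ^ 8 - 1) * (u ^ 6 - 1) * (u ^ 5 - 1) *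
      (u ^ 2 - 1)
  | .U6, u => u ^ 36 * (u ^ 12 - 1) * (u ^ 9 + 1) * (u ^ 8 - 1) * (u ^ 6 - 1) * (u ^ 5 + 1) *
      (u ^ 2 - 1)
  | .E7, u => u ^ 63 * (u ^ 18 - 1) * (u ^ 14 - 1) * (u ^ 12 - 1) * (u ^ 10 - 1) * (u ^ 8 - 1) *
      (u ^ 6 - 1) * (u ^ 2 - 1)
  | .E8, u => u ^ 120 * (u ^ 30 - 1) * (u ^ 24 - 1) * (u ^ 20 - 1) * (u ^ 18 - 1) * (u ^ 14 - 1) *
      (u ^ 12 - 1) * (u ^ 8 - 1) * (u ^ 2 - 1)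
  | .F4, u => u ^ 24 * (u ^ 12 - 1) * (u ^ 8 - 1) * (u ^ 6 - 1) * (u ^ 2 - 1)
  | .G2, u => u ^ 6 * (u ^ 6 - 1) * (u ^ 2 - 1)
  | .D3, u => u ^ 12 * (u ^ 8 + u ^ 4 + 1) * (u ^ 6 - 1) * (u ^ 2 - 1)

/-- The order of the centre of the universal group. -/
def Ex.cen : Ex → ℤ → ℕ
  | .E6, u => Int.gcd 3 (u - 1)
  | .U6, u => Int.gcd 3 (u + 1)
  | .E7, u => Int.gcd 2 (u - 1)
  | _, _ => 1

/-- The order formulas of the Suzuki and Ree groups. -/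
def ReeOrd (u h : ℤ) : Prop :=
  (2 ∣ u ∧ h = u ^ 2 * (u ^ 2 + 1) * (u - 1)) ∨ (3 ∣ u ∧ h = u ^ 3 * (u ^ 3 + 1) * (u - 1)) ∨
  (2 ∣ u ∧ h = u ^ 12 * (u ^ 6 + 1) * (u ^ 4 - 1) * (u ^ 3 + 1) * (u - 1))

end Pool.Agent.Lib.MP_7d41f7_al
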