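import Pool.Agent.Lib.MP_7d41f7_al.D.KDef3
import Pool.Agent.Lib.MP_7d41f7_al.E.EDf2
import Pool.Agent.Lib.MP_7d41f7_al.E.RDef

/-! The list of the classification of finite simple groups. -/

set_option autoImplicit false

namespace Pool.Agent.Lib.MP_7d41f7_al

/-- `S` is isomorphic to a group of Lie type: linear, unitary, symplectic, orthogonal, exceptional,
Suzuki or Ree. -/
def IsLie (S : Type) [Group S] : Prop :=
  (∃ n q : ℕ, 2 ≤ n ∧ IsSL S n q ∨ 3 ≤ n ∧ IsSU S n q ∨ 2 ≤ n ∧ IsSp S n q ∨ 7 ≤ n ∧ IsOm S n q) ∨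
    (∃ x q, IsChev S x q) ∨ ∃ y m, IsRee S y m

/-- `S` is on the list of the classification of finite simple groups: it is isomorphic to an
alternating group or to a group of Lie type, or its order is that of a sporadic group or of the
Tits group. -/
def OnList4 (S : Type) [Group S] : Prop :=
  (∃ n : ℕ, Nonempty (S ≃* alternatingGroup (Fin n))) ∨ IsLie S ∨ Nat.card S ∈ sporOrd

end Pool.Agent.Lib.MP_7d41f7_al
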