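import Pool.Agent.Lib.MP_7d41f7_al.L.SPerm

/-! Monomial characters. -/

set_option autoImplicit false

namespace Pool.Agent.Lib.MP_7d41f7_al

open Finset Pool.Agent.Lib.MP_b6945b_al

/-- A linear cocycle on a set with a group action. -/
structure Coc (G X : Type) [Group G] [MulAction G X] where
  c : G → X → ℂˣ
  mul : ∀ g h x, c (g * h) x = c g (h • x) * c h x

namespace Coc

variable {G X Y : Type} [Group G] [MulAction G X] [MulAction G Y] (A : Coc G X) (B : Coc G Y)

open Classical in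
/-- The character of the monomial representation. -/
noncomputable def ch [Fintype X] (g : G) : ℂ := ∑ x, if g • x = x then (A.c g x : ℂ) else 0

/-- The two cocycles agree on the stabiliser of the pair. -/
def Good (p : X × Y) : Prop := ∀ g : G, g • p.1 = p.1 → g • p.2 = p.2 → A.c g p.1 = B.c g p.2

theorem one (x : X) : A.c 1 x = 1 := by
  have := A.mul 1 1 x
  rwa [mul_one, one_smul, left_eq_mul] at this

theorem conj {g : G} {x : X} (k : G) (h : g • x = x) : A.c (k * g * k⁻¹) (k • x) = A.c g x := by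
  have h1 := A.mul (k * g * k⁻¹) k x
  rw [inv_mul_cancel_right, A.mul, h, mul_comm] at h1
  exact (mul_right_cancel h1).symm

/-- The good pairs. -/
def gs : SubMulAction G (X × Y) where
  carrier := {p | A.Good B p}
  smul_mem' k p hp g h1 h2 := by
    have e : g = k * (k⁻¹ * g * k) * k⁻¹ := by group
    have a1 : (k⁻¹ * g * k) • p.1 = p.1 := by
      rw [mul_smul, mul_smul, show g • k • p.1 = k • p.1 from h1, inv_smul_smul]
    have a2 : (k⁻¹ * g * k) • p.2 = p.2 := by
      rw [mul_smul, mul_smul, show g • k • p.2 = k • p.2 from h2, inv_smul_smul]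
    rw [e]
    exact (A.conj k a1).trans ((hp _ a1 a2).trans (B.conj k a2).symm)

theorem exp [Fintype G] [Fintype X] (J : IrrData G) :
    ∃ m : Fin J.n → ℕ, ∀ g : G, A.ch g = ∑ j, m j * J.χ j g := by
  classical
  let σ : G →* Matrix X X ℂ :=
    { toFun := fun g => Matrix.of fun y x => if y = g • x then (A.c g x : ℂ) else 0
      map_one' := by ext y x; simp [A.one, Matrix.one_apply]
      map_mul' := fun g h => by ext y x; simp [Matrix.mul_apply, A.mul, mul_smul] }
  let ρ : G →* Matrix (Fin (Fintype.card X)) (Fin (Fintype.card X)) ℂ :=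
    (Matrix.reindexAlgEquiv ℂ ℂ (Fintype.equivFin X)).toMulEquiv.toMonoidHom.comp σ
  choose m h1 _ using mlt_nat J ρ
  refine ⟨m, fun g => ?_⟩
  simp only [← h1]
  refine Eq.trans ?_ (expand J (ch1_cf ρ) g)
  refine Eq.trans ?_ (Equiv.sum_comp (Fintype.equivFin X).symm fun x => σ g x x).symm
  exact sum_congr rfl fun x _ => if_congr eq_comm rfl rfl

theorem m1_inv {g : G} {x : X} (h : g • x = x) : A.c g⁻¹ x = (A.c g x)⁻¹ := by
  have := A.mul g⁻¹ g x
  rw [inv_mul_cancel, A.one, h] at this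
  exact eq_inv_of_mul_eq_one_left this.symm

open Classical in
theorem m1_pair [Fintype G] (p : X × Y) :
    ∑ g : G, (if g • p = p then (((A.c g p.1)⁻¹ * B.c g p.2 : ℂˣ) : ℂ) else 0) =
      ∑ g : G, if g • p = p ∧ A.Good B p then 1 else 0 := by
  by_cases hp : A.Good B p
  · refine sum_congr rfl fun g _ => ?_
    by_cases h : g • p = p
    · simp [h, hp, hp g (congrArg Prod.fst h) (congrArg Prod.snd h)]
    · simp [h]
  · let f : MulAction.stabilizer G p →* ℂˣ := MonoidHom.mk'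
      (fun g => (A.c g p.1)⁻¹ * B.c g p.2) fun g h => by
        rw [Subgroup.coe_mul, A.mul, B.mul, show (h : G) • p.1 = p.1 from congrArg Prod.fst h.2,
          show (h : G) • p.2 = p.2 from congrArg Prod.snd h.2, mul_inv, mul_mul_mul_comm]
    have h0 := sum_hom_units_eq_zero ((Units.coeHom ℂ).comp f) fun e => hp fun g h1 h2 =>
      inv_mul_eq_one.1 (Units.val_eq_one.1 (DFunLike.congr_fun e ⟨g, Prod.ext h1 h2⟩))
    simp only [hp, and_false, if_false, sum_const_zero, ← sum_filter]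
    rw [← h0]
    exact sum_subtype _ (fun g => by simp) _

theorem inner [Fintype G] [Fintype X] [Fintype Y] :
    ∑ g : G, A.ch g⁻¹ * B.ch g = nOrb G (A.gs B) * Fintype.card G := by
  classical
  have h1 : ∑ g : G, nFix (A.gs B) g = nOrb G (A.gs B) * Fintype.card G := by
    have := fun g : G => Fintype.ofFinite (MulAction.fixedBy (A.gs B) g)
    have := Fintype.ofFinite (MulAction.orbitRel.Quotient G (A.gs B))
    simp only [nFix, nOrb, Nat.card_eq_fintype_card]
    exact MulAction.sum_card_fixedBy_eq_card_orbits_mul_card_group G (A.gs B)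
  have h2 : ∀ g : G, (nFix (A.gs B) g : ℂ) =
      ∑ p : X × Y, if g • p = p ∧ A.Good B p then 1 else 0 := fun g => by
    rw [sum_boole, ← Fintype.card_subtype, ← Nat.card_eq_fintype_card]
    exact congrArg _ (Nat.card_congr ⟨fun x => ⟨x.1.1, congrArg Subtype.val x.2, x.1.2⟩,
      fun x => ⟨⟨x.1, x.2.2⟩, Subtype.ext x.2.1⟩, fun _ => rfl, fun _ => rfl⟩)
  have h3 : ∀ g : G, A.ch g⁻¹ * B.ch g = ∑ p : X × Y,
      if g • p = p then (((A.c g p.1)⁻¹ * B.c g p.2 : ℂˣ) : ℂ) else 0 := fun g => by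
    rw [ch, ch, sum_mul_sum, Fintype.sum_prod_type]
    refine sum_congr rfl fun x _ => sum_congr rfl fun y _ => ?_
    by_cases hx : g • x = x
    · by_cases hy : g • y = y <;> simp [inv_smul_eq_iff, hx, hy, A.m1_inv hx]
    · simp [inv_smul_eq_iff, hx, Ne.symm hx]
  rw [← Nat.cast_mul, ← h1, Nat.cast_sum]
  simp only [h2, h3]
  rw [sum_comm, sum_comm (s := (univ : Finset G))]
  exact sum_congr rfl fun p _ => by simpa using A.m1_pair B p

theorem orb [Fintype G] [Fintype X] [Fintype Y] (J : IrrData G) {a b : Fin J.n → ℕ}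
    (ha : ∀ g : G, A.ch g = ∑ j, a j * J.χ j g) (hb : ∀ g : G, B.ch g = ∑ j, b j * J.χ j g) :
    nOrb G (A.gs B) = ∑ j, a j * b j := by
  have h3 := A.inner B
  simp only [ha, hb, sum_mul_sum] at h3
  rw [sum_comm] at h3
  have h4 : ∀ i, ∑ g : G, ∑ j, a i * J.χ i g⁻¹ * (b j * J.χ j g) =
      (a i * b i : ℂ) * Fintype.card G := fun i => by
    rw [sum_comm]
    simp only [mul_mul_mul_comm _ (J.χ i _), ← mul_sum, J.orth]
    simp
  simp only [h4, ← sum_mul] at h3
  exact_mod_cast (mul_right_cancel₀ IrrData.card_ne h3).symm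

theorem m2_le {Z : Type} [Finite Z] (T : X × Y → Z)
    (h : ∀ p p', A.Good B p → A.Good B p' → T p = T p' → ∃ g : G, g • p = p') :
    nOrb G (A.gs B) ≤ Nat.card Z :=
  Nat.card_le_card_of_injective (fun ω : MulAction.orbitRel.Quotient G (A.gs B) => T ω.out.1)
    fun ω ω' e => Quotient.out_equiv_out.1
      ((h _ _ ω'.out.2 ω.out.2 e.symm).imp fun _ hg => Subtype.ext hg)

theorem m2_one [Fintype X] : A.ch 1 = Nat.card X := by
  simp [ch, A.one]

theorem m2_fix [Fintype X] {g : G} {x : X} (hx : ∀ z, g • z = z ↔ z = x) : A.ch g = A.c g x := by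
  rw [ch, sum_eq_single x (fun z _ hz => if_neg fun e => hz ((hx z).1 e)) (by simp),
    if_pos ((hx x).2 rfl)]

theorem m2_fin [Fintype G] (J : IrrData G) {a b : Fin J.n → ℕ} (hab : a ≠ b)
    (h : ∑ j, b j * b j + ∑ j, a j * a j ≤ 2 * ∑ j, a j * b j + 1) {g : G}
    (hg : ∑ j, a j * J.χ j g = ∑ j, b j * J.χ j g) : orderOf g ∈ Vo G := by
  have h1 : ∑ j, ((b j : ℤ) - a j).natAbs * ((b j : ℤ) - a j).natAbs ≤ 1 := by
    zify at h ⊢
    simp only [abs_mul_abs_self, sub_mul, mul_sub, sum_sub_distrib, mul_comm (b _ : ℤ) (a _)]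
    linarith
  obtain ⟨j, hj⟩ := Function.ne_iff.1 hab
  have h0 : 0 < ((b j : ℤ) - a j).natAbs * ((b j : ℤ) - a j).natAbs :=
    Nat.mul_pos (by omega) (by omega)
  rw [← add_sum_erase _ _ (mem_univ j)] at h1
  have h2 := sum_eq_zero_iff.1 (show ∑ i ∈ univ.erase j,
    ((b i : ℤ) - a i).natAbs * ((b i : ℤ) - a i).natAbs = 0 by omega)
  have h3 : ∑ i, ((b i : ℂ) - a i) * J.χ i g = 0 := by
    simp only [sub_mul, sum_sub_distrib, hg, sub_self]
  rw [sum_eq_single j (fun i _ hi => by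
    have := mul_self_eq_zero.1 (h2 i (mem_erase.2 ⟨hi, mem_univ i⟩))
    rw [show b i = a i by omega, sub_self, zero_mul]) (by simp)] at h3
  exact (mem_Vo J _).2 ⟨g, rfl, j, (mul_eq_zero.1 h3).resolve_left fun e =>
    hj (Nat.cast_injective (sub_eq_zero.1 e)).symm⟩

theorem van2 [Finite G] [Finite X] [Finite Y] (T : Y × Y → Prop)
    (h11 : ∀ p p', A.Good A p → A.Good A p' → ∃ g : G, g • p = p')
    (h22 : ∀ p p', B.Good B p → B.Good B p' → (T p ↔ T p') → ∃ g : G, g • p = p')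
    (h12 : ∃ p, A.Good B p) (hc : Nat.card X ≠ Nat.card Y) {g : G} {x : X} {y : Y}
    (hx : ∀ z, g • z = z ↔ z = x) (hy : ∀ z, g • z = z ↔ z = y) (h : A.c g x = B.c g y) :
    orderOf g ∈ Vo G := by
  have := Fintype.ofFinite G
  have := Fintype.ofFinite X
  have := Fintype.ofFinite Y
  obtain ⟨J⟩ := exists_irrData G
  obtain ⟨a, ha⟩ := A.exp J
  obtain ⟨b, hb⟩ := B.exp J
  have e1 := A.m2_le A (fun _ => ()) fun p p' h h' _ => h11 p p' h h'
  have e2 := B.m2_le B T fun p p' h h' e => h22 p p' h h' (iff_of_eq e)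
  have e3 : 0 < nOrb G (A.gs B) := by
    obtain ⟨p, hp⟩ := h12
    have : Nonempty (MulAction.orbitRel.Quotient G (A.gs B)) := ⟨Quotient.mk _ ⟨p, hp⟩⟩
    exact Nat.card_pos
  rw [A.orb A J ha ha, Nat.card_unique] at e1
  rw [B.orb B J hb hb, Nat.card_eq_fintype_card, Fintype.card_prop] at e2
  rw [A.orb B J ha hb] at e3
  refine m2_fin J (a := a) (b := b) (fun e => hc ?_) (by omega) ?_
  · have := (ha 1).trans (e ▸ (hb 1).symm)
    rwa [m2_one, m2_one, Nat.cast_inj] at this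
  · rw [← ha, ← hb, A.m2_fix hx, B.m2_fix hy, h]

theorem van1 [Finite G] [Finite X] [Nonempty X]
    (h11 : ∀ p p', A.Good A p → A.Good A p' → ∃ g : G, g • p = p') {g : G}
    (hx : ∀ z : X, g • z ≠ z) : orderOf g ∈ Vo G := by
  have := Fintype.ofFinite G
  have := Fintype.ofFinite X
  obtain ⟨J⟩ := exists_irrData G
  obtain ⟨a, ha⟩ := A.exp J
  have e1 := A.m2_le A (fun _ => ()) fun p p' h h' _ => h11 p p' h h'
  rw [A.orb A J ha ha, Nat.card_unique] at e1
  refine m2_fin J (a := a) (b := 0) (fun e => (Nat.card_pos (α := X)).ne' ?_) (by simpa using e1) ?_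
  · have := ha 1
    rw [m2_one, e] at this
    exact Nat.cast_eq_zero.1 (this.trans (by simp))
  · rw [← ha]
    simp [ch, hx]

theorem desc (N : Subgroup G) [N.Normal] (h : ∀ z ∈ N, ∀ x, z • x = x ∧ A.c z x = 1) :
    ∃ (_ : MulAction (G ⧸ N) X) (B : Coc (G ⧸ N) X),
      ∀ (g : G) x, (g : G ⧸ N) • x = g • x ∧ B.c g x = A.c g x := by
  have o : ∀ (g : G) x, (g : G ⧸ N).out • x = g • x ∧ A.c (g : G ⧸ N).out x = A.c g x :=
    fun g x => by
      obtain ⟨z, hz⟩ := QuotientGroup.mk_out_eq_mul N g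
      rw [hz, mul_smul, A.mul, (h z z.2 x).1, (h z z.2 x).2, mul_one]
      exact ⟨rfl, rfl⟩
  let i : MulAction (G ⧸ N) X :=
    { smul := fun γ x => γ.out • x
      one_smul := fun x => (o 1 x).1.trans (one_smul G x)
      mul_smul := fun a b x => QuotientGroup.induction_on a fun a =>
        QuotientGroup.induction_on b fun b => ((o (a * b) x).1.trans (mul_smul a b x)).trans
          ((o a _).1.trans (congrArg _ (o b x).1)).symm }
  refine ⟨i, ⟨fun γ x => A.c γ.out x, fun a b x => QuotientGroup.induction_on a fun a =>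
    QuotientGroup.induction_on b fun b => ((o (a * b) x).2.trans (A.mul a b x)).trans ?_⟩, o⟩
  rw [(o a _).2, (o b x).2, ← (o b x).1]
  rfl

end Coc

variable {F V Γ Y : Type} [Field F] [Finite F] [AddCommGroup V] [Module F V] [Group Γ]

theorem lin_coc [MulAction Γ Y] (ι : Γ →* (V ≃ₗ[F] V)) (v : Y → V) (h0 : ∀ y, v y ≠ 0)
    (h : ∀ g y, ∃ a : Fˣ, ι g (v y) = (a : F) • v (g • y)) (k : ℕ) :
    ∃ (θ : Fˣ →* ℂˣ) (A : Coc Γ Y), Function.Injective θ ∧
      ∀ g y (a : Fˣ), ι g (v y) = (a : F) • v (g • y) → A.c g y = θ (a ^ k) := by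
  have : NeZero (Nat.card Fˣ) := ⟨Nat.card_pos.ne'⟩
  let e : Fˣ ≃* rootsOfUnity (Nat.card Fˣ) ℂ :=
    mulEquivOfCyclicCardEq (Complex.card_rootsOfUnity _).symm
  choose s hs using h
  have u : ∀ g y (a : Fˣ), ι g (v y) = (a : F) • v (g • y) → s g y = a := fun g y a e =>
    Units.ext (smul_left_injective F (h0 _) ((hs g y).symm.trans e))
  refine ⟨(Subgroup.subtype _).comp e.toMonoidHom, ⟨fun g y => e (s g y ^ k), fun g g' y => ?_⟩,
    Subtype.val_injective.comp e.injective, fun g y a e => by rw [← u g y a e]; rfl⟩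
  rw [u (g * g') y (s g (g' • y) * s g' y), mul_pow, map_mul, Subgroup.coe_mul]
  rw [map_mul, LinearEquiv.mul_apply, hs, map_smul, hs, mul_smul, Units.val_mul, mul_smul,
    smul_comm]

theorem lin_van [Finite V] [Finite Γ] (ι : Γ →* (V ≃ₗ[F] V)) (S : V → Prop) (k : ℕ)
    (N : Subgroup Γ) [N.Normal] (h0 : ∀ v, S v → v ≠ 0) (hne : ∃ v, S v)
    (hS : ∀ g v, S v → S (ι g v))
    (tr : ∀ v w, S v → S w → ∃ g, ∃ a : F, ι g v = a • w)
    (bad : ∀ v w, S v → S w → (∀ a : F, w ≠ a • v) →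
      ∃ g, ∃ a b : F, ι g v = a • v ∧ ι g w = b • w ∧ a ^ k ≠ b ^ k)
    (hN : ∀ z ∈ N, ∃ a : F, a ^ k = 1 ∧ ∀ v, ι z v = a • v)
    {g : Γ} (hg : ∀ v, S v → ∀ a : F, ι g v ≠ a • v) : orderOf (g : Γ ⧸ N) ∈ Vo (Γ ⧸ N) := by
  let X := {L : Submodule F V // ∃ v, S v ∧ L = Submodule.span F {v}}
  have m : ∀ g v, (Submodule.span F {v}).map (ι g : V →ₗ[F] V) = Submodule.span F {ι g v} :=
    fun g v => by rw [Submodule.map_span, Set.image_singleton]; rfl
  let _ : MulAction Γ X :=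
    { smul := fun g L => ⟨L.1.map (ι g : V →ₗ[F] V),
        L.2.elim fun v hv => ⟨_, hS g v hv.1, by rw [hv.2, m]⟩⟩
      one_smul := fun L => Subtype.ext (L.2.elim fun v hv => by
        change L.1.map _ = _
        rw [hv.2, m, map_one]; rfl)
      mul_smul := fun a b L => Subtype.ext (L.2.elim fun v hv => by
        change L.1.map _ = (L.1.map _).map _
        rw [hv.2, m, m, m, map_mul]; rfl) }
  have : Nonempty X := hne.elim fun v hv => ⟨⟨_, v, hv, rfl⟩⟩
  choose v hv hl using fun x : X => x.2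
  have n0 : ∀ g x y (a : F), ι g (v x) = a • v y → a ≠ 0 := fun g x y a e z =>
    h0 _ (hS g _ (hv x)) (by rw [e, z, zero_smul])
  have key : ∀ (g : Γ) (x y : X), g • x = y ↔ ∃ a : F, ι g (v x) = a • v y := fun g x y => by
    have e : (g • x).1 = Submodule.span F {ι g (v x)} := by rw [← m, ← hl]; rfl
    rw [Subtype.ext_iff, e, hl y]
    refine ⟨fun h => (Submodule.mem_span_singleton.1
      (h ▸ Submodule.mem_span_singleton_self _)).imp fun _ => Eq.symm, fun ⟨a, ha⟩ => ?_⟩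
    rw [ha, Submodule.span_singleton_smul_eq (n0 g x y a ha).isUnit]
  obtain ⟨θ, A, hθ, hA⟩ := lin_coc ι v (fun x => h0 _ (hv x)) (fun g x =>
    ((key g x _).1 rfl).elim fun a ha => ⟨Units.mk0 a (n0 g x _ a ha), ha⟩) k
  have fx : ∀ g x a (e : ι g (v x) = a • v x),
      g • x = x ∧ A.c g x = θ (Units.mk0 a (n0 g x x a e) ^ k) := fun g x a e =>
    have t := (key g x x).2 ⟨a, e⟩
    ⟨t, hA g x _ (by rw [t]; exact e)⟩
  obtain ⟨_, B, hB⟩ := A.desc N fun z hz x => (hN z hz).elim fun a ha =>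
    ⟨(fx z x a (ha.2 _)).1, (fx z x a (ha.2 _)).2.trans
      ((congrArg θ (Units.ext ((Units.val_pow_eq_pow_val _ _).trans ha.1))).trans (map_one θ))⟩
  have dg : ∀ p : X × X, B.Good B p → p.2 = p.1 := fun p hp => by
    by_contra hn
    obtain ⟨g, a, b, ha, hb, hab⟩ := bad _ _ (hv p.1) (hv p.2) fun a e =>
      hn ((one_smul Γ _).symm.trans ((key 1 p.2 p.1).2 ⟨a, by rw [map_one]; exact e⟩))
    have := hp g ((hB g _).1.trans (fx g _ a ha).1) ((hB g _).1.trans (fx g _ b hb).1)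
    rw [(hB g _).2, (hB g _).2, (fx g _ a ha).2, (fx g _ b hb).2] at this
    exact hab (by simpa using congrArg Units.val (hθ this))
  refine B.van1 (fun p p' hp hp' => ?_) fun z e => ?_
  · obtain ⟨g, ha⟩ := tr _ _ (hv p.1) (hv p'.1)
    have t := (hB g _).1.trans ((key g _ _).2 ha)
    exact ⟨g, Prod.ext t (by rw [dg p' hp', Prod.smul_snd, dg p hp]; exact t)⟩
  · exact ((key g z z).1 ((hB g z).1.symm.trans e)).elim (hg _ (hv z))

end Pool.Agent.Lib.MP_7d41f7_al
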