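import Pool.Agent.Lib.MP_7d41f7_al.D.ZIto
import Pool.Agent.Lib.MP_7d41f7_al.C.GS

/-! Groups with an isolated cyclic Hall subgroup. -/

set_option autoImplicit false

namespace Pool.Agent.Lib.MP_7d41f7_al

open Subgroup

/-- `x` generates an isolated Hall subgroup of index `c`. -/
structure Isol {G : Type} [Group G] (x : G) (c : ℕ) : Prop where
  card : Nat.card G = orderOf x * c
  cop : (orderOf x).Coprime c
  nad : ∀ r u, r.Prime → u.Prime → r ∣ orderOf x → u ∣ c → ¬ Adj G u r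

variable {G : Type} [Group G] [Finite G] {x y : G} {c e r u p : ℕ}

omit [Finite G] in
theorem Isol.ne (h : Isol x c) (hu : u.Prime) (d : u ∣ orderOf x) : ¬ u ∣ c := fun e =>
  Nat.not_coprime_of_dvd_of_dvd hu.one_lt d e h.cop

theorem Isol.index (h : Isol x c) : (zpowers x).index = c :=
  Nat.eq_of_mul_eq_mul_left (orderOf_pos x) (by
    rw [← h.card, ← Nat.card_zpowers, card_mul_index])

theorem Isol.cen (h : Isol x c) (hy : y ∈ zpowers x) (h1 : y ≠ 1) :
    centralizer (zpowers y : Set G) = zpowers x := by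
  have a : zpowers x ≤ centralizer (zpowers y : Set G) := fun z hz w hw =>
    congrArg Subtype.val (mul_comm' (⟨w, zpowers_le.2 hy hw⟩ : zpowers x) ⟨z, hz⟩)
  refine le_antisymm (relIndex_eq_one.1 (by_contra fun b => ?_)) a
  obtain ⟨u, hu, d⟩ := Nat.exists_prime_and_dvd b
  obtain ⟨r, hr, d1⟩ := Nat.exists_prime_and_dvd (mt orderOf_eq_one_iff.1 h1)
  obtain ⟨z, hz, oz⟩ := exists_socle_elt hu (d.trans (relIndex_dvd_card _ _))
  have d2 := d1.trans (orderOf_dvd_of_mem_zpowers hy)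
  have d3 : u ∣ c := h.index ▸ d.trans (relIndex_dvd_index_of_le a)
  exact h.nad r u hr hu d2 d3 (adj_of_commute hu hr (fun e => h.ne hr d2 (e ▸ d3)) oz.symm.dvd d1
    (hz y (mem_zpowers y)).symm)

theorem Isol.cyc (h : Isol x c) (hr : r.Prime) (d : r ∣ orderOf x) : Cyc G r :=
  cyc_of_order hr (orderOf_pow_orderOf_div (orderOf_pos x).ne' (Nat.ordProj_dvd _ r)) fun a =>
    Nat.pow_succ_factorization_not_dvd (orderOf_pos x).ne' hr
      (((hr.coprime_iff_not_dvd.2 (h.ne hr d)).pow_left _).dvd_of_dvd_mul_right (h.card ▸ a))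

theorem Isol.free (h : Isol x c) (N : Subgroup G) [N.Normal]
    (hN : ∀ r, r.Prime → r ∣ orderOf x → ¬ r ∣ Nat.card N) (hu : u.Prime) (d : u ∣ Nat.card N) :
    u ^ (Nat.card N).factorization u ∣ c ∧
      u ^ (Nat.card N).factorization u ≡ 1 [MOD orderOf x] := by
  have a : ¬ u ∣ orderOf x := fun e => hN u hu e d
  have b : ∀ i, u ^ i ∣ Nat.card N → u ^ i ∣ c := fun i e =>
    ((hu.coprime_iff_not_dvd.2 a).pow_left i).dvd_of_dvd_mul_left
      (h.card ▸ e.trans (card_subgroup_dvd_card N))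
  refine ⟨b _ (Nat.ordProj_dvd _ _), ((Nat.modEq_iff_dvd' (pow_pos hu.pos _)).2
    ((Nat.dvd_iff_prime_pow_dvd_dvd _ _).2 fun r i hr hi => ?_)).symm⟩
  rcases i with _ | i
  · simp
  have d1 := (dvd_pow_self r i.succ_ne_zero).trans hi
  exact (pow_dvd_pow r ((hr.pow_dvd_iff_le_factorization Nat.card_pos.ne').1
    (hi.trans (orderOf_dvd_natCard x)))).trans ((Nat.modEq_iff_dvd' (pow_pos hu.pos _)).1
      (free_pow N hr (hN r hr d1) hu (fun e => a (e ▸ d1))
        (h.nad r u hr hu d1 (pow_one u ▸ b 1 (by rwa [pow_one])))).symm)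

theorem mem_norm {S : Subgroup G} [IsCyclic S] (hy : y ∈ S) {g : G} (hg : g * y * g⁻¹ ∈ S) :
    g ∈ normalizer (zpowers y : Set G) := by
  obtain ⟨k, hk⟩ := Cyc.conj_aux1 (G := S) (orderOf_pos y) (x := ⟨y, hy⟩) (y := ⟨_, hg⟩)
    (orderOf_coe _).symm ((orderOf_coe _).symm.trans ((MulAut.conj g).orderOf_eq y))
  refine mem_normalizer_fintype fun w hw => ?_
  obtain ⟨j, rfl⟩ := mem_zpowers_iff.1 hw
  rw [← conj_zpow]
  exact zpow_mem (⟨k, congrArg Subtype.val hk⟩ : _ ∈ zpowers y) j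

theorem Isol.norm (h : Isol x c) (hr : r.Prime) (hy : y ∈ zpowers x) (oy : orderOf y = r)
    (he : e < r) (hc : c ≡ e [MOD r]) :
    (zpowers x).relIndex (normalizer (zpowers y : Set G)) = e := by
  have := Fact.mk hr
  have cen := h.cen hy fun a => hr.ne_one (oy ▸ orderOf_eq_one_iff.2 a)
  have hcard : Nat.card (MulAut (zpowers y)) = r - 1 := by
    rw [IsCyclic.card_mulAut, Nat.card_zpowers, oy, Nat.totient_prime hr]
  have ker := (zpowers y).normalizerMonoidHom_ker
  rw [cen] at ker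
  have le : zpowers x ≤ normalizer (zpowers y : Set G) := cen ▸ centralizer_le_normalizer _
  have d1 : (zpowers x).relIndex (normalizer (zpowers y : Set G)) ∣ r - 1 := by
    rw [relIndex, ← ker, index_ker, ← hcard]
    exact card_subgroup_dvd_card _
  have h3 : IsPGroup r (zpowers y) := IsPGroup.of_card (n := 1) (by
    rw [Nat.card_zpowers, oy, pow_one])
  have h4 : MulAction.fixedPoints (zpowers y) (G ⧸ normalizer (zpowers y : Set G)) =
      {((1 : G) : G ⧸ normalizer (zpowers y : Set G))} := by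
    refine Set.eq_singleton_iff_unique_mem.2 ⟨fun g => QuotientGroup.eq.2 (by
      simpa using le_normalizer g.2), fun t ht => ?_⟩
    obtain ⟨g, rfl⟩ := QuotientGroup.mk_surjective t
    have a : g⁻¹ * y * g⁻¹⁻¹ ∈ normalizer (zpowers y : Set G) := by
      simpa [mul_assoc] using QuotientGroup.eq.1 (ht ⟨y, mem_zpowers y⟩).symm
    have b : (⟨_, a⟩ : normalizer (zpowers y : Set G)) ∈ (zpowers y).normalizerMonoidHom.ker :=
      orderOf_eq_one_iff.1 (Nat.eq_one_of_dvd_coprimes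
        ((Nat.coprime_self_sub_right hr.pos).2 (Nat.coprime_one_right r))
        ((orderOf_map_dvd _ _).trans (dvd_of_eq ((orderOf_coe _).symm.trans
          (((MulAut.conj g⁻¹).orderOf_eq y).trans oy)))) (hcard ▸ orderOf_dvd_natCard _))
    rw [ker] at b
    exact QuotientGroup.eq.2 (by simpa using mem_norm hy b)
  have h6 := h3.card_modEq_card_fixedPoints (G ⧸ normalizer (zpowers y : Set G))
  rw [h4, Nat.card_unique (α := ({_} : Set _)), ← index_eq_card] at h6
  have h7 := h6.mul_left ((zpowers x).relIndex (normalizer (zpowers y : Set G)))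
  rw [relIndex_mul_index le, h.index, mul_one] at h7
  have := Nat.le_of_dvd (Nat.sub_pos_of_lt hr.one_lt) d1
  exact (h7.symm.trans hc).eq_of_lt_of_lt (by omega) he

theorem Isol.top [Nontrivial G] (h : Isol x c)
    (he : ∀ r, r.Prime → r ∣ orderOf x → e < r ∧ c ≡ e [MOD r]) (hec : e ≠ c)
    (hall : ∀ M : Subgroup G, M.Normal → M ≠ ⊥ → ∃ r, r.Prime ∧ r ∣ orderOf x ∧ r ∣ Nat.card M) :
    ∃ H : Subgroup G, H.Normal ∧ IsSimpleGroup H ∧ ¬ IsMulCommutative H ∧
      centralizer (H : Set G) = ⊥ ∧ x ∈ H ∧ H.index ∣ e ∧ H.index ≠ e := by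
  obtain ⟨H, hH, h0, h1⟩ := exists_min_simple (fun r => r ∣ orderOf x) (fun r => h.cyc) hall
  obtain ⟨r, hr, d1, d2⟩ := hall H hH h0
  have := Fact.mk hr
  have cy := h.cyc hr d1
  obtain ⟨y, yH, yX, oy⟩ : ∃ y ∈ H, y ∈ zpowers x ∧ orderOf y = r := by
    obtain ⟨z, hz, oz⟩ := exists_socle_elt hr d2
    obtain ⟨m, -, hm⟩ := cy.conj hr ⊤ trivial trivial
      (orderOf_pow_orderOf_div (orderOf_pos x).ne' d1) oz
    exact ⟨_, hH.conj_mem z hz m, zpowers_le.2 (npow_mem_zpowers x _) hm,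
      ((MulAut.conj m).orderOf_eq z).trans oz⟩
  have cen := h.cen yX fun a => hr.ne_one (oy ▸ orderOf_eq_one_iff.2 a)
  have cX : ∀ g, y * g = g * y → g ∈ zpowers x := fun g a => cen ▸ fun w hw => by
    obtain ⟨k, rfl⟩ := mem_zpowers_iff.1 hw
    exact (Commute.zpow_left a k).eq
  have nm := h.norm hr yX oy (he r hr d1).1 (he r hr d1).2
  have le : zpowers x ≤ normalizer (zpowers y : Set G) := cen ▸ centralizer_le_normalizer _
  have nc : ¬ IsMulCommutative H := fun a => hec (by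
    rw [← nm, ← h.index, ← relIndex_top_right]
    congr 1
    exact eq_top_iff.2 fun g _ => mem_norm yX (cX _
      (congrArg Subtype.val (a.is_comm.comm ⟨y, yH⟩ ⟨_, hH.conj_mem y yH g⟩))))
  obtain ⟨n, nH, nN, nX⟩ : ∃ n ∈ H, n ∈ normalizer (zpowers y : Set G) ∧ n ∉ zpowers x := by
    by_contra a
    push Not at a
    obtain ⟨P, hP⟩ := (IsPGroup.of_card (p := r) (G := zpowers (⟨y, yH⟩ : H)) (n := 1)
      (by rw [Nat.card_zpowers, ← orderOf_coe, oy, pow_one])).exists_le_sylow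
    have yP := hP (mem_zpowers _)
    have := cy.sub hr H P
    have := isCyclic_of_surjective _ (H.subtype.subgroupMap_surjective P)
    have b : normalizer (P : Set H) ≤ centralizer (P : Set H) := fun g hg w hw =>
      Subtype.ext (congrArg (fun z : zpowers x => (z : G)) (mul_comm' ⟨w, cX _ (congrArg
        (fun z : P => (z.1 : G)) (mul_comm' (⟨_, yP⟩ : P) ⟨w, hw⟩))⟩ ⟨g, a g g.2 (mem_norm
          (S := P.1.map H.subtype) ⟨_, yP, rfl⟩ ⟨_, (mem_set_normalizer_iff.1 hg _).1 yP, rfl⟩)⟩))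
    rcases h1.eq_bot_or_eq_top_of_normal (MonoidHom.transferSylow P b).ker inferInstance with c | c
    · exact nc ⟨⟨fun u v => (MonoidHom.ker_eq_bot_iff _).1 c (by
        rw [map_mul, map_mul, mul_comm'])⟩⟩
    · exact MonoidHom.not_dvd_card_ker_transferSylow P b (by rwa [c, card_top])
  have xH : x ∈ H := by
    let φ : zpowers x → zpowers x := fun z => ⟨n * z * n⁻¹ * z⁻¹, mul_mem (cX _ (by
      have t := cen.ge z.2 _ ((mem_normalizer_iff''.1 nN y).1 (mem_zpowers y))
      calc y * (n * z * n⁻¹) = n * (n⁻¹ * y * n * z) * n⁻¹ := by group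
        _ = n * z * n⁻¹ * y := by rw [t]; group)) (inv_mem z.2)⟩
    have inj : Function.Injective φ := fun a b t => by
      by_contra ab
      refine nX (h.cen (b⁻¹ * a).2 (fun s => ab (inv_mul_eq_one.1 (Subtype.ext s)).symm) ▸
        fun w hw => ?_)
      obtain ⟨k, rfl⟩ := mem_zpowers_iff.1 hw
      refine (Commute.zpow_left ?_ k).eq
      have t : n * a * n⁻¹ * (a : G)⁻¹ = n * b * n⁻¹ * (b : G)⁻¹ := congrArg Subtype.val t
      calc (b : G)⁻¹ * a * n = (b : G)⁻¹ * (n * a * n⁻¹ * (a : G)⁻¹)⁻¹ * n * a := by group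
        _ = n * ((b : G)⁻¹ * a) := by rw [t]; group
    obtain ⟨z, hz⟩ := Finite.surjective_of_injective inj ⟨x, mem_zpowers x⟩
    have a := mul_mem nH (hH.conj_mem _ (inv_mem nH) z)
    rw [← mul_assoc, ← mul_assoc] at a
    exact (show n * z * n⁻¹ * (z : G)⁻¹ = x from congrArg Subtype.val hz) ▸ a
  have sup : H ⊔ normalizer (zpowers y : Set G) = ⊤ := eq_top_iff.2 fun g _ => by
    obtain ⟨m, hm, a⟩ := cy.conj hr H yH (hH.conj_mem y yH g) oy
      (((MulAut.conj g).orderOf_eq y).trans oy)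
    exact inv_mul_cancel_left m g ▸ mul_mem (mem_sup_left (inv_mem hm)) (mem_sup_right
      (mem_norm (mem_zpowers y) (by simpa only [mul_assoc, mul_inv_rev] using a)))
  have k := relIndex_mul_relIndex _ _ _ (le_inf (zpowers_le.2 xH) le) inf_le_right
  rw [nm, inf_relIndex_right, ← relIndex_sup_left (K := H), sup, relIndex_top_right] at k
  refine ⟨H, hH, h1, nc, ?_, xH, Dvd.intro_left _ k, fun a => nX (relIndex_eq_one.1
    (Nat.eq_of_mul_eq_mul_right (Nat.pos_of_ne_zero H.index_ne_zero_of_finite)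
      (by rw [k, a, one_mul])) (mem_inf.2 ⟨nH, nN⟩))⟩
  rcases h1.eq_bot_or_eq_top_of_normal (center H) inferInstance with c | c
  · refine eq_bot_iff.2 fun g hg => congrArg Subtype.val (c.le (show (⟨g, zpowers_le.2 xH
      (cX g (hg y yH))⟩ : H) ∈ center H from mem_center_iff.2 fun w => Subtype.ext (hg w w.2)))
  · exact (nc ⟨⟨fun u v => mem_center_iff.1 (c.ge trivial) u⟩⟩).elim

theorem Isol.main [Nontrivial G] (h : Isol x c)
    (he : ∀ r, r.Prime → r ∣ orderOf x → e < r ∧ c ≡ e [MOD r]) (hec : e ≠ c)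
    (rad : ∀ u k, u.Prime → 0 < k → u ^ k ∣ c → u ^ k ≡ 1 [MOD orderOf x] →
      u = p ∧ ¬ u ^ (k + 1) ∣ c ∧ ∃ j, u ^ j ∈ Vo G) :
    ∃ H : Subgroup G, H.Normal ∧ IsSimpleGroup H ∧ ¬ IsMulCommutative H ∧
      centralizer (H : Set G) = ⊥ ∧ x ∈ H ∧ H.index ∣ e ∧ H.index ≠ e := by
  refine h.top he hec fun M hM h0 => by_contra fun a => ?_
  push Not at a
  have k : ∀ (N : Subgroup G) [N.Normal], N ≤ M → ∀ u, u.Prime → u ∣ Nat.card N → u = p ∧
      ¬ u ^ ((Nat.card N).factorization u + 1) ∣ c ∧ ∃ j, u ^ j ∈ Vo G := fun N _ l u hu d =>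
    have b := h.free N (fun r hr d1 d2 => a r hr d1 (d2.trans (card_dvd_of_le l))) hu d
    rad u _ hu (hu.factorization_pos_of_dvd Nat.card_pos.ne' d) b.1 b.2
  obtain ⟨u, hu, d⟩ := Nat.exists_prime_and_dvd (mt card_eq_one.1 h0)
  obtain rfl := (k M le_rfl u hu d).1
  have := Fact.mk hu
  have := (nontrivial_iff_ne_bot M).2 h0
  have hP : IsPGroup u M := IsPGroup.of_card
    (Nat.eq_prime_pow_of_unique_prime_dvd Nat.card_pos.ne' fun hd e => (k M le_rfl _ hd e).1)
  obtain ⟨i, i0, hi⟩ := (hP.to_subgroup (center M)).nontrivial_iff_card.1 hP.center_nontrivial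
  rw [← card_map_of_injective M.subtype_injective] at hi
  obtain ⟨-, b, j, hj⟩ := k _ (map_subtype_le _) u hu (hi ▸ dvd_pow_self u i0.ne')
  rw [hi, hu.factorization_pow, Finsupp.single_eq_same] at b
  refine ito_van _ hu hi (fun t => b (((hu.coprime_iff_not_dvd.2 fun s => a u hu s d).pow_left
    _).dvd_of_dvd_mul_left ?_)) j hj
  rw [← h.card, ← card_mul_index ((center M).map M.subtype), hi, pow_succ]
  exact mul_dvd_mul_left _ t

end Pool.Agent.Lib.MP_7d41f7_al
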