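import Pool.Agent.Lib.MP_7d41f7_al.D.DOff
import Pool.Agent.Lib.MP_7d41f7_al.D.ZCore
import Pool.Agent.Lib.MP_7d41f7_al.D.YMain
import Pool.Agent.Lib.MP_7d41f7_al.D.WM
import Pool.Agent.Lib.MP_7d41f7_al.L.SVan
import Pool.Agent.Lib.MP_7d41f7_al.Main

/-! The linear groups of dimension two. -/

set_option autoImplicit false

namespace Pool.Agent.Lib.MP_7d41f7_al

open Module Matrix

variable {F G : Type} [Field F] [Finite F] [Group G] [Finite G] {r q v k h : ℕ}

omit [Finite F] in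
theorem l2_sl {f : (Fin 2 → F) →ₗ[F] Fin 2 → F} (h : LinearMap.det f = 1) :
    ∃ g : SLn 2 F, ∀ v, SpecialLinearGroup.toLin' g v = f v :=
  ⟨⟨LinearMap.toMatrix' f, (LinearMap.det_toMatrix' f).trans h⟩,
    LinearMap.congr_fun (Matrix.toLin'_toMatrix' f)⟩

theorem l2_van (hq : 6 ≤ Nat.card F) (h : Prim (Nat.card F) 2 r) (g : PL 2 F)
    (hd : r ∣ orderOf g) : orderOf g ∈ Vo (PL 2 F) := by
  obtain ⟨A, rfl⟩ := QuotientGroup.mk_surjective g
  obtain ⟨c, hc⟩ := IsCyclic.exists_ofOrder_eq_natCard (α := Fˣ)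
  have h3 : (c : F) ^ 2 ≠ (c : F)⁻¹ ^ 2 := fun e => by
    have := Nat.le_of_dvd four_pos (orderOf_dvd_of_pow_eq_one (x := c) (Units.ext (by
      rw [Units.val_pow_eq_pow_val, Units.val_one]
      field_simp at e
      exact e)))
    rw [hc, Nat.card_units] at this
    omega
  refine lin_van SpecialLinearGroup.toLin' (· ≠ 0) 2 _ (fun _ u => u) ⟨1, one_ne_zero⟩
    (fun g v u => (map_ne_zero_iff _ (LinearEquiv.injective _)).2 u) (fun v w hv hw => ?_)
    (fun v w hv _ u => ?_) (fun z hz => ?_) fun v hv a e => ?_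
  · have h1 := (finrank_span_singleton (K := F) hv).trans
      (finrank_span_singleton (K := F) hw).symm
    obtain ⟨e, e1, -⟩ := pair_equiv h1 h1 (by rwa [inf_idem, inf_idem])
    have hd : LinearMap.det e.toLinearMap ≠ 0 := e.isUnit_det'.ne_zero
    obtain ⟨e', f1, -, f3⟩ := pair_det (Submodule.span F {v}) ⊥ (inv_ne_zero hd)
    obtain ⟨g, hg⟩ := l2_sl (f := e.toLinearMap ∘ₗ e'.toLinearMap)
      (by rw [LinearMap.det_comp, f3, mul_inv_cancel₀ hd])
    obtain ⟨a, ha⟩ := Submodule.mem_span_singleton.1 (e1.le (Submodule.mem_map_of_mem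
      (f1.le (Submodule.mem_map_of_mem (Submodule.mem_span_singleton_self v)))))
    exact ⟨g, a, (hg v).trans ha.symm⟩
  · have hu := (LinearIndependent.pair_iff' (K := F) hv).2 fun a e => u a e.symm
    let b := basisOfLinearIndependentOfCardEqFinrank hu (by simp)
    have hb : ∀ i, b i = ![v, w] i := congrFun (coe_basisOfLinearIndependentOfCardEqFinrank _ _)
    obtain ⟨g, hg⟩ := l2_sl (f := Matrix.toLin b b (diagonal ![(c : F), (c : F)⁻¹])) (by simp)
    exact ⟨g, c, _, by simpa [hb] using (hg _).trans (Matrix.toLin_self b b _ 0),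
      by simpa [hb] using (hg _).trans (Matrix.toLin_self b b _ 1), h3⟩
  · obtain ⟨d, d1, d2⟩ := Matrix.SpecialLinearGroup.mem_center_iff.1 hz
    refine ⟨d, d1, fun v => ?_⟩
    change Matrix.toLin' z.1 v = _
    rw [← d2]
    ext i
    simp [Matrix.mulVec_diagonal]
  · obtain ⟨x1, x2⟩ := scenb_ord h.pr (orderOf_pow_orderOf_div (orderOf_pos A).ne'
      (hd.trans (orderOf_map_dvd (QuotientGroup.mk' _) A)))
    have hV : finrank F (Fin 2 → F) < 2 * 2 := by simp
    obtain ⟨r1, r2⟩ := lin_rank h two_pos x1 x2 hV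
    have r3 := finrank_span_singleton (K := F) hv
    rw [finrank_fin_fun] at r2
    have := lin_irr h two_pos x1 hV (W := Submodule.span F {v}) fun w hw => by
      rw [Matrix.SpecialLinearGroup.coe_pow, map_pow]
      refine End.pow_apply_mem_of_forall_mem _ (fun y hy => ?_) w hw
      obtain ⟨t, rfl⟩ := Submodule.mem_span_singleton.1 hy
      rw [map_smul]
      exact Submodule.smul_mem _ _ (Submodule.mem_span_singleton.2 ⟨a, e.symm⟩)
    rcases this with u | u <;> have := Submodule.finrank_mono u <;> omega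

theorem l2_cop (h2 : 2 ∣ q + 1) : (q + 1 + 1).Coprime ((q + 1) * q) :=
  Nat.coprime_of_dvd fun r hr h1 h3 => by
    rcases hr.dvd_mul.1 h3 with a | a
    · exact hr.not_dvd_one ((Nat.dvd_add_right a).1 h1)
    · obtain rfl := (Nat.prime_dvd_prime_iff_eq hr Nat.prime_two).1 ((Nat.dvd_add_right a).1 h1)
      omega

theorem l2_le (hv : v.Prime) {a b : ℕ} (hc : a.Coprime b) (h : v ^ k ∣ a * b) :
    v ^ k ∣ a ∨ v ^ k ∣ b := by
  by_cases e : v ∣ a
  · exact .inl (((hc.coprime_dvd_left e).pow_left k).dvd_of_dvd_mul_right h)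
  · exact .inr (((hv.coprime_iff_not_dvd.2 e).pow_left k).dvd_of_dvd_mul_left h)

theorem l2_le' (hv : v.Prime) (hq : 0 < q) (h : v ^ k ∣ (q + 1) * q) : v ^ k ≤ q + 1 :=
  (l2_le hv (by simp) h).elim (Nat.le_of_dvd q.succ_pos) fun a =>
    (Nat.le_of_dvd hq a).trans q.le_succ

theorem l2_isol (hq : Nat.card F = q + 1) (h2 : 2 ∣ q + 1) (h5 : 5 ≤ q)
    (hc : Nat.card G = Nat.card (PL 2 F)) (hV : Vo G = Vo (PL 2 F)) :
    ∃ x : G, Isol x ((q + 1) * q) ∧ orderOf x = q + 1 + 1 := by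
  have cop := l2_cop h2
  have z : Nat.gcd 2 (Nat.card F - 1) = 1 :=
    Nat.prime_two.coprime_iff_not_dvd.2 (by omega)
  have e : Nat.card F ^ 2 - 1 = (q + 1 + 1) * q := by
    rw [hq]
    exact Nat.sub_eq_of_eq_add (by ring)
  have c : Nat.card (PL 2 F) = (q + 1 + 1) * ((q + 1) * q) := by
    have := card_PL (F := F) two_pos
    rw [z, mul_one, ordSL, Finset.Icc_self, Finset.prod_singleton, e, hq] at this
    rw [this]
    ring
  have pr : ∀ r, r.Prime → r ∣ q + 1 + 1 → Prim (Nat.card F) 2 r := fun r hr h =>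
    ⟨hr, e ▸ h.mul_right q, fun i h0 hi a => by
      obtain rfl : i = 1 := by omega
      rw [pow_one, hq] at a
      exact Nat.not_coprime_of_dvd_of_dvd hr.one_lt h (a.mul_left _) cop⟩
  obtain ⟨A, hA⟩ := exists_el (F := F) (n := 2) (m := 2) two_pos le_rfl ⟨_, e⟩
    (by rw [hq]; exact cop.coprime_dvd_right (Dvd.intro_left _ rfl))
  have o : orderOf (QuotientGroup.mk A : PL 2 F) = q + 1 + 1 :=
    (orderOf_mk_center (by rw [card_center two_pos, z]; exact Nat.coprime_one_right _)).trans hA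
  have I : Isol (QuotientGroup.mk A : PL 2 F) ((q + 1) * q) := by
    refine ⟨o ▸ c, o ▸ cop, fun r u hr hu h1 h2 a => ?_⟩
    rw [o] at h1
    have n := fun e => Nat.not_coprime_of_dvd_of_dvd hu.one_lt e h2 cop
    obtain ⟨x, hx, hd⟩ := lift_adj hu hr (fun e => n (e ▸ h1))
      (svanb_cen two_pos le_rfl (pr r hr h1)) a
    have := (Nat.mul_dvd_mul_right hd _).trans (cen1 two_pos (pr r hr h1) hx)
    rw [card_center two_pos, z, mul_one, e, hq] at this
    exact n (Nat.dvd_of_mul_dvd_mul_right (by omega) this)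
  have hv := fun r hr h => l2_van (r := r) (by omega) (pr r hr h)
  obtain ⟨r, hr, hd⟩ := Nat.exists_prime_and_dvd (show q + 1 + 1 ≠ 1 by omega)
  obtain ⟨y, hy, -⟩ := hV ▸ hv r hr hd _ (o ▸ hd)
  rw [o] at hy
  refine ⟨y, ⟨hy ▸ hc.trans c, hy ▸ cop, fun r u hr hu h1 h2 a => ?_⟩, hy⟩
  rw [hy] at h1
  exact I.nad r u hr hu (o ▸ h1) h2 ((transfer_adj hr ((Nat.coprime_primes hu hr).2 fun e =>
    Nat.not_coprime_of_dvd_of_dvd hr.one_lt h1 (e ▸ h2) cop) hc hV (I.cyc hr (o ▸ h1))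
      (hv r hr h1)).1 a)

theorem l2_kill (hh : h = (q + 1 + 1) * ((q + 1) * q)) (h2 : 2 ∣ q + 1) (hq : 33 ≤ q) {g : ℕ}
    (hv : v.Prime) (h1 : (v ^ g) ^ k ∣ h) (h3 : h ^ 3 ≤ ((v ^ g) ^ k) ^ 8) : False := by
  rw [← pow_mul v] at h1 h3
  have a : v ^ (g * k) ≤ q + 1 + 1 := (l2_le hv (l2_cop h2) (hh ▸ h1)).elim
    (Nat.le_of_dvd (by omega)) fun a => (l2_le' hv (by omega) a).trans (by omega)
  have b := h3.trans (Nat.pow_le_pow_left a 8)
  rw [hh, mul_pow, pow_add _ 3 5] at b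
  have c := (Nat.le_of_mul_le_mul_left b (by positivity)).trans
    (Nat.pow_le_pow_left (show _ ≤ 2 * q by omega) 5)
  have d := (Nat.pow_le_pow_left (Nat.mul_le_mul_right q q.le_succ) 3).trans c
  rw [mul_pow, ← pow_add, mul_pow, pow_succ' q 5] at d
  have := Nat.le_of_mul_le_mul_right d (by positivity)
  omega

theorem l2_alt {m f : ℕ} (hm : m.factorial = 2 * ((q + 1 + 1) * ((q + 1) * q)))
    (hf : q + 1 = 2 ^ f) (h : 30 ≤ f) : False := by
  have a : f + 1 < m := by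
    have : (f + 1 : ℕ) ≤ emultiplicity 2 m.factorial :=
      pow_dvd_iff_le_emultiplicity.1 ⟨(q + 1 + 1) * q, by rw [hm, pow_succ, ← hf]; ring⟩
    exact_mod_cast this.trans_lt (Nat.emultiplicity_two_factorial_lt (by
      rintro rfl
      simp at hm
      omega))
  have b : ∀ n, 8 ^ (n + 32) ≤ (n + 32).factorial := fun n => by
    induction n with
    | zero => decide
    | succ n ih => exact pow_succ' 8 _ ▸ Nat.mul_le_mul (by omega) ih
  have c := (Nat.pow_le_pow_right (by omega) a).trans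
    ((Nat.sub_add_cancel (show 32 ≤ m by omega) ▸ b (m - 32)).trans hm.le)
  rw [pow_succ, pow_succ, show 8 = 2 ^ 3 from rfl, pow_right_comm, ← hf] at c
  nlinarith

theorem all_l2 (hb : 10 ^ 603 ≤ Nat.card (PL 2 F)) (hc : Nat.card G = Nat.card (PL 2 F))
    (hV : Vo G = Vo (PL 2 F)) : Nonempty (G ≃* PL 2 F) ∨ Off3 G := by
  have q1 : 2 ^ 91 ≤ Nat.card F := root_le (big_of hb ((card_PL_le 2 F).trans
    (Nat.le_mul_of_pos_left _ two_pos))) (by decide) (by decide)
  clear hb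
  rcases Nat.even_or_odd (Nat.card F) with h2 | h2
  swap
  · exact .inl (main h2 (by omega) hc hV)
  obtain ⟨q, hq⟩ : ∃ q, Nat.card F = q + 1 := ⟨_, (Nat.succ_pred_eq_of_pos (by omega)).symm⟩
  replace h2 := hq ▸ h2.two_dvd
  have q2 : 2 ^ 90 ≤ q := by omega
  obtain ⟨x, I, o⟩ := l2_isol hq h2 (by omega) hc hV
  have := nontrivial_of_ne x 1 fun e => by simp [e] at o
  obtain ⟨H, a1, a2, a3, a4, -, a5, a6⟩ := I.main (e := 2) (p := 2) (fun r hr d => by
    rw [o] at d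
    refine ⟨hr.two_le.lt_of_ne fun e => by subst e; omega, .symm ((Nat.modEq_iff_dvd' (by nlinarith)).2
      (d.trans ⟨q - 1, ?_⟩))⟩
    obtain ⟨q, rfl⟩ : ∃ y, q = y + 1 := ⟨q - 1, by omega⟩
    exact Nat.sub_eq_of_eq_add (by rw [Nat.add_sub_cancel]; ring)) (by nlinarith)
    fun u k hu hk d1 d2 => by
      have := Nat.one_lt_pow hk.ne' hu.one_lt
      have := (o ▸ d2).eq_of_lt_of_lt (Nat.lt_succ_of_le (l2_le' hu (by omega) d1)) (by omega)
      omega
  obtain rfl : H = ⊤ :=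
    Subgroup.index_eq_one.1 (((Nat.dvd_prime Nat.prime_two).1 a5).resolve_right a6)
  refine or_iff_not_imp_right.2 fun n => ?_
  have hh : Nat.card (⊤ : Subgroup G) = _ := Subgroup.card_top.trans (o ▸ I.card)
  have kill := fun {v g k} => l2_kill (v := v) (g := g) (k := k) hh h2 (by omega)
  have om : ∀ {m u : ℕ}, IsOm (⊤ : Subgroup G) m u → ∃ v g : ℕ, v.Prime ∧ 0 < g ∧ v ^ g = u :=
    fun ⟨F, _, _, _, e, _⟩ => e ▸ card_vg F
  rcases not_not.1 (mt (off_top a1 a2 a3 a4) n) with ⟨m, ⟨φ⟩⟩ | ⟨m, u, K, _, _, rfl, ⟨φ⟩⟩ |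
    ⟨m, u, hm, a, c⟩ | ⟨m, u, a, c⟩ | ⟨m, u, hm, a, c⟩ | ⟨u, hu, a⟩ | a
  · obtain ⟨v, f, hv, -, e⟩ := card_vg F
    obtain rfl := (Nat.prime_dvd_prime_iff_eq Nat.prime_two hv).1
      (Nat.prime_two.dvd_of_dvd_pow (e ▸ hq ▸ h2))
    have := alt_five a2 a3 φ
    have : Nontrivial (Fin m) := Fin.nontrivial_iff_two_le.2 (by omega)
    refine (l2_alt (m := m) ?_ (hq ▸ e.symm) ((Nat.pow_le_pow_iff_right one_lt_two).1
      (e ▸ le_trans (by decide) q1))).elim
    rw [← hh, Nat.card_congr φ.toEquiv, two_mul_nat_card_alternatingGroup, Nat.card_perm,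
      Nat.card_fin]
  · have hm : 2 ≤ m := by
      by_contra hm
      have := pl_small (F := K) (not_le.1 hm)
      have := φ.injective.subsingleton
      exact false_of_nontrivial_of_subsingleton (⊤ : Subgroup G)
    obtain ⟨v, g, hv, hg, e⟩ := card_vg K
    have c := card_PL (F := K) (n := m) (by omega)
    rw [← Nat.card_congr φ.toEquiv, ← e] at c
    have u2 := Nat.one_lt_pow hg.ne' hv.one_lt
    have p := (lt_A hv hg hm c).pp
    rcases hm.eq_or_lt with rfl | hm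
    swap
    · exact (kill hv p (sz_A u2 hm c)).elim
    refine (psl_iso (e.symm.trans (.trans ?_ hq.symm))).map fun a => Subgroup.topEquiv.symm.trans
      (φ.trans a)
    have a : v ^ g ≤ q + 1 + 1 := (l2_le hv (l2_cop h2) (k := g) (by rw [← hh]; simpa using p)).elim
      (Nat.le_of_dvd (by omega)) fun a => (l2_le' hv (by omega) a).trans (by omega)
    have d := Nat.le_mul_of_pos_right (Nat.card (⊤ : Subgroup G))
      (Nat.gcd_pos_of_pos_left (v ^ g - 1) two_pos)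
    rw [c, hh, ordSL, Finset.Icc_self, Finset.prod_singleton] at d
    rw [hh, ordSL, Finset.Icc_self, Finset.prod_singleton] at c
    generalize v ^ g = u at *
    obtain rfl | rfl | a : u = q + 1 + 1 ∨ u = q + 1 ∨ u ≤ q := by omega
    · rw [Nat.add_sub_cancel, Nat.gcd_eq_left h2, show (q + 1 + 1) ^ 2 - 1 = (q + 3) * (q + 1) from
        Nat.sub_eq_of_eq_add (by ring), show 2 * (2 - 1) / 2 = 1 from rfl, pow_one, mul_assoc,
        mul_assoc, mul_comm (q + 3)] at c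
      have := Nat.eq_of_mul_eq_mul_left q.succ_pos (Nat.eq_of_mul_eq_mul_left (by omega) c)
      omega
    · rfl
    · have := d.trans (Nat.mul_le_mul (Nat.pow_le_pow_left a 1)
        ((Nat.sub_le _ 1).trans (Nat.pow_le_pow_left a 2)))
      ring_nf at this
      omega
  · obtain ⟨v, g, hv, hg, rfl⟩ : ∃ v g : ℕ, v.Prime ∧ 0 < g ∧ v ^ g = u := by
      obtain ⟨F, _, _, _, e, -⟩ := a
      obtain ⟨v, g, hv, hg, e'⟩ := card_vg F
      exact (isPrimePow_nat_iff u).1 ((isPrimePow_pow_iff two_ne_zero).1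
        (e ▸ e' ▸ hv.prime.isPrimePow.pow hg.ne'))
    exact (kill hv (lt_2A hv hg hm c).pp (sz_U (Nat.one_lt_pow hg.ne' hv.one_lt) hm c)).elim
  · obtain ⟨v, g, hv, hg, rfl⟩ : ∃ v g : ℕ, v.Prime ∧ 0 < g ∧ v ^ g = u :=
      a.elim (fun ⟨_, F, _, _, e, _⟩ => e ▸ card_vg F) fun a => om a.2
    have hm : 2 ≤ m := by omega
    exact (kill hv (lt_B hv hg hm c).pp (sz_B (Nat.one_lt_pow hg.ne' hv.one_lt) hm c)).elim
  · obtain ⟨v, g, hv, hg, rfl⟩ := om a
    have u2 := Nat.one_lt_pow hg.ne' hv.one_lt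
    exact (kill hv (c.elim (fun a => (lt_D hv hg hm a).pp) fun a =>
      (lt_2D hv hg hm (by simpa only [OrdD, sub_neg_eq_add] using a)).pp)
      (c.elim (sz_D (.inl rfl) u2 hm) (sz_D (.inr rfl) u2 hm))).elim
  · obtain ⟨v, g, hv, hg, rfl⟩ := (isPrimePow_nat_iff u).1 hu
    obtain ⟨N, b1, b2, -⟩ := sz_exc (Nat.one_lt_pow hg.ne' hv.one_lt) a.exc2
    exact (kill hv b1 b2).elim
  · have := (by decide +kernel : ∀ x ∈ sporOrd, x < 1 * (2 ^ 90 * 2 ^ 90)) _ a
    exact absurd (hh ▸ this) (Nat.mul_le_mul (by omega) (Nat.mul_le_mul (by omega) q2)).not_gt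

end Pool.Agent.Lib.MP_7d41f7_al
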