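import Pool.Agent.Lib.MP_7d41f7_al.D.OEa

/-! The orders of the orthogonal groups. -/

set_option autoImplicit false

namespace Pool.Agent.Lib.MP_7d41f7_al

open Module

section grp

variable {G : Type} [Group G] {S : Set G} {a b : G}

theorem oe_pow (hS : Subgroup.closure S = ⊤)
    (h : ∀ r ∈ S, (∃ g, r = g * a * g⁻¹) ∨ ∃ g, r = g * b * g⁻¹) (ha : a * a = 1) (hb : b * b = 1)
    (g : G) : ∃ y ∈ ({1, a, b, a * b} : Set G), g * y ∈ commutator G := by
  obtain ⟨i, j, e⟩ : ∃ i j : ℤ,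
      Abelianization.of g = Abelianization.of a ^ i * Abelianization.of b ^ j := by
    have hg : g ∈ Subgroup.closure S := hS ▸ trivial
    induction hg using Subgroup.closure_induction with
    | mem x hx =>
      rcases h x hx with ⟨y, rfl⟩ | ⟨y, rfl⟩
      exacts [⟨1, 0, by simp⟩, ⟨0, 1, by simp⟩]
    | one => exact ⟨0, 0, by simp⟩
    | mul x y _ _ h1 h2 =>
      obtain ⟨i, j, e⟩ := h1
      obtain ⟨i', j', e'⟩ := h2
      exact ⟨i + i', j + j', by rw [map_mul, e, e', zpow_add, zpow_add, mul_mul_mul_comm]⟩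
    | inv x _ h1 =>
      obtain ⟨i, j, e⟩ := h1
      exact ⟨-i, -j, by rw [map_inv, e, zpow_neg, zpow_neg, mul_inv]⟩
  have k : ∀ c : G, c * c = 1 → ∀ i : ℤ, Abelianization.of c ^ i = 1 ∨
      Abelianization.of c ^ i * Abelianization.of c = 1 := fun c hc i => by
    have e : Abelianization.of c ^ (2 : ℤ) = 1 := by rw [zpow_two, ← map_mul, hc, map_one]
    obtain ⟨m, rfl | rfl⟩ := Int.even_or_odd' i
    · exact .inl (by rw [zpow_mul, e, one_zpow])
    · exact .inr (by rw [← zpow_add_one, add_assoc, zpow_add, zpow_mul, e, one_zpow, one_mul,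
        one_add_one_eq_two, e])
  simp only [← Abelianization.ker_of, MonoidHom.mem_ker, map_mul, e]
  rcases k a ha i with h1 | h1 <;> rcases k b hb j with h2 | h2
  · exact ⟨1, by simp, by simp [h1, h2]⟩
  · exact ⟨b, by simp, by rw [h1, one_mul, h2]⟩
  · exact ⟨a, by simp, by rw [h2, mul_one, h1]⟩
  · exact ⟨a * b, by simp, by rw [map_mul, mul_mul_mul_comm, h1, h2, one_mul]⟩

theorem oe_two (hS : Subgroup.closure S = ⊤) (h : ∀ r ∈ S, ∃ g, r = g * a * g⁻¹) (ha : a * a = 1)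
    (d : G →* ℤˣ) (hd : d a = -1) : (commutator G).index = 2 := by
  have e : commutator G = d.ker :=
    le_antisymm (Abelianization.commutator_subset_ker d) fun g hg => by
      obtain ⟨y, hy, k⟩ := oe_pow (b := 1) hS (fun r hr => .inl (h r hr)) ha (mul_one 1) g
      have := Abelianization.commutator_subset_ker d k
      rw [MonoidHom.mem_ker] at hg this
      rcases hy with rfl | rfl | rfl | rfl <;> first | simpa using k | simp [hg, hd] at this
  rw [e, Subgroup.index_ker, MonoidHom.range_eq_top.2 fun x => (Int.units_eq_one_or x).elim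
    (fun c => ⟨1, c ▸ map_one d⟩) fun c => ⟨a, c ▸ hd⟩]
  simp

theorem oe_four (hS : Subgroup.closure S = ⊤)
    (h : ∀ r ∈ S, (∃ g, r = g * a * g⁻¹) ∨ ∃ g, r = g * b * g⁻¹) (ha : a * a = 1) (hb : b * b = 1)
    (d s : G →* ℤˣ) (d1 : d a = -1) (d2 : d b = -1) (hs : s a * s b = -1) :
    (commutator G).index = 4 ∧ ∀ g, g ∈ commutator G ↔ d g = 1 ∧ s g = 1 := by
  have e : commutator G = (d.prod s).ker :=
    le_antisymm (Abelianization.commutator_subset_ker _) fun g hg => by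
      obtain ⟨y, hy, k⟩ := oe_pow hS h ha hb g
      have := Abelianization.commutator_subset_ker (d.prod s) k
      simp only [MonoidHom.mem_ker, MonoidHom.prod_apply, Prod.mk_eq_one, map_mul] at hg this
      rcases hy with rfl | rfl | rfl | rfl <;>
        first | simpa using k | simp [hg.1, hg.2, d1, d2, hs] at this
  refine ⟨?_, fun g => by simp [e]⟩
  rw [e, Subgroup.index_ker, MonoidHom.range_eq_top.2 fun x => ?_]
  · simp
  obtain ⟨x, y⟩ := x
  rcases Int.units_eq_one_or x with rfl | rfl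
  · rcases Int.units_eq_one_or y with rfl | rfl
    exacts [⟨1, map_one _⟩, ⟨a * b, by simp [d1, d2, hs]⟩]
  · by_cases c : s a = y
    · exact ⟨a, by simp [d1, c]⟩
    · refine ⟨b, ?_⟩
      rcases Int.units_eq_one_or y with rfl | rfl <;>
        rcases Int.units_eq_one_or (s a) with c' | c' <;> simp_all [neg_eq_iff_eq_neg]

end grp

theorem oe_roots {F : Type} [Field F] [Finite F] (h2 : ringChar F ≠ 2) {δ : F} (h : ¬ IsSquare δ)
    (t : F) : Nat.card {x // 1 * (x * x) = t} + Nat.card {x // δ * (x * x) = t} = 2 := by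
  classical
  cases nonempty_fintype F
  have h0 : δ ≠ 0 := fun c => h (c ▸ IsSquare.zero)
  have e : ∀ c : F, c ≠ 0 → (Nat.card {x // c * (x * x) = t} : ℤ) = quadraticChar F (c⁻¹ * t) + 1 :=
    fun c hc => by
      rw [← quadraticChar_card_sqrts h2, Set.toFinset_card, ← Nat.card_eq_fintype_card]
      exact congrArg _ (Nat.card_congr (Equiv.subtypeEquivRight fun x => by
        rw [Set.mem_ofPred_eq, sq, eq_inv_mul_iff_mul_eq₀ hc]))
  have e1 := e 1 one_ne_zero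
  have e2 := e δ h0
  rw [map_mul, quadraticChar_neg_one_iff_not_isSquare.2 (mt isSquare_inv.1 h)] at e2
  rw [inv_one, one_mul] at e1
  omega

namespace Frm

variable {F V : Type} [Field F] [Finite F] {P : Sca F} [AddCommGroup V] [Module F V] [Finite V]
  {Φ : Frm P V} {v w e f : V} {g r s : Φ.Iso} {Γ : Type} [Group Γ]

/-- The number of vectors of norm one. -/
noncomputable def no (Φ : Frm P V) : ℕ := Nat.card {x // Φ.Q x = 1}

omit [Finite F] in
/-- The sign of the action on the vectors of norm one. -/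
theorem exists_sg : ∃ s : Φ.Iso →* ℤˣ, ∀ z : Φ.Iso, z * z = 1 →
    ∃ k, Φ.no = Nat.card {x // Φ.Q x = 1 ∧ z.1 x = x} + 2 * k ∧ s z = (-1) ^ k := by
  classical
  let φ : Φ.Iso →* Function.End {x // Φ.Q x = 1} :=
    { toFun := fun g x => ⟨g.1 x, (g.2.2 x).trans x.2⟩
      map_one' := rfl
      map_mul' := fun _ _ => rfl }
  let _ := Fintype.ofFinite {x // Φ.Q x = 1}
  refine ⟨Equiv.Perm.sign.comp φ.toHomPerm, fun z hz => ?_⟩
  have e : Nat.card (Function.fixedPoints (φ z)) = Nat.card {x // Φ.Q x = 1 ∧ z.1 x = x} :=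
    Nat.card_congr ((Equiv.subtypeEquivRight fun x => Subtype.ext_iff).trans
      (Equiv.subtypeSubtypeEquivSubtypeInter _ fun x => z.1 x = x))
  have := Fact.mk Nat.prime_two
  have e1 := Equiv.Perm.card_fixedPoints_modEq (f := φ z) (p := 2) (n := 1)
    (by rw [pow_one, sq, ← map_mul, hz, map_one])
  have e2 := Equiv.Perm.sign_of_pow_two_eq_one (σ := φ.toHomPerm z)
    (by rw [sq, ← map_mul, hz, map_one])
  have e3 : Nat.card (Function.fixedPoints (φ z)) ≤ Φ.no :=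
    Nat.card_le_card_of_injective _ Subtype.val_injective
  simp only [← Nat.card_eq_fintype_card] at e1 e2
  refine ⟨_, ?_, e2⟩
  change Φ.no = _ + 2 * ((Φ.no - Nat.card (Function.fixedPoints (φ z))) / 2)
  change Φ.no % 2 = Nat.card (Function.fixedPoints (φ z)) % 2 at e1
  omega

variable (hk : P.k = .O)
include hk

theorem oe_fix (h : Φ.Hyp e f) {a : F} (hr : Φ.IsRf (e + a • f) r) :
    Nat.card {x // Φ.Q x = 1 ∧ r.1 x = x} =
      ∑ᶠ u : Φ.pl e f, Nat.card {x // a * (x * x) = Φ.Q u - 1} := by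
  cases nonempty_fintype (Φ.pl e f)
  have k0 : ∀ x, r.1 x = x ↔ Φ.B x (e + a • f) = 0 := fun x => by
    rw [hr.2, sub_eq_self, smul_eq_zero, div_eq_zero_iff, or_iff_left hr.1,
      or_iff_left fun c => hr.1 ((congrArg Φ.Q c).trans Q_zero)]
  have k1 : ∀ (x y : F) (u : V), u ∈ Φ.pl e f →
      (Φ.Q (x • e + y • f + u) = 1 ∧ r.1 (x • e + y • f + u) = x • e + y • f + u ↔
        a * (x * x) = Φ.Q u - 1 ∧ y = -(a * x)) := fun x y u hu => by
    have c := fbasa_co h x y hu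
    rw [Sca.ε_O hk, one_mul] at c
    rw [k0, map_add, oe_smul hk, c.1, c.2, h.Q_dec x y hu, Sca.τ_O hk, Sca.σ_O hk,
      add_eq_zero_iff_eq_neg]
    refine and_congr_left fun c => ?_
    rw [c]
    constructor <;> intro c <;> linear_combination -c
  rw [finsum_eq_sum_of_fintype, ← Nat.card_sigma]
  refine (Nat.card_congr (Equiv.ofBijective (fun p => ⟨p.2.1 • e + -(a * p.2.1) • f + p.1.1,
    (k1 _ _ _ p.1.2).2 ⟨p.2.2, rfl⟩⟩) ⟨?_, fun x => ?_⟩)).symm
  · rintro ⟨u, x, hx⟩ ⟨u', x', hx'⟩ c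
    have c1 : x • e + -(a * x) • f + u.1 = x' • e + -(a * x') • f + u'.1 := congrArg Subtype.val c
    obtain rfl : x = x' := by
      rw [← (fbasa_co h x (-(a * x)) u.2).1, c1, (fbasa_co h x' _ u'.2).1]
    obtain rfl : u = u' := Subtype.ext (add_left_cancel c1)
    rfl
  · obtain ⟨y, hy⟩ := x
    obtain ⟨x, z, u, hu, rfl⟩ := fbasa_ex h y
    obtain ⟨c, rfl⟩ := (k1 _ _ _ hu).1 hy
    exact ⟨⟨⟨u, hu⟩, x, c⟩, rfl⟩

variable (hn : Φ.Nd) (hd : 7 ≤ finrank F V)
include hn hd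

theorem oe_hyp : ∃ e f, Φ.Hyp e f ∧ ∀ a : F, Φ.Q (e + a • f) = a := by
  obtain ⟨e, h0, he⟩ := exists_sing (Φ := Φ) (by omega)
  obtain ⟨f, h⟩ := hn.partner' he h0
  exact ⟨e, f, h, fun a => by simp [oe_add hk, oe_sq hk, oe_smul hk, h.qe, h.qf, h.ef]⟩

theorem index_even (h2 : ringChar F = 2) : (commutator Φ.Iso).index = 2 := by
  obtain ⟨e, f, h, q⟩ := oe_hyp hk hn hd
  obtain ⟨d, -, d2⟩ := exists_dk hk hn (by omega)
  obtain ⟨a, ha⟩ := exists_rf hk hn ((q 1).trans_ne one_ne_zero)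
  refine oe_two (rf_gen hk hn (by omega)) (fun r ⟨v, hr⟩ => ?_) (ha.sq hk) d (d2 _ _ ha)
  obtain ⟨c, hc⟩ := FiniteField.isSquare_of_char_two h2 (Φ.Q v)
  exact rf_conj hk hn h ha hr (a := c) (by rw [q, mul_one, hc])

theorem index_odd (h2 : ringChar F ≠ 2) : (commutator Φ.Iso).index = 4 ∧
    ∀ z : Φ.Iso, (∀ x, z.1 x = -x) →
      (z ∈ commutator Φ.Iso ↔ Even (finrank F V) ∧ 4 ∣ Φ.no) := by
  classical
  cases nonempty_fintype F
  have t2 : (2 : F) ≠ 0 := Ring.two_ne_zero h2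
  obtain ⟨e, f, h, q⟩ := oe_hyp hk hn hd
  obtain ⟨d, d1, d2⟩ := exists_dk hk hn (by omega)
  obtain ⟨δ, hδ⟩ := FiniteField.exists_nonsquare h2
  have h0 : δ ≠ 0 := fun c => hδ (c ▸ IsSquare.zero)
  obtain ⟨a, ha⟩ := exists_rf hk hn ((q 1).trans_ne one_ne_zero)
  obtain ⟨b, hb⟩ := exists_rf hk hn ((q δ).trans_ne h0)
  obtain ⟨s, hs⟩ := exists_sg (Φ := Φ)
  have ng : ∀ z : Φ.Iso, (∀ x, z.1 x = -x) → Φ.cd z = finrank F V ∧
      ∃ k, Φ.no = 2 * k ∧ s z = (-1) ^ k := fun z hz => by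
    have f0 : ∀ x, z.1 x = x → x = 0 := fun x c => (smul_eq_zero_iff_right t2).1 (by
      rw [two_smul, ← neg_eq_iff_add_eq_zero, ← hz, c])
    obtain ⟨k, k1, k2⟩ := hs z (Subtype.ext (LinearEquiv.ext fun x =>
      (hz _).trans (neg_eq_iff_eq_neg.2 (hz x))))
    have : IsEmpty {x // Φ.Q x = 1 ∧ z.1 x = x} :=
      ⟨fun x => zero_ne_one (Q_zero.symm.trans (f0 _ x.2.2 ▸ x.2.1))⟩
    refine ⟨?_, k, by simpa using k1, k2⟩
    rw [← finrank_mv_fx z.1, show fx z.1 = ⊥ from eq_bot_iff.2 fun x c => f0 x (mem_fx.1 c),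
      finrank_bot, add_zero, cd]
  have sg : s a * s b = -1 := by
    obtain ⟨k, k1, k2⟩ := hs a (ha.sq hk)
    obtain ⟨m, m1, m2⟩ := hs b (hb.sq hk)
    obtain ⟨-, j, j1, -⟩ := ng ⟨LinearEquiv.neg F, (mem_iso_O hk).2 Q_neg⟩ fun _ => rfl
    cases nonempty_fintype (Φ.pl e f)
    have c : Nat.card {x // Φ.Q x = 1 ∧ a.1 x = x} + Nat.card {x // Φ.Q x = 1 ∧ b.1 x = x} =
        Nat.card (Φ.pl e f) * 2 := by
      rw [oe_fix hk h ha, oe_fix hk h hb, finsum_eq_sum_of_fintype, finsum_eq_sum_of_fintype,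
        ← Finset.sum_add_distrib, Finset.sum_congr rfl fun u _ => oe_roots h2 hδ _]
      simp
    have := Module.Finite.of_finite (R := F) (M := Φ.pl e f)
    have o : Odd (Nat.card (Φ.pl e f)) := by
      rw [natCard_eq_pow_finrank (K := F), Nat.card_eq_fintype_card]
      exact (Nat.odd_iff.2 (FiniteField.odd_card_of_char_ne_two h2)).pow
    rw [k2, m2, ← pow_add, Odd.neg_one_pow (Nat.odd_iff.2 (by have := Nat.odd_iff.1 o; omega))]
  have cj : ∀ r ∈ {r | ∃ v, Φ.IsRf v r}, (∃ g, r = g * a * g⁻¹) ∨ ∃ g, r = g * b * g⁻¹ := by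
    rintro r ⟨v, hr⟩
    by_cases c : IsSquare (Φ.Q v)
    · obtain ⟨c, hc⟩ := c
      exact .inl (rf_conj hk hn h ha hr (a := c) (by rw [q, mul_one, hc]))
    · obtain ⟨c, hc⟩ : IsSquare (Φ.Q v * δ⁻¹) :=
        (quadraticChar_one_iff_isSquare (mul_ne_zero hr.1 (inv_ne_zero h0))).1 (by
          rw [map_mul, quadraticChar_neg_one_iff_not_isSquare.2 c,
            quadraticChar_neg_one_iff_not_isSquare.2 (mt isSquare_inv.1 hδ)]
          rfl)
      exact .inr (rf_conj hk hn h hb hr (a := c) (by rw [q, ← hc, inv_mul_cancel_right₀ h0]))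
  obtain ⟨i1, i2⟩ := oe_four (rf_gen hk hn (by omega)) cj (ha.sq hk) (hb.sq hk)
    d s (d2 _ _ ha) (d2 _ _ hb) sg
  refine ⟨i1, fun z hz => ?_⟩
  obtain ⟨c, k, k1, k2⟩ := ng z hz
  rw [i2, d1, c, k2, neg_one_pow_eq_one_iff_even (by decide),
    neg_one_pow_eq_one_iff_even (by decide), k1, Nat.even_iff (n := k)]
  exact and_congr_right' (by omega)

omit hk hn hd [Finite F] [Finite V] in
theorem oe_card (R : Φ.Rep Γ) (hR : R.ι.range ≤ Φ.Der) : Nat.card (PQ Γ) *
    (Nat.card (Subgroup.center Γ) * (commutator Φ.Iso).index) = Nat.card Φ.Iso := by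
  rw [← mul_assoc, ← Subgroup.card_eq_card_quotient_mul_card_subgroup,
    ← (commutator Φ.Iso).card_mul_index, Nat.card_congr (MonoidHom.ofInjective R.inj).toEquiv,
    le_antisymm hR R.der, Der, ← Subgroup.map_subtype_commutator,
    Subgroup.card_map_of_injective Φ.Iso.subtype_injective]

theorem oe_cen (R : Φ.Rep Γ) {z : Γ} (hz : z ∈ Subgroup.center Γ) :
    z = 1 ∨ ∀ x, R.ι z x = -x := by
  obtain ⟨c, h1, h2⟩ := R.center hn hd hz
  rw [Sca.σ_O hk, mul_self_eq_one_iff] at h1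
  rcases h1 with rfl | rfl
  · exact .inl (R.inj (LinearEquiv.ext fun x => by simp [h2]))
  · exact .inr fun x => by simp [h2]

theorem card_even (h2 : ringChar F = 2) (R : Φ.Rep Γ) (hR : R.ι.range ≤ Φ.Der) :
    Nat.card (PQ Γ) * 2 = Nat.card Φ.Iso := by
  have e : Subgroup.center Γ = ⊥ := eq_bot_iff.2 fun z hz =>
    (oe_cen hk hn hd R hz).elim id fun c => R.inj (LinearEquiv.ext fun x => by
      have : (2 : F) = 0 := by exact_mod_cast h2 ▸ ringChar.Nat.cast_ringChar (R := F)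
      rw [c, map_one, neg_eq_iff_add_eq_zero]
      exact (two_smul F x).symm.trans (by rw [this, zero_smul]))
  rw [← oe_card R hR, index_even hk hn hd h2, e, Subgroup.card_bot]

theorem card_odd (h2 : ringChar F ≠ 2) (R : Φ.Rep Γ) (hR : R.ι.range ≤ Φ.Der) :
    Nat.card (PQ Γ) * (if Even (finrank F V) ∧ 4 ∣ Φ.no then 8 else 4) = Nat.card Φ.Iso := by
  obtain ⟨i1, i2⟩ := index_odd hk hn hd h2
  have k : ∀ z : Φ.Iso, z ∈ commutator Φ.Iso ↔ z.1 ∈ R.ι.range := fun z => by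
    rw [le_antisymm hR R.der, Der, ← Subgroup.map_subtype_commutator]
    exact (Subgroup.mem_map_iff_mem Φ.Iso.subtype_injective).symm
  rw [← oe_card R hR, i1]
  split_ifs with c
  · obtain ⟨z, hz⟩ := (k ⟨.neg F, (mem_iso_O hk).2 Q_neg⟩).1 ((i2 _ fun _ => rfl).2 c)
    have z1 : ∀ x, R.ι z x = -x := fun x => LinearEquiv.congr_fun hz x
    rw [(Nat.card_eq_two_iff' 1).2 ⟨⟨z, Subgroup.mem_center_iff.2 fun g => R.inj
      (LinearEquiv.ext fun x => by simp [z1])⟩, fun e => ?_, fun y hy => Subtype.ext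
        (R.inj (LinearEquiv.ext fun x => ?_))⟩]
    · obtain ⟨x, f, h, -⟩ := oe_hyp hk hn hd
      have := z1 x
      rw [show z = 1 from congrArg Subtype.val e, map_one] at this
      exact h.ne ((smul_eq_zero_iff_right (Ring.two_ne_zero h2)).1
        ((two_smul F x).trans (eq_neg_iff_add_eq_zero.1 this)))
    · rw [(oe_cen hk hn hd R y.2).resolve_left fun c => hy (Subtype.ext c), z1]
  · rw [show Subgroup.center Γ = ⊥ from eq_bot_iff.2 fun z hz =>
      (oe_cen hk hn hd R hz).resolve_right fun e => c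
        ((i2 ⟨R.ι z, R.le ⟨z, rfl⟩⟩ e).1 ((k _).2 ⟨z, rfl⟩)), Subgroup.card_bot]

end Frm

variable {F V H : Type} [Field F] [Finite F] [AddCommGroup V] [Module F V] [Finite V] [Group H]
  {m u : ℕ}

/-- Count the singular vectors after adding one dimension. -/
theorem oe_no {Q : QuadraticForm F V} (hn : (Frm.ofQ Q).Nd) (h2 : (2 : F) ≠ 0)
    (hd : finrank F V = 2 * m) : ((Frm.ofQ Q).ns + 1 + (Nat.card F - 1) * (Frm.ofQ Q).no : ℤ) =
      Nat.card F ^ (2 * m) := by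
  classical
  cases nonempty_fintype F
  have := Module.Finite.of_finite (R := F) (M := V)
  let Q' : QuadraticForm F (V × F) := Q.prod (-QuadraticMap.sq)
  have b : ∀ x y : V × F, (Frm.ofQ Q').B x y = (Frm.ofQ Q).B x.1 y.1 - 2 * (x.2 * y.2) :=
    fun x y => by
      change QuadraticMap.polar Q' x y = QuadraticMap.polar Q x.1 y.1 - _
      simp only [QuadraticMap.polar, Q', QuadraticMap.prod_apply, neg_apply,
        QuadraticMap.sq_apply, Prod.fst_add, Prod.snd_add]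
      ring
  have h1 : (Frm.ofQ Q').Nd := fun x hx => Prod.ext
    (hn _ fun y => by simpa [b] using hx (y, 0)) (by simpa [b, h2] using hx (0, 1))
  obtain ⟨t, n, hT⟩ := Frm.exists_ty h1
  obtain ⟨rfl, rfl⟩ := ty_odd (n := m) hT.kd (by rw [← hT.dim, finrank_prod, hd, finrank_self])
  have h3 : Nat.card {x // Q' x = 0} = ∑ t : F, Nat.card {x // Q x = t * t} := by
    rw [← Nat.card_sigma]
    exact Nat.card_congr ⟨fun x => ⟨x.1.2, x.1.1, by simpa [Q', add_neg_eq_zero] using x.2⟩,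
      fun x => ⟨(x.2.1, x.1), by simpa [Q', add_neg_eq_zero] using x.2.2⟩, fun _ => rfl,
      fun _ => rfl⟩
  have h4 : ∀ t ∈ Finset.univ.erase (0 : F), Nat.card {x // Q x = t * t} = (Frm.ofQ Q).no :=
    fun t ht => (Nat.card_congr ((LinearEquiv.smulOfNeZero F V t
      (Finset.ne_of_mem_erase ht)).toEquiv.subtypeEquiv fun x => by
        have := Finset.ne_of_mem_erase ht
        change Q x = 1 ↔ Q (t • x) = _
        simp [QuadraticMap.map_smul, this])).symm
  rw [← Finset.add_sum_erase _ _ (Finset.mem_univ 0), Finset.sum_const_nat h4, mul_zero,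
    Finset.card_erase_of_mem (Finset.mem_univ _), Finset.card_univ, ← Nat.card_eq_fintype_card]
    at h3
  have h5 := (Frm.fcnta_ns (.ofQ Q')).trans h3
  have h6 := hT.ns
  have h7 : 1 ≤ Nat.card F := Nat.card_pos
  rw [← show _ = Nat.card {x // Q x = 0} from Frm.fcnta_ns (.ofQ Q)] at h5
  zify [h7] at h5
  rw [← h5, h6]
  exact sub_add_cancel _ _

theorem oe_two_ne : ringChar F ≠ 2 ↔ Odd (Nat.card F) := by
  cases nonempty_fintype F
  rw [Ne, FiniteField.even_card_iff_char_two, Nat.card_eq_fintype_card, Nat.odd_iff]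
  omega

theorem IsOm.ordB (hm : 3 ≤ m) (h : IsOm H (2 * m + 1) u) : OrdB m u (Nat.card H) := by
  obtain ⟨F, _, _, Q', rfl, h'⟩ := id h
  obtain ⟨Q, t, n, hT, e, ⟨a⟩⟩ := h.ty
  obtain ⟨rfl, rfl⟩ := ty_odd hT.kd e
  obtain ⟨R, hR⟩ := brg_om Q
  have o : Odd (Nat.card F) := hT.odd rfl
  have k := Frm.card_odd rfl hT.nd (by simp; omega) (oe_two_ne.2 o) R hR
  rw [if_neg fun c => by simpa using c.1, ← Nat.card_congr a.toEquiv] at k
  have k1 : (Nat.card H : ℤ) * 4 = 2 * ((Nat.card F : ℤ) ^ (m * m) * ∏ i ∈ Finset.Icc 1 m,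
    ((Nat.card F : ℤ) ^ (2 * i) - 1)) := (by exact_mod_cast k : _ = _).trans hT.ord
  obtain ⟨j, hj⟩ := o
  rw [OrdB, Int.gcd_eq_left (by norm_num) ⟨j, by omega⟩]
  exact mul_left_cancel₀ two_ne_zero (by linear_combination k1)

theorem oe_gcd (x : ℤ) : (Int.gcd 4 x : ℤ) = if 4 ∣ x then 4 else if 2 ∣ x then 2 else 1 := by
  obtain ⟨k, rfl | rfl | rfl | rfl⟩ : ∃ k, x = 0 + 4 * k ∨ x = 1 + 4 * k ∨ x = 2 + 4 * k ∨
    x = 3 + 4 * k := ⟨x / 4, by omega⟩
  all_goals
    rw [Int.gcd_add_mul_left_right]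
    split_ifs <;> first | rfl | omega

theorem oe_ordD {Q : QuadraticForm F V} {ε : ℤ} (hε : ε = 1 ∨ ε = -1) (hm : 3 ≤ m)
    (hn : (Frm.ofQ Q).Nd) (hd : finrank F V = 2 * (m + 1)) (hu : Nat.card F = u) {X : ℤ}
    (h1 : ((Frm.ofQ Q).ns : ℤ) = (u ^ (m + 1) - ε) * (u ^ m + ε))
    (h2 : (Nat.card (Frm.ofQ Q).Iso : ℤ) = 2 * X) :
    (Nat.card (PQ (commutator (orth Q))) : ℤ) * Int.gcd 4 (u ^ (m + 1) - ε) = X := by
  obtain ⟨R, hR⟩ := brg_om Q
  refine mul_left_cancel₀ two_ne_zero ?_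
  rw [← h2, oe_gcd]
  by_cases c : ringChar F = 2
  · have o : (2 : ℤ) ∣ u ^ (m + 1) := dvd_pow (by
      have := mt Nat.odd_iff.2 (mt oe_two_ne.2 (not_not.2 c))
      omega) (by omega)
    rw [← Frm.card_even rfl hn (by omega) c R hR, if_neg (by omega), if_neg (by omega)]
    push_cast
    ring
  · have o : Odd (u : ℤ) := by exact_mod_cast hu ▸ oe_two_ne.1 c
    have k := oe_no hn (Ring.two_ne_zero c) hd
    have u1 : 1 < u := hu ▸ Finite.one_lt_card
    have e : ((Frm.ofQ Q).no : ℤ) = u ^ m * (u ^ (m + 1) - ε) :=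
      mul_left_cancel₀ (a := (u : ℤ) - 1) (by omega) (by
        rw [hu, h1] at k
        rcases hε with rfl | rfl <;> linear_combination k)
    have e1 : Even (finrank F V) ∧ 4 ∣ (Frm.ofQ Q).no ↔ 4 ∣ (u : ℤ) ^ (m + 1) - ε := by
      rw [and_iff_right (hd ▸ even_two_mul _), ← Int.natCast_dvd_natCast, e]
      exact ⟨IsCoprime.dvd_of_dvd_mul_left
        ((Int.isCoprime_two_left.2 o).pow (m := 2) (n := m)), fun h => h.mul_left _⟩
    have o1 := Int.odd_iff.1 (o.pow (n := m + 1))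
    rw [← Frm.card_odd rfl hn (by omega) c R hR, if_congr e1 rfl rfl,
      if_pos (show 2 ∣ (u : ℤ) ^ (m + 1) - ε by omega)]
    split_ifs <;> push_cast <;> ring

theorem IsOm.ordD (hm : 4 ≤ m) (h : IsOm H (2 * m) u) :
    OrdD 1 m u (Nat.card H) ∨ OrdD (-1) m u (Nat.card H) := by
  obtain ⟨F, _, _, Q', rfl, h'⟩ := id h
  obtain ⟨Q, t, n, hT, e, ⟨a⟩⟩ := h.ty
  obtain ⟨m, rfl⟩ : ∃ k, m = k + 1 := ⟨m - 1, by omega⟩
  rw [Nat.card_congr a.toEquiv]
  obtain ⟨rfl | rfl, rfl⟩ := ty_even hT.kd e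
  · exact .inl (oe_ordD (.inl rfl) (by omega) hT.nd hT.dim rfl hT.ns hT.ord)
  · exact .inr (oe_ordD (.inr rfl) (by omega) hT.nd hT.dim rfl
      (hT.ns.trans (by simp [Ty.sing, Sca.og, sub_eq_add_neg]))
      (hT.ord.trans (by simp [Ty.ord, Sca.og])))

end Pool.Agent.Lib.MP_7d41f7_al
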