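import Pool.Agent.Lib.MP_7d41f7_al.D.SMin

/-! The centre in small dimension. -/

set_option autoImplicit false

namespace Pool.Agent.Lib.MP_7d41f7_al

open Module

variable {F V : Type} [Field F] [Finite F] {P : Sca F} [AddCommGroup V] [Module F V] [Finite V]
  {Φ : Frm P V}

namespace Frm

/-- Transvections. -/
theorem exists_tv (hk : P.k ≠ .O) (hn : Φ.Nd) {e : V} (he : Φ.Q e = 0) {c : F}
    (hc : P.σ c + P.ε * c = 0) : ∃ g ∈ Φ.Iso, ∀ x, g x = x + (c * Φ.B x e) • e := by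
  let L : V →ₗ[F] V := LinearMap.id + (c • Φ.B.flip e).smulRight e
  have hL : ∀ x, L x = x + (c * Φ.B x e) • e := fun _ => rfl
  obtain ⟨g, hg, e1⟩ := hn.mk_iso L (fun x y => by
      simp only [hL, map_add, LinearMap.add_apply, smul_B, B_smul, B_self he, map_mul]
      rw [Φ.sym y e]
      linear_combination (Φ.B x e * P.σ (Φ.B y e)) * hc) fun x => by
    have h1 : P.τ (P.σ c) = 0 := by
      rcases P.kind with h | h | h
      · rw [Sca.τ_U h, P.σσ, ← hc, Sca.ε_U h, one_mul]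
      · exact Sca.τ_S h _
      · exact absurd h hk
    rw [hL, Φ.add, Φ.smul, he, B_smul, map_mul, mul_zero, add_zero,
      show P.σ c * P.σ (Φ.B x e) * Φ.B x e = Φ.B x e * P.σ (Φ.B x e) * P.σ c by ring, P.τ_norm,
      h1, mul_zero, add_zero]
  exact ⟨g, hg, fun x => (e1 x).trans (hL x)⟩

theorem tv_der_aux1 (hk : P.k ≠ .O) (hq : 4 ≤ P.q) : ∃ l : F, l ≠ 0 ∧ l * P.σ l ≠ 1 := by
  by_contra! h0
  have h1 := P.card
  rcases P.kind with h | h | h
  · have h2 := (Set.ncard_le_ncard (s := Set.univ) (t := insert 0 {c : F | c * P.σ c = 1})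
      fun l _ => (eq_or_ne l 0).imp_right (h0 l)).trans (Set.ncard_insert_le _ _)
    rw [Set.ncard_univ, h1, h, show Set.ncard {c : F | c * P.σ c = 1} = _ from Sca.card_norm h,
      Kd.fc] at h2
    nlinarith
  · have h2 := (Set.ncard_le_ncard (s := Set.univ) (t := insert 0 (insert 1 {(-1 : F)}))
      fun l _ => (eq_or_ne l 0).imp_right fun h3 =>
        mul_self_eq_one_iff.1 (Sca.σ_S h l ▸ h0 l h3 :)).trans ((Set.ncard_insert_le _ _).trans
          (Nat.succ_le_succ (Set.ncard_insert_le _ _)))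
    rw [Set.ncard_univ, h1, h, Set.ncard_singleton] at h2
    exact absurd (hq.trans h2) (by decide)
  · exact hk h

theorem tv_der_aux2 (hk : P.k ≠ .O) : ∃ c : F, c ≠ 0 ∧ P.σ c + P.ε * c = 0 := by
  rcases P.kind with h | h | h
  · have h1 := P.card_τ ⟨0, P.τ_zero⟩
    rw [Sca.tk_U h] at h1
    have : Nontrivial {a // P.τ a = 0} := Finite.one_lt_card_iff_nontrivial.1 (h1 ▸ P.q2)
    obtain ⟨⟨c, hc⟩, h2⟩ := exists_ne (⟨0, P.τ_zero⟩ : {a // P.τ a = 0})
    exact ⟨c, fun h3 => h2 (Subtype.ext h3), by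
      rwa [Sca.ε_U h, one_mul, add_comm, ← Sca.τ_U h]⟩
  · exact ⟨1, one_ne_zero, by simp [Sca.ε_S h]⟩
  · exact absurd h hk

/-- A transvection in the commutator subgroup. -/
theorem tv_der (hk : P.k ≠ .O) (hq : 4 ≤ P.q) (hn : Φ.Nd) {e : V} (he : Φ.Q e = 0) (h0 : e ≠ 0) :
    ∃ c : F, c ≠ 0 ∧ ∃ g ∈ Φ.Der, ∀ x, g x = x + (c * Φ.B x e) • e := by
  obtain ⟨l, hl, h1⟩ := tv_der_aux1 hk hq
  obtain ⟨c, hc, h2⟩ := tv_der_aux2 hk
  obtain ⟨s, hs, h3⟩ := trans_vec hn he h0 (e' := l • e) (by rw [Φ.smul, he, mul_zero])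
    (smul_ne_zero hl h0)
  obtain ⟨T, hT, h4⟩ := exists_tv hk hn he h2
  refine ⟨c * (l * P.σ l - 1), mul_ne_zero hc (sub_ne_zero.2 h1), s * T * s⁻¹ * T⁻¹,
    Subgroup.commutator_mem_commutator (Sm_le hs) hT, fun x => ?_⟩
  obtain ⟨y, rfl⟩ := T.surjective x
  obtain ⟨w, rfl⟩ := s.surjective y
  have h5 : (s * T * s⁻¹ * T⁻¹) (T (s w)) = s (T w) := by
    rw [← LinearEquiv.mul_apply, ← LinearEquiv.mul_apply, inv_mul_cancel_right,
      inv_mul_cancel_right, LinearEquiv.mul_apply]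
  have h6 := (Sm_le hs).1 w e
  rw [h3, B_smul] at h6
  rw [h5, h4, h4, map_add, map_smul, h3, map_add, LinearMap.add_apply, smul_B, B_self he, ← h6]
  module

/-- The centraliser of the commutator subgroup in small dimension. -/
theorem cen_of (hn : Φ.Nd) (h : 7 ≤ finrank F V ∨ (P.k ≠ .O ∧ 3 ≤ finrank F V ∧ 4 ≤ P.q)) :
    Φ.Cen := by
  intro z hz hc
  rcases h with hd | ⟨hk, hd, hq⟩
  · exact center_scalar hn hd hz hc
  have hs : ∀ u, Φ.Q u = 0 → u ≠ 0 → ∃ d : F, z u = d • u := fun u h1 h2 => by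
    obtain ⟨f, h⟩ := hn.partner' h1 h2
    obtain ⟨c, h3, g, hg, h4⟩ := tv_der hk hq hn h1 h2
    have h5 : g (z f) = z (g f) := by
      rw [← LinearEquiv.mul_apply, (hc g hg).eq, LinearEquiv.mul_apply]
    rw [h4, h4, h.fe, map_add, map_smul, add_right_inj] at h5
    exact ⟨(c * P.ε)⁻¹ * (c * Φ.B (z f) u), by
      rw [mul_smul, h5, inv_smul_smul₀ (mul_ne_zero h3 P.ε_ne)]⟩
  obtain ⟨e, h0, he⟩ := exists_sing (Φ := Φ) hd
  obtain ⟨f, h⟩ := hn.partner' he h0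
  obtain ⟨c, h1⟩ := hs e he h0
  obtain ⟨c', h2⟩ := hs f h.qf h.symm.ne
  have h3 : ∀ x ∈ Φ.pl e f, z x = c' • x := fun x hx => fcenb_pl hz hs h h2 hx
  have h4 : ∀ x ∈ Φ.pl e f, z x = c • x := fun x hx =>
    fcenb_pl hz hs h.symm (by rw [map_smul, h1, smul_comm])
      (Φ.mem_pl.2 ⟨(Φ.mem_pl.1 hx).2, by rw [B_smul, (Φ.mem_pl.1 hx).1, mul_zero]⟩)
  have hr := h.finrank_pl
  have : Nontrivial (Φ.pl e f) := Module.nontrivial_of_finrank_pos (R := F) (by omega)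
  obtain ⟨w, hw⟩ := exists_ne (0 : Φ.pl e f)
  have h5 : c' = c := smul_left_injective F (fun h6 => hw (Subtype.ext h6))
    ((h3 w w.2).symm.trans (h4 w w.2))
  subst h5
  refine ⟨c', ?_, fun v => ?_⟩
  · have h6 := hz.1 e f
    rwa [h1, h2, smul_B, B_smul, h.ef, mul_one] at h6
  · have h6 := h3 _ (h.dec v)
    rw [map_sub, map_sub, map_smul, map_smul, h1, h2, smul_sub, smul_sub, smul_comm c',
      smul_comm c'] at h6
    exact sub_left_injective (sub_left_injective h6)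

end Frm

end Pool.Agent.Lib.MP_7d41f7_al
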