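import Pool.Agent.Lib.MP_7d41f7_al.C.XDefs

/-! Unitary groups of small dimension: the interface between `S` and the unknown group. -/

set_option autoImplicit false

namespace Pool.Agent.Lib.MP_7d41f7_al

/-- `r` is a prime for which `-q` has order `m`, and `m` is `n` or `n - 1`. -/
structure UC (n q m r : ℕ) : Prop where
  pr : r.Prime
  ord : Ord (-(q : ℤ)) r = m
  top : m = n ∨ m + 1 = n

/-- What is known about a group with the order and the vanishing orders of `PSU(n, q)`. -/
structure UData (G : Type) [Group G] (n q : ℕ) : Prop where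
  card : ∃ c : ℕ, (Nat.card G : ℤ) * c * (q + 1) = Ty.U.ord n q ∧ c ∣ n ∧ c ∣ q + 1
  cyc : ∀ m r, UC n q m r → Cyc G r
  adj : ∀ m r u, UC n q m r → u.Prime → u ≠ r → Adj G u r → Ord (-(q : ℤ)) u ∣ m
  two : ∀ m r, UC n q m r → m % 2 = 1 → q % 4 = 1 → ¬ Adj G 2 r

end Pool.Agent.Lib.MP_7d41f7_al
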