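import Pool.Agent.Lib.MP_7d41f7_al.D.SUni
import Pool.Agent.Lib.MP_7d41f7_al.C.Brg
import Pool.Agent.Lib.MP_7d41f7_al.D.UDefs

/-! Hermitian forms: determinants and the order of the special unitary group. -/

set_option autoImplicit false

namespace Pool.Agent.Lib.MP_7d41f7_al

open Module

variable {F V : Type} [Field F] [Finite F] {P : Sca F} [AddCommGroup V] [Module F V] [Finite V]
  {Φ : Frm P V}

namespace Frm

variable {n m r : ℕ} {Γ : Type} [Group Γ] {g : V ≃ₗ[F] V}

/-- The group is the group of the isometries of determinant one. -/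
def Rep.Sp (R : Φ.Rep Γ) : Prop :=
  ∀ g ∈ Φ.Iso, g ∈ R.ι.range ↔ LinearMap.det (g : V →ₗ[F] V) = 1

theorem det_norm (hn : Φ.Nd) (hg : g ∈ Φ.Iso) :
    LinearMap.det (g : V →ₗ[F] V) * P.σ (LinearMap.det (g : V →ₗ[F] V)) = 1 := by
  classical
  have := Module.Finite.of_finite (R := F) (M := V)
  let b := finBasis F V
  let A : Matrix _ _ F := Matrix.of fun i j => Φ.B (b i) (b j)
  let M := LinearMap.toMatrix b b (g : V →ₗ[F] V)
  have hM : ∀ i, g (b i) = ∑ k, M k i • b k := fun i => by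
    simp only [M, LinearMap.toMatrix_apply]
    exact (b.sum_repr _).symm
  have e : M.transpose * A * M.map P.σ = A := by
    ext i j
    have := hg.1 (b i) (b j)
    rw [hM, hM] at this
    simp only [map_sum, LinearMap.sum_apply, smul_B, B_smul] at this
    simp only [Matrix.mul_apply, Matrix.transpose_apply, Matrix.map_apply, A, Matrix.of_apply,
      ← this]
    exact Finset.sum_congr rfl fun k _ => by rw [mul_comm, Finset.mul_sum]
  have hA : A.det ≠ 0 := fun h => by
    obtain ⟨v, h0, hv⟩ := Matrix.exists_vecMul_eq_zero_iff.2 h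
    have h1 : ∑ i, v i • b i = 0 := hn _ fun y => by
      rw [← b.sum_repr y]
      rw [map_sum (Φ.B _)]
      refine Finset.sum_eq_zero fun j _ => (Φ.B_smul _ _ _).trans (mul_eq_zero_of_right _ ?_)
      have := congrFun hv j
      simp only [Matrix.vecMul, dotProduct, A, Matrix.of_apply, Pi.zero_apply] at this
      simpa only [map_sum, LinearMap.sum_apply, smul_B] using this
    exact h0 (funext (Fintype.linearIndependent_iff.1 b.linearIndependent v h1))
  have e2 := congrArg Matrix.det e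
  rw [Matrix.det_mul, Matrix.det_mul, Matrix.det_transpose, ← RingHom.mapMatrix_apply,
    ← RingHom.map_det, LinearMap.det_toMatrix] at e2
  exact mul_right_cancel₀ hA (by linear_combination e2)

theorem exists_aniso (hk : P.k = .U) (hn : Φ.Nd) (hd : 0 < finrank F V) : ∃ v, Φ.Q v ≠ 0 := by
  by_contra h
  push Not at h
  have := Module.nontrivial_of_finrank_pos hd
  obtain ⟨x, hx⟩ := exists_ne (0 : V)
  refine hx (hn x fun y => by_contra fun e => ?_)
  obtain ⟨c, hc⟩ := P.tr_surj hk (map_one P.σ)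
  have := Φ.add ((c / Φ.B x y) • x) y
  rw [h, h, h, smul_B, div_mul_cancel₀ _ e, hc] at this
  simp at this

theorem exists_det (hk : P.k = .U) (hn : Φ.Nd) (hd : 0 < finrank F V) {c : F}
    (hc : c * P.σ c = 1) : ∃ g ∈ Φ.Iso, LinearMap.det (g : V →ₗ[F] V) = c := by
  have := Module.Finite.of_finite (R := F) (M := V)
  obtain ⟨v, hv⟩ := exists_aniso hk hn hd
  have hQ : ∀ x, Φ.Q x = Φ.B x x := fun x => by rw [Φ.diag, Sca.ρ_U hk, one_mul]
  have hs : ∀ x y, P.σ (Φ.B x y) = Φ.B y x := fun x y => by rw [Φ.sym x y, Sca.ε_U hk, one_mul]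
  rw [hQ] at hv
  let L := LinearMap.transvection (((c - 1) / Φ.B v v) • Φ.B.flip v) v
  have h1 : ∀ x y, Φ.B (L x) (L y) = Φ.B x y := fun x y => by
    simp only [L, LinearMap.transvection.apply, map_add, LinearMap.add_apply, smul_B, B_smul,
      LinearMap.smul_apply, LinearMap.flip_apply, smul_eq_mul, map_mul, map_div₀, map_sub, map_one,
      hs]
    field_simp
    linear_combination (Φ.B x v * Φ.B v y) * hc
  obtain ⟨g, hg, e⟩ := hn.mk_iso L h1 fun x => by rw [hQ, hQ, h1]
  refine ⟨g, hg, ?_⟩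
  rw [show (g : V →ₗ[F] V) = L from LinearMap.ext e, LinearMap.transvection.det]
  simp only [LinearMap.smul_apply, LinearMap.flip_apply, smul_eq_mul]
  field_simp
  ring

theorem index_su (hk : P.k = .U) (hn : Φ.Nd) (hd : 0 < finrank F V) (R : Φ.Rep Γ) (hR : R.Sp) :
    R.ι.range.relIndex Φ.Iso = P.q + 1 := by
  let D : Φ.Iso →* Fˣ := LinearEquiv.det.comp Φ.Iso.subtype
  have hD : ∀ g : Φ.Iso, (D g : F) = LinearMap.det (g.1 : V →ₗ[F] V) :=
    fun g => LinearEquiv.coe_det g.1
  have hker : R.ι.range.subgroupOf Φ.Iso = D.ker := Subgroup.ext fun g => by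
    rw [Subgroup.mem_subgroupOf, hR g.1 g.2, MonoidHom.mem_ker, ← Units.val_eq_one, hD]
  have hm : ∀ u : D.range, (u.1 : F) * P.σ u.1 = 1 := by
    rintro ⟨_, g, rfl⟩
    rw [hD]
    exact det_norm hn g.2
  rw [Subgroup.relIndex, hker, Subgroup.index_ker, ← Sca.card_norm hk]
  refine Nat.card_eq_of_bijective (fun u => (⟨u.1, hm u⟩ : {c : F // c * P.σ c = 1}))
    ⟨fun u v e => Subtype.ext (Units.ext (congrArg Subtype.val e)), fun c => ?_⟩
  obtain ⟨g, hg, e⟩ := exists_det hk hn hd c.2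
  exact ⟨⟨D ⟨g, hg⟩, _, rfl⟩, Subtype.ext ((hD _).trans e)⟩

theorem center_su (hk : P.k = .U) (hd : 0 < finrank F V) (R : Φ.Rep Γ) (hR : R.Sp) (hC : Φ.Cen) :
    Nat.card (Subgroup.center Γ) ∣ finrank F V ∧ Nat.card (Subgroup.center Γ) ∣ P.q + 1 := by
  have := R.finite
  choose c hc hv using fun z : Subgroup.center Γ => Rep.center' hC R z.2
  have := Module.nontrivial_of_finrank_pos hd
  obtain ⟨v, h0⟩ := exists_ne (0 : V)
  let φ : Subgroup.center Γ →* F :=
    { toFun := c
      map_one' := smul_left_injective F h0 (by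
        change c 1 • v = (1 : F) • v
        rw [← hv, one_smul, Subgroup.coe_one, map_one]
        rfl)
      map_mul' a b := smul_left_injective F h0 (by
        change c (a * b) • v = (c a * c b) • v
        rw [← hv, Subgroup.coe_mul, map_mul, LinearEquiv.mul_apply, hv, hv, smul_smul]) }
  have hφ : Function.Injective φ := fun a b e => Subtype.ext (R.inj (LinearEquiv.ext fun w => by
    rw [hv, hv]
    exact congrArg (· • w) e))
  have := isCyclic_of_injective_ringHom φ hφ
  have key : ∀ k, (∀ z, c z ^ k = 1) → Nat.card (Subgroup.center Γ) ∣ k := fun k h => by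
    rw [← IsCyclic.exponent_eq_card]
    exact Monoid.exponent_dvd_of_forall_pow_eq_one fun z =>
      hφ (by rw [map_pow, map_one]; exact h z)
  refine ⟨key _ fun z => ?_, key _ fun z => ?_⟩
  · have h1 := (hR _ (R.le ⟨z, rfl⟩)).1 ⟨z, rfl⟩
    rwa [show (R.ι z : V →ₗ[F] V) = c z • LinearMap.id from LinearMap.ext (hv z),
      LinearMap.det_smul, LinearMap.det_id, mul_one] at h1
  · rw [pow_succ', ← P.σU hk, hc]

theorem card_su (hT : Φ.IsTy .U n) (hn : 0 < n) (R : Φ.Rep Γ) (hR : R.Sp) (hC : Φ.Cen) :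
    ∃ c : ℕ, (Nat.card (PQ Γ) : ℤ) * c * (P.q + 1) = Ty.U.ord n P.q ∧ c ∣ n ∧ c ∣ P.q + 1 := by
  have hd : finrank F V = n := hT.dim
  have h0 := center_su hT.kd.symm (hd ▸ hn) R hR hC
  refine ⟨Nat.card (Subgroup.center Γ), ?_, hd ▸ h0.1, h0.2⟩
  have h1 := Subgroup.card_eq_card_quotient_mul_card_subgroup (Subgroup.center Γ)
  have h2 : Nat.card Γ = Nat.card (R.ι.range.subgroupOf Φ.Iso) :=
    Nat.card_congr ((MonoidHom.ofInjective R.inj).trans
      (Subgroup.subgroupOfEquivOfLe R.le).symm).toEquiv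
  have h3 := Subgroup.card_mul_index (R.ι.range.subgroupOf Φ.Iso)
  have h4 : (R.ι.range.subgroupOf Φ.Iso).index = P.q + 1 :=
    index_su hT.kd.symm hT.nd (hd ▸ hn) R hR
  rw [← hT.ord, ← h3, ← h2, h1, h4]
  push_cast
  rfl

end Frm

open Matrix in
theorem brg_su' (n : ℕ) (F : Type) [Field F] [Finite F] [StarRing F] {q : ℕ}
    (hc : Nat.card F = q ^ 2) (h : ∃ a : F, star a ≠ a) :
    ∃ (P : Sca F) (Φ : Frm P (Fin n → F)) (R : Φ.Rep (Matrix.specialUnitaryGroup (Fin n) F)),
      P.k = .U ∧ P.q = q ∧ Φ.Nd ∧ R.Sp := by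
  let P : Sca F := ⟨.U, q, starRingEnd F, hc, fun _ => star_eq_pow hc h, fun e => (e rfl).elim⟩
  have hs : ∀ x y : Fin n → F, y ⬝ᵥ star x = star (x ⬝ᵥ star y) := fun x y => by
    rw [← star_dotProduct_star, star_star]
  let Φ : Frm P (Fin n → F) :=
    { B := LinearMap.mk₂'ₛₗ (RingHom.id F) (starRingEnd F) (fun x y => x ⬝ᵥ star y)
        (fun _ _ _ => add_dotProduct _ _ _) (fun _ _ _ => smul_dotProduct _ _ _)
        (fun _ _ _ => by rw [star_add, dotProduct_add])
        fun _ _ _ => by rw [star_smul, dotProduct_smul]; rfl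
      Q := fun x => x ⬝ᵥ star x
      sym := fun x y => (hs x y).trans (one_mul _).symm
      add := fun x y => by
        change _ = _ + (x ⬝ᵥ star y + star (x ⬝ᵥ star y))
        rw [← hs, star_add, add_dotProduct, dotProduct_add, dotProduct_add]
        ring
      smul := fun a x => by
        rw [star_smul, smul_dotProduct, dotProduct_smul, mul_assoc]; rfl
      diag := fun x => (one_mul _).symm
      tr := fun x => P.tr_surj rfl (hs x x).symm }
  let ι : specialUnitaryGroup (Fin n) F →* ((Fin n → F) ≃ₗ[F] (Fin n → F)) :=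
    (LinearMap.GeneralLinearGroup.generalLinearEquiv F _).toMonoidHom.comp
      (UnitaryGroup.embeddingGL.comp (Submonoid.inclusion specialUnitaryGroup_le_unitaryGroup))
  have hι : ∀ A v, ι A v = A.1 *ᵥ v := fun A v => rfl
  have hB : ∀ (A : specialUnitaryGroup (Fin n) F) x y, ι A x ⬝ᵥ star (ι A y) = x ⬝ᵥ star y :=
    fun A x y => by
      rw [hι, hι, star_mulVec, dotProduct_comm, dotProduct_mulVec, vecMul_vecMul,
        ← star_eq_conjTranspose, mem_unitaryGroup_iff'.1 A.2.1, vecMul_one, dotProduct_comm]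
  have key : ∀ g ∈ Φ.Iso, LinearMap.det (g : (Fin n → F) →ₗ[F] (Fin n → F)) = 1 →
      g ∈ ι.range := by
    intro g h1 h2
    refine ⟨⟨LinearMap.toMatrix' (g : _ →ₗ[F] _), mem_specialUnitaryGroup_iff.2
      ⟨mem_unitaryGroup_iff'.2 (Matrix.ext fun i j => ?_), ?_⟩⟩, LinearEquiv.ext fun v => ?_⟩
    · have : g (Pi.single j 1) ⬝ᵥ star (g (Pi.single i 1)) =
          Pi.single j 1 ⬝ᵥ star (Pi.single i 1 : Fin n → F) := h1.1 _ _
      rw [dotProduct_comm] at this
      simpa [Matrix.mul_apply, dotProduct, one_apply, Pi.single_apply, apply_ite star, eq_comm]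
        using this
    · rw [LinearMap.det_toMatrix', h2]
    · rw [hι]
      exact LinearMap.toMatrix'_mulVec _ _
  refine ⟨P, Φ, ⟨ι, fun A A' e => Subtype.ext (toLin'.injective (LinearMap.ext fun v => ?_)),
    ?_, fun g hg => ?_⟩, rfl, rfl, fun x hx => funext fun i => ?_, fun g hg => ⟨?_, key g hg⟩⟩
  · exact LinearEquiv.congr_fun e v
  · rintro _ ⟨A, rfl⟩
    exact ⟨hB A, fun x => hB A x x⟩
  · have h1 : g ∈ Φ.Iso := Subgroup.commutator_le.2 (fun a ha b hb =>
      mul_mem (mul_mem (mul_mem ha hb) (inv_mem ha)) (inv_mem hb)) hg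
    have h2 : g ∈ LinearEquiv.det.ker := Subgroup.commutator_le.2 (fun a _ b _ => by
      rw [MonoidHom.mem_ker, map_commutatorElement, commutatorElement_eq_one_iff_mul_comm,
        mul_comm]) hg
    exact key g h1 (by rw [← LinearEquiv.coe_det, MonoidHom.mem_ker.1 h2, Units.val_one])
  · have : x ⬝ᵥ star (Pi.single i 1 : Fin n → F) = 0 := hx _
    simpa using this
  · rintro ⟨A, rfl⟩
    have e : (ι A : (Fin n → F) →ₗ[F] (Fin n → F)) = toLin' A.1 := LinearMap.ext fun _ => rfl
    exact (congrArg LinearMap.det e).trans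
      ((LinearMap.det_toLin' _).trans (mem_specialUnitaryGroup_iff.1 A.2).2)

end Pool.Agent.Lib.MP_7d41f7_al
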