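import Pool.Agent.Lib.MP_7d41f7_al.C.CFin
import Pool.Agent.Lib.MP_7d41f7_al.D.SCen
import Pool.Agent.Lib.MP_7d41f7_al.D.USA

/-! The exact orders of the projective symplectic and special unitary groups. -/

set_option autoImplicit false

namespace Pool.Agent.Lib.MP_7d41f7_al

open Module

variable {F V : Type} [Field F] [Finite F] {P : Sca F} [AddCommGroup V] [Module F V] [Finite V]
  {Φ : Frm P V}

namespace Frm

variable {Γ : Type} [Group Γ] {z : V ≃ₗ[F] V}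

/-- An isometry that fixes every singular line is a scalar. -/
theorem oex_lines (hn : Φ.Nd) (hd : 3 ≤ finrank F V) (hz : z ∈ Φ.Iso)
    (hs : ∀ u, Φ.Q u = 0 → u ≠ 0 → ∃ d : F, z u = d • u) :
    ∃ c : F, c * P.σ c = 1 ∧ ∀ v, z v = c • v := by
  obtain ⟨e, h0, he⟩ := exists_sing (Φ := Φ) hd
  obtain ⟨f, h⟩ := hn.partner' he h0
  obtain ⟨c, h1⟩ := hs e he h0
  obtain ⟨c', h2⟩ := hs f h.qf h.symm.ne
  have h3 : ∀ x ∈ Φ.pl e f, z x = c' • x := fun x hx => fcenb_pl hz hs h h2 hx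
  have h4 : ∀ x ∈ Φ.pl e f, z x = c • x := fun x hx =>
    fcenb_pl hz hs h.symm (by rw [map_smul, h1, smul_comm])
      (Φ.mem_pl.2 ⟨(Φ.mem_pl.1 hx).2, by rw [B_smul, (Φ.mem_pl.1 hx).1, mul_zero]⟩)
  have hr := h.finrank_pl
  have : Nontrivial (Φ.pl e f) := Module.nontrivial_of_finrank_pos (R := F) (by omega)
  obtain ⟨w, hw⟩ := exists_ne (0 : Φ.pl e f)
  have h5 : c' = c := smul_left_injective F (fun h6 => hw (Subtype.ext h6))
    ((h3 w w.2).symm.trans (h4 w w.2))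
  subst h5
  refine ⟨c', ?_, fun v => ?_⟩
  · have h6 := hz.1 e f
    rwa [h1, h2, smul_B, B_smul, h.ef, mul_one] at h6
  · have h6 := h3 _ (h.dec v)
    rw [map_sub, map_sub, map_smul, map_smul, h1, h2, smul_sub, smul_sub, smul_comm c',
      smul_comm c'] at h6
    exact sub_left_injective (sub_left_injective h6)

/-- An isometry that commutes with the isometries of determinant one is a scalar. -/
theorem oex_scal (hk : P.k ≠ .O) (hn : Φ.Nd) (hd : 3 ≤ finrank F V) (hz : z ∈ Φ.Iso)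
    (hc : ∀ g ∈ Φ.Iso, LinearMap.det (g : V →ₗ[F] V) = 1 → g * z = z * g) :
    ∃ c : F, c * P.σ c = 1 ∧ ∀ v, z v = c • v := by
  have := Module.Finite.of_finite (R := F) (M := V)
  refine oex_lines hn hd hz fun u h1 h2 => ?_
  obtain ⟨f, h⟩ := hn.partner' h1 h2
  obtain ⟨c, h3, h6⟩ := tv_der_aux2 hk
  obtain ⟨g, hg, h4⟩ := exists_tv hk hn h1 h6
  have h7 : LinearMap.det (g : V →ₗ[F] V) = 1 := by
    rw [show (g : V →ₗ[F] V) = LinearMap.transvection (c • Φ.B.flip u) u from LinearMap.ext h4,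
      LinearMap.transvection.det]
    simp [B_self h1]
  have h5 : g (z f) = z (g f) := by
    rw [← LinearEquiv.mul_apply, hc g hg h7, LinearEquiv.mul_apply]
  rw [h4, h4, h.fe, map_add, map_smul, add_right_inj] at h5
  exact ⟨(c * P.ε)⁻¹ * (c * Φ.B (z f) u), by
    rw [mul_smul, h5, inv_smul_smul₀ (mul_ne_zero h3 P.ε_ne)]⟩

/-- The order of the centre. -/
theorem oex_center (hk : P.k ≠ .O) (hn : Φ.Nd) (hd : 3 ≤ finrank F V) (R : Φ.Rep Γ)
    (h1 : ∀ g ∈ Φ.Iso, LinearMap.det (g : V →ₗ[F] V) = 1 → g ∈ R.ι.range) {k : ℕ}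
    (h2 : ∀ c : Fˣ, ∀ g : V ≃ₗ[F] V, (∀ v, g v = (c : F) • v) →
      (c ^ k = 1 ↔ c * P.σ c = 1 ∧ g ∈ R.ι.range)) :
    Nat.card (Subgroup.center Γ) = (Nat.card F - 1).gcd k := by
  have := Module.nontrivial_of_finrank_pos (R := F) (M := V) (by omega)
  obtain ⟨v, h0⟩ := exists_ne (0 : V)
  have h3 : ∀ c : (powMonoidHom k : Fˣ →* Fˣ).ker, ∃ z : Subgroup.center Γ,
      ∀ v, R.ι z v = (c.1 : F) • v := fun c => by
    obtain ⟨-, z, hz⟩ := (h2 c.1 (LinearEquiv.smulOfUnit c.1) fun _ => rfl).1 c.2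
    have e : ∀ v, R.ι z v = (c.1 : F) • v := fun v => by rw [hz]; rfl
    exact ⟨⟨z, Subgroup.mem_center_iff.2 fun g => R.inj (LinearEquiv.ext fun w => by
      rw [map_mul, map_mul, LinearEquiv.mul_apply, LinearEquiv.mul_apply, e, e, map_smul])⟩, e⟩
  choose φ hφ using h3
  rw [← Nat.card_units, ← IsCyclic.card_powMonoidHom_ker]
  refine (Nat.card_eq_of_bijective φ ⟨fun a b e => Subtype.ext (Units.ext
    (smul_left_injective F h0 ((hφ a v).symm.trans (e ▸ hφ b v)))), fun z => ?_⟩).symm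
  obtain ⟨c, hc, hv⟩ := oex_scal hk hn hd (R.le ⟨z, rfl⟩) fun g hg e => by
    obtain ⟨a, rfl⟩ := h1 g hg e
    rw [← map_mul, Subgroup.mem_center_iff.1 z.2 a, map_mul]
  refine ⟨⟨Units.mk0 c (left_ne_zero_of_mul_eq_one hc), (h2 _ _ hv).2 ⟨hc, z, rfl⟩⟩,
    Subtype.ext (R.inj (LinearEquiv.ext fun w => (hφ _ w).trans (hv w).symm))⟩

omit [Finite F] [Finite V] in
theorem oex_iso {c : F} (hc : c * P.σ c = 1) (h : ∀ v, z v = c • v) : z ∈ Φ.Iso :=
  ⟨fun x y => by rw [h, h, smul_B, B_smul, ← mul_assoc, hc, one_mul],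
    fun x => by rw [h, Φ.smul, hc, one_mul]⟩

omit [Finite F] [Finite V] in
theorem oex_card (R : Φ.Rep Γ) : Nat.card (PQ Γ) * Nat.card (Subgroup.center Γ) *
    R.ι.range.relIndex Φ.Iso = Nat.card Φ.Iso := by
  rw [← Subgroup.card_eq_card_quotient_mul_card_subgroup, ← Subgroup.card_mul_index
    (R.ι.range.subgroupOf Φ.Iso)]
  exact congrArg (· * _) (Nat.card_congr ((MonoidHom.ofInjective R.inj).trans
    (Subgroup.subgroupOfEquivOfLe R.le).symm).toEquiv)

end Frm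

variable {H : Type} [Group H] {m u : ℕ}

/-- The order of `PSp(2 m, u)`. -/
theorem IsSp.ord (hm : 2 ≤ m) (h : IsSp H m u) : OrdB m u (Nat.card H) := by
  obtain ⟨F, _, _, rfl, ⟨e⟩⟩ := h
  obtain ⟨Φ, R, hT, hR⟩ := sp_ty m F
  have hd : finrank F (Fin m ⊕ Fin m → F) = 2 * m := hT.dim
  have h1 := Frm.oex_center (k := 2) (by simp [Sca.sp]) hT.nd (by omega) R
    (fun g hg _ => hR hg) fun c g hg => by
      rw [← Units.val_eq_one, Units.val_pow_eq_pow_val, sq]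
      exact ⟨fun h => ⟨h, hR (Frm.oex_iso h hg)⟩, fun h => h.1⟩
  have h2 := Frm.oex_card R
  rw [Subgroup.relIndex_eq_one.2 hR, mul_one, h1] at h2
  have h3 := hT.ord
  rw [← h2, ← Nat.card_congr e.toEquiv, Nat.cast_mul, Nat.gcd_comm, ← Int.gcd_natCast_natCast,
    Nat.cast_pred Nat.card_pos] at h3
  exact h3

/-- The order of `PSU(m, u)`. -/
theorem IsSU.ord (hm : 3 ≤ m) (h : IsSU H m u) : OrdU m u (Nat.card H) := by
  obtain ⟨F, _, _, _, hq, hs, ⟨e⟩⟩ := h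
  obtain ⟨P, Φ, R, hk, rfl, hn, hR⟩ := brg_su' m F hq hs
  obtain ⟨t, n, hT⟩ := Frm.exists_ty hn
  obtain rfl : t = .U := by
    have := hT.kd.trans hk
    cases t <;> simp [Ty.kd] at this ⊢
  obtain rfl : m = n := by simpa [Ty.dim] using hT.dim
  have hd : finrank F (Fin m → F) = m := hT.dim
  have h1 := Frm.oex_center (k := m.gcd (P.q + 1)) (by simp [hk]) hn (by omega) R
    (fun g hg e => (hR g hg).2 e) fun c g hg => by
      have e1 : LinearMap.det (g : (Fin m → F) →ₗ[F] (Fin m → F)) = c ^ m := by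
        rw [show (g : (Fin m → F) →ₗ[F] (Fin m → F)) = (c : F) • LinearMap.id from
          LinearMap.ext hg, LinearMap.det_smul, LinearMap.det_id, mul_one, hd]
      rw [pow_gcd_eq_one, ← Units.val_eq_one, ← Units.val_eq_one, Units.val_pow_eq_pow_val,
        Units.val_pow_eq_pow_val, pow_succ', ← P.σU hk, ← e1, and_comm]
      exact and_congr_right fun h => (hR g (Frm.oex_iso h hg)).symm
  have h2 := Frm.oex_card R
  rw [Frm.index_su hk hn (by omega) R hR, h1, hq,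
    Nat.gcd_eq_right ((Nat.gcd_dvd_right _ _).trans ⟨P.q - 1, Nat.sq_sub_sq P.q 1⟩)] at h2
  have h3 := hT.ord
  rw [← h2, ← Nat.card_congr e.toEquiv, Ty.ord, ← Finset.insert_Icc_succ_left_eq_Icc (by omega),
    Finset.prod_insert (by simp)] at h3
  have h4 : ((P.q : ℤ) + 1) ≠ 0 := by positivity
  refine mul_right_cancel₀ h4 ?_
  rw [show Int.gcd m (P.q + 1) = m.gcd (P.q + 1) from Int.gcd_natCast_natCast m (P.q + 1)]
  push_cast at h3
  rw [h3]
  change _ = _ * (∏ i ∈ Finset.Icc (Order.succ 1) m, _) * _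
  ring

end Pool.Agent.Lib.MP_7d41f7_al
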