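import Pool.Agent.Lib.MP_7d41f7_al.D.RDefs
import Pool.Agent.Lib.MP_7d41f7_al.D.ZCore
import Pool.Agent.Lib.MP_7d41f7_al.C.Chr

/-! Subgroups of a group with an isolated cyclic Hall subgroup. -/

set_option autoImplicit false

namespace Pool.Agent.Lib.MP_7d41f7_al

open Subgroup

/-- What is known about a group with the order and the vanishing orders of the group of type
`y`. -/
structure RData (G : Type) [Group G] (y : Re) (m : ℕ) : Prop where
  card : (Nat.card G : ℤ) = y.ord (y.q m)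
  big : ∀ r, r.Prime → r ∣ y.tor m → y.e < r
  iso : ∀ r, r.Prime → r ∣ y.tor m → ∃ (g : G) (c e : ℕ), Isol g c ∧ r ∣ orderOf g ∧
    orderOf g ∣ y.tor m ∧ e ∣ y.e ∧ ∀ u, u.Prime → u ∣ orderOf g → c ≡ e [MOD u]

variable {A S G : Type} [Group A] [Finite A] [Group S] [Finite S] [Group G] [Finite G] {x y z : A}
  {c e r m : ℕ}

theorem Isol.norm_le (h : Isol x c) (hy : y ∈ zpowers x) (hz : z ∈ zpowers x) (h1 : y ≠ 1) :
    normalizer (zpowers y : Set A) ≤ normalizer (zpowers z : Set A) := fun g hg =>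
  mem_norm hz ((h.cen hy h1).le fun w hw => by
    have t := (h.cen hy h1).ge hz _ ((mem_normalizer_iff''.1 hg w).1 hw)
    calc w * (g * z * g⁻¹) = g * (g⁻¹ * w * g * z) * g⁻¹ := by group
      _ = g * z * g⁻¹ * w := by rw [t]; group)

theorem Isol.sub_aux (h : Isol x c) (he : e < r ∧ c ≡ e [MOD r]) (φ : S →* A)
    (inj : Function.Injective φ) (hr : r.Prime) {z : S} (oz : orderOf z = r)
    (hz : φ z ∈ zpowers x) : ∃ (s : S) (d a : ℕ), Isol s d ∧ r ∣ orderOf s ∧
      orderOf s ∣ orderOf x ∧ a ∣ e ∧ ∀ u, u.Prime → u ∣ orderOf s → d ≡ a [MOD u] := by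
  obtain ⟨s, hs⟩ := ((zpowers x).comap φ).isCyclic_iff_exists_zpowers_eq_top.1
    (isCyclic_of_injective (φ.subgroupComap (zpowers x)) fun a b t =>
      Subtype.ext (inj (congrArg Subtype.val t)))
  have zs : z ∈ zpowers s := hs.ge hz
  have d1 : orderOf s ∣ orderOf x :=
    orderOf_injective φ inj s ▸ orderOf_dvd_of_mem_zpowers (hs.le (mem_zpowers s))
  have cy : ∀ u, u.Prime → u ∣ orderOf s → Cyc S u := fun u hu d =>
    ((h.cyc hu (d.trans d1)).sub hu φ.range).of_surj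
      (φ := (φ.ofInjective inj).symm.toMonoidHom) (φ.ofInjective inj).symm.surjective hu
  have el : ∀ u, u.Prime → u ∣ orderOf s → ∀ g : S, u ∣ orderOf g → orderOf g ∣ orderOf s :=
    fun u hu d g dg => by
      have o := orderOf_pow_orderOf_div (orderOf_pos g).ne' dg
      obtain ⟨b, -, hb⟩ := (cy u hu d).conj hu ⊤ trivial trivial
        (orderOf_pow_orderOf_div (orderOf_pos s).ne' d) o
      rw [← (MulAut.conj b).orderOf_eq g]
      refine orderOf_dvd_of_mem_zpowers (hs.ge ((h.cen (hs.le (zpowers_le.2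
        (npow_mem_zpowers s _) hb)) fun t => hu.ne_one ?_).le fun w hw => ?_))
      · rw [← o, ← (MulAut.conj b).orderOf_eq, ← orderOf_injective φ inj]
        exact orderOf_eq_one_iff.2 t
      · obtain ⟨k, rfl⟩ := mem_zpowers_iff.1 hw
        exact ((((Commute.refl g).pow_left _).map (MulAut.conj b)).map φ).zpow_left k
  have cd : Nat.card S = orderOf s * (zpowers s).index := by
    rw [← Nat.card_zpowers, card_mul_index]
  have cp : ∀ u, u.Prime → u ∣ orderOf s → ¬ u ∣ (zpowers s).index := fun u hu d b => by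
    have := Fact.mk hu
    obtain ⟨P⟩ : Nonempty (Sylow u S) := inferInstance
    obtain ⟨g, hg⟩ := (cy u hu d P).exists_ofOrder_eq_natCard
    rw [P.card_eq_multiplicity, ← orderOf_coe] at hg
    refine Nat.pow_succ_factorization_not_dvd (Nat.card_pos (α := S)).ne' hu ?_
    rw [pow_succ, ← hg]
    exact cd ▸ mul_dvd_mul (el u hu d g (hg ▸ dvd_pow_self u (hu.factorization_pos_of_dvd
      Nat.card_pos.ne' (d.trans (orderOf_dvd_natCard s))).ne')) b
  have I : Isol s (zpowers s).index := ⟨cd, Nat.coprime_of_dvd cp, fun v u hv hu a b ⟨g, hg⟩ =>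
    cp u hu ((Dvd.intro _ hg.symm).trans (el v hv a g (Dvd.intro_left _ hg.symm))) b⟩
  have z1 : z ≠ 1 := fun a => hr.ne_one (oz ▸ orderOf_eq_one_iff.2 a)
  refine ⟨s, _, (zpowers s).relIndex (normalizer (zpowers z : Set S)), I,
    oz ▸ orderOf_dvd_of_mem_zpowers zs, d1, ?_, fun u hu d => ?_⟩
  · have := (zpowers (φ z)).normalizerMonoidHom.normal_ker
    rw [normalizerMonoidHom_ker, h.cen hz fun a => z1 (inj (a.trans φ.map_one.symm))] at this
    rw [← h.norm hr hz ((orderOf_injective φ inj z).trans oz) he.1 he.2, hs, relIndex_comap,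
      ← relIndex_subgroupOf (φ.map_zpowers z ▸ le_normalizer_map φ)]
    exact relIndex_dvd_index_of_normal _ _
  · have o := orderOf_pow_orderOf_div (orderOf_pos s).ne' d
    have w := npow_mem_zpowers s (orderOf s / u)
    rw [(I.norm_le zs w z1).antisymm (I.norm_le w zs fun a =>
      hu.ne_one (o ▸ orderOf_eq_one_iff.2 a)),
      I.norm hu w o (Nat.mod_lt _ hu.pos) (Nat.mod_modEq _ u).symm]
    exact (Nat.mod_modEq _ u).symm

theorem Isol.sub (h : Isol x c) (he : e < r ∧ c ≡ e [MOD r]) (φ : S →* A)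
    (inj : Function.Injective φ) (hr : r.Prime) (d1 : r ∣ orderOf x) (d2 : r ∣ Nat.card S) :
    ∃ (s : S) (d a : ℕ), Isol s d ∧ r ∣ orderOf s ∧
      orderOf s ∣ orderOf x ∧ a ∣ e ∧ ∀ u, u.Prime → u ∣ orderOf s → d ≡ a [MOD u] := by
  have := Fact.mk hr
  obtain ⟨z, oz⟩ := exists_prime_orderOf_dvd_card' r d2
  obtain ⟨b, -, hb⟩ := (h.cyc hr d1).conj hr ⊤ trivial trivial
    (orderOf_pow_orderOf_div (orderOf_pos x).ne' d1) ((orderOf_injective φ inj z).trans oz)
  exact h.sub_aux he ((MulAut.conj b).toMonoidHom.comp φ) ((MulAut.conj b).injective.comp inj) hr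
    oz (zpowers_le.2 (npow_mem_zpowers x _) hb)

theorem Re.tor_dvd (y : Re) (m : ℕ) : (y.tor m : ℤ) ∣ y.ord (y.q m) := by
  have h : 1 ≤ y.q m := Nat.one_le_pow _ _ (by cases y <;> decide)
  have h1 := Nat.le_self_pow two_ne_zero (y.q m)
  have h2 := Nat.pow_le_pow_right h (show 2 ≤ 4 by omega)
  cases y <;> simp only [Re.tor, Re.ord] <;> push_cast [h1, h2] <;> generalize (Re.q _ m : ℤ) = q
  · exact ⟨q ^ 2 * (q - 1), by ring⟩
  · exact ⟨q ^ 3 * (q + 1) * (q - 1), by ring⟩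
  · exact ⟨q ^ 12 * (q ^ 2 + 1) * (q ^ 4 - 1) * (q ^ 3 + 1) * (q - 1), by ring⟩

omit [Finite S] in
theorem RData.of {y : Re} (hA : ∃ (x : A) (c : ℕ), Isol x c ∧ orderOf x = y.tor m ∧
      ∀ r, r.Prime → r ∣ y.tor m → Ord (y.q m) r = y.e ∧ y.e < r ∧ c ≡ y.e [MOD r])
    (φ : S →* A) (inj : Function.Injective φ) (card : (Nat.card S : ℤ) = y.ord (y.q m))
    (van : ∀ r, r.Prime → r ∣ y.tor m → ∀ x : S, r ∣ orderOf x → orderOf x ∈ Vo S)
    (hc : Nat.card G = Nat.card S) (hV : Vo G = Vo S) : RData G y m := by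
  have := Finite.of_injective φ inj
  obtain ⟨x, c, h, o, he⟩ := hA
  refine ⟨hc ▸ card, fun r hr d => (he r hr d).2.1, fun r hr d => ?_⟩
  obtain ⟨s, b, a, I, h1, h2, h3, h4⟩ := h.sub (he r hr d).2 φ inj hr (o ▸ d)
    (d.trans (Int.natCast_dvd_natCast.1 (card ▸ y.tor_dvd m)))
  obtain ⟨g, og, -⟩ := hV ▸ van r hr d s h1
  rw [o] at h2
  refine ⟨g, b, a, ⟨by rw [hc, og, I.card], og ▸ I.cop, fun v u hv hu d1 d2 ad => ?_⟩, og ▸ h1,
    og ▸ h2, h3, og ▸ h4⟩
  rw [og] at d1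
  exact I.nad v u hv hu d1 d2 ((transfer_adj hv ((Nat.coprime_primes hu hv).2 fun t =>
    I.ne hv d1 (t ▸ d2)) hc hV (I.cyc hv d1) (van v hv (d1.trans h2))).1 ad)

end Pool.Agent.Lib.MP_7d41f7_al
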