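import Pool.Agent.Lib.MP_7d41f7_al.D.RS
import Pool.Agent.Lib.MP_7d41f7_al.D.RY
import Pool.Agent.Lib.MP_7d41f7_al.D.JMain

/-! The section of a group with the data of a Suzuki or Ree group. -/

set_option autoImplicit false

namespace Pool.Agent.Lib.MP_7d41f7_al

open Subgroup

variable {G : Type} [Group G] [Finite G] {y : Re} {c m r : ℕ}

theorem Isol.hall {t : G} (h : Isol t c) {H : Subgroup G} [H.Normal] [IsSimpleGroup H]
    (hr : r.Prime) (d1 : r ∣ orderOf t) (d2 : r ∣ Nat.card H) (M : Subgroup G) (hM : M.Normal)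
    (h0 : M ≠ ⊥) : ∃ u, u.Prime ∧ u ∣ orderOf t ∧ u ∣ Nat.card M := by
  rcases IsSimpleGroup.eq_bot_or_eq_top_of_normal (M.subgroupOf H) inferInstance with a | a
  · obtain ⟨u, hu, d⟩ := Nat.exists_prime_and_dvd (mt card_eq_one.1 h0)
    obtain ⟨z, hz, oz⟩ := exists_socle_elt hu d
    obtain ⟨w, hw, ow⟩ := exists_socle_elt hr d2
    refine ⟨u, hu, by_contra fun b => h.nad r u hr hu d1 ((hu.dvd_mul.1 (h.card ▸ d.trans
      (card_subgroup_dvd_card M))).resolve_left b) (adj_of_commute hu hr (fun e => b (e ▸ d1))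
        oz.symm.dvd ow.symm.dvd ?_), d⟩
    exact commute_of_normal_of_disjoint M H hM inferInstance (subgroupOf_eq_bot.1 a) z w hz hw
  · exact ⟨r, hr, d1, d2.trans (card_dvd_of_le (subgroupOf_eq_top.1 a))⟩

theorem rmain (hq : 2 ^ 2000 ≤ y.q m ^ y.dim) (h : RData G y m) :
    ∃ (K : Subgroup G) (_ : K.Normal) (H : Subgroup (G ⧸ K)), H.Normal ∧ IsSimpleGroup H ∧
      ¬ IsMulCommutative H ∧ centralizer (H : Set (G ⧸ K)) = ⊥ ∧ HOutR H y m := by
  obtain ⟨K, _, kg, kmax⟩ := exists_core' (G := G) fun r => r ∣ y.tor m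
  have q0 := Re.q70 hq
  have cd := h.card
  rw [Re.ord_eq, ← mul_assoc, ← Re.tor_cast] at cd
  have rad : ∀ u, u.Prime → u ∣ Nat.card K →
      (u = y.p ∧ y = .F4 ∧ (2 * m + 1) * 6 ≤ (Nat.card K).factorization u) ∧
        u ^ (Nat.card K).factorization u ≡ 1 [MOD y.tor m] := fun u hu d => by
    have a : u ^ (Nat.card K).factorization u ≡ 1 [MOD y.tor m] :=
      ((Nat.modEq_iff_dvd' (pow_pos hu.pos _)).2 ((Nat.dvd_iff_prime_pow_dvd_dvd _ _).2
        fun r i hr hi => by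
          rcases i with _ | i
          · simp
          obtain ⟨g, c, e, I, h1, h2, -⟩ := h.iso r hr ((dvd_pow_self r i.succ_ne_zero).trans hi)
          exact (((hr.coprime_iff_not_dvd.2 (I.ne hr h1)).pow_left _).dvd_of_dvd_mul_right
            (I.card ▸ hi.trans (Int.natCast_dvd_natCast.1 (cd ▸ dvd_mul_left _ _)))).trans
            ((Nat.modEq_iff_dvd' (pow_pos hu.pos _)).1
              (I.free K (fun r hr a => kg r hr (a.trans h2)) hu d).2.symm))).symm
    exact ⟨Re.rad (by omega) hu (hu.factorization_pos_of_dvd Nat.card_pos.ne' d)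
      (pp_cancel hu (mt Int.natCast_dvd_natCast.1 fun b => kg u hu b d) 1 (by
        rw [pow_one, mul_comm, ← cd]
        exact_mod_cast (Nat.ordProj_dvd _ u).trans (card_subgroup_dvd_card K))) a, a⟩
  obtain ⟨j, hj⟩ : ∃ j, Nat.card K = y.p ^ j :=
    ⟨_, Nat.eq_prime_pow_of_unique_prime_dvd Nat.card_pos.ne' fun hd d => (rad _ hd d).1.1⟩
  have jj : (j = 0 ∨ y = .F4 ∧ (2 * m + 1) * 6 ≤ j) ∧ y.p ^ j ≡ 1 [MOD y.tor m] := by
    rcases j.eq_zero_or_pos with rfl | j0
    · exact ⟨.inl rfl, rfl⟩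
    have a := rad _ y.pp (hj ▸ dvd_pow_self _ j0.ne')
    rw [hj, y.pp.factorization_pow, Finsupp.single_eq_same] at a
    exact ⟨.inr a.1.2, a.2⟩
  have cG : Nat.card G = Nat.card (G ⧸ K) * y.p ^ j :=
    hj ▸ card_eq_card_quotient_mul_card_subgroup K
  have mk : ∀ n a, 0 < a → 2 * a ≤ y.e → n * a = Nat.card (G ⧸ K) → RD y m j n :=
    fun n a h1 h2 h3 => ⟨hq, h.big, jj.1, a, h1, h2, by rw [h3, ← cG, h.card]⟩
  have e2 := y.e_two
  have e3 := Nat.le_of_dvd (by omega) e2.2.1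
  obtain ⟨β, b0, b1, b2, -⟩ := y.tor_bd m
  have lo := (mk _ 1 one_pos (by omega) (mul_one _)).lo b2
  have q3 := Nat.le_self_pow (β.add_one_ne_zero) (y.q m)
  have : Nontrivial (G ⧸ K) := Finite.one_lt_card_iff_nontrivial.1 (by omega)
  have cy : ∀ r, r.Prime → r ∣ y.tor m → Cyc (G ⧸ K) r := fun r hr d =>
    (h.iso r hr d).elim fun g ⟨_, _, I, a, _⟩ =>
      (I.cyc hr a).of_surj (QuotientGroup.mk'_surjective K) hr
  have hall : ∀ M : Subgroup (G ⧸ K), M.Normal → M ≠ ⊥ →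
      ∃ r, r.Prime ∧ r ∣ y.tor m ∧ r ∣ Nat.card M := fun M hM h0 => by
    by_contra a
    push Not at a
    refine h0 (eq_bot_iff.2 fun x hx => ?_)
    obtain ⟨x, rfl⟩ := QuotientGroup.mk'_surjective K x
    refine (QuotientGroup.eq_one_iff x).2 (kmax (M.comap (QuotientGroup.mk' K)) inferInstance
      (fun r hr g b => ?_) hx)
    exact (hr.dvd_mul.1 (b.trans (QuotientGroup.card_preimage_mk K M).dvd)).elim (kg r hr g)
      (a r hr g)
  obtain ⟨L, _, l0, _⟩ := exists_min_simple _ cy hall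
  obtain ⟨r, hr, d1, d2⟩ := hall L inferInstance l0
  obtain ⟨t, c, e, I, r1, r2, r3, r4⟩ := h.iso r hr d1
  obtain ⟨ot, d, rfl, I'⟩ := I.quot K fun r hr a => kg r hr (a.trans r2)
  have e4 := Nat.le_of_dvd (by omega) r3
  obtain ⟨H, h0, h1, h2, h3, -, h4, h5⟩ := I'.top (e := e) (fun u hu a => by
    rw [ot] at a
    refine ⟨e4.trans_lt (h.big u hu (a.trans r2)), .trans ?_ (r4 u hu a)⟩
    simpa [hj] using ((jj.2.of_dvd (a.trans r2)).mul_right d).symm) (by
      rintro rfl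
      have c1 := Nat.mul_le_mul ((Nat.le_of_dvd (by
        have := pow_pos (show 0 < y.q m by omega) β
        omega) r2).trans b1) (e4.trans e3)
      rw [← ot, ← I'.card] at c1
      have := pw_le (C := 432) (by omega) (show y.q m ^ (β + 1) ≤ _ * y.q m ^ β by omega)
        β.lt_succ_self
      omega) (I'.hall hr (ot ▸ r1) d2)
  have D := mk (Nat.card H) H.index (Nat.pos_of_ne_zero H.index_ne_zero_of_finite) (by
    obtain ⟨k, hk⟩ := h4
    generalize H.index = a at *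
    rcases k with _ | _ | k
    · exact absurd (Nat.eq_zero_of_zero_dvd (hk ▸ r3)) (by omega)
    · omega
    · rw [mul_add, mul_add] at hk
      omega) H.card_mul_index
  have om : ∀ {m u : ℕ}, IsOm H m u → ∃ v g : ℕ, v.Prime ∧ 0 < g ∧ v ^ g = u :=
    fun ⟨F, _, _, _, e, _⟩ => e ▸ card_vg F
  refine ⟨K, inferInstance, H, h0, h1, h2, h3, fun n => ⟨fun φ => ?_⟩, fun n E _ _ => ⟨fun φ => ?_⟩,
    fun n u hn a b => ?_, fun n u hn a b => ?_, fun ε n u hε hn a b => ?_, fun x u hu a => ?_,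
    fun z k => D.ree, D.not_spor⟩
  · rcases subsingleton_or_nontrivial (Fin n) with a | a
    · have := φ.injective.subsingleton
      exact false_of_nontrivial_of_subsingleton H
    refine D.not_alt (n := n) ?_ fun r hr b _ => alt_lt hr (by have := h.big r hr b; omega)
      (((cy r hr b).sub hr H).of_surj (φ := φ.toMonoidHom) φ.surjective hr)
    rw [Nat.card_congr φ.toEquiv, two_mul_nat_card_alternatingGroup, Nat.card_perm, Nat.card_fin]
  · have hn : 2 ≤ n := by
      by_contra hn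
      have := pl_small (F := E) (not_le.1 hn)
      have := φ.injective.subsingleton
      exact false_of_nontrivial_of_subsingleton H
    obtain ⟨v, g, hv, hg, a⟩ := card_vg E
    exact D.lin hv hg hn (by
      rw [Nat.card_congr φ.toEquiv, a]
      exact card_PL (by omega))
  · obtain ⟨E, _, _, _, e1, -⟩ := a
    obtain ⟨v, g, hv, hg, e2⟩ := card_vg E
    obtain ⟨v, g, hv, hg, rfl⟩ := (isPrimePow_nat_iff u).1 ((isPrimePow_pow_iff two_ne_zero).1
      (e1 ▸ e2 ▸ hv.prime.isPrimePow.pow hg.ne'))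
    exact D.uni hv hg hn b
  · obtain ⟨v, g, hv, hg, rfl⟩ : ∃ v g : ℕ, v.Prime ∧ 0 < g ∧ v ^ g = u :=
      a.elim (fun ⟨E, _, _, e, _⟩ => e ▸ card_vg E) om
    exact D.sym hv hg hn b
  · obtain ⟨v, g, hv, hg, rfl⟩ := om a
    exact D.ort hv hg hn hε b
  · obtain ⟨v, g, hv, hg, rfl⟩ := (isPrimePow_nat_iff u).1 hu
    exact D.exc hv hg a

end Pool.Agent.Lib.MP_7d41f7_al
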