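import Pool.Agent.Lib.MP_7d41f7_al.D.EDefs
import Pool.Agent.Lib.MP_7d41f7_al.E.RDef

/-! The Suzuki and Ree groups: the interface. -/

set_option autoImplicit false

namespace Pool.Agent.Lib.MP_7d41f7_al

/-- The characteristic. -/
def Re.p : Re → ℕ
  | .G2 => 3
  | _ => 2

/-- The order of the field. -/
def Re.q (y : Re) (m : ℕ) : ℕ := y.p ^ (2 * m + 1)

/-- The order formula. -/
def Re.ord : Re → ℤ → ℤ
  | .B2, u => u ^ 2 * (u ^ 2 + 1) * (u - 1)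
  | .G2, u => u ^ 3 * (u ^ 3 + 1) * (u - 1)
  | .F4, u => u ^ 12 * (u ^ 6 + 1) * (u ^ 4 - 1) * (u ^ 3 + 1) * (u - 1)

/-- The degree of the order formula. -/
def Re.dim : Re → ℕ
  | .B2 => 5 | .G2 => 7 | .F4 => 26

/-- The index of the isolated torus in its normaliser. -/
def Re.e : Re → ℕ
  | .B2 => 4 | .G2 => 6 | .F4 => 12

/-- The order of the isolated torus of the ambient group `B₂(q)`, `G₂(q)`, `F₄(q)`. -/
def Re.tor (y : Re) (m : ℕ) : ℕ :=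
  match y with
  | .B2 => y.q m ^ 2 + 1
  | .G2 => y.q m ^ 2 - y.q m + 1
  | .F4 => y.q m ^ 4 - y.q m ^ 2 + 1

/-- The section determines the type and the field. -/
structure HOutR (H : Type) [Group H] (y : Re) (m : ℕ) : Prop where
  alt : ∀ k : ℕ, IsEmpty (H ≃* alternatingGroup (Fin k))
  lin : ∀ (k : ℕ) (K : Type) [Field K] [Finite K], IsEmpty (H ≃* PL k K)
  uni : ∀ k u : ℕ, 3 ≤ k → IsSU H k u → ¬ OrdU k u (Nat.card H)
  sym : ∀ k u : ℕ, 2 ≤ k → IsSp H k u ∨ IsOm H (2 * k + 1) u → ¬ OrdB k u (Nat.card H)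
  ort : ∀ (ε : ℤ) (k u : ℕ), ε = 1 ∨ ε = -1 → 4 ≤ k → IsOm H (2 * k) u → ¬ OrdD ε k u (Nat.card H)
  exc : ∀ (x : Ex) (u : ℕ), IsPrimePow u → (Nat.card H : ℤ) * x.cen u ≠ x.ord u
  ree : ∀ (z : Re) (k : ℕ), (Nat.card H : ℤ) = z.ord (z.q k) → z = y ∧ k = m
  spor : Nat.card H ∉ sporOrd

end Pool.Agent.Lib.MP_7d41f7_al
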