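import Pool.Agent.Lib.MP_7d41f7_al.D.DFin
import Pool.Agent.Lib.MP_7d41f7_al.D.LTwo
import Pool.Agent.Lib.MP_7d41f7_al.D.EMain
import Pool.Agent.Lib.MP_7d41f7_al.D.RMain
import Pool.Agent.Lib.MP_7d41f7_al.D.KDef4
import Pool.Agent.Lib.MP_7d41f7_al.E.RFin
import Pool.Agent.Lib.MP_7d41f7_al.E.RAmb
import Pool.Agent.Lib.MP_7d41f7_al.D.OEx
import Pool.Agent.Lib.MP_7d41f7_al.D.OEo
import Pool.Agent.Lib.MP_7d41f7_al.A.AG

/-! All groups on the list. -/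

set_option autoImplicit false

namespace Pool.Agent.Lib.MP_7d41f7_al

open Subgroup

/-- The second case of the theorem. -/
def Off4 (G : Type) [Group G] : Prop :=
  ∃ (K : Subgroup G) (_ : K.Normal) (H : Subgroup (G ⧸ K)), H.Normal ∧
    IsSimpleGroup H ∧ ¬ IsMulCommutative H ∧ centralizer (H : Set (G ⧸ K)) = ⊥ ∧ ¬ OnList4 H

variable {G H S : Type} [Group G] [Group H] [Group S] {x : Ex} {y : Re} {q m : ℕ}

theorem IsChev.pp (h : IsChev S x q) : IsPrimePow q := by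
  have k : ∀ {l : ℕ} {M : Matrix (Fin l) (Fin l) ℤ} {g : Equiv.Perm (Fin l)} {k : ℕ}, k ≠ 0 →
      IsCh S M g k q → IsPrimePow q := fun hk ⟨F, _, _, e, _⟩ =>
    (isPrimePow_pow_iff hk).1 (e ▸ card_pp F)
  cases x <;> exact k (by decide) h

theorem Re.qpp (y : Re) (m : ℕ) : IsPrimePow (y.q m) := y.pp.prime.isPrimePow.pow (by omega)

/-- The classical part of the list. -/
def Cls4 (H : Type) [Group H] : Prop :=
  (∃ m : ℕ, Nonempty (H ≃* alternatingGroup (Fin m))) ∨ (∃ m u : ℕ, IsSL H m u) ∨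
  (∃ m u : ℕ, 3 ≤ m ∧ IsSU H m u ∧ OrdU m u (Nat.card H)) ∨
  (∃ m u : ℕ, (2 ≤ m ∧ IsSp H m u ∨ 3 ≤ m ∧ IsOm H (2 * m + 1) u) ∧ OrdB m u (Nat.card H)) ∨
  (∃ m u : ℕ, 4 ≤ m ∧ IsOm H (2 * m) u ∧
    (OrdD 1 m u (Nat.card H) ∨ OrdD (-1) m u (Nat.card H))) ∨ Nat.card H ∈ sporOrd

theorem OnList4.cls (h : OnList4 H) : Cls4 H ∨ (∃ x q, IsChev H x q) ∨ ∃ y m, IsRee H y m := by
  rcases h with h | (⟨n, q, ⟨-, h⟩ | ⟨a, h⟩ | ⟨a, h⟩ | ⟨a, h⟩⟩ | h) | h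
  · exact .inl (.inl h)
  · exact .inl (.inr (.inl ⟨_, _, h⟩))
  · exact .inl (.inr (.inr (.inl ⟨_, _, a, h, h.ord a⟩)))
  · exact .inl (.inr (.inr (.inr (.inl ⟨_, _, .inl ⟨a, h⟩, h.ord a⟩))))
  · obtain ⟨m, rfl | rfl⟩ := Nat.even_or_odd' n
    · exact .inl (.inr (.inr (.inr (.inr (.inl ⟨_, _, by omega, h, h.ordD (by omega)⟩)))))
    · exact .inl (.inr (.inr (.inr (.inl ⟨_, _, .inr ⟨by omega, h⟩, h.ordB (by omega)⟩))))
  · exact .inr h
  · exact .inl (.inr (.inr (.inr (.inr (.inr h)))))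

theorem OnList4.on3 (h : OnList4 H) : OnList3 H := by
  rcases h.cls with h | ⟨x, q, h⟩ | ⟨y, m, h⟩
  · exact h.imp_right (.imp_right (.imp_right (.imp_right (.imp_right .inr))))
  · refine .inr (.inr (.inr (.inr (.inr (.inl ⟨q, h.pp, ?_⟩)))))
    have := h.card
    unfold ExcOrd3
    cases x <;> simp only [Ex.cen, Ex.ord, Nat.cast_one, mul_one] at this <;> tauto
  · refine .inr (.inr (.inr (.inr (.inr (.inl ⟨_, y.qpp m, ?_⟩)))))
    have := Re.reeOrd h.card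
    unfold ExcOrd3
    unfold ReeOrd at this
    tauto

theorem Off3.off4 (h : Off3 G) : Off4 G :=
  let ⟨K, a, H, b, c, d, e, f⟩ := h
  ⟨K, a, H, b, c, d, e, mt OnList4.on3 f⟩

theorem HOutE.hit (h : HOutE H x q) (hl : OnList4 H) : IsChev H x q := by
  rcases hl.cls with (⟨m, ⟨e⟩⟩ | ⟨m, u, K, _, _, -, ⟨e⟩⟩ | ⟨m, u, a, b, c⟩ | ⟨m, u, a, b⟩ |
    ⟨m, u, a, b, c | c⟩ | a) | ⟨z, u, a⟩ | ⟨z, k, a⟩
  · exact ((h.alt m).false e).elim
  · exact ((h.lin m K).false e).elim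
  · exact (h.uni m u a b c).elim
  · exact (h.sym m u (by omega) (a.imp (·.2) (·.2)) b).elim
  · exact (h.ort 1 m u (.inl rfl) a b c).elim
  · exact (h.ort (-1) m u (.inr rfl) a b c).elim
  · exact (h.spor a).elim
  · obtain ⟨rfl, rfl⟩ := h.exc z u a.pp a.card
    exact a
  · exact (h.ree _ (z.qpp k) (Re.reeOrd a.card)).elim

theorem HOutR.hit (h : HOutR H y m) (hl : OnList4 H) : IsRee H y m := by
  rcases hl.cls with (⟨m, ⟨e⟩⟩ | ⟨m, u, K, _, _, -, ⟨e⟩⟩ | ⟨m, u, a, b, c⟩ | ⟨m, u, a, b⟩ |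
    ⟨m, u, a, b, c | c⟩ | a) | ⟨z, u, a⟩ | ⟨z, k, a⟩
  · exact ((h.alt m).false e).elim
  · exact ((h.lin m K).false e).elim
  · exact (h.uni m u a b c).elim
  · exact (h.sym m u (by omega) (a.imp (·.2) (·.2)) b).elim
  · exact (h.ort 1 m u (.inl rfl) a b c).elim
  · exact (h.ort (-1) m u (.inr rfl) a b c).elim
  · exact (h.spor a).elim
  · exact (h.exc z u a.pp a.card).elim
  · obtain ⟨rfl, rfl⟩ := h.ree z k a.card
    exact a

theorem fin_of [Finite G] (hc : Nat.card G = Nat.card S) {p : ∀ (H : Type) [Group H], Prop}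
    (h : ∃ (K : Subgroup G) (_ : K.Normal) (H : Subgroup (G ⧸ K)), H.Normal ∧ IsSimpleGroup H ∧
      ¬ IsMulCommutative H ∧ centralizer (H : Set (G ⧸ K)) = ⊥ ∧ p H)
    (k : ∀ (H : Type) [Group H], p H → OnList4 H → Nonempty (H ≃* S)) :
    Nonempty (G ≃* S) ∨ Off4 G := by
  obtain ⟨K, a, H, b, c, d, e, f⟩ := h
  by_cases l : OnList4 H
  · obtain ⟨i⟩ := k H f l
    exact .inl ((iso_of_card (hc.trans (Nat.card_congr i.toEquiv).symm).le).map fun j => j.trans i)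
  · exact .inr ⟨K, a, H, b, c, d, e, l⟩

variable [Finite G]

theorem all_chev (h : IsChev S x q) (hb : 10 ^ 603 ≤ Nat.card S) (hc : Nat.card G = Nat.card S)
    (hV : Vo G = Vo S) : Nonempty (G ≃* S) ∨ Off4 G := by
  obtain ⟨p, f, hp, hf, rfl⟩ := (isPrimePow_nat_iff q).1 h.pp
  have q2 := Nat.one_lt_pow hf.ne' hp.one_lt
  have c := h.card
  have z : 0 < x.cen (p ^ f : ℕ) ∧ ∀ r, r.Prime → r ∣ x.cen (p ^ f : ℕ) →
      Ord (p ^ f : ℕ) r ≤ 2 := by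
    generalize ((p ^ f : ℕ) : ℤ) = u
    have k : ∀ (a b : ℤ) (r : ℕ), b ∣ u ^ 2 - 1 → r ∣ a.gcd b → Ord u r ≤ 2 := fun a b r h1 h2 =>
      Ord.le_of two_pos (((Int.natCast_dvd_natCast.2 h2).trans (Int.gcd_dvd_right a b)).trans h1)
    have k1 : u - 1 ∣ u ^ 2 - 1 := ⟨u + 1, by ring⟩
    have k2 : u + 1 ∣ u ^ 2 - 1 := ⟨u - 1, by ring⟩
    have k3 : 0 < 1 ∧ ∀ r, r.Prime → r ∣ 1 → Ord u r ≤ 2 :=
      ⟨one_pos, fun r hr a => (hr.not_dvd_one a).elim⟩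
    cases x
    exacts [⟨Int.gcd_pos_of_ne_zero_left _ (by decide), fun r _ => k _ _ r k1⟩,
      ⟨Int.gcd_pos_of_ne_zero_left _ (by decide), fun r _ => k _ _ r k2⟩,
      ⟨Int.gcd_pos_of_ne_zero_left _ (by decide), fun r _ => k _ _ r k1⟩, k3, k3, k3, k3]
  have b : 2 ^ 2000 ≤ (p ^ f) ^ x.dim := by
    obtain ⟨W, h1, -, h2, -⟩ := x.ord_eq q2
    refine big_of hb ((Nat.le_mul_of_pos_right _ z.1).trans ?_)
    rw [h1] at c
    rw [show Nat.card S * x.cen (p ^ f : ℕ) = (p ^ f) ^ x.N * W by exact_mod_cast c]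
    refine (Nat.mul_le_mul_left _ h2).trans ?_
    rw [← pow_add, Nat.add_sub_cancel' (by cases x <;> decide)]
    omega
  have d : ∀ a, a * x.dim ≤ 2000 → 2 ^ a ≤ p ^ f := fun a => root_le b (by cases x <;> decide)
  refine fin_of hc (p := fun H _ => HOutE H x (p ^ f)) ?_ fun H _ a l => h.iso (a.hit l)
  by_cases e : x = .G2 ∨ x = .D3
  · exact jmain hp hf e b (h.idata e ((by decide : 600 ≤ 2 ^ 10).trans
      (d 10 (by rcases e with rfl | rfl <;> decide)))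
      (by rcases e with rfl | rfl <;> simpa [Ex.cen] using c) hc hV)
  · exact emain hp hf (not_or.1 e) b (h.edata ((by decide : 250 ≤ 2 ^ 8).trans
      (d 8 (by cases x <;> decide))) ⟨_, c, z.2⟩ hc hV)

theorem all_ree (h : IsRee S y m) (hb : 10 ^ 603 ≤ Nat.card S) (hc : Nat.card G = Nat.card S)
    (hV : Vo G = Vo S) : Nonempty (G ≃* S) ∨ Off4 G := by
  have b : 2 ^ 2000 ≤ y.q m ^ y.dim := big_of hb (by
    have := (y.bd (w := y.q m) (by exact_mod_cast (y.qpp m).two_le)).2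
    rw [← h.card] at this
    have : Nat.card S ≤ y.q m ^ y.dim := by exact_mod_cast this
    omega)
  obtain ⟨A, _, f, a, i⟩ := h.amb
  have := a.finite
  exact fin_of hc (p := fun H _ => HOutR H y m) (rmain b (.of a.isol f i h.card
    (fun _ => h.van ((by decide +kernel : 10 ^ 7 ≤ 2 ^ 70).trans (Re.q70 b))) hc hV))
    fun H _ a l => h.iso (a.hit l)

theorem alt_main {n : ℕ} (hn : 10 ^ 603 ≤ Nat.card (alternatingGroup (Fin n)))
    (hc : Nat.card G = Nat.card (alternatingGroup (Fin n)))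
    (hV : Vo G = Vo (alternatingGroup (Fin n))) :
    Nonempty (G ≃* alternatingGroup (Fin n)) ∨ Off3 G := by
  have a := alt_big hn
  obtain ⟨K, b, H, c, d, e, f, g⟩ := amain a (adata (by omega) hc hV)
  by_cases l : OnList3 H
  exacts [.inl (g l.onList2), .inr ⟨K, b, H, c, d, e, f, l⟩]

theorem allsimple (S : Type) [Group S] (hS : OnList4 S)
    (hb : 10 ^ 603 ≤ Nat.card S)
    (G : Type) [Group G] [Finite G] (hc : Nat.card G = Nat.card S) (hV : Vo G = Vo S) :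
    Nonempty (G ≃* S) ∨ Off4 G := by
  have k : ∀ {T : Type} [Group T] (e : S ≃* T), (Nat.card S = Nat.card T →
      Nat.card G = Nat.card T → Vo G = Vo T → Nonempty (G ≃* T) ∨ Off3 G) →
      Nonempty (G ≃* S) ∨ Off4 G := fun e h =>
    (h (Nat.card_congr e.toEquiv) (hc.trans (Nat.card_congr e.toEquiv))
      (hV.trans (Vo_congr e))).imp (.map fun a => a.trans e.symm) Off3.off4
  have c := fun N q a => (allclassical S N q a (.inr (.inl hb)) G hc hV).imp_right Off3.off4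
  rcases hS with ⟨n, ⟨e⟩⟩ | (⟨n, q, ⟨a, h⟩ | ⟨a, h⟩ | ⟨a, h⟩ | ⟨a, h⟩⟩ | ⟨x, q, h⟩ | ⟨y, m, h⟩) | h
  · exact k e fun h => alt_main (h ▸ hb)
  · rcases a.eq_or_lt with rfl | a
    · obtain ⟨F, _, _, -, ⟨e⟩⟩ := h
      exact k e fun h => all_l2 (h ▸ hb)
    · exact c n q (.inl ⟨a, .inl h⟩)
  · exact c n q (.inl ⟨a, .inr h⟩)
  · exact c _ q (.inr (.inl ⟨n, a, rfl, h⟩))
  · exact c n q (.inr (.inr ⟨a, h⟩))
  · exact all_chev h hb hc hV
  · exact all_ree h hb hc hV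
  · exact absurd hb ((by decide +kernel : ∀ x ∈ sporOrd, x < 10 ^ 603) _ h).not_ge

end Pool.Agent.Lib.MP_7d41f7_al
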