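import Pool.Agent.Lib.MP_7d41f7_al.D.YG

/-! Cyclic Sylow subgroups of linear groups in cross characteristic. -/

set_option autoImplicit false

namespace Pool.Agent.Lib.MP_7d41f7_al

open Subgroup

variable {G : Type} [Group G] [Finite G] {r m q : ℕ}

/-- A cyclic Sylow subgroup has order dividing `w ^ k - 1` with `k ≤ d`. -/
def CY (G : Type) [Group G] (w d : ℕ) : Prop := ∀ r, r.Prime → ¬ r ∣ w → r ∣ Nat.card G → Cyc G r →
  ∃ k, 0 < k ∧ k ≤ d ∧ r ^ (Nat.card G).factorization r ∣ w ^ k - 1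

theorem cy_el {F V Γ : Type} [Field F] [Finite F] [AddCommGroup V] [Module F V] [Module.Finite F V]
    [Group Γ] (ι : Γ →* Module.End F V) (hι : Function.Injective ι) (hr : r.Prime)
    (h0 : ¬ r ∣ Nat.card F) {g : Γ} {j : ℕ} (hg : orderOf g = r ^ (j + 1)) :
    ∃ k, 0 < k ∧ k ≤ Module.finrank F V ∧ r ^ (j + 1) ∣ Nat.card F ^ k - 1 := by
  classical
  have : Finite V := Module.finite_of_finite F
  set U := LinearMap.ker (ι (g ^ r ^ j) - 1)
  have hU : ∀ v, v ∈ U ↔ ι (g ^ r ^ j) v = v := fun v => by simp [U, sub_eq_zero]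
  have hp : ∀ n v, Function.IsPeriodicPt (ι g) n v ↔ ι (g ^ n) v = v := fun n v => by
    rw [map_pow, Module.End.pow_apply]
    rfl
  have hfin : IsOfFinOrder g := orderOf_pos_iff.1 (hg ▸ pow_pos hr.pos _)
  have hlt : Module.finrank F U < Module.finrank F V := Submodule.finrank_lt fun e => by
    have h1 : g ^ r ^ j = 1 := hι (by
      rw [map_one]
      exact LinearMap.ext fun v => (hU v).1 (e ▸ Submodule.mem_top))
    have h2 := orderOf_dvd_of_pow_eq_one h1
    rw [hg, Nat.pow_dvd_pow_iff_le_right hr.one_lt] at h2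
    omega
  let _ : MulAction (zpowers g) {v // v ∉ U} :=
    { smul h v := ⟨ι h v, fun e => v.2 (by
        obtain ⟨_, i, rfl⟩ := h
        have c : g ^ (-i) * g ^ r ^ j * g ^ i = g ^ r ^ j := by group
        rw [hU] at e ⊢
        have e2 := congrArg (ι (g ^ (-i))) e
        simp only [← Module.End.mul_apply, ← map_mul, ← mul_assoc] at e2
        rwa [c, ← zpow_add, neg_add_cancel, zpow_zero, map_one] at e2)⟩
      one_smul v := Subtype.ext (by
        show ι 1 v = v
        rw [map_one]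
        rfl)
      mul_smul a b v := Subtype.ext (by
        show ι (a * b) v = ι a (ι b v)
        rw [map_mul]
        rfl) }
  have free : ∀ v : {v // v ∉ U}, MulAction.stabilizer (zpowers g) v = ⊥ := fun v =>
    eq_bot_iff.2 fun h hh => by
      obtain ⟨h, hm⟩ := h
      obtain ⟨i, rfl⟩ := hfin.mem_powers_iff_mem_zpowers.2 hm
      have h1 : ι (g ^ i) v = v := congrArg Subtype.val hh
      have h2 := ((hp _ _).2 h1).gcd ((hp (r ^ (j + 1)) v).2 (by
        rw [← hg, pow_orderOf_eq_one, map_one]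
        rfl))
      obtain ⟨a, ha, e⟩ := (Nat.dvd_prime_pow hr).1 (Nat.gcd_dvd_right i (r ^ (j + 1)))
      rcases ha.eq_or_lt with rfl | ha
      · exact Subtype.ext (orderOf_dvd_iff_pow_eq_one.1 (hg ▸ e ▸ Nat.gcd_dvd_left i _))
      · exact absurd ((hU _).2 ((hp _ _).1 (h2.trans_dvd (e ▸ pow_dvd_pow r (by omega))))) v.2
  have c1 := Nat.card_congr (MulAction.selfEquivOrbitsQuotientProd free)
  have c2 := Nat.card_congr (Equiv.sumCompl fun v => v ∈ U)
  rw [Nat.card_prod, Nat.card_zpowers, hg] at c1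
  rw [Nat.card_sum, c1, Module.natCard_eq_pow_finrank (K := F) (V := V),
    Module.natCard_eq_pow_finrank (K := F) (V := U)] at c2
  obtain ⟨k, hk⟩ := Nat.exists_eq_add_of_le hlt.le
  refine ⟨k, by omega, by omega, ((hr.coprime_iff_not_dvd.2 h0).pow (j + 1)
    (Module.finrank F U)).dvd_of_dvd_mul_left ?_⟩
  rw [Nat.mul_sub, ← pow_add, ← hk, mul_one, ← c2, Nat.add_sub_cancel_left]
  exact dvd_mul_left _ _

theorem cy_lin {F V Γ : Type} [Field F] [Finite F] [AddCommGroup V] [Module F V] [Module.Finite F V]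
    [Group Γ] [Finite Γ] (ι : Γ →* Module.End F V) (hι : Function.Injective ι) (e : IsPQ G Γ) :
    CY G (Nat.card F) (Module.finrank F V) := by
  intro r hr h0 hd hc
  have := Fact.mk hr
  obtain ⟨e⟩ := e
  obtain ⟨P⟩ : Nonempty (Sylow r G) := inferInstance
  obtain ⟨g, hg⟩ := (hc P).exists_ofOrder_eq_natCard
  obtain ⟨j, hj⟩ := Nat.exists_eq_succ_of_ne_zero
    (hr.factorization_pos_of_dvd Nat.card_pos.ne' hd).ne'
  have h1 : Adj G (r ^ (j + 1)) 1 :=
    ⟨g, by rw [mul_one, orderOf_coe, hg, P.card_eq_multiplicity, hj]⟩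
  obtain ⟨x, hx⟩ := h1.of_surj (φ := e.symm.toMonoidHom.comp (QuotientGroup.mk' (center Γ)))
    (e.symm.surjective.comp (QuotientGroup.mk'_surjective _))
  rw [hj]
  exact cy_el ι hι hr h0 (hx.trans (mul_one _))

theorem cy_PL_aux {F I Γ : Type} [Field F] [Finite F] [Fintype I] [DecidableEq I] [Group Γ]
    (f : Γ →* Matrix I I F) (hf : Function.Injective f) (e : IsPQ G Γ) :
    CY G (Nat.card F) (Fintype.card I) := by
  have := Finite.of_injective f hf
  have := cy_lin ((Matrix.toLinAlgEquiv' : Matrix I I F ≃ₐ[F] _).toMulEquiv.toMonoidHom.comp f)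
    ((Matrix.toLinAlgEquiv' : Matrix I I F ≃ₐ[F] _).injective.comp hf) e
  rwa [Module.finrank_fintype_fun_eq_card] at this

theorem cy_PL {F : Type} [Field F] [Finite F] (e : G ≃* PL m F) : CY G (Nat.card F) m := by
  have := cy_PL_aux (G := G) (Matrix.SpecialLinearGroup.coeMonoidHom (ι := Fin m) (R := F))
    Matrix.SpecialLinearGroup.coeMonoidHom_injective ⟨e⟩
  rwa [Fintype.card_fin] at this

theorem cy_SU (e : IsSU G m q) : CY G (q ^ 2) m := by
  obtain ⟨F, _, _, _, hc, -, e⟩ := e
  have := cy_PL_aux (Matrix.specialUnitaryGroup (Fin m) F).subtype Subtype.val_injective e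
  rwa [Fintype.card_fin, hc] at this

theorem cy_Sp (e : IsSp G m q) : CY G q (2 * m) := by
  obtain ⟨F, _, _, hc, e⟩ := e
  have := cy_PL_aux (Matrix.symplecticGroup (Fin m) F).subtype Subtype.val_injective e
  rwa [Fintype.card_sum, Fintype.card_fin, ← two_mul, hc] at this

theorem cy_Om (e : IsOm G m q) : CY G q m := by
  obtain ⟨F, _, _, Q, hc, -, e⟩ := e
  have hi : Function.Injective (LinearEquiv.automorphismGroup.toLinearMapMonoidHom.comp
      ((orth Q).subtype.comp (_root_.commutator (orth Q)).subtype)) :=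
    LinearEquiv.toLinearMap_injective.comp (Subtype.val_injective.comp Subtype.val_injective)
  have : Finite (Module.End F (Fin m → F)) := DFunLike.finite _
  have := Finite.of_injective _ hi
  have := cy_lin _ hi e
  rwa [Module.finrank_fin_fun, hc] at this

end Pool.Agent.Lib.MP_7d41f7_al
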