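import Pool.Agent.Lib.MP_7d41f7_al.D.QA

/-! The orthogonal group of plus type in dimension eight: identification in the same
characteristic. -/

set_option autoImplicit false

namespace Pool.Agent.Lib.MP_7d41f7_al

open Finset

variable {h a b p f g m : ℕ}

theorem K4.prim6 (hp : p.Prime) (hf : 0 < f) (K : K4 h (p ^ f) a b) :
    ∃ r, Prim p (f * 6) r ∧ r ∣ h := by
  have ah : a ∣ h := (dvd_mul_right a _).trans K.kept
  obtain ⟨r, hr⟩ := zsig hp.two_le (by omega : 3 ≤ f * 6) fun ⟨c1, c2⟩ => by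
    have := K.big
    rw [c1, show f = 1 by omega] at this
    norm_num at this
  have q1 : 1 ≤ p ^ f := pow_pos hp.pos f
  have d := hr.dvd
  rw [pow_mul, show (p ^ f) ^ 6 - 1 = ((p ^ f) ^ 4 + (p ^ f) ^ 2 + 1) * ((p ^ f) ^ 2 - 1) by
    zify [Nat.one_le_pow 6 _ q1, Nat.one_le_pow 2 _ q1]; ring] at d
  have d1 := ((hr.pr.dvd_mul.1 d).resolve_right
    (hr.not_dvd_lt hp.pos hf two_pos (by norm_num))).trans K.a2
  rcases hr.pr.dvd_mul.1 d1 with e | e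
  swap
  · exact ⟨r, hr, e.trans ah⟩
  have d2 := Nat.le_of_dvd (Nat.sub_pos_of_lt hr.pr.one_lt) (hr.dvd_pred hp.pos (by omega))
  have d3 : r ≤ 7 := by
    rcases hr.pr.dvd_mul.1 (show r ∣ 3 * 7 from e) with e | e <;>
      exact (Nat.le_of_dvd (by norm_num) e).trans (by norm_num)
  obtain rfl : f = 1 := by omega
  obtain ⟨s, s1, s2, s3⟩ := (q4_ex K.big K.a2 K.a3).2
  rw [pow_one] at s3
  have k : ∀ i, s ∣ p ^ i - 1 ↔ 6 ∣ i := fun i => by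
    rw [Ty.dvd_top_aux hp.pos, Ord.dvd_iff, s3]
  exact ⟨s, ⟨s1, (k _).2 dvd_rfl, fun i i0 i1 e => (Nat.le_of_dvd i0 ((k i).1 e)).not_gt i1⟩,
    s2.trans ah⟩

theorem K4.prim4_aux1 (hp : p.Prime) (hf : 0 < f) {r : ℕ} (hr : Prim p (f * 4) r) :
    r.Coprime 2 := (Nat.coprime_primes hr.pr Nat.prime_two).2 fun e => by
  have := Nat.le_of_dvd (Nat.sub_pos_of_lt hr.pr.one_lt) (hr.dvd_pred hp.pos (by omega))
  omega

theorem K4.prim4 (hp : p.Prime) (hf : 0 < f) (K : K4 h (p ^ f) a b) {r : ℕ}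
    (hr : Prim p (f * 4) r) : r ∣ b :=
  (K4.prim4_aux1 hp hf hr).dvd_of_dvd_mul_left
    ((Prim.dvd_add (i := 2) hp.pos hf two_pos hr).trans K.b2)

theorem K4.same (hp : p.Prime) (hf : 0 < f) (K : K4 h (p ^ f) a b) {N D : ℕ} {I : Finset ℕ}
    (L : LT h p g N D I) : ∃ τ, 0 < τ ∧ g * τ = 2 * f ∧ D = 3 * τ ∧ 2 * τ ∈ I ∧ N ≤ 6 * τ + 1 := by
  have k : ∀ i r, 0 < i → Prim p (f * i) r → r ∣ h → ∃ j ∈ I, f * i ∣ g * j := fun i r i0 hr d => by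
    rcases L.div r hr.pr d with rfl | ⟨j, hj, e⟩
    · exact absurd dvd_rfl (hr.not_dvd hp.pos (Nat.mul_pos hf i0))
    · exact ⟨j, hj, (hr.dvd_iff hp.pos (Nat.mul_pos hf i0) _).1 (by rwa [pow_mul])⟩
  have le : ∀ j ∈ I, 0 < g * j ∧ g * j ≤ g * D := fun j hj =>
    ⟨Nat.mul_pos L.g0 (L.bd j hj).1, Nat.mul_le_mul_left _ (L.bd j hj).2⟩
  have e1 : g * D = f * 6 := by
    obtain ⟨s, s1, s2⟩ := K.prim6 hp hf
    obtain ⟨j, hj, e⟩ := k 6 s (by norm_num) s1 s2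
    refine le_antisymm (not_lt.1 fun c => ?_) ((Nat.le_of_dvd (le j hj).1 e).trans (le j hj).2)
    obtain ⟨r, hr⟩ := zsig hp.two_le (by omega : 3 ≤ g * D) (by omega)
    have o := hr.ord_eq hp.pos (by omega)
    obtain ⟨i, i0, i1, e⟩ := Ty.dvd_top (t := .Dp) (n := 4) (q := p ^ f) (by norm_num) hr.pr
      (Ord.ne_two (b := p) (by omega)) (fun c => hr.not_dvd hp.pos (by omega)
        (hr.pr.dvd_of_dvd_pow c)) ((Int.natCast_dvd_natCast.2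
          (L.all D L.mem (.inr rfl) (by omega) r hr)).trans K.dvd)
    exact c.not_ge ((Nat.le_of_dvd (Nat.mul_pos hf i0) ((hr.dvd_iff hp.pos (by omega) _).1
      (by rwa [pow_mul]))).trans (Nat.mul_le_mul_left _ i1))
  obtain ⟨r, hr⟩ := zsig hp.two_le (by omega : 3 ≤ f * 4) (by omega)
  obtain ⟨j, hj, c, e2⟩ := k 4 r four_pos hr
    (((K.prim4 hp hf hr).trans (dvd_pow_self b two_ne_zero)).trans ((dvd_mul_left _ a).trans K.kept))
  obtain rfl : c = 1 := by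
    have a := le j hj
    rw [e1, e2] at a
    rcases c with _ | _ | c
    · simp at a
    · rfl
    rw [mul_add, mul_add] at a
    omega
  obtain ⟨τ, rfl⟩ := Nat.exists_eq_add_of_le (L.bd j hj).2
  rw [mul_add] at e1
  obtain rfl : j = 2 * τ := Nat.eq_of_mul_eq_mul_left L.g0 (by rw [mul_left_comm]; omega)
  have e3 : g * N ≤ f * 12 + 1 := Ty.ppart (t := .Dp) (n := 4) hp hf (by norm_num)
    ((Int.natCast_dvd_natCast.2 (pow_mul p g N ▸ L.pp)).trans K.dvd)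
  have g0 := L.g0
  refine ⟨τ, Nat.pos_of_mul_pos_left (show 0 < g * τ by omega), by omega, by omega, hj,
    Nat.le_of_mul_le_mul_left ?_ g0⟩
  rw [mul_add, mul_left_comm]
  omega

theorem K4.low4 (hp : p.Prime) (hf : 0 < f) (K : K4 h (p ^ f) a b) {e : ℕ} {W : ℤ}
    (hh : (h : ℤ) ∣ p ^ e * (((p ^ f : ℕ) : ℤ) ^ 4 - 1) * W)
    (hW : ∀ r, Prim p (f * 4) r → ¬ (r : ℤ) ∣ W) : False := by
  obtain ⟨r, hr⟩ := zsig hp.two_le (by omega : 3 ≤ f * 4) (by omega)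
  have b0 : b ≠ 0 := fun e => K.b3 (e ▸ dvd_zero 2)
  have i0 := hr.pr.factorization_pos_of_dvd b0 (K.prim4 hp hf hr)
  have pr := Nat.prime_iff_prime_int.1 hr.pr
  have d : r ^ (b.factorization r * 2) ∣ h := by
    rw [pow_mul]
    exact (pow_dvd_pow_of_dvd (Nat.ordProj_dvd b r) 2).trans ((dvd_mul_left _ a).trans K.kept)
  have d1 := (Int.natCast_dvd_natCast.2 d).trans hh
  rw [Nat.cast_pow, Ty.dvd_top_aux2 _ 2] at d1
  have d2 := pr.pow_dvd_of_dvd_mul_right _ (fun c => hr.not_dvd_lt hp.pos hf two_pos (by norm_num)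
    ((Ty.dvd_top_aux (pow_pos hp.pos f)).2 c)) (pr.pow_dvd_of_dvd_mul_left _ (fun c =>
      hr.not_dvd hp.pos (by omega) (Int.natCast_dvd_natCast.1 (pr.dvd_of_dvd_pow c)))
      (pr.pow_dvd_of_dvd_mul_right _ (hW r hr) d1))
  have d3 : r ^ (b.factorization r * 2) ∣ (p ^ f) ^ 2 + 1 := by exact_mod_cast d2
  have := (hr.pr.pow_dvd_iff_le_factorization b0).1
    (((K4.prim4_aux1 hp hf hr).pow_left _).dvd_of_dvd_mul_left (d3.trans K.b2))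
  omega

theorem K4.lin_aux1 (hp : p.Prime) (hf : 0 < f) {r j : ℕ} (hr : Prim p (f * 4) r) (hj : ¬ 4 ∣ j) :
    ¬ (r : ℤ) ∣ ((p ^ f : ℕ) : ℤ) ^ j - 1 := fun e =>
  hj (((hr.pow hp.pos hf four_pos).dvd_iff (pow_pos hp.pos f) four_pos j).1
    ((Ty.dvd_top_aux (pow_pos hp.pos f)).2 e))

theorem K4.lin_aux2 (hp : p.Prime) (hf : 0 < f) {r : ℕ} (hr : Prim p (f * 4) r) {x : ℤ}
    (hx : x ∣ ((p ^ f : ℕ) : ℤ) ^ 6 - 1) : ¬ (r : ℤ) ∣ (((p ^ f : ℕ) : ℤ) ^ 2 - 1) * x := fun e =>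
  ((Nat.prime_iff_prime_int.1 hr.pr).dvd_or_dvd e).elim (K4.lin_aux1 hp hf hr (by norm_num))
    fun e => K4.lin_aux1 hp hf hr (by norm_num) (e.trans hx)

theorem K4.lin (hp : p.Prime) (hf : 0 < f) (K : K4 h (p ^ f) a b) (hg : 0 < g) (hm : 2 ≤ m)
    (hh : h * Nat.gcd m (p ^ g - 1) = ordSL m (p ^ g)) : False := by
  obtain ⟨τ, t0, e1, rfl, -, e4⟩ := K.same hp hf (lt_A hp hg hm hh)
  obtain rfl : τ = 1 := by
    by_contra c
    have := Nat.mul_le_mul_left (3 * τ) (show 5 ≤ 3 * τ - 1 by omega)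
    omega
  obtain rfl : g = 2 * f := by omega
  refine K.low4 hp hf (e := 2 * f * 3) (W := ((p ^ f : ℕ) : ℤ) ^ 6 - 1) ?_
    fun r hr => K4.lin_aux1 hp hf hr (by norm_num)
  have h1 : ∀ i, 1 ≤ (p ^ (2 * f)) ^ i := fun i => Nat.one_le_pow _ _ (pow_pos hp.pos _)
  refine (Int.natCast_dvd_natCast.2 (Dvd.intro _ hh)).trans (dvd_of_eq ?_)
  rw [ordSL, show Icc 2 (3 * 1) = {2, 3} from rfl, prod_pair (by decide)]
  push_cast [Nat.cast_sub (h1 _)]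
  ring

theorem K4.uni (hp : p.Prime) (hf : 0 < f) (K : K4 h (p ^ f) a b) (hg : 0 < g) (hm : 3 ≤ m)
    (hh : OrdU m (p ^ g : ℕ) h) : False := by
  obtain ⟨τ, t0, e1, e2, e3, e4⟩ := K.same hp hf (lt_2A hp hg hm hh)
  have h9 : m ≤ 9 := by
    by_contra c
    have := Nat.mul_le_mul_left m (show 9 ≤ m - 1 by omega)
    split_ifs at e2 <;> omega
  obtain ⟨i, i1, i2⟩ := mem_image.1 e3
  rw [mem_Icc] at i1
  obtain rfl : m = 4 := by split_ifs at e2 i2 <;> omega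
  obtain rfl : τ = 2 := by rw [if_neg (by decide)] at e2; omega
  obtain rfl : g = f := by omega
  refine K.low4 hp hf (e := g * 6)
    (W := (((p ^ g : ℕ) : ℤ) ^ 2 - 1) * (((p ^ g : ℕ) : ℤ) ^ 3 + 1)) ?_
    fun r hr => K4.lin_aux2 hp hf hr ⟨((p ^ g : ℕ) : ℤ) ^ 3 - 1, by ring⟩
  refine (Dvd.intro _ hh).trans (dvd_of_eq ?_)
  rw [show Icc 2 4 = {2, 3, 4} from rfl, prod_insert (by decide), prod_pair (by decide)]
  push_cast
  ring

theorem K4.sym (hp : p.Prime) (hf : 0 < f) (K : K4 h (p ^ f) a b) (hg : 0 < g) (hm : 2 ≤ m)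
    (hh : OrdB m (p ^ g : ℕ) h) : False := by
  obtain ⟨τ, t0, e1, e2, -, e4⟩ := K.same hp hf (lt_B hp hg hm hh)
  obtain rfl : m = 3 := by
    by_contra c
    have := Nat.mul_le_mul_left m (show 6 ≤ m by omega)
    omega
  obtain rfl : τ = 2 := by omega
  obtain rfl : g = f := by omega
  refine K.low4 hp hf (e := g * 9)
    (W := (((p ^ g : ℕ) : ℤ) ^ 2 - 1) * (((p ^ g : ℕ) : ℤ) ^ 6 - 1)) ?_
    fun r hr => K4.lin_aux2 hp hf hr dvd_rfl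
  refine (Dvd.intro _ hh).trans (dvd_of_eq ?_)
  rw [show Icc 1 3 = {1, 2, 3} from rfl, prod_insert (by decide), prod_pair (by decide)]
  push_cast
  ring

theorem K4.dp (hp : p.Prime) (hf : 0 < f) (K : K4 h (p ^ f) a b) (hg : 0 < g) (hm : 4 ≤ m)
    (hh : OrdD 1 m (p ^ g : ℕ) h) : m = 4 ∧ p ^ g = p ^ f := by
  obtain ⟨τ, t0, e1, e2, -, e4⟩ := K.same hp hf (lt_D hp hg hm hh)
  obtain rfl : m = 4 := by
    by_contra c
    have := Nat.mul_le_mul_right (m - 1) (show 5 ≤ m by omega)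
    omega
  obtain rfl : τ = 2 := by omega
  exact ⟨rfl, by rw [show g = f by omega]⟩

theorem K4.dm (hp : p.Prime) (hf : 0 < f) (K : K4 h (p ^ f) a b) (hg : 0 < g) (hm : 4 ≤ m)
    (hh : OrdD (-1) m (p ^ g : ℕ) h) : False := by
  simp only [OrdD, sub_neg_eq_add] at hh
  obtain ⟨τ, t0, e1, e2, -, e4⟩ := K.same hp hf (lt_2D hp hg hm hh)
  have := Nat.mul_le_mul_left m (show 5 ≤ m - 1 by omega)
  omega

theorem K4.exc_aux1 (hp : p.Prime) (hg : 0 < g) {r j : ℕ} (hr : Prim p (g * 8) r) (hj : ¬ 8 ∣ j) :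
    ¬ (r : ℤ) ∣ ((p ^ g : ℕ) : ℤ) ^ j - 1 := fun e =>
  hj (((hr.pow hp.pos hg (by norm_num)).dvd_iff (pow_pos hp.pos g) (by norm_num) j).1
    ((Ty.dvd_top_aux (pow_pos hp.pos g)).2 e))

theorem K4.exc_aux2 (hp : p.Prime) (hg : 0 < g) (K : K4 h (p ^ (3 * g)) a b) {r : ℕ}
    (hr : Prim p (g * 8) r) : ¬ r ∣ h := fun d => by
  have pr := Nat.prime_iff_prime_int.1 hr.pr
  have d1 := (Int.natCast_dvd_natCast.2 d).trans K.dvd
  have n := K4.exc_aux1 hp hg hr (j := 36) (by norm_num)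
  rw [show 36 = 3 * 12 from rfl, pow_mul, ← Nat.cast_pow, ← pow_mul, mul_comm g 3] at n
  have n1 : ¬ (r : ℤ) ∣ (p ^ (3 * g) : ℕ) := fun c =>
    hr.not_dvd hp.pos (by omega) (hr.pr.dvd_of_dvd_pow (Int.natCast_dvd_natCast.1 c))
  have n2 : ¬ (r : ℤ) ∣ 2 := fun c => by
    have := Nat.le_of_dvd two_pos (Int.natCast_dvd_natCast.1 c)
    have := Nat.le_of_dvd (Nat.sub_pos_of_lt hr.pr.one_lt) (hr.dvd_pred hp.pos (by omega))
    omega
  rw [q4_ord] at d1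
  generalize ((p ^ (3 * g) : ℕ) : ℤ) = x at d1 n n1
  have e : x ^ 12 - 1 = (x ^ 2 - 1) * (x ^ 2 + 1) * (x ^ 4 + x ^ 2 + 1) * (x ^ 4 - x ^ 2 + 1) := by
    ring
  simp only [e, pr.dvd_mul, not_or] at n
  simp only [pr.dvd_mul, pr.dvd_pow_iff_dvd, ne_eq, OfNat.ofNat_ne_zero, not_false_eq_true] at d1
  tauto

theorem K4.exc (hp : p.Prime) (hf : 0 < f) (K : K4 h (p ^ f) a b) (hg : 0 < g) :
    ¬ ExcOrd (p ^ g : ℕ) h := by
  intro hh
  obtain ⟨x, hx, L⟩ : ∃ x ∈ excData, LT h p g x.1 x.2.1 x.2.2 := by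
    rcases hh with e | e | e | e | e | e | e
    · exact lt_exc1 hp hg rfl (Or.inl e)
    · exact lt_exc1 hp hg rfl (Or.inr (Or.inl e))
    · exact lt_exc1 hp hg rfl (Or.inr (Or.inr (Or.inl e)))
    · exact lt_exc2 hp hg rfl (Or.inl e)
    · exact lt_exc1 hp hg rfl (Or.inr (Or.inr (Or.inr (Or.inl e))))
    · exact lt_exc1 hp hg rfl (Or.inr (Or.inr (Or.inr (Or.inr e))))
    · exact lt_exc2 hp hg rfl (Or.inr e)
  obtain ⟨τ, -, h1, h2, h3, h4⟩ := K.same hp hf L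
  have a3 : x.2.1 ≤ 30 := (by decide : ∀ x ∈ excData, x.2.1 ≤ 30) x hx
  obtain ⟨h8, rfl | rfl⟩ := (by decide : ∀ x ∈ excData, ∀ τ < 11, x.2.1 = 3 * τ → 2 * τ ∈ x.2.2 →
    x.1 ≤ 6 * τ + 1 → 8 ∈ x.2.2 ∧ (τ = 6 ∨ τ = 4)) x hx τ (by omega) h2 h3 h4
  · obtain rfl : f = 3 * g := by omega
    obtain ⟨r, hr⟩ := zsig hp.two_le (by omega : 3 ≤ g * 8) (by omega)
    exact K.exc_aux2 hp hg hr (L.all 8 h8 (by norm_num) (by omega) r hr)
  obtain rfl : f = g * 2 := by omega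
  let G : ℤ → Prop := fun W => ∀ r, Prim p (g * 2 * 4) r → ¬ (r : ℤ) ∣ W
  have m : ∀ {x y}, G x → G y → G (x * y) := fun k1 k2 r hr e =>
    ((Nat.prime_iff_prime_int.1 hr.pr).dvd_or_dvd e).elim (k1 r hr) (k2 r hr)
  have s : ∀ j, ¬ 8 ∣ j → G (((p ^ g : ℕ) : ℤ) ^ j - 1) := fun j hj r hr =>
    K4.exc_aux1 hp hg (by rwa [mul_assoc] at hr) hj
  have key : ∀ (e : ℕ) (W : ℤ), G W →
      ¬ (h : ℤ) ∣ ((p ^ g : ℕ) : ℤ) ^ e * (((p ^ g : ℕ) : ℤ) ^ 8 - 1) * W := fun e W k d =>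
    K.low4 hp hf (e := g * e) (d.trans (dvd_of_eq (by push_cast; ring))) k
  have e8 := fun e => K.same hp hf (lt_exc1_aux (h := h) hp hg 1 120 30
    {30, 24, 20, 18, 14, 12, 8, 2} e (by decide))
  have s1 := s 1 (by decide)
  have s2 := s 2 (by decide)
  have s4 := s 4 (by decide)
  have s6 := s 6 (by decide)
  have s10 := s 10 (by decide)
  have s12 := s 12 (by decide)
  have s14 := s 14 (by decide)
  have s18 := s 18 (by decide)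
  unfold ExcOrd at hh
  generalize ((p ^ g : ℕ) : ℤ) = u at *
  rcases hh with e | e | e | e | e | e | e | e | e | e
  · exact key 6 _ (m s6 s2) ⟨u ^ 8 - 1, by rw [e]; ring⟩
  · exact key 24 _ (m (m s12 s6) s2) ⟨1, by rw [e]; ring⟩
  · exact key 36 _ (m (m (m (m s12 s18) s6) s10) s2)
      ((Dvd.intro _ e).trans ⟨(u ^ 9 + 1) * (u ^ 5 + 1), by ring⟩)
  · exact key 36 _ (m (m (m (m s12 s18) s6) s10) s2)
      ((Dvd.intro _ e).trans ⟨(u ^ 9 - 1) * (u ^ 5 - 1), by ring⟩)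
  · exact key 63 _ (m (m (m (m (m s18 s14) s12) s10) s6) s2) ((Dvd.intro _ e).trans ⟨1, by ring⟩)
  · obtain ⟨τ, -, -, h2, -, h4⟩ := e8 (by simp [e, mul_assoc])
    omega
  · exact key 12 _ (m (m s12 s6) s2) ⟨(u ^ 8 - 1) * (u ^ 4 - 1), by rw [e]; ring⟩
  · exact key 2 _ (m s4 s1) ⟨(u ^ 8 - 1) * (u ^ 2 - 1), by rw [e]; ring⟩
  · exact key 3 _ (m s6 s1) ⟨(u ^ 8 - 1) * (u ^ 3 - 1), by rw [e]; ring⟩
  · exact key 12 _ (m (m (m s12 s4) s6) s1)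
      ⟨(u ^ 8 - 1) * (u ^ 6 - 1) * (u ^ 3 - 1), by rw [e]; ring⟩

end Pool.Agent.Lib.MP_7d41f7_al
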