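import Pool.Agent.Lib.MP_7d41f7_al.D.SEx
import Pool.Agent.Lib.MP_7d41f7_al.C.CFin

/-! Symplectic and orthogonal groups of the same order, small rank. -/

set_option autoImplicit false

namespace Pool.Agent.Lib.MP_7d41f7_al

open Module Matrix

theorem exists_bcp' {q m : ℕ} (ho : Odd q) (hq : 3 ≤ q) (hm : 2 ≤ m) : ∃ r, BCp q m r := by
  rcases hm.eq_or_lt with rfl | hm
  · obtain ⟨k, rfl⟩ := ho
    exact (zsig (m := 2 * 2) (by omega) (by omega) (by omega)).imp fun _ h => .inl ⟨h, by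
      rw [show (2 * k + 1) ^ 2 = 1 + 4 * (k ^ 2 + k) by ring, Nat.add_mul_mod_self_left]⟩
  · exact exists_bcp ho hq hm

theorem bc_ty' {t : Ty} {q m r : ℕ} (h : BCp q m r) (hm : 2 ≤ m) (ht : t = .Dp ∨ t = .Dm)
    (h1 : (r : ℤ) ∣ t.sing m q) :
    ∃ s : ℤ, Ty.B.sing (m + 1) q - t.sing m q - Ty.B.sing 1 q = (q - 1) * (2 * (2 * s + 1)) := by
  rcases hm.eq_or_lt with rfl | hm
  swap
  · exact bc_ty h hm ht h1
  have e : q ^ 2 % 4 ≠ 3 := by
    have : ∀ x < 4, x ^ 2 % 4 ≠ 3 := by decide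
    rw [Nat.pow_mod]
    exact this _ (Nat.mod_lt _ four_pos)
  obtain ⟨h, e⟩ := h.resolve_right fun h => e h.2
  have ho : Odd q := (Nat.odd_pow_iff two_ne_zero).1 (Nat.odd_iff.2 (by omega))
  rcases ht with rfl | rfl
  · exact (adjL_ar_dp ho.pos le_rfl h h1).elim
  obtain ⟨k, rfl⟩ := ho
  refine ⟨8 * k ^ 5 + 24 * k ^ 4 + 30 * k ^ 3 + 19 * k ^ 2 + 6 * k, ?_⟩
  simp only [Ty.sing]
  push_cast
  ring

variable {F V : Type} [Field F] [Finite F] {P : Sca F} [AddCommGroup V] [Module F V] [Finite V]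
  {Φ : Frm P V}

namespace Frm

variable {t : Ty} {n m r p : ℕ} {Γ : Type} [Group Γ] {x y z : V ≃ₗ[F] V}

theorem bc_split' (hT : Φ.IsTy .B (m + 1)) (hm : 2 ≤ m) (hb : BCp P.q m r) (hx : x ∈ Φ.Iso)
    (h1 : x ^ r = 1) (h0 : x ≠ 1) : (Φ.res (fx x)).IsTy .B 1 ∧ ∃ t, (t = .Dp ∨ t = .Dm) ∧
      (Φ.res (mv x)).IsTy t m ∧ (r : ℤ) ∣ t.sing m P.q := by
  obtain ⟨hr, hj⟩ := hb.ord (by omega)
  have hk : P.k = .O := hT.kd.symm
  replace hj : P.j r = m := by rw [Sca.j, hk]; exact hj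
  have c := P.cast_ne hr (by omega)
  have g : 2 < P.k.wt * P.j r := by
    rw [hk, hj, Kd.wt]
    all_goals first | omega | simp
  have d := finrank_mv_fx x
  have e := min_mv' hT.nd hx hr g h1 h0
  rw [hT.dim] at d
  rw [hk, hj] at e
  obtain ⟨t, n, h⟩ := exists_ty (nd_mv hT.nd hx h1 c)
  obtain ⟨t', n', h'⟩ := exists_ty (nd_fx hT.nd hx h1 c)
  obtain ⟨⟨k, a1⟩, a2, a3⟩ := fpf_ty' h hx (stb_mv (Commute.refl x)) hr g h1 fun w hw e =>
    Submodule.disjoint_def.1 (compl_fx h1 c).disjoint w (mem_fx.2 e) hw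
  have ht : t = .Dp ∨ t = .Dm := by
    have := h.kd.trans hk
    cases t <;> simp [Ty.kd] at this a2 ⊢
  have a4 : finrank F (mv x) = 2 * n := by rcases ht with rfl | rfl <;> exact h.dim
  obtain rfl : n = m := by
    simp only [Ty.dim, Kd.wt] at d e
    rw [hj] at a1
    rcases k with _ | _ | k
    · omega
    · omega
    · rw [mul_add, mul_add] at a1
      omega
  refine ⟨?_, t, ht, h, a3⟩
  have a5 := h'.dim
  have a6 := h'.kd.trans hk
  cases t' <;> simp only [Ty.kd, Ty.dim, reduceCtorEq] at a5 a6 d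
  · rwa [show n' = 1 by omega] at h'
  all_goals omega

theorem bc_core' (hT : Φ.IsTy .B (m + 1)) (hm : 2 ≤ m) (hp : p.Prime) [CharP F p]
    (hb : BCp P.q m r) (hx : x ∈ Φ.Iso) (h1 : x ^ r = 1) (h0 : x ≠ 1) (hy : y ∈ Φ.Iso)
    (h2 : y ^ p = 1) (hz : z ∈ Φ.Der) (h3 : z ^ 2 = 1) (h4 : z ≠ 1) (hxy : Commute x y)
    (hxz : Commute x z) (hyz : Commute y z) : y = 1 := by
  obtain ⟨hC, t, ht, hW, hs⟩ := bc_split' hT hm hb hx h1 h0
  obtain ⟨hr, hj⟩ := hb.ord (by omega)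
  have hk : P.k = .O := hT.kd.symm
  replace hj : P.k.wt * P.j r = 2 * m ∧ 2 < P.k.wt * P.j r := by
    have : P.k.wt * P.j r = 2 * m := by
      rw [Sca.j, hk]
      exact congrArg _ hj
    omega
  have c := Sca.cast_ne' hr hj.2
  have c2 : ((2 : ℕ) : F) ≠ 0 := P.two_ne.2 (hT.odd rfl)
  have p2 : p ≠ 2 := fun e => c2 (e ▸ CharP.cast_eq_zero F p)
  have zi : z ∈ Φ.Iso := Subgroup.commutator_le_self _ hz
  have dC : finrank F (fx x) = 3 := hC.dim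
  have dW : finrank F (mv x) = 2 * m := by rcases ht with rfl | rfl <;> exact hW.dim
  obtain ⟨x1, hx1, ex⟩ := exists_res hx (stb_mv (Commute.refl x))
  obtain ⟨y1, hy1, ey⟩ := exists_res hy (stb_mv hxy)
  have a1 := unip_triv hk hW.nd hp p2 hb (by omega) dW hx1 (fbcd_pow ex h1) (fun w e => Subtype.ext
    (Submodule.disjoint_def.1 (compl_fx h1 c).disjoint _ (mem_fx.2 (by rw [← ex, e])) w.2)) hy1
      (fbcd_comm ex ey hxy) (fbcd_pow ey h2)
  obtain ⟨z2, hz2, ez⟩ := exists_res zi (stb_fx hxz)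
  obtain ⟨y2, hy2, ey2⟩ := exists_res hy (stb_fx hxy)
  have z3 := fbcd_pow ez h3
  have cm := fbcd_comm ez ey2 hyz.symm
  have d2 := finrank_mv_fx z2
  have l1 : (fx z2).map (fx x).subtype ≤ fx z := by
    rintro _ ⟨w, hw, rfl⟩
    exact mem_fx.2 ((ez w).symm.trans (congrArg _ (mem_fx.1 hw)))
  have l2 : (mv z2).map (fx x).subtype ≤ mv z := by
    rintro _ ⟨w, hw, rfl⟩
    obtain ⟨v, rfl⟩ := mem_mv.1 hw
    exact mem_mv.2 ⟨v, by rw [← ez]; rfl⟩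
  have l3 : ∀ {A : Submodule F (fx x)} {B : Submodule F V}, A.map (fx x).subtype ≤ B →
      finrank F A ≤ finrank F B ∧ (3 ≤ finrank F A → fx x ≤ B) := fun {A B} h =>
    ⟨(Submodule.finrank_map_subtype_eq _ A).symm.trans_le (Submodule.finrank_mono h), fun e =>
      (Submodule.eq_of_le_of_finrank_le (Submodule.map_subtype_le _ A)
        (by rwa [Submodule.finrank_map_subtype_eq, dC])).symm.trans_le h⟩
  have cz := compl_fx h3 c2
  have d1 := finrank_mv_fx z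
  have ev := Nat.even_iff.1 (even_mv c2 hz h3)
  rw [hT.dim, Ty.dim] at d1
  have key : finrank F (fx z2) ≤ 2 ∧ finrank F (mv z2) ≤ 2 := by
    by_cases e : finrank F (mv z) < 2 * m
    · have a2 : mv z ≤ fx x := fun w hw => mem_fx.2 (triv' (nd_mv hT.nd zi h3 c2) hx
        (stb_mv hxz.symm) hr hj.2 (a := 1) (by rwa [pow_one]) (hj.1 ▸ e) w hw)
      have := Submodule.finrank_mono a2
      refine ⟨not_lt.1 fun a => h4 (LinearEquiv.ext fun v => sub_eq_zero.1 ?_), by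
        have := (l3 l2).1; omega⟩
      have a3 : z v - v ∈ mv z := mem_mv.2 ⟨v, rfl⟩
      exact Submodule.disjoint_def.1 cz.disjoint _ ((l3 l1).2 a (a2 a3)) a3
    have a2 : fx z ≤ fx x := fun w hw => mem_fx.2 (triv' (nd_fx hT.nd zi h3 c2) hx
      (stb_fx hxz.symm) hr hj.2 (a := 1) (by rwa [pow_one]) (by omega) w hw)
    have a3 : finrank F (fx z) ≠ 3 := fun a => by
      have e1 := Submodule.eq_of_le_of_finrank_le a2 (by omega)
      have e2 : mv z = mv x := Submodule.eq_of_le_of_finrank_le (fun v hv => mem_mv_of_perp hT.nd hx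
        h1 c fun w hw => B_comm0 (perp_fx_mv zi (e1 ▸ hw) hv)) (by omega)
      obtain ⟨s, hs⟩ := bc_ty' hb hm ht hs
      refine sign_not_der c2 zi h3 (s := s) ?_ hz
      rw [e1, e2, hT.ns, hW.ns, hC.ns, hs, P.card, hk]
      rfl
    have := Submodule.finrank_mono a2
    refine ⟨by have := (l3 l1).1; omega, not_lt.1 fun a => ?_⟩
    have := Submodule.finrank_eq_zero.2 (cz.disjoint.eq_bot_of_le (a2.trans ((l3 l2).2 a)))
    omega
  have a4 : ∀ w, y2 w = w := fun w => by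
    obtain ⟨a, ha, b, hb, rfl⟩ := Submodule.mem_sup.1
      ((compl_fx z3 c2).sup_eq_top ▸ Submodule.mem_top (x := w))
    rw [map_add, small_triv hk hp p2 (nd_fx hC.nd hz2 z3 c2) key.1 hy2 (stb_fx cm) (fbcd_pow ey2 h2)
      a ha, small_triv hk hp p2 (nd_mv hC.nd hz2 z3 c2) key.2 hy2 (stb_mv cm) (fbcd_pow ey2 h2) b hb]
  refine LinearEquiv.ext fun v => ?_
  obtain ⟨a, ha, b, hb, rfl⟩ := Submodule.mem_sup.1
    ((compl_fx h1 c).sup_eq_top ▸ Submodule.mem_top (x := v))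
  rw [map_add, ← ey2 ⟨a, ha⟩, ← ey ⟨b, hb⟩, a4, a1]
  rfl

theorem bc_om' (hT : Φ.IsTy .B (m + 1)) (hm : 2 ≤ m) (hp : p.Prime) [CharP F p]
    (hb : BCp P.q m r) (R : Φ.Rep Γ) (hR : R.ι.range ≤ Φ.Der) : ¬ Adj (PQ Γ) (2 * p) r := fun h => by
  obtain ⟨g, hg, o⟩ := R.lift h
  have hr := (hb.ord (by omega)).1
  have gd := hR hg
  have gi := R.le hg
  have k : ∀ a b, 0 < a → 1 < b → a * b = 2 * p * r → (g ^ a) ^ b = 1 ∧ g ^ a ≠ 1 :=
    fun a b ha hb e => ⟨by rw [← pow_mul, e, ← o, pow_orderOf_eq_one],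
      pow_ne_one_of_lt_orderOf ha.ne' (by rw [o, ← e]; exact lt_mul_of_one_lt_right ha hb)⟩
  have kx := k (2 * p) r (Nat.mul_pos two_pos hp.pos) hr.one_lt rfl
  have ky := k (2 * r) p (Nat.mul_pos two_pos hr.pos) hp.one_lt (by ring)
  have kz := k (p * r) 2 (Nat.mul_pos hp.pos hr.pos) one_lt_two (by ring)
  exact ky.2 (bc_core' hT hm hp hb (pow_mem gi _) kx.1 kx.2 (pow_mem gi _) ky.1 (pow_mem gd _) kz.1
    kz.2 (Commute.pow_pow_self g _ _) (Commute.pow_pow_self g _ _) (Commute.pow_pow_self g _ _))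

omit [Finite F] [Finite V] in
theorem fbce_adj' (hC : Φ.Cen) (R : Φ.Rep Γ) (hx : x ∈ R.ι.range) {e : V}
    (he : e ≠ 0) (h : x e = e) : ∃ g : PQ Γ, orderOf g = orderOf x := by
  obtain ⟨g, rfl⟩ := hx
  refine ⟨g, orderOf_eq_orderOf_iff.2 fun k => ?_⟩
  rw [← QuotientGroup.mk_pow, QuotientGroup.eq_one_iff, ← map_pow]
  refine ⟨fun h1 => ?_, fun h1 => by
    rw [(map_eq_one_iff _ R.inj).1 h1]
    exact one_mem _⟩
  obtain ⟨c, -, h2⟩ := R.center' hC h1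
  have h3 : R.ι (g ^ k) e = e := by
    rw [map_pow]
    exact pow_mem (show R.ι g ∈ MulAction.stabilizer (V ≃ₗ[F] V) e from h) k
  have h4 : c = 1 := smul_left_injective F he (by simpa using (h2 e).symm.trans h3)
  exact LinearEquiv.ext fun v => by rw [h2, h4, one_smul]; rfl

theorem bc_sp' (hT : Φ.IsTy .C (m + 1)) (hC : Φ.Cen) (hm : 2 ≤ m) (hp : p.Prime) [CharP F p] (h2 : p ≠ 2)
    (hr : r.Prime) (hj : P.j r = m) (R : Φ.Rep Γ) (hR : Φ.Iso ≤ R.ι.range) :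
    Adj (PQ Γ) (2 * p) r := by
  have hk : P.k = .S := hT.kd.symm
  have hd : finrank F V = 2 * (m + 1) := hT.dim
  obtain ⟨e, h0, he⟩ := exists_sing (Φ := Φ) (by omega)
  obtain ⟨f, h⟩ := hT.nd.partner' he h0
  have hd' := h.finrank_pl
  obtain ⟨t, n, hW⟩ := exists_ty (h.nd_pl hT.nd)
  obtain rfl : t = .C := by
    have := hW.kd.trans hk
    cases t <;> simp [Ty.kd] at this ⊢
  obtain rfl : n = m := by
    have : _ = 2 * n := hW.dim
    omega
  have h3 : r ∣ Nat.card (Φ.res (Φ.pl e f)).Iso := by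
    rw [← Int.natCast_dvd_natCast, hW.ord]
    exact dvd_ordC (by omega) (by simpa [Sca.j, hk, Kd.bs] using hj)
  have := Fact.mk hr
  obtain ⟨x', hx'⟩ := exists_prime_orderOf_dvd_card' r h3
  have hr2 : r ≠ 2 := Ord.ne_two (b := P.k.bs P.q) (by change 1 < P.j r; omega)
  have hrp : r ≠ p := fun h => P.cast_ne hr (by omega) (h ▸ CharP.cast_eq_zero F p)
  have h4 : (2 : F) ≠ 0 := fun h => h2 ((Nat.prime_dvd_prime_iff_eq hp Nat.prime_two).1
    ((CharP.cast_eq_zero_iff F p 2).1 (by exact_mod_cast h)))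
  obtain ⟨a, ha, hc⟩ := fbce_neg (Φ := Φ.res (Φ.pl e f)) h4 (by omega)
  obtain ⟨φ, hφ, h5, -⟩ := h.ext
  obtain ⟨s, hs, h6, h7, h8⟩ := fbce_tv hk hT.nd h hp
  have h9 : orderOf (φ (a * x')) = 2 * r := by
    rw [orderOf_injective φ hφ, (hc x').orderOf_mul_eq_mul_orderOf_of_coprime, ha, hx']
    rw [ha, hx']
    exact (Nat.coprime_primes Nat.prime_two hr).2 hr2.symm
  obtain ⟨g, hg⟩ := fbce_adj' hC R (hR (mul_mem (h5 (a * x')).1 hs)) h0
    (by rw [LinearEquiv.mul_apply, h7, (h5 _).2.1])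
  refine ⟨g, ?_⟩
  rw [hg, (h8 _ (h5 _).1 (h5 _).2.1).orderOf_mul_eq_mul_orderOf_of_coprime, h9, h6, mul_right_comm]
  rw [h9, h6]
  exact Nat.Coprime.mul_left ((Nat.coprime_primes Nat.prime_two hp).2 h2.symm)
    ((Nat.coprime_primes hr hp).2 hrp)

end Frm

theorem gq_pred {t : Ty} {n q r : ℕ} (hn : 3 ≤ n) (h : Ord ((q : ℤ) ^ 2) r + 1 = n) :
    Gq t n (Ord q r) := by
  rw [ord_jc'] at h
  exact ⟨⟨Frm.jc_two.1 (by omega), .inl (by omega), by omega⟩, by omega⟩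

theorem bc_false' {n : ℕ} {Q : QuadraticForm F V} (h : (Frm.ofQ Q).IsTy .B n) (hn : 3 ≤ n)
    (hq : 4 ≤ n ∨ 4 ≤ Nat.card F)
    (ha : ∀ r m, r.Prime → Ord ((Nat.card F : ℤ) ^ 2) r + 1 = n → m.Coprime r →
      Adj (PQ (symplecticGroup (Fin n) F)) m r → Adj (PQ (commutator (orth Q))) m r) : False := by
  obtain ⟨m, rfl⟩ : ∃ m, n = m + 1 := ⟨n - 1, by omega⟩
  obtain ⟨p, f, hp, hf, e, _⟩ := (Sca.og F).pp
  have ho : Odd (Nat.card F) := h.odd rfl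
  have q2 : 2 ≤ Nat.card F := (Sca.og F).q2
  obtain ⟨r, hb⟩ := exists_bcp' (m := m) ho (by obtain ⟨k, hk⟩ := ho; omega) (by omega)
  obtain ⟨hr, hj⟩ := hb.ord (by omega)
  obtain ⟨Φ, R, hT, hR⟩ := sp_ty (m + 1) F
  obtain ⟨R', hR'⟩ := brg_om Q
  have hp' : p ∣ Nat.card F := (dvd_pow_self p hf.ne').trans (dvd_of_eq e.symm)
  have p2 : p ≠ 2 := by
    rintro rfl
    exact ho.not_two_dvd_nat hp'
  have hC : Φ.Cen := Frm.cen_of hT.nd (by
    rw [hT.dim, Ty.dim]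
    exacts [hq.imp (by omega) fun a => ⟨by simp [Sca.sp], by omega, a⟩, by simp, by simp])
  refine Frm.bc_om' h (by omega) hp hb R' hR' (ha r _ hr (by omega) (Nat.Coprime.mul_left
    ((Nat.coprime_primes Nat.prime_two hr).2 (Ord.ne_two (b := (Nat.card F : ℤ) ^ 2)
      (by omega)).symm) ((Nat.coprime_primes hp hr).2 ?_))
    (Frm.bc_sp' hT hC (by omega) hp p2 hr hj R hR))
  rintro rfl
  exact Ord.not_dvd_q (d := .O) hr (hj.symm ▸ by omega : 0 < Ord ((Nat.card F : ℤ) ^ 2) p) hp'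

end Pool.Agent.Lib.MP_7d41f7_al
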