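import Pool.Agent.Lib.MP_7d41f7_al.D.SMin

/-! Sharp adjacency in the symplectic and orthogonal groups. -/

set_option autoImplicit false

namespace Pool.Agent.Lib.MP_7d41f7_al

open Module

variable {F V : Type} [Field F] [Finite F] {P : Sca F} [AddCommGroup V] [Module F V] [Finite V]
  {Φ : Frm P V}

namespace Frm

variable {t : Ty} {n r u : ℕ} {Γ : Type} [Group Γ] {x : V ≃ₗ[F] V}

/-- The factor of the number of singular vectors that a prime of a large class divides. -/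
theorem sing_tor {s : Ty} {q m w : ℕ} (hs : s = .Dp ∨ s = .Dm) (hw : w.Prime)
    (h1 : 1 < Ord ((q : ℤ) ^ 2) w) (h2 : Ord ((q : ℤ) ^ 2) w ∣ m) (hm : 0 < m)
    (h : (w : ℤ) ∣ s.sing m q) : (w : ℤ) ∣ (q : ℤ) ^ m - if s = .Dp then 1 else -1 := by
  have h3 : ¬ (w : ℤ) ∣ (q : ℤ) ^ (2 * (m - 1)) - 1 := fun e => by
    rw [pow_mul, Ord.dvd_iff] at e
    have h4 := Nat.dvd_sub h2 e
    rw [Nat.sub_sub_self hm, Nat.dvd_one] at h4
    omega
  rcases hs with rfl | rfl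
  · exact ((Nat.prime_iff_prime_int.1 hw).dvd_or_dvd h).resolve_right fun e => h3 (adjL_ar_add e)
  · rw [if_neg (by decide), sub_neg_eq_add]
    exact ((Nat.prime_iff_prime_int.1 hw).dvd_or_dvd h).resolve_right fun e =>
      h3 (e.trans ⟨q ^ (m - 1) + 1, by ring⟩)

/-- Adjacent primes of large classes divide the order of the same cyclic torus. -/
theorem adj_tor (hT : Φ.IsTy t n) (hk : P.k ≠ .U) (R : Φ.Rep Γ) (hr : r.Prime) (hu : u.Prime)
    (hb : 1 < P.j r) (hb' : 1 < P.j u) (hj : n < 2 * P.j r) (hs : n < P.j u + P.j r)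
    (h : Adj (PQ Γ) u r) : ∃ ε : ℤ, (ε = 1 ∨ ε = -1) ∧ (r : ℤ) ∣ (P.q : ℤ) ^ P.j r - ε ∧
      (u : ℤ) ∣ (P.q : ℤ) ^ P.j r - ε := by
  replace hk : P.k = .S ∨ P.k = .O := P.kind.resolve_left hk
  have hq : P.k.bs P.q = (P.q : ℤ) ^ 2 := by rcases hk with h | h <;> rw [h] <;> rfl
  have hw : P.k.wt = 2 := by rcases hk with h | h <;> rw [h] <;> rfl
  have gr : 2 < P.k.wt * P.j r := by rw [hw]; omega
  have gu : 2 < P.k.wt * P.j u := by rw [hw]; omega
  obtain ⟨x, hx, y, hy, hc, h1, h1', h2, h2'⟩ := R.lift2 hr hu h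
  have hy0 := adj_core' hT hr hu gr gu hs hx hy hc h1 h2 h2'
  have hx0 := fadja_dis h1 (Sca.cast_ne' hr gr)
  obtain ⟨t', hT', a0, fx, hd⟩ := mv_ty hT hx hr gr hj h1 h1'
  have fy := fpf_ty' hT' hy (stb_mv hc) hu gu h2 hy0
  have key : ∀ s : Ty, s = .Dp ∨ s = .Dm → (r : ℤ) ∣ s.sing (P.j r) P.q →
      (u : ℤ) ∣ s.sing (P.j r) P.q → ∃ ε : ℤ, (ε = 1 ∨ ε = -1) ∧
        (r : ℤ) ∣ (P.q : ℤ) ^ P.j r - ε ∧ (u : ℤ) ∣ (P.q : ℤ) ^ P.j r - ε := fun s a1 d1 d2 =>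
    ⟨_, by split_ifs <;> simp, sing_tor a1 hr (hq ▸ hb) (hq ▸ dvd_rfl) (by omega) d1,
      sing_tor a1 hu (hq ▸ hb') (hq ▸ fy.1) (by omega) d2⟩
  rcases hk with hk | hk
  · obtain ⟨x', hx', ex⟩ := exists_res hx (stb_mv (Commute.refl x))
    obtain ⟨y', hy', ey⟩ := exists_res hy (stb_mv hc)
    have f1 : ∀ v, x' v = v → v = 0 := fun v hv =>
      Subtype.ext (hx0 v v.2 ((ex v).symm.trans (congrArg _ hv)))
    have f2 : ∀ v, y' v = v → v = 0 := fun v hv =>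
      Subtype.ext (hy0 v v.2 ((ey v).symm.trans (congrArg _ hv)))
    have c' : Commute x' y' := LinearEquiv.ext fun w => Subtype.ext (by
      rw [LinearEquiv.mul_apply, LinearEquiv.mul_apply, ex, ey, ey, ex, ← LinearEquiv.mul_apply,
        hc.eq, LinearEquiv.mul_apply])
    obtain ⟨Ψ, hΨ, hI⟩ := sp_to_og hk hT'.nd hx' (hr.odd_of_ne_two (Ord.ne_two hb))
      (fbcd_pow ex h1) f1
    obtain ⟨s, l, hS⟩ := exists_ty hΨ
    have d1 := (free_dvd (hI x' hx' (Commute.refl _)) hr (fbcd_pow ex h1) f1).2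
    have d2 := (free_dvd (hI y' hy' c') hu (fbcd_pow ey h2) f2).2
    rw [← Int.natCast_dvd_natCast, hS.ns] at d1 d2
    have q' : (Sca.og F).q = P.q := by have := P.card; rw [hk] at this; exact this
    rw [q'] at d1 d2
    have a2 : s.kd = .O := hS.kd
    have a3 := hS.dim.symm.trans hd
    have a4 : (s = .Dp ∨ s = .Dm) ∧ l = P.j r := by
      rw [hw] at a3
      revert a2 a3
      cases s <;> simp [Ty.kd, Ty.dim]
      omega
    rw [a4.2] at d1 d2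
    exact key s a4.1 d1 d2
  · refine key t' ?_ fx fy.2.2
    have a1 := hT'.kd.trans hk
    revert a1 a0
    cases t' <;> simp [Ty.kd]

end Frm

end Pool.Agent.Lib.MP_7d41f7_al
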