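import Pool.Agent.Lib.MP_7d41f7_al.D.SVan
import Pool.Agent.Lib.MP_7d41f7_al.D.SCen
import Pool.Agent.Lib.MP_7d41f7_al.D.SAdj

/-! The data of the classical groups of small rank. -/

set_option autoImplicit false

namespace Pool.Agent.Lib.MP_7d41f7_al

open Module

variable {F V : Type} [Field F] [Finite F] {P : Sca F} [AddCommGroup V] [Module F V] [Finite V]
  {Φ : Frm P V} {Γ G : Type} [Group Γ] [Group G] [Finite G] {t : Ty} {n r : ℕ}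

namespace Frm

theorem IsTy.le_of_ord (hT : Φ.IsTy t n) (hC : Φ.Cen) (R : Φ.Rep Γ) (hr : r.Prime)
    (hb : 1 < P.j r) {g : PQ Γ} (h : r ∣ orderOf g) : P.j r ≤ n := by
  obtain ⟨c, hc, -⟩ := card_PQ' hT hC R
  have := ord_le' (t := t) (n := n) (q := P.q) hr (hT.kd ▸ hb) (hc ▸
    (Int.natCast_dvd_natCast.2 (h.trans (orderOf_dvd_natCard g))).mul_right _)
  rwa [hT.kd] at this

theorem cen_U (hT : Φ.IsTy .U n) (hn : 3 ≤ n) (hq : 4 ≤ P.q) : Φ.Cen :=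
  cen_of hT.nd (.inr ⟨by rw [← hT.kd]; simp [Ty.kd], hT.dim ▸ hn, hq⟩)

theorem cyc_U (hT : Φ.IsTy .U n) (hn : 4 ≤ n) (R : Φ.Rep Γ) (hr : r.Prime) (hj : n ≤ P.j r + 1) :
    Cyc (PQ Γ) r :=
  cyc_PQ' hT R hr (bg_of (by omega)) (by omega)

theorem van_U (hT : Φ.IsTy .U n) (hn : 4 ≤ n) (hq : 4 ≤ P.q) (R : Φ.Rep Γ) (hr : r.Prime)
    (hj : n ≤ P.j r + 1) (g : PQ Γ) (h : r ∣ orderOf g) : orderOf g ∈ Vo (PQ Γ) := by
  have hC := cen_U hT (by omega) hq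
  have h1 := hT.le_of_ord hC R hr (by omega) h
  have e : P.j r = Ord (-(P.q : ℤ)) r := by rw [Sca.j, ← hT.kd]; rfl
  obtain ⟨k, hk⟩ := vank_U (q := P.q) hr hn (by omega)
  exact van_k hT hC R hr (bg_of (by omega)) hk g h

omit [Finite F] [Finite V] in
theorem IsTy.jc (hT : Φ.IsTy t n) (ht : t ≠ .U) (r : ℕ) : P.k ≠ .U ∧ P.k.wt = 2 ∧
    P.j r = Ord ((P.q : ℤ) ^ 2) r ∧ P.j r = jc (Ord P.q r) := by
  rw [← ord_jc', Sca.j, ← hT.kd]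
  cases t <;> simp [Ty.kd, Kd.wt, Kd.bs] at ht ⊢

theorem jc_two {e : ℕ} : 1 < jc e ↔ 2 < e := by
  unfold jc
  split_ifs <;> omega

/-- Vanishing for symplectic and orthogonal groups. -/
theorem van_O (hT : Φ.IsTy t n) (ht : t ≠ .U) (hm : t = .Dm → 3 ≤ n) (hC : Φ.Cen) (R : Φ.Rep Γ)
    (hr : r.Prime) (he : 2 < Ord P.q r) (hj : n + 2 ≤ 2 * jc (Ord P.q r) ∨
      n = 3 ∧ Ord P.q r = 4 ∧ (t = .B ∨ t = .C) ∨ n = 5 ∧ Ord P.q r = 6 ∧ (t = .Dp ∨ t = .Dm))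
    (g : PQ Γ) (h : r ∣ orderOf g) : orderOf g ∈ Vo (PQ Γ) := by
  obtain ⟨-, a2, -, a3⟩ := hT.jc ht r
  have a4 := jc_two.2 he
  obtain ⟨k, hk⟩ := vank_O hr ht he (a3 ▸ hT.le_of_ord hC R hr (a3 ▸ a4) h) hm hj
  exact van_k hT hC R hr (by rw [a2, a3]; omega) hk g h

theorem cen_T (hT : Φ.IsTy t n) (hR : Rng t n) (hq : 4 ≤ P.q) : Φ.Cen := by
  refine cen_of hT.nd ?_
  obtain ⟨a1, a2, -, a3, a4⟩ := hR
  rw [hT.dim, ← hT.kd]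
  cases t <;> simp [Ty.kd, Ty.dim] at a1 a3 a4 ⊢ <;> omega

theorem van_T (hT : Φ.IsTy t n) (hR : Rng t n) (hq : 4 ≤ P.q) (R : Φ.Rep Γ) (hr : r.Prime)
    (hg : Gq t n (Ord P.q r)) (g : PQ Γ) (h : r ∣ orderOf g) : orderOf g ∈ Vo (PQ Γ) := by
  obtain ⟨⟨a1, -, a2⟩, a3⟩ := hg
  refine van_O hT hR.1 (fun _ => hR.2.1) (cen_T hT hR hq) R hr a1 ?_ g h
  rcases a3 with a3 | rfl | a3
  · exact .inl a3
  · by_cases a4 : 3 + 2 ≤ 2 * jc (Ord P.q r)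
    · exact .inl a4
    refine .inr (.inl ⟨rfl, by unfold jc at a2 a4; split_ifs at a2 a4 <;> omega, ?_⟩)
    obtain ⟨b1, -, -, b2, b3⟩ := hR
    cases t <;> simp at b1 b2 b3 ⊢
  · exact .inr (.inr a3)

theorem cyc_T (hT : Φ.IsTy t n) (ht : t ≠ .U) (R : Φ.Rep Γ) (hr : r.Prime) (he : 2 < Ord P.q r)
    (hj : n < 2 * jc (Ord P.q r)) : Cyc (PQ Γ) r := by
  obtain ⟨-, a2, -, a3⟩ := hT.jc ht r
  have a4 := jc_two.2 he
  exact cyc_PQ' hT R hr (by rw [a2, a3]; omega) (a3 ▸ hj)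

theorem tdata_PQ (hT : Φ.IsTy t n) (hR : Rng t n) (hq : 4 ≤ P.q) (R : Φ.Rep Γ) :
    TData (PQ Γ) t n P.q := by
  refine ⟨?_, fun r hr hg => cyc_T hT hR.1 R hr hg.1.1 hg.1.2.2, fun r u hr hu _ hg h1 h => ?_⟩
  · obtain ⟨c, h1, h2⟩ := card_PQ' hT (cen_T hT hR hq) R
    refine ⟨c, h1, fun r hr h => not_lt.1 fun e => ?_⟩
    obtain ⟨-, a2, -, a3⟩ := hT.jc hR.1 r
    have := h2 r hr h
    have := jc_two.2 e
    rw [a2, a3] at *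
    omega
  · obtain ⟨a1, -, a2, a3⟩ := hT.jc hR.1 r
    obtain ⟨-, -, b2, b3⟩ := hT.jc hR.1 u
    rw [← a2, ← b2]
    exact (le_or_gt _ n).imp_right fun e => adj_tor hT a1 R hr hu (a3 ▸ jc_two.2 hg.1.1)
      (b3 ▸ jc_two.2 h1) (a3 ▸ hg.1.2.2) e h

/-- The data pass to a group with the same order and the same vanishing orders. -/
theorem tdata (hT : Φ.IsTy t n) (hR : Rng t n) (hq : 4 ≤ P.q) (R : Φ.Rep Γ)
    (hc : Nat.card G = Nat.card (PQ Γ)) (hV : Vo G = Vo (PQ Γ)) : TData G t n P.q ∧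
      ∀ r m, r.Prime → Gq t n (Ord P.q r) → m.Coprime r → (Adj G m r ↔ Adj (PQ Γ) m r) := by
  have := R.finite
  have h := tdata_PQ hT hR hq R
  have hA : ∀ r m, r.Prime → Gq t n (Ord P.q r) → m.Coprime r → (Adj G m r ↔ Adj (PQ Γ) m r) :=
    fun r m hr ho hm => transfer_adj hr hm hc hV (h.cyc r hr ho) (van_T hT hR hq R hr ho)
  exact ⟨⟨hc ▸ h.card, fun r hr ho => transfer_cyc hr hc hV (h.cyc r hr ho) (van_T hT hR hq R hr ho),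
    fun r u hr hu hne ho hu' ha => h.adj r u hr hu hne ho hu'
      ((hA r u hr ho ((Nat.coprime_primes hu hr).2 hne)).1 ha)⟩, hA⟩

end Frm

end Pool.Agent.Lib.MP_7d41f7_al
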