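import Pool.Agent.Lib.MP_7d41f7_al.D.UB

/-! Unitary groups of small dimension: the order of the section. -/

set_option autoImplicit false

namespace Pool.Agent.Lib.MP_7d41f7_al

open Finset

/-- What is known about the orders `k`, `h`, `a` of the three factors of a normal series. -/
structure JData (k h a c n q : ℕ) : Prop where
  card : k * h * a * c = ordSU n q
  cn : c ≤ n
  cq : c ∣ q + 1
  kk : ∀ u, u.Prime → u ∣ k → Slk q u
  all : ∀ m r, UC n q m r → r ∣ h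
  top : ∀ m r, UC n q m r → ∃ b d, a = b * d ∧ b ∣ r - 1 ∧
    ∀ u, u.Prime → u ∣ d → Ord (-(q : ℤ)) u ∣ m ∧ (u = 2 → m % 2 = 1 → q % 4 ≠ 1)

/-- The comparison of a family with `N` positive roots, exponents `I` and largest exponent `D`
with the unitary group of dimension `n`. -/
def Fit (n N D : ℕ) (I : Finset ℕ) : Prop :=
  2 * Ty.U.top n * N ≤ n * (n - 1) / 2 * D ∧ (∃ j ∈ I, D * dg n ∣ 2 * Ty.U.top n * j) ∧
    (∃ j ∈ I, D * dg (n - 1) ∣ 2 * Ty.U.top n * j) ∧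
    (n < 12 → ∀ j ∈ I, 3 ≤ j → 2 * Ty.U.top n * j ≠ D * 12 ∧ 2 * Ty.U.top n * j ≠ D * 15)

instance (n N D : ℕ) (I : Finset ℕ) : Decidable (Fit n N D I) := by
  unfold Fit
  infer_instance

variable {k h a c n q p f m r s u : ℕ}

theorem slk_of (hq : 1 ≤ q)
    (h1 : Ord (-(q : ℤ)) u ∣ m + 1 ∧ (u = 2 → (m + 1) % 2 = 1 → q % 4 ≠ 1))
    (h2 : Ord (-(q : ℤ)) u ∣ m ∧ (u = 2 → m % 2 = 1 → q % 4 ≠ 1)) : Slk q u := by
  have h3 : u ∣ q + 1 := fu_one q ▸ (dvd_fu hq u 1).2 ((Nat.dvd_add_right h2.1).1 h1.1)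
  refine ⟨h3, fun e => ?_⟩
  have h4 := h1.2 e
  have h5 := h2.2 e
  subst e
  omega

theorem JData.split (J : JData k h a c n q) (P : Pu n q) (h1 : UC n q n r)
    (h2 : UC n q (n - 1) s) : ∃ W, (∀ u, u.Prime → u ∣ W → Slk q u) ∧ W * h ∣ ordSU n q ∧
      ordSU n q ≤ W * h * ((r - 1) * (s - 1)) * c := by
  obtain ⟨b₁, d₁, e₁, f₁, g₁⟩ := J.top _ _ h1
  obtain ⟨b₂, d₂, e₂, f₂, g₂⟩ := J.top _ _ h2
  have hn := P.n4
  have hq := P.q2
  have h0 := ordSU_pos hq n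
  have hd : d₁ ≠ 0 := fun e => by simp [← J.card, e₁, e] at h0
  have h3 : d₁ ∣ b₂ * Nat.gcd d₁ d₂ := by
    rw [← Nat.gcd_mul_left]
    exact Nat.dvd_gcd (dvd_mul_left _ _) (e₂ ▸ e₁ ▸ dvd_mul_left _ _)
  have h4 : a ∣ (r - 1) * ((s - 1) * Nat.gcd d₁ d₂) :=
    e₁ ▸ mul_dvd_mul f₁ (h3.trans (mul_dvd_mul_right f₂ _))
  have h5 := Nat.le_of_dvd (Nat.mul_pos (Nat.sub_pos_of_lt h1.pr.one_lt) (Nat.mul_pos
    (Nat.sub_pos_of_lt h2.pr.one_lt) (Nat.gcd_pos_of_pos_left _ (Nat.pos_of_ne_zero hd)))) h4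
  refine ⟨k * Nat.gcd d₁ d₂, fun u hu h => ?_, ?_, ?_⟩
  · refine ((Nat.Prime.dvd_mul hu).1 h).elim (J.kk u hu) fun h => ?_
    refine slk_of (m := n - 1) (by omega) ?_ (g₂ u hu (h.trans (Nat.gcd_dvd_right _ _)))
    rw [Nat.sub_add_cancel (by omega)]
    exact g₁ u hu (h.trans (Nat.gcd_dvd_left _ _))
  · rw [← J.card, mul_right_comm k _ h]
    exact (mul_dvd_mul_left _ ((Nat.gcd_dvd_left _ _).trans (e₁ ▸ dvd_mul_left _ _))).mul_right _
  · rw [← J.card]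
    refine Nat.mul_le_mul_right _ ((Nat.mul_le_mul_left _ h5).trans_eq ?_)
    ring

theorem JData.ppart (J : JData k h a c n (p ^ f)) (P : Pu n (p ^ f)) (hp : p.Prime) (hf : 0 < f)
    (hr : UC n (p ^ f) m r) : h.factorization p ≤ f * (n * (n - 1) / 2) ∧
      (p ^ f) ^ (n * (n - 1) / 2) ≤ p ^ h.factorization p * (r - 1) := by
  obtain ⟨b, d, e, h1, h2⟩ := J.top _ _ hr
  have h0 := (ordSU_pos P.q2 n).ne'
  have h3 := P.ppart hp hf J.card J.cq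
  rw [← J.card, e] at h0
  simp only [mul_ne_zero_iff] at h0
  obtain ⟨⟨⟨k0, h0⟩, b0, d0⟩, -⟩ := h0
  have hq : p ∣ p ^ f := dvd_pow_self p hf.ne'
  have h4 : k.factorization p = 0 :=
    Nat.factorization_eq_zero_of_not_dvd fun h => (J.kk p hp h).not_dvd hp hq
  have h5 : d.factorization p = 0 := Nat.factorization_eq_zero_of_not_dvd fun h => by
    have h6 := (h2 p hp h).1
    have h7 := hr.top
    have h8 := P.n4
    rw [ord_p hp hq, zero_dvd_iff] at h6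
    omega
  rw [e, Nat.factorization_mul (mul_ne_zero k0 h0) (mul_ne_zero b0 d0), Nat.factorization_mul k0 h0,
    Nat.factorization_mul b0 d0] at h3
  simp only [Finsupp.add_apply, h4, h5, zero_add, add_zero] at h3
  refine ⟨by omega, ?_⟩
  rw [← pow_mul, ← h3, pow_add]
  exact Nat.mul_le_mul_left _ (Nat.le_of_dvd (Nat.sub_pos_of_lt hr.pr.one_lt)
    ((Nat.ordProj_dvd b p).trans h1))

theorem JData.ord_le (J : JData k h a c n q) (P : Pu n q) (hr : r.Prime) (hd : r ∣ h) :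
    Ord (-(q : ℤ)) r ≤ n := by
  have hn := P.n4
  have hq := P.q2
  refine Ty.ord_le (t := .U) (by omega) hr ?_
  rw [ordU_eq (by omega) (by omega), ← J.card]
  exact (Int.natCast_dvd_natCast.2 (((hd.mul_left k).mul_right a).mul_right c)).mul_right _

theorem JData.same (J : JData k h a c n (p ^ f)) (P : Pu n (p ^ f)) (hp : p.Prime) (hf : 0 < f)
    {v g N D : ℕ} {I : Finset ℕ} (L : LT h v g N D I) :
    v = p ∧ g * D = f * (2 * Ty.U.top n) ∧ Fit n N D I := by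
  have n4 := P.n4
  have g0 := L.g0
  obtain ⟨r, r1, -, r3⟩ := P.ex hp hf (m := n) (.inl rfl)
  obtain ⟨s, s1, -, s3⟩ := P.ex hp hf (m := n - 1) (.inr (by omega))
  have hk : v ^ (g * N) ∣ h := pow_mul v g N ▸ L.pp
  obtain rfl : v = p := by
    by_contra e
    obtain ⟨W, w1, w2, w3⟩ := J.split P r3 s3
    have i1 := P.cross L.pv (fun c => e ((Nat.prime_dvd_prime_iff_eq L.pv hp).1
      (L.pv.dvd_of_dvd_pow c))) ((mul_dvd_mul_left W hk).trans w2) w1 r3 s3 J.cn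
    rw [pow_mul] at i1
    exact i1.not_ge (w3.trans (Nat.mul_le_mul_right _ (Nat.mul_le_mul_right _
      (Nat.mul_le_mul_left _ L.le))))
  obtain ⟨d1, d2, -, d4, d5⟩ := dg_fin n P.lt n4
  have key : ∀ m r, 3 ≤ m → Prim v (f * m) r → r ∣ h → ∃ j ∈ I, f * m ∣ g * j := by
    intro m r hm hr e
    have m0 := Nat.mul_pos hf (show 0 < m by omega)
    rcases L.div r hr.pr e with rfl | ⟨j, hj, e⟩
    · exact absurd dvd_rfl (hr.not_dvd hp.pos m0)
    · exact ⟨j, hj, (hr.dvd_iff hp.pos m0 _).1 (by rwa [pow_mul])⟩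
  obtain ⟨j₁, a₁, b₁⟩ := key _ r d1 r1 (J.all _ r r3)
  obtain ⟨j₂, a₂, b₂⟩ := key _ s d2 s1 (J.all _ s s3)
  have le : ∀ j ∈ I, ∀ x, x ∣ g * j → x ≤ g * D := fun j hj x e =>
    (Nat.le_of_dvd (Nat.mul_pos g0 (L.bd j hj).1) e).trans (Nat.mul_le_mul_left _ (L.bd j hj).2)
  have hd : (h : ℤ) ∣ Ty.U.ord n (v ^ f : ℕ) := by
    rw [ordU_eq (pow_pos hp.pos f) (by omega), ← J.card]
    exact (Int.natCast_dvd_natCast.2 (((dvd_mul_left h k).mul_right a).mul_right c)).mul_right _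
  have e1 : g * D = f * (2 * Ty.U.top n) := by
    refine le_antisymm (not_lt.1 fun c => ?_)
      (d4.elim (fun e => e ▸ le j₁ a₁ _ b₁) fun e => e ▸ le j₂ a₂ _ b₂)
    have a := Nat.le_mul_of_pos_left (2 * Ty.U.top n) hf
    obtain ⟨r, hr⟩ := zsig hp.two_le (by omega : 3 ≤ g * D) (by omega)
    have o := hr.ord_eq hp.pos (by omega)
    obtain ⟨i, i0, i1, e⟩ := Ty.dvd_top (t := .U) (q := v ^ f) (by omega : 3 ≤ n) hr.pr
      (Ord.ne_two (b := v) (by omega)) (fun c => hr.not_dvd hp.pos (by omega)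
        (hr.pr.dvd_of_dvd_pow c)) ((Int.natCast_dvd_natCast.2
          (L.all D L.mem (.inr rfl) (by omega) r hr)).trans hd)
    exact c.not_ge ((Nat.le_of_dvd (Nat.mul_pos hf i0) ((hr.dvd_iff hp.pos (by omega) _).1
      (by rwa [pow_mul]))).trans (Nat.mul_le_mul_left _ i1))
  have h0 : h ≠ 0 := fun e => by
    have := ordSU_pos P.q2 n
    simp [← J.card, e] at this
  have e2 : g * N ≤ f * (n * (n - 1) / 2) :=
    ((hp.pow_dvd_iff_le_factorization h0).1 hk).trans (J.ppart P hp hf r3).1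
  have e3 : ∀ m j, f * m ∣ g * j → D * m ∣ 2 * Ty.U.top n * j := fun m j e =>
    Nat.dvd_of_mul_dvd_mul_left g0 (by
      rw [← mul_assoc, e1, mul_left_comm g, mul_right_comm, mul_comm]
      exact mul_dvd_mul_left _ e)
  have e4 : ∀ j ∈ I, 3 ≤ j → ∀ m, n < m → 12 ≤ dg m → 2 * Ty.U.top n * j ≠ D * dg m :=
    fun j hj j3 m hm h12 e => by
      have e5 : g * j = f * dg m := Nat.eq_of_mul_eq_mul_left (by omega : 0 < 2 * Ty.U.top n) (by
        rw [mul_left_comm, e, ← mul_assoc, e1]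
        ring)
      have a := Nat.le_mul_of_pos_left (dg m) hf
      obtain ⟨r, hr⟩ := zsig hp.two_le (by omega : 3 ≤ f * dg m) (by omega)
      have o := J.ord_le P hr.pr (L.all j hj (.inl j3) (by omega) r (e5 ▸ hr))
      rw [(hr.pow hp.pos hf (by omega)).ord_dg (pow_pos hp.pos f) (by omega)] at o
      omega
  refine ⟨rfl, e1, Nat.le_of_mul_le_mul_left ?_ g0, ⟨j₁, a₁, e3 _ _ b₁⟩, ⟨j₂, a₂, e3 _ _ b₂⟩,
    fun hn j hj j3 => ⟨e4 j hj j3 12 hn (by decide), e4 j hj j3 30 (by omega) (by decide)⟩⟩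
  rw [mul_left_comm g, mul_left_comm g, e1]
  exact (Nat.mul_le_mul_left _ e2).trans_eq (by ring)

theorem h3_bd {N D : ℕ} {I : Finset ℕ} (hn : 4 ≤ n) (hl : n < 64) (h : Fit n N D I) :
    4 * N ≤ 63 * D := by
  have a1 : n - 1 ≤ Ty.U.top n := by
    simp only [Ty.top]
    split_ifs <;> omega
  have a2 : 2 * (n * (n - 1) / 2) ≤ 63 * (n - 1) :=
    (Nat.mul_div_le _ 2).trans (Nat.mul_le_mul_right _ (by omega))
  have a3 := Nat.mul_le_mul_right N a1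
  have a4 := Nat.mul_le_mul_right D a2
  have a5 := h.1
  refine Nat.le_of_mul_le_mul_left (?_ : (n - 1) * _ ≤ (n - 1) * _) (by omega)
  nlinarith

/-- A search for an exponent `f i`, `a ≤ i < m`, with `y ∣ z * f i`. -/
def h3_E (y z a : ℕ) (f : ℕ → ℕ) (m : ℕ) : Bool :=
  Nat.rec false (fun i r => (Nat.beq (Nat.mod (Nat.mul z (f i)) y) 0 && Nat.ble a i) || r) m

theorem h3_E_of {y z a i m : ℕ} {f : ℕ → ℕ} (hi : i < m) (ha : a ≤ i) (h : y ∣ z * f i) :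
    h3_E y z a f m = true := by
  induction m with
  | zero => omega
  | succ m ih =>
    change ((Nat.beq (z * f m % y) 0 && Nat.ble a m) || h3_E y z a f m) = true
    rw [Bool.or_eq_true, Bool.and_eq_true, Nat.beq_eq, Nat.ble_eq]
    rcases Nat.lt_succ_iff_lt_or_eq.1 hi with e | rfl
    · exact Or.inr (ih e)
    · exact Or.inl ⟨Nat.mod_eq_zero_of_dvd h, ha⟩

/-- The comparison for exponents given by a function on an interval. -/
def h3_F (n N D a m : ℕ) (f : ℕ → ℕ) : Prop :=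
  2 * Ty.U.top n * N ≤ n * (n - 1) / 2 * D ∧
    h3_E (D * dg n) (2 * Ty.U.top n) a f (m + 1) = true ∧
    h3_E (D * dg (n - 1)) (2 * Ty.U.top n) a f (m + 1) = true ∧
    (n < 12 → ∀ i < m + 1, a ≤ i ∧ 3 ≤ f i →
      2 * Ty.U.top n * f i ≠ D * 12 ∧ 2 * Ty.U.top n * f i ≠ D * 15)

instance h3_dec (n N D a m : ℕ) (f : ℕ → ℕ) : Decidable (h3_F n N D a m f) := by
  unfold h3_F
  infer_instance

theorem h3_of {N D a m : ℕ} {f : ℕ → ℕ} (h : Fit n N D ((Icc a m).image f)) :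
    h3_F n N D a m f := by
  have e : ∀ y, (∃ j ∈ (Icc a m).image f, y ∣ 2 * Ty.U.top n * j) →
      h3_E y (2 * Ty.U.top n) a f (m + 1) = true := fun y ⟨j, hj, d⟩ => by
    obtain ⟨i, hi, rfl⟩ := mem_image.1 hj
    exact h3_E_of (Nat.lt_succ_of_le (mem_Icc.1 hi).2) (mem_Icc.1 hi).1 d
  exact ⟨h.1, e _ h.2.1, e _ h.2.2.1, fun l i hi k => h.2.2.2 l _
    (mem_image_of_mem f (mem_Icc.2 ⟨k.1, Nat.le_of_lt_succ hi⟩)) k.2⟩

theorem h3_half (m : ℕ) : 4 * (m * (m - 1) / 2) = 2 * (m * (m - 1)) := by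
  have := Nat.div_mul_cancel (Nat.even_mul_pred_self m).two_dvd
  omega

theorem fit_A (hn : 4 ≤ n) (hl : n < 64) (hm : 2 ≤ m)
    (h : Fit n (m * (m - 1) / 2) m (Icc 2 m)) : n = 4 ∧ m = 3 := by
  have b := h3_bd hn hl h
  rw [h3_half] at b
  have c : m < 33 := by
    obtain ⟨l, rfl⟩ : ∃ l, m = l + 1 := ⟨m - 1, by omega⟩
    rw [Nat.add_sub_cancel] at b
    nlinarith
  have d : ∀ n < 64, ∀ m < 33, 4 ≤ n ∧ 2 ≤ m ∧ ¬ (n = 4 ∧ m = 3) →
      ¬ h3_F n (m * (m - 1) / 2) m 2 m id := by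
    decide +kernel
  by_contra e
  exact d n hl m c ⟨hn, hm, e⟩ (h3_of (by rwa [image_id]))

theorem fit_2A (hn : 4 ≤ n) (hl : n < 64) (hm : 3 ≤ m)
    (h : Fit n (m * (m - 1) / 2) (if m % 2 = 1 then 2 * m else 2 * (m - 1))
      ((Icc 2 m).image fun i => if i % 2 = 1 then 2 * i else i)) :
    m = n ∨ (m + 1 = n ∧ n % 4 = 2) := by
  have b := h3_bd hn hl h
  rw [h3_half] at b
  have c : m < 65 := by
    obtain ⟨l, rfl⟩ : ∃ l, m = l + 1 := ⟨m - 1, by omega⟩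
    rw [Nat.add_sub_cancel] at b
    split_ifs at b <;> nlinarith
  have d : ∀ n < 64, ∀ m < 65, 4 ≤ n ∧ 3 ≤ m ∧ ¬ (m = n ∨ (m + 1 = n ∧ n % 4 = 2)) →
      ¬ h3_F n (m * (m - 1) / 2) (if m % 2 = 1 then 2 * m else 2 * (m - 1)) 2 m
        fun i => if i % 2 = 1 then 2 * i else i := by
    decide +kernel
  by_contra e
  exact d n hl m c ⟨hn, hm, e⟩ (h3_of h)

theorem fit_B (hn : 4 ≤ n) (hl : n < 64) (hm : 2 ≤ m) :
    ¬ Fit n (m * m) (2 * m) ((Icc 1 m).image fun i => 2 * i) := by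
  intro h
  have b := h3_bd hn hl h
  have c : m < 32 := by nlinarith
  have d : ∀ n < 64, ∀ m < 32, 4 ≤ n → 2 ≤ m →
      ¬ h3_F n (m * m) (2 * m) 1 m fun i => 2 * i := by
    decide +kernel
  exact d n hl m c hn hm (h3_of h)

theorem fit_D (hn : 4 ≤ n) (hl : n < 64) (hm : 4 ≤ m) :
    ¬ Fit n (m * (m - 1)) (2 * (m - 1)) ((Icc 1 m).image fun i => if i = m then m else 2 * i) := by
  intro h
  have b := h3_bd hn hl h
  have c : m < 32 := by
    obtain ⟨l, rfl⟩ : ∃ l, m = l + 1 := ⟨m - 1, by omega⟩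
    rw [Nat.add_sub_cancel] at b
    have : 3 ≤ l := by omega
    nlinarith
  have d : ∀ n < 64, ∀ m < 32, 4 ≤ n → 4 ≤ m →
      ¬ h3_F n (m * (m - 1)) (2 * (m - 1)) 1 m fun i => if i = m then m else 2 * i := by
    decide +kernel
  exact d n hl m c hn hm (h3_of h)

theorem fit_2D (hn : 4 ≤ n) (hl : n < 64) (hm : 4 ≤ m) :
    ¬ Fit n (m * (m - 1)) (2 * m) ((Icc 1 m).image fun i => 2 * i) := by
  intro h
  have b := h3_bd hn hl h
  have c : m < 33 := by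
    obtain ⟨l, rfl⟩ : ∃ l, m = l + 1 := ⟨m - 1, by omega⟩
    rw [Nat.add_sub_cancel] at b
    nlinarith
  have d : ∀ n < 64, ∀ m < 33, 4 ≤ n → 4 ≤ m →
      ¬ h3_F n (m * (m - 1)) (2 * m) 1 m fun i => 2 * i := by
    decide +kernel
  exact d n hl m c hn hm (h3_of h)

theorem fit_exc (hn : 4 ≤ n) (hl : n < 64) : ∀ x ∈ excData, ¬ Fit n x.1 x.2.1 x.2.2 := by
  have d : ∀ n < 64, 4 ≤ n → ∀ x ∈ excData, ¬ Fit n x.1 x.2.1 x.2.2 := by
    decide +kernel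
  exact d n hl hn

theorem JData.lin (J : JData k h a c n (p ^ f)) (P : Pu n (p ^ f)) (hp : p.Prime) (hf : 0 < f)
    (hu : IsPrimePow u) (hm : 2 ≤ m) (hh : h * Nat.gcd m (u - 1) = ordSL m u) : False := by
  obtain ⟨v, g, hv, hg, rfl⟩ := (isPrimePow_nat_iff u).1 hu
  obtain ⟨rfl, e1, e2⟩ := J.same P hp hf (lt_A hv hg hm hh)
  obtain ⟨rfl, rfl⟩ := fit_A P.n4 P.lt hm e2
  obtain rfl : g = 2 * f := by
    rw [show Ty.U.top 4 = 3 from rfl] at e1
    omega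
  obtain ⟨r, hr⟩ := zsig hp.two_le (show 3 ≤ f * 3 by omega) fun e => by
    have := P.gap (a := 2) (e := 1) (by norm_num)
    rw [e.1, show f = 2 by omega, pow_one] at this
    exact lt_irrefl _ this
  have d1 : r ∣ (v ^ (2 * f)) ^ 3 - 1 := by
    rw [← pow_mul, hr.dvd_iff hp.pos (by omega)]
    exact ⟨2, by ring⟩
  have d3 : r ∣ ordSL 3 (v ^ (2 * f)) := (d1.trans (dvd_prod_of_mem
    (fun i => (v ^ (2 * f)) ^ i - 1) (mem_Icc.2 ⟨by omega, le_rfl⟩))).mul_left _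
  have d2 : r ∣ h := (hr.pr.dvd_mul.1 (hh ▸ d3)).resolve_right fun e =>
    hr.min (2 * f) (by omega) (by omega) (e.trans (Nat.gcd_dvd_right _ _))
  have := J.ord_le P hr.pr d2
  rw [Prim.ord_dg (j := 6) (hr.pow hp.pos hf three_pos) (pow_pos hp.pos f) (by norm_num)] at this
  omega

theorem h4_ppart (hp : p.Prime) (hf : 0 < f) (hh : OrdU m (p ^ f : ℕ) h) :
    p ^ h.factorization p ≤ (p ^ f) ^ (m * (m - 1) / 2) := by
  have q1 : 1 ≤ p ^ f := pow_pos hp.pos f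
  have d : h ∣ ordSU m (p ^ f) := by
    rw [← Int.natCast_dvd_natCast, ordSU, Nat.cast_mul, Nat.cast_pow, Nat.cast_prod]
    simp only [fu_cast q1]
    exact Dvd.intro _ hh
  refine Nat.le_of_dvd (pow_pos q1 _) (((hp.coprime_iff_not_dvd.2 fun e => ?_).pow_left
    _).dvd_of_dvd_mul_right ((Nat.ordProj_dvd h p).trans d))
  obtain ⟨i, h1, h2⟩ := hp.prime.exists_mem_finset_dvd e
  rw [dvd_fu q1, ord_p hp (dvd_pow_self p hf.ne'), zero_dvd_iff] at h2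
  have := (mem_Icc.1 h1).1
  omega

theorem JData.uni (J : JData k h a c n (p ^ f)) (P : Pu n (p ^ f)) (hp : p.Prime) (hf : 0 < f)
    (hu : IsPrimePow u) (hm : 3 ≤ m) (hh : OrdU m u h) : m = n ∧ u = p ^ f := by
  obtain ⟨v, g, hv, hg, rfl⟩ := (isPrimePow_nat_iff u).1 hu
  obtain ⟨rfl, e1, e2⟩ := J.same P hp hf (lt_2A hv hg hm hh)
  have e3 := fit_2A P.n4 P.lt hm e2
  have e4 : (if m % 2 = 1 then 2 * m else 2 * (m - 1)) = 2 * Ty.U.top n := by
    simp only [Ty.top]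
    split_ifs <;> omega
  obtain rfl : g = f := Nat.eq_of_mul_eq_mul_right
    (show 0 < 2 * Ty.U.top n by have := (dg_fin n P.lt P.n4).2.2.2.2; omega) (e4 ▸ e1)
  refine ⟨e3.resolve_right ?_, rfl⟩
  rintro ⟨rfl, e5⟩
  obtain ⟨r, -, h1, h2⟩ := P.ex hp hg (Or.inl rfl)
  have q1 : 1 < v ^ g := P.q2
  have h3 := (J.ppart P hp hg h2).2.trans (Nat.mul_le_mul_right _ (h4_ppart hp hg hh))
  rw [Nat.triangle_succ, pow_add] at h3
  have h4 := Nat.le_of_mul_le_mul_left h3 (pow_pos (by omega) _)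
  have h5 : dg (m + 1) = (m + 1) / 2 := by rw [dg, if_neg (by omega), if_pos e5]
  have h6 := Nat.le_of_dvd (Nat.sub_pos_of_lt (Nat.one_lt_pow (by omega) q1)) h1.dvd
  have h7 : (v ^ g) ^ dg (m + 1) ≤ (v ^ g) ^ m := Nat.pow_le_pow_right q1.le (by omega)
  have h8 := h1.pr.pos
  omega

theorem JData.sym (J : JData k h a c n (p ^ f)) (P : Pu n (p ^ f)) (hp : p.Prime) (hf : 0 < f)
    (hu : IsPrimePow u) (hm : 2 ≤ m) : ¬ OrdB m u h := fun hh => by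
  obtain ⟨v, g, hv, hg, rfl⟩ := (isPrimePow_nat_iff u).1 hu
  exact fit_B P.n4 P.lt hm (J.same P hp hf (lt_B hv hg hm hh)).2.2

theorem JData.dp (J : JData k h a c n (p ^ f)) (P : Pu n (p ^ f)) (hp : p.Prime) (hf : 0 < f)
    (hu : IsPrimePow u) (hm : 4 ≤ m) : ¬ OrdD 1 m u h := fun hh => by
  obtain ⟨v, g, hv, hg, rfl⟩ := (isPrimePow_nat_iff u).1 hu
  exact fit_D P.n4 P.lt hm (J.same P hp hf (lt_D hv hg hm hh)).2.2

theorem JData.dm (J : JData k h a c n (p ^ f)) (P : Pu n (p ^ f)) (hp : p.Prime) (hf : 0 < f)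
    (hu : IsPrimePow u) (hm : 4 ≤ m) : ¬ OrdD (-1) m u h := fun hh => by
  obtain ⟨v, g, hv, hg, rfl⟩ := (isPrimePow_nat_iff u).1 hu
  simp only [OrdD, sub_neg_eq_add] at hh
  exact fit_2D P.n4 P.lt hm (J.same P hp hf (lt_2D hv hg hm hh)).2.2

theorem JData.exc (J : JData k h a c n (p ^ f)) (P : Pu n (p ^ f)) (hp : p.Prime) (hf : 0 < f)
    (hu : IsPrimePow u) : ¬ ExcOrd u h := fun hh => by
  obtain ⟨v, g, hv, hg, rfl⟩ := (isPrimePow_nat_iff u).1 hu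
  obtain ⟨x, hx, L⟩ : ∃ x ∈ excData, LT h v g x.1 x.2.1 x.2.2 := by
    rcases hh with e | e | e | e | e | e | e
    · exact lt_exc1 hv hg rfl (Or.inl e)
    · exact lt_exc1 hv hg rfl (Or.inr (Or.inl e))
    · exact lt_exc1 hv hg rfl (Or.inr (Or.inr (Or.inl e)))
    · exact lt_exc2 hv hg rfl (Or.inl e)
    · exact lt_exc1 hv hg rfl (Or.inr (Or.inr (Or.inr (Or.inl e))))
    · exact lt_exc1 hv hg rfl (Or.inr (Or.inr (Or.inr (Or.inr e))))
    · exact lt_exc2 hv hg rfl (Or.inr e)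
  exact fit_exc P.n4 P.lt x hx (J.same P hp hf L).2.2

theorem h5_fin : ∀ n < 64, 4 ≤ n → 400 * (n * n) < 2000 * (n * (n - 1) / 2) ∧
    n * n - 1 ≤ n * (n - 1) / 2 * 3 := by
  decide +kernel

theorem JData.big (J : JData k h a c n (p ^ f)) (P : Pu n (p ^ f)) (hp : p.Prime) (hf : 0 < f) :
    ∃ i r, r.Prime ∧ r ∣ h ∧ p ^ i ∣ h ∧ 0 < h ∧ 2 ^ 400 < p ^ i * r ∧
      h ≤ 2 ^ 64 * (p ^ i * r) ^ 3 := by
  obtain ⟨r, -, -, hr⟩ := P.ex hp hf (.inl rfl)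
  obtain ⟨e1, e2⟩ := h5_fin n P.lt P.n4
  have h0 := ordSU_pos P.q2 n
  have hd : h ∣ ordSU n (p ^ f) := J.card ▸ ((dvd_mul_left h k).mul_right a).mul_right c
  have h1 : (p ^ f) ^ (n * (n - 1) / 2) ≤ p ^ h.factorization p * r :=
    (J.ppart P hp hf hr).2.trans (Nat.mul_le_mul_left _ (Nat.sub_le _ _))
  refine ⟨_, r, hr.pr, J.all n r hr, Nat.ordProj_dvd h p, Nat.pos_of_dvd_of_pos hd h0,
    (P.gap e1).trans_le h1, (Nat.le_of_dvd h0 hd).trans
      ((ordSU_bd P.q2 (by have := P.n4; omega)).2.trans (Nat.mul_le_mul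
        (Nat.pow_le_pow_right two_pos P.lt.le) ?_))⟩
  refine (Nat.pow_le_pow_right (pow_pos hp.pos f) e2).trans ?_
  rw [pow_mul]
  exact Nat.pow_le_pow_left h1 3

theorem JData.spor (J : JData k h a c n (p ^ f)) (P : Pu n (p ^ f)) (hp : p.Prime) (hf : 0 < f) :
    h ∉ sporOrd := fun hh => by
  obtain ⟨i, r, -, h1, h2, h0, h3, -⟩ := J.big P hp hf
  have h4 := (not_big_spor_aux1 h hh).2.2.le
  have h5 := h3.trans_le (Nat.mul_le_mul ((Nat.le_of_dvd h0 h2).trans h4)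
    ((Nat.le_of_dvd h0 h1).trans h4))
  rw [← pow_add, Nat.pow_lt_pow_iff_right one_lt_two] at h5
  exact absurd h5 (by decide)

theorem h5_ind (hm : 200 ≤ m) : 2 * (2 ^ 64 * (2 ^ m * m) ^ 3) < m.factorial := by
  induction m, hm using Nat.le_induction with
  | base => decide +kernel
  | succ m hm ih =>
    have h1 : 8 * (m + 1) ^ 2 ≤ m ^ 3 := by nlinarith [Nat.mul_le_mul_right (m * m) hm]
    calc 2 * (2 ^ 64 * (2 ^ (m + 1) * (m + 1)) ^ 3)
        = (m + 1) * (2 * (2 ^ 64 * ((2 ^ m) ^ 3 * (8 * (m + 1) ^ 2)))) := by ring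
      _ ≤ (m + 1) * (2 * (2 ^ 64 * ((2 ^ m) ^ 3 * m ^ 3))) := by gcongr
      _ < _ := by
        rw [Nat.factorial_succ, ← mul_pow]
        gcongr

theorem JData.alt (J : JData k h a c n (p ^ f)) (P : Pu n (p ^ f)) (hp : p.Prime) (hf : 0 < f) :
    2 * h ≠ m.factorial := fun hh => by
  obtain ⟨i, r, hr, h1, h2, -, h3, h4⟩ := J.big P hp hf
  have := Fact.mk hp
  have hd : h ∣ m.factorial := hh ▸ dvd_mul_left h 2
  have h7 := hr.dvd_factorial.1 (h1.trans hd)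
  have h8 : (p - 1) * i ≤ m := (Nat.mul_le_mul_left _ ((padicValNat_dvd_iff_le
    m.factorial_ne_zero).1 (h2.trans hd))).trans
      ((sub_one_mul_padicValNat_factorial m).trans_le (Nat.sub_le _ _))
  have e : p ^ i ≤ 2 ^ m := (Nat.pow_le_pow_left (show p ≤ 2 ^ (p - 1) by
    have := @Nat.lt_two_pow_self (p - 1); omega) i).trans
      (pow_mul 2 _ i ▸ Nat.pow_le_pow_right two_pos h8)
  have h5 := h3.trans_le (Nat.mul_le_mul e (h7.trans Nat.lt_two_pow_self.le))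
  rw [← pow_add, Nat.pow_lt_pow_iff_right one_lt_two] at h5
  clear h3
  refine (h5_ind (by omega : 200 ≤ m)).not_ge (hh ▸ Nat.mul_le_mul_left 2 (h4.trans ?_))
  gcongr

end Pool.Agent.Lib.MP_7d41f7_al
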