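import Pool.Agent.Lib.MP_7d41f7_al.D.USA

/-! Hermitian forms: the centraliser of an element of one of the two top classes. -/

set_option autoImplicit false

namespace Pool.Agent.Lib.MP_7d41f7_al

open Module

variable {F V : Type} [Field F] [Finite F] {P : Sca F} [AddCommGroup V] [Module F V] [Finite V]
  {Φ : Frm P V}

namespace Frm

variable {n r u : ℕ} {Γ : Type} [Group Γ] {x y z : V ≃ₗ[F] V}

/-- `x` is an isometry of prime order `r` of one of the two top classes. -/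
structure Top (Φ : Frm P V) (n r : ℕ) (x : V ≃ₗ[F] V) : Prop where
  ty : Φ.IsTy .U n
  pr : r.Prime
  j3 : 2 < P.j r
  le : n ≤ P.j r + 1
  iso : x ∈ Φ.Iso
  pw : x ^ r = 1
  ne : x ≠ 1

omit [Finite F] [Finite V] in
theorem Top.kd (h : Φ.Top n r x) : P.k = .U := h.ty.kd.symm

omit [Finite V] in
theorem Top.cast (h : Φ.Top n r x) : (r : F) ≠ 0 := P.cast_ne h.pr (by have := h.j3; omega)

theorem Top.mv_ty (h : Φ.Top n r x) : (Φ.res (mv x)).IsTy .U (P.j r) := by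
  have := h.j3
  have := h.le
  obtain ⟨s, hs, -⟩ := Frm.mv_ty h.ty h.iso h.pr (bg_of h.j3) (by omega) h.pw h.ne
  obtain rfl : s = .U := by
    have := hs.kd.trans h.kd
    cases s <;> simp [Ty.kd] at this ⊢
  exact hs

theorem Top.scal (h : Φ.Top n r x) (hy : y ∈ Φ.Iso) (hc : Commute x y) :
    finrank F (fx x) ≤ 1 ∧ ∃ c : F, c * P.σ c = 1 ∧ ∀ v ∈ fx x, y v = c • v := by
  have h1 := finrank_mv_fx x
  have h2 : finrank F (mv x) = P.j r := h.mv_ty.dim
  have h3 : finrank F V = n := h.ty.dim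
  have h4 := h.le
  have hd : finrank F (fx x) ≤ 1 := by omega
  refine ⟨hd, ?_⟩
  obtain ⟨v, hv⟩ := finrank_le_one_iff.1 hd
  obtain ⟨c, hc'⟩ := hv ⟨y v, stb_fx hc v v.2⟩
  have e : y v = c • (v : V) := (congrArg Subtype.val hc').symm
  have hw : ∀ w ∈ fx x, ∃ a : F, w = a • (v : V) := fun w hw => by
    obtain ⟨a, ha⟩ := hv ⟨w, hw⟩
    exact ⟨a, (congrArg Subtype.val ha).symm⟩
  by_cases h0 : Φ.B v v = 0
  · refine ⟨1, by rw [map_one, one_mul], fun w hw' => ?_⟩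
    have h5 : (v : V) = 0 := Φ.res_nd.1 (nd_fx h.ty.nd h.iso h.pw h.cast) v v.2 fun w hw' => by
      obtain ⟨a, rfl⟩ := hw w hw'
      rw [B_smul, h0, mul_zero]
    obtain ⟨a, rfl⟩ := hw w hw'
    rw [h5, smul_zero, map_zero, smul_zero]
  · refine ⟨c, ?_, fun w hw' => ?_⟩
    · have h5 := hy.1 v v
      rw [e, smul_B, B_smul, ← mul_assoc] at h5
      exact mul_right_cancel₀ h0 (h5.trans (one_mul _).symm)
    · obtain ⟨a, rfl⟩ := hw w hw'
      rw [map_smul, e, smul_comm]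

theorem s4_res (h : Φ.Top n r x) : ∃ x' : mv x ≃ₗ[F] mv x, (∀ w : mv x, (x' w : V) = x w) ∧
    ∀ g ∈ (Φ.res (mv x)).Iso, Commute x' g → ∀ v, v ≠ 0 → g v = v → g = 1 := by
  obtain ⟨x', hx', e⟩ := exists_res h.iso (stb_mv (Commute.refl x))
  exact ⟨x', e, fun g hg hc v hv h1 => free_U h.kd h.mv_ty.nd h.pr h.j3 h.mv_ty.dim hx'
    (fbcd_pow e h.pw) (fun w hw => Subtype.ext (fadja_dis h.pw h.cast w w.2
      ((e w).symm.trans (congrArg Subtype.val hw)))) hg hc hv h1⟩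

theorem Top.free (h : Φ.Top n r x) (hy : y ∈ Φ.Iso) (hc : Commute x y) :
    (∀ w ∈ mv x, y w = w) ∨ ∀ w ∈ mv x, y w = w → w = 0 := by
  obtain ⟨x', e, hf⟩ := s4_res h
  obtain ⟨y', hy', e'⟩ := exists_res hy (stb_mv hc)
  by_cases h1 : y' = 1
  · refine Or.inl fun w hw => ?_
    rw [← e' ⟨w, hw⟩, h1]
    rfl
  · refine Or.inr fun w hw h2 => ?_
    by_contra h0
    exact h1 (hf y' hy' (fbcd_comm e e' hc) ⟨w, hw⟩ (fun h3 => h0 (congrArg Subtype.val h3))
      (Subtype.ext ((e' _).trans h2)))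

theorem Top.eq_one (h : Φ.Top n r x) (h1 : ∀ v ∈ fx x, y v = v) (h2 : ∀ v ∈ mv x, y v = v) :
    y = 1 := by
  refine LinearEquiv.ext fun v => ?_
  obtain ⟨a, ha, b, hb, rfl⟩ := Submodule.mem_sup.1
    ((compl_fx h.pw h.cast).sup_eq_top.ge (Submodule.mem_top (x := v)))
  rw [map_add, h1 a ha, h2 b hb]
  rfl

omit [Finite F] [Finite V] in
theorem s4_pow {c : F} {v : V} (h : y v = c • v) (k : ℕ) : (y ^ k) v = c ^ k • v := by
  induction k with
  | zero => simp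
  | succ k ih => rw [pow_succ, LinearEquiv.mul_apply, h, map_smul, ih, smul_smul, pow_succ']

theorem Top.adj (h : Φ.Top n r x) (hu : u.Prime) (hy : y ∈ Φ.Iso) (hc : Commute x y)
    (h1 : y ^ u = 1) (h0 : y ≠ 1) : P.j u ∣ P.j r := by
  have hj : P.j u = Ord (-(P.q : ℤ)) u := by simp only [Sca.j, h.kd, Kd.bs]
  by_cases hq : u ∣ P.q + 1
  · have h2 : Ord (-(P.q : ℤ)) u ∣ 1 := (Ord.dvd_iff 1).1 (by
      rw [pow_one, ← dvd_neg]
      simpa [add_comm] using Int.natCast_dvd_natCast.2 hq)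
    exact (hj ▸ h2).trans (one_dvd _)
  obtain ⟨-, c, hn, hv⟩ := h.scal hy hc
  have h2 : ∀ v ∈ fx x, y v = v := fun v hv' => by
    by_cases h3 : v = 0
    · rw [h3, map_zero]
    have h4 := s4_pow (hv v hv') u
    rw [h1] at h4
    have h5 : c ^ u = 1 := smul_left_injective F h3 (h4.symm.trans (one_smul F v).symm)
    rw [P.σU h.kd, ← pow_succ'] at hn
    have h6 : c = 1 := (pow_eq_one_iff_of_coprime ((Nat.Prime.coprime_iff_not_dvd hu).2 hq)).1
      ⟨h5, hn⟩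
    rw [hv v hv', h6, one_smul]
  obtain ⟨x', e, hf⟩ := s4_res h
  obtain ⟨y', hy', e'⟩ := exists_res hy (stb_mv hc)
  have h3 : y' ≠ 1 := fun h3 => h0 (h.eq_one h2 fun w hw => by
    rw [← e' ⟨w, hw⟩, h3]
    rfl)
  have ho : orderOf y' = u := haveI := Fact.mk hu; orderOf_eq_prime (fbcd_pow e' h1) h3
  have hl : Subgroup.zpowers y' ≤ (Φ.res (mv x)).Iso := (Subgroup.zpowers_le_of_mem hy')
  have h4 := free_dvd_U h.mv_ty (by have := h.j3; omega) (Subgroup.zpowers y') hl fun g hg => by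
    refine hf g (hl hg) ?_
    obtain ⟨k, rfl⟩ := Subgroup.mem_zpowers_iff.1 hg
    exact (fbcd_comm e e' hc).zpow_right k
  rw [Nat.card_zpowers, ho] at h4
  rw [hj]
  exact (Ord.dvd_iff _).1 (h4.trans (neg_pow_sub _ _).dvd)

theorem Top.not_neg (h : Φ.Top n r x) (ho : P.j r % 2 = 1) (h4 : P.q % 4 = 1) (hz : z ∈ Φ.Iso)
    (hc : Commute x z) : ¬ ∀ v, z (z v) = -v := fun hn => by
  obtain ⟨g, hg, e⟩ := exists_res hz (stb_mv hc)
  have h1 := det_norm h.mv_ty.nd hg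
  have h2 : (g : mv x →ₗ[F] mv x) ∘ₗ (g : mv x →ₗ[F] mv x) = (-1 : F) • LinearMap.id :=
    LinearMap.ext fun w => Subtype.ext (by simp [e, hn])
  have h3 := congrArg LinearMap.det h2
  rw [LinearMap.det_comp, LinearMap.det_smul, LinearMap.det_id, mul_one, h.mv_ty.dim,
    (show Odd (Ty.U.dim (P.j r)) from Nat.odd_iff.2 ho).neg_one_pow] at h3
  rw [P.σU h.kd, ← pow_succ', show P.q + 1 = 2 * (2 * (P.q / 4) + 1) by omega, pow_mul, pow_two,
    h3, (odd_two_mul_add_one _).neg_one_pow] at h1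
  exact P.two_ne.2 (Nat.odd_iff.2 (by omega)) (by linear_combination -h1)

theorem Top.invol (h : Φ.Top n r x) (ho : P.j r % 2 = 1) (h2 : (2 : F) ≠ 0) (hz : z ∈ Φ.Iso)
    (hc : Commute x z) (h1 : z ^ 2 = 1) (hd : LinearMap.det (z : V →ₗ[F] V) = 1) :
    (∀ v, z v = v) ∨ ∀ v, z v = -v := by
  have := Module.Finite.of_finite (R := F) (M := V)
  rw [det_invol h2 h1, neg_one_pow_eq_one_iff_even fun e => h2 (by linear_combination -e),
    Nat.even_iff] at hd
  refine (h.free hz hc).imp (fun k v => ?_) fun k v => ?_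
  · have h3 : mv z ≤ fx x := fun w hw => by
      obtain ⟨w, rfl⟩ := mem_mv.1 hw
      obtain ⟨a, ha, b, hb, rfl⟩ := Submodule.mem_sup.1
        ((compl_fx h.pw h.cast).sup_eq_top.ge (Submodule.mem_top (x := w)))
      rw [map_add, k b hb, add_sub_add_right_eq_sub]
      exact sub_mem (stb_fx hc a ha) ha
    have h4 := (Submodule.finrank_mono h3).trans (h.scal hz hc).1
    have h5 : mv z = ⊥ := Submodule.finrank_eq_zero.1 (by omega)
    exact sub_eq_zero.1 ((Submodule.eq_bot_iff _).1 h5 _ (mem_mv.2 ⟨v, rfl⟩))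
  · have zz : ∀ w, z (z w) = w := fun w => by
      rw [← LinearEquiv.mul_apply, ← pow_two, h1]
      rfl
    have h3 : mv x ≤ mv z := fun w hw => by
      have e := eq_neg_of_add_eq_zero_left (k _ (add_mem (stb_mv hc w hw) hw)
        (by rw [map_add, zz, add_comm]))
      refine mem_mv.2 ⟨-(2⁻¹ : F) • w, ?_⟩
      rw [map_smul, e, ← smul_sub, ← neg_add', ← two_smul F w, neg_smul_neg, inv_smul_smul₀ h2]
    have h4 := Submodule.finrank_mono h3
    have h5 : finrank F (mv x) = P.j r := h.mv_ty.dim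
    have h6 : finrank F V = n := h.ty.dim
    have h7 := h.le
    have h8 := Submodule.finrank_le (mv z)
    exact fbca_mv_neg h1 ((Submodule.eq_top_of_finrank_eq (by omega)).ge (Submodule.mem_top))

omit [Finite F] [Finite V] in
theorem s5_pow {c : F} (h : ∀ v, y v = c • v) (k : ℕ) (v : V) : (y ^ k) v = c ^ k • v := by
  induction k with
  | zero => simp
  | succ k ih => rw [pow_succ', LinearEquiv.mul_apply, ih, h, smul_smul, pow_succ']

theorem two_su (hT : Φ.IsTy .U n) (R : Φ.Rep Γ) (hR : R.Sp) (hC : Φ.Cen) (hr : r.Prime)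
    (h3 : 2 < P.j r) (hl : n ≤ P.j r + 1) (ho : P.j r % 2 = 1) (h4 : P.q % 4 = 1) :
    ¬ Adj (PQ Γ) 2 r := by
  rintro ⟨g, hg⟩
  obtain ⟨g, rfl⟩ := QuotientGroup.mk_surjective g
  have := R.finite
  have key : ∀ k, g ^ k ∈ Subgroup.center Γ ↔ 2 * r ∣ k := fun k => by
    rw [← hg, orderOf_dvd_iff_pow_eq_one, ← QuotientGroup.mk_pow, QuotientGroup.eq_one_iff]
  have d : r ∣ orderOf g := (dvd_mul_left r 2).trans
    ((key _).1 (by rw [pow_orderOf_eq_one]; exact one_mem _))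
  have ox : orderOf (R.ι (g ^ (orderOf g / r))) = r := by
    rw [orderOf_injective R.ι R.inj, orderOf_pow_orderOf_div (orderOf_pos g).ne' d]
  have T : Φ.Top n r (R.ι (g ^ (orderOf g / r))) := ⟨hT, hr, h3, hl, R.le ⟨_, rfl⟩,
    orderOf_dvd_iff_pow_eq_one.1 ox.dvd, fun e => hr.one_lt.ne (by rw [← ox, e, orderOf_one])⟩
  obtain ⟨c, c1, c2⟩ := Rep.center' hC R ((key _).2 dvd_rfl)
  obtain ⟨e, he⟩ : ∃ e, P.q + 1 = (2 * e + 1) * 2 := ⟨P.q / 4, by omega⟩
  rw [P.σU T.kd, ← pow_succ', he, pow_mul, sq_eq_one_iff] at c1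
  have hz : R.ι (g ^ (r * (2 * e + 1))) ∈ Φ.Iso := R.le ⟨_, rfl⟩
  have hc : Commute (R.ι (g ^ (orderOf g / r))) (R.ι (g ^ (r * (2 * e + 1)))) :=
    (Commute.pow_pow_self g _ _).map R.ι
  have sq : ∀ v, (R.ι (g ^ (r * (2 * e + 1))) ^ 2) v = c ^ (2 * e + 1) • v := fun v => by
    rw [← s5_pow c2, ← map_pow, ← map_pow, ← pow_mul, ← pow_mul, mul_right_comm, mul_comm r 2]
  rcases c1 with c1 | c1
  · have := T.invol ho (P.two_ne.2 (Nat.odd_iff.2 (by omega))) hz hc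
      (LinearEquiv.ext fun v => by rw [sq, c1, one_smul]; rfl) ((hR _ hz).1 ⟨_, rfl⟩)
    have := (key _).1 (Subgroup.mem_center_iff.2 fun a => R.inj (LinearEquiv.ext fun v => by
      rw [map_mul, map_mul, LinearEquiv.mul_apply, LinearEquiv.mul_apply]
      rcases this with k | k
      · rw [k, k]
      · rw [k, k, map_neg]))
    rw [mul_comm 2 r, Nat.mul_dvd_mul_iff_left hr.pos] at this
    omega
  · exact T.not_neg ho h4 hz hc fun v => by
      rw [← LinearEquiv.mul_apply, ← pow_two, sq, c1, neg_one_smul]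

theorem adj_su (hT : Φ.IsTy .U n) (R : Φ.Rep Γ) (hr : r.Prime) (h3 : 2 < P.j r)
    (hl : n ≤ P.j r + 1) (hu : u.Prime) (h : Adj (PQ Γ) u r) : P.j u ∣ P.j r := by
  obtain ⟨x, hx, y, hy, hc, h1, h0, h2, h4⟩ := R.lift2 hr hu h
  exact Top.adj ⟨hT, hr, h3, hl, hx, h1, h0⟩ hu hy hc h2 h4

end Frm

end Pool.Agent.Lib.MP_7d41f7_al
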