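import Pool.Agent.Lib.MP_7d41f7_al.D.UG
import Pool.Agent.Lib.MP_7d41f7_al.D.UH
import Pool.Agent.Lib.MP_7d41f7_al.D.USB
import Pool.Agent.Lib.MP_7d41f7_al.D.SEx
import Pool.Agent.Lib.MP_7d41f7_al.C.CFin

/-! The section of a group with the data of a unitary group of small dimension. -/

set_option autoImplicit false

namespace Pool.Agent.Lib.MP_7d41f7_al

open Subgroup

variable {G : Type} [Group G] [Finite G] {n p f q m m' c : ℕ}

/-- The condition on the primes that are adjacent to the class `m`. -/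
def UD (q m u : ℕ) : Prop := Ord (-(q : ℤ)) u ∣ m ∧ (u = 2 → m % 2 = 1 → q % 4 ≠ 1)

omit [Finite G] in
theorem UData.cls (h : UData G n (p ^ f)) (P : Pu n (p ^ f)) (hp : p.Prime) (hf : 0 < f)
    (hc : Nat.card G * c = ordSU n (p ^ f)) (hz : c ∣ p ^ f + 1) (e : m + 1 = m' ∨ m' + 1 = m) :
    Cls G (UC n (p ^ f) m) (UD (p ^ f) m) (UD (p ^ f) m') := fun r hr => by
  have n4 := P.n4
  have hm := hr.top
  have a : ∀ u, u.Prime → u ≠ r → Adj G u r → UD (p ^ f) m u := fun u hu ne ad =>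
    ⟨h.adj m r u hr hu ne ad, fun e1 e2 e3 => h.two m r hr e2 e3 (e1 ▸ ad)⟩
  obtain ⟨u, hu, u1, u2⟩ := hr.tight P hp hf hc hz
  have ne : u ≠ r := fun e => u1 (e ▸ hr.ord.dvd)
  refine ⟨hr.pr, hr.dvd P hc hz, h.cyc m r hr, ⟨u, hu, ne, fun ad => u1 (a u hu ne ad).1, u2⟩,
    ⟨hr.ord.dvd, fun e => absurd e (Ord.ne_two (hr.ord.symm ▸ (by omega : 1 < m)))⟩, fun d => ?_, a⟩
  have d := hr.ord ▸ d.1
  rcases e with rfl | rfl
  · have := Nat.le_of_dvd one_pos ((Nat.dvd_add_right dvd_rfl).1 d)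
    omega
  · have := Nat.le_of_dvd (by omega) d
    omega

theorem umain (hp : p.Prime) (hf : 0 < f) (P : Pu n (p ^ f)) (h : UData G n (p ^ f)) :
    ∃ (K : Subgroup G) (_ : K.Normal) (H : Subgroup (G ⧸ K)), H.Normal ∧ IsSimpleGroup H ∧
      ¬ IsMulCommutative H ∧ centralizer (H : Set (G ⧸ K)) = ⊥ ∧ HOut H .U n (p ^ f) := by
  have q2 := P.q2
  have n4 := P.n4
  have n1 : n - 1 + 1 = n := by omega
  obtain ⟨c, hc, cn, cq⟩ := h.card
  have hc : Nat.card G * c = ordSU n (p ^ f) := by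
    rw [ordU_eq (by omega) (by omega)] at hc
    exact_mod_cast mul_right_cancel₀ (by positivity) hc
  obtain ⟨r, r1, -, hr⟩ := P.ex hp hf (.inl rfl)
  obtain ⟨s, s1, -, hs⟩ := P.ex hp hf (.inr n1)
  have c1 := h.cls (m := n) (m' := n - 1) P hp hf hc cq (.inr n1)
  have c2 := h.cls (m := n - 1) (m' := n) P hp hf hc cq (.inl n1)
  have pq := dvd_pow_self p hf.ne'
  have pp := P.ppart hp hf hc cq
  have np : ∀ m, 0 < m → ¬ UD (p ^ f) m p := fun m hm e =>
    hm.ne' (Nat.eq_zero_of_zero_dvd (ord_p hp pq ▸ e.1))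
  obtain ⟨K, _, H, h0, h1, h2, h3, h4, h5⟩ := two_cls c1 c2 hp (np _ (by omega)) (np _ (by omega))
    hr hs (fun k e1 e2 e3 => P.free hp hf r1 s1 e1 e2
      (pp ▸ (hp.pow_dvd_iff_le_factorization Nat.card_pos.ne').1 e3)) fun v k hv ne e => by
      rw [pp, pow_mul]
      exact P.sec hv (fun d => ne ((Nat.prime_dvd_prime_iff_eq hv hp).1 (hv.dvd_of_dvd_pow d)))
        (e.trans (Dvd.intro _ hc))
  have al : ∀ m r, UC n (p ^ f) m r → r ∣ Nat.card H := fun m r e => h5 r (e.top.imp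
    (fun a : m = n => a ▸ e) fun a : m + 1 = n => (show m = n - 1 by omega) ▸ e)
  have J : JData (Nat.card K) (Nat.card H) H.index c n (p ^ f) := by
    refine ⟨by rw [mul_assoc (Nat.card K), H.card_mul_index, mul_comm (Nat.card K),
      ← card_eq_card_quotient_mul_card_subgroup, hc], Nat.le_of_dvd (by omega) cn, cq,
      fun u hu e => slk_of (m := n - 1) (by omega) (n1.symm ▸ (h4 u hu e).1) (h4 u hu e).2, al,
      fun m r e => ?_⟩
    exact (h.cls (m' := m + 1) P hp hf hc cq (.inl rfl)).top e H (al m r e)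
  refine ⟨K, inferInstance, H, h0, h1, h2, h3, fun m => ⟨fun φ => ?_⟩, fun m F _ _ => ⟨fun φ => ?_⟩,
    fun m u a b e => ⟨rfl, J.uni P hp hf a b e⟩, fun m u a b e => (J.sym P hp hf a b e).elim,
    fun m u a b e => (J.dp P hp hf a b e).elim, fun m u a b e => (J.dm P hp hf a b e).elim,
    fun u => J.exc P hp hf, J.spor P hp hf⟩
  · rcases subsingleton_or_nontrivial (Fin m) with a | a
    · have := φ.injective.subsingleton
      exact false_of_nontrivial_of_subsingleton H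
    refine J.alt (m := m) P hp hf ?_
    rw [Nat.card_congr φ.toEquiv, two_mul_nat_card_alternatingGroup, Nat.card_perm, Nat.card_fin]
  · have hm : 2 ≤ m := by
      by_contra hm
      have := pl_small (F := F) (not_le.1 hm)
      have := φ.injective.subsingleton
      exact false_of_nontrivial_of_subsingleton H
    have := Fintype.ofFinite F
    obtain ⟨g, hv, hg⟩ := FiniteField.card F (ringChar F)
    rw [← Nat.card_eq_fintype_card] at hg
    exact J.lin P hp hf (hg ▸ hv.prime.isPrimePow.pow g.ne_zero) hm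
      (by rw [Nat.card_congr φ.toEquiv]; exact card_PL (by omega))

theorem Pu.cen (P : Pu n q) : 7 ≤ n ∨ 4 ≤ q := by
  by_contra h
  have := Nat.mul_le_mul (by omega : n ≤ 6) (by omega : n ≤ 6)
  exact (P.gap (a := 2) (e := 1) (by omega)).not_ge (by rw [pow_one]; omega)

variable {F V : Type} [Field F] [Finite F] {S : Sca F} [AddCommGroup V] [Module F V] [Finite V]
  {Φ : Frm S V} {Γ : Type} [Group Γ]

/-- The data of the unitary group pass to a group with the same order and vanishing orders. -/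
theorem Frm.udata (hT : Φ.IsTy .U n) (P : Pu n S.q) (R : Φ.Rep Γ) (hR : R.Sp)
    (hc : Nat.card G = Nat.card (PQ Γ)) (hV : Vo G = Vo (PQ Γ)) : UData G n S.q := by
  have := R.finite
  have n4 := P.n4
  have hC : Φ.Cen := Frm.cen_of hT.nd (P.cen.imp (fun a => hT.dim ▸ a) fun a =>
    ⟨by rw [← hT.kd]; simp [Ty.kd], hT.dim ▸ (by omega : 3 ≤ n), a⟩)
  have e : ∀ r, S.j r = Ord (-(S.q : ℤ)) r := fun r => by rw [Sca.j, ← hT.kd]; rfl
  have k : ∀ m r, UC n S.q m r → S.j r = m ∧ 2 < S.j r ∧ n ≤ S.j r + 1 ∧ Cyc (PQ Γ) r ∧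
      ∀ g : PQ Γ, r ∣ orderOf g → orderOf g ∈ Vo (PQ Γ) := fun m r h => by
    have a := (e r).trans h.ord
    have b := h.top
    obtain ⟨k, hk⟩ := vank_U (q := S.q) h.pr n4 (h.ord.symm ▸ b)
    exact ⟨a, by omega, by omega, Frm.cyc_U hT n4 R h.pr (by omega),
      Frm.van_k hT hC R h.pr (bg_of (by omega)) hk⟩
  refine ⟨hc ▸ Frm.card_su hT (by omega) R hR hC, fun m r h => ?_, fun m r u h hu ne a => ?_,
    fun m r h h1 h2 a => ?_⟩ <;> obtain ⟨a1, a2, a3, a4, a5⟩ := k m r h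
  · exact transfer_cyc h.pr hc hV a4 a5
  · rw [← e, ← a1]
    exact Frm.adj_su hT R h.pr a2 a3 hu
      ((transfer_adj h.pr ((Nat.coprime_primes hu h.pr).2 ne) hc hV a4 a5).1 a)
  · exact Frm.two_su hT R hR hC h.pr a2 a3 (a1 ▸ h1) h2 ((transfer_adj h.pr
      ((Nat.coprime_primes Nat.prime_two h.pr).2 (Ord.ne_two (lt_trans one_lt_two a2)).symm)
      hc hV a4 a5).1 a)

/-- The unitary groups of dimension `4 ≤ n < 64` over a large field. -/
theorem main_su' [StarRing F] (hq : Nat.card F = q ^ 2) (hs : ∃ a : F, star a ≠ a) (P : Pu n q)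
    (hc : Nat.card G = Nat.card (PQ (Matrix.specialUnitaryGroup (Fin n) F)))
    (hV : Vo G = Vo (PQ (Matrix.specialUnitaryGroup (Fin n) F))) :
    Nonempty (G ≃* PQ (Matrix.specialUnitaryGroup (Fin n) F)) ∨ Off G := by
  obtain ⟨S, Φ, R, hk, rfl, hn, hR⟩ := brg_su' n F hq hs
  obtain ⟨t, m, hT⟩ := Frm.exists_ty hn
  obtain rfl : t = .U := by
    have := hT.kd.trans hk
    cases t <;> simp [Ty.kd] at this ⊢
  obtain rfl : n = m := by simpa [Ty.dim] using hT.dim
  have h1 := Frm.udata hT P R hR hc hV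
  obtain ⟨p, f, hp, hf, e, -⟩ := S.pp
  rw [e] at h1 P
  obtain ⟨K, _, H, a1, a2, a3, a4, a5⟩ := umain hp hf P h1
  by_cases hl : OnList H
  · rcases a5.hit hl with ⟨-, F', _, _, _, hq', hs', ⟨b⟩⟩ | ⟨h, -⟩ | ⟨-, h⟩
    · obtain ⟨a⟩ := su_iso (n := n) hq' hs' (e ▸ hq) hs
      obtain ⟨d⟩ := brg_pq a
      exact .inl (iso_of_iso hc iso_of_card (b.trans d))
    · simp at h
    · simp at h
  · exact .inr ⟨K, _, H, a1, a2, a3, a4, hl⟩

end Pool.Agent.Lib.MP_7d41f7_al
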