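import Pool.Agent.Lib.MP_7d41f7_al.D.WDefs
import Pool.Agent.Lib.MP_7d41f7_al.C.Chr
import Pool.Agent.Lib.MP_7d41f7_al.C.AO

/-! The order of the isolated torus, and the transfer of the data. -/

set_option autoImplicit false

namespace Pool.Agent.Lib.MP_7d41f7_al

variable {b : ℤ} {q r : ℕ}

theorem wa_pos (hb : b = 1 ∨ b = -1 ∨ b = 0) (hq : 4 ≤ q) : 12 < tph b q := by
  have : (4 : ℤ) ≤ q := by exact_mod_cast hq
  rcases hb with rfl | rfl | rfl <;> unfold tph <;> nlinarith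

theorem wa_mul (hb : b = 1 ∨ b = -1 ∨ b = 0) (hq : 4 ≤ q) :
    (tm b q : ℤ) * tdd b q = tph b q := by
  have := wa_pos hb hq
  rw [tm, Int.toNat_of_nonneg (Int.ediv_nonneg (by omega) (by positivity))]
  exact Int.ediv_mul_cancel (Int.gcd_dvd_right _ _)

theorem wa_dd (b : ℤ) (q : ℕ) : (tdd b q : ℤ) ∣ 2 + b ^ 2 := Int.gcd_dvd_left _ _

theorem wa_one (hb : b = 1 ∨ b = -1 ∨ b = 0) (hq : 4 ≤ q) : 1 < tm b q := by
  have h1 := wa_mul hb hq
  have h2 := wa_pos hb hq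
  have h3 : (tdd b q : ℤ) ≤ 3 := (Int.le_of_dvd (by positivity) (wa_dd b q)).trans
    (by rcases hb with rfl | rfl | rfl <;> norm_num)
  by_contra h
  have : (tm b q : ℤ) ≤ 1 := by exact_mod_cast not_lt.1 h
  have : (0 : ℤ) ≤ tdd b q := by positivity
  nlinarith

theorem a1_sq (hb : b = 1 ∨ b = -1 ∨ b = 0) : ¬ (2 + b ^ 2) * (2 + b ^ 2) ∣ tph b q := by
  unfold tph
  generalize (q : ℤ) = x
  rcases hb with rfl | rfl | rfl <;> norm_num <;> intro h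
  · have : ∀ y : ZMod 9, y ^ 2 + y + 1 ≠ 0 := by decide
    exact this x (by exact_mod_cast (ZMod.intCast_zmod_eq_zero_iff_dvd _ 9).2 h)
  · have : ∀ y : ZMod 9, y ^ 2 + -y + 1 ≠ 0 := by decide
    exact this x (by exact_mod_cast (ZMod.intCast_zmod_eq_zero_iff_dvd _ 9).2 h)
  · have : ∀ y : ZMod 4, y ^ 2 + 1 ≠ 0 := by decide
    exact this x (by exact_mod_cast (ZMod.intCast_zmod_eq_zero_iff_dvd _ 4).2 h)

theorem wa_prime (hb : b = 1 ∨ b = -1 ∨ b = 0) (hq : 4 ≤ q) (hr : r.Prime) :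
    r ∣ tm b q ↔ (r : ℤ) ∣ tph b q ∧ (r : ℤ) ≠ 2 + b ^ 2 := by
  have h1 := wa_mul hb hq
  have hp : Prime (2 + b ^ 2) := by
    rcases hb with rfl | rfl | rfl <;> norm_num
  have hr' : Prime (r : ℤ) := Nat.prime_iff_prime_int.1 hr
  constructor
  · intro h
    replace h : (r : ℤ) ∣ tm b q := Int.natCast_dvd_natCast.2 h
    have h2 : (r : ℤ) ∣ tph b q := h1 ▸ h.mul_right _
    refine ⟨h2, fun e => a1_sq (q := q) hb ?_⟩
    rw [e] at h h2
    rw [← h1]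
    exact mul_dvd_mul h (Int.dvd_coe_gcd dvd_rfl h2)
  · rintro ⟨h2, h3⟩
    rw [← h1] at h2
    refine Int.natCast_dvd_natCast.1 ((hr'.dvd_or_dvd h2).resolve_right fun e => h3 ?_)
    exact Int.eq_of_associated_of_nonneg (hr'.associated_of_dvd hp (e.trans (wa_dd b q)))
      (by positivity) (by positivity)

theorem wa_not (hb : b = 1 ∨ b = -1 ∨ b = 0) (hq : 4 ≤ q) (hr : r.Prime) (h : r ∣ tm b q) :
    ¬ (r : ℤ) ∣ q * ((q : ℤ) ^ 2 - 1) := by
  obtain ⟨h1, h2⟩ := (wa_prime hb hq hr).1 h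
  have hr' : Prime (r : ℤ) := Nat.prime_iff_prime_int.1 hr
  have k : ¬ (r : ℤ) ∣ 2 + b ^ 2 := fun e => h2 <| by
    have hp : Prime (2 + b ^ 2) := by
      rcases hb with rfl | rfl | rfl <;> norm_num
    exact Int.eq_of_associated_of_nonneg (hr'.associated_of_dvd hp e)
      (by positivity) (by positivity)
  have k2 : (2 + b) ∣ 2 + b ^ 2 ∧ (2 - b) ∣ 2 + b ^ 2 := by
    rcases hb with rfl | rfl | rfl <;> norm_num
  intro e
  rw [show (q : ℤ) ^ 2 - 1 = (q - 1) * (q + 1) by ring] at e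
  unfold tph at h1
  rcases hr'.dvd_or_dvd e with e | e
  · refine k (dvd_trans ?_ (one_dvd _))
    have := h1.sub (e.mul_right (q + b))
    rwa [show (q : ℤ) ^ 2 + b * q + 1 - q * (q + b) = 1 by ring] at this
  rcases hr'.dvd_or_dvd e with e | e
  · refine k (dvd_trans ?_ k2.1)
    have := h1.sub (e.mul_right (q + 1 + b))
    rwa [show (q : ℤ) ^ 2 + b * q + 1 - (q - 1) * (q + 1 + b) = 2 + b by ring] at this
  · refine k (dvd_trans ?_ k2.2)
    have := h1.sub (e.mul_right (q - 1 + b))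
    rwa [show (q : ℤ) ^ 2 + b * q + 1 - (q + 1) * (q - 1 + b) = 2 - b by ring] at this

theorem wa_cop (hb : b = 1 ∨ b = -1 ∨ b = 0) (hq : 4 ≤ q) : (tm b q).Coprime (tw b q) := by
  refine Nat.Coprime.symm (Nat.coprime_of_dvd fun r hr h1 h2 => wa_not hb hq hr h2 ?_)
  have hr' : Prime (r : ℤ) := Nat.prime_iff_prime_int.1 hr
  have e : ((q ^ 2 - 1 : ℕ) : ℤ) = (q : ℤ) ^ 2 - 1 := by
    rw [Nat.cast_pred (by positivity), Nat.cast_pow]
  replace h1 := Int.natCast_dvd_natCast.2 h1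
  unfold tw at h1
  split_ifs at h1 with h0
  · rw [Nat.cast_mul, Nat.cast_pow, Nat.cast_pow, e] at h1
    rcases hr'.dvd_or_dvd h1 with h1 | h1
    · exact (hr'.dvd_of_dvd_pow h1).mul_right _
    · exact (hr'.dvd_of_dvd_pow h1).mul_left _
  · rw [Nat.cast_mul, Nat.cast_mul, Nat.cast_pow, e, Int.toNat_of_nonneg (by omega)] at h1
    rcases hr'.dvd_or_dvd h1 with h1 | h1
    · rcases hr'.dvd_or_dvd h1 with h1 | h1
      · exact (hr'.dvd_of_dvd_pow h1).mul_right _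
      · exact h1.mul_left _
    · refine (h1.trans ⟨q + b, ?_⟩).mul_left _
      rcases hb with rfl | rfl | rfl
      · ring
      · ring
      · exact (h0 rfl).elim

theorem wa_prim3 (hq : 4 ≤ q) (hr : r.Prime) (h : r ∣ tm 1 q) : Prim q 3 r := by
  have h1 := ((wa_prime (.inl rfl) hq hr).1 h).1
  have h2 := wa_not (.inl rfl) hq hr h
  have e : ∀ i, ((q ^ i - 1 : ℕ) : ℤ) = (q : ℤ) ^ i - 1 := fun i => by
    rw [Nat.cast_pred (by positivity), Nat.cast_pow]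
  refine ⟨hr, Int.natCast_dvd_natCast.1 (e 3 ▸ h1.trans ⟨q - 1, by unfold tph; ring⟩),
    fun i h0 hi c => h2 (Dvd.dvd.mul_left ?_ _)⟩
  replace c := e i ▸ Int.natCast_dvd_natCast.2 c
  interval_cases i
  · exact c.trans ⟨q + 1, by ring⟩
  · exact c

theorem wa_ordU (hq : 4 ≤ q) (hr : r.Prime) (h : r ∣ tm (-1) q) : Ord (-(q : ℤ)) r = 3 := by
  have h1 := ((wa_prime (.inr (.inl rfl)) hq hr).1 h).1
  have h2 := wa_not (.inr (.inl rfl)) hq hr h
  refine Ord.eq_of three_pos (h1.trans ⟨-(q + 1), by unfold tph; ring⟩) fun p hp e c => h2 ?_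
  rw [(Nat.prime_dvd_prime_iff_eq hp Nat.prime_three).1 e] at c
  exact (c.trans ⟨1 - q, by norm_num; ring⟩).mul_left _

theorem wa_ordC (hq : 4 ≤ q) (hr : r.Prime) (h : r ∣ tm 0 q) : Ord (q : ℤ) r = 4 := by
  have h1 := ((wa_prime (.inr (.inr rfl)) hq hr).1 h).1
  have h2 := wa_not (.inr (.inr rfl)) hq hr h
  refine Ord.eq_of four_pos (h1.trans ⟨q ^ 2 - 1, by unfold tph; ring⟩) fun p hp e c => h2 ?_
  rw [(Nat.prime_dvd_prime_iff_eq hp Nat.prime_two).1 (hp.dvd_of_dvd_pow (n := 2) e)] at c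
  exact c.mul_left _

theorem wa_dd1 (hq : 4 ≤ q) : tdd 1 q = Nat.gcd 3 (q - 1) := by
  obtain ⟨n, rfl⟩ : ∃ n, q = n + 1 := ⟨q - 1, by omega⟩
  have e : tph 1 (n + 1) = (n : ℤ) * n + 3 * (n + 1) := by
    unfold tph
    push_cast
    ring
  have e3 : (2 + 1 ^ 2 : ℤ) = 3 := by norm_num
  rw [tdd, e, e3, Int.gcd_add_mul_left_right, Nat.add_sub_cancel]
  have : Int.gcd 3 ((n : ℤ) * n) = Nat.gcd 3 (n * n) := by
    simpa using Int.gcd_natCast_natCast 3 (n * n)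
  rw [this]
  rcases Nat.coprime_or_dvd_of_prime Nat.prime_three n with h | h
  · rw [h.gcd_eq_one, (h.mul_right h).gcd_eq_one]
  · rw [Nat.gcd_eq_left h, Nat.gcd_eq_left (h.mul_right n)]

theorem wa_tw1 (hq : 4 ≤ q) : tm 1 q * tw 1 q * Nat.gcd 3 (q - 1) = ordSL 3 q := by
  have h := wa_mul (b := 1) (.inl rfl) hq
  rw [wa_dd1 hq] at h
  have h1 : ∀ i, 1 ≤ q ^ i := fun i => Nat.one_le_pow _ _ (by omega)
  have h2 : ((((q : ℤ) - 1).toNat : ℕ) : ℤ) = q - 1 := Int.toNat_of_nonneg (by omega)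
  have h3 : Finset.Icc 2 3 = {2, 3} := by decide
  apply Nat.cast_injective (R := ℤ)
  rw [tw, if_neg one_ne_zero, ordSL, h3, Finset.prod_pair (by norm_num)]
  simp only [Nat.cast_mul, Nat.cast_pow, Nat.cast_sub (h1 _), Nat.cast_one, h2]
  unfold tph at h
  linear_combination (q : ℤ) ^ 3 * ((q : ℤ) ^ 2 - 1) * (q - 1) * h

theorem wa_twU (hq : 4 ≤ q) :
    ((tm (-1) q * tw (-1) q : ℕ) : ℤ) * tdd (-1) q * (q + 1) = Ty.U.ord 3 q := by
  have h := wa_mul (b := -1) (.inr (.inl rfl)) hq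
  have h1 : ∀ i, 1 ≤ q ^ i := fun i => Nat.one_le_pow _ _ (by omega)
  have h2 : ((((q : ℤ) - -1).toNat : ℕ) : ℤ) = q + 1 := by omega
  have h3 : Finset.Icc 1 3 = {1, 2, 3} := by decide
  rw [tw, if_neg (by norm_num), Ty.ord, h3, Finset.prod_insert (by decide),
    Finset.prod_pair (by norm_num)]
  simp only [Nat.cast_mul, Nat.cast_pow, Nat.cast_sub (h1 _), Nat.cast_one, h2]
  unfold tph at h
  linear_combination (q : ℤ) ^ 3 * ((q : ℤ) ^ 2 - 1) * (q + 1) ^ 2 * h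

theorem wa_twC (hq : 4 ≤ q) : ((tm 0 q * tw 0 q : ℕ) : ℤ) * tdd 0 q = Ty.C.ord 2 q := by
  have h := wa_mul (b := 0) (.inr (.inr rfl)) hq
  have h1 : ∀ i, 1 ≤ q ^ i := fun i => Nat.one_le_pow _ _ (by omega)
  have h3 : Finset.Icc 1 2 = {1, 2} := by decide
  rw [tw, if_pos rfl, Ty.ord, h3, Finset.prod_pair (by norm_num)]
  simp only [Nat.cast_mul, Nat.cast_pow, Nat.cast_sub (h1 _), Nat.cast_one]
  unfold tph at h
  linear_combination (q : ℤ) ^ 4 * ((q : ℤ) ^ 2 - 1) ^ 2 * h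

variable {S G : Type} [Group S] [Finite S] [Group G] [Finite G]

theorem OData.cyc (h : OData S b q) (hb : b = 1 ∨ b = -1 ∨ b = 0) (hq : 4 ≤ q) (hr : r.Prime)
    (hd : r ∣ tm b q) : Cyc S r := by
  obtain ⟨x, hx⟩ := h.tor
  have h0 : tm b q ≠ 0 := by have := wa_one hb hq; omega
  refine cyc_of_order hr (c := (tm b q).factorization r)
    (orderOf_pow_orderOf_div (hx ▸ h0) (hx ▸ Nat.ordProj_dvd _ r)) fun e => ?_
  rw [h.card] at e
  exact Nat.pow_succ_factorization_not_dvd h0 hr ((Nat.Coprime.pow_left _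
    ((wa_cop hb hq).coprime_dvd_left hd)).dvd_of_dvd_mul_right e)

theorem OData.transfer (h : OData S b q) (hb : b = 1 ∨ b = -1 ∨ b = 0) (hq : 4 ≤ q)
    (hv : ∀ r, r.Prime → r ∣ tm b q → ∀ g : S, r ∣ orderOf g → orderOf g ∈ Vo S)
    (hc : Nat.card G = Nat.card S) (hV : Vo G = Vo S) : OData G b q := by
  refine ⟨hc.trans h.card, ?_, fun r u hr hu h1 h2 a => h.adj r u hr hu h1 h2 ((transfer_adj hr
    ((Nat.coprime_primes hu hr).2 fun e => h2 (e ▸ h1)) hc hV (h.cyc hb hq hr h1) (hv r hr h1)).1 a),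
    fun e => hV ▸ h.pv e⟩
  obtain ⟨x, hx⟩ := h.tor
  obtain ⟨r, hr, hd⟩ := Nat.exists_prime_and_dvd (wa_one hb hq).ne'
  obtain ⟨y, hy, -⟩ := hV ▸ hv r hr hd x (hx ▸ hd)
  exact ⟨y, hy.trans hx⟩

end Pool.Agent.Lib.MP_7d41f7_al
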