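import Pool.Agent.Lib.MP_7d41f7_al.D.SMin
import Pool.Agent.Lib.MP_7d41f7_al.C.Brg
import Pool.Agent.Lib.MP_7d41f7_al.L.SCen

/-! The centraliser of an irreducible isometry. -/

set_option autoImplicit false

namespace Pool.Agent.Lib.MP_7d41f7_al

open Module

variable {F V : Type} [Field F] [Finite F] {P : Sca F} [AddCommGroup V] [Module F V] [Finite V]
  {Φ : Frm P V} {x : V ≃ₗ[F] V} {r : ℕ}

theorem irr_of (h : Prim (Nat.card F) (finrank F V) r) (hd : 0 < finrank F V) (h1 : x ^ r = 1)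
    (h0 : x ≠ 1) (W : Submodule F V) (hW : Stb x W) : W = ⊥ ∨ W = ⊤ := by
  have := Module.Finite.of_finite (R := F) (M := V)
  have hx : (x : End F V) ^ r = 1 := by
    refine LinearMap.ext fun v => ?_
    have e := LinearEquiv.congr_fun h1 v
    rw [LinearEquiv.pow_apply] at e
    rw [Module.End.pow_apply]
    exact e
  have hn : (x : End F V) ≠ 1 := fun e => h0 (LinearEquiv.ext fun v => LinearMap.congr_fun e v)
  obtain ⟨h2, h3⟩ := lin_rank h hd hx hn (by omega)
  rcases lin_irr h hd hx (by omega) (W := W) hW with e | e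
  · rw [Submodule.finrank_eq_zero.1 (by omega : finrank F (LinearMap.ker ((x : End F V) - 1)) = 0)]
      at e
    exact Or.inl (le_bot_iff.1 e)
  · rw [Submodule.eq_top_of_finrank_eq h2] at e
    exact Or.inr (top_le_iff.1 e)

omit [Finite F] [Finite V] in
theorem t1_inj (irr : ∀ W : Submodule F V, Stb x W → W = ⊥ ∨ W = ⊤)
    (a : Subalgebra.centralizer F {(x : End F V)}) {v : V} (hv : v ≠ 0) (h : a.1 v = 0) :
    a = 0 := by
  have ha : (x : End F V) * a.1 = a.1 * (x : End F V) :=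
    (Subalgebra.mem_centralizer_iff F).1 a.2 _ rfl
  rcases irr (LinearMap.ker a.1) (fun w hw => by
    have e := LinearMap.congr_fun ha w
    rw [Module.End.mul_apply, Module.End.mul_apply, LinearMap.mem_ker.1 hw, map_zero] at e
    exact e.symm) with e | e
  · exact absurd (e.le (LinearMap.mem_ker.2 h)) hv
  · exact Subtype.ext (LinearMap.ker_eq_top.1 e)

theorem comm_field [Nontrivial V] (irr : ∀ W : Submodule F V, Stb x W → W = ⊥ ∨ W = ⊤) :
    IsField (Subalgebra.centralizer F {(x : End F V)}) ∧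
      Nat.card (Subalgebra.centralizer F {(x : End F V)}) = Nat.card V := by
  have : Finite (End F V) := DFunLike.finite _
  have : NoZeroDivisors (Subalgebra.centralizer F {(x : End F V)}) := ⟨fun {a b} e => by
    by_cases hb : b = 0
    · exact Or.inr hb
    · obtain ⟨v, hv⟩ := exists_ne (0 : V)
      exact Or.inl (t1_inj irr a (fun k => hb (t1_inj irr b hv k))
        (LinearMap.congr_fun (congrArg Subtype.val e) v))⟩
  have := NoZeroDivisors.to_isDomain (Subalgebra.centralizer F {(x : End F V)})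
  refine ⟨Finite.isDomain_to_isField _, ?_⟩
  obtain ⟨v, hv⟩ := exists_ne (0 : V)
  let φ : Subalgebra.centralizer F {(x : End F V)} →ₗ[F] V :=
    (LinearMap.applyₗ v).comp (Subalgebra.centralizer F {(x : End F V)}).val.toLinearMap
  refine Nat.card_eq_of_bijective φ ⟨(injective_iff_map_eq_zero _).2 fun a e =>
    t1_inj irr a hv e, LinearMap.range_eq_top.1 ?_⟩
  refine (irr (LinearMap.range φ) ?_).resolve_left fun e => hv (e.le ⟨1, rfl⟩)
  rintro _ ⟨a, rfl⟩
  exact ⟨⟨x, (Subalgebra.mem_centralizer_iff F).2 fun _ h => by rw [h]⟩ * a, rfl⟩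

theorem Frm.exists_ad (hn : Φ.Nd) (a : End F V) :
    ∃ b : End F V, ∀ v w, Φ.B (a v) w = Φ.B v (b w) := by
  have ex : ∀ w, ∃ u, ∀ v, Φ.B v u = Φ.B (a v) w := fun w => hn.rep ((Φ.B.flip w).comp a)
  choose f hf using ex
  have un : ∀ u u' : V, (∀ v, Φ.B v u = Φ.B v u') → u = u' := fun u u' e =>
    sub_eq_zero.1 (hn.right fun v => by rw [map_sub, e, sub_self])
  refine ⟨⟨⟨f, fun w w' => un _ _ fun v => ?_⟩, fun c w => un _ _ fun v => ?_⟩,
    fun v w => (hf w v).symm⟩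
  · rw [hf, map_add, map_add, hf, hf]
  · rw [RingHom.id_apply, hf, B_smul, B_smul, hf]

omit [Finite F] [Finite V] in
theorem t2_uniq (hn : Φ.Nd) {b c : End F V} (h : ∀ v w, Φ.B v (b w) = Φ.B v (c w)) : b = c :=
  LinearMap.ext fun w => sub_eq_zero.1 (hn.right fun v => by rw [map_sub, h, sub_self])

omit [Finite F] [Finite V] in
theorem t2_keep (hk : P.k ≠ .O) {g : End F V} (h : ∀ v w, Φ.B (g v) (g w) = Φ.B v w) (v : V) :
    Φ.Q (g v) = Φ.Q v := by
  rcases P.kind with e | e | e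
  · have := h v v
    rwa [Φ.diag, Φ.diag, Sca.ρ_U e, one_mul, one_mul] at this
  · rw [Frm.Q_S e, Frm.Q_S e]
  · exact absurd e hk

theorem t2_cyc {K : Type} [Ring K] [Finite K] (hf : IsField K) (s : K → K)
    (s1 : ∀ a b, s (a * b) = s b * s a) (s2 : ∀ a b, s (a + b) = s a + s b) (s3 : ∀ a, s (s a) = a)
    (h : ∃ a, s a ≠ a) {Q : ℕ} (hc : Nat.card K = Q ^ 2) :
    ∃ z : K, orderOf z = Q + 1 ∧ s z * z = 1 ∧ ∀ y, s y * y = 1 → ∃ n : ℕ, z ^ n = y := by
  let := hf.toField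
  let : StarRing K := { star := s, star_involutive := s3, star_mul := s1, star_add := s2 }
  have e : ∀ a, s a = a ^ Q := star_eq_pow hc h
  have e1 := IsCyclic.card_powMonoidHom_ker Kˣ (Q + 1)
  rw [Nat.card_units, hc, show Q ^ 2 - 1 = (Q + 1) * (Q - 1) from by
    rw [← Nat.sq_sub_sq, one_pow], Nat.gcd_eq_right (Dvd.intro _ rfl)] at e1
  obtain ⟨g, hg⟩ := IsCyclic.exists_monoid_generator (α := (powMonoidHom (Q + 1) : Kˣ →* Kˣ).ker)
  refine ⟨g.1, ?_, ?_, fun y hy => ?_⟩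
  · rw [orderOf_units, Subgroup.orderOf_coe, orderOf_eq_card_of_forall_mem_powers hg, e1]
  · rw [e, ← pow_succ]
    exact congrArg Units.val (show g.1 ^ (Q + 1) = 1 from g.2)
  · rw [e, ← pow_succ] at hy
    obtain ⟨n, hn⟩ := hg ⟨Units.mk0 y (by rintro rfl; simp at hy), Units.ext (by simpa using hy)⟩
    exact ⟨n, congrArg (fun u => (u.1 : K)) hn⟩

theorem Frm.tor_main [Nontrivial V] (hk : P.k ≠ .O) (hn : Φ.Nd) (hx : x ∈ Φ.Iso)
    (irr : ∀ W : Submodule F V, Stb x W → W = ⊥ ∨ W = ⊤) (h2 : x ^ 2 ≠ 1) {Q : ℕ}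
    (hQ : Nat.card V = Q ^ 2) : ∃ z ∈ Φ.Iso, orderOf z = Q + 1 ∧
      ∀ y ∈ Φ.Iso, Commute x y → y ∈ Subgroup.zpowers z := by
  obtain ⟨hf, hc⟩ := comm_field (x := x) irr
  choose ad had using Frm.exists_ad hn
  have a1 : ∀ a b, ad (a * b) = ad b * ad a := fun a b => t2_uniq hn fun v w => by
    rw [← had, End.mul_apply, End.mul_apply, had, had]
  have a2 : ∀ a b, ad (a + b) = ad a + ad b := fun a b => t2_uniq hn fun v w => by
    rw [← had, LinearMap.add_apply, LinearMap.add_apply, map_add, map_add, LinearMap.add_apply,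
      had, had]
  have a3 : ∀ a, ad (ad a) = a := fun a => t2_uniq hn fun v w => by
    rw [← had, Φ.sym w, ← had, ← Φ.sym]
  have a4 : ∀ y ∈ Φ.Iso, ad (y : End F V) * y = 1 := fun y hy => t2_uniq hn fun v w => by
    rw [End.mul_apply, ← had]
    exact hy.1 v w
  have a5 : (x : End F V) * ad x = 1 := LinearMap.ext fun v => by
    obtain ⟨v, rfl⟩ := x.surjective v
    exact congrArg x (LinearMap.congr_fun (a4 x hx) v)
  have hm : ∀ a : End F V, a ∈ Subalgebra.centralizer F {(x : End F V)} ↔ x * a = a * x := by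
    simp [Subalgebra.mem_centralizer_iff]
  have a6 : ∀ a : End F V, x * a = a * x → x * ad a = ad a * x := fun a h => by
    have e := congrArg ad h
    rw [a1, a1] at e
    calc (x : End F V) * ad a = x * (ad a * ad x) * x := by
          rw [mul_assoc, mul_assoc, a4 x hx, mul_one]
      _ = ad a * x := by rw [e, ← mul_assoc, a5, one_mul]
  have : Finite (End F V) := DFunLike.finite _
  obtain ⟨z, z1, z2, z3⟩ := t2_cyc hf (fun a => ⟨ad a, (hm _).2 (a6 _ ((hm _).1 a.2))⟩)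
    (fun a b => Subtype.ext (a1 _ _)) (fun a b => Subtype.ext (a2 _ _))
    (fun a => Subtype.ext (a3 _)) ⟨⟨x, (hm _).2 rfl⟩, fun e => h2 (LinearEquiv.ext fun v => by
      have e1 : ad (x : End F V) = x := congrArg Subtype.val e
      have e2 := a4 x hx
      rw [e1] at e2
      exact LinearMap.congr_fun e2 v)⟩ (hc.trans hQ)
  have z4 : ∀ v w, Φ.B (z.1 v) (z.1 w) = Φ.B v w := fun v w => by
    rw [had]
    exact congrArg (Φ.B v) (LinearMap.congr_fun (congrArg Subtype.val z2) w)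
  obtain ⟨g, hg, e⟩ := hn.mk_iso z.1 z4 (t2_keep hk z4)
  let φ : (V ≃ₗ[F] V) →* End F V := LinearEquiv.automorphismGroup.toLinearMapMonoidHom
  have hφ : Function.Injective φ := LinearEquiv.toLinearMap_injective
  have e1 : φ g = z.1 := LinearMap.ext e
  refine ⟨g, hg, ?_, fun y hy h => ?_⟩
  · rw [← orderOf_injective φ hφ, e1, ← z1]
    exact orderOf_injective (Subalgebra.centralizer F {(x : End F V)}).val.toRingHom.toMonoidHom
      Subtype.val_injective z
  · obtain ⟨n, e2⟩ := z3 ⟨y, (hm _).2 (congrArg φ h)⟩ (Subtype.ext (a4 y hy))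
    refine ⟨n, hφ ?_⟩
    simp only [zpow_natCast, map_pow, e1]
    exact congrArg Subtype.val e2

variable {Γ : Type} [Group Γ]

theorem Frm.tor_cen [Nontrivial V] (hk : P.k ≠ .O) (hn : Φ.Nd) (R : Φ.Rep Γ) {g : Γ}
    (irr : ∀ W : Submodule F V, Stb (R.ι g) W → W = ⊥ ∨ W = ⊤) (h2 : g ^ 2 ≠ 1) {Q : ℕ}
    (hQ : Nat.card V = Q ^ 2) : Nat.card (Subgroup.centralizer ({g} : Set Γ)) ∣ Q + 1 := by
  obtain ⟨z, -, h1, h3⟩ := Frm.tor_main hk hn (R.le ⟨g, rfl⟩) irr
    (fun e => h2 (R.inj (by rw [map_pow, e, map_one]))) hQ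
  rw [← h1, ← Nat.card_zpowers, ← Subgroup.card_map_of_injective R.inj]
  refine Subgroup.card_dvd_of_le ?_
  rintro _ ⟨y, hy, rfl⟩
  exact h3 _ (R.le ⟨y, rfl⟩) (Commute.map (hy g rfl) R.ι)

end Pool.Agent.Lib.MP_7d41f7_al
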