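import Pool.Agent.Lib.MP_7d41f7_al.D.WM
import Pool.Agent.Lib.MP_7d41f7_al.D.WA
import Pool.Agent.Lib.MP_7d41f7_al.D.WT
import Pool.Agent.Lib.MP_7d41f7_al.D.SEx
import Pool.Agent.Lib.MP_7d41f7_al.C.CFin

/-! The data of the symplectic group of dimension four. -/

set_option autoImplicit false

namespace Pool.Agent.Lib.MP_7d41f7_al

open Module

variable {F V : Type} [Field F] [Finite F] {P : Sca F} [AddCommGroup V] [Module F V] [Finite V]
  {Φ : Frm P V} {Γ : Type} [Group Γ] {r : ℕ} {v w : V} {L M : Submodule F V}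

namespace Frm

/-- A totally isotropic plane. -/
def Ln (Φ : Frm P V) (L : Submodule F V) : Prop := Φ.Ti L ∧ finrank F L = 2

theorem c2_tor (hT : Φ.IsTy .C 2) (hv : v ≠ 0) (h : ∀ a : F, w ≠ a • v) (hL : Φ.Ln L)
    (hM : Φ.Ln M) (h1 : v ∈ L) (h2 : w ∈ M) {c : F} (hc : c ≠ 0) :
    ∃ g ∈ Φ.Iso, g v = c • v ∧ (g w = w ∨ g w = c⁻¹ • w) ∧ Stb g L ∧ Stb g M := by
  have hk : P.k = .S := hT.kd.symm
  have hq : ∀ x, Φ.Q x = 0 := Q_S hk
  obtain ⟨f, hf, h3, h4⟩ : ∃ f, Φ.Hyp v f ∧ ((∃ a : F, w = a • f) ∨ w ∈ Φ.pl v f) ∧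
      (v ∈ M ∨ f ∈ M) := by
    by_cases h0 : Φ.B v w = 0
    · by_cases h5 : v ∈ M
      · obtain ⟨f, hf, h6⟩ := hT.nd.partner (Submodule.span F {w}) (hq v) (fun e => by
          obtain ⟨a, rfl⟩ := Submodule.mem_span_singleton.1 e
          exact h a⁻¹ (by rw [inv_smul_smul₀ (left_ne_zero_of_smul hv)])) fun u e => by
          obtain ⟨a, rfl⟩ := Submodule.mem_span_singleton.1 e
          rw [smul_B, B_comm0 h0, mul_zero]
        exact ⟨f, hf, .inr ⟨B_comm0 h0, h6 w (Submodule.mem_span_singleton_self w)⟩, .inl h5⟩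
      · obtain ⟨m, hm, h6⟩ : ∃ m ∈ M, Φ.B v m ≠ 0 := by
          by_contra! e
          exact h5 (hT.rk.max hM.1 hM.2 (mem_perp.2 e) (hq v))
        obtain ⟨a, -, hf⟩ := hyp_scale (hq v) (hq m) h6
        exact ⟨_, hf, .inr ⟨B_comm0 h0, hM.1.2 w h2 _ (M.smul_mem a hm)⟩, .inr (M.smul_mem a hm)⟩
    · obtain ⟨a, a0, hf⟩ := hyp_scale (hq v) (hq w) h0
      exact ⟨_, hf, .inl ⟨a⁻¹, (inv_smul_smul₀ a0 w).symm⟩, .inr (M.smul_mem a h2)⟩
  obtain ⟨g, hg, g1, g2, g3, -⟩ := hf.move hT.nd (e' := c • v) (f' := c⁻¹ • f)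
    ⟨hq _, hq _, by rw [smul_B, B_smul, hf.ef, Sca.σ_S hk, mul_one, mul_inv_cancel₀ hc]⟩
    (Submodule.ext fun x => by simp [mem_pl, hc])
  have g4 : ∀ x, g x = x + (Φ.B x f * (c - 1)) • v + (P.ε * Φ.B x v * (c⁻¹ - 1)) • f := fun x => by
    have := g3 _ (hf.dec x)
    rw [map_sub, map_sub, map_smul, map_smul, g1, g2, sub_sub, sub_eq_iff_eq_add] at this
    rw [this]
    module
  have g5 : ∀ U, Φ.Ti U → v ∈ U ∨ f ∈ U → Stb g U := fun U hU e x hx => by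
    rw [g4]
    rcases e with e | e
    · rw [hU.2 x hx v e, mul_zero, zero_mul, zero_smul, add_zero]
      exact U.add_mem hx (U.smul_mem _ e)
    · rw [hU.2 x hx f e, zero_mul, zero_smul, add_zero]
      exact U.add_mem hx (U.smul_mem _ e)
  refine ⟨g, hg, g1, ?_, g5 L hL.1 (.inl h1), g5 M hM.1 h4⟩
  rcases h3 with ⟨a, rfl⟩ | h3
  · exact .inr (by rw [map_smul, g2, smul_comm])
  · exact .inl (g3 w h3)

theorem c2_two (hT : Φ.IsTy .C 2) (hv : v ≠ 0) : ∃ L M, Φ.Ln L ∧ Φ.Ln M ∧ v ∈ L ∧ v ∈ M ∧ L ≠ M := by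
  have hq : ∀ x, Φ.Q x = 0 := Q_S hT.kd.symm
  have h1 := hT.rk.cnt (H := Submodule.span F {v}) ⟨fun x _ => hq x, fun x hx y hy => by
    obtain ⟨a, rfl⟩ := Submodule.mem_span_singleton.1 hx
    obtain ⟨b, rfl⟩ := Submodule.mem_span_singleton.1 hy
    rw [smul_B, B_smul, B_self (hq v), mul_zero, mul_zero]⟩
    (by rw [finrank_span_singleton hv]; rfl)
  have := Nat.finite_of_card_ne_zero (h1.trans_ne (Nat.succ_ne_zero _))
  obtain ⟨L, M, h⟩ := Finite.one_lt_card_iff_nontrivial.1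
    ((Nat.succ_lt_succ hT.rk.pos).trans_eq h1.symm)
  exact ⟨L, M, ⟨L.2.1, L.2.2.1⟩, ⟨M.2.1, M.2.2.1⟩, L.2.2.2 (Submodule.mem_span_singleton_self v),
    M.2.2.2 (Submodule.mem_span_singleton_self v), fun e => h (Subtype.ext e)⟩

omit [Finite F] in
theorem c1_inf (hv : v ≠ 0) (hL : Φ.Ln L) (hM : Φ.Ln M) (h1 : v ∈ L) (h2 : v ∈ M) (h : L ≠ M) :
    L ⊓ M = Submodule.span F {v} := by
  refine (Submodule.eq_of_le_of_finrank_le
    ((Submodule.span_singleton_le_iff_mem _ _).2 (Submodule.mem_inf.2 ⟨h1, h2⟩)) (not_lt.1 fun e => h ?_)).symm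
  rw [finrank_span_singleton hv] at e
  exact (Submodule.eq_of_le_of_finrank_le inf_le_left (hL.2.le.trans e)).symm.trans
    (Submodule.eq_of_le_of_finrank_le inf_le_right (hM.2.le.trans e))

theorem c1_flag (hT : Φ.IsTy .C 2) {L' M' : Submodule F V} (hv : v ≠ 0) (hw : w ≠ 0) (hL : Φ.Ln L)
    (hM : Φ.Ln M) (hL' : Φ.Ln L') (hM' : Φ.Ln M') (h1 : v ∈ L) (h2 : v ∈ M) (h3 : w ∈ L')
    (h4 : w ∈ M') (h : L ≠ M) (h' : L' ≠ M') : ∃ g ∈ Φ.Iso, (∃ a : F, g v = a • w) ∧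
      L.map g.toLinearMap = L' ∧ M.map g.toLinearMap = M' := by
  have e := c1_inf hw hL' hM' h3 h4 h'
  obtain ⟨g, hg, g1, g2⟩ := hT.rk.witt hL.1 hM.1 hL'.1 hM'.1 hL.2 hM.2 hL'.2 hM'.2 (by
    rw [e, c1_inf hv hL hM h1 h2 h, finrank_span_singleton hv, finrank_span_singleton hw])
  obtain ⟨a, ha⟩ := Submodule.mem_span_singleton.1 (e.le
    ⟨g1 ▸ Submodule.mem_map_of_mem h1, g2 ▸ Submodule.mem_map_of_mem h2⟩)
  exact ⟨g, hg, ⟨a, ha.symm⟩, g1, g2⟩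

theorem c2_flag (hT : Φ.IsTy .C 2) {L' M' : Submodule F V} (hv : v ≠ 0) (hw : w ≠ 0) (hL : Φ.Ln L)
    (hM : Φ.Ln M) (hL' : Φ.Ln L') (hM' : Φ.Ln M') (h1 : v ∈ L) (h2 : v ∈ M) (h3 : w ∈ L')
    (h4 : w ∈ M') (h : L = M ↔ L' = M') : ∃ g ∈ Φ.Iso, (∃ a : F, g v = a • w) ∧
      L.map g.toLinearMap = L' ∧ M.map g.toLinearMap = M' := by
  by_cases e : L = M
  · have k : ∀ {x : V} (U : Submodule F V), x ≠ 0 → ∃ W, Φ.Ln W ∧ x ∈ W ∧ U ≠ W := fun U hx => by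
      obtain ⟨A, B, a1, a2, a3, a4, a5⟩ := c2_two hT hx
      by_cases e : U = A
      · exact ⟨B, a2, a4, e ▸ a5⟩
      · exact ⟨A, a1, a3, e⟩
    obtain ⟨A, a1, a2, a3⟩ := k L hv
    obtain ⟨B, b1, b2, b3⟩ := k L' hw
    obtain ⟨g, hg, g1, g2, -⟩ := c1_flag hT hv hw hL a1 hL' b1 h1 a2 h3 b2 a3 b3
    exact ⟨g, hg, g1, g2, e ▸ h.1 e ▸ g2⟩
  · exact c1_flag hT hv hw hL hM hL' hM' h1 h2 h3 h4 e fun e' => e (h.2 e')

theorem c2_basis (hT : Φ.IsTy .C 2) : ∃ e f e' f', Φ.Hyp e f ∧ Φ.Hyp e' f' ∧ e' ∈ Φ.pl e f ∧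
    f' ∈ Φ.pl e f ∧ ∀ x, Φ.B x e = 0 → Φ.B x e' = 0 → x = Φ.B x f • e + Φ.B x f' • e' := by
  have hk : P.k = .S := hT.kd.symm
  have d4 : finrank F V = 4 := hT.dim
  have := Module.nontrivial_of_finrank_pos (R := F) (M := V) (by omega)
  obtain ⟨e, he⟩ := exists_ne (0 : V)
  obtain ⟨f, h⟩ := hT.nd.partner' (Φ.Q_S hk e) he
  have d2 := h.finrank_pl
  have := Module.nontrivial_of_finrank_pos (R := F) (M := Φ.pl e f) (by omega)
  obtain ⟨e', he'⟩ := exists_ne (0 : Φ.pl e f)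
  obtain ⟨f', h'⟩ := (h.nd_pl hT.nd).partner' (Φ.Q_S hk e') he'
  have d0 := h'.finrank_pl
  refine ⟨e, f, e', f', h, ⟨h'.qe, h'.qf, h'.ef⟩, e'.2, f'.2, fun x h1 h2 => ?_⟩
  have h3 := h.dec x
  rw [h1, mul_zero, zero_smul, sub_zero] at h3
  have h4 := h'.dec ⟨_, h3⟩
  rw [Submodule.finrank_eq_zero.1 (show finrank F ((Φ.res (Φ.pl e f)).pl e' f') = 0 by omega),
    Submodule.mem_bot, Subtype.ext_iff] at h4
  simpa [sub_sub, sub_eq_zero, h2, B_comm0 e'.2.1, B_comm0 f'.2.1] using h4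

omit [Finite F] [Finite V] in
theorem c2_pow [Nontrivial V] {g : V ≃ₗ[F] V} {p n : ℕ} (hp : p.Prime) [CharP F p]
    (h : ((g : End F V) - 1) ^ 4 = 0) (hn : 2 ≤ n) : g ^ p ^ n = 1 := by
  have := Fact.mk hp
  have : CharP (End F V) p := (CharP.charP_iff_prime_eq_zero hp).2 (by
    rw [← map_natCast (algebraMap F (End F V)), CharP.cast_eq_zero, map_zero])
  have h1 := pow_eq_zero_of_le ((Nat.pow_le_pow_left hp.two_le 2).trans
    (Nat.pow_le_pow_right hp.pos hn)) h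
  rw [sub_pow_char_pow_of_commute _ _ (Commute.one_right _), one_pow, sub_eq_zero] at h1
  exact LinearEquiv.toLinearMap_injective
    ((map_pow LinearEquiv.automorphismGroup.toLinearMapMonoidHom g _).trans h1)

theorem c2_unip (hT : Φ.IsTy .C 2) : ∃ g ∈ Φ.Iso, ∃ e L, e ≠ 0 ∧ Φ.Ln L ∧ e ∈ L ∧ g e = e ∧
    g ^ P.q ^ 2 = 1 ∧ (∀ (v : V) (a : F), g v = a • v → ∃ b : F, v = b • e) ∧ Stb g L ∧
      ∀ M, Φ.Ln M → e ∈ M → Stb g M → M = L := by
  have hk : P.k = .S := hT.kd.symm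
  have hε := Sca.ε_S hk
  have hσ := Sca.σ_S hk
  obtain ⟨e, f, e', f', h, h', ⟨a1, b1⟩, a2, dec⟩ := c2_basis hT
  have a1 : Φ.B e' e = 0 := a1
  have b1 : Φ.B e' f = 0 := b1
  have b2 : Φ.B f' f = 0 := a2.2
  have a2 : Φ.B f' e = 0 := a2.1
  have a3 := B_comm0 a1
  have a4 := B_comm0 a2
  have a5 := h.ee
  have a6 := h'.ee
  have a7 := h'.ff
  have a8 := h'.ef
  have a9 := h'.fe.trans hε
  obtain ⟨E, hE, e1⟩ := exists_ei hT.nd h.qe h'.qf a4
  obtain ⟨T, hT', e2⟩ := exists_tv (by simp [hk]) hT.nd h'.qe (c := 1) (by rw [hσ, hε]; ring)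
  have hg : ∀ x, (T * E) x - x =
      (Φ.B x e + Φ.B x e') • e' - Φ.B x e • f' - Φ.B x f' • e := fun x => by
    rw [LinearEquiv.mul_apply, e2, e1]
    simp only [map_add, map_sub, LinearMap.add_apply, LinearMap.sub_apply, smul_B, hε, a3, a9]
    module
  have g1 : (T * E) e = e := by simpa [a3, a4, a5, sub_eq_zero] using hg e
  have g2 : (T * E) e' = e' - e := by
    have := hg e'
    rw [a1, a6, a8] at this
    linear_combination (norm := module) this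
  have me : e ∈ Submodule.span F {e, e'} := Submodule.subset_span (by simp)
  have me' : e' ∈ Submodule.span F {e, e'} := Submodule.subset_span (by simp)
  have hL : Φ.Ln (Submodule.span F {e, e'}) := by
    refine ⟨⟨fun x _ => Φ.Q_S hk x, fun x hx y hy => ?_⟩, ?_⟩
    · obtain ⟨a, b, rfl⟩ := Submodule.mem_span_pair.1 hx
      obtain ⟨c, d, rfl⟩ := Submodule.mem_span_pair.1 hy
      simp [a1, a3, a5, a6]
    · rw [← Matrix.range_cons_cons_empty e e' ![], finrank_span_eq_card, Fintype.card_fin]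
      refine LinearIndependent.pair_iff.2 fun a b hab => ?_
      have h1 : b = 0 := by simpa [a4, a8] using congrArg (fun x => Φ.B x f') hab
      exact ⟨by simpa [h1, h.ne] using hab, h1⟩
  refine ⟨T * E, mul_mem hT' hE, e, _, h.ne, hL, me, g1, ?_, fun v a hv => ?_, fun x hx => ?_,
    fun M hM h1 h2 => ?_⟩
  · obtain ⟨p, n, hp, hn, hq, _⟩ := P.pp
    have := nontrivial_of_ne e 0 h.ne
    rw [hq, ← pow_mul]
    refine c2_pow hp (LinearMap.ext fun x => ?_) (by omega)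
    have k : ∀ x, (((T * E : V ≃ₗ[F] V) : End F V) - 1) x = _ := hg
    simp only [pow_succ, pow_zero, one_mul, End.mul_apply]
    rw [k, k, k, k]
    simp [a1, a2, a3, a4, a5, a6, a7, a8, a9]
  · have k := hg v
    rw [hv] at k
    have k1 := congrArg (fun x => Φ.B x e) k
    have k2 := congrArg (fun x => Φ.B x e') k
    have k3 := congrArg (fun x => Φ.B x f') k
    have k4 := congrArg (fun x => Φ.B x f) k
    simp only [map_sub, LinearMap.sub_apply, smul_B, a1, a2, a3, a4, a5, a6, a7, a8, a9, h.ef,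
      b1, b2] at k1 k2 k3 k4
    have k5 : Φ.B v e = 0 ∧ Φ.B v e' = 0 ∧ Φ.B v f' = 0 := by grind
    exact ⟨_, by simpa [k5.2.2] using dec v k5.1 k5.2.1⟩
  · obtain ⟨a, b, rfl⟩ := Submodule.mem_span_pair.1 hx
    rw [map_add, map_smul, map_smul, g1, g2]
    exact add_mem (Submodule.smul_mem _ _ me) (Submodule.smul_mem _ _ (sub_mem me' me))
  · have := Module.Finite.of_finite (R := F) (M := V)
    refine Submodule.eq_of_le_of_finrank_eq (fun x hx => ?_) (hM.2.trans hL.2.symm)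
    have k1 := hM.1.2 x hx e h1
    have k2 := hM.1.2 x hx _ (sub_mem (h2 x hx) hx)
    rw [hg, map_sub, map_sub, B_smul, B_smul, B_smul, hσ, hσ, hσ, k1, zero_add, zero_mul, mul_zero,
      sub_zero, sub_zero, mul_self_eq_zero] at k2
    exact Submodule.mem_span_pair.2 ⟨_, _, (dec x k1 k2).symm⟩

theorem c3_abs {X Y : Type} [Finite Γ] [Finite Y] [MulAction Γ X] [MulAction Γ Y] (π : Y → X)
    (hπ : ∀ (g : Γ) y, π (g • y) = g • π y) (A : Coc Γ X) (N : Subgroup Γ) [N.Normal]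
    (hN : ∀ z ∈ N, ∀ y, z • y = y ∧ A.c z (π y) = 1)
    (bad : ∀ y y', π y ≠ π y' → ∃ g : Γ, g • y = y ∧ g • y' = y' ∧ A.c g (π y) ≠ A.c g (π y'))
    (tr : ∀ y z y' z', π y = π z → π y' = π z' → (y = z ↔ y' = z') →
      ∃ g : Γ, g • y = y' ∧ g • z = z') (su : Function.Surjective π) (ni : ¬ Function.Injective π)
    {g : Γ} {y : Y} (hx : ∀ z, g • z = z → z = π y) (hy : ∀ z, g • z = z ↔ z = y) :
    orderOf (g : Γ ⧸ N) ∈ Vo (Γ ⧸ N) := by
  have := Finite.of_surjective π su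
  let B : Coc Γ Y := ⟨fun g y => A.c g (π y), fun g h y => by rw [A.mul, hπ]⟩
  obtain ⟨_, A', hA⟩ := A.desc N fun z hz x => by
    obtain ⟨y, rfl⟩ := su x
    exact ⟨by rw [← hπ, (hN z hz y).1], (hN z hz y).2⟩
  obtain ⟨_, B', hB⟩ := B.desc N hN
  have gA : ∀ y y', A'.Good A' (π y, π y') → π y = π y' := fun y y' h => by
    by_contra c
    obtain ⟨g, h1, h2, h3⟩ := bad y y' c
    exact h3 ((hA g _).2.symm.trans ((h g (by rw [(hA g _).1, ← hπ, h1])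
      (by rw [(hA g _).1, ← hπ, h2])).trans (hA g _).2))
  have gB : ∀ p, B'.Good B' p → π p.1 = π p.2 := fun p h => by
    by_contra c
    obtain ⟨g, h1, h2, h3⟩ := bad _ _ c
    exact h3 ((hB g _).2.symm.trans ((h g ((hB g _).1.trans h1) ((hB g _).1.trans h2)).trans
      (hB g _).2))
  refine A'.van2 B' (fun p => p.1 = p.2) ?_ (fun p p' h h' k => ?_) ⟨(π y, y), fun g _ _ => ?_⟩
    (fun e => ni (su.bijective_of_nat_card_le e.ge).1) (x := π y) (y := y) (fun z => ?_)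
    (fun z => (hB g z).1 ▸ hy z) ((hA g _).2.trans (hB g _).2.symm)
  · rintro ⟨a, b⟩ ⟨c, d⟩ h h'
    obtain ⟨a, rfl⟩ := su a
    obtain ⟨b, rfl⟩ := su b
    obtain ⟨c, rfl⟩ := su c
    obtain ⟨d, rfl⟩ := su d
    obtain ⟨g, h1, -⟩ := tr a a c c rfl rfl (by simp)
    rw [← gA _ _ h, ← gA _ _ h']
    have : (g : Γ ⧸ N) • π a = π c := by rw [(hA g _).1, ← hπ, h1]
    exact ⟨g, Prod.ext this this⟩
  · obtain ⟨g, h1, h2⟩ := tr _ _ _ _ (gB p h) (gB p' h') k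
    exact ⟨g, Prod.ext ((hB g _).1.trans h1) ((hB g _).1.trans h2)⟩
  · obtain ⟨g, rfl⟩ := QuotientGroup.mk_surjective g
    exact (hA g _).2.trans (hB g _).2.symm
  · rw [(hA g z).1]
    exact ⟨hx z, fun e => by rw [e, ← hπ, (hy y).2 rfl]⟩

omit [Finite F] in
theorem c3_map {g : V ≃ₗ[F] V} (h : ∀ w ∈ L, g w ∈ M) (e : finrank F L = finrank F M) :
    L.map g.toLinearMap = M :=
  have := Module.Finite.of_finite (R := F) (M := M)
  Submodule.eq_of_le_of_finrank_eq (Submodule.map_le_iff_le_comap.2 h)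
    ((LinearEquiv.finrank_map_eq _ _).trans e)

theorem c2_pv (hT : Φ.IsTy .C 2) (hq : 7 ≤ P.q) (hC : Φ.Cen) (R : Φ.Rep Γ)
    (hR : Φ.Iso ≤ R.ι.range) : ∃ n ∈ Vo (PQ Γ), ∃ i, n ∣ P.q ^ i := by
  have := R.finite
  have hk : P.k = .S := hT.kd.symm
  have : Finite (Submodule F V) := Finite.of_injective _ SetLike.coe_injective
  let _ : MulAction Γ (Submodule F V) :=
    { smul g L := L.map (R.ι g).toLinearMap
      one_smul L := by
        change L.map _ = _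
        rw [map_one]
        exact Submodule.map_id _
      mul_smul g h L := by
        change L.map _ = (L.map _).map _
        rw [map_mul, ← Submodule.map_comp]
        rfl }
  let X : SubMulAction Γ (Submodule F V) :=
    ⟨{l | finrank F l = 1}, fun g _ h => (LinearEquiv.finrank_map_eq (R.ι g) _).trans h⟩
  let Y : SubMulAction Γ (X × Submodule F V) :=
    ⟨{p | Φ.Ln p.2 ∧ p.1.1 ≤ p.2}, fun g _ h => ⟨⟨h.1.1.map (R.le ⟨g, rfl⟩),
      (LinearEquiv.finrank_map_eq (R.ι g) _).trans h.1.2⟩, Submodule.map_mono h.2⟩⟩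
  have gen : ∀ x : X, ∃ v : V, v ≠ 0 ∧ v ∈ x.1 ∧ ∀ w ∈ x.1, ∃ c : F, c • v = w := fun x => by
    obtain ⟨v, h1, h2⟩ := finrank_eq_one_iff'.1 (show finrank F x.1 = 1 from x.2)
    exact ⟨v, fun e => h1 (Subtype.ext e), v.2, fun w hw =>
      (h2 ⟨w, hw⟩).imp fun c e => congrArg Subtype.val e⟩
  choose v v0 v1 v2 using gen
  have le : ∀ (x : X) (M : Submodule F V), v x ∈ M → x.1 ≤ M := fun x M h w hw => by
    obtain ⟨c, rfl⟩ := v2 x w hw
    exact M.smul_mem c h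
  have eq : ∀ x x' : X, v x ∈ x'.1 → x = x' := fun x x' h => Subtype.ext
    (Submodule.eq_of_le_of_finrank_eq (le x _ h) (Eq.trans x.2 (Eq.symm x'.2)))
  have mv : ∀ (g : Γ) (x x' : X), R.ι g (v x) ∈ x'.1 → g • x = x' := fun g x x' h =>
    Subtype.ext (c3_map (le x (x'.1.comap (R.ι g).toLinearMap) h) (Eq.trans x.2 (Eq.symm x'.2)))
  have mem : ∀ (g : Γ) (x : X), R.ι g (v x) ∈ (g • x).1 := fun g x =>
    Submodule.mem_map_of_mem (f := (R.ι g).toLinearMap) (v1 x)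
  obtain ⟨θ, A, hθ, hA⟩ := lin_coc R.ι v v0 (fun g x => by
    obtain ⟨c, e⟩ := v2 _ _ (mem g x)
    refine ⟨Units.mk0 c ?_, e.symm⟩
    rintro rfl
    exact v0 x ((R.ι g).map_eq_zero_iff.1 (e.symm.trans (zero_smul _ _)))) 2
  have fix : ∀ (g : Γ) (y : Y) (a : Fˣ), R.ι g (v y.1.1) = (a : F) • v y.1.1 → Stb (R.ι g) y.1.2 →
      g • y = y ∧ A.c g y.1.1 = θ (a ^ 2) := fun g y a h1 h2 => by
    have e := mv g _ _ (h1 ▸ Submodule.smul_mem _ _ (v1 _))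
    exact ⟨Subtype.ext (Prod.ext e (c3_map h2 rfl)), hA g _ a (by rw [e, h1])⟩
  obtain ⟨c, hc⟩ := IsCyclic.exists_ofOrder_eq_natCard (α := Fˣ)
  have c4 : c ^ 4 ≠ 1 := fun e => by
    have := Nat.le_of_dvd four_pos (orderOf_dvd_of_pow_eq_one e)
    rw [hc, Nat.card_units, P.card, hk] at this
    simp only [Kd.fc] at this
    omega
  obtain ⟨_, hu, e, L, e0, hL, eL, ue, uq, u1, u2, u3⟩ := c2_unip hT
  obtain ⟨g, rfl⟩ := hR hu
  let x : X := ⟨Submodule.span F {e}, finrank_span_singleton e0⟩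
  have xe : e ∈ x.1 := Submodule.mem_span_singleton_self e
  have xL : x.1 ≤ L := (Submodule.span_singleton_le_iff_mem _ _).2 eL
  have hx : ∀ z : X, g • z = z → z = x := fun z h => by
    obtain ⟨a, h1⟩ := v2 z _ (h ▸ mem g z)
    obtain ⟨b, h2⟩ := u1 _ a h1.symm
    exact eq z x (h2 ▸ Submodule.smul_mem _ _ xe)
  refine ⟨_, c3_abs (X := X) (Y := Y) (fun y => y.1.1) (fun _ _ => rfl) A (Subgroup.center Γ)
    (fun z hz y => ?_) (fun y y' h => ?_) (fun y z y' z' h h' k => ?_) (fun x => ?_) (fun h => ?_)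
    (g := g) (y := ⟨(x, L), hL, xL⟩) hx fun z => ⟨fun h => ?_, ?_⟩, 2,
    orderOf_dvd_of_pow_eq_one ?_⟩
  · obtain ⟨a, a1, a2⟩ := Rep.center' hC R hz
    rw [Sca.σ_S hk] at a1
    have := fix z y (Units.mkOfMulEqOne a a a1) (a2 _) fun w hw => a2 w ▸ y.1.2.smul_mem a hw
    refine ⟨this.1, this.2.trans ?_⟩
    rw [show Units.mkOfMulEqOne a a a1 ^ 2 = 1 from Units.ext ((pow_two a).trans a1), map_one]
  · obtain ⟨_, t0, t1, t2, t3, t4⟩ := c2_tor hT (v0 y.1.1) (w := v y'.1.1)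
      (fun a e => h (eq _ _ (e ▸ Submodule.smul_mem _ _ (v1 _))).symm) y.2.1 y'.2.1
      (y.2.2 (v1 _)) (y'.2.2 (v1 _)) c.ne_zero
    obtain ⟨t, rfl⟩ := hR t0
    have f1 := fix t y c t1 t3
    rcases t2 with t2 | t2
    · have f2 := fix t y' 1 (t2.trans (one_smul _ _).symm) t4
      refine ⟨t, f1.1, f2.1, fun e => c4 ?_⟩
      rw [show 4 = 2 * 2 from rfl, pow_mul, hθ (f1.2.symm.trans (e.trans f2.2))]
      simp
    · have f2 := fix t y' c⁻¹ (by rwa [Units.val_inv_eq_inv_val]) t4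
      refine ⟨t, f1.1, f2.1, fun e => c4 ?_⟩
      rw [show 4 = 2 + 2 from rfl, pow_add]
      exact mul_eq_one_iff_eq_inv.2 ((hθ (f1.2.symm.trans (e.trans f2.2))).trans (inv_pow c 2))
  · obtain ⟨_, t0, ⟨a, t1⟩, t2, t3⟩ := c2_flag hT (v0 y.1.1) (v0 y'.1.1) y.2.1 z.2.1 y'.2.1 z'.2.1
      (y.2.2 (v1 _)) (z.2.2 (h ▸ v1 _)) (y'.2.2 (v1 _)) (z'.2.2 (h' ▸ v1 _))
      ⟨fun e => congrArg (fun y : Y => y.1.2) (k.1 (Subtype.ext (Prod.ext h e))),
        fun e => congrArg (fun y : Y => y.1.2) (k.2 (Subtype.ext (Prod.ext h' e)))⟩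
    obtain ⟨t, rfl⟩ := hR t0
    have e := mv t _ _ (t1 ▸ Submodule.smul_mem _ _ (v1 _))
    exact ⟨t, Subtype.ext (Prod.ext e t2), Subtype.ext (Prod.ext
      ((congrArg (t • ·) h).symm.trans (e.trans h')) t3)⟩
  · obtain ⟨L, -, h1, -, h2, -⟩ := c2_two hT (v0 x)
    exact ⟨⟨(x, L), h1, le x L h2⟩, rfl⟩
  · obtain ⟨L, M, h1, h2, h3, h4, h5⟩ := c2_two hT (v0 x)
    exact h5 (congrArg (fun y : Y => y.1.2)
      (h (a₁ := ⟨(x, L), h1, le x L h3⟩) (a₂ := ⟨(x, M), h2, le x M h4⟩) rfl))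
  · have h1 := hx z.1.1 (congrArg (fun y : Y => y.1.1) h)
    have h2 : z.1.2.map (R.ι g).toLinearMap = z.1.2 := congrArg (fun y : Y => y.1.2) h
    exact Subtype.ext (Prod.ext h1 (u3 _ z.2.1 (z.2.2 (h1 ▸ xe)) fun w hw =>
      h2 ▸ Submodule.mem_map_of_mem hw))
  · rintro rfl
    obtain ⟨a, h⟩ := Submodule.mem_span_singleton.1 (v1 x)
    exact (fix g ⟨(x, L), hL, xL⟩ 1 (by rw [← h, map_smul, ue]; simp) u2).1
  · rw [← QuotientGroup.mk_pow, R.inj (show R.ι (g ^ P.q ^ 2) = R.ι 1 by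
      rw [map_pow, uq, map_one]), QuotientGroup.mk_one]

theorem c4_k (hT : Φ.IsTy .C 2) : P.k = .S := hT.kd.symm

theorem c4_q (hT : Φ.IsTy .C 2) : Nat.card F = P.q := by
  rw [P.card, c4_k hT]
  rfl

theorem c4_dim (hT : Φ.IsTy .C 2) : finrank F V = 4 := hT.dim

theorem c4_V (hT : Φ.IsTy .C 2) : Nat.card V = (P.q ^ 2) ^ 2 := by
  have := Module.Finite.of_finite (R := F) (M := V)
  rw [Module.natCard_eq_pow_finrank (K := F), c4_q hT, c4_dim hT, ← pow_mul]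

theorem c4_tdd (q : ℕ) : (Odd q → tdd 0 q = 2) ∧ (¬ Odd q → tdd 0 q = 1) := by
  constructor
  · rintro ⟨k, rfl⟩
    have : tph 0 (2 * k + 1) = 2 * (2 * k ^ 2 + 2 * k + 1) := by simp only [tph]; push_cast; ring
    simp [tdd, this]
  · intro h
    obtain ⟨k, rfl⟩ := Nat.not_odd_iff_even.1 h
    have : tph 0 (k + k) = 1 + 2 * (2 * k ^ 2) := by simp only [tph]; push_cast; ring
    simp [tdd, this]

theorem c2_center (hT : Φ.IsTy .C 2) (hC : Φ.Cen) (R : Φ.Rep Γ) (hR : Φ.Iso ≤ R.ι.range) :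
    Nat.card (Subgroup.center Γ) = tdd 0 P.q := by
  have hd : 0 < finrank F V := by rw [c4_dim hT]; decide
  obtain ⟨c, hc⟩ := hR (show LinearEquiv.neg F ∈ Φ.Iso from ⟨fun a b => by simp, fun a => Q_neg a⟩)
  have h3 : c ∈ Subgroup.center Γ := Subgroup.mem_center_iff.2 fun g => R.inj (by
    rw [map_mul, map_mul, hc]
    exact LinearEquiv.ext fun v => by simp)
  have h5 : ∀ z ∈ Subgroup.center Γ, z = 1 ∨ z = c := fun z hz => by
    obtain ⟨a, ha, hv⟩ := Rep.center' hC R hz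
    rw [Sca.σ_S (c4_k hT)] at ha
    refine (mul_self_eq_one_iff.1 ha).imp (fun e => R.inj (LinearEquiv.ext fun v => ?_))
      fun e => R.inj (LinearEquiv.ext fun v => ?_)
    · simp [hv, e]
    · simp [hv, e, hc]
  by_cases ho : Odd P.q
  · have h4 : c ≠ 1 := fun h => by
      have := Module.nontrivial_of_finrank_pos hd
      obtain ⟨v, hv⟩ := exists_ne (0 : V)
      have h5 : -v = v := by simpa [h] using (congrArg (fun g : V ≃ₗ[F] V => g v) hc).symm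
      refine hv ((smul_eq_zero.1 ?_).resolve_left (P.two_ne.2 ho))
      rw [two_smul]
      exact (congrArg (· + v) h5).symm.trans (neg_add_cancel v)
    rw [(c4_tdd _).1 ho, Nat.card_eq_two_iff' (1 : Subgroup.center Γ)]
    exact ⟨⟨c, h3⟩, fun e => h4 (congrArg Subtype.val e), fun y hy => Subtype.ext
      ((h5 y y.2).resolve_left fun e => hy (Subtype.ext e))⟩
  · have h2 : (2 : F) = 0 := not_not.1 fun e => ho (P.two_ne.1 e)
    have h4 : c = 1 := R.inj (LinearEquiv.ext fun v => by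
      have : (2 : F) • v = 0 := by rw [h2, zero_smul]
      rw [two_smul] at this
      simpa [hc] using neg_eq_of_add_eq_zero_left this)
    rw [(c4_tdd _).2 ho, Subgroup.card_eq_one, Subgroup.eq_bot_iff_forall]
    exact fun z hz => (h5 z hz).elim id fun e => e.trans h4

theorem c4_card (R : Φ.Rep Γ) (hR : Φ.Iso ≤ R.ι.range) : Nat.card Γ = Nat.card Φ.Iso := by
  rw [← le_antisymm R.le hR]
  exact Nat.card_congr (MonoidHom.ofInjective R.inj).toEquiv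

theorem c2_card (hT : Φ.IsTy .C 2) (hq : 4 ≤ P.q) (hC : Φ.Cen) (R : Φ.Rep Γ)
    (hR : Φ.Iso ≤ R.ι.range) : Nat.card (PQ Γ) = tm 0 P.q * tw 0 P.q := by
  have h1 := wa_twC hq
  have h2 := wa_mul (.inr (.inr rfl)) hq
  have h3 := wa_pos (.inr (.inr rfl)) hq
  rw [← hT.ord, ← c4_card R hR,
    Subgroup.card_eq_card_quotient_mul_card_subgroup (Subgroup.center Γ),
    c2_center hT hC R hR, Nat.cast_mul (Nat.card _)] at h1
  have h4 : (tdd 0 P.q : ℤ) ≠ 0 := fun e => by rw [e] at h2; omega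
  exact_mod_cast (mul_right_cancel₀ h4 h1).symm

theorem c2_prim (hT : Φ.IsTy .C 2) (hq : 4 ≤ P.q) (hr : r.Prime) (hd : r ∣ tm 0 P.q) :
    Prim (Nat.card F) (finrank F V) r := by
  have e := wa_ordC hq hr hd
  have h1 : ∀ i, r ∣ P.q ^ i - 1 ↔ 4 ∣ i := fun i => by
    rw [← e, ← Ord.dvd_iff, ← Int.natCast_dvd_natCast,
      Nat.cast_sub (Nat.one_le_pow _ _ (by omega))]
    simp
  rw [c4_q hT, c4_dim hT]
  exact ⟨hr, (h1 4).2 dvd_rfl, fun i h0 h4 h => by have := (h1 i).1 h; omega⟩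

theorem c4_mul {q : ℕ} (hq : 4 ≤ q) : q ^ 2 + 1 = tm 0 q * tdd 0 q := by
  have h := wa_mul (.inr (.inr rfl)) hq
  rw [tph, zero_mul, add_zero] at h
  exact_mod_cast h.symm

theorem c4_ne {q : ℕ} (hq : 4 ≤ q) (hr : r.Prime) (hd : r ∣ tm 0 q) :
    r ≠ 2 ∧ ¬ r ∣ tdd 0 q := by
  have h := ((wa_prime (.inr (.inr rfl)) hq hr).1 hd).2
  have h2 : r ≠ 2 := fun e => h (by simp [e])
  refine ⟨h2, fun e => h2 ((Nat.prime_dvd_prime_iff_eq hr Nat.prime_two).1 ?_)⟩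
  have := (Int.natCast_dvd_natCast.2 e).trans (wa_dd 0 q)
  exact_mod_cast this

theorem c4_sq {G : Type} [Group G] {x : G} (hr : r.Prime) (h2 : r ≠ 2) (hx : orderOf x = r) :
    x ≠ 1 ∧ x ^ 2 ≠ 1 ∧ x ^ r = 1 :=
  ⟨fun e => hr.one_lt.ne (by rw [← hx, e, orderOf_one]),
    fun e => h2 ((Nat.prime_dvd_prime_iff_eq hr Nat.prime_two).1
      (hx ▸ orderOf_dvd_of_pow_eq_one e)), hx ▸ pow_orderOf_eq_one x⟩

theorem c2_el (hT : Φ.IsTy .C 2) (hq : 4 ≤ P.q) (hC : Φ.Cen) (R : Φ.Rep Γ)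
    (hR : Φ.Iso ≤ R.ι.range) : ∃ x : PQ Γ, orderOf x = tm 0 P.q := by
  have := R.finite
  have hd0 : 0 < finrank F V := by rw [c4_dim hT]; decide
  have := Module.nontrivial_of_finrank_pos hd0
  have h1 := wa_one (.inr (.inr rfl)) hq
  obtain ⟨r, hr, hd⟩ := Nat.exists_prime_and_dvd h1.ne'
  have := Fact.mk hr
  have h2 : r ∣ Nat.card Φ.Iso := by
    rw [← Int.natCast_dvd_natCast, hT.ord, ← wa_twC hq]
    exact ((Int.natCast_dvd_natCast.2 (hd.mul_right _))).mul_right _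
  obtain ⟨x, hx⟩ := exists_prime_orderOf_dvd_card' r h2
  obtain ⟨k0, k2, kr⟩ := c4_sq hr (c4_ne hq hr hd).1 ((Subgroup.orderOf_coe x).trans hx)
  obtain ⟨z, hz, ho, -⟩ := tor_main (by simp [c4_k hT]) hT.nd x.2
    (irr_of (c2_prim hT hq hr hd) hd0 kr k0) k2 (c4_V hT)
  obtain ⟨g, rfl⟩ := hR hz
  rw [orderOf_injective _ R.inj, c4_mul hq] at ho
  have h0 : tdd 0 P.q ≠ 0 := fun e => by have := c4_mul hq; rw [e] at this; omega
  have h3 : orderOf (g ^ tdd 0 P.q) = tm 0 P.q := by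
    rw [orderOf_pow_of_dvd h0 (ho ▸ Dvd.intro_left _ rfl), ho,
      Nat.mul_div_cancel _ (Nat.pos_of_ne_zero h0)]
  refine ⟨QuotientGroup.mk (g ^ tdd 0 P.q), (orderOf_mk_center ?_).trans h3⟩
  rw [h3, c2_center hT hC R hR]
  exact Nat.coprime_of_dvd fun s hs h4 => (c4_ne hq hs h4).2

theorem c2_adj (hT : Φ.IsTy .C 2) (hq : 4 ≤ P.q) (hC : Φ.Cen) (R : Φ.Rep Γ)
    (hR : Φ.Iso ≤ R.ι.range) {u : ℕ} (hr : r.Prime) (hu : u.Prime) (hd : r ∣ tm 0 P.q)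
    (h : ¬ u ∣ tm 0 P.q) : ¬ Adj (PQ Γ) u r := by
  intro ha
  have := R.finite
  have hd0 : 0 < finrank F V := by rw [c4_dim hT]; decide
  have := Module.nontrivial_of_finrank_pos hd0
  obtain ⟨x, hx, hn⟩ := lift_adj hu hr (fun e => h (e ▸ hd))
    (by rw [c2_center hT hC R hR]; exact (c4_ne hq hr hd).2) ha
  obtain ⟨k0, -, kr⟩ := c4_sq hr (c4_ne hq hr hd).1 ((orderOf_injective _ R.inj x).trans hx)
  have h1 := hn.trans (tor_cen (by simp [c4_k hT]) hT.nd R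
    (irr_of (c2_prim hT hq hr hd) hd0 kr k0) (c4_sq hr (c4_ne hq hr hd).1 hx).2.1 (c4_V hT))
  have h0 : tdd 0 P.q ≠ 0 := fun e => by have := c4_mul hq; rw [e] at this; omega
  rw [c2_center hT hC R hR, c4_mul hq] at h1
  exact h (Nat.dvd_of_mul_dvd_mul_right (Nat.pos_of_ne_zero h0) h1)

end Frm

theorem odata_C (hq : 7 ≤ Nat.card F) {G : Type} [Group G] [Finite G]
    (hc : Nat.card G = Nat.card (PQ (Matrix.symplecticGroup (Fin 2) F)))
    (hV : Vo G = Vo (PQ (Matrix.symplecticGroup (Fin 2) F))) : OData G 0 (Nat.card F) := by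
  obtain ⟨Φ, R, hT, hR⟩ := sp_ty 2 F
  have := R.finite
  have h4 : 4 ≤ (Sca.sp F).q := le_trans (by omega) hq
  have hC : Φ.Cen := Frm.cen_of hT.nd (.inr ⟨by simp [Sca.sp], by rw [hT.dim]; decide, h4⟩)
  refine OData.transfer (q := (Sca.sp F).q) ⟨Frm.c2_card hT h4 hC R hR, Frm.c2_el hT h4 hC R hR,
    fun r u => Frm.c2_adj hT h4 hC R hR, fun _ => Frm.c2_pv hT hq hC R hR⟩ (.inr (.inr rfl)) h4
    (fun r hr hd => ?_) hc hV
  have e := wa_ordC h4 hr hd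
  exact Frm.van_O hT (by simp) (by simp) hC R hr (by omega) (.inl (by rw [e]; decide))

end Pool.Agent.Lib.MP_7d41f7_al
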