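import Pool.Agent.Lib.MP_7d41f7_al.D.WM
import Pool.Agent.Lib.MP_7d41f7_al.D.WA
import Pool.Agent.Lib.MP_7d41f7_al.L.SVan

/-! The data of the linear group of dimension three. -/

set_option autoImplicit false

namespace Pool.Agent.Lib.MP_7d41f7_al

open Module Matrix

variable {F : Type} [Field F] [Finite F] {r : ℕ}

omit [Finite F] in
theorem l1_sl {f : (Fin 3 → F) →ₗ[F] Fin 3 → F} (h : LinearMap.det f = 1) :
    ∃ g : SLn 3 F, ∀ v, SpecialLinearGroup.toLin' g v = f v :=
  ⟨⟨LinearMap.toMatrix' f, (LinearMap.det_toMatrix' f).trans h⟩,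
    LinearMap.congr_fun (Matrix.toLin'_toMatrix' f)⟩

omit [Finite F] in
theorem l3_tr {v w : Fin 3 → F} (hv : v ≠ 0) (hw : w ≠ 0) :
    ∃ g : SLn 3 F, ∃ a : F, SpecialLinearGroup.toLin' g v = a • w := by
  have h1 := (finrank_span_singleton (K := F) hv).trans
    (finrank_span_singleton (K := F) hw).symm
  obtain ⟨e, e1, -⟩ := pair_equiv h1 h1 (by rwa [inf_idem, inf_idem])
  have hd : LinearMap.det e.toLinearMap ≠ 0 := e.isUnit_det'.ne_zero
  obtain ⟨e', f1, -, f3⟩ := pair_det (Submodule.span F {v}) ⊥ (inv_ne_zero hd)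
  obtain ⟨g, hg⟩ := l1_sl (f := e.toLinearMap ∘ₗ e'.toLinearMap)
    (by rw [LinearMap.det_comp, f3, mul_inv_cancel₀ hd])
  obtain ⟨a, ha⟩ := Submodule.mem_span_singleton.1 (e1.le (Submodule.mem_map_of_mem
    (f1.le (Submodule.mem_map_of_mem (Submodule.mem_span_singleton_self v)))))
  exact ⟨g, a, (hg v).trans ha.symm⟩

omit [Finite F] in
theorem l3_bad {v w : Fin 3 → F} (hv : v ≠ 0) (h : ∀ a : F, w ≠ a • v) {c : F} (hc : c ≠ 0) :
    ∃ g : SLn 3 F, SpecialLinearGroup.toLin' g v = c • v ∧ SpecialLinearGroup.toLin' g w = w := by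
  obtain ⟨u, hu⟩ := exists_linearIndependent_cons_of_lt_finrank
    ((LinearIndependent.pair_iff' hv).2 fun a e => h a e.symm) (by simp)
  let b := basisOfLinearIndependentOfCardEqFinrank hu (by simp)
  have hb : ∀ i, b i = (Fin.cons u ![v, w] : Fin 3 → Fin 3 → F) i :=
    congrFun (coe_basisOfLinearIndependentOfCardEqFinrank _ _)
  obtain ⟨g, hg⟩ := l1_sl (f := Matrix.toLin b b (diagonal ![c⁻¹, c, 1]))
    (by simp [Fin.prod_univ_three, hc])
  have h1 := (hg _).trans (Matrix.toLin_self b b _ 1)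
  have h2 := (hg _).trans (Matrix.toLin_self b b _ 2)
  refine ⟨g, ?_, ?_⟩
  · simpa [Fin.sum_univ_three, hb] using h1
  · simpa [Fin.sum_univ_three, hb] using h2

theorem l3_van (hq : 5 ≤ Nat.card F) (h : Prim (Nat.card F) 3 r) (g : PL 3 F)
    (hd : r ∣ orderOf g) : orderOf g ∈ Vo (PL 3 F) := by
  obtain ⟨A, rfl⟩ := QuotientGroup.mk_surjective g
  obtain ⟨c, hc⟩ := IsCyclic.exists_ofOrder_eq_natCard (α := Fˣ)
  have h3 : (c : F) ^ 3 ≠ 1 ^ 3 := fun e => by
    have := Nat.le_of_dvd three_pos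
      (orderOf_dvd_of_pow_eq_one (x := c) (Units.ext (by simpa using e)))
    rw [hc, Nat.card_units] at this
    omega
  refine lin_van SpecialLinearGroup.toLin' (· ≠ 0) 3 _ (fun _ u => u) ⟨1, one_ne_zero⟩
    (fun g v u => (map_ne_zero_iff _ (LinearEquiv.injective _)).2 u) (fun v w => l3_tr)
    (fun v w hv _ u => ?_) (fun z hz => ?_) fun v hv a e => ?_
  · obtain ⟨g, g1, g2⟩ := l3_bad hv u c.ne_zero
    exact ⟨g, c, 1, g1, by rwa [one_smul], h3⟩
  · obtain ⟨d, d1, d2⟩ := Matrix.SpecialLinearGroup.mem_center_iff.1 hz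
    refine ⟨d, d1, fun v => ?_⟩
    change Matrix.toLin' z.1 v = _
    rw [← d2]
    ext i
    simp [Matrix.mulVec_diagonal]
  · obtain ⟨x1, x2⟩ := scenb_ord h.pr (orderOf_pow_orderOf_div (orderOf_pos A).ne'
      (hd.trans (orderOf_map_dvd (QuotientGroup.mk' _) A)))
    have hV : finrank F (Fin 3 → F) < 2 * 3 := by simp
    obtain ⟨r1, r2⟩ := lin_rank h three_pos x1 x2 hV
    have r3 := finrank_span_singleton (K := F) hv
    rw [finrank_fin_fun] at r2
    have := lin_irr h three_pos x1 hV (W := Submodule.span F {v}) fun w hw => by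
      rw [Matrix.SpecialLinearGroup.coe_pow, map_pow]
      refine End.pow_apply_mem_of_forall_mem _ (fun y hy => ?_) w hw
      obtain ⟨t, rfl⟩ := Submodule.mem_span_singleton.1 hy
      rw [map_smul]
      exact Submodule.smul_mem _ _ (Submodule.mem_span_singleton.2 ⟨a, e.symm⟩)
    rcases this with u | u <;> have := Submodule.finrank_mono u <;> omega

theorem l3_pv : ∃ n ∈ Vo (PL 3 F), ∃ i, n ∣ Nat.card F ^ i := by
  let A : SLn 3 F := ⟨!![1, 1, 0; 0, 1, 1; 0, 0, 1], by simp [det_fin_three]⟩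
  refine ⟨_, perm_van (G := PL 3 F) (X := Gr 3 F 0) (Y := Gr 3 F 1) (g := QuotientGroup.mk A)
    (by rw [card_orb, card_orb, card_orb] <;> omega) ?_, 2,
    (orderOf_map_dvd (QuotientGroup.mk' _) A).trans (orderOf_dvd_of_pow_eq_one ?_)⟩
  · have e : (![1, 0, 0] : Fin 3 → F) ≠ 0 := fun e => one_ne_zero (congrFun e 0)
    have k := finrank_span_singleton (K := F) e
    have f : (F ∙ (![1, 0, 0] : Fin 3 → F)).map (toLin' A.1) = F ∙ ![1, 0, 0] := by
      rw [Submodule.map_span, Set.image_singleton]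
      congr 2
      ext i
      fin_cases i <;> simp [A, toLin'_apply]
    rw [fix_bot]
    refine (Nat.card_eq_one_iff_exists.2 ⟨⟨⟨_, k⟩, Subtype.ext f⟩, fun W =>
      Subtype.ext (Subtype.ext (Submodule.eq_of_le_of_finrank_eq ?_ (W.1.2.trans k.symm)))⟩).symm
    have a : W.1.1.map (toLin' A.1) = W.1.1 := congrArg Subtype.val W.2
    intro v hv
    by_cases h0 : v = 0
    · exact h0 ▸ zero_mem _
    obtain ⟨c, hc⟩ := (finrank_eq_one_iff_of_nonzero' (⟨v, hv⟩ : W.1.1)
      (fun e => h0 (congrArg Subtype.val e))).1 W.1.2 ⟨_, a ▸ Submodule.mem_map_of_mem hv⟩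
    have b := congrFun (congrArg Subtype.val hc)
    have b0 : c * v 0 = v 0 + v 1 := by
      simpa [A, toLin'_apply, dotProduct, Fin.sum_univ_three] using b 0
    have b1 : c * v 1 = v 1 + v 2 := by
      simpa [A, toLin'_apply, dotProduct, Fin.sum_univ_three] using b 1
    have b2 : c * v 2 = v 2 := by
      simpa [A, toLin'_apply, dotProduct, Fin.sum_univ_three] using b 2
    have v2 : v 2 = 0 := by grind
    have v1 : v 1 = 0 := by grind
    refine Submodule.mem_span_singleton.2 ⟨v 0, funext fun i => ?_⟩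
    fin_cases i <;> simp [v1, v2]
  · cases nonempty_fintype F
    obtain ⟨p, _, k, hp, hk⟩ := FiniteField.card' F
    have : Fact p.Prime := ⟨hp⟩
    have h3 : (A.1 - 1) ^ 3 = 0 := by
      ext i j
      fin_cases i <;> fin_cases j <;> simp [A, pow_succ, mul_apply, Fin.sum_univ_three, one_apply]
    have h4 : 3 ≤ p ^ (k * 2 : ℕ) := by
      have := Finite.one_lt_card (α := F)
      rw [pow_mul, ← hk, ← Nat.card_eq_fintype_card]
      nlinarith
    have h5 := sub_pow_char_pow_of_commute p (k * 2) (Commute.one_right A.1)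
    rw [pow_eq_zero_of_le h4 h3, one_pow, eq_comm, sub_eq_zero] at h5
    rw [Nat.card_eq_fintype_card, hk, ← pow_mul]
    exact Subtype.ext (by simpa using h5)

theorem odata_L0 (hq : 5 ≤ Nat.card F) : OData (PL 3 F) 1 (Nat.card F) := by
  have q4 : 4 ≤ Nat.card F := by omega
  have hm : tm 1 (Nat.card F) * (Nat.gcd 3 (Nat.card F - 1) * (Nat.card F - 1)) =
      Nat.card F ^ 3 - 1 := by
    have := wa_mul (.inl rfl) q4
    rw [← wa_dd1 q4, ← mul_assoc]
    zify [show 1 ≤ Nat.card F by omega, Nat.one_le_pow 3 _ (show 0 < Nat.card F by omega)]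
    rw [this, tph]
    ring
  have hc : (tm 1 (Nat.card F)).Coprime (Nat.card F - 1) := Nat.coprime_of_dvd fun r hr h =>
    (wa_prim3 q4 hr h).not_dvd_pred (by omega)
  have hg : 0 < Nat.gcd 3 (Nat.card F - 1) := Nat.gcd_pos_of_pos_left _ (by omega)
  refine ⟨Nat.eq_of_mul_eq_mul_right hg ((card_PL (by omega)).trans (wa_tw1 q4).symm), ?_,
    fun r u hr hu h1 h2 a => h2 ?_, fun _ => l3_pv⟩
  · obtain ⟨A, hA⟩ := exists_el (F := F) (n := 3) (m := 3) (by omega) le_rfl ⟨_, hm.symm⟩ hc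
    exact ⟨QuotientGroup.mk A, (orderOf_mk_center (by
      rw [hA, card_center (by omega)]
      exact hc.coprime_dvd_right (Nat.gcd_dvd_right _ _))).trans hA⟩
  · have h := wa_prim3 q4 hr h1
    obtain ⟨x, hx, hd⟩ := lift_adj hu hr (fun e => h2 (e ▸ h1)) (svanb_cen (by omega) (by omega) h) a
    have := (Nat.mul_dvd_mul_right hd _).trans (cen1 (by omega) h hx)
    rw [card_center (by omega), ← hm, mul_assoc] at this
    exact Nat.dvd_of_mul_dvd_mul_right (Nat.mul_pos hg (by omega)) this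

theorem odata_L (hq : 5 ≤ Nat.card F) {G : Type} [Group G] [Finite G]
    (hc : Nat.card G = Nat.card (PL 3 F)) (hV : Vo G = Vo (PL 3 F)) : OData G 1 (Nat.card F) :=
  (odata_L0 hq).transfer (.inl rfl) (by omega)
    (fun _ hr hd => l3_van hq (wa_prim3 (by omega) hr hd)) hc hV

end Pool.Agent.Lib.MP_7d41f7_al
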