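import Pool.Agent.Lib.MP_7d41f7_al.D.WM
import Pool.Agent.Lib.MP_7d41f7_al.D.WA
import Pool.Agent.Lib.MP_7d41f7_al.D.WT
import Pool.Agent.Lib.MP_7d41f7_al.D.USA
import Pool.Agent.Lib.MP_7d41f7_al.D.SEx
import Pool.Agent.Lib.MP_7d41f7_al.L.SEl

/-! The data of the unitary group of dimension three. -/

set_option autoImplicit false

namespace Pool.Agent.Lib.MP_7d41f7_al

open Module

variable {F V : Type} [Field F] [Finite F] {P : Sca F} [AddCommGroup V] [Module F V] [Finite V]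
  {Φ : Frm P V} {Γ : Type} [Group Γ] {r : ℕ} {e f v w : V}

namespace Frm

theorem u3_det (hT : Φ.IsTy .U 3) (h : Φ.Hyp e f) {c : F} (hc : c * P.σ c = 1) :
    ∃ g ∈ Φ.Iso, g e = e ∧ g f = f ∧ LinearMap.det (g : V →ₗ[F] V) = c := by
  have := Module.Finite.of_finite (R := F) (M := V)
  have hk : P.k = .U := hT.kd.symm
  have hd : finrank F V = 3 := hT.dim
  obtain ⟨⟨v, hm⟩, hv⟩ := exists_aniso hk (h.nd_pl hT.nd) (by have := h.finrank_pl; omega)
  have hQ : ∀ x, Φ.Q x = Φ.B x x := fun x => by rw [Φ.diag, Sca.ρ_U hk, one_mul]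
  have hs : ∀ x y, P.σ (Φ.B x y) = Φ.B y x := fun x y => by rw [Φ.sym x y, Sca.ε_U hk, one_mul]
  rw [res_Q, hQ] at hv
  replace hv : Φ.B v v ≠ 0 := hv
  let L := LinearMap.transvection (((c - 1) / Φ.B v v) • Φ.B.flip v) v
  have h1 : ∀ x y, Φ.B (L x) (L y) = Φ.B x y := fun x y => by
    simp only [L, LinearMap.transvection.apply, map_add, LinearMap.add_apply, smul_B, B_smul,
      LinearMap.smul_apply, LinearMap.flip_apply, smul_eq_mul, map_mul, map_div₀, map_sub, map_one,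
      hs]
    field_simp
    linear_combination (Φ.B x v * Φ.B v y) * hc
  have h2 : ∀ x, Φ.B v x = 0 → L x = x := fun x hx => by
    simp only [L, LinearMap.transvection.apply, LinearMap.smul_apply, LinearMap.flip_apply,
      B_comm0 hx, smul_zero, zero_smul, add_zero]
  obtain ⟨g, hg, e⟩ := hT.nd.mk_iso L h1 fun x => by rw [hQ, hQ, h1]
  refine ⟨g, hg, (e _).trans (h2 _ (Φ.mem_pl.1 hm).1), (e _).trans (h2 _ (Φ.mem_pl.1 hm).2), ?_⟩
  rw [show (g : V →ₗ[F] V) = L from LinearMap.ext e, LinearMap.transvection.det]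
  simp only [LinearMap.smul_apply, LinearMap.flip_apply, smul_eq_mul]
  field_simp
  ring

theorem u1_fix (hT : Φ.IsTy .U 3) (R : Φ.Rep Γ) (hR : R.Sp) (h : Φ.Hyp e f) {g : V ≃ₗ[F] V}
    (hg : g ∈ Φ.Iso) : ∃ a : Γ, R.ι a e = g e ∧ R.ι a f = g f := by
  have h1 := det_norm hT.nd hg
  obtain ⟨k, hk, h2, h3, h4⟩ := u3_det hT h (c := P.σ (LinearMap.det (g : V →ₗ[F] V)))
    (by rw [P.σσ, mul_comm, h1])
  obtain ⟨a, ha⟩ := (hR _ (mul_mem hg hk)).2 (by
    rw [LinearEquiv.coe_toLinearMap_mul, map_mul, h4, h1])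
  exact ⟨a, by rw [ha, LinearEquiv.mul_apply, h2], by rw [ha, LinearEquiv.mul_apply, h3]⟩

theorem u3_tr (hT : Φ.IsTy .U 3) (R : Φ.Rep Γ) (hR : R.Sp) (hv : v ≠ 0 ∧ Φ.Q v = 0)
    (hw : w ≠ 0 ∧ Φ.Q w = 0) : ∃ g : Γ, R.ι g v = w := by
  obtain ⟨g, hg, rfl⟩ := trans_vec hT.nd hv.2 hv.1 hw.2 hw.1
  obtain ⟨f, h⟩ := hT.nd.partner' hv.2 hv.1
  exact (u1_fix hT R hR h (Sm_le hg)).imp fun _ => And.left

theorem u3_bad (hT : Φ.IsTy .U 3) (R : Φ.Rep Γ) (hR : R.Sp) (hv : v ≠ 0 ∧ Φ.Q v = 0)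
    (hw : Φ.Q w = 0) (h : ∀ a : F, w ≠ a • v) {c : F} (hc : c ≠ 0) :
    ∃ g : Γ, R.ι g v = c • v ∧ R.ι g w = (P.σ c)⁻¹ • w := by
  have hd : finrank F V = 3 := hT.dim
  have hB : Φ.B v w ≠ 0 := fun h0 => by
    have h1 := finrank_span_eq_card
      ((LinearIndependent.pair_iff' hv.1).2 fun a e => h a e.symm : LinearIndependent F ![v, w])
    have h2 := hT.nd.two_dim (U := Submodule.span F (Set.range ![v, w])) fun x hx y hy => by
      obtain ⟨a, rfl⟩ := (Submodule.mem_span_range_iff_exists_fun F).1 hx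
      obtain ⟨b, rfl⟩ := (Submodule.mem_span_range_iff_exists_fun F).1 hy
      simp [Fin.sum_univ_two, h0, B_comm0 h0, B_self hv.2, B_self hw]
    rw [h1, hd] at h2
    simp at h2
  obtain ⟨d, hd0, h1⟩ := hyp_scale hv.2 hw hB
  have h2 : Φ.Hyp (c • v) ((P.σ c)⁻¹ • d • w) :=
    ⟨by rw [Φ.smul, hv.2, mul_zero], by rw [Φ.smul, h1.qf, mul_zero], by
      rw [smul_B, B_smul, h1.ef, map_inv₀, P.σσ, mul_one, mul_inv_cancel₀ hc]⟩
  obtain ⟨g, hg, h3, h4⟩ := trans_hyp hT.nd h1 h2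
  obtain ⟨a, h5, h6⟩ := u1_fix hT R hR h1 (Sm_le hg)
  refine ⟨a, h5.trans h3, smul_right_injective V hd0 ?_⟩
  change d • R.ι a w = d • (P.σ c)⁻¹ • w
  rw [← map_smul, h6, h4, smul_comm]

theorem u3_prim (hT : Φ.IsTy .U 3) (hq : 4 ≤ P.q) (hr : r.Prime) (hd : r ∣ tm (-1) P.q) :
    Prim (Nat.card F) (finrank F V) r := by
  have hc : Nat.card F = P.q ^ 2 := P.card.trans (by rw [← hT.kd]; rfl)
  have key : ∀ i, r ∣ (P.q ^ 2) ^ i - 1 ↔ 3 ∣ 2 * i := fun i => by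
    rw [← wa_ordU hq hr hd, ← Ord.dvd_iff, ← Int.natCast_dvd_natCast,
      Nat.cast_sub (Nat.one_le_pow _ _ (by positivity)), pow_mul, neg_sq]
    push_cast
    rfl
  rw [hc, show finrank F V = 3 from hT.dim]
  exact ⟨hr, (key 3).2 (by norm_num), fun i h1 h2 h3 => by
    have := (key i).1 h3
    omega⟩

theorem u3_van (hT : Φ.IsTy .U 3) (hq : 5 ≤ P.q) (R : Φ.Rep Γ) (hR : R.Sp) (hr : r.Prime)
    (hd : r ∣ tm (-1) P.q) (g : PQ Γ) (h : r ∣ orderOf g) : orderOf g ∈ Vo (PQ Γ) := by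
  have := R.finite
  have hk : P.k = .U := hT.kd.symm
  have h3 : finrank F V = 3 := hT.dim
  obtain ⟨w, rfl⟩ := QuotientGroup.mk_surjective g
  refine lin_van R.ι (fun v => v ≠ 0 ∧ Φ.Q v = 0) 3 (Subgroup.center Γ) (fun v h => h.1)
    (exists_sing h3.ge) (fun g v h => ⟨(R.ι g).map_ne_zero_iff.2 h.1,
      ((R.le ⟨g, rfl⟩).2 v).trans h.2⟩) (fun v w hv hw => ?_) (fun v w hv hw h => ?_)
    (fun z hz => ?_) fun v hv a e => ?_
  · obtain ⟨g, hg⟩ := u3_tr hT R hR hv hw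
    exact ⟨g, 1, by rw [one_smul, hg]⟩
  · obtain ⟨c, hc⟩ := (isCyclic_iff_exists_orderOf_eq_natCard (α := Fˣ)).1 inferInstance
    obtain ⟨g, h1, h2⟩ := u3_bad hT R hR hv hw.2 h c.ne_zero
    refine ⟨g, _, _, h1, h2, fun e => ?_⟩
    have e1 : c ^ ((P.q + 1) * 3) = 1 := Units.ext (by
      rw [Units.val_pow_eq_pow_val, pow_mul, pow_succ' _ P.q, ← P.σU hk, mul_pow, e, ← mul_pow,
        inv_mul_cancel₀ ((map_ne_zero P.σ).2 c.ne_zero), one_pow, Units.val_one])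
    rw [← orderOf_dvd_iff_pow_eq_one, hc, Sca.fparb_units hk] at e1
    have := Nat.le_of_dvd three_pos (Nat.dvd_of_mul_dvd_mul_left P.q.succ_pos e1)
    omega
  · obtain ⟨c, -, hc⟩ := Rep.center' (cen_U hT le_rfl (by omega)) R hz
    have h1 := (hR _ (R.le ⟨z, rfl⟩)).1 ⟨z, rfl⟩
    rw [show (R.ι z : V →ₗ[F] V) = c • LinearMap.id from LinearMap.ext hc,
      LinearMap.det_smul, LinearMap.det_id, mul_one, h3] at h1
    exact ⟨c, h1, hc⟩
  · have h1 : r ∣ orderOf w := h.trans (orderOf_map_dvd (QuotientGroup.mk' _) w)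
    have h2 : orderOf (R.ι w ^ (orderOf w / r)) = r := by
      rw [← map_pow, orderOf_injective _ R.inj, orderOf_pow_orderOf_div (orderOf_pos w).ne' h1]
    have h4 : Stb (R.ι w) (Submodule.span F {v}) := fun y hy => by
      obtain ⟨b, rfl⟩ := Submodule.mem_span_singleton.1 hy
      rw [map_smul, e]
      exact Submodule.smul_mem _ _ (Submodule.smul_mem _ _ (Submodule.mem_span_singleton_self v))
    have h5 := finrank_span_singleton (K := F) hv.1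
    rcases irr_of (u3_prim hT (by omega) hr hd) (by omega) (orderOf_dvd_iff_pow_eq_one.1 h2.dvd)
      (fun e => hr.ne_one (h2.symm.trans (orderOf_eq_one_iff.2 e))) _
      (h4.pow (orderOf w / r)) with e | e
    · rw [e, finrank_bot] at h5
      omega
    · rw [e, finrank_top] at h5
      omega

theorem u3_dd (q : ℕ) : tdd (-1) q ∣ 3 ∧ (3 ∣ tdd (-1) q ↔ 3 ∣ q + 1) := by
  have h1 : (tdd (-1) q : ℤ) ∣ 3 := Int.gcd_dvd_left (2 + (-1) ^ 2) _
  have h2 : (3 : ℤ) ∣ tph (-1) q ↔ (3 : ℤ) ∣ q + 1 := by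
    rw [show tph (-1) q = (q + 1) ^ 2 - 3 * q by rw [tph]; ring, dvd_sub_left (dvd_mul_right _ _),
      Int.prime_three.dvd_pow_iff_dvd two_ne_zero]
  refine ⟨by exact_mod_cast h1, fun h => ?_, fun h => ?_⟩
  · exact_mod_cast h2.1 ((Int.natCast_dvd_natCast.2 h).trans (Int.gcd_dvd_right _ _))
  · exact Int.dvd_gcd (c := 3) (by norm_num) (h2.2 (by exact_mod_cast h))

theorem u3_scal (hT : Φ.IsTy .U 3) (R : Φ.Rep Γ) (hR : R.Sp) (h : 3 ∣ P.q + 1) :
    Nat.card (Subgroup.center Γ) ≠ 1 := by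
  have hk : P.k = .U := hT.kd.symm
  have hd : finrank F V = 3 := hT.dim
  have := Module.Finite.of_finite (R := F) (M := V)
  have : Fact (Nat.Prime 3) := ⟨Nat.prime_three⟩
  obtain ⟨c, hc⟩ := exists_prime_orderOf_dvd_card' (G := Fˣ) 3
    (Sca.fparb_units hk ▸ h.mul_right _)
  have h1 : ∀ k, 3 ∣ k → (c : F) ^ k = 1 := fun k e => by
    rw [← Units.val_pow_eq_pow_val, orderOf_dvd_iff_pow_eq_one.1 (hc ▸ e), Units.val_one]
  have h2 : (c : F) * P.σ c = 1 := by rw [P.σU hk, ← pow_succ', h1 _ h]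
  let g : V ≃ₗ[F] V := LinearEquiv.smulOfUnit c
  have hg : ∀ v, g v = (c : F) • v := fun _ => rfl
  obtain ⟨z, hz⟩ := (hR g ⟨fun x y => by rw [hg, hg, smul_B, B_smul, ← mul_assoc, h2, one_mul],
    fun x => by rw [hg, Φ.smul, h2, one_mul]⟩).2 (by
      rw [show (g : V →ₗ[F] V) = (c : F) • LinearMap.id from LinearMap.ext hg,
        LinearMap.det_smul, LinearMap.det_id, mul_one, hd, h1 3 dvd_rfl])
  have h3 : z ∈ Subgroup.center Γ := Subgroup.mem_center_iff.2 fun a => R.inj (by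
    ext v
    rw [map_mul, map_mul, LinearEquiv.mul_apply, LinearEquiv.mul_apply, hz, hg, hg, map_smul])
  intro e
  rw [Subgroup.card_eq_one.1 e, Subgroup.mem_bot] at h3
  have := Module.nontrivial_of_finrank_pos (R := F) (M := V) (by omega)
  obtain ⟨v, h0⟩ := exists_ne (0 : V)
  have h4 : (c : F) = 1 := smul_left_injective F h0 (by
    change (c : F) • v = (1 : F) • v
    rw [← hg, ← hz, h3, map_one, one_smul]
    rfl)
  rw [Units.val_eq_one.1 h4, orderOf_one] at hc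
  omega

theorem u3_center (hT : Φ.IsTy .U 3) (hq : 4 ≤ P.q) (R : Φ.Rep Γ) (hR : R.Sp) :
    Nat.card (Subgroup.center Γ) = tdd (-1) P.q := by
  have hd : finrank F V = 3 := hT.dim
  obtain ⟨h1, h2⟩ := center_su hT.kd.symm (by omega) R hR (cen_U hT le_rfl hq)
  obtain ⟨h3, h4⟩ := u3_dd P.q
  rw [hd, Nat.dvd_prime Nat.prime_three] at h1
  rw [Nat.dvd_prime Nat.prime_three] at h3
  rcases h1 with a | a <;> rcases h3 with b | b
  · rw [a, b]
  · exact absurd a (u3_scal hT R hR (h4.1 (b ▸ dvd_rfl)))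
  · exact absurd (b ▸ h4.2 (a ▸ h2)) (by decide)
  · rw [a, b]

theorem u3_card (hT : Φ.IsTy .U 3) (hq : 4 ≤ P.q) (R : Φ.Rep Γ) (hR : R.Sp) :
    Nat.card (PQ Γ) = tm (-1) P.q * tw (-1) P.q := by
  have hd : finrank F V = 3 := hT.dim
  have h1 := Subgroup.card_eq_card_quotient_mul_card_subgroup (Subgroup.center Γ)
  have h2 : Nat.card Γ = Nat.card (R.ι.range.subgroupOf Φ.Iso) :=
    Nat.card_congr ((MonoidHom.ofInjective R.inj).trans
      (Subgroup.subgroupOfEquivOfLe R.le).symm).toEquiv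
  have h3 := Subgroup.card_mul_index (R.ι.range.subgroupOf Φ.Iso)
  have h4 : (R.ι.range.subgroupOf Φ.Iso).index = P.q + 1 :=
    index_su hT.kd.symm hT.nd (by omega) R hR
  have h5 := wa_twU hq
  rw [← hT.ord, ← h3, ← h2, h1, h4, u3_center hT hq R hR] at h5
  have h6 : tm (-1) P.q * tw (-1) P.q * tdd (-1) P.q * (P.q + 1) =
      Nat.card (PQ Γ) * tdd (-1) P.q * (P.q + 1) := by exact_mod_cast h5
  exact (Nat.eq_of_mul_eq_mul_right (Nat.pos_of_dvd_of_pos (u3_dd P.q).1 (by omega))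
    (Nat.eq_of_mul_eq_mul_right (Nat.succ_pos _) h6)).symm

theorem u4_num {q : ℕ} (hq : 4 ≤ q) : q ^ 3 + 1 = tm (-1) q * ((q + 1) * tdd (-1) q) ∧
    (q ^ 2) ^ 3 - 1 = (q ^ 2 + q + 1) * (tm (-1) q * tdd (-1) q) * (q ^ 2 - 1) := by
  have h := wa_mul (.inr (.inl rfl)) hq
  have h1 : 1 ≤ q ^ 2 := Nat.one_le_pow _ _ (by omega)
  have h2 : 1 ≤ (q ^ 2) ^ 3 := Nat.one_le_pow _ _ h1
  rw [tph] at h
  constructor
  · zify
    linear_combination (-(q + 1) : ℤ) * h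
  · zify [h1, h2]
    linear_combination (-(q ^ 2 + q + 1) * (q ^ 2 - 1) : ℤ) * h

theorem u4_nd {q : ℕ} (hq : 4 ≤ q) (hr : r.Prime) (hd : r ∣ tm (-1) q) :
    ¬ r ∣ tdd (-1) q ∧ ¬ r ∣ 2 := by
  refine ⟨fun e => ((wa_prime (.inr (.inl rfl)) hq hr).1 hd).2 ?_, fun e =>
    wa_not (.inr (.inl rfl)) hq hr hd ((Int.natCast_dvd_natCast.2 e).trans ?_)⟩
  · have h : r ∣ 3 := Int.natCast_dvd_natCast.1
      ((Int.natCast_dvd_natCast.2 e).trans (wa_dd (-1) q))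
    rw [(Nat.prime_dvd_prime_iff_eq hr Nat.prime_three).1 h]
    rfl
  · rw [show (q : ℤ) * (q ^ 2 - 1) = q * (q + 1) * (q - 1) by ring]
    exact (Int.even_mul_succ_self (q : ℤ)).two_dvd.mul_right _

omit [Finite F] in
theorem u4_card (hT : Φ.IsTy .U 3) : Nat.card F = P.q ^ 2 ∧ Nat.card V = (P.q ^ 3) ^ 2 := by
  have := Module.Finite.of_finite (R := F) (M := V)
  have h : Nat.card F = P.q ^ 2 := by rw [P.card, ← hT.kd]; rfl
  refine ⟨h, ?_⟩
  rw [Module.natCard_eq_pow_finrank (K := F), h, hT.dim, pow_right_comm]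
  rfl

theorem u4_irr (hT : Φ.IsTy .U 3) (hq : 4 ≤ P.q) (hr : r.Prime) (hd : r ∣ tm (-1) P.q)
    {x : V ≃ₗ[F] V} (hx : orderOf x = r) (W : Submodule F V) (hW : Stb x W) : W = ⊥ ∨ W = ⊤ :=
  irr_of (u3_prim hT hq hr hd) (by rw [hT.dim]; decide) (hx ▸ pow_orderOf_eq_one x)
    (fun e => hr.ne_one (by rw [← hx, e, orderOf_one])) W hW

theorem u3_tor (hT : Φ.IsTy .U 3) (hq : 4 ≤ P.q) (R : Φ.Rep Γ) (hR : R.Sp) :
    ∃ x : PQ Γ, orderOf x = tm (-1) P.q := by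
  have := R.finite
  have hk : P.k = .U := hT.kd.symm
  have := Module.nontrivial_of_finrank_pos (R := F) (M := V) (by rw [hT.dim]; decide)
  obtain ⟨r, hr, hd⟩ := Nat.exists_prime_and_dvd (wa_one (.inr (.inl rfl)) hq).ne'
  have := Fact.mk hr
  have h1 : r ∣ Nat.card Φ.Iso := by
    rw [← Int.natCast_dvd_natCast, hT.ord, ← wa_twU hq]
    exact ((Int.natCast_dvd_natCast.2 (hd.mul_right _)).mul_right _).mul_right _
  obtain ⟨x, hx⟩ := exists_prime_orderOf_dvd_card' r h1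
  rw [← Subgroup.orderOf_coe] at hx
  obtain ⟨z, hz, ho, -⟩ := Frm.tor_main (by simp [hk]) hT.nd x.2 (u4_irr hT hq hr hd hx)
    (fun e => (u4_nd hq hr hd).2 (hx ▸ orderOf_dvd_of_pow_eq_one e)) (u4_card hT).2
  rw [(u4_num hq).1] at ho
  have h0 : (P.q + 1) * tdd (-1) P.q ≠ 0 := fun e =>
    (orderOf_pos z).ne' (by rw [ho, e, mul_zero])
  obtain ⟨g, hg⟩ := (hR _ (pow_mem hz ((P.q + 1) * tdd (-1) P.q))).2 (by
    rw [← LinearEquiv.coe_det, map_pow, Units.val_pow_eq_pow_val, LinearEquiv.coe_det, pow_mul,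
      pow_succ', ← P.σU hk, det_norm hT.nd hz, one_pow])
  have h2 : orderOf g = tm (-1) P.q := by
    rw [← orderOf_injective R.ι R.inj, hg, orderOf_pow_of_dvd h0 (ho ▸ Dvd.intro_left _ rfl), ho,
      Nat.mul_div_cancel _ (Nat.pos_of_ne_zero h0)]
  refine ⟨QuotientGroup.mk g, (orderOf_mk_center ?_).trans h2⟩
  rw [h2, u3_center hT hq R hR]
  exact Nat.coprime_of_dvd fun k hk e => (u4_nd hq hk e).1

theorem u3_adj (hT : Φ.IsTy .U 3) (hq : 4 ≤ P.q) (R : Φ.Rep Γ) (hR : R.Sp) (φ : Γ →* SLn 3 F)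
    (hφ : Function.Injective φ) {u : ℕ} (hr : r.Prime) (hu : u.Prime) (hd : r ∣ tm (-1) P.q)
    (h : ¬ u ∣ tm (-1) P.q) : ¬ Adj (PQ Γ) u r := by
  intro hA
  have := R.finite
  have hk : P.k = .U := hT.kd.symm
  have := Module.nontrivial_of_finrank_pos (R := F) (M := V) (by rw [hT.dim]; decide)
  obtain ⟨x, hx, h1⟩ := lift_adj hu hr (fun e => h (e ▸ hd))
    (by rw [u3_center hT hq R hR]; exact (u4_nd hq hr hd).1) hA
  rw [u3_center hT hq R hR] at h1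
  have h2 := Frm.tor_cen (by simp [hk]) hT.nd R
    (u4_irr hT hq hr hd ((orderOf_injective R.ι R.inj x).trans hx))
    (fun e => (u4_nd hq hr hd).2 (hx ▸ orderOf_dvd_of_pow_eq_one e)) (u4_card hT).2
  have h3 := cen1 (n := 3) (F := F) (x := φ x) three_pos
    (by simpa [hT.dim, Ty.dim] using u3_prim hT hq hr hd) ((orderOf_injective φ hφ x).trans hx)
  have h4 : Nat.card (Subgroup.centralizer ({x} : Set Γ)) ∣
      Nat.card (Subgroup.centralizer ({φ x} : Set (SLn 3 F))) :=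
    Subgroup.card_dvd_of_injective ((φ.comp (Subgroup.subtype _)).codRestrict _ fun y =>
      Subgroup.mem_centralizer_singleton_iff.2 ((map_mul φ _ _).symm.trans ((congrArg φ
        (Subgroup.mem_centralizer_singleton_iff.1 y.2)).trans (map_mul φ _ _))))
      fun a b e => Subtype.ext (hφ (congrArg Subtype.val e))
  have h5 : 1 < P.q ^ 2 := Nat.one_lt_pow two_ne_zero (by omega)
  rw [(u4_card hT).1, (u4_num hq).2] at h3
  have h6 := h1.trans (h4.trans (Nat.dvd_of_mul_dvd_mul_right (by omega) h3))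
  have h7 := (h1.trans h2).mul_left P.q
  have h0 : 0 < tdd (-1) P.q := u3_center hT hq R hR ▸ Nat.card_pos
  rw [(u4_num hq).1] at h7
  rw [show (P.q ^ 2 + P.q + 1) * (tm (-1) P.q * tdd (-1) P.q) = P.q * (tm (-1) P.q *
    ((P.q + 1) * tdd (-1) P.q)) + tm (-1) P.q * tdd (-1) P.q by ring, Nat.dvd_add_right h7] at h6
  exact h (Nat.dvd_of_mul_dvd_mul_right h0 h6)

end Frm

theorem odata_U [StarRing F] {q : ℕ} (hq : Nat.card F = q ^ 2) (hs : ∃ a : F, star a ≠ a)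
    (h5 : 5 ≤ q) {G : Type} [Group G] [Finite G]
    (hc : Nat.card G = Nat.card (PQ (Matrix.specialUnitaryGroup (Fin 3) F)))
    (hV : Vo G = Vo (PQ (Matrix.specialUnitaryGroup (Fin 3) F))) : OData G (-1) q := by
  obtain ⟨S, Φ, R, hk, rfl, hn, hR⟩ := brg_su' 3 F hq hs
  obtain ⟨t, m, hT⟩ := Frm.exists_ty hn
  obtain rfl : t = .U := by
    have := hT.kd.trans hk
    cases t <;> simp [Ty.kd] at this ⊢
  obtain rfl : 3 = m := by simpa [Ty.dim] using hT.dim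
  have := R.finite
  let φ : Matrix.specialUnitaryGroup (Fin 3) F →* SLn 3 F :=
    ⟨⟨fun A => ⟨A.1, A.2.2⟩, rfl⟩, fun _ _ => rfl⟩
  have h4 : 4 ≤ S.q := by omega
  exact OData.transfer ⟨Frm.u3_card hT h4 R hR, Frm.u3_tor hT h4 R hR, fun r u hr hu =>
    Frm.u3_adj hT h4 R hR φ (fun _ _ e => Subtype.ext (congrArg (fun A : SLn 3 F => A.1) e)) hr hu,
    fun e => (e rfl).elim⟩ (.inr (.inl rfl)) h4 (fun r => Frm.u3_van hT h5 R hR) hc hV

end Pool.Agent.Lib.MP_7d41f7_al
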