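import Pool.Agent.Lib.MP_7d41f7_al.D.DOff
import Pool.Agent.Lib.MP_7d41f7_al.D.YMain
import Pool.Agent.Lib.MP_7d41f7_al.D.UMain
import Pool.Agent.Lib.MP_7d41f7_al.D.SBC
import Pool.Agent.Lib.MP_7d41f7_al.D.WC
import Pool.Agent.Lib.MP_7d41f7_al.D.WU
import Pool.Agent.Lib.MP_7d41f7_al.D.WL
import Pool.Agent.Lib.MP_7d41f7_al.D.ZMain
import Pool.Agent.Lib.MP_7d41f7_al.D.QMain

/-! All classical groups: assembly. -/

set_option autoImplicit false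

namespace Pool.Agent.Lib.MP_7d41f7_al

open Module Subgroup Matrix

variable {F V : Type} [Field F] [Finite F] {P : Sca F} [AddCommGroup V] [Module F V] [Finite V]
  {Φ : Frm P V} {t : Ty} {n r : ℕ} {Γ G : Type} [Group Γ] [Group G] [Finite G]

namespace Frm

theorem van_T' (hT : Φ.IsTy t n) (ht : t ≠ .U) (h3 : 3 ≤ n) (hD : n = 3 → t = .B ∨ t = .C)
    (hC : Φ.Cen) (R : Φ.Rep Γ) (hr : r.Prime) (hg : Gq t n (Ord P.q r)) (g : PQ Γ)
    (h : r ∣ orderOf g) : orderOf g ∈ Vo (PQ Γ) := by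
  obtain ⟨⟨a1, -, a2⟩, a3⟩ := hg
  refine van_O hT ht (fun _ => h3) hC R hr a1 ?_ g h
  rcases a3 with a3 | rfl | a3
  · exact .inl a3
  · by_cases a4 : 3 + 2 ≤ 2 * jc (Ord P.q r)
    · exact .inl a4
    exact .inr (.inl ⟨rfl, by unfold jc at a2 a4; split_ifs at a2 a4 <;> omega, hD rfl⟩)
  · exact .inr (.inr a3)

theorem tdata_PQ' (hT : Φ.IsTy t n) (ht : t ≠ .U) (hC : Φ.Cen) (R : Φ.Rep Γ) :
    TData (PQ Γ) t n P.q := by
  refine ⟨?_, fun r hr hg => cyc_T hT ht R hr hg.1.1 hg.1.2.2, fun r u hr hu _ hg h1 h => ?_⟩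
  · obtain ⟨c, h1, h2⟩ := card_PQ' hT hC R
    refine ⟨c, h1, fun r hr h => not_lt.1 fun e => ?_⟩
    obtain ⟨-, a2, -, a3⟩ := hT.jc ht r
    have := h2 r hr h
    have := jc_two.2 e
    rw [a2, a3] at *
    omega
  · obtain ⟨a1, -, a2, a3⟩ := hT.jc ht r
    obtain ⟨-, -, b2, b3⟩ := hT.jc ht u
    rw [← a2, ← b2]
    exact (le_or_gt _ n).imp_right fun e => adj_tor hT a1 R hr hu (a3 ▸ jc_two.2 hg.1.1)
      (b3 ▸ jc_two.2 h1) (a3 ▸ hg.1.2.2) e h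

theorem core' (hT : Φ.IsTy t n) (ht : t ≠ .U) (h3 : 3 ≤ n) (hD : n = 3 → t = .B ∨ t = .C)
    (hn : n < 32) (R : Φ.Rep Γ) (hb : 10 ^ 603 ≤ Nat.card (PQ Γ))
    (hc : Nat.card G = Nat.card (PQ Γ)) (hV : Vo G = Vo (PQ Γ)) : 4 ≤ n ∨ 4 ≤ P.q →
    (∀ r m, r.Prime → Ord ((P.q : ℤ) ^ 2) r + 1 = n → m.Coprime r →
      (Adj G m r ↔ Adj (PQ Γ) m r)) ∧
      (Off3 G ∨ ∃ (H : Type) (_ : Group H), Hit H t n P.q ∧ (∀ m r, Adj H m r → Adj G m r) ∧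
        (Nat.card G ≤ Nat.card H → Nonempty (G ≃* H))) := fun hq => by
  have := R.finite
  have hC : Φ.Cen := cen_of hT.nd (by
    rw [hT.dim, ← hT.kd]
    cases t <;> simp [Ty.kd, Ty.dim] at ht hD ⊢ <;> omega)
  have h := tdata_PQ' hT ht hC R
  have hv := fun r hr ho => van_T' (r := r) hT ht h3 hD hC R hr ho
  have hA : ∀ r m, r.Prime → Gq t n (Ord P.q r) → m.Coprime r → (Adj G m r ↔ Adj (PQ Γ) m r) :=
    fun r m hr ho hm => transfer_adj hr hm hc hV (h.cyc r hr ho) (hv r hr ho)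
  have h1 : TData G t n P.q := ⟨hc ▸ h.card, fun r hr ho => transfer_cyc hr hc hV (h.cyc r hr ho)
    (hv r hr ho), fun r u hr hu hne ho hu' ha => h.adj r u hr hu hne ho hu'
      ((hA r u hr ho ((Nat.coprime_primes hu hr).2 hne)).1 ha)⟩
  refine ⟨fun r m hr ho => hA r m hr (gq_pred h3 ho), ?_⟩
  have h2 := card_le hT R (t.ord_bd (by omega) P.q2) hb
  obtain ⟨p, f, hp, hf, e, -⟩ := P.pp
  rw [e] at h1 h2 ⊢
  obtain ⟨K, _, H, a1, a2, a3, a4, a5⟩ : ∃ (K : Subgroup G) (_ : K.Normal) (H : Subgroup (G ⧸ K)),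
      H.Normal ∧ IsSimpleGroup H ∧ ¬ IsMulCommutative H ∧ centralizer (H : Set (G ⧸ K)) = ⊥ ∧
        HOut2 H t n (p ^ f) := by
    by_cases a : t = .Dp ∧ n = 4
    · obtain ⟨rfl, rfl⟩ := a
      exact dmain hp hf (root_le h2 (by decide) (by decide)) h1
    · refine ymain hp hf ⟨⟨ht, h3, hn, ?_, ?_⟩, h2⟩ h1 <;> rintro rfl <;> simp at a hD <;> omega
  by_cases hl : OnList3 H
  · exact .inr ⟨H, _, a5.hit hl.onList2,
      fun m r h => h.of_sub.of_surj (QuotientGroup.mk'_surjective K), iso_of_card⟩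
  · exact .inl ⟨K, _, H, a1, a2, a3, a4, hl⟩

theorem four_le (hT : Φ.IsTy t n) (h3 : 3 ≤ n) (R : Φ.Rep Γ)
    (hb : 10 ^ 603 ≤ Nat.card (PQ Γ)) : 4 ≤ n ∨ 4 ≤ P.q :=
  h3.eq_or_lt.symm.imp_right fun e => root_le (a := 2)
    (card_le hT R (t.ord_bd (by omega) P.q2) hb) (by subst e; decide) (by subst e; decide)

end Frm

theorem main_sp' (h3 : 3 ≤ n) (hn : n < 32)
    (hb : 10 ^ 603 ≤ Nat.card (PQ (symplecticGroup (Fin n) F)))
    (hc : Nat.card G = Nat.card (PQ (symplecticGroup (Fin n) F)))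
    (hV : Vo G = Vo (PQ (symplecticGroup (Fin n) F))) :
    Nonempty (G ≃* PQ (symplecticGroup (Fin n) F)) ∨ Off3 G := by
  obtain ⟨Φ, R, hT, hR⟩ := sp_ty n F
  have hq := Frm.four_le hT h3 R hb
  obtain ⟨h0, h | ⟨H, _, h1, h8, h2⟩⟩ :=
    Frm.core' hT (by simp) h3 (fun _ => .inr rfl) hn R hb hc hV hq
  · exact .inr h
  rcases h1 with ⟨h, -⟩ | ⟨-, h | h, h4⟩ | ⟨-, h⟩
  · simp at h
  · obtain ⟨e⟩ := IsSp.iso (F := F) h
    exact .inl (iso_of_iso hc h2 e)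
  · obtain ⟨Q, t, m, hQ, hd, ⟨e⟩⟩ := IsOm.ty (F := F) h
    obtain ⟨rfl, rfl⟩ := ty_odd hQ.kd hd
    have ho : Odd (Nat.card F) := hQ.odd rfl
    have h5 := Frm.card_sp ((Sca.og F).two_ne.2 ho) (by rw [hT.dim]; exact (by omega : 0 < 2 * n))
      R hR
    have h6 : Int.gcd 2 ((Nat.card F : ℤ) - 1) = 2 := by
      obtain ⟨k, hk⟩ := ho
      simp [hk]
    have h7 : (Nat.card H : ℤ) * (Int.gcd 2 ((Nat.card F : ℤ) - 1)) = Nat.card Φ.Iso :=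
      h4.trans hT.ord.symm
    rw [h6] at h7
    obtain ⟨a⟩ := h2 (by omega)
    exact (bc_false' hQ h3 hq fun r m hr hj hm h =>
      ((h0 r m hr hj hm).2 h).congr (a.trans e)).elim
  · simp at h

theorem main_om' {N : ℕ} {Q : QuadraticForm F (Fin N → F)} (hQ : Q.polarBilin.Nondegenerate)
    (h7 : 7 ≤ N) (hN : N < 64) (hb : 10 ^ 603 ≤ Nat.card (PQ (commutator (orth Q))))
    (hc : Nat.card G = Nat.card (PQ (commutator (orth Q))))
    (hV : Vo G = Vo (PQ (commutator (orth Q)))) :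
    Nonempty (G ≃* PQ (commutator (orth Q))) ∨ Off3 G := by
  obtain ⟨t, n, hT⟩ := Frm.exists_ty (Φ := Frm.ofQ Q) hQ.1
  obtain ⟨R, -⟩ := brg_om Q
  obtain rfl : N = t.dim n := by simpa using hT.dim
  obtain ⟨ht, h3, hD, hn⟩ : t ≠ .U ∧ 3 ≤ n ∧ (n = 3 → t = .B ∨ t = .C) ∧ n < 32 := by
    have := hT.kd
    cases t <;> simp [Ty.kd, Ty.dim, Sca.og] at this h7 hN ⊢ <;> omega
  have hq := Frm.four_le hT h3 R hb
  obtain ⟨h0, h | ⟨H, _, h1, h8, h2⟩⟩ := Frm.core' hT ht h3 hD hn R hb hc hV hq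
  · exact .inr h
  rcases h1 with ⟨rfl, -⟩ | ⟨rfl | rfl, h, -⟩ | ⟨h, h4⟩
  · exact absurd rfl ht
  · rcases h with h | h
    · obtain ⟨e⟩ := IsSp.iso (F := F) h
      exact (bc_false' hT h3 hq fun r m hr hj hm h =>
        (h0 r m hr hj hm).1 (h8 _ _ (h.congr e.symm))).elim
    · obtain ⟨Q', t, m, hQ', hd, ⟨e⟩⟩ := IsOm.ty (F := F) h
      obtain ⟨rfl, rfl⟩ := ty_odd hQ'.kd hd
      obtain ⟨a⟩ := om_iso hQ' hT
      exact .inl (iso_of_iso hc h2 (e.trans a))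
  · exact absurd hT.kd (by simp [Ty.kd, Sca.og])
  · obtain ⟨Q', t', m, hQ', hd, ⟨e⟩⟩ := IsOm.ty (F := F) h
    obtain ⟨ht', rfl⟩ := ty_even hQ'.kd hd
    have n4 : 4 ≤ n := by
      rcases h4 with ⟨rfl, -⟩ | ⟨rfl, -⟩ <;> simp at hD <;> omega
    obtain ⟨R', -⟩ := brg_om Q'
    obtain ⟨c, c1, c2⟩ := Frm.card_PQ hQ' (by omega) R'
    rw [← Nat.card_congr e.toEquiv] at c1
    obtain ⟨e1, e2⟩ := ty_eq (h := Nat.card H) (Sca.og F).q2 n4 c2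
    obtain rfl : t' = t := by
      rcases h4 with ⟨rfl, h4⟩ | ⟨rfl, h4⟩ <;> rcases ht' with rfl | rfl
      exacts [rfl, (e1 h4 c1).elim, (e2 h4 c1).elim, rfl]
    obtain ⟨a⟩ := om_iso hQ' hT
    exact .inl (iso_of_iso hc h2 (e.trans a))

/-- The groups of rank two with an isolated torus. -/
theorem main_two {S : Type} [Group S] {b : ℤ} {q : ℕ} (hb : TB b) (hp : IsPrimePow q)
    (hq : 2 ^ 24 ≤ q) (h : OData G b q) (hc : Nat.card G = Nat.card S)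
    (hS : ∀ (H : Type) [Group H], OHit H b q → Nonempty (H ≃* S)) :
    Nonempty (G ≃* S) ∨ Off3 G := by
  obtain ⟨p, f, hp', hf, rfl⟩ := (isPrimePow_nat_iff _).1 hp
  obtain ⟨H, a1, a2, a3, a4, a5⟩ := omain hp' hf hb hq h
  by_cases hl : OnList3 H
  · obtain ⟨e⟩ := hS H (a5 hl)
    obtain rfl : H = ⊤ := H.eq_top_of_card_eq ((Nat.card_congr e.toEquiv).trans hc.symm)
    exact .inl ⟨topEquiv.symm.trans e⟩
  · exact .inr (off_top a1 a2 a3 a4 hl)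

theorem sev {q : ℕ} (h : 2 ^ 24 ≤ q) : 7 ≤ q := le_trans (by decide) h

theorem all_sl (h3 : 3 ≤ n)
    (hN : 64 ≤ n ∨ 10 ^ 603 ≤ Nat.card (PL n F) ∨ 4 ≤ n ∧ 256 < Nat.card F ^ n)
    (hc : Nat.card G = Nat.card (PL n F)) (hV : Vo G = Vo (PL n F)) :
    Nonempty (G ≃* PL n F) ∨ Off3 G := by
  have q2 : 2 ≤ Nat.card F := (Sca.og F).q2
  have a : ∀ m, m ≤ n → 2 ^ m ≤ Nat.card F ^ n := fun m h =>
    (Nat.pow_le_pow_right two_pos h).trans (Nat.pow_le_pow_left q2 n)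
  have b : 10 ^ 603 ≤ Nat.card (PL n F) → 2 ^ 2000 ≤ Nat.card F ^ (n * n) := fun h =>
    big_of h ((card_PL_le n F).trans (Nat.le_mul_of_pos_left _ two_pos))
  rcases h3.eq_or_lt with rfl | h4
  · have c : 2 ^ 24 ≤ Nat.card F :=
      root_le (b (by rcases hN with h | h | h; exacts [by omega, h, by omega])) (by decide)
        (by decide)
    refine main_two (.inl rfl) (card_pp F) c (odata_L (by have := sev c; omega) hc hV) hc ?_
    rintro H _ (⟨-, K, _, _, e, ⟨g⟩⟩ | ⟨h, -⟩ | ⟨h, -⟩)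
    exacts [(psl_iso e).map g.trans, by omega, by omega]
  refine (lmain h4 ?_ hc hV).imp_right fun ⟨H, a1, a2, a3, a4, _, a5⟩ =>
    off_top a1 a2 a3 a4 (a5.not a2 a3)
  by_cases c : 9 ≤ n
  · exact (by decide : 256 < 2 ^ 9).trans_le (a 9 c)
  rcases hN with h | h | h
  · omega
  · exact (by decide : 256 < 2 ^ 9).trans_le (root_le ((b h).trans_eq (pow_mul _ n n))
      (by omega) (by omega))
  · exact h.2

theorem all_su [StarRing F] {q : ℕ} (hq : Nat.card F = q ^ 2) (hs : ∃ a : F, star a ≠ a)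
    (h3 : 3 ≤ n) (hN : 64 ≤ n ∨ 10 ^ 603 ≤ Nat.card (PQ (specialUnitaryGroup (Fin n) F)))
    (hc : Nat.card G = Nat.card (PQ (specialUnitaryGroup (Fin n) F)))
    (hV : Vo G = Vo (PQ (specialUnitaryGroup (Fin n) F))) :
    Nonempty (G ≃* PQ (specialUnitaryGroup (Fin n) F)) ∨ Off3 G := by
  by_cases c : 64 ≤ n
  · exact (main_su hq hs c hc hV).imp_right Off.off3
  have b : 2 ^ 2000 ≤ q ^ (n * n) := by
    obtain ⟨P, Φ, R, hk, rfl, hn⟩ := brg_su n F hq hs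
    obtain ⟨t, m, hT⟩ := Frm.exists_ty hn
    obtain rfl : t = .U := by
      have := hT.kd.trans hk
      cases t <;> simp [Ty.kd] at this ⊢
    obtain rfl : n = m := by simpa [Ty.dim] using hT.dim
    exact Frm.card_le hT R (ordU_bd (by omega) (one_le_two.trans P.q2)) (hN.resolve_left c)
  rcases h3.eq_or_lt with rfl | h4
  swap
  · exact (main_su' hq hs ⟨h4, not_le.1 c, b⟩ hc hV).imp_right Off.off3
  have d : 2 ^ 24 ≤ q := root_le b (by decide) (by decide)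
  refine main_two (.inr (.inl rfl)) ((isPrimePow_pow_iff two_ne_zero).1 (hq ▸ card_pp F)) d
    (odata_U hq hs (by have := sev d; omega) hc hV) hc ?_
  rintro H _ (⟨h, -⟩ | ⟨-, K, _, _, _, e, s, ⟨g⟩⟩ | ⟨h, -⟩)
  · omega
  · obtain ⟨a⟩ := su_iso (n := 3) e s hq hs
    exact (brg_pq a).map g.trans
  · omega

theorem all_sp (h2 : 2 ≤ n)
    (hN : 64 ≤ 2 * n ∨ 10 ^ 603 ≤ Nat.card (PQ (symplecticGroup (Fin n) F)))
    (hc : Nat.card G = Nat.card (PQ (symplecticGroup (Fin n) F)))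
    (hV : Vo G = Vo (PQ (symplecticGroup (Fin n) F))) :
    Nonempty (G ≃* PQ (symplecticGroup (Fin n) F)) ∨ Off3 G := by
  by_cases c : 64 ≤ 2 * n
  · exact (main_sp c hc hV).imp_right Off.off3
  have b := hN.resolve_left c
  rcases h2.eq_or_lt with rfl | h3
  swap
  · exact main_sp' h3 (by omega) b hc hV
  obtain ⟨Φ, R, hT, -⟩ := sp_ty 2 F
  have d : 2 ^ 24 ≤ Nat.card F := root_le
    (Frm.card_le hT R (Ty.ord_bd _ two_pos (Sca.sp F).q2) b) (by decide) (by decide)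
  refine main_two (.inr (.inr rfl)) (card_pp F) d (odata_C (sev d) hc hV) hc ?_
  rintro H _ (⟨h, -⟩ | ⟨h, -⟩ | ⟨-, h⟩)
  exacts [by omega, by omega, h.iso]

theorem allclassical (S : Type) [Group S] (N q : ℕ)
    (hS : 3 ≤ N ∧ (IsSL S N q ∨ IsSU S N q) ∨ (∃ n, 2 ≤ n ∧ N = 2 * n ∧ IsSp S n q) ∨
      7 ≤ N ∧ IsOm S N q)
    (hN : 64 ≤ N ∨ 10 ^ 603 ≤ Nat.card S ∨ 4 ≤ N ∧ 256 < q ^ N ∧ IsSL S N q)
    (G : Type) [Group G] [Finite G] (hc : Nat.card G = Nat.card S) (hV : Vo G = Vo S) :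
    Nonempty (G ≃* S) ∨ Off3 G := by
  have k : ∀ {T : Type} [Group T] (e : S ≃* T), (Nat.card S = Nat.card T →
      Nat.card G = Nat.card T → Vo G = Vo T → Nonempty (G ≃* T) ∨ Off3 G) →
      Nonempty (G ≃* S) ∨ Off3 G := fun e h =>
    (h (Nat.card_congr e.toEquiv) (hc.trans (Nat.card_congr e.toEquiv))
      (hV.trans (Vo_congr e))).imp_left (.map fun a => a.trans e.symm)
  rcases or_assoc.2 hN with hN | ⟨a, b, F, _, _, rfl, ⟨e⟩⟩
  swap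
  · exact k e fun _ => all_sl (by omega) (.inr (.inr ⟨a, b⟩))
  rcases hS with ⟨a, ⟨F, _, _, -, ⟨e⟩⟩ | ⟨F, _, _, _, hq, hs, ⟨e⟩⟩⟩ |
    ⟨n, a, rfl, F, _, _, -, ⟨e⟩⟩ | ⟨a, F, _, _, Q, -, hQ, ⟨e⟩⟩
  · exact k e fun h => all_sl a (hN.imp_right fun b => .inl (h ▸ b))
  · exact k e fun h => all_su hq hs a (h ▸ hN)
  · exact k e fun h => all_sp a (h ▸ hN)
  · refine k e fun h hc hV => ?_
    by_cases c : 64 ≤ N
    · exact (main_om hQ c hc hV).imp_right Off.off3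
    · exact main_om' hQ a (not_le.1 c) (h ▸ hN.resolve_left c) hc hV

end Pool.Agent.Lib.MP_7d41f7_al
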