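import Pool.Agent.Lib.MP_7d41f7_al.D.WDefs
import Pool.Agent.Lib.MP_7d41f7_al.D.YS
import Pool.Agent.Lib.MP_7d41f7_al.C.CFin
import Pool.Agent.Lib.MP_7d41f7_al.L.SMain

/-! The second case of the theorem, and sizes. -/

set_option autoImplicit false

namespace Pool.Agent.Lib.MP_7d41f7_al

open Module Subgroup Matrix Finset

/-- The second case of the theorem. -/
def Off3 (G : Type) [Group G] : Prop :=
  ∃ (K : Subgroup G) (_ : K.Normal) (H : Subgroup (G ⧸ K)), H.Normal ∧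
    IsSimpleGroup H ∧ ¬ IsMulCommutative H ∧ centralizer (H : Set (G ⧸ K)) = ⊥ ∧ ¬ OnList3 H

variable {G H S : Type} [Group G] [Group H] [Group S]

theorem Off.off3 (h : Off G) : Off3 G :=
  let ⟨K, a, H, b, c, d, e, f⟩ := h
  ⟨K, a, H, b, c, d, e, fun g => f g.onList2.onList⟩

theorem IsPQ.congr {Γ : Type} [Group Γ] (e : S ≃* H) (h : IsPQ H Γ) : IsPQ S Γ := h.map e.trans

theorem IsSL.congr {n q : ℕ} (e : S ≃* H) (h : IsSL H n q) : IsSL S n q :=
  let ⟨F, a, b, c, d⟩ := h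
  ⟨F, a, b, c, d.map e.trans⟩

theorem IsSp.congr {n q : ℕ} (e : S ≃* H) (h : IsSp H n q) : IsSp S n q :=
  let ⟨F, a, b, c, d⟩ := h
  ⟨F, a, b, c, d.congr e⟩

theorem IsSU.congr {n q : ℕ} (e : S ≃* H) (h : IsSU H n q) : IsSU S n q :=
  let ⟨F, a, b, c, d, f, g⟩ := h
  ⟨F, a, b, c, d, f, g.congr e⟩

theorem IsOm.congr {n q : ℕ} (e : S ≃* H) (h : IsOm H n q) : IsOm S n q :=
  let ⟨F, a, b, c, d, f, g⟩ := h
  ⟨F, a, b, c, d, f, g.congr e⟩

theorem OnList3.congr (e : S ≃* H) (h : OnList3 H) : OnList3 S := by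
  unfold OnList3 at *
  rw [Nat.card_congr e.toEquiv]
  exact h.imp (.imp fun _ => .map e.trans) (.imp (.imp fun _ => .imp fun _ => .congr e)
    (.imp (.imp fun _ => .imp fun _ => .imp_right (.imp_left (.congr e)))
      (.imp (.imp fun _ => .imp fun _ => .imp_left
        (.imp (.imp_right (.congr e)) (.imp_right (.congr e))))
      (.imp_left (.imp fun _ => .imp fun _ => .imp_right (.imp_left (.congr e)))))))

theorem comm_congr (e : S ≃* H) (h : IsMulCommutative H) : IsMulCommutative S :=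
  ⟨⟨fun a b => e.injective (by rw [map_mul, map_mul]; exact h.1.1 _ _)⟩⟩

theorem off_top {H : Subgroup G} (h1 : H.Normal) (h2 : IsSimpleGroup H)
    (h3 : ¬ IsMulCommutative H) (h4 : centralizer (H : Set G) = ⊥) (h5 : ¬ OnList3 H) :
    Off3 G := by
  let e := (QuotientGroup.quotientBot (G := G)).symm
  have a := e.subgroupMap H
  refine ⟨⊥, inferInstance, H.map (e : G →* _), h1.map _ e.surjective, a.symm.isSimpleGroup,
    mt (comm_congr a) h3, eq_bot_iff.2 fun x hx => ?_, mt (.congr a) h5⟩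
  obtain ⟨y, rfl⟩ := e.surjective x
  have : y ∈ centralizer (H : Set G) := fun g hg => e.injective (by
    rw [map_mul, map_mul]; exact hx _ ⟨g, hg, rfl⟩)
  rw [h4] at this
  rw [mem_bot.1 this, map_one]
  exact one_mem _

theorem alt_five {m : ℕ} (h2 : IsSimpleGroup H) (h3 : ¬ IsMulCommutative H)
    (e : H ≃* alternatingGroup (Fin m)) : 5 ≤ m := by
  by_contra h
  rcases (by omega : m ≤ 3 ∨ m = 4) with h | rfl
  · exact h3 (comm_congr e (alternatingGroup.isMulCommutative_of_card_le_three (by simpa using h)))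
  have c : Nat.card (Fin 4) = 4 := by simp
  have := e.symm.isSimpleGroup
  have a := alternatingGroup.kleinFour_card_of_card_eq_four c
  rcases (alternatingGroup.normal_kleinFour c).eq_bot_or_eq_top with b | b <;> rw [b] at a
  · simp at a
  · rw [card_top, alternatingGroup.card_of_card_eq_four c] at a
    omega

theorem IsSU.pp {m u : ℕ} (h : IsSU H m u) : IsPrimePow u := by
  obtain ⟨F, _, _, _, e, -⟩ := h
  exact (isPrimePow_pow_iff two_ne_zero).1 (e ▸ card_pp F)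

theorem IsSp.pp {m u : ℕ} (h : IsSp H m u) : IsPrimePow u := by
  obtain ⟨F, _, _, e, -⟩ := h
  exact e ▸ card_pp F

theorem IsOm.pp {m u : ℕ} (h : IsOm H m u) : IsPrimePow u := by
  obtain ⟨F, _, _, _, e, -⟩ := h
  exact e ▸ card_pp F

theorem OffList.not (h : OffList H) (h2 : IsSimpleGroup H) (h3 : ¬ IsMulCommutative H) :
    ¬ OnList3 H := fun l => by
  rcases l.onList2.onList with ⟨m, ⟨e⟩⟩ | ⟨m, K, _, _, ⟨e⟩⟩ | ⟨m, u, a, b, c⟩ | ⟨m, u, a, b, c⟩ |
    ⟨m, u, a, b, c⟩ | ⟨u, a, b⟩ | a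
  · have a := alt_five h2 h3 e
    have : Nontrivial (Fin m) := Fin.nontrivial_iff_two_le.2 (by omega)
    exact h.2 (.inl ⟨m, a, by
      rw [Nat.card_congr e.toEquiv, two_mul_nat_card_alternatingGroup, Nat.card_perm]; simp⟩)
  · exact (h.1 m K).false e
  · exact h.2 (.inr (.inr ⟨u, b.pp, .inl ⟨m, a, c⟩⟩))
  · exact h.2 (.inr (.inr ⟨u, b.elim IsSp.pp IsOm.pp, .inr (.inl ⟨m, a, c⟩)⟩))
  · refine h.2 (.inr (.inr ⟨u, b.pp, .inr (.inr (c.imp (fun c => ⟨m, a, c⟩) fun c =>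
      .inl ⟨m, a, ?_⟩))⟩))
    simpa only [OrdD, sub_neg_eq_add] using c
  · exact h.2 (.inr (.inr ⟨u, a, .inr (.inr (.inr (.inr b)))⟩))
  · exact h.2 (.inr (.inl a))

theorem HOut2.hit {t : Ty} {n q : ℕ} (h : HOut2 H t n q) (hl : OnList2 H) : Hit H t n q := by
  rcases hl with ⟨m, ⟨e⟩⟩ | ⟨m, K, _, _, ⟨e⟩⟩ | ⟨m, u, hm, h1, h2⟩ | ⟨m, u, hm, h1, h2⟩ |
    ⟨m, u, hm, h1, h2⟩ | ⟨u, hu, h1⟩ | h1
  · exact ((h.alt m).false e).elim
  · exact ((h.lin m K).false e).elim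
  · obtain ⟨e, rfl, rfl⟩ := h.uni m u hm h1 h2
    exact .inl ⟨e, h1⟩
  · obtain ⟨e, rfl, rfl⟩ := h.sym m u hm h1 h2
    exact .inr (.inl ⟨e, h1, h2⟩)
  · rcases h2 with h2 | h2
    · obtain ⟨e, rfl, rfl⟩ := h.dp m u hm h1 h2
      exact .inr (.inr ⟨h1, .inl ⟨e, h2⟩⟩)
    · obtain ⟨e, rfl, rfl⟩ := h.dm m u hm h1 h2
      exact .inr (.inr ⟨h1, .inr ⟨e, h2⟩⟩)
  · exact (h.exc u hu h1).elim
  · exact (h.spor h1).elim

theorem root_le {q e a b : ℕ} (h : 2 ^ b ≤ q ^ e) (he : e ≠ 0) (ha : a * e ≤ b) : 2 ^ a ≤ q := by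
  by_contra hq
  have h1 : q ^ e < (2 ^ a) ^ e := Nat.pow_lt_pow_left (not_le.1 hq) he
  rw [← pow_mul] at h1
  exact (h1.trans_le (Nat.pow_le_pow_right two_pos ha)).not_ge h

theorem big_of {g x : ℕ} (h : 10 ^ 603 ≤ g) (hx : g ≤ 2 * x) : 2 ^ 2000 ≤ x :=
  Nat.le_of_mul_le_mul_left (((by decide +kernel : 2 * 2 ^ 2000 ≤ 10 ^ 603).trans h).trans hx)
    two_pos

theorem card_PL_le (n : ℕ) (F : Type) [Field F] [Finite F] :
    Nat.card (PL n F) ≤ Nat.card F ^ (n * n) := by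
  have : Finite (Matrix (Fin n) (Fin n) F) := inferInstanceAs (Finite (Fin n → Fin n → F))
  have : Finite (SpecialLinearGroup (Fin n) F) := Subtype.finite
  refine ((Nat.card_le_card_of_surjective _ (QuotientGroup.mk_surjective
    (α := SpecialLinearGroup (Fin n) F))).trans
    (Nat.card_le_card_of_injective _ Subtype.val_injective)).trans_eq ?_
  change Nat.card (Fin n → Fin n → F) = _
  simp [Nat.card_pi, pow_mul]

theorem ordU_bd {n q : ℕ} (hn : 0 < n) (hq : 1 ≤ q) : Ty.U.ord n q ≤ 2 * (q : ℤ) ^ (n * n) := by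
  have u1 : (1 : ℤ) ≤ q := by exact_mod_cast hq
  have a : ∏ i ∈ Icc 2 n, ((q : ℤ) ^ i - (-1) ^ i) ≤ q ^ (n * (n + 1) / 2 - 1) := by
    obtain ⟨k, rfl | rfl⟩ : ∃ k, n = 2 * k + 1 ∨ n = 2 * k + 1 + 1 := ⟨(n - 1) / 2, by omega⟩
    · rw [show (2 * k + 1) * (2 * k + 1 + 1) = 2 * (k * (2 * k + 3) + 1) by ring,
        Nat.mul_div_cancel_left _ two_pos, Nat.add_sub_cancel]
      exact fat_prodU u1 k
    · rw [show (2 * k + 1 + 1) * (2 * k + 1 + 1 + 1) =
        2 * (k * (2 * k + 3) + (2 * k + 1 + 1) + 1) by ring, Nat.mul_div_cancel_left _ two_pos,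
        Nat.add_sub_cancel, prod_Icc_succ_top (by omega), Even.neg_one_pow ⟨k + 1, by ring⟩,
        pow_add _ (k * _)]
      exact mul_le_mul (fat_prodU u1 k) (by omega) (fat_sub u1 _) (by positivity)
  have b : n * n = n * (n - 1) / 2 + (1 + (n * (n + 1) / 2 - 1)) := by
    obtain ⟨m, rfl⟩ : ∃ m, n = m + 1 := ⟨n - 1, by omega⟩
    have c := Nat.two_mul_div_two_of_even (Nat.even_mul_succ_self m)
    have d := Nat.two_mul_div_two_of_even (Nat.even_mul_succ_self (m + 1))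
    rw [Nat.add_sub_cancel, mul_comm (m + 1) m]
    have : (m + 1) * (m + 1) * 2 = m * (m + 1) + (m + 1) * (m + 1 + 1) := by ring
    have : 2 ≤ (m + 1) * (m + 1 + 1) := by nlinarith
    omega
  rw [Ty.ord, ← insert_Icc_succ_left_eq_Icc hn, prod_insert (by simp), b, pow_add, pow_add,
    mul_left_comm 2, ← mul_assoc 2, pow_one, pow_one]
  exact mul_le_mul_of_nonneg_left ((mul_le_mul_of_nonneg_left a (by omega : (0 : ℤ) ≤ q - -1)).trans
    (mul_le_mul_of_nonneg_right (by omega : (q : ℤ) - -1 ≤ 2 * q) (by positivity))) (by positivity)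

variable {F V : Type} [Field F] [Finite F] {P : Sca F} [AddCommGroup V] [Module F V] [Finite V]
  {Φ : Frm P V} {t : Ty} {n : ℕ} {Γ : Type} [Group Γ]

omit [Finite F] in
theorem Frm.card_le (hT : Φ.IsTy t n) (R : Φ.Rep Γ) {x : ℕ} (hx : t.ord n P.q ≤ 2 * (P.q : ℤ) ^ x)
    (h : 10 ^ 603 ≤ Nat.card (PQ Γ)) : 2 ^ 2000 ≤ P.q ^ x := by
  have := R.finite
  have : Finite (V ≃ₗ[F] V) := Finite.of_injective (fun g : V ≃ₗ[F] V => (g : V → V))
    DFunLike.coe_injective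
  refine big_of h (((Nat.card_le_card_of_surjective _ QuotientGroup.mk_surjective).trans
    (Nat.card_le_card_of_injective (fun g => (⟨R.ι g, R.le ⟨g, rfl⟩⟩ : Φ.Iso))
      fun a b e => R.inj (congrArg Subtype.val e))).trans ?_)
  rw [← hT.ord] at hx
  exact_mod_cast hx

end Pool.Agent.Lib.MP_7d41f7_al
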