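import Pool.Agent.Lib.MP_7d41f7_al.D.YK
import Pool.Agent.Lib.MP_7d41f7_al.D.YS

/-! The orthogonal group of plus type in dimension eight: arithmetic of the order. -/

set_option autoImplicit false

namespace Pool.Agent.Lib.MP_7d41f7_al

open Finset

variable {h q a b r u v i k p f g c m : ℕ}

/-- What is known about the order `h` of the simple section. -/
structure K4 (h q a b : ℕ) : Prop where
  big : 2 ^ 55 ≤ q
  dvd : (h : ℤ) ∣ Ty.Dp.ord 4 q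
  kept : a * b ^ 2 ∣ h
  a1 : a ∣ q ^ 4 + q ^ 2 + 1
  a2 : q ^ 4 + q ^ 2 + 1 ∣ 21 * a
  a3 : ¬ 3 ∣ a
  b1 : b ∣ q ^ 2 + 1
  b2 : q ^ 2 + 1 ∣ 2 * b
  b3 : ¬ 2 ∣ b

theorem q4_ord (q : ℤ) : Ty.Dp.ord 4 q =
    2 * q ^ 12 * (q ^ 2 - 1) ^ 4 * (q ^ 2 + 1) ^ 2 * (q ^ 4 + q ^ 2 + 1) := by
  simp only [Ty.ord, show Icc 1 (4 - 1) = {1, 2, 3} from rfl]
  rw [if_neg (by decide), prod_insert (by decide), prod_insert (by decide), prod_singleton]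
  ring

theorem q4_cls3 (hr : r.Prime) (h3 : r ≠ 3) (h : (r : ℤ) ∣ (q : ℤ) ^ 2 + q + 1) : Ord q r = 3 := by
  refine Ord.eq_of three_pos (h.trans ⟨q - 1, by ring⟩) fun p hp c f => ?_
  rw [(Nat.prime_dvd_prime_iff_eq hp Nat.prime_three).1 c, Nat.div_self three_pos, pow_one] at f
  exact h3 (prime_eq hr Nat.prime_three
    ((dvd_sub h (f.mul_left (q + 2))).trans (dvd_of_eq (by push_cast; ring))))

theorem q4_cls6 (hr : r.Prime) (h3 : r ≠ 3) (h : (r : ℤ) ∣ (q : ℤ) ^ 2 - q + 1) : Ord q r = 6 := by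
  refine Ord.eq_of (by omega) (h.trans ⟨(q + 1) * (q ^ 3 - 1), by ring⟩) fun p hp c f => ?_
  rcases hp.dvd_mul.1 (show p ∣ 2 * 3 from c) with c | c
  · obtain rfl := (Nat.prime_dvd_prime_iff_eq hp Nat.prime_two).1 c
    obtain rfl := prime_eq hr Nat.prime_two
      ((dvd_sub (h.mul_left (q + 1)) f).trans (dvd_of_eq (by push_cast; ring)))
    obtain ⟨z, e⟩ := Int.even_mul_pred_self (q : ℤ)
    rw [show (q : ℤ) ^ 2 - q + 1 = q * (q - 1) + 1 by ring, e] at h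
    omega
  · obtain rfl := (Nat.prime_dvd_prime_iff_eq hp Nat.prime_three).1 c
    exact h3 (prime_eq hr Nat.prime_three
      ((dvd_sub f ((dvd_sub f h).mul_left (q + 2))).trans (dvd_of_eq (by push_cast; ring))))

theorem q4_cls4 (hr : r.Prime) (h2 : r ≠ 2) (h : r ∣ q ^ 2 + 1) : Ord q r = 4 := by
  have d : (r : ℤ) ∣ (q : ℤ) ^ 2 + 1 := by exact_mod_cast h
  refine Ord.eq_of four_pos (d.trans ⟨q ^ 2 - 1, by ring⟩) fun p hp c f => ?_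
  obtain rfl := (Nat.prime_dvd_prime_iff_eq hp Nat.prime_two).1
    (hp.dvd_of_dvd_pow (show p ∣ 2 ^ 2 from c))
  exact h2 (prime_eq hr Nat.prime_two ((dvd_sub d f).trans (dvd_of_eq (by push_cast; ring))))

theorem q4_clsA (hr : r.Prime) (h3 : r ≠ 3) (h : r ∣ q ^ 4 + q ^ 2 + 1) :
    Ord q r = 3 ∨ Ord q r = 6 := by
  have d : (r : ℤ) ∣ ((q : ℤ) ^ 2 + q + 1) * ((q : ℤ) ^ 2 - q + 1) :=
    (Int.natCast_dvd_natCast.2 h).trans (dvd_of_eq (by push_cast; ring))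
  exact ((Nat.prime_iff_prime_int.1 hr).dvd_or_dvd d).imp (q4_cls3 hr h3) (q4_cls6 hr h3)

theorem q4_le (hr : r.Prime) (h : 0 < Ord q r) : Ord q r ∣ r - 1 ∧ ¬ r ∣ q := by
  have := Fact.mk hr
  have c : ¬ (r : ℤ) ∣ q := fun c => h.ne' (Ord.eq_zero hr c)
  exact ⟨ZMod.orderOf_dvd_card_sub_one fun e => c ((ZMod.intCast_zmod_eq_zero_iff_dvd _ r).1 e),
    fun e => c (Int.natCast_dvd_natCast.2 e)⟩

theorem q4_seven (hr : r.Prime) (h : Ord q r = 3 ∨ Ord q r = 6) : 7 ≤ r := by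
  have h1 := (q4_le hr (by omega : 0 < Ord q r)).1
  have h2 := hr.two_le
  have h4 : r ≠ 4 := fun e => absurd (e ▸ hr) (by decide)
  rcases h with e | e <;> rw [e] at h1 <;> omega

theorem q4_five (hr : r.Prime) (h : Ord q r = 4) : 5 ≤ r := by
  have h1 := (q4_le hr (by omega : 0 < Ord q r)).1
  have h2 := hr.two_le
  rw [h] at h1
  omega

theorem q4_ppA_aux (hr : r.Prime) (h3 : 3 ≤ r) (ho : 0 < Ord q r) :
    ¬ (r : ℤ) ∣ 2 ∧ ¬ (r : ℤ) ∣ q :=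
  ⟨fun e => by have := Int.le_of_dvd two_pos e; omega,
    fun e => (q4_le hr ho).2 (Int.natCast_dvd_natCast.1 e)⟩

theorem q4_ppA (hq : 2 ≤ q) (hr : r.Prime) (ho : Ord q r = 3 ∨ Ord q r = 6)
    (h : ((r ^ i : ℕ) : ℤ) ∣ Ty.Dp.ord 4 q) : r ^ i ∣ q ^ 4 + q ^ 2 + 1 ∧ r ^ i ≤ (q + 1) ^ 2 := by
  have hp := Nat.prime_iff_prime_int.1 hr
  have h7 := q4_seven hr ho
  obtain ⟨n2, nq⟩ := q4_ppA_aux (q := q) hr (by omega) (by omega)
  have hd := Ord.dvd_iff (b := q) (r := r)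
  have n3 : ¬ (r : ℤ) ∣ q ^ 2 - 1 := fun e => by
    have := (hd 2).1 e
    rcases ho with o | o <;> simp [o] at this
  have n4 : ¬ (r : ℤ) ∣ q ^ 2 + 1 := fun e => by
    have := (hd 4).1 (by
      rw [show (q : ℤ) ^ 4 - 1 = (q ^ 2 + 1) * (q ^ 2 - 1) by ring]; exact e.mul_right _)
    rcases ho with o | o <;> simp [o] at this
  rw [q4_ord, Nat.cast_pow] at h
  have h1 := hp.pow_dvd_of_dvd_mul_left i (fun e => by
    simp only [hp.dvd_mul, hp.dvd_pow_iff_dvd, ne_eq, OfNat.ofNat_ne_zero, not_false_eq_true] at e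
    tauto) h
  refine ⟨by exact_mod_cast h1, ?_⟩
  rw [show (q : ℤ) ^ 4 + q ^ 2 + 1 = (q ^ 2 + q + 1) * (q ^ 2 - q + 1) by ring] at h1
  have hq' : (2 : ℤ) ≤ q := by exact_mod_cast hq
  suffices (r : ℤ) ^ i ≤ (q + 1) ^ 2 by exact_mod_cast this
  by_cases e : (r : ℤ) ∣ q ^ 2 + q + 1
  · refine (Int.le_of_dvd (by positivity) (hp.pow_dvd_of_dvd_mul_right i (fun e' => ?_) h1)).trans
      (by nlinarith)
    have := dvd_sub e e'
    rw [show (q : ℤ) ^ 2 + q + 1 - (q ^ 2 - q + 1) = 2 * q by ring, hp.dvd_mul] at this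
    tauto
  · exact (Int.le_of_dvd (by nlinarith) (hp.pow_dvd_of_dvd_mul_left i e h1)).trans (by nlinarith)

theorem q4_ppZ (hr : r.Prime) (ho : Ord q r = 4) (h : ((r ^ i : ℕ) : ℤ) ∣ Ty.Dp.ord 4 q) :
    r ^ i ∣ (q ^ 2 + 1) ^ 2 := by
  have hp := Nat.prime_iff_prime_int.1 hr
  have h5 := q4_five hr ho
  obtain ⟨n2, nq⟩ := q4_ppA_aux (q := q) hr (by omega) (by omega)
  have hd := Ord.dvd_iff (b := q) (r := r)
  have n3 : ¬ (r : ℤ) ∣ q ^ 2 - 1 := fun e => by simpa [ho] using (hd 2).1 e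
  have n4 : ¬ (r : ℤ) ∣ q ^ 4 + q ^ 2 + 1 := fun e => by
    have := (hd 6).1 (by
      rw [show (q : ℤ) ^ 6 - 1 = (q ^ 4 + q ^ 2 + 1) * (q ^ 2 - 1) by ring]; exact e.mul_right _)
    simp [ho] at this
  rw [q4_ord, Nat.cast_pow, mul_right_comm] at h
  exact_mod_cast hp.pow_dvd_of_dvd_mul_left i (fun e => by
    simp only [hp.dvd_mul, hp.dvd_pow_iff_dvd, ne_eq, OfNat.ofNat_ne_zero, not_false_eq_true] at e
    tauto) h

theorem q4_split (q : ℕ) : ∃ a b, (a = q ^ 4 + q ^ 2 + 1 ∨ 3 * a = q ^ 4 + q ^ 2 + 1) ∧ ¬ 3 ∣ a ∧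
    (b = q ^ 2 + 1 ∨ 2 * b = q ^ 2 + 1) ∧ ¬ 2 ∣ b := by
  rw [show q ^ 4 = (q ^ 2) ^ 2 by ring]
  have h1 : ∃ a, (a = (q ^ 2) ^ 2 + q ^ 2 + 1 ∨ 3 * a = (q ^ 2) ^ 2 + q ^ 2 + 1) ∧ ¬ 3 ∣ a := by
    obtain ⟨m, e | e⟩ : ∃ m, q ^ 2 = 3 * m ∨ q ^ 2 = 3 * m + 1 := by
      refine ⟨q ^ 2 / 3, ?_⟩
      have : q ^ 2 % 3 = 0 ∨ q ^ 2 % 3 = 1 := by
        rcases (by omega : q % 3 = 0 ∨ q % 3 = 1 ∨ q % 3 = 2) with e | e | e <;>
          simp [Nat.pow_mod, e]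
      omega
    · exact ⟨3 * (3 * m ^ 2 + m) + 1, .inl (by rw [e]; ring), by omega⟩
    · exact ⟨3 * (m ^ 2 + m) + 1, .inr (by rw [e]; ring), by omega⟩
  obtain ⟨a, h1, h2⟩ := h1
  rcases Nat.even_or_odd' q with ⟨z, rfl | rfl⟩
  · exact ⟨a, 2 * (2 * z ^ 2) + 1, h1, h2, .inl (by ring), by omega⟩
  · exact ⟨a, 2 * (z ^ 2 + z) + 1, h1, h2, .inr (by ring), by omega⟩

theorem q4_lost (hq : 2 ≤ q) (hc : (g : ℤ) * c = Ty.Dp.ord 4 q)
    (hc' : ∀ r, r.Prime → r ∣ c → Ord q r ≤ 2) (hr : r.Prime) (ho : Ord q r = 3 ∨ Ord q r = 6)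
    (h : ∀ u, u.Prime → Ord q u = 4 → u ^ g.factorization u ≡ 1 [MOD r ^ g.factorization r]) :
    r ^ g.factorization r ∣ 7 := by
  have h7 := q4_seven hr ho
  have g0 : g ≠ 0 := fun e => (Ty.Dp.ord_pos hq 4).ne' (by rw [← hc, e]; simp)
  have gd : ∀ u, ((u ^ g.factorization u : ℕ) : ℤ) ∣ Ty.Dp.ord 4 q := fun u =>
    hc ▸ (Int.natCast_dvd_natCast.2 (Nat.ordProj_dvd g u)).mul_right _
  obtain ⟨-, b, -, -, hb, b2⟩ := q4_split q
  obtain ⟨d, hd, e⟩ : ∃ d, (d = 1 ∨ d = 2) ∧ d * b = q ^ 2 + 1 :=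
    hb.elim (fun e => ⟨1, .inl rfl, by omega⟩) fun e => ⟨2, .inr rfl, e⟩
  have b0 : b ^ 2 ≠ 0 := pow_ne_zero _ fun e => b2 (by simp [e])
  have bd : b ^ 2 ∣ g * c := by
    rw [← Int.natCast_dvd_natCast, Nat.cast_mul, hc, q4_ord]
    have : (q : ℤ) ^ 2 + 1 = d * b := by exact_mod_cast e.symm
    rw [this, mul_pow]
    push_cast
    exact ((dvd_mul_left _ _).mul_left _).mul_right _
  have h1 : b ^ 2 ≡ 1 [MOD r ^ g.factorization r] := by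
    rw [← Nat.prod_factorization_pow_eq_self b0]
    refine prod_induction _ (· ≡ 1 [MOD _]) (fun x y hx hy => by simpa using hx.mul hy) .rfl
      fun u hu => ?_
    have up := Nat.prime_of_mem_primeFactors hu
    have ub := up.dvd_of_dvd_pow (Nat.dvd_of_mem_primeFactors hu)
    have u2 : u ≠ 2 := fun e => b2 (e ▸ ub)
    have uo := q4_cls4 up u2 (e ▸ ub.mul_left d)
    have ud : u.Coprime (d ^ 2) := (up.coprime_iff_not_dvd.2 fun e => by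
      have := Nat.le_of_dvd (by omega) e
      have := up.two_le
      omega).pow_right _
    have uc : u.Coprime c := up.coprime_iff_not_dvd.2 fun e => by have := hc' u up e; omega
    have l1 := q4_ppZ up uo (gd u)
    rw [← e, mul_pow] at l1
    rw [le_antisymm ((up.pow_dvd_iff_le_factorization g0).1 ((uc.pow_left _).dvd_of_dvd_mul_right
      ((Nat.ordProj_dvd _ u).trans bd)))
      ((up.pow_dvd_iff_le_factorization b0).1 ((ud.pow_left _).dvd_of_dvd_mul_left l1))]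
    exact h u up uo
  have h2 := Int.natCast_dvd_natCast.2 (q4_ppA hq hr ho (gd r)).1
  have h3 := h1.symm.dvd
  have c3 : (r ^ g.factorization r).Coprime 3 :=
    ((Nat.coprime_primes hr Nat.prime_three).2 (by omega)).pow_left _
  generalize r ^ g.factorization r = R at *
  have e' : (d : ℤ) * b = q ^ 2 + 1 := by exact_mod_cast e
  have h4 : (R : ℤ) ∣ d ^ 2 - q ^ 2 := by
    have := dvd_sub h2 (h3.mul_left (d ^ 2))
    push_cast at this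
    rwa [show (q : ℤ) ^ 4 + q ^ 2 + 1 - d ^ 2 * (b ^ 2 - 1) = d ^ 2 - q ^ 2 by
      linear_combination (-(d : ℤ) * b - q ^ 2 - 1) * e'] at this
  have h5 : (R : ℤ) ∣ d ^ 4 + d ^ 2 + 1 := by
    have := dvd_add h2 (h4.mul_right (d ^ 2 + q ^ 2 + 1))
    push_cast at this
    rwa [show (q : ℤ) ^ 4 + q ^ 2 + 1 + (d ^ 2 - q ^ 2) * (d ^ 2 + q ^ 2 + 1) = d ^ 4 + d ^ 2 + 1 by
      ring] at this
  refine c3.dvd_of_dvd_mul_left (Int.natCast_dvd_natCast.1 (h5.trans ?_))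
  rcases hd with rfl | rfl <;> norm_num

theorem q4_notK (hq : 2 ^ 55 ≤ q) {y : ℕ} (h1 : y ∣ (q ^ 2 + 1) ^ 2) (h2 : 1 < y)
    (h3 : q ^ 4 + q ^ 2 + 1 ∣ 21 * (y - 1)) : False := by
  obtain ⟨s, hs⟩ := h1
  obtain ⟨z, rfl⟩ : ∃ z, y = z + 1 := ⟨y - 1, by omega⟩
  rw [Nat.add_sub_cancel, show q ^ 4 = (q ^ 2) ^ 2 by ring] at h3
  have hx : 43 ≤ q ^ 2 := le_trans (by omega) (Nat.le_self_pow two_ne_zero q)
  generalize q ^ 2 = x at *
  have h4 := Nat.le_of_dvd (by omega) h3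
  have h5 : s ≤ 42 := by
    by_contra hc
    have := Nat.mul_le_mul_left (z + 1) (not_le.1 hc)
    nlinarith
  have h6 : ((x ^ 2 + x + 1 : ℕ) : ℤ) ∣ 21 * (x - s) := by
    have e : (21 * (x - s) : ℤ) = (21 * z : ℕ) * s - 21 * (x ^ 2 + x + 1 : ℕ) := by
      zify at hs
      push_cast
      linear_combination 21 * hs
    rw [e]
    exact ((Int.natCast_dvd_natCast.2 h3).mul_right _).sub (dvd_mul_left _ _)
  have h7 := Int.le_of_dvd (by omega) h6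
  have h8 : x ^ 2 + x + 1 ≤ 21 * x := by omega
  nlinarith

theorem q4_notI (hu : u.Prime) (ho : Ord q u = 4)
    (h : ∀ r, r.Prime → Ord q r = 3 ∨ Ord q r = 6 → u ∣ r - 1) : False := by
  have n2 : ¬ (u : ℤ) ∣ (q : ℤ) ^ 2 - 1 := by
    rw [Ord.dvd_iff, ho]
    decide
  have d1 : (u : ℤ) ∣ (q : ℤ) ^ 2 + 1 := by
    have := (Ord.dvd_iff (b := q) (r := u) 4).2 (ho ▸ dvd_rfl)
    rw [show (q : ℤ) ^ 4 - 1 = (q ^ 2 + 1) * (q ^ 2 - 1) by ring] at this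
    exact ((Nat.prime_iff_prime_int.1 hu).dvd_or_dvd this).resolve_right n2
  obtain ⟨a, -, ha, h3, -⟩ := q4_split q
  rcases ha with rfl | ha
  · have e := (not_a_aux2 (q ^ 2 + q + 1) (by positivity) fun r hr d => h r hr (.inl
      (q4_cls3 hr (fun e => h3 (e ▸ ?_)) (by exact_mod_cast d)))).dvd
    · refine n2 ?_
      have := (d1.add e).mul_left (-(q + 1))
      push_cast at this
      rwa [show (-(q + 1) * (q ^ 2 + 1 + (1 - (q ^ 2 + q + 1))) : ℤ) = q ^ 2 - 1 by ring] at this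
    · refine Int.natCast_dvd_natCast.1 ((Int.natCast_dvd_natCast.2 d).trans ⟨q ^ 2 - q + 1, ?_⟩)
      push_cast
      ring
  · have e := (not_a_aux2 a (Nat.pos_of_ne_zero fun e => h3 (e ▸ dvd_zero 3)) fun r hr d => h r hr
      (q4_clsA hr (fun e => h3 (e ▸ d)) (ha ▸ d.mul_left 3))).dvd
    have k := (e.mul_left 3).add (d1.mul_left (q ^ 2))
    zify at ha
    rw [show (3 * ((1 : ℕ) - a) + q ^ 2 * (q ^ 2 + 1) : ℤ) = 2 by
      push_cast; linear_combination -ha] at k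
    have := Int.le_of_dvd two_pos k
    have := q4_five hu ho
    omega

theorem q4_ex_aux {B y : ℕ} (hB : 21 < B) (d : B ∣ 21 * y) : ∃ r, r.Prime ∧ r ∣ B ∧ r ∣ y :=
  Nat.Prime.not_coprime_iff_dvd.1 fun e =>
    hB.not_ge (Nat.le_of_dvd (by norm_num) (e.dvd_of_dvd_mul_right d))

theorem q4_ex (hq : 2 ^ 55 ≤ q) {y : ℕ} (h : q ^ 4 + q ^ 2 + 1 ∣ 21 * y) (h3 : ¬ 3 ∣ y) :
    (∃ r, r.Prime ∧ r ∣ y ∧ Ord q r = 3) ∧ ∃ r, r.Prime ∧ r ∣ y ∧ Ord q r = 6 := by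
  obtain ⟨w, rfl⟩ : ∃ w, q = w + 1 := ⟨q - 1, by omega⟩
  rw [show (w + 1) ^ 4 + (w + 1) ^ 2 + 1 = ((w + 1) ^ 2 + (w + 1) + 1) * (w ^ 2 + w + 1) by
    ring] at h
  obtain ⟨r, hr, d, e⟩ := q4_ex_aux (by omega) ((dvd_mul_right _ _).trans h)
  obtain ⟨s, hs, d', e'⟩ := q4_ex_aux (by omega) ((dvd_mul_left _ _).trans h)
  refine ⟨⟨r, hr, e, q4_cls3 hr (fun k => h3 (k ▸ e)) (by exact_mod_cast d)⟩,
    s, hs, e', q4_cls6 hs (fun k => h3 (k ▸ e')) ?_⟩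
  rw [show ((w + 1 : ℕ) : ℤ) ^ 2 - (w + 1 : ℕ) + 1 = (w ^ 2 + w + 1 : ℕ) by push_cast; ring]
  exact Int.natCast_dvd_natCast.2 d'

theorem K4.oa (K : K4 h q a b) (hr : r.Prime) (d : r ∣ a) : Ord q r = 3 ∨ Ord q r = 6 :=
  q4_clsA hr (fun e => K.a3 (e ▸ d)) (d.trans K.a1)

theorem K4.ob (K : K4 h q a b) (hr : r.Prime) (d : r ∣ b) : Ord q r = 4 :=
  q4_cls4 hr (fun e => K.b3 (e ▸ d)) (d.trans K.b1)

theorem K4.q2 (K : K4 h q a b) : 2 ≤ q := le_trans (by norm_num) K.big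

theorem K4.pos (K : K4 h q a b) : 0 < h := Nat.pos_of_ne_zero fun e =>
  (Ty.Dp.ord_pos K.q2 4).ne' (zero_dvd_iff.1 (by simpa [e] using K.dvd))

theorem K4.exb (K : K4 h q a b) : ∃ r, r.Prime ∧ r ∣ b := by
  refine Nat.exists_prime_and_dvd fun e => ?_
  have := Nat.le_of_dvd (by omega) K.b2
  have := K.q2
  nlinarith

theorem K4.low (K : K4 h q a b) : q ^ 4 ≤ 21 * a ∧ q ^ 8 ≤ 84 * (a * b ^ 2) ∧ 2 ^ 430 ≤ h := by
  have h1 : q ^ 4 ≤ 21 * a := le_trans (by omega) (Nat.le_of_dvd (by have := K.a3; omega) K.a2)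
  have h2 : q ^ 2 ≤ 2 * b := le_trans (by omega) (Nat.le_of_dvd (by have := K.b3; omega) K.b2)
  have h3 : q ^ 8 ≤ 84 * (a * b ^ 2) := by
    have := Nat.mul_le_mul h1 (Nat.pow_le_pow_left h2 2)
    rwa [show q ^ 4 * (q ^ 2) ^ 2 = q ^ 8 by ring,
      show 21 * a * (2 * b) ^ 2 = 84 * (a * b ^ 2) by ring] at this
  have h4 := Nat.le_of_dvd K.pos K.kept
  have h5 := Nat.pow_le_pow_left K.big 8
  have h6 : 84 * 2 ^ 430 ≤ (2 ^ 55) ^ 8 := by decide +kernel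
  refine ⟨h1, h3, Nat.le_of_mul_le_mul_left (h6.trans (h5.trans (h3.trans ?_))) (by norm_num)⟩
  exact Nat.mul_le_mul_left 84 h4

theorem K4.not_spor (K : K4 h q a b) : h ∉ sporOrd := by
  intro e
  have h3 : ∀ x ∈ sporOrd, x < 2 ^ 430 := by decide +kernel
  exact absurd (h3 h e) K.low.2.2.not_gt

theorem K4.cross (K : K4 h q a b) (hv : v.Prime) (hq : ¬ v ∣ q) (ha : ¬ v ∣ a) (hb : ¬ v ∣ b)
    (h1 : v ^ k ∣ h) (h2 : h ^ 3 ≤ (v ^ k) ^ 8) : False := by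
  have a1 : v ^ k * (a * b ^ 2) ∣ h := ((hv.coprime_iff_not_dvd.2 fun d =>
    ((Nat.Prime.dvd_mul hv).1 d).elim ha fun e => hb (hv.dvd_of_dvd_pow e)).pow_left
      k).mul_dvd_of_dvd_of_dvd h1 K.kept
  have a2 := (Nat.pow_le_pow_left (Nat.le_of_dvd K.pos a1) 3).trans h2
  rw [mul_pow, show (8 : ℕ) = 3 + 5 from rfl, pow_add,
    Nat.mul_le_mul_left_iff (pow_pos (pow_pos hv.pos k) 3)] at a2
  have a3 : v ^ k ≤ Bd2 4 q := Ty.pp_le2 (t := .Dp) (by norm_num) K.q2 hv hq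
    ((Int.natCast_dvd_natCast.2 h1).trans K.dvd)
  have a4 := Nat.pow_le_pow_left K.low.2.1 3
  rw [mul_pow] at a4
  have a5 := a4.trans (Nat.mul_le_mul_left _ (a2.trans (Nat.pow_le_pow_left a3 5)))
  rw [show (q ^ 8) ^ 3 = q ^ 4 * q ^ 20 by ring, Bd2,
    show 84 ^ 3 * (2 * (8 * q) ^ 4) ^ 5 = 84 ^ 3 * 2 ^ 65 * q ^ 20 by ring] at a5
  exact absurd ((Nat.pow_le_pow_left K.big 4).trans (Nat.le_of_mul_le_mul_right a5
    (pow_pos (two_pos.trans_le K.q2) 20))) (by norm_num)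

theorem K4.cross_a (K : K4 h q a b) (hv : v.Prime) (ha : v ∣ a) (h1 : v ^ k ∣ h)
    (h2 : h ≤ (v ^ k) ^ 3) : False := by
  have a1 := (q4_ppA K.q2 hv (K.oa hv ha) ((Int.natCast_dvd_natCast.2 h1).trans K.dvd)).2
  have a2 : q + 1 ≤ 2 * q := by have := K.q2; omega
  have a3 := K.low.2.1.trans (Nat.mul_le_mul_left _ ((Nat.le_of_dvd K.pos K.kept).trans
    (h2.trans (Nat.pow_le_pow_left (a1.trans (Nat.pow_le_pow_left a2 2)) 3))))
  rw [show q ^ 8 = q ^ 2 * q ^ 6 by ring,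
    show 84 * ((2 * q) ^ 2) ^ 3 = 5376 * q ^ 6 by ring] at a3
  exact absurd ((Nat.pow_le_pow_left K.big 2).trans (Nat.le_of_mul_le_mul_right a3
    (pow_pos (two_pos.trans_le K.q2) 6))) (by norm_num)

theorem K4.not_alt_aux1 (hm : 200 ≤ m) : 4 * 21 ^ 4 * (m ^ 4 * 32 ^ m) < m.factorial := by
  induction m, hm using Nat.le_induction with
  | base => decide +kernel
  | succ m hm ih =>
    have a1 : (m + 1) ^ 4 ≤ 2 * m ^ 4 := by
      obtain ⟨n, rfl⟩ := Nat.exists_eq_add_of_le hm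
      ring_nf
      omega
    calc 4 * 21 ^ 4 * ((m + 1) ^ 4 * 32 ^ (m + 1)) ≤ 4 * 21 ^ 4 * (2 * m ^ 4 * 32 ^ (m + 1)) := by
          gcongr
      _ = 64 * (4 * 21 ^ 4 * (m ^ 4 * 32 ^ m)) := by ring
      _ ≤ (m + 1) * (4 * 21 ^ 4 * (m ^ 4 * 32 ^ m)) := Nat.mul_le_mul_right _ (by omega)
      _ < (m + 1) * m.factorial := Nat.mul_lt_mul_of_pos_left ih m.succ_pos

theorem K4.not_alt_aux2 (hp : p.Prime) (d : p ^ k ∣ m.factorial) : p ^ k ≤ 2 ^ m := by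
  have := Fact.mk hp
  have a1 := (padicValNat_dvd_iff_le (Nat.factorial_ne_zero m)).1 d
  have a2 : (p - 1) * k ≤ m := (Nat.mul_le_mul_left _ a1).trans
    ((sub_one_mul_padicValNat_factorial m).trans_le (Nat.sub_le _ _))
  have a3 : p ≤ 2 ^ (p - 1) := by
    have := Nat.lt_two_pow_self (n := p - 1)
    omega
  exact (Nat.pow_le_pow_left a3 k).trans (pow_mul 2 _ k ▸ Nat.pow_le_pow_right two_pos a2)

theorem K4.not_alt_aux3 {w : ℕ} (hq : 2 ≤ q) (hw : w.Coprime q) (d : (w : ℤ) ∣ Ty.Dp.ord 4 q) :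
    w ≤ 2 * (q ^ 4) ^ 4 := by
  rw [q4_ord, show 2 * (q : ℤ) ^ 12 * (q ^ 2 - 1) ^ 4 * (q ^ 2 + 1) ^ 2 * (q ^ 4 + q ^ 2 + 1) =
    q ^ 12 * (2 * ((q ^ 4 - 1) ^ 2 * ((q ^ 6 - 1) * (q ^ 2 - 1)))) by ring] at d
  have q1 : (1 : ℤ) < q := by exact_mod_cast hq
  have a1 : ∀ n : ℕ, n ≠ 0 → 0 < (q : ℤ) ^ n - 1 := fun n hn => sub_pos.2 (one_lt_pow₀ q1 hn)
  have a4 := a1 4 (by norm_num)
  have a6 := a1 6 (by norm_num)
  have a2 := a1 2 (by norm_num)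
  have a3 := Int.le_of_dvd (by positivity)
    (((Nat.isCoprime_iff_coprime.2 hw).pow_right (n := 12)).dvd_of_dvd_mul_left d)
  have a5 : (w : ℤ) ≤ 2 * (((q : ℤ) ^ 4) ^ 2 * (q ^ 6 * q ^ 2)) := a3.trans (by gcongr <;> omega)
  rw [show ((q : ℤ) ^ 4) ^ 2 * (q ^ 6 * q ^ 2) = (q ^ 4) ^ 4 by ring] at a5
  exact_mod_cast a5

theorem K4.not_alt (hp : p.Prime) (hf : 0 < f) (K : K4 h (p ^ f) a b) (hh : 2 * h = m.factorial)
    (hm : ∀ r, r.Prime → r ∣ a → m < 2 * r) : False := by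
  have _ := hf
  have m0 : 0 < m := Nat.pos_of_ne_zero fun e => by
    rw [e, Nat.factorial_zero] at hh
    omega
  have d : h ∣ m.factorial := hh ▸ dvd_mul_left h 2
  have b0 := K.low.1.trans (Nat.mul_le_mul_left 21
    (KD.not_alt_aux22 m0 (((dvd_mul_right _ _).trans K.kept).trans d) hm))
  have b1 : 200 ≤ m := by
    by_contra c
    exact absurd ((Nat.pow_le_pow_left K.big 4).trans (b0.trans (Nat.mul_le_mul_left 21
      (Nat.mul_le_mul (show m ≤ 200 by omega)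
        (Nat.pow_le_pow_right two_pos (show m ≤ 200 by omega)))))) (by decide +kernel)
  obtain ⟨j, w, hw, e⟩ := Nat.exists_eq_pow_mul_and_not_dvd K.pos.ne' p hp.ne_one
  have b2 := K4.not_alt_aux2 hp ((Dvd.intro _ e.symm).trans d)
  have b3 := K4.not_alt_aux3 K.q2 ((hp.coprime_iff_not_dvd.2 hw).symm.pow_right f)
    ((Int.natCast_dvd_natCast.2 (Dvd.intro_left _ e.symm)).trans K.dvd)
  refine absurd (K4.not_alt_aux1 b1) (not_lt.2 ?_)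
  calc m.factorial = 2 * (p ^ j * w) := by rw [← hh, e]
    _ ≤ 2 * (2 ^ m * (2 * (21 * (m * 2 ^ m)) ^ 4)) := by
      gcongr
      exact b3.trans (by gcongr)
    _ = 4 * 21 ^ 4 * (m ^ 4 * 32 ^ m) := by
      rw [show 32 ^ m = (2 ^ m) ^ 5 by rw [← pow_mul, mul_comm, pow_mul]; rfl]
      ring

end Pool.Agent.Lib.MP_7d41f7_al
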