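import Pool.Agent.Lib.MP_7d41f7_al.D.ET
import Pool.Agent.Lib.MP_7d41f7_al.D.QA
import Pool.Agent.Lib.MP_7d41f7_al.D.EDefEq

/-! The exceptional groups: arithmetic of the order. -/

set_option autoImplicit false

namespace Pool.Agent.Lib.MP_7d41f7_al

open Finset

variable {x : Ex} {h q r u v g i e : ℕ}

theorem Ex.lt (hv : v.Prime) (hg : 0 < g)
    (hh : (h : ℤ) * x.cen (v ^ g : ℕ) = x.ord (v ^ g : ℕ)) : LT h v g x.N x.top x.J := by
  obtain ⟨u, hu⟩ : ∃ u : ℤ, u = ((v ^ g : ℕ) : ℤ) := ⟨_, rfl⟩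
  have hc : ∀ i, (((v ^ g) ^ i - 1 : ℕ) : ℤ) = u ^ i - 1 := fun i => by
    rw [Nat.cast_sub (Nat.one_le_pow _ _ (Nat.pow_pos hv.pos)), hu, Nat.cast_pow (v ^ g),
      Nat.cast_one]
  have hd : ∀ i, (((v ^ g) ^ i + 1 : ℕ) : ℤ) = u ^ i + 1 := fun i => by
    rw [Nat.cast_succ, hu, Nat.cast_pow (v ^ g)]
  have hp : ∀ i, (((v ^ g) ^ i : ℕ) : ℤ) = u ^ i := fun i => by rw [hu, Nat.cast_pow (v ^ g)]
  have hA := lt_exc2_add hv hg
  rw [← hu] at hh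
  cases x <;> simp only [Ex.cen, Ex.ord, Nat.cast_one, mul_one] at hh <;>
    simp only [Ex.N, Ex.top, Ex.J]
  case U6 =>
    refine lt_exc2_gen (e := Int.gcd 3 (u + 1)) hv hg _
      (fun i => if i = 18 ∨ i = 10 then (v ^ g) ^ (i / 2) + 1 else (v ^ g) ^ i - 1)
      (fun i => if i = 18 ∨ i = 10 then i / 2 + 1 else i) ?_ ?_ ?_ (by decide)
    · exact Int.natCast_dvd_natCast.1 (by rw [Nat.cast_succ, ← hu]; exact Int.gcd_dvd_right _ _)
    · refine Nat.cast_injective (R := ℤ) ?_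
      repeat rw [prod_insert (by decide)]
      simp (decide := true) only [prod_singleton, if_true, if_false, Nat.cast_mul, hc, hd, hp, hh]
      ring
    · simp only [mem_insert, mem_singleton]
      rintro _ (rfl | rfl | rfl | rfl | rfl | rfl)
      exacts [lt_exc2_sub _, hA 9 (by omega), lt_exc2_sub _, lt_exc2_sub _, hA 5 (by omega),
        lt_exc2_sub _]
  case D3 =>
    refine lt_exc2_gen (e := 1) hv hg _
      (fun i => if i = 12 then (v ^ g) ^ 8 + (v ^ g) ^ 4 + 1 else (v ^ g) ^ i - 1) id (one_dvd _)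
      ?_ ?_ (by decide)
    · refine Nat.cast_injective (R := ℤ) ?_
      repeat rw [prod_insert (by decide)]
      simp (decide := true) only [prod_singleton, if_true, if_false, Nat.cast_mul, hc, Nat.cast_add,
        Nat.cast_one, hp, hh]
      ring
    · simp only [mem_insert, mem_singleton]
      rintro _ (rfl | rfl | rfl)
      exacts [lt_exc2_tri hv hg, lt_exc2_sub _, lt_exc2_sub _]
  case' E6 => refine lt_exc1_aux hv hg 3 _ _ _ ?_ (by decide)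
  case' E7 => refine lt_exc1_aux hv hg 2 _ _ _ ?_ (by decide)
  case' E8 => refine lt_exc1_aux hv hg 1 _ _ _ ?_ (by decide)
  case' F4 => refine lt_exc1_aux hv hg 1 _ _ _ ?_ (by decide)
  case' G2 => refine lt_exc1_aux hv hg 1 _ _ _ ?_ (by decide)
  all_goals
    rw [← hu]
    simp [hh, mul_assoc]

theorem ReeOrd.lt (hv : v.Prime) (hg : 0 < g) (hh : ReeOrd (v ^ g : ℕ) h) :
    LT h v g 2 4 {4, 1} ∨ LT h v g 3 6 {6, 1} ∨ LT h v g 12 12 {12, 4, 6, 1} := by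
  obtain ⟨u, hu⟩ : ∃ u : ℤ, u = ((v ^ g : ℕ) : ℤ) := ⟨_, rfl⟩
  have hc : ∀ i, (((v ^ g) ^ i - 1 : ℕ) : ℤ) = u ^ i - 1 := fun i => by
    rw [Nat.cast_sub (Nat.one_le_pow _ _ (Nat.pow_pos hv.pos)), hu, Nat.cast_pow (v ^ g),
      Nat.cast_one]
  have hd : ∀ i, (((v ^ g) ^ i + 1 : ℕ) : ℤ) = u ^ i + 1 := fun i => by
    rw [Nat.cast_succ, hu, Nat.cast_pow (v ^ g)]
  have hp : ∀ i, (((v ^ g) ^ i : ℕ) : ℤ) = u ^ i := fun i => by rw [hu, Nat.cast_pow (v ^ g)]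
  have hA := lt_exc2_add hv hg
  rw [← hu] at hh
  rcases hh with ⟨-, hh⟩ | ⟨-, hh⟩ | ⟨-, hh⟩
  on_goal 1 =>
    refine .inl (lt_exc2_gen (e := 1) hv hg _
      (fun i => if i = 4 then (v ^ g) ^ 2 + 1 else (v ^ g) ^ i - 1)
      (fun i => if i = 4 then 3 else i) (one_dvd _) ?_ ?_ (by decide))
    on_goal 2 =>
      simp only [mem_insert, mem_singleton]
      rintro _ (rfl | rfl)
      exacts [hA 2 (by omega), lt_exc2_sub _]
  on_goal 2 =>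
    refine .inr (.inl (lt_exc2_gen (e := 1) hv hg _
      (fun i => if i = 6 then (v ^ g) ^ 3 + 1 else (v ^ g) ^ i - 1)
      (fun i => if i = 6 then 4 else i) (one_dvd _) ?_ ?_ (by decide)))
    on_goal 2 =>
      simp only [mem_insert, mem_singleton]
      rintro _ (rfl | rfl)
      exacts [hA 3 (by omega), lt_exc2_sub _]
  on_goal 3 =>
    refine .inr (.inr (lt_exc2_gen (e := 1) hv hg _
      (fun i => if i = 12 ∨ i = 6 then (v ^ g) ^ (i / 2) + 1 else (v ^ g) ^ i - 1)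
      (fun i => if i = 12 ∨ i = 6 then i / 2 + 1 else i) (one_dvd _) ?_ ?_ (by decide)))
    on_goal 2 =>
      simp only [mem_insert, mem_singleton]
      rintro _ (rfl | rfl | rfl | rfl)
      exacts [hA 6 (by omega), lt_exc2_sub _, hA 3 (by omega), lt_exc2_sub _]
  all_goals
    refine Nat.cast_injective (R := ℤ) ?_
    repeat rw [prod_insert (by decide)]
    simp (decide := true) only [prod_singleton, if_true, if_false, Nat.cast_mul, hc, hd, hp, hh]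
    ring

theorem Ex.exc2 {u h : ℤ} (hh : h * x.cen u = x.ord u) : ExcOrd2 u h := by
  cases x <;> simp only [Ex.cen, Ex.ord, Nat.cast_one, mul_one] at hh <;>
    simp only [ExcOrd2, hh, true_or, or_true]

theorem ReeOrd.exc2 {u h : ℤ} (hh : ReeOrd u h) : ExcOrd2 u h := by
  unfold ReeOrd at hh
  unfold ExcOrd2
  tauto

theorem Ex.ord_dvd (x : Ex) (q : ℤ) : x.ord q ∣ q ^ x.N * ∏ j ∈ x.J, (q ^ j - 1) := by
  cases x <;> simp (disch := decide) only [Ex.ord, Ex.N, Ex.J, prod_insert, prod_singleton]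
  case U6 => exact ⟨(q ^ 9 - 1) * (q ^ 5 - 1), by ring⟩
  case D3 => exact ⟨q ^ 4 - 1, by ring⟩
  all_goals simp only [mul_assoc, dvd_refl]

theorem Ex.ord_dvdC (x : Ex) (q : ℤ) : x.ord q ∣ Ty.C.ord x.cn q := by
  let φ : ℕ → ℕ := fun j => if j % 2 = 0 then j / 2 else j
  have tb : x.N ≤ x.cn * x.cn ∧ x.J.image φ ⊆ Icc 1 x.cn ∧ (∀ i ∈ x.J, ∀ j ∈ x.J, φ i = φ j → i = j) ∧
      ∀ j ∈ x.J, j ∣ 2 * φ j := by cases x <;> decide
  refine (x.ord_dvd q).trans (mul_dvd_mul (pow_dvd_pow q tb.1)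
    (.trans ?_ (prod_dvd_prod_of_subset _ _ _ tb.2.1)))
  rw [prod_image tb.2.2.1]
  refine prod_dvd_prod_of_dvd _ _ fun j hj => ?_
  obtain ⟨c, hc⟩ := tb.2.2.2 j hj
  exact hc ▸ pow_one_sub_dvd_pow_mul_sub_one q j c

theorem Ex.ord_eq_aux1 (x : Ex) {u : ℤ} (hu : 1 < u) :
    ∃ w : ℤ, x.ord u = u ^ x.N * w ∧ 0 < w ∧ w ≤ u ^ (x.dim - x.N) := by
  let Q : ℤ → ℕ → Prop := fun w s => 0 < w ∧ w ≤ u ^ s
  have m : ∀ {w w' s s'}, Q w s → Q w' s' → Q (w * w') (s + s') := fun h h' =>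
    ⟨mul_pos h.1 h'.1, pow_add u _ _ ▸ mul_le_mul h.2 h'.2 h'.1.le (h.1.le.trans h.2)⟩
  have b : ∀ j, Q (u ^ (j + 1) - 1) (j + 1) := fun j =>
    ⟨sub_pos.2 (one_lt_pow₀ hu j.succ_ne_zero), by omega⟩
  have c : ∀ i j, j + 1 ≤ i → Q ((u ^ i + 1) * (u ^ (j + 1) - 1)) (i + (j + 1)) := fun i j h =>
    ⟨mul_pos (by positivity) (b j).1, fat_pair hu.le h⟩
  have d : Q ((u ^ 8 + u ^ 4 + 1) * (u ^ 2 - 1)) 10 := ⟨mul_pos (by positivity) (b 1).1, by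
    nlinarith [pow_le_pow_right₀ hu.le (show 6 ≤ 8 by omega),
      pow_le_pow_right₀ hu.le (show 2 ≤ 4 by omega)]⟩
  cases x
  · exact ⟨_, by simp only [Ex.ord, Ex.N, mul_assoc],
      m (b 11) (m (b 8) (m (b 7) (m (b 5) (m (b 4) (b 1)))))⟩
  · exact ⟨_, by simp only [Ex.ord, Ex.N, mul_assoc],
      m (b 11) (m (c 9 7 (by omega)) (m (b 5) (c 5 1 (by omega))))⟩
  · exact ⟨_, by simp only [Ex.ord, Ex.N, mul_assoc],
      m (b 17) (m (b 13) (m (b 11) (m (b 9) (m (b 7) (m (b 5) (b 1))))))⟩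
  · exact ⟨_, by simp only [Ex.ord, Ex.N, mul_assoc],
      m (b 29) (m (b 23) (m (b 19) (m (b 17) (m (b 13) (m (b 11) (m (b 7) (b 1)))))))⟩
  · exact ⟨_, by simp only [Ex.ord, Ex.N, mul_assoc], m (b 11) (m (b 7) (m (b 5) (b 1)))⟩
  · exact ⟨_, by simp only [Ex.ord, Ex.N, mul_assoc], m (b 5) (b 1)⟩
  · exact ⟨_, by simp only [Ex.ord, Ex.N]; ring, m d (b 5)⟩

theorem Ex.ord_eq (x : Ex) (hq : 2 ≤ q) : ∃ W : ℕ, x.ord q = (q ^ x.N * W : ℕ) ∧ 0 < W ∧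
    W ≤ q ^ (x.dim - x.N) ∧ W.Coprime q := by
  have hu : (1 : ℤ) < q := by exact_mod_cast hq
  obtain ⟨w, h1, h2, h3⟩ := x.ord_eq_aux1 hu
  lift w to ℕ using h2.le
  have h4 := x.ord_dvd q
  rw [h1, mul_dvd_mul_iff_left (by positivity)] at h4
  have tb : ∀ j ∈ x.J, j ≠ 0 := by cases x <;> decide
  refine ⟨w, by rw [h1]; norm_cast, by exact_mod_cast h2, by exact_mod_cast h3,
    Nat.isCoprime_iff_coprime.1 ((IsCoprime.prod_left fun j hj => ?_).of_isCoprime_of_dvd_left h4)⟩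
  obtain ⟨k, rfl⟩ := Nat.exists_eq_succ_of_ne_zero (tb j hj)
  exact ⟨-1, q ^ k, by rw [pow_succ]; ring⟩

theorem Ex.Ok.lt (hr : r.Prime) (h : x.Ok (Ord q r)) : x.bad < r := by
  have h1 := (q4_le hr (lt_of_lt_of_le (by norm_num) h.1)).1
  have h2 := Nat.le_of_dvd (Nat.sub_pos_of_lt hr.one_lt) h1
  have h3 := h.1
  have h4 : x.bad ≤ 7 := by cases x <;> decide
  by_contra! h5
  obtain rfl | rfl | rfl | rfl : r = 4 ∨ r = 5 ∨ r = 6 ∨ r = 7 := by omega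
  · norm_num at hr
  · exact h.2 _ (by simp) h5 h1
  · norm_num at hr
  · exact h.2 _ (by simp) h5 h1

theorem Ex.pow_dvd_aux (hq : 2 ≤ q) (hr : r.Prime) (ho : 0 < Ord q r) {j : ℕ} (hj : ¬ r ∣ j) :
    ∃ z : ℤ, ¬ (r : ℤ) ∣ z ∧
      (q : ℤ) ^ j - 1 ∣ (if Ord q r ∣ j then pk q (Ord q r) else 1 : ℕ) * z := by
  have hp := Nat.prime_iff_prime_int.1 hr
  split_ifs with d
  · obtain ⟨m, rfl⟩ := d
    obtain ⟨a, w, h1, h2⟩ := WfDvdMonoid.max_power_factor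
      (sub_ne_zero.2 (cyc_ne (b := q) hq ho)) hp.irreducible
    have h3 := pk_pow (b := q) (i := a) hq ho hr rfl ⟨w, by rw [h2, Nat.cast_pow]⟩
    have h4 := not_dvd_geom_sum₂ (n := m) hp ((Ord.dvd_iff (b := q) _).2 dvd_rfl)
      (fun d => (q4_le hr ho).2 (Int.natCast_dvd_natCast.1 (hp.dvd_of_dvd_pow d)))
      fun d => hj ((Int.natCast_dvd_natCast.1 d).mul_left _)
    have h5 := (Commute.all ((q : ℤ) ^ Ord q r) 1).mul_geom_sum₂ m
    rw [one_pow m] at h5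
    refine ⟨w * _, hp.not_dvd_mul h1 h4, ?_⟩
    rw [pow_mul, ← h5, ← mul_assoc]
    refine mul_dvd_mul_right ?_ _
    rw [h2]
    exact mul_dvd_mul_right (by exact_mod_cast h3) _
  · exact ⟨_, mt (Ord.dvd_iff j).1 d, dvd_mul_left _ _⟩

theorem Ex.pow_dvd (hq : 2 ≤ q) (hr : r.Prime) (ho : x.Ok (Ord q r))
    (h : ((r ^ i : ℕ) : ℤ) ∣ x.ord q) : r ^ i ∣ pk q (Ord q r) ^ x.mu (Ord q r) := by
  have hp := Nat.prime_iff_prime_int.1 hr
  have h0 : 0 < Ord q r := lt_of_lt_of_le (by norm_num) ho.1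
  choose! z h1 h2 using fun j (hj : j ∈ x.J) => Ex.pow_dvd_aux hq hr h0 (j := j) fun d =>
    (ho.lt hr).not_ge ((te_J x j hj).2.2 r (Nat.mem_primeFactors.2 ⟨hr, d, (te_J x j hj).1.ne'⟩))
  have h3 := h.trans ((x.ord_dvd q).trans (mul_dvd_mul_left _ (prod_dvd_prod_of_dvd _ _ h2)))
  rw [prod_mul_distrib, ← Nat.cast_prod, ← prod_filter, prod_const, mul_left_comm,
    Nat.cast_pow] at h3
  refine Int.natCast_dvd_natCast.1 ?_
  rw [Nat.cast_pow]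
  refine hp.pow_dvd_of_dvd_mul_right _ (hp.not_dvd_mul ?_ ?_) h3
  · exact fun d => (q4_le hr h0).2 (Int.natCast_dvd_natCast.1 (hp.dvd_of_dvd_pow d))
  · exact fun d => (hp.exists_mem_finset_dvd d).elim fun j hj => h1 j hj.1 hj.2

theorem Ex.pk_dvd (hx : x ∈ bigs) (he : e ∈ x.ks) : ((pk q e ^ x.mu e : ℕ) : ℤ) ∣ x.ord q := by
  by_cases hU : x = .U6
  · subst hU
    obtain ⟨h1, h2, h3, h4⟩ := (by decide : ∀ e ∈ Ex.U6.ks,
      Ex.U6.mu e = 1 ∧ e ∈ Ex.U6.J ∧ ¬ e ∣ 9 ∧ ¬ e ∣ 5) e he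
    rw [h1, pow_one]
    refine pk_dvd_of (w := ((q : ℤ) ^ 9 - 1) * (q ^ 5 - 1)) ?_ fun r hr d e' => ?_
    · refine (dvd_prod_of_mem (fun j => (q : ℤ) ^ j - 1) h2).trans ⟨q ^ 36, ?_⟩
      simp only [Ex.ord, Ex.J]
      rw [prod_insert (by decide), prod_insert (by decide), prod_insert (by decide),
        prod_insert (by decide), prod_insert (by decide), prod_singleton]
      ring
    · rcases (Nat.prime_iff_prime_int.1 hr).dvd_or_dvd d with d | d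
      · exact h3 (e' ▸ (Ord.dvd_iff _).1 d)
      · exact h4 (e' ▸ (Ord.dvd_iff _).1 d)
  · have h1 : x.ord q = (∏ j ∈ x.J, ((q : ℤ) ^ j - 1)) * q ^ x.N := by
      cases x <;> simp [bigs] at hx hU <;> simp [Ex.ord, Ex.J, Ex.N] <;> ring
    rw [h1, Ex.mu, ← prod_const, Nat.cast_prod]
    refine ((prod_dvd_prod_of_dvd _ _ fun j hj => ?_).trans
      (prod_dvd_prod_of_subset _ _ _ (filter_subset _ _))).mul_right _
    exact MP_7d41f7_al.pk_dvd.trans (dvd_pow_sub_one_of_dvd (mem_filter.1 hj).2)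

/-- The parameters. -/
structure ParE (x : Ex) (q : ℕ) : Prop where
  mem : x ∈ bigs
  big : 2 ^ 2000 ≤ q ^ x.dim

theorem ParE.lt (P : ParE x q) {α β : ℕ} (h : α * x.dim < 2000 * β) : 2 ^ α < q ^ β := by
  refine lt_of_pow_lt_pow_left₀ x.dim (Nat.zero_le _) ?_
  rw [← pow_mul, ← pow_mul, mul_comm β, pow_mul q]
  exact ((Nat.pow_lt_pow_right one_lt_two h).trans_eq (pow_mul 2 _ β)).trans_le
    (Nat.pow_le_pow_left P.big β)

theorem ParE.q8 (P : ParE x q) : 256 ≤ q := by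
  have h := (te_sz x P.mem).1
  exact Nat.lt_succ_iff.1 (Nat.lt_succ_of_lt
    ((P.lt (α := 8) (β := 1) (by omega)).trans_eq (pow_one q)))

theorem ParE.q2 (P : ParE x q) : 2 ≤ q := le_trans (by norm_num) P.q8

theorem ParE.T_ge (P : ParE x q) : q ^ x.dT ≤ 2 ^ x.lT * x.T q := by
  simp only [Ex.dT, Ex.lT, Ex.T, ← prod_pow_eq_pow_sum, ← prod_mul_distrib, pow_mul, ← mul_pow]
  exact prod_le_prod' fun e he => Nat.pow_le_pow_left
    ((pk_ge (b := q) P.q2 (te_ks x P.mem e he).1.1).trans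
      (Nat.mul_le_mul_right _ (Nat.lt_size_self _).le)) _

theorem ParE.sz1_aux (P : ParE x q) {T d l α β c : ℕ} (hT : q ^ d ≤ 2 ^ l * T)
    (h2 : (α + c * l) * x.dim < 2000 * (c * d - β)) : 2 ^ α * q ^ β < T ^ c := by
  have h4 := Nat.pow_le_pow_left hT c
  have h5 := Nat.mul_lt_mul_of_pos_right (P.lt h2) (pow_pos (zero_lt_two.trans_le P.q2) β)
  rw [← pow_add q, Nat.sub_add_cancel (by omega), mul_comm c d, pow_mul] at h5
  refine Nat.lt_of_mul_lt_mul_left (a := (2 ^ l) ^ c) ?_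
  rw [← mul_pow]
  refine lt_of_eq_of_lt ?_ (h5.trans_le h4)
  ring

theorem ParE.sz1_aux2 (P : ParE x q) (n : ℕ) : (q + 1) ^ n ≤ 2 ^ n * q ^ n := by
  have := P.q2
  rw [← mul_pow]
  exact Nat.pow_le_pow_left (by omega) n

theorem ParE.sz1_aux3 (P : ParE x q) : q ^ dgs x.gs ≤ 2 ^ ls x.gs * pr q x.gs :=
  pr_ge P.q2 fun e he => (te_ks x P.mem e ((te_gs x P.mem).1 he)).1.1

theorem ParE.sz1 (P : ParE x q) : Bd2 x.cn q ^ 5 < x.T q ^ 3 := by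
  refine lt_of_eq_of_lt ?_ (P.sz1_aux P.T_ge (te_sz x P.mem).2.2.2.1)
  rw [Bd2, show 8 = 2 ^ 3 from rfl, mul_pow, mul_pow, mul_pow, ← pow_mul, ← pow_mul, ← pow_mul,
    ← mul_assoc, ← pow_add, mul_comm x.cn 5, ← mul_assoc, show 3 * 5 = 15 from rfl]

theorem ParE.sz3 (P : ParE x q) : ((q + 1) ^ x.rk) ^ 8 < x.T q ^ 3 := by
  rw [← pow_mul, mul_comm]
  exact (P.sz1_aux2 _).trans_lt (P.sz1_aux P.T_ge (te_sz x P.mem).2.2.2.2.1)

theorem ParE.szL (P : ParE x q) (h : (3 * x.rk + x.lT) * x.dim < 2000 * (x.dT - 3 * x.rk)) :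
    ((q + 1) ^ x.rk) ^ 3 < x.T q := by
  rw [← pow_mul, mul_comm]
  exact ((P.sz1_aux2 _).trans_lt (P.sz1_aux (c := 1) P.T_ge (by rwa [one_mul, one_mul]))).trans_eq
    (pow_one _)

theorem ParE.szK (P : ParE x q) : (q + 1) ^ x.rk < pr q x.gs := by
  exact ((P.sz1_aux2 _).trans_lt (P.sz1_aux (c := 1) P.sz1_aux3
    (by simpa only [one_mul] using (te_sz x P.mem).2.2.2.2.2.1))).trans_eq (pow_one _)

theorem ParE.szA (P : ParE x q) :
    2 ^ 208 < pr q x.gs ∧ q ^ (x.dim - x.N) ≤ (2 ^ 46 * pr q x.gs) ^ 4 := by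
  obtain ⟨h1, h2, h3⟩ := (te_sz x P.mem).2.2.2.2.2.2
  have h4 := P.sz1_aux (α := 208) (β := 0) (c := 1) P.sz1_aux3
    (by rwa [one_mul, one_mul, Nat.sub_zero])
  rw [pow_zero, mul_one, pow_one] at h4
  refine ⟨h4, (Nat.pow_le_pow_right (zero_lt_two.trans_le P.q2) h2).trans ?_⟩
  rw [mul_comm 4, pow_mul]
  exact Nat.pow_le_pow_left (P.sz1_aux3.trans
    (Nat.mul_le_mul_right _ (Nat.pow_le_pow_right zero_lt_two h3))) 4

theorem ParE.pp (P : ParE x q) (hr : r.Prime) (ho : Ord q r ∈ x.ks)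
    (h : ((r ^ i : ℕ) : ℤ) ∣ x.ord q) : r ^ i ≤ (q + 1) ^ x.rk := by
  obtain ⟨h1, -, h2, -⟩ := te_ks x P.mem _ ho
  refine (Nat.le_of_dvd (pow_pos pk_pos _) (Ex.pow_dvd P.q2 hr h1 h)).trans
    ((Nat.pow_le_pow_left (pk_le P.q2 (lt_of_lt_of_le (by norm_num) h1.1)) _).trans ?_)
  rw [← pow_mul]
  exact Nat.pow_le_pow_right q.succ_pos h2

end Pool.Agent.Lib.MP_7d41f7_al
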