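import Pool.Agent.Lib.MP_7d41f7_al.D.KDef2
import Pool.Agent.Lib.MP_7d41f7_al.C.XDefs

/-! Symplectic and orthogonal groups of small rank: the interface. -/

set_option autoImplicit false

namespace Pool.Agent.Lib.MP_7d41f7_al

/-- The order of `q ^ 2` modulo a prime for which `q` has order `e`. -/
def jc (e : ℕ) : ℕ := if e % 2 = 1 then e else e / 2

/-- The primes for which `q` has order `e` divide the order of the group. -/
def Pres (t : Ty) (n e : ℕ) : Prop :=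
  jc e < n ∨ jc e = n ∧ (t = .Dp → e % 2 = 1) ∧ (t = .Dm → e % 2 = 0)

/-- The primes for which `q` has order `e` divide exactly one factor of the order formula. -/
def Onq (t : Ty) (n e : ℕ) : Prop := 3 ≤ e ∧ Pres t n e ∧ n < 2 * jc e

/-- The good classes. -/
def Gq (t : Ty) (n e : ℕ) : Prop :=
  Onq t n e ∧ (n + 2 ≤ 2 * jc e ∨ n = 3 ∨ n = 5 ∧ e = 6 ∧ (t = .Dp ∨ t = .Dm))

/-- The class `x` may be adjacent to the good class `e`. -/
def Ad (n e x : ℕ) : Prop := x ∣ e ∧ (e % 2 = 1 ∨ ¬ x ∣ e / 2) ∨ jc x + jc e ≤ n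

instance (t : Ty) (n e : ℕ) : Decidable (Pres t n e) := by unfold Pres; infer_instance
instance (t : Ty) (n e : ℕ) : Decidable (Onq t n e) := by unfold Onq; infer_instance
instance (t : Ty) (n e : ℕ) : Decidable (Gq t n e) := by unfold Gq; infer_instance
instance (n e x : ℕ) : Decidable (Ad n e x) := by unfold Ad; infer_instance

/-- The range of the types and ranks. -/
def Rng (t : Ty) (n : ℕ) : Prop :=
  t ≠ .U ∧ 3 ≤ n ∧ n < 32 ∧ (t = .Dm → 4 ≤ n) ∧ (t = .Dp → 5 ≤ n)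

instance (t : Ty) (n : ℕ) : Decidable (Rng t n) := by unfold Rng; infer_instance

/-- What is known about a group with the order and the vanishing orders of a symplectic or
orthogonal group. -/
structure TData (G : Type) [Group G] (t : Ty) (n q : ℕ) : Prop where
  card : ∃ c : ℕ, (Nat.card G : ℤ) * c = t.ord n q ∧ ∀ r, r.Prime → r ∣ c → Ord q r ≤ 2
  cyc : ∀ r, r.Prime → Gq t n (Ord q r) → Cyc G r
  adj : ∀ r u, r.Prime → u.Prime → u ≠ r → Gq t n (Ord q r) → 2 < Ord q u → Adj G u r →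
    Ord ((q : ℤ) ^ 2) u + Ord ((q : ℤ) ^ 2) r ≤ n ∨ ∃ ε : ℤ, (ε = 1 ∨ ε = -1) ∧
      (r : ℤ) ∣ (q : ℤ) ^ Ord ((q : ℤ) ^ 2) r - ε ∧ (u : ℤ) ∣ (q : ℤ) ^ Ord ((q : ℤ) ^ 2) r - ε

/-- The section determines the family. -/
structure HOut2 (H : Type) [Group H] (t : Ty) (n q : ℕ) : Prop where
  alt : ∀ m : ℕ, IsEmpty (H ≃* alternatingGroup (Fin m))
  lin : ∀ (m : ℕ) (K : Type) [Field K] [Finite K], IsEmpty (H ≃* PL m K)
  uni : ∀ m u : ℕ, 3 ≤ m → IsSU H m u → OrdU m u (Nat.card H) → t = .U ∧ m = n ∧ u = q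
  sym : ∀ m u : ℕ, 2 ≤ m → IsSp H m u ∨ IsOm H (2 * m + 1) u → OrdB m u (Nat.card H) →
    (t = .B ∨ t = .C) ∧ m = n ∧ u = q
  dp : ∀ m u : ℕ, 4 ≤ m → IsOm H (2 * m) u → OrdD 1 m u (Nat.card H) → t = .Dp ∧ m = n ∧ u = q
  dm : ∀ m u : ℕ, 4 ≤ m → IsOm H (2 * m) u → OrdD (-1) m u (Nat.card H) →
    t = .Dm ∧ m = n ∧ u = q
  exc : ∀ u : ℕ, IsPrimePow u → ¬ ExcOrd2 u (Nat.card H)
  spor : Nat.card H ∉ sporOrd

end Pool.Agent.Lib.MP_7d41f7_al
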