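import Pool.Agent.Lib.MP_7d41f7_al.D.EDef
import Pool.Agent.Lib.MP_7d41f7_al.D.TDefs

/-! The exceptional groups: the interface. -/

set_option autoImplicit false

namespace Pool.Agent.Lib.MP_7d41f7_al

/-- The rank of the lattice on which the twisted Weyl group acts. -/
def Ex.rk : Ex → ℕ
  | .E6 => 6 | .U6 => 6 | .E7 => 7 | .E8 => 8 | .F4 => 4 | .G2 => 2 | .D3 => 4

/-- The dimension. -/
def Ex.dim : Ex → ℕ
  | .E6 => 78 | .U6 => 78 | .E7 => 133 | .E8 => 248 | .F4 => 52 | .G2 => 14 | .D3 => 28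

/-- A bound for the prime divisors of the order of the Weyl group of the simply laced system. -/
def Ex.bad : Ex → ℕ
  | .F4 => 5 | .G2 => 5 | .D3 => 5 | _ => 7

/-- What is known about a group with the order and the vanishing orders of the group of type `x`
(used for `E₆`, `²E₆`, `E₇`, `E₈`, `F₄`). -/
structure EData (G : Type) [Group G] (x : Ex) (q : ℕ) : Prop where
  card : ∃ c : ℕ, (Nat.card G : ℤ) * c = x.ord q ∧ ∀ r, r.Prime → r ∣ c → Ord q r ≤ 2
  cyc : ∀ r, r.Prime → x.bad < r → x.rk < 2 * (Ord q r).totient → Cyc G r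
  adj : ∀ r u, r.Prime → u.Prime → x.bad < r → x.bad < u → x.rk < 2 * (Ord q r).totient →
    2 < Ord q u → Ord q u ≠ Ord q r → x.rk < (Ord q r).totient + (Ord q u).totient → ¬ Adj G u r

/-- The order of the isolated torus of `G₂(q)` and `³D₄(q)`. -/
def Ex.tor (x : Ex) (q : ℕ) : ℕ :=
  if x = .D3 then q ^ 4 - q ^ 2 + 1 else if q % 3 = 2 then q ^ 2 + q + 1 else q ^ 2 - q + 1

/-- The same for `G₂` and `³D₄`. -/
structure IData (G : Type) [Group G] (x : Ex) (q : ℕ) : Prop where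
  card : (Nat.card G : ℤ) = x.ord q
  tor : ∃ g : G, orderOf g = x.tor q
  adj : ∀ r u, r.Prime → u.Prime → r ∣ x.tor q → ¬ u ∣ x.tor q → ¬ Adj G u r

/-- The section determines the type and the field. -/
structure HOutE (H : Type) [Group H] (x : Ex) (q : ℕ) : Prop where
  alt : ∀ m : ℕ, IsEmpty (H ≃* alternatingGroup (Fin m))
  lin : ∀ (m : ℕ) (K : Type) [Field K] [Finite K], IsEmpty (H ≃* PL m K)
  uni : ∀ m u : ℕ, 3 ≤ m → IsSU H m u → ¬ OrdU m u (Nat.card H)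
  sym : ∀ m u : ℕ, 2 ≤ m → IsSp H m u ∨ IsOm H (2 * m + 1) u → ¬ OrdB m u (Nat.card H)
  ort : ∀ (ε : ℤ) (m u : ℕ), ε = 1 ∨ ε = -1 → 4 ≤ m → IsOm H (2 * m) u → ¬ OrdD ε m u (Nat.card H)
  exc : ∀ (y : Ex) (u : ℕ), IsPrimePow u → (Nat.card H : ℤ) * y.cen u = y.ord u → y = x ∧ u = q
  ree : ∀ u : ℕ, IsPrimePow u → ¬ ReeOrd u (Nat.card H)
  spor : Nat.card H ∉ sporOrd

end Pool.Agent.Lib.MP_7d41f7_al
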