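import Pool.Agent.Lib.MP_7d41f7_al.D.YA
import Pool.Agent.Lib.MP_7d41f7_al.Ball

/-! The tables. -/

set_option autoImplicit false

namespace Pool.Agent.Lib.MP_7d41f7_al

open Finset

/-- The additional class. -/
def xcl (t : Ty) (n : ℕ) : ℕ :=
  if n = 5 then 3 else if t = .Dm then (if n = 4 then 4 else 0) else if n % 2 = 0 then n else 0

/-- The classes whose primes divide only the order of the section. -/
def Kp (t : Ty) (n e : ℕ) : Prop := Gq t n e ∨ e = xcl t n ∧ e ≠ 0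

instance (t : Ty) (n e : ℕ) : Decidable (Kp t n e) := by unfold Kp; infer_instance

/-- There is a class in `P` with explicit primitive part that excludes the class `x`. -/
def Wit (P : ℕ → Prop) (x : ℕ) : Prop :=
  (∃ a < 4, P (2 ^ (a + 2)) ∧ ¬ x ∣ 2 ^ (a + 1) ∨ P (3 * 2 ^ (a + 2)) ∧ ¬ x ∣ 2 ^ (a + 1)) ∨
    ∃ y ∈ [3, 5, 7, 11, 13, 17], P y ∧ P (2 * y) ∧ ¬ x ∣ y - 1

instance (P : ℕ → Prop) [DecidablePred P] (x : ℕ) : Decidable (Wit P x) := by
  unfold Wit; infer_instance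

/-- The good classes as a finite set. -/
def gs (t : Ty) (n : ℕ) : Finset ℕ := (range 64).filter (Gq t n)

/-- The kept classes as a finite set. -/
def ks (t : Ty) (n : ℕ) : Finset ℕ := (range 64).filter (Kp t n)

/-- The degree of the product of the primitive parts. -/
def dgs (s : Finset ℕ) : ℕ := ∑ e ∈ s, e.totient

/-- The loss in the lower bound for the product of the primitive parts. -/
def ls (s : Finset ℕ) : ℕ := ∑ e ∈ s, (4 * e).size

/-- The product of the primitive parts. -/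
noncomputable def pr (q : ℕ) (s : Finset ℕ) : ℕ := ∏ e ∈ s, pk q e

variable {t : Ty} {n e x q : ℕ}

theorem Rng.mem (h : Rng t n) : t ∈ [Ty.B, .C, .Dp, .Dm] ∧ n < 32 := by
  refine ⟨?_, h.2.2.1⟩
  have := h.1
  cases t <;> simp at this ⊢

theorem Gq.lt (R : Rng t n) (h : Gq t n e) : e < 64 := by
  have := R.2.2.1
  have := h.1.2.1
  unfold Pres jc at this
  split_ifs at this <;> omega

/-- The classes that can be used to show that a prime of class `e` is tight. -/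
def Tw (t : Ty) (n e y : ℕ) : Prop := Onq t n y ∧ ¬ Ad n e y

instance (t : Ty) (n e : ℕ) : DecidablePred (Tw t n e) := fun _ => by unfold Tw; infer_instance

/-- The statement at one value of the parameter. -/
abbrev tbNP (n : ℕ) : Prop :=
  ∀ t ∈ [Ty.B, .C, .Dp, .Dm], Rng t n → ∀ e ∈ gs t n, ∀ x ∈ ks t n, x = e ∨ ¬ Ad n e x

theorem tbN0 : ∀ n < 21, tbNP n := by decide +kernel

theorem tbN1 : ∀ n < 26, 21 ≤ n → tbNP n := by decide +kernel

theorem tbN2 : ∀ n < 29, 26 ≤ n → tbNP n := by decide +kernel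

theorem tbN3 : ∀ n < 32, 29 ≤ n → tbNP n := by decide +kernel

theorem tb_na : ∀ t ∈ [Ty.B, .C, .Dp, .Dm], ∀ n < 32, Rng t n → ∀ e ∈ gs t n, ∀ x ∈ ks t n,
    x = e ∨ ¬ Ad n e x :=
  fun t ht n hn => ball_app (ball_app (ball_app tbN0 tbN1) tbN2) tbN3 n hn t ht

theorem tb_tw : ∀ t ∈ [Ty.B, .C, .Dp, .Dm], ∀ n < 32, Rng t n → ∀ e < 64, Gq t n e →
    Wit (Tw t n e) e := by
  decide +kernel

theorem tb_xc : ∀ t ∈ [Ty.B, .C, .Dp, .Dm], ∀ n < 32, Rng t n →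
    (xcl t n ≠ 0 → 3 ≤ xcl t n ∧ xcl t n < 64 ∧ Pres t n (xcl t n) ∧ Wit (Gq t n) (xcl t n)) ∧
      Gq t n (2 * t.top n) ∧ Gq t n (2 * (t.top n - 1)) ∧ (t ≠ .Dm → Kp t n n) ∧
      3 ≤ (gs t n).card ∧ (n ≠ 3 → 4 ≤ (ks t n).card) := by
  decide +kernel

/-- The statement at one value of the parameter. -/
abbrev tbSP (n : ℕ) : Prop :=
  ∀ t ∈ [Ty.B, .C, .Dp, .Dm], Rng t n → 5 * n ≤ 3 * dgs (gs t n) ∧
    (5 + 15 * n + 3 * ls (gs t n)) * (2 * n ^ 2 + n) < 2000 * (3 * dgs (gs t n) - 5 * n) ∧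
    (180 + ls (gs t n)) * (2 * n ^ 2 + n) < 2000 * dgs (gs t n) ∧ ∀ e ∈ gs t n,
      7 * e.totient ≤ 3 * dgs (ks t n) ∧ (7 * e.totient + 3 * ls (ks t n)) * (2 * n ^ 2 + n) <
        2000 * (3 * dgs (ks t n) - 7 * e.totient)

theorem tbS0 : ∀ n < 22, tbSP n := by decide +kernel

theorem tbS1 : ∀ n < 28, 22 ≤ n → tbSP n := by decide +kernel

theorem tbS2 : ∀ n < 32, 28 ≤ n → tbSP n := by decide +kernel

theorem tb_sz : ∀ t ∈ [Ty.B, .C, .Dp, .Dm], ∀ n < 32, Rng t n → 5 * n ≤ 3 * dgs (gs t n) ∧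
    (5 + 15 * n + 3 * ls (gs t n)) * (2 * n ^ 2 + n) < 2000 * (3 * dgs (gs t n) - 5 * n) ∧
    (180 + ls (gs t n)) * (2 * n ^ 2 + n) < 2000 * dgs (gs t n) ∧ ∀ e ∈ gs t n,
      7 * e.totient ≤ 3 * dgs (ks t n) ∧ (7 * e.totient + 3 * ls (ks t n)) * (2 * n ^ 2 + n) <
        2000 * (3 * dgs (ks t n) - 7 * e.totient) :=
  fun t ht n hn => ball_app (ball_app tbS0 tbS1) tbS2 n hn t ht

theorem tb_exc : ∀ t ∈ [Ty.B, .C, .Dp, .Dm], ∀ n < 32, Rng t n → ∀ x ∈ excData, ∀ τ < 11,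
    x.2.1 = τ * t.top n → τ * (t.top n - 1) ∈ x.2.2 → τ * t.pos n + 2 < 2 * x.1 := by
  decide +kernel

end Pool.Agent.Lib.MP_7d41f7_al
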