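import Pool.Agent.Lib.MP_7d41f7_al.D.EDefs
import Pool.Agent.Lib.MP_7d41f7_al.D.YT

/-! The exceptional groups: the tables. -/

set_option autoImplicit false

namespace Pool.Agent.Lib.MP_7d41f7_al

open Finset

/-- The number of positive roots. -/
def Ex.N : Ex → ℕ
  | .E6 => 36 | .U6 => 36 | .E7 => 63 | .E8 => 120 | .F4 => 24 | .G2 => 6 | .D3 => 12

/-- The largest class. -/
def Ex.top : Ex → ℕ
  | .E6 => 12 | .U6 => 18 | .E7 => 18 | .E8 => 30 | .F4 => 12 | .G2 => 6 | .D3 => 12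

/-- The exponents. -/
def Ex.J : Ex → Finset ℕ
  | .E6 => {12, 9, 8, 6, 5, 2} | .U6 => {12, 18, 8, 6, 10, 2} | .E7 => {18, 14, 12, 10, 8, 6, 2}
  | .E8 => {30, 24, 20, 18, 14, 12, 8, 2} | .F4 => {12, 8, 6, 2} | .G2 => {6, 2} | .D3 => {12, 6, 2}

/-- The good classes. -/
def Ex.gs : Ex → Finset ℕ
  | .E6 => {5, 8, 9, 12} | .U6 => {8, 10, 12, 18} | .E7 => {8, 9, 12, 14, 18}
  | .E8 => {7, 14, 15, 18, 20, 24, 30} | .F4 => {8, 12} | _ => ∅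

/-- The kept classes. -/
def Ex.ks (x : Ex) : Finset ℕ := if x = .F4 then {8, 12, 3, 6} else x.gs

/-- The multiplicity of a class. -/
def Ex.mu (x : Ex) (e : ℕ) : ℕ := (x.J.filter (e ∣ ·)).card

/-- The rank of a symplectic group whose order is a multiple of the order. -/
def Ex.cn : Ex → ℕ
  | .E8 => 15 | .F4 => 6 | .G2 => 3 | .D3 => 9 | _ => 9

/-- The types of large rank. -/
def bigs : List Ex := [.E6, .U6, .E7, .E8, .F4]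

/-- The classes are not adjacent. -/
def Ex.Na (x : Ex) (a c : ℕ) : Prop := c ≠ a ∧ x.rk < a.totient + c.totient

/-- The primes of the class are large. -/
def Ex.Ok (x : Ex) (e : ℕ) : Prop := 3 ≤ e ∧ ∀ r ∈ [3, 5, 7], r ≤ x.bad → ¬ e ∣ r - 1

/-- The conditions on the data of a group of Lie type in the same characteristic. -/
def Ex.Surv (x : Ex) (N D : ℕ) (I : Finset ℕ) : Prop :=
  N * x.top ≤ D * x.N ∧ (∀ e ∈ x.ks, ∃ j ∈ I, e * D ∣ j * x.top) ∧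
    ∀ j ∈ I, 3 ≤ j → ¬ j ∣ 6 → ∃ i ∈ x.J, j * x.top ∣ i * D

instance (x : Ex) (a c : ℕ) : Decidable (x.Na a c) := by unfold Ex.Na; infer_instance
instance (x : Ex) (e : ℕ) : Decidable (x.Ok e) := by unfold Ex.Ok; infer_instance
instance (x : Ex) (N D : ℕ) (I : Finset ℕ) : Decidable (x.Surv N D I) := by
  unfold Ex.Surv; infer_instance

/-- The degree of the kept part. -/
def Ex.dT (x : Ex) : ℕ := ∑ e ∈ x.ks, e.totient * x.mu e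

/-- The loss in the lower bound for the kept part. -/
def Ex.lT (x : Ex) : ℕ := ∑ e ∈ x.ks, (4 * e).size * x.mu e

/-- The kept part. -/
noncomputable def Ex.T (x : Ex) (q : ℕ) : ℕ := ∏ e ∈ x.ks, pk q e ^ x.mu e

theorem te_gs : ∀ x ∈ bigs, x.gs ⊆ x.ks ∧ 1 < x.gs.card ∧ x.top ∈ x.gs ∧ ∀ e ∈ x.gs,
    x.rk < 2 * e.totient ∧ x.mu e = 1 ∧ Wit (fun y => y ∈ x.gs ∧ x.Na e y) e ∧
      ∀ c ∈ x.ks, c = e ∨ x.Na e c := by
  decide +kernel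

theorem te_ks : ∀ x ∈ bigs, ∀ e ∈ x.ks, x.Ok e ∧ 0 < x.mu e ∧ e.totient * x.mu e ≤ x.rk ∧
    (e ∈ x.gs ∨ Wit (· ∈ x.gs) e) := by
  decide +kernel

theorem te_J : ∀ x : Ex, ∀ j ∈ x.J, 0 < j ∧ j ≤ x.top ∧ ∀ r ∈ j.primeFactors, r ≤ x.bad := by
  intro x
  cases x <;> decide +kernel

theorem te_sz : ∀ x ∈ bigs, x.dim ≤ 248 ∧ 0 < x.cn ∧ x.N ≤ 4 * x.top ∧
    (5 + 15 * x.cn + 3 * x.lT) * x.dim < 2000 * (3 * x.dT - 5 * x.cn) ∧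
    (8 * x.rk + 3 * x.lT) * x.dim < 2000 * (3 * x.dT - 8 * x.rk) ∧
    (x.rk + ls x.gs) * x.dim < 2000 * (dgs x.gs - x.rk) ∧
    (208 + ls x.gs) * x.dim < 2000 * dgs x.gs ∧ x.dim - x.N ≤ 4 * dgs x.gs ∧ ls x.gs ≤ 46 := by
  decide +kernel

theorem te_l2 : ∀ x ∈ bigs, ∀ e ∈ insert 0 x.ks,
    (e ≠ 0 ∧ (3 * x.rk + x.lT) * x.dim < 2000 * (x.dT - 3 * x.rk)) ∨
      ∃ a ∈ x.gs, ∃ b ∈ x.gs, ∃ c ∈ x.ks, a ≠ b ∧ a ≠ c ∧ b ≠ c ∧ a ≠ e ∧ b ≠ e ∧ c ≠ e := by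
  decide +kernel

theorem te_A : ∀ x ∈ bigs, ∀ m < 20, 2 ≤ m → x.Surv (m * (m - 1) / 2) m (Icc 2 m) →
    x = .F4 ∧ m = 3 := by
  decide +kernel

theorem te_U : ∀ x ∈ bigs, ∀ m < 20, 3 ≤ m → x.Surv (m * (m - 1) / 2)
    (if m % 2 = 1 then 2 * m else 2 * (m - 1))
    ((Icc 2 m).image fun i => if i % 2 = 1 then 2 * i else i) → x = .F4 ∧ m = 4 := by
  decide +kernel

theorem te_B : ∀ x ∈ bigs, ∀ m < 20, 2 ≤ m →
    x.Surv (m * m) (2 * m) ((Icc 1 m).image fun i => 2 * i) → x = .F4 ∧ m = 3 := by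
  decide +kernel

theorem te_D : ∀ x ∈ bigs, ∀ m < 20, 4 ≤ m → (x.Surv (m * (m - 1)) (2 * (m - 1))
    ((Icc 1 m).image fun i => if i = m then m else 2 * i) → x = .F4 ∧ m = 4) ∧
    ¬ x.Surv (m * (m - 1)) (2 * m) ((Icc 1 m).image fun i => 2 * i) := by
  decide +kernel

theorem te_E : ∀ x ∈ bigs, (∀ y ∈ [Ex.E6, .U6, .E7, .E8, .F4, .G2, .D3],
    x.Surv y.N y.top y.J → y = x) ∧ ¬ x.Surv 2 4 {4, 1} ∧ ¬ x.Surv 3 6 {6, 1} ∧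
      ¬ x.Surv 12 12 {12, 4, 6, 1} := by
  decide +kernel

end Pool.Agent.Lib.MP_7d41f7_al
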