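import Pool.Agent.Lib.MP_7d41f7_al.D.TDefs
import Pool.Agent.Lib.MP_7d41f7_al.C.AK

/-! Arithmetic of primitive parts in base `q`. -/

set_option autoImplicit false

namespace Pool.Agent.Lib.MP_7d41f7_al

open Finset Polynomial

variable {b : ℤ} {r u i j e y n q v k : ℕ} {t : Ty}

theorem dvd_pk (h0 : b ^ j ≠ 1) (h1 : (y : ℤ) ∣ b ^ j - 1)
    (h2 : ∀ r, r.Prime → r ∣ y → Ord b r = j) : y ∣ pk b j := by
  have h3 := Int.natAbs_ne_zero.2 (sub_ne_zero.2 h0)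
  refine (Nat.dvd_iff_prime_pow_dvd_dvd _ _).2 fun r k hr h => ?_
  rcases k with _ | k
  · simp
  have h4 := h.trans (Int.natCast_dvd.1 h1)
  have h5 := dvd_pow_self r k.succ_ne_zero
  exact (pow_dvd_pow r ((hr.pow_dvd_iff_le_factorization h3).1 h4)).trans (dvd_prod_of_mem
    (fun r => r ^ (b ^ j - 1).natAbs.factorization r) (mem_filter.2 ⟨Nat.mem_primeFactors.2
      ⟨hr, h5.trans h4, h3⟩, h2 r hr (h5.trans h)⟩))

theorem pk_dvd_of {y w : ℤ} (h1 : b ^ j - 1 ∣ y * w)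
    (h2 : ∀ r : ℕ, r.Prime → (r : ℤ) ∣ w → Ord b r ≠ j) : (pk b j : ℤ) ∣ y := by
  refine IsCoprime.dvd_of_dvd_mul_right ?_ (pk_dvd.trans h1)
  rw [Int.isCoprime_iff_gcd_eq_one, Int.gcd, Int.natAbs_natCast]
  exact Nat.coprime_of_dvd fun r hr d1 d2 => h2 r hr (Int.natCast_dvd.2 d2) (pk_ord hr d1)

theorem pk_pow (hb : 2 ≤ b.natAbs) (hj : 0 < j) (hr : r.Prime) (ho : Ord b r = j)
    (h : ((r ^ i : ℕ) : ℤ) ∣ b ^ j - 1) : r ^ i ∣ pk b j :=
  dvd_pk (cyc_ne hb hj) h fun s hs d => by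
    rwa [(Nat.prime_dvd_prime_iff_eq hs hr).1 (hs.dvd_of_dvd_pow d)]

theorem pk_pos : 0 < pk b j :=
  prod_pos fun _ hr => pow_pos (Nat.prime_of_mem_primeFactors (mem_filter.1 hr).1).pos _

theorem exists_cls (hq : 3 ≤ q) (he : 3 ≤ e) : ∃ r, r.Prime ∧ Ord q r = e ∧ r ∣ pk q e := by
  obtain ⟨r, hr⟩ := zsig (a := q) (by omega) he (by omega)
  have o := hr.ord_eq (by omega) (by omega)
  exact ⟨r, hr.pr, o, dvd_pk (cyc_ne (by simpa using le_of_lt hq) (by omega))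
    ((Ord.dvd_iff e).2 o.dvd) fun s hs d => by rwa [(Nat.prime_dvd_prime_iff_eq hs hr.pr).1 d]⟩

theorem pk_eq (hb : 2 ≤ b.natAbs) (hj : 0 < j) {Y : ℕ} {Z : ℤ} (h : b ^ j - 1 = Y * Z)
    (h1 : ∀ r, r.Prime → r ∣ Y → Ord b r = j)
    (h2 : ∀ r : ℕ, r.Prime → (r : ℤ) ∣ Z → Ord b r ≠ j) : pk b j = Y :=
  Nat.dvd_antisymm (Int.natCast_dvd_natCast.1 (pk_dvd_of h.dvd h2))
    (dvd_pk (cyc_ne hb hj) (Dvd.intro _ h.symm) h1)

theorem pk_cop (h : i ≠ j) : (pk b i).Coprime (pk b j) :=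
  Nat.coprime_of_dvd fun _ hr d1 d2 => h ((pk_ord hr d1).symm.trans (pk_ord hr d2))

theorem pk_dvd_cyc (hj : 0 < j) : (pk b j : ℤ) ∣ (cyclotomic j ℤ).eval b := by
  have h := congrArg (eval b) (prod_cyclotomic_eq_X_pow_sub_one hj ℤ)
  rw [← Nat.cons_self_properDivisors hj.ne', prod_cons, eval_mul, eval_prod] at h
  simp only [eval_sub, eval_pow, eval_X, eval_one] at h
  refine pk_dvd_of h.symm.dvd fun r hr d e => ?_
  obtain ⟨i, hi, d⟩ := ((Nat.prime_iff_prime_int.1 hr).dvd_finsetProd_iff _).1 d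
  have h1 : (r : ℤ) ∣ b ^ i - 1 :=
    d.trans (by simpa using eval_dvd (x := b) (cyclotomic.dvd_X_pow_sub_one i ℤ))
  have h2 := Nat.mem_properDivisors.1 hi
  have := Nat.le_of_dvd (Nat.pos_of_dvd_of_pos h2.1 hj) ((Ord.dvd_iff i).1 h1)
  omega

theorem pk_le (hq : 2 ≤ q) (he : 0 < e) : pk q e ≤ (q + 1) ^ e.totient := by
  have h1 : (1 : ℝ) < q := by exact_mod_cast hq
  have h2 := cyclotomic_eval_le_add_one_pow_totient h1 e
  have h3 := cyclotomic_pos' e h1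
  have h4 := cyclotomic.eval_apply (q : ℤ) e (Int.castRingHom ℝ)
  simp only [eq_intCast, Int.cast_natCast] at h4
  rw [h4] at h2 h3
  have h5 := Int.le_of_dvd (by exact_mod_cast h3) (pk_dvd_cyc (b := q) he)
  have h6 : ((cyclotomic e ℤ).eval (q : ℤ)) ≤ ((q + 1) ^ e.totient : ℕ) := by exact_mod_cast h2
  exact_mod_cast h5.trans h6

/-- If the primitive part is `1` modulo a prime then the order of `q` is restricted. -/
def Nc (q y β : ℕ) : Prop := ∀ u, u.Prime → pk q y ≡ 1 [MOD u] → Ord q u = 0 ∨ Ord q u ∣ β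

theorem Ord.le_of (hj : 0 < j) (h : (r : ℤ) ∣ b ^ j - 1) : Ord b r ≤ j :=
  Nat.le_of_dvd hj ((Ord.dvd_iff j).1 h)

theorem prime_eq {s : ℕ} (hr : r.Prime) (hs : s.Prime) (e : (r : ℤ) ∣ s) : r = s :=
  (Nat.prime_dvd_prime_iff_eq hr hs).1 (by exact_mod_cast e)

theorem Ord.of_mul (hu : u.Prime) (h : (u : ℤ) ∣ b ^ i * (b ^ j - 1)) :
    Ord b u = 0 ∨ Ord b u ∣ j :=
  have p := Nat.prime_iff_prime_int.1 hu
  (p.dvd_or_dvd h).imp (fun e => Ord.eq_zero hu (p.dvd_of_dvd_pow e)) (Ord.dvd_iff j).1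

theorem pk_two (hb : 2 ≤ b.natAbs) (a : ℕ) : ∃ δ : ℤ, (δ = 1 ∨ δ = 2) ∧
    δ * pk b (2 ^ (a + 2)) = b ^ 2 ^ (a + 1) + 1 := by
  have e0 : 2 ^ (a + 2) = 2 ^ (a + 1) * 2 := pow_succ _ _
  have e1 : b ^ 2 ^ (a + 1) = (b ^ 2 ^ a) ^ 2 := by rw [← pow_mul, pow_succ]
  have c0 : 0 < 2 ^ (a + 1) := by positivity
  obtain ⟨y, δ, h1, h2, h3⟩ : ∃ y : ℕ, ∃ δ : ℤ, δ * y = b ^ 2 ^ (a + 1) + 1 ∧ Odd y ∧
      (δ = 1 ∨ δ = 2) := by
    rw [e1]
    generalize b ^ 2 ^ a = x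
    rcases Nat.even_or_odd' x.natAbs with ⟨z, e | e⟩ <;> rw [← Int.natAbs_sq, e]
    · exact ⟨2 * (2 * z ^ 2) + 1, 1, by push_cast; ring, odd_two_mul_add_one _, .inl rfl⟩
    · exact ⟨2 * (z ^ 2 + z) + 1, 2, by push_cast; ring, odd_two_mul_add_one _, .inr rfl⟩
  have h5 : b ^ 2 ^ (a + 2) - 1 = y * (δ * (b ^ 2 ^ (a + 1) - 1)) := by
    rw [e0, pow_mul]
    linear_combination (1 - b ^ 2 ^ (a + 1)) * h1
  refine ⟨δ, h3, ?_⟩
  rw [pk_eq hb (by positivity) h5 (fun r hr e => ?_) fun r hr e c => ?_, h1]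
  · have d := Int.natCast_dvd_natCast.2 e
    refine Ord.eq_of (by positivity) (h5 ▸ d.mul_right _) fun p hp c f => ?_
    rw [(Nat.prime_dvd_prime_iff_eq hp Nat.prime_two).1 (hp.dvd_of_dvd_pow c), e0,
      Nat.mul_div_cancel _ two_pos] at f
    obtain rfl := prime_eq hr Nat.prime_two ((dvd_sub (d.mul_left δ) f).trans
      (dvd_of_eq (by push_cast; linear_combination h1)))
    exact h2.not_two_dvd_nat e
  · rcases (Nat.prime_iff_prime_int.1 hr).dvd_or_dvd e with e | e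
    · refine Ord.ne_two (b := b) (by omega) (prime_eq hr Nat.prime_two (e.trans ?_))
      rcases h3 with rfl | rfl <;> simp
    · have := Ord.le_of c0 e
      omega

theorem nice_two (hb : 2 ≤ b.natAbs) (a : ℕ) (hu : u.Prime) (h : pk b (2 ^ (a + 2)) ≡ 1 [MOD u]) :
    Ord b u = 0 ∨ Ord b u ∣ 2 ^ (a + 1) := by
  have d := Nat.modEq_iff_dvd.1 h.symm
  obtain ⟨δ, rfl | rfl, e⟩ := pk_two hb a
  · exact Ord.of_mul hu (i := 2 ^ (a + 1)) (Dvd.dvd.mul_right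
      (d.trans (dvd_of_eq (by push_cast; linear_combination e))) _)
  · exact Ord.of_mul hu (i := 0) ((d.mul_left 2).trans
      (dvd_of_eq (by push_cast; linear_combination e)))

theorem nc_two (hq : 2 ≤ q) (a : ℕ) : Nc q (2 ^ (a + 2)) (2 ^ (a + 1)) :=
  fun _ => nice_two (by simpa using hq) a

theorem pk_three (hb : 2 ≤ b.natAbs) (a : ℕ) :
    (pk b (3 * 2 ^ (a + 2)) : ℤ) = (b ^ 2 ^ (a + 1)) ^ 2 - b ^ 2 ^ (a + 1) + 1 := by
  have e0 : 2 ^ (a + 2) = 2 * 2 ^ (a + 1) := by ring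
  have e1 : b ^ 2 ^ (a + 1) = (b ^ 2 ^ a) ^ 2 := by rw [← pow_mul, pow_succ]
  have e2 : ∀ c, b ^ (c * 2 ^ (a + 1)) = (b ^ 2 ^ (a + 1)) ^ c := fun c => by
    rw [← pow_mul, mul_comm]
  have c0 : 0 < 2 ^ (a + 1) := by positivity
  obtain ⟨y, h1⟩ := Int.eq_ofNat_of_zero_le (a := (b ^ 2 ^ (a + 1)) ^ 2 - b ^ 2 ^ (a + 1) + 1)
    (by nlinarith)
  have h2 : ¬ (2 : ℤ) ∣ y ∧ ¬ (3 : ℤ) ∣ y := by
    rw [← h1, e1]
    generalize b ^ 2 ^ a = x
    obtain ⟨z, k, e, h0, h6⟩ : ∃ z k : ℤ, x = 6 * z + k ∧ 0 ≤ k ∧ k < 6 :=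
      ⟨x / 6, x % 6, by omega, by omega, by omega⟩
    have : (x ^ 2) ^ 2 - x ^ 2 + 1 = 6 * (216 * z ^ 4 + 144 * z ^ 3 * k + 36 * z ^ 2 * k ^ 2 +
      4 * z * k ^ 3 - 6 * z ^ 2 - 2 * z * k) + (k ^ 4 - k ^ 2 + 1) := by rw [e]; ring
    rw [this]
    interval_cases k <;> omega
  have h4 : (y : ℤ) ∣ (b ^ 2 ^ (a + 1)) ^ 3 + 1 := h1 ▸ ⟨b ^ 2 ^ (a + 1) + 1, by ring⟩
  have h5 : b ^ (3 * 2 ^ (a + 2)) - 1 =
      y * ((b ^ 2 ^ (a + 1) + 1) * (b ^ (3 * 2 ^ (a + 1)) - 1)) := by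
    rw [e0, ← mul_assoc, e2, e2, ← h1]
    ring
  rw [pk_eq hb (by positivity) h5 (fun r hr e => ?_) fun r hr e c => ?_, h1]
  · have d := Int.natCast_dvd_natCast.2 e
    refine Ord.eq_of (by positivity) (h5 ▸ d.mul_right _) fun p hp c f => ?_
    rcases hp.dvd_mul.1 c with c | c
    · rw [(Nat.prime_dvd_prime_iff_eq hp Nat.prime_three).1 c,
        Nat.mul_div_cancel_left _ three_pos, e0, e2] at f
      rw [← h1] at d
      obtain rfl := prime_eq hr Nat.prime_three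
        ((dvd_add (d.mul_left (b ^ 2 ^ (a + 1) + 2)) (f.mul_left (-b ^ 2 ^ (a + 1) - 1))).trans
          (dvd_of_eq (by push_cast; ring)))
      exact h2.2 (h1 ▸ d)
    · rw [(Nat.prime_dvd_prime_iff_eq hp Nat.prime_two).1 (hp.dvd_of_dvd_pow c), e0, mul_left_comm,
        Nat.mul_div_cancel_left _ two_pos, e2] at f
      obtain rfl := prime_eq hr Nat.prime_two (by simpa using dvd_sub (d.trans h4) f)
      exact h2.1 d
  · rcases (Nat.prime_iff_prime_int.1 hr).dvd_or_dvd e with e | e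
    · have := Ord.le_of (j := 2 * 2 ^ (a + 1)) (by omega)
        (e.trans ⟨b ^ 2 ^ (a + 1) - 1, by rw [e2]; ring⟩)
      omega
    · have := Ord.le_of (by omega) e
      omega

theorem nice_three (hb : 2 ≤ b.natAbs) (a : ℕ) (hu : u.Prime)
    (h : pk b (3 * 2 ^ (a + 2)) ≡ 1 [MOD u]) : Ord b u = 0 ∨ Ord b u ∣ 2 ^ (a + 1) :=
  Ord.of_mul hu (i := 2 ^ (a + 1)) ((Nat.modEq_iff_dvd.1 h.symm).trans
    (dvd_of_eq (by rw [pk_three hb]; push_cast; ring)))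

theorem nc_three (hq : 2 ≤ q) (a : ℕ) : Nc q (3 * 2 ^ (a + 2)) (2 ^ (a + 1)) :=
  fun _ => nice_three (by simpa using hq) a

theorem geom_ord (hy : y.Prime) (h : ¬ (y : ℤ) ∣ b - 1) (hr : r.Prime)
    (d : (r : ℤ) ∣ ∑ i ∈ range y, b ^ i) : Ord b r = y := by
  refine Ord.eq_of hy.pos (geom_sum_mul b y ▸ d.mul_right _) fun p hp c f => ?_
  rw [(Nat.prime_dvd_prime_iff_eq hp hy).1 c, Nat.div_self hy.pos, pow_one] at f
  have h3 := (dvd_geom_sum₂_iff_of_dvd_sub (n := y) f).1 (by simpa using d)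
  obtain rfl := prime_eq hr hy (by simpa using h3)
  exact h f

theorem pk_prime (hb : 2 ≤ b.natAbs) (hy : y.Prime) (h2 : y ≠ 2) (h : ¬ (y : ℤ) ∣ b - 1) :
    (pk b y : ℤ) = ∑ i ∈ range y, b ^ i := by
  obtain ⟨z, hz⟩ := Int.eq_ofNat_of_zero_le ((hy.odd_of_ne_two h2).geom_sum_pos (x := b)).le
  rw [pk_eq (Z := b - 1) hb hy.pos (hz ▸ (geom_sum_mul b y).symm)
    (fun r hr e => geom_ord hy h hr (hz ▸ Int.natCast_dvd_natCast.2 e)) fun r _ e c => ?_, hz]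
  have := Ord.le_of one_pos (by rwa [pow_one] : (r : ℤ) ∣ b ^ 1 - 1)
  have := hy.two_le
  omega

theorem Ord.neg_odd (hr : r.Prime) (hj : Odd j) (h3 : 1 < j) (h : Ord (-b) r = j) :
    Ord b r = 2 * j := by
  have h1 : Ord b r ∣ 2 * j := h ▸ Ord.neg_sq b r
  have h2 : j ∣ 2 * Ord b r := by simpa only [neg_neg, h] using Ord.neg_sq (-b) r
  refine Nat.dvd_antisymm h1 ((Nat.coprime_two_left.2 hj).mul_dvd_of_dvd_of_dvd ?_
    ((Nat.coprime_two_right.2 hj).dvd_of_dvd_mul_left h2))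
  by_contra c
  have h4 := (Ord.dvd_iff j).2 ((Nat.coprime_two_right.2
    (Nat.odd_iff.2 (by omega))).dvd_of_dvd_mul_left h1)
  have h5 := (Ord.dvd_iff (b := -b) j).2 h.dvd
  rw [hj.neg_pow] at h5
  exact Ord.ne_two (h ▸ h3) (prime_eq hr Nat.prime_two
    ((dvd_neg.2 (dvd_add h4 h5)).trans (dvd_of_eq (by push_cast; ring))))

theorem pk_prime' (hb : 2 ≤ b.natAbs) (hy : y.Prime) (h2 : y ≠ 2) (h : ¬ (y : ℤ) ∣ b + 1) :
    (pk b (2 * y) : ℤ) = ∑ i ∈ range y, (-b) ^ i := by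
  have ho := hy.odd_of_ne_two h2
  have y2 := hy.two_le
  obtain ⟨z, hz⟩ := Int.eq_ofNat_of_zero_le (ho.geom_sum_pos (x := -b)).le
  have h5 := geom_sum_mul (-b) y
  rw [ho.neg_pow, hz] at h5
  rw [pk_eq (Y := z) (Z := (b + 1) * (b ^ y - 1)) hb (by omega)
    (by rw [pow_mul']; linear_combination (b ^ y - 1) * h5) (fun r hr e =>
      Ord.neg_odd hr ho hy.one_lt (geom_ord hy (by rwa [← neg_add', dvd_neg]) hr
        (hz ▸ Int.natCast_dvd_natCast.2 e))) fun r hr e c => ?_, hz]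
  rcases (Nat.prime_iff_prime_int.1 hr).dvd_or_dvd e with e | e
  · have := Ord.le_of (b := b) two_pos (e.trans ⟨b - 1, by ring⟩)
    omega
  · have := Ord.le_of hy.pos e
    omega

theorem nice_geom (h0 : 0 < y) (d : (u : ℤ) ∣ ∑ i ∈ range y, b ^ i - 1) :
    (u : ℤ) ∣ b ^ 1 * (b ^ (y - 1) - 1) := by
  obtain ⟨z, rfl⟩ : ∃ z, y = z + 1 := ⟨y - 1, by omega⟩
  rw [geom_sum_succ, add_sub_cancel_right] at d
  rw [Nat.add_sub_cancel, ← geom_sum_mul, pow_one, ← mul_assoc]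
  exact d.mul_right _

theorem nice_prime (hb : 2 ≤ b.natAbs) (hy : y.Prime) (h2 : y ≠ 2) :
    (∀ u, u.Prime → pk b y ≡ 1 [MOD u] → Ord b u = 0 ∨ Ord b u ∣ y - 1) ∨
      ∀ u, u.Prime → pk b (2 * y) ≡ 1 [MOD u] → Ord b u = 0 ∨ Ord b u ∣ y - 1 := by
  by_cases h : (y : ℤ) ∣ b - 1
  · have h' : ¬ (y : ℤ) ∣ b + 1 := fun c => h2 (prime_eq hy Nat.prime_two
      ((dvd_sub c h).trans (dvd_of_eq (by push_cast; ring))))
    refine .inr fun u hu e => Ord.of_mul hu (i := 1) ?_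
    have := nice_geom hy.pos (pk_prime' hb hy h2 h' ▸ Nat.modEq_iff_dvd.1 e.symm)
    rwa [(Nat.Odd.sub_odd (hy.odd_of_ne_two h2) odd_one).neg_pow, odd_one.neg_pow, neg_mul,
      dvd_neg] at this
  · exact .inl fun u hu e => Ord.of_mul hu
      (nice_geom hy.pos (pk_prime hb hy h2 h ▸ Nat.modEq_iff_dvd.1 e.symm))

theorem nc_prime (hq : 2 ≤ q) (hy : y.Prime) (h2 : y ≠ 2) :
    Nc q y (y - 1) ∨ Nc q (2 * y) (y - 1) :=
  nice_prime (by simpa using hq) hy h2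

theorem ord_three {k : ℤ} (hb : b = 3 * k + 1) (hr : r.Prime)
    (d : (r : ℤ) ∣ 3 * k ^ 2 + 3 * k + 1) : Ord b r = 3 := by
  refine Ord.eq_of three_pos (d.trans ⟨9 * k, by rw [hb]; ring⟩) fun p hp c f => ?_
  rw [(Nat.prime_dvd_prime_iff_eq hp Nat.prime_three).1 c, Nat.div_self three_pos, pow_one] at f
  exact (Nat.prime_iff_prime_int.1 hr).not_dvd_one
    ((dvd_sub d (f.mul_right (k + 1))).trans (dvd_of_eq (by rw [hb]; ring)))

theorem ord_three' (hr : r.Prime) (hi : 0 < i) (d : (r : ℤ) ∣ 3 * (b ^ i - 1)) (h1 : i < j)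
    (h2 : 2 < j) : Ord b r ≠ j := by
  rintro rfl
  rcases (Nat.prime_iff_prime_int.1 hr).dvd_or_dvd d with d | d
  · obtain rfl := prime_eq hr Nat.prime_three d
    have := Fact.mk Nat.prime_three
    have := ZMod.orderOf_dvd_card_sub_one (p := 3) (a := b) fun c => by
      rw [Ord.eq_zero hr ((ZMod.intCast_zmod_eq_zero_iff_dvd b 3).1 c)] at h2
      omega
    exact h2.not_ge (Nat.le_of_dvd two_pos this)
  · exact h1.not_ge (Ord.le_of hi d)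

theorem pk_small (hq : 3 ≤ q) (he : e = 3 ∨ e = 4 ∨ e = 6) : ∃ z : ℕ, 0 < z ∧ z ≤ q + 2 ∧
    (pk q e : ℤ) - 1 ∣ q ^ 2 * (q ^ 2 - 1) * z := by
  have hb : 2 ≤ (q : ℤ).natAbs := by simpa using (by omega : 2 ≤ q)
  rcases he with rfl | rfl | rfl
  · by_cases c : ((3 : ℕ) : ℤ) ∣ q - 1
    · obtain ⟨k, rfl⟩ : ∃ k, q = 3 * k + 1 := ⟨q / 3, by omega⟩
      refine ⟨_, by omega, le_rfl, ?_⟩
      rw [pk_eq (Y := 3 * k ^ 2 + 3 * k + 1) (Z := 3 * ((3 * k + 1 : ℕ) ^ 1 - 1)) hb three_pos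
        (by push_cast; ring) (fun r hr d => ord_three (k := k) (by simp) hr
          (by exact_mod_cast d)) fun r hr d => ord_three' hr one_pos d (by omega) (by omega)]
      exact ⟨3 * (3 * k + 1) ^ 2 * (3 * k + 2), by push_cast; ring⟩
    · refine ⟨1, one_pos, by omega, ?_⟩
      rw [pk_prime hb Nat.prime_three (by omega) c]
      exact ⟨q * (q - 1), by simp [sum_range_succ]; ring⟩
  · obtain ⟨δ, rfl | rfl, h⟩ := pk_two hb 0
    · exact ⟨1, one_pos, by omega, q ^ 2 - 1, by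
        norm_num at h; push_cast; linear_combination (1 - (q : ℤ) ^ 2) * h⟩
    · exact ⟨1, one_pos, by omega, 2 * q ^ 2, by
        norm_num at h; push_cast; linear_combination -(q : ℤ) ^ 2 * h⟩
  · by_cases c : ((3 : ℕ) : ℤ) ∣ q + 1
    · obtain ⟨k, rfl⟩ : ∃ k, q = 3 * k + 2 := ⟨q / 3, by omega⟩
      refine ⟨3 * k, by omega, by omega, ?_⟩
      rw [pk_eq (Y := 3 * k ^ 2 + 3 * k + 1)
        (Z := 3 * (((3 * k + 2 : ℕ) + 1) * ((3 * k + 2 : ℕ) ^ 3 - 1))) hb (by omega)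
        (by push_cast; ring) (fun r hr d => Ord.neg_odd hr (j := 3) (by decide) (by omega)
          (ord_three (k := -k - 1) (by push_cast; ring) hr ((Int.natCast_dvd_natCast.2 d).trans
            (dvd_of_eq (by push_cast; ring))))) fun r hr d => ?_]
      · exact ⟨3 * (3 * k + 2) ^ 2 * (3 * k + 1), by push_cast; ring⟩
      rw [mul_left_comm] at d
      rcases (Nat.prime_iff_prime_int.1 hr).dvd_or_dvd d with d | d
      · have := Ord.le_of (b := (3 * k + 2 : ℕ)) two_pos (d.trans ⟨(3 * k + 2 : ℕ) - 1, by ring⟩)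
        omega
      · exact ord_three' hr three_pos d (by omega) (by omega)
    · refine ⟨1, one_pos, by omega, ?_⟩
      rw [show 6 = 2 * 3 from rfl, pk_prime' hb Nat.prime_three (by omega) c]
      exact ⟨q * (q + 1), by simp [sum_range_succ]; ring⟩

theorem ord_jc (q r : ℕ) : Ord ((q : ℤ) ^ 2) r = jc (Ord q r) := by
  rw [Ord, Int.cast_pow, orderOf_pow' _ two_ne_zero, jc, ← Ord]
  split_ifs with h
  · rw [(Nat.odd_iff.2 h).coprime_two_right, Nat.div_one]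
  · rw [Nat.gcd_eq_right (by omega)]

theorem ad_of (hr : r.Prime) (hu : u.Prime) (h1 : 2 < Ord q r) (h2 : 2 < Ord q u)
    (h : Ord ((q : ℤ) ^ 2) u + Ord ((q : ℤ) ^ 2) r ≤ n ∨ ∃ ε : ℤ, (ε = 1 ∨ ε = -1) ∧
      (r : ℤ) ∣ (q : ℤ) ^ Ord ((q : ℤ) ^ 2) r - ε ∧ (u : ℤ) ∣ (q : ℤ) ^ Ord ((q : ℤ) ^ 2) r - ε) :
    Ad n (Ord q r) (Ord q u) := by
  rw [ord_jc, ord_jc] at h
  refine h.symm.imp (fun ⟨ε, hε, a, c⟩ => ?_) id
  rcases hε with rfl | rfl
  · rw [Ord.dvd_iff] at a c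
    have := Nat.le_of_dvd (by unfold jc; split_ifs <;> omega) a
    unfold jc at this c
    split_ifs at this c with o
    · exact ⟨c, .inl o⟩
    · omega
  have k : ∀ w : ℕ, w.Prime → 2 < Ord q w → (w : ℤ) ∣ (q : ℤ) ^ jc (Ord q r) - -1 →
      Ord q w ∣ 2 * jc (Ord q r) ∧ ¬ Ord q w ∣ jc (Ord q r) := fun w hw o d =>
    ⟨(Ord.dvd_iff _).1 (d.trans ⟨q ^ jc (Ord q r) - 1, by ring⟩), fun f =>
      Ord.ne_two (b := q) (by omega) (prime_eq hw Nat.prime_two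
        ((dvd_sub d ((Ord.dvd_iff _).2 f)).trans (dvd_of_eq (by push_cast; ring))))⟩
  have a1 := (k r hr h1 a).2
  obtain ⟨a2, a3⟩ := k u hu h2 c
  unfold jc at a1 a2 a3
  split_ifs at a1 a2 a3 with o
  · exact absurd dvd_rfl a1
  · exact ⟨by rwa [Nat.mul_div_cancel' (by omega)] at a2, .inr a3⟩

theorem dvd_jc (e : ℕ) : e ∣ 2 * jc e := by
  unfold jc
  split_ifs
  · exact dvd_mul_left _ _
  · exact dvd_of_eq (by omega)

theorem Ty.bs_eq (ht : t ≠ .U) : t.kd.bs q = (q : ℤ) ^ 2 := by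
  cases t <;> first | rfl | exact absurd rfl ht

theorem pk_ord_dvd (ht : t ≠ .U) (he : 3 ≤ e) (h : Pres t n e) : (pk q e : ℤ) ∣ t.ord n q := by
  have j0 : 0 < jc e := by unfold jc; split_ifs <;> omega
  have d : (pk q e : ℤ) ∣ (q : ℤ) ^ (2 * jc e) - 1 :=
    pk_dvd.trans (one_pow (M := ℤ) e ▸ one_pow (M := ℤ) (2 * jc e) ▸
      (by simpa using sub_one_dvd_pow_sub_one ((q : ℤ) ^ e) (2 * jc e / e) |>.trans (dvd_of_eq (by
        rw [← pow_mul, Nat.mul_div_cancel' (dvd_jc e)]))))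
  rcases h with h | ⟨rfl, h1, h2⟩
  · refine (d.trans ?_).trans (t.dvd_ord n q)
    rw [Ty.bs_eq ht, pow_mul]
    exact dvd_prod_of_mem (fun i => ((q : ℤ) ^ 2) ^ i - 1) (mem_Ico.2 ⟨j0, h⟩)
  have m := d.trans (dvd_prod_of_mem (fun i => (q : ℤ) ^ (2 * i) - 1) (mem_Icc.2 ⟨j0, le_rfl⟩))
  cases t
  · exact absurd rfl ht
  · exact m.mul_left _
  · exact (m.mul_left _).mul_left _
  · rw [Ty.ord, if_neg j0.ne', jc, if_pos (h1 rfl)]
    exact ((pk_dvd.mul_left _).mul_right _).mul_left _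
  · have e1 : e = 2 * jc e := by have := h2 rfl; unfold jc; split_ifs <;> omega
    refine (((pk_dvd_of (w := (q : ℤ) ^ jc e - 1) (dvd_of_eq ?_) fun r hr c => ?_).mul_left
      _).mul_right _).mul_left _
    · conv_lhs => rw [e1]
      ring
    · have := Ord.le_of j0 c
      omega

theorem one_pow_dvd (ht : t ≠ .U) (hq : 2 ≤ q) (hn : 0 < n) (hr : r.Prime)
    (h : Onq t n (Ord q r)) (hi : ((r ^ i : ℕ) : ℤ) ∣ t.ord n q) : r ^ i ∣ pk q (Ord q r) := by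
  obtain ⟨h3, h1, h2⟩ := h
  have p := Nat.prime_iff_prime_int.1 hr
  have r2 : r ≠ 2 := Ord.ne_two (b := q) (by omega)
  have j0 : 0 < jc (Ord q r) := by omega
  have j1 : jc (Ord q r) ≤ n := h1.elim le_of_lt fun c => c.1.le
  have cp : ∀ x : ℤ, ¬ (r : ℤ) ∣ x → IsCoprime ((r ^ i : ℕ) : ℤ) x := fun x c => by
    rw [Nat.cast_pow]
    exact (p.irreducible.coprime_iff_not_dvd.2 c).pow_left
  have d := hi.trans (t.ord_dvd' hn q)
  rw [Ty.bs_eq ht, ← mul_prod_erase _ _ (mem_Icc.2 ⟨j0, j1⟩)] at d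
  replace d := (cp _ (p.not_dvd_finsetProd fun l hl c => ?_)).dvd_of_dvd_mul_right
    ((cp _ (p.not_dvd_mul (fun c => r2 (prime_eq hr Nat.prime_two c)) fun c => ?_)).dvd_of_dvd_mul_left d)
  · refine pk_pow (by simpa using hq) (by omega) hr rfl ?_
    rw [← pow_mul] at d
    unfold jc at d
    split_ifs at d with o
    · rw [pow_mul', ← one_pow 2, sq_sub_sq] at d
      exact (cp _ fun c => r2 (prime_eq hr Nat.prime_two ((dvd_sub c ((Ord.dvd_iff _).2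
        dvd_rfl)).trans (dvd_of_eq (by push_cast; ring))))).dvd_of_dvd_mul_left d
    · rwa [Nat.mul_div_cancel' (by omega)] at d
  · rw [Ord.dvd_iff, ord_jc] at c
    simp only [mem_erase, mem_Icc] at hl
    exact not_a_aux1 (by omega) (by omega) hl.1.symm c
  · rw [Ord.eq_zero hr (p.dvd_of_dvd_pow c)] at h3
    omega

/-- A bound for the prime power parts of the order. -/
def Bd2 (n q : ℕ) : ℕ := 2 * (8 * q) ^ n

theorem pp_split {x : ℕ} (hv : v.Prime) (h2 : v ≠ 2) (hx : 1 ≤ x) (h : v ^ k ∣ x ^ 2 - 1) :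
    v ^ k ∣ x + 1 ∨ v ^ k ∣ x - 1 := by
  rw [← one_pow 2, Nat.sq_sub_sq] at h
  by_cases c : v ∣ x + 1
  · refine .inl (((hv.coprime_iff_not_dvd.2 fun d => h2 ?_).pow_left k).dvd_of_dvd_mul_right h)
    have := Nat.dvd_sub c d
    rw [show x + 1 - (x - 1) = 2 by omega] at this
    exact (Nat.prime_dvd_prime_iff_eq hv Nat.prime_two).1 this
  · exact .inr (((hv.coprime_iff_not_dvd.2 c).pow_left k).dvd_of_dvd_mul_left h)

theorem pp_sq (hq : 2 ≤ q) (hv : v.Prime) (hvq : ¬ v ∣ q)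
    (h : v ^ k ∣ ∏ i ∈ Icc 1 n, ((q ^ 2) ^ i - 1)) : v ^ k ≤ (4 * (q + 1)) ^ n := by
  have := Fact.mk hv
  have h2 : 2 ≤ q ^ 2 := by nlinarith
  rcases eq_or_ne v 2 with rfl | c
  · obtain ⟨x, rfl⟩ : ∃ x, q = x + 1 := ⟨q - 1, by omega⟩
    have hA : 2 ^ padicValNat 2 x ≤ x := Nat.le_of_dvd (by omega) pow_padicValNat_dvd
    have hC : 2 ^ padicValNat 2 (x + 2) ≤ x + 2 := Nat.le_of_dvd (by omega) pow_padicValNat_dvd
    have h4 : ∀ y, y ≠ 0 → ¬ 4 ∣ y → 2 ^ padicValNat 2 y ≤ 2 := fun y h0 hy => by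
      have := mt (padicValNat_dvd_iff_le (p := 2) (n := 2) h0).2 hy
      exact (Nat.pow_le_pow_right two_pos (by omega : _ ≤ 1)).trans (pow_one 2).le
    refine (pp_le_bd (e := 1) (s := padicValNat 2 (x + 2) + padicValNat 2 x) (c := 0) h2
      (fun j hj => ?_) (fun i hi => absurd (one_dvd i) hi) h).trans ?_
    · have := padicValNat.pow_two_sub_pow (x := x + 1) (y := 1) (n := 2 * j) hq (by omega) hvq
        (by omega) (even_two_mul j)
      rw [one_pow, padicValNat.mul two_ne_zero hj.ne', padicValNat_self, Nat.add_sub_cancel,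
        show x + 1 + 1 = x + 2 from rfl] at this
      rw [one_mul, ← pow_mul]
      omega
    · have h5 := h4 x (by omega)
      have h8 := h4 (x + 2) (by omega)
      rw [pow_zero, one_pow, one_mul, Nat.div_one, ← mul_pow, pow_add]
      refine Nat.pow_le_pow_left ?_ n
      generalize 2 ^ padicValNat 2 (x + 2) = C, 2 ^ padicValNat 2 x = A at *
      by_cases e : 4 ∣ x
      · have := h8 (by omega)
        nlinarith
      · have := h5 e
        nlinarith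
  obtain ⟨e, he, hp⟩ := exists_prim hv (fun d => hvq (hv.dvd_of_dvd_pow d) : ¬ v ∣ q ^ 2)
  have h1 : 1 < (q ^ 2) ^ e := Nat.one_lt_pow he.ne' h2
  refine (pp_le_bd (e := e) (s := padicValNat v ((q ^ 2) ^ e - 1)) (c := 0) h2
    (fun j hj => ?_) (fun i hi => ?_) h).trans ?_
  · have := padicValNat.pow_sub_pow (hv.odd_of_ne_two c) h1 hp.dvd
      (fun e => hvq (hv.dvd_of_dvd_pow (hv.dvd_of_dvd_pow e))) hj.ne'
    rw [one_pow, ← pow_mul] at this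
    exact this.le
  · exact (padicValNat.eq_zero_of_not_dvd fun e => hi ((hp.dvd_iff (by omega) he i).1 e)).le
  · have h3 : 1 < q ^ e := Nat.one_lt_pow he.ne' hq
    have h4 : v ^ padicValNat v ((q ^ 2) ^ e - 1) ≤ (q + 1) ^ e := by
      refine le_trans ?_ (by simpa using pow_add_pow_le q.zero_le zero_le_one he.ne' :
        q ^ e + 1 ≤ (q + 1) ^ e)
      rcases pp_split (x := q ^ e) hv c h3.le (pow_padicValNat_dvd.trans
        (dvd_of_eq (show (q ^ 2) ^ e - 1 = _ by rw [pow_right_comm]))) with d | d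
      · exact Nat.le_of_dvd (by omega) d
      · exact (Nat.le_of_dvd (by omega) d).trans (by omega)
    rw [pow_zero, one_pow, one_mul, mul_pow, mul_comm]
    refine Nat.mul_le_mul ((Nat.pow_le_pow_right two_pos (Nat.div_le_self n e)).trans
      (Nat.pow_le_pow_left (by norm_num) n)) ((Nat.pow_le_pow_left h4 _).trans ?_)
    rw [← pow_mul]
    exact Nat.pow_le_pow_right (by omega) (Nat.mul_div_le n e)

theorem Ty.dvd_sq (hn : 0 < n) (hq : 2 ≤ q) (hv : v.Prime) (hvq : ¬ v ∣ q)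
    (h : ((v ^ k : ℕ) : ℤ) ∣ t.ord n q) : v ^ k ∣ 2 * ∏ i ∈ Icc 1 n, ((q ^ 2) ^ i - 1) := by
  have h1 : v ^ k ∣ 2 * q ^ (n * n) * ∏ i ∈ Icc 1 n, ((q ^ 2) ^ i - 1) := by
    rw [← Int.natCast_dvd_natCast]
    refine (h.trans (t.ord_dvd hn q)).trans (dvd_of_eq ?_)
    push_cast
    refine congrArg _ (prod_congr rfl fun i _ => ?_)
    rw [Nat.cast_pred (by positivity), ← pow_mul, Nat.cast_pow]
  rw [mul_comm 2, mul_assoc] at h1
  exact ((hv.coprime_iff_not_dvd.2 hvq).pow k _).dvd_of_dvd_mul_left h1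

theorem Ty.pp_le2 (hn : 0 < n) (hq : 2 ≤ q) (hv : v.Prime) (hvq : ¬ v ∣ q)
    (h : ((v ^ k : ℕ) : ℤ) ∣ t.ord n q) : v ^ k ≤ Bd2 n q := by
  have h0 : (4 * (q + 1)) ^ n ≤ (8 * q) ^ n := Nat.pow_le_pow_left (by omega) n
  have h1 := Ty.dvd_sq hn hq hv hvq h
  rcases eq_or_ne v 2 with rfl | e
  · rcases k with _ | k
    · exact Nat.mul_pos two_pos (by positivity)
    rw [pow_succ'] at h1 ⊢
    exact Nat.mul_le_mul_left _ ((pp_sq hq hv hvq (Nat.dvd_of_mul_dvd_mul_left two_pos h1)).trans h0)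
  · exact (pp_sq hq hv hvq ((((Nat.coprime_primes hv Nat.prime_two).2
      e).pow_left k).dvd_of_dvd_mul_left h1)).trans (h0.trans (Nat.le_mul_of_pos_left _ two_pos))

theorem Ty.ord_bd (t : Ty) (hn : 0 < n) (hq : 2 ≤ q) :
    t.ord n q ≤ 2 * (q : ℤ) ^ (2 * n ^ 2 + n) := by
  have h1 : (1 : ℤ) < q := by exact_mod_cast hq
  have a : ∀ i ∈ Icc 1 n, 0 < (q : ℤ) ^ (2 * i) - 1 := fun i hi =>
    sub_pos.2 (one_lt_pow₀ h1 (by have := (mem_Icc.1 hi).1; omega))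
  have c : ∀ m, ∏ i ∈ Icc 1 m, ((q : ℤ) ^ (2 * i) - 1) ≤ (q : ℤ) ^ (m * (m + 1)) := fun m => by
    induction m with
    | zero => simp
    | succ m ih =>
      rw [prod_Icc_succ_top (by omega), show (m + 1) * (m + 1 + 1) = m * (m + 1) + 2 * (m + 1) by
        ring, pow_add _ (m * (m + 1))]
      exact mul_le_mul ih (by omega) (sub_nonneg.2 (one_le_pow₀ h1.le)) (by positivity)
  refine (Int.le_of_dvd (mul_pos (by positivity) (prod_pos a)) (t.ord_dvd hn q)).trans ?_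
  rw [show 2 * n ^ 2 + n = n * n + n * (n + 1) by ring, pow_add, ← mul_assoc]
  exact mul_le_mul_of_nonneg_left (c n) (by positivity)

end Pool.Agent.Lib.MP_7d41f7_al
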