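import Pool.Agent.Lib.MP_7d41f7_al.D.WDefs
import Pool.Agent.Lib.MP_7d41f7_al.D.YA

/-! The order of the isolated torus and its cofactor. -/

set_option autoImplicit false

namespace Pool.Agent.Lib.MP_7d41f7_al

/-- The three cases. -/
def TB (b : ℤ) : Prop := b = 1 ∨ b = -1 ∨ b = 0

/-- The class of the primes of the isolated torus. -/
def tcl (b : ℤ) : ℕ := if b = 0 then 4 else if b = 1 then 3 else 6

/-- The number of positive roots, also the index of the torus in its normaliser. -/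
def tee (b : ℤ) : ℕ := if b = 0 then 4 else 3

variable {b : ℤ} {q r u k p f : ℕ}

theorem tdd_bd (hb : TB b) : 0 < tdd b q ∧ tdd b q ≤ 3 :=
  ⟨Int.gcd_pos_of_ne_zero_left _ (by positivity), by
    have := Int.le_of_dvd (by positivity) (Int.gcd_dvd_left (2 + b ^ 2) (tph b q))
    unfold tdd
    rcases hb with rfl | rfl | rfl <;> omega⟩

theorem tm_mul (hb : TB b) : (tm b q : ℤ) * tdd b q = tph b q := by
  have : 0 ≤ tph b q := by
    unfold tph
    rcases hb with rfl | rfl | rfl <;> nlinarith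
  rw [tm, Int.toNat_of_nonneg (Int.ediv_nonneg this (by positivity))]
  exact Int.ediv_mul_cancel (Int.gcd_dvd_right _ _)

theorem tm_dvd (hb : TB b) : (tm b q : ℤ) ∣ tph b q := Dvd.intro _ (tm_mul hb)

theorem tm_bd (hb : TB b) (hq : 4 ≤ q) : q ^ 2 ≤ 4 * tm b q ∧ tm b q ≤ (q + 1) ^ 2 := by
  have h1 := tm_mul (q := q) hb
  obtain ⟨h2, h3⟩ := tdd_bd (q := q) hb
  unfold tph at h1
  zify at *
  rcases hb with rfl | rfl | rfl <;> constructor <;> nlinarith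

theorem tw_cast (hb : TB b) (hq : 1 ≤ q) : (tw b q : ℤ) =
    q ^ tee b * ((q ^ 2 - 1) * if b = 0 then (q : ℤ) ^ 2 - 1 else q - b) := by
  have h1 : 1 ≤ q ^ 2 := Nat.one_le_pow _ _ hq
  unfold tw tee
  split_ifs with h
  · push_cast [h1]
    ring
  · push_cast [h1]
    rw [Int.toNat_of_nonneg (by rcases hb with rfl | rfl | rfl <;> omega), mul_assoc]

theorem tw_dvd (hb : TB b) (hq : 1 ≤ q) : (tw b q : ℤ) ∣ q ^ tee b * (q ^ 2 - 1) ^ 2 := by
  rw [tw_cast hb hq, sq (_ - _)]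
  refine mul_dvd_mul_left _ (mul_dvd_mul_left _ ?_)
  rcases hb with rfl | rfl | rfl
  · exact ⟨q + 1, by simp; ring⟩
  · exact ⟨q - 1, by simp; ring⟩
  · simp

theorem tw_mod (hb : TB b) (hq : 1 ≤ q) : tph b q ∣ tw b q - tee b := by
  rw [tw_cast hb hq, tph]
  rcases hb with rfl | rfl | rfl
  · exact ⟨q ^ 4 - 2 * q ^ 3 + 3 * q - 3, by simp [tee]; ring⟩
  · exact ⟨q ^ 4 + 2 * q ^ 3 - 3 * q - 3, by simp [tee]; ring⟩
  · exact ⟨q ^ 6 - 3 * q ^ 4 + 4 * q ^ 2 - 4, by simp [tee]; ring⟩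

theorem tm_five (hb : TB b) (hr : r.Prime) (h : r ∣ tm b q) : 5 ≤ r := by
  have h1 := tm_mul (q := q) hb
  have h2 : (r : ℤ) ∣ tph b q := (Int.natCast_dvd_natCast.2 h).trans (tm_dvd hb)
  have k : ∀ n : ℕ, (∀ x : ZMod n, x ^ 2 + b * x + 1 ≠ 0) → ¬ (n : ℤ) ∣ tph b q := fun n a d =>
    a q (by simpa [tph] using (ZMod.intCast_zmod_eq_zero_iff_dvd _ n).2 d)
  have h3 : (r : ℤ) = 2 + b ^ 2 → ((r * r : ℕ) : ℤ) ∣ tph b q := fun e => by
    rw [← h1, Nat.cast_mul]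
    exact mul_dvd_mul (Int.natCast_dvd_natCast.2 h) (Int.dvd_coe_gcd e.dvd h2)
  refine hr.five_le_of_ne_two_of_ne_three ?_ ?_ <;> rintro rfl <;> rcases hb with rfl | rfl | rfl
  exacts [k 2 (by decide) h2, k 2 (by decide) h2, k _ (by decide) (h3 rfl),
    k _ (by decide) (h3 rfl), k _ (by decide) (h3 rfl), k 3 (by decide) h2]

theorem tm_he (hb : TB b) (hq : 1 ≤ q) (hr : r.Prime) (h : r ∣ tm b q) :
    tee b < r ∧ tw b q ≡ tee b [MOD r] :=
  ⟨by have := tm_five hb hr h; unfold tee; split_ifs <;> omega, (Nat.modEq_iff_dvd.2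
    ((Int.natCast_dvd_natCast.2 h).trans ((tm_dvd hb).trans (tw_mod hb hq)))).symm⟩

theorem tm_cop (hb : TB b) (hq : 1 ≤ q) : (tm b q).Coprime (tw b q) :=
  Nat.coprime_of_dvd fun r hr d1 d2 => by
    have := tm_he hb hq hr d1
    exact this.1.not_ge (Nat.le_of_dvd (by unfold tee; split_ifs <;> omega)
      ((this.2.dvd_iff dvd_rfl).1 d2))

theorem tph_dvd (hb : TB b) : ∃ y : ℤ, (q : ℤ) ^ tcl b - 1 = tph b q * y ∧
    y ∣ (q ^ 2 - 1) * ((q : ℤ) ^ 3 - 1) ∧ (b = 1 → y = q - 1) ∧ (b = 0 → y = q ^ 2 - 1) := by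
  unfold tph
  rcases hb with rfl | rfl | rfl
  · exact ⟨q - 1, by simp [tcl]; ring, ⟨(q + 1) * (q ^ 3 - 1), by ring⟩, by simp⟩
  · exact ⟨(q + 1) * (q ^ 3 - 1), by simp [tcl]; ring, ⟨q - 1, by ring⟩, by simp⟩
  · exact ⟨q ^ 2 - 1, by simp [tcl]; ring, dvd_mul_right _ _, by simp⟩

theorem dvd_tm (hb : TB b) (hr : r.Prime) (h : Ord q r = tcl b) : r ∣ tm b q := by
  obtain ⟨y, h1, h2, h3, h4⟩ := tph_dvd (q := q) hb
  have p := Nat.prime_iff_prime_int.1 hr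
  have h5 : 3 ≤ tcl b := by unfold tcl; split_ifs <;> omega
  have l : ∀ i, 0 < i → (r : ℤ) ∣ q ^ i - 1 → tcl b ≤ i := fun i a d => h ▸ Ord.le_of a d
  rcases p.dvd_or_dvd (tm_mul (q := q) hb ▸ h1 ▸ (Ord.dvd_iff _).2 h.dvd) with d | d
  · refine (p.dvd_or_dvd d).elim Int.natCast_dvd_natCast.1 fun c => ?_
    have := Nat.le_of_dvd (tdd_bd hb).1 (Int.natCast_dvd_natCast.1 c)
    have := (tdd_bd (q := q) hb).2
    have := Fact.mk hr
    have := Nat.le_of_dvd (Nat.sub_pos_of_lt hr.one_lt) (ZMod.orderOf_dvd_card_sub_one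
      (a := ((q : ℤ) : ZMod r)) fun e => by rw [Ord, e, orderOf_zero] at h; omega)
    rw [Ord] at h
    omega
  rcases hb with rfl | rfl | rfl
  · exact absurd (l 1 one_pos (by rwa [pow_one, ← h3 rfl])) (by decide)
  · exact (p.dvd_or_dvd (d.trans h2)).elim (fun c => absurd (l 2 two_pos c) (by decide))
      fun c => absurd (l 3 three_pos c) (by decide)
  · exact absurd (l 2 two_pos (h4 rfl ▸ d)) (by decide)

theorem tm_ord (hb : TB b) (hq : 1 ≤ q) (hr : r.Prime) (h : r ∣ tm b q) : Ord q r = tcl b := by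
  obtain ⟨y, h1, -⟩ := tph_dvd (q := q) hb
  have h0 := (Int.natCast_dvd_natCast.2 h).trans (tm_dvd hb)
  have h2 := (Ord.dvd_iff _).1 (h1 ▸ h0.mul_right y)
  have h3 : ¬ Ord q r ∣ 2 := fun c => Nat.not_coprime_of_dvd_of_dvd hr.one_lt h
    (Int.natCast_dvd_natCast.1 (tw_cast hb hq ▸ (((Ord.dvd_iff _).2 c).mul_right _).mul_left _))
    (tm_cop hb hq)
  have h4 : b = -1 → ¬ Ord q r ∣ 3 := by
    rintro rfl c
    have := dvd_sub (h0.mul_right (q + 1)) ((Ord.dvd_iff _).2 c)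
    rw [tph, show ((q : ℤ) ^ 2 + -1 * q + 1) * (q + 1) - (q ^ 3 - 1) = (2 : ℕ) by push_cast; ring,
      Int.natCast_dvd_natCast] at this
    have := Nat.le_of_dvd two_pos this
    have := tm_five hb hr h
    omega
  generalize Ord q r = o at *
  have h5 : o ≤ 6 := (Nat.le_of_dvd (by unfold tcl; split_ifs <;> omega) h2).trans
    (by unfold tcl; split_ifs <;> omega)
  rcases hb with rfl | rfl | rfl <;> interval_cases o <;> simp_all [tcl]

theorem sq_split {x : ℤ} (hu : u.Prime) (h : (u : ℤ) ^ k ∣ (x ^ 2 - 1) ^ 2) :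
    ∃ η : ℤ, (η = 1 ∨ η = -1) ∧ (u : ℤ) ^ k ∣ 4 * (x - η) ^ 2 := by
  have p := Nat.prime_iff_prime_int.1 hu
  have c : ∀ {y z : ℤ}, ¬ (u : ℤ) ∣ y → (u : ℤ) ^ k ∣ y ^ 2 * z → (u : ℤ) ^ k ∣ z := fun a d =>
    ((p.coprime_iff_not_dvd.2 a).pow).dvd_of_dvd_mul_left d
  by_cases h1 : (u : ℤ) ∣ x + 1
  swap
  · exact ⟨1, .inl rfl, (c h1 (h.trans (dvd_of_eq (by ring)))).mul_left _⟩
  by_cases h2 : (u : ℤ) ∣ x - 1
  swap
  · exact ⟨-1, .inr rfl, (c h2 (h.trans (dvd_of_eq (by ring)))).mul_left _⟩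
  obtain rfl : u = 2 := prime_eq hu Nat.prime_two (by simpa using dvd_sub h1 h2)
  obtain ⟨y, hy⟩ := h2
  obtain rfl : x = 2 * y + 1 := by omega
  by_cases h3 : ((2 : ℕ) : ℤ) ∣ y
  · exact ⟨1, .inl rfl, c (y := y + 1) (by omega) (h.trans (dvd_of_eq (by ring)))⟩
  · exact ⟨-1, .inr rfl, c h3 (h.trans (dvd_of_eq (by ring)))⟩

theorem tw_pp (hb : TB b) (hq : 1 ≤ q) (hu : u.Prime) (h0 : ¬ u ∣ q) (h : u ^ k ∣ tw b q) :
    ∃ η : ℤ, (η = 1 ∨ η = -1) ∧ (u : ℤ) ^ k ∣ 4 * (q - η) ^ 2 :=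
  sq_split hu ((((Nat.prime_iff_prime_int.1 hu).coprime_iff_not_dvd.2
    (mt Int.natCast_dvd_natCast.1 h0)).pow).dvd_of_dvd_mul_left
      ((by exact_mod_cast h : (u : ℤ) ^ k ∣ tw b q).trans (tw_dvd hb hq)))

/-- Prime powers in cross characteristic are small. -/
theorem tw_le (hb : TB b) (hq : 4 ≤ q) (hu : u.Prime) (h0 : ¬ u ∣ q)
    (h : u ^ k ∣ tm b q * tw b q) : u ^ k ≤ 4 * (q + 1) ^ 2 := by
  by_cases c : u ∣ tw b q
  · obtain ⟨η, h1, h2⟩ := tw_pp hb (by omega) hu h0 (((hu.coprime_iff_not_dvd.2 fun d =>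
      Nat.not_coprime_of_dvd_of_dvd hu.one_lt d c (tm_cop hb (by omega))).pow_left
        k).dvd_of_dvd_mul_left h)
    have := Int.le_of_dvd (mul_pos four_pos (pow_pos (by omega) 2)) h2
    zify at *
    rcases h1 with rfl | rfl <;> nlinarith
  · have := tm_bd hb hq
    have := Nat.le_of_dvd (by nlinarith) (((hu.coprime_iff_not_dvd.2 c).pow_left
      k).dvd_of_dvd_mul_right h)
    omega

theorem tw_ppart (hb : TB b) (hp : p.Prime) (hf : 0 < f) (h : p ^ k ∣ tw b (p ^ f)) :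
    k ≤ f * tee b := by
  have pp := Nat.prime_iff_prime_int.1 hp
  have h1 := (by exact_mod_cast h : (p : ℤ) ^ k ∣ tw b (p ^ f)).trans
    (tw_dvd hb (pow_pos hp.pos f))
  have h2 : ¬ (p : ℤ) ∣ ((p ^ f : ℕ) : ℤ) ^ 2 - 1 := fun d => pp.not_dvd_one (by
    simpa using dvd_sub (dvd_pow (Int.natCast_dvd_natCast.2 (dvd_pow_self p hf.ne')) two_ne_zero) d)
  have h3 := ((pp.coprime_iff_not_dvd.2 h2).pow).dvd_of_dvd_mul_right h1
  rw [Nat.cast_pow, ← pow_mul] at h3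
  exact (Nat.pow_dvd_pow_iff_le_right hp.one_lt).1 (by exact_mod_cast h3)

theorem tm_prim (hb : TB b) (hp : p.Prime) (hf : 0 < f) (hq : 5 ≤ p ^ f) :
    ∃ r, Prim p (f * tcl b) r ∧ r ∣ tm b (p ^ f) := by
  have h5 : 3 ≤ tcl b := by unfold tcl; split_ifs <;> omega
  obtain ⟨r, hr⟩ := zsig (m := f * tcl b) hp.two_le (by nlinarith) fun ⟨c1, c2⟩ => by
    have : f ≤ 2 := by nlinarith
    subst c1
    interval_cases f <;> omega
  exact ⟨r, hr, dvd_tm hb hr.pr ((hr.pow hp.pos hf (by omega)).ord_eq (by omega) (by omega))⟩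

theorem tm_rad (hb : TB b) (hp : p.Prime) (hf : 0 < f) (hq : 100 ≤ p ^ f) (hu : u.Prime)
    (hk : 0 < k) (h1 : u ^ k ∣ tw b (p ^ f)) (h2 : u ^ k ≡ 1 [MOD tm b (p ^ f)]) :
    u = p ∧ ¬ u ^ (k + 1) ∣ tw b (p ^ f) ∧ b ≠ -1 := by
  have h3 := (Nat.modEq_iff_dvd' (pow_pos hu.pos k)).1 h2.symm
  by_cases e : u = p
  · subst e
    obtain ⟨r, hr, d⟩ := tm_prim hb hp hf (by omega)
    have h5 : 0 < tcl b := by unfold tcl; split_ifs <;> omega
    have a := Nat.le_of_dvd hk ((hr.dvd_iff hp.pos (by positivity) k).1 (d.trans h3))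
    have c := Nat.le_of_mul_le_mul_left (a.trans (tw_ppart hb hp hf h1)) hf
    refine ⟨rfl, fun t => ?_, by rintro rfl; exact absurd c (by decide)⟩
    have := tw_ppart hb hp hf t
    rcases hb with rfl | rfl | rfl <;> simp [tcl, tee] at * <;> omega
  obtain ⟨η, h4, s, h5⟩ := tw_pp hb (by omega) hu
    (fun d => e ((Nat.prime_dvd_prime_iff_eq hu hp).1 (hu.dvd_of_dvd_pow d))) h1
  have h6 := Nat.le_of_dvd (Nat.sub_pos_of_lt (Nat.one_lt_pow hk.ne' hu.one_lt)) h3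
  have h7 := (tm_bd hb (q := p ^ f) (by omega)).1
  have h8 := tm_dvd (q := p ^ f) hb
  have h9 := Nat.modEq_iff_dvd.1 h2
  have := pow_pos hu.pos k
  generalize p ^ f = q at *
  generalize tm b q = T at *
  rw [← Nat.cast_pow] at h5
  generalize u ^ k = U at *
  have d : (T : ℤ) ∣ s + 4 * (2 * η + b) * q := by
    have := dvd_add (h9.mul_right s) (h8.mul_left 4)
    rw [tph] at this
    refine this.trans (dvd_of_eq ?_)
    rcases h4 with rfl | rfl <;> push_cast <;> linarith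
  have U0 : T + 1 ≤ U := by omega
  zify at h7 hq U0
  have s0 : 0 < s := (mul_pos_iff_of_pos_left (by omega : (0 : ℤ) < U)).1
    (h5 ▸ mul_pos four_pos (pow_pos (by omega) 2))
  have s1 : s < 20 := by
    by_contra c
    rcases h4 with rfl | rfl <;> nlinarith
  have := Int.eq_zero_of_abs_lt_dvd d (abs_lt.2 (by
    rcases hb with rfl | rfl | rfl <;> rcases h4 with rfl | rfl <;> constructor <;> nlinarith))
  rcases hb with rfl | rfl | rfl <;> rcases h4 with rfl | rfl <;> omega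

end Pool.Agent.Lib.MP_7d41f7_al
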