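import Pool.Agent.Lib.MP_7d41f7_al.D.ZA
import Pool.Agent.Lib.MP_7d41f7_al.D.YS

/-! Sizes for the groups of rank two. -/

set_option autoImplicit false

namespace Pool.Agent.Lib.MP_7d41f7_al

open Finset

variable {h m u v k q p f a c M N : ℕ} {b : ℤ}

theorem dim_of {e W : ℤ} {s : ℕ} (he : 0 < e) (hh : h * e = u ^ N * W) (hW : W ≤ u ^ s) :
    h ≤ u ^ (N + s) := by
  have h2 : (h : ℤ) ≤ u ^ (N + s) := by
    rw [pow_add]
    exact ((le_mul_of_one_le_right (Int.natCast_nonneg h) he).trans hh.le).trans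
      (mul_le_mul_of_nonneg_left hW (by positivity))
  exact_mod_cast h2

theorem dim_pow (hu : 2 ≤ u) (h1 : h ≤ u ^ M) (h2 : M * a ≤ N * c) : h ^ a ≤ (u ^ N) ^ c := by
  refine (Nat.pow_le_pow_left h1 a).trans ?_
  rw [← pow_mul, ← pow_mul]
  exact Nat.pow_le_pow_right (by omega) h2

theorem ordSL_cast (hu : 2 ≤ u) : (ordSL m u : ℤ) =
    u ^ (m * (m - 1) / 2) * ∏ i ∈ Icc 2 m, ((u : ℤ) ^ i - 1) := by
  have c : ∀ i, ((u ^ i - 1 : ℕ) : ℤ) = (u : ℤ) ^ i - 1 := fun i => by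
    rw [Nat.cast_pred (by positivity), Nat.cast_pow]
  rw [ordSL, Nat.cast_mul, Nat.cast_prod, Nat.cast_pow]
  simp only [c]

theorem dim_A (hu : 2 ≤ u) (hh : h * Nat.gcd (m + 1) (u - 1) = ordSL (m + 1) u) :
    h ≤ u ^ (m * (m + 2)) := by
  refine (dim_of (e := Nat.gcd (m + 1) (u - 1))
    (Int.natCast_pos.2 (Nat.gcd_pos_of_pos_left _ m.succ_pos))
    (by rw [← Nat.cast_mul, hh, ordSL_cast hu]) (fat_prodA (fat_one hu) m)).trans
    (Nat.pow_le_pow_right (by omega) ?_)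
  have := Nat.mul_div_le ((m + 1) * m) 2
  have := Nat.mul_div_le (m * (m + 3)) 2
  rw [Nat.add_sub_cancel]
  nlinarith

theorem dim_U (hu : 2 ≤ u) (hh : OrdU (m + 1) u h) : h ≤ u ^ (m * (m + 2)) := by
  have u1 := fat_one hu
  have e0 : (0 : ℤ) < Int.gcd (m + 1 : ℕ) ((u : ℤ) + 1) :=
    Int.natCast_pos.2 (Int.gcd_pos_of_ne_zero_left _ (by omega))
  have := Nat.mul_div_le ((m + 1) * m) 2
  obtain ⟨k, rfl | rfl⟩ := Nat.even_or_odd' m
  · refine (dim_of e0 hh (fat_prodU u1 k)).trans (Nat.pow_le_pow_right (by omega) ?_)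
    rw [Nat.add_sub_cancel]
    nlinarith
  · refine (dim_of (s := k * (2 * k + 3) + (2 * k + 1 + 1)) e0 hh ?_).trans
      (Nat.pow_le_pow_right (by omega) ?_)
    · rw [prod_Icc_succ_top (by omega), Even.neg_one_pow ⟨k + 1, by ring⟩, pow_add _ (k * _)]
      exact mul_le_mul (fat_prodU u1 k) (by omega) (fat_sub u1 _) (by positivity)
    · rw [Nat.add_sub_cancel]
      nlinarith

theorem dim_B (hu : 2 ≤ u) (hh : OrdB m u h) : h ≤ u ^ (m * m + m * (m + 1)) :=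
  dim_of (Int.natCast_pos.2 (Int.gcd_pos_of_ne_zero_left _ two_ne_zero)) hh
    (fat_prodB (fat_one hu) m)

theorem dim_D {ε : ℤ} (hε : ε = 1 ∨ ε = -1) (hu : 2 ≤ u) (hh : OrdD ε (m + 1) u h) :
    h ≤ u ^ ((m + 1) * m + (m + 1 + 1 + m * (m + 1))) := by
  have u1 := fat_one hu
  have u2 : (2 : ℤ) ≤ u := by omega
  refine dim_of (Int.natCast_pos.2 (Int.gcd_pos_of_ne_zero_left _ four_ne_zero))
    (hh.trans (mul_assoc _ _ _)) ?_
  rw [pow_add _ (m + 1 + 1), Nat.add_sub_cancel]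
  refine mul_le_mul ?_ (fat_prodB u1 m) (prod_nonneg fun i _ => fat_sub u1 _) (by positivity)
  have := one_le_pow₀ (n := m + 1) u1
  rw [pow_succ _ (m + 1)]
  rcases hε with rfl | rfl <;> nlinarith

theorem dim_exc (hu : 2 ≤ u) (hh : ExcOrd2 u h) : (∃ N, u ^ N ∣ h ∧ h ^ 3 ≤ (u ^ N) ^ 7) ∨
    (h : ℤ) = u ^ 2 * (u ^ 2 + 1) * (u - 1) := by
  have u1 := fat_one hu
  have s := fat_sub u1
  have l : ∀ i, (u : ℤ) ^ i - 1 ≤ u ^ i := fun i => by omega
  have z : ∀ a b : ℤ, a ≠ 0 → (0 : ℤ) < Int.gcd a b := fun a b e =>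
    Int.natCast_pos.2 (Int.gcd_pos_of_ne_zero_left _ e)
  have k : ∀ (J : List ℕ), (J.map fun i => (u : ℤ) ^ i - 1).prod ≤ u ^ J.sum := fun J => by
    induction J with
    | nil => simp
    | cons a J ih =>
      rw [List.map_cons, List.prod_cons, List.sum_cons, pow_add]
      exact mul_le_mul (l a) ih (List.prod_nonneg fun x hx => by
        obtain ⟨i, -, rfl⟩ := List.mem_map.1 hx
        exact s i) (by positivity)
  have p := fun i j => fat_pair u1 (i := i) (j := j)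
  have p0 : ∀ i j, 0 ≤ ((u : ℤ) ^ i + 1) * (u ^ j - 1) := fun i j =>
    mul_nonneg (by positivity) (s j)
  have w : ∀ (N : ℕ) {e W ε : ℤ} {s : ℕ}, ε * ε = 1 → e ∣ u - ε → 0 < e → h * e = u ^ N * W →
      W ≤ u ^ s → 3 * (N + s) ≤ N * 7 → ∃ N, u ^ N ∣ h ∧ h ^ 3 ≤ (u ^ N) ^ 7 :=
    fun N _ _ _ _ a b c d e f => ⟨N, sz_dvd a b d, sz_of hu c d e f⟩
  have o := one_mul (1 : ℤ)
  refine or_iff_not_imp_right.2 fun ns => ?_
  rcases hh with e | e | e | e | e | e | e | e | e | e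
  · exact w 6 o (one_dvd _) one_pos (by simp [e, mul_assoc]) (k [6, 2]) (by decide)
  · exact w 24 o (one_dvd _) one_pos (by simp [e, mul_assoc]) (k [12, 8, 6, 2]) (by decide)
  · exact w 36 o (Int.gcd_dvd_right _ _) (z _ _ three_ne_zero) (by simp [e, mul_assoc])
      (k [12, 9, 8, 6, 5, 2]) (by decide)
  · refine w 36 (ε := -1) (s := 9 + 8 + (5 + 2) + [12, 6].sum) rfl
      (Int.gcd_dvd_right 3 (u + 1)) (z _ _ three_ne_zero)
      (W := (u ^ 9 + 1) * (u ^ 8 - 1) * ((u ^ 5 + 1) * (u ^ 2 - 1)) *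
        ([12, 6].map fun i => (u : ℤ) ^ i - 1).prod) (by simp [e]; ring) ?_ (by decide)
    rw [pow_add _ (_ + _), pow_add _ (9 + 8)]
    exact mul_le_mul (mul_le_mul (p 9 8 (by omega)) (p 5 2 (by omega)) (p0 _ _) (by positivity))
      (k _) (by simpa using mul_nonneg (s 12) (s 6)) (by positivity)
  · exact w 63 o (Int.gcd_dvd_right _ _) (z _ _ two_ne_zero) (by simp [e, mul_assoc])
      (k [18, 14, 12, 10, 8, 6, 2]) (by decide)
  · exact w 120 o (one_dvd _) one_pos (by simp [e, mul_assoc]) (k [30, 24, 20, 18, 14, 12, 8, 2])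
      (by decide)
  · refine w 12 (s := 10 + 6) o (one_dvd _) one_pos
      (W := (u ^ 8 + u ^ 4 + 1) * (u ^ 2 - 1) * (u ^ 6 - 1)) (by rw [e]; ring) ?_ (by decide)
    rw [pow_add _ 10]
    refine mul_le_mul ?_ (l 6) (s 6) (by positivity)
    have := pow_le_pow_right₀ u1 (show 6 ≤ 8 by omega)
    have := pow_le_pow_right₀ u1 (show 2 ≤ 4 by omega)
    linarith
  · exact absurd e.2 ns
  · exact w 3 o (one_dvd _) one_pos (by rw [e]; ring) (p 3 1 (by omega)) (by decide)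
  · refine w 12 (s := 6 + 4 + (3 + 1)) o (one_dvd _) one_pos
      (W := (u ^ 6 + 1) * (u ^ 4 - 1) * ((u ^ 3 + 1) * (u ^ 1 - 1))) (by rw [e]; ring) ?_
      (by decide)
    rw [pow_add _ (6 + 4)]
    exact mul_le_mul (p 6 4 (by omega)) (p 3 1 (by omega)) (p0 _ _) (by positivity)

/-- What is known about the order `h` of the socle. -/
structure OD (h : ℕ) (b : ℤ) (q : ℕ) : Prop where
  hb : TB b
  big : 2 ^ 24 ≤ q
  card : ∃ a, (a = 1 ∨ a = 2 ∧ b = 0) ∧ h * a = tm b q * tw b q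

theorem OD.dvd (K : OD h b q) : h ∣ tm b q * tw b q := K.card.elim fun _ e => Dvd.intro _ e.2

theorem OD.eq (K : OD h b q) : ∃ d : ℤ, 0 < d ∧ d ≤ 4 ∧ h * d = q ^ tee b * ((q ^ 2 - 1) *
    if b = 0 then (q : ℤ) ^ 4 - 1 else q ^ 3 - b) := by
  obtain ⟨a, h1, h2⟩ := K.card
  have := K.big
  obtain ⟨h3, h4⟩ := tdd_bd (q := q) K.hb
  refine ⟨a * tdd b q, by rcases h1 with rfl | ⟨rfl, -⟩ <;> omega, ?_, ?_⟩
  · rcases h1 with rfl | ⟨rfl, rfl⟩
    · omega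
    · have := Int.le_of_dvd (by positivity) (Int.gcd_dvd_left (2 + 0 ^ 2) (tph 0 q))
      unfold tdd
      omega
  rw [← mul_assoc, ← Nat.cast_mul, h2, Nat.cast_mul, mul_right_comm, tm_mul K.hb,
    tw_cast K.hb (by omega), tph]
  rcases K.hb with rfl | rfl | rfl <;> simp <;> ring

theorem OD.bd (K : OD h b q) : q ^ (2 * tee b + 2) ≤ 5 * h ∧ h ≤ 2 * q ^ (2 * tee b + 2) := by
  obtain ⟨d, h1, h2, h3⟩ := K.eq
  have := K.big
  have a : (h : ℤ) ≤ h * d := le_mul_of_one_le_right (by omega) h1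
  have c : (h : ℤ) * d ≤ h * 4 := mul_le_mul_of_nonneg_left h2 (by omega)
  rw [h3] at a c
  have q1 : (100 : ℤ) ≤ q := by omega
  zify
  generalize (q : ℤ) = x at *
  have e : ∀ i, 100 * x ^ i ≤ x ^ (i + 1) := fun i => by
    rw [pow_succ']
    exact mul_le_mul_of_nonneg_right q1 (by positivity)
  have := e 3
  have := e 4
  have := e 5
  have := e 6
  have := e 7
  have := e 8
  have := e 9
  have : 0 < x ^ 3 := by positivity
  rcases K.hb with rfl | rfl | rfl <;> simp [tee] at * <;> constructor <;> linarith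

theorem OD.char (K : OD h b q) (hv : v.Prime) (h1 : v ^ k ∣ h) (h2 : h ≤ (v ^ k) ^ 3) : v ∣ q := by
  by_contra c
  have := K.big
  have h3 := (tw_le K.hb (by omega) hv c (h1.trans K.dvd)).trans
    (show _ ≤ 5 * q ^ 2 by nlinarith)
  have h4 := (Nat.pow_le_pow_right (by omega : 0 < q) (show 6 + 1 ≤ 2 * tee b + 2 by
    unfold tee; split_ifs <;> omega)).trans (K.bd.1.trans
      (Nat.mul_le_mul_left 5 (h2.trans (Nat.pow_le_pow_left h3 3))))
  rw [mul_pow, ← pow_mul, pow_succ, ← mul_assoc, mul_comm (q ^ 6)] at h4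
  have := Nat.le_of_mul_le_mul_right h4 (by positivity)
  omega

theorem OD.ppart (K : OD h b (p ^ f)) (hp : p.Prime) (hf : 0 < f) (h1 : p ^ k ∣ h) :
    k ≤ f * tee b :=
  tw_ppart K.hb hp hf (((hp.coprime_iff_not_dvd.2 fun d => by
    have := tm_ord K.hb (pow_pos hp.pos f) hp d
    rw [Ord.eq_zero hp (Int.natCast_dvd_natCast.2 (dvd_pow_self p hf.ne'))] at this
    unfold tcl at this
    split_ifs at this).pow_left k).dvd_of_dvd_mul_left (h1.trans K.dvd))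

theorem OD.same (K : OD h b (p ^ f)) (hp : p.Prime) (hv : v.Prime) (h1 : v ^ k ∣ h)
    (h2 : h ^ a ≤ (v ^ k) ^ c) (h3 : 0 < a) (h4 : c ≤ 3 * a) : v = p :=
  (Nat.prime_dvd_prime_iff_eq hv hp).1 (hv.dvd_of_dvd_pow (K.char hv h1
    ((Nat.pow_le_pow_iff_left h3.ne').1 (h2.trans (pow_mul (v ^ k) 3 a ▸
      Nat.pow_le_pow_right (pow_pos hv.pos k) h4)))))

theorem OD.key (K : OD h b (p ^ f)) (h2 : h ^ a ≤ (p ^ k) ^ c) :
    p ^ (f * ((2 * tee b + 2) * a)) ≤ 5 ^ a * p ^ (k * c) := by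
  rw [pow_mul, pow_mul, pow_mul p k]
  exact (Nat.pow_le_pow_left K.bd.1 a).trans (mul_pow 5 h a ▸ Nat.mul_le_mul_left _ h2)

theorem OD.kill (K : OD h b (p ^ f)) (hp : p.Prime) (hf : 0 < f) (hv : v.Prime) (h1 : v ^ k ∣ h)
    (h2 : h ^ a ≤ (v ^ k) ^ c) (h3 : tee b * c < (2 * tee b + 2) * a) (h4 : a ≤ 7) : False := by
  have e3 : 3 ≤ tee b := by unfold tee; split_ifs <;> omega
  obtain rfl := K.same hp hv h1 h2 (by nlinarith) (by nlinarith)
  have h5 := (K.key h2).trans (Nat.mul_le_mul (Nat.pow_le_pow_right (by omega) h4)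
    (Nat.pow_le_pow_right hp.pos (Nat.mul_le_mul_right c (K.ppart hp hf h1))))
  have h6 := (Nat.pow_le_pow_right hp.pos (Nat.mul_le_mul_left f h3)).trans h5
  rw [Nat.succ_eq_add_one, mul_add, mul_one, pow_add, ← mul_assoc, mul_comm] at h6
  have := Nat.le_of_mul_le_mul_right h6 (pow_pos hp.pos _)
  have := K.big
  omega

theorem OD.tight (K : OD h b (p ^ f)) (hp : p.Prime) (hf : 0 < f) (hv : v.Prime) (h1 : v ^ k ∣ h)
    (h2 : h ^ a ≤ (v ^ k) ^ c) (h3 : tee b * c = (2 * tee b + 2) * a) (h4 : 5 ^ a < 2 ^ c)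
    (h0 : 0 < a) : v = p ∧ k = f * tee b := by
  have e3 : 3 ≤ tee b := by unfold tee; split_ifs <;> omega
  obtain rfl := K.same hp hv h1 h2 h0 (by nlinarith)
  refine ⟨rfl, (K.ppart hp hf h1).antisymm (not_lt.1 fun l => ?_)⟩
  have h5 := K.key h2
  rw [← h3, ← mul_assoc] at h5
  have h6 := (Nat.pow_le_pow_right hp.pos (Nat.mul_le_mul_right c l)).trans h5
  rw [Nat.succ_eq_add_one, add_mul, one_mul, pow_add, mul_comm] at h6
  exact (h4.trans_le (Nat.pow_le_pow_left hp.two_le c)).not_ge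
    (Nat.le_of_mul_le_mul_right h6 (pow_pos hp.pos _))

theorem OD.low (K : OD h b (p ^ f)) (hp : p.Prime) {d W : ℤ} (hh : h * d = u ^ N * W)
    (hW : ¬ (p : ℤ) ∣ W) (hu : 0 < u) (h2 : u ^ M ≤ 6 * h) (h3 : (2 * tee b + 2) * N < tee b * M)
    (h4 : 2 ^ M * 12 ^ N < 2 ^ 24) : False := by
  have q0 := pow_pos hp.pos f
  obtain ⟨a, h5, h6⟩ := K.card
  have d1 : ((p ^ f : ℕ) : ℤ) ^ tee b ∣ 2 * u ^ N * W := by
    rw [mul_assoc, ← hh, ← mul_assoc]
    refine ((Dvd.intro _ (tw_cast K.hb q0).symm).trans ?_).mul_right d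
    exact_mod_cast (Dvd.intro_left _ h6.symm).trans (show _ ∣ 2 * h by
      rcases h5 with rfl | ⟨rfl, -⟩ <;> simp [mul_comm])
  rw [Nat.cast_pow, ← pow_mul] at d1
  have d2 := (((Nat.prime_iff_prime_int.1 hp).coprime_iff_not_dvd.2 hW).pow_left
    ).dvd_of_dvd_mul_right d1
  have l1 : (p ^ f) ^ tee b ≤ 2 * u ^ N := Nat.le_of_dvd (by positivity)
    (by rw [← pow_mul]; exact_mod_cast d2)
  have l2 := Nat.pow_le_pow_left (h2.trans (Nat.mul_le_mul_left 6 K.bd.2)) N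
  have l3 := (Nat.pow_le_pow_right q0 h3).trans ((pow_mul _ _ M).trans_le
    (Nat.pow_le_pow_left l1 M))
  rw [mul_pow, pow_right_comm u] at l3
  have l4 := l3.trans (Nat.mul_le_mul_left _ l2)
  rw [← mul_assoc 6, mul_pow, ← pow_mul _ _ N, pow_succ', ← mul_assoc] at l4
  exact (h4.trans_le K.big).not_ge (Nat.le_of_mul_le_mul_right l4 (pow_pos q0 _))

end Pool.Agent.Lib.MP_7d41f7_al
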