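import Pool.Agent.Lib.MP_7d41f7_al.D.JA
import Pool.Agent.Lib.MP_7d41f7_al.D.EA
import Pool.Agent.Lib.MP_7d41f7_al.D.ZS

/-! Sizes for `G₂(q)` and `³D₄(q)`. -/

set_option autoImplicit false

namespace Pool.Agent.Lib.MP_7d41f7_al

open Finset

variable {x y : Ex} {h j m v g p f w r i M N D : ℕ} {I : Finset ℕ}

theorem pw_le {A B C : ℕ} (hw : 0 < w) (h : w ^ A ≤ C * w ^ B) (hB : B < A) : w ≤ C :=
  Nat.le_of_mul_le_mul_right ((pow_succ' w B).ge.trans ((Nat.pow_le_pow_right hw hB).trans h))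
    (pow_pos hw B)

theorem jy_bd {w : ℤ} (hw : 100 ≤ w) : 3 * w ^ 8 ≤ 5 * x.jy w ∧ x.jy w ≤ w ^ 8 := by
  have e : ∀ i, 100 * w ^ i ≤ w ^ (i + 1) := fun i => by
    rw [pow_succ']
    exact mul_le_mul_of_nonneg_right hw (by positivity)
  have : 100 * w ^ 1 ≤ w ^ 2 := e 1
  have : 100 * w ^ 2 ≤ w ^ 3 := e 2
  have : 100 * w ^ 3 ≤ w ^ 4 := e 3
  have : 100 * w ^ 4 ≤ w ^ 5 := e 4
  have : 100 * w ^ 5 ≤ w ^ 6 := e 5
  have : 100 * w ^ 6 ≤ w ^ 7 := e 6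
  have : 100 * w ^ 7 ≤ w ^ 8 := e 7
  unfold Ex.jy
  split_ifs <;> constructor <;> linarith

theorem jy_dvd (x : Ex) (w : ℤ) :
    x.jy w ∣ (w ^ 6 - 1) ^ 2 ∧ w ^ 6 - 1 ∣ x.jy w * (w ^ 2 - 1) := by
  unfold Ex.jy
  split_ifs
  · exact ⟨⟨(w + 1) * (w ^ 3 + 1), by ring⟩, (w ^ 3 - 1) * (w - 1), by ring⟩
  · exact ⟨⟨w ^ 4 + w ^ 2 + 1, by ring⟩, (w ^ 2 - 1) ^ 2, by ring⟩

/-- What is known about the order `h` of the section above the normal subgroup of order `p ^ j`. -/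
structure JD (x : Ex) (p f j h : ℕ) : Prop where
  hp : p.Prime
  hf : 0 < f
  big : 2 ^ 140 ≤ p ^ f
  pp : ∀ u k, u.Prime → ¬ u ∣ p ^ f → u ^ k ∣ h → u ^ k ≤ 13 * (p ^ f) ^ 2
  jj : j = 0 ∨ f * 3 ≤ j
  card : ∃ a : ℕ, 0 < a ∧ a ≤ 3 ∧
    ((h * a * p ^ j : ℕ) : ℤ) = (p ^ f : ℕ) ^ 6 * x.jy (p ^ f : ℕ)

theorem JD.bd (K : JD x p f j h) : (p ^ f) ^ 14 ≤ 5 * (h * p ^ j) ∧ h ≤ (p ^ f) ^ 14 := by
  obtain ⟨a, h1, h2, h3⟩ := K.card
  have := K.big
  obtain ⟨h4, h5⟩ := jy_bd (x := x) (w := (p ^ f : ℕ)) (by omega)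
  have h6 := Nat.mul_le_mul_left (h * p ^ j) h2
  have h7 := Nat.le_mul_of_pos_right h (mul_pos h1 (pow_pos K.hp.pos j))
  rw [mul_right_comm] at h6
  rw [← mul_assoc] at h7
  generalize h * a * p ^ j = s at *
  generalize h * p ^ j = t at *
  generalize p ^ f = w at *
  have := mul_le_mul_of_nonneg_left h4 (pow_nonneg (Int.natCast_nonneg w) 6)
  have := mul_le_mul_of_nonneg_left h5 (pow_nonneg (Int.natCast_nonneg w) 6)
  zify at *
  constructor <;> linarith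

theorem JD.cast (K : JD x p f j h) (i : ℕ) :
    ((p ^ f : ℕ) : ℤ) ^ i - 1 = (p ^ (f * i) - 1 : ℕ) := by
  rw [Nat.cast_pred (pow_pos K.hp.pos _), pow_mul, Nat.cast_pow (p ^ f)]

theorem JD.up (K : JD x p f j h) (hr : r.Prime) (d : (r : ℤ) ∣ x.jy (p ^ f : ℕ)) :
    r ∣ p ^ (f * 6) - 1 :=
  Int.natCast_dvd_natCast.1 (K.cast 6 ▸ (Nat.prime_iff_prime_int.1 hr).dvd_of_dvd_pow
    (d.trans (jy_dvd x _).1))

theorem JD.ppart (K : JD x p f j h) (d : p ^ i ∣ h) : i + j ≤ f * 6 := by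
  obtain ⟨a, -, -, e⟩ := K.card
  have := K.hf
  have c := pp_cancel (k := i + j) (z := (p ^ f : ℕ) ^ 6) K.hp (fun a => lt_A_aux K.hp
    (g := f * 6) (by omega) dvd_rfl (K.up K.hp a)) 1 (by
      rw [pow_one, mul_comm, ← e, pow_add]
      exact_mod_cast mul_dvd_mul_right (d.mul_right a) _)
  rw [Nat.cast_pow, ← pow_mul] at c
  exact (Nat.pow_dvd_pow_iff_le_right K.hp.one_lt).1 (by exact_mod_cast c)

theorem JD.lie (K : JD x p f j h) (hv : v.Prime) (h1 : v ^ i ∣ h) (h2 : h ≤ (v ^ i) ^ 3) :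
    v = p ∧ j = 0 := by
  have q0 := K.big
  have k : ∀ C, h * p ^ j ≤ C * (p ^ f) ^ 12 → p ^ f ≤ 5 * C := fun C a =>
    pw_le (by omega) (K.bd.1.trans (mul_assoc 5 C _ ▸ Nat.mul_le_mul_left 5 a)) (by omega)
  by_cases e : v = p
  · subst e
    refine ⟨rfl, K.jj.resolve_right fun a => ?_⟩
    have := K.ppart h1
    have := k 1 ((Nat.mul_le_mul_right _ h2).trans (by
      rw [← pow_mul, ← pow_add, one_mul, ← pow_mul]
      exact Nat.pow_le_pow_right hv.pos (by omega)))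
    omega
  have a := K.pp v i hv (fun d => e ((Nat.prime_dvd_prime_iff_eq hv K.hp).1
    (hv.dvd_of_dvd_pow d))) h1
  have := k (13 ^ 3) ((Nat.mul_le_mul (h2.trans (Nat.pow_le_pow_left a 3)) (Nat.pow_le_pow_right
    K.hp.pos ((Nat.le_add_left j 0).trans (K.ppart (one_dvd h))))).trans_eq (by ring))
  omega

theorem JD.top (K : JD x p f j h) (L : LT h v g N D I) :
    v = p ∧ j = 0 ∧ g * D = f * 6 ∧ N ≤ D ∧ (4 ∈ I → 4 ∣ D) := by
  obtain ⟨rfl, rfl⟩ := K.lie L.pv (pow_mul v g N ▸ L.pp) (pow_mul v g N ▸ L.le)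
  obtain ⟨a, h1, h2, h3⟩ := K.card
  have f0 := K.hf
  have g0 := L.g0
  have v1 := L.pv.pos
  have z : ∀ n, f * 6 ≤ n → ∃ r, Prim v n r := fun n hn => zsig L.pv.two_le (by omega) (by
    rintro ⟨rfl, rfl⟩
    obtain rfl : f = 1 := by omega
    exact absurd K.big (by norm_num))
  have up : ∀ i ∈ I, 3 ≤ i ∨ i = D → 3 ≤ g * i → (∃ r, Prim v (g * i) r) → g * i ∣ f * 6 :=
    fun i hi a b ⟨r, hr⟩ => (hr.dvd_iff v1 (by omega) _).1 (K.up hr.pr
      (((Nat.prime_iff_prime_int.1 hr.pr).dvd_or_dvd (h3 ▸ Int.natCast_dvd_natCast.2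
        (((L.all i hi a b r hr).mul_right _).mul_right _))).resolve_left fun d =>
          hr.not_dvd v1 (by omega) (hr.pr.dvd_of_dvd_pow (hr.pr.dvd_of_dvd_pow (n := 6)
            (by exact_mod_cast d)))))
  have lo : f * 6 ≤ g * D := by
    obtain ⟨r, hr⟩ := z _ le_rfl
    have r7 := Nat.le_of_dvd (Nat.sub_pos_of_lt hr.pr.one_lt) (hr.dvd_pred v1 (by omega))
    have d := ((Nat.prime_iff_prime_int.1 hr.pr).dvd_or_dvd ((K.cast 6 ▸
      Int.natCast_dvd_natCast.2 hr.dvd).trans (jy_dvd x _).2)).resolve_right fun d =>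
        hr.min (f * 2) (by omega) (by omega) (Int.natCast_dvd_natCast.1 (K.cast 2 ▸ d))
    have d1 := Int.natCast_dvd_natCast.1 (h3 ▸ d.mul_left _)
    rw [pow_zero, mul_one] at d1
    rcases L.div r hr.pr ((hr.pr.dvd_mul.1 d1).resolve_right fun c => by
      have := Nat.le_of_dvd h1 c
      omega) with c | ⟨i, hi, c⟩
    · exact absurd c.dvd (hr.not_dvd v1 (by omega))
    · exact (Nat.le_of_dvd (mul_pos g0 (L.bd i hi).1) ((hr.dvd_iff v1 (by omega) _).1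
        (pow_mul v g i ▸ c))).trans (Nat.mul_le_mul_left g (L.bd i hi).2)
  have e := (Nat.le_of_dvd (by omega) (up D L.mem (.inr rfl) (by omega) (z _ lo))).antisymm lo
  refine ⟨rfl, rfl, e, Nat.le_of_mul_le_mul_left (e ▸ K.ppart (pow_mul v g N ▸ L.pp)) g0,
    fun c => Nat.dvd_of_mul_dvd_mul_left g0 (e ▸ up 4 c (by omega) (by omega)
      (zsig L.pv.two_le (by omega) (by omega)))⟩

theorem JD.kill (K : JD x p f 0 h) (hk : g * N ≤ f * 6) (h2 : h ≤ (p ^ g) ^ M)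
    (h3 : 3 * M < 7 * N) (h4 : N ≤ 30) : False := by
  have q0 := K.big
  have a := K.bd.1
  rw [pow_zero, mul_one] at a
  have := pw_le (B := 6 * M) (C := 5 ^ N) (by omega) ((pow_mul _ 14 N).trans_le
    ((Nat.pow_le_pow_left (a.trans (Nat.mul_le_mul_left 5 h2)) N).trans (by
      rw [mul_pow, ← pow_mul, ← pow_mul, ← pow_mul]
      exact Nat.mul_le_mul_left _ (Nat.pow_le_pow_right K.hp.pos (by nlinarith))))) (by omega)
  have := Nat.pow_le_pow_right (show 0 < 5 by omega) h4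
  omega

theorem JD.low (K : JD x p f j h) (hk : g * D = f * 6) (h2 : (p ^ g) ^ M ≤ 6 * h)
    (h3 : 7 * D < 3 * M) (h4 : D ≤ 30) : False := by
  have q0 := K.big
  have a := Nat.pow_le_pow_left (h2.trans (Nat.mul_le_mul_left 6 K.bd.2)) D
  rw [pow_right_comm, ← pow_mul p, hk, pow_mul, mul_pow, ← pow_mul, ← pow_mul _ 14] at a
  have := pw_le (by omega) a (by omega)
  have := Nat.pow_le_pow_right (show 0 < 6 by omega) h4
  omega

theorem JD.lin (K : JD x p f j h) (hv : v.Prime) (hg : 0 < g) (hm : 2 ≤ m)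
    (hh : h * Nat.gcd m (v ^ g - 1) = ordSL m (v ^ g)) : False := by
  obtain ⟨rfl, rfl, e, l, -⟩ := K.top (lt_A hv hg hm hh)
  have u2 := Nat.one_lt_pow hg.ne' hv.one_lt
  obtain rfl | rfl | ⟨n, rfl⟩ : m = 2 ∨ m = 3 ∨ ∃ n, m = n + 4 := by
    by_cases a : m < 4
    · omega
    · exact .inr (.inr ⟨m - 4, by omega⟩)
  · exact K.kill e.le (dim_A u2 hh) (by omega) (by omega)
  · refine K.low (M := 8) e ?_ (by omega) (by omega)
    have h3 := congrArg (Nat.cast : ℕ → ℤ) hh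
    rw [Nat.cast_mul, ordSL_cast u2] at h3
    have := Nat.mul_le_mul_left h (Nat.gcd_le_left (v ^ g - 1) three_pos)
    simp only [prod_Icc_succ_top, Nat.reduceLeDiff] at h3
    generalize v ^ g = u at *
    have e : ∀ i, 2 * u ^ i ≤ u ^ (i + 1) := fun i => pow_succ' u i ▸ Nat.mul_le_mul_right _ u2
    have : 2 * u ^ 5 ≤ u ^ 6 := e 5
    have : 2 * u ^ 6 ≤ u ^ 7 := e 6
    have : 2 * u ^ 7 ≤ u ^ 8 := e 7
    have := Nat.zero_le (u ^ 3)
    norm_num at h3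
    zify at *
    linarith
  · have : (n + 4) * (n + 3) < _ := (Nat.div_lt_iff_lt_mul two_pos).1 (Nat.lt_add_one_of_le l)
    nlinarith

theorem JD.uni (K : JD x p f j h) (hv : v.Prime) (hg : 0 < g) (hm : 3 ≤ m)
    (hh : OrdU m (v ^ g : ℕ) h) : False := by
  obtain ⟨rfl, rfl, e, -, l⟩ := K.top (lt_2A hv hg hm hh)
  rcases hm.eq_or_lt with rfl | a
  · exact K.kill e.le (dim_U (Nat.one_lt_pow hg.ne' hv.one_lt) hh) (by decide) (by decide)
  · have := l (mem_image.2 ⟨4, mem_Icc.2 ⟨by omega, a⟩, rfl⟩)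
    split_ifs at this <;> omega

theorem JD.sym (K : JD x p f j h) (hv : v.Prime) (hg : 0 < g) (hm : 2 ≤ m)
    (hh : OrdB m (v ^ g : ℕ) h) : False := by
  obtain ⟨rfl, rfl, e, l, -⟩ := K.top (lt_B hv hg hm hh)
  obtain rfl := hm.antisymm (Nat.le_of_mul_le_mul_right l (by omega))
  refine K.low (M := 10) e ?_ (by omega) (by omega)
  have u2 := Nat.one_lt_pow hg.ne' hv.one_lt
  have := mul_le_mul_of_nonneg_left (Int.le_of_dvd two_pos
    (Int.gcd_dvd_left 2 (((v ^ g : ℕ) : ℤ) - 1))) (Int.natCast_nonneg h)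
  rw [OrdB, prod_Icc_succ_top (by omega), Icc_self, prod_singleton] at hh
  rw [hh] at this
  simp only [Nat.reduceMul, Nat.reduceAdd] at this
  generalize v ^ g = u at *
  have e : ∀ i, 2 * u ^ i ≤ u ^ (i + 1) := fun i => pow_succ' u i ▸ Nat.mul_le_mul_right _ u2
  have : 2 * u ^ 6 ≤ u ^ 7 := e 6
  have : 2 * u ^ 7 ≤ u ^ 8 := e 7
  have : 2 * u ^ 8 ≤ u ^ 9 := e 8
  have : 2 * u ^ 9 ≤ u ^ 10 := e 9
  have := Nat.zero_le (u ^ 4)
  zify at *
  linarith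

theorem JD.ort (K : JD x p f j h) (hv : v.Prime) (hg : 0 < g) (hm : 4 ≤ m) {ε : ℤ}
    (hε : ε = 1 ∨ ε = -1) (hh : OrdD ε m (v ^ g : ℕ) h) : False := by
  have : m * (m - 1) ≤ 2 * m := by
    rcases hε with rfl | rfl
    · exact (K.top (lt_D hv hg hm hh)).2.2.2.1.trans (by omega)
    · exact (K.top (lt_2D hv hg hm (by simpa only [OrdD, sub_neg_eq_add] using hh))).2.2.2.1
  have := Nat.mul_le_mul_left m (show 3 ≤ m - 1 by omega)
  omega

theorem JD.exc (K : JD x p f j h) (hx : x = .G2 ∨ x = .D3) (hv : v.Prime) (hg : 0 < g)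
    (hh : (h : ℤ) * y.cen (v ^ g : ℕ) = y.ord (v ^ g : ℕ)) : y = x ∧ y.jw (v ^ g) = p ^ f := by
  obtain ⟨rfl, rfl, e, l, -⟩ := K.top (Ex.lt hv hg hh)
  have hy : y = .G2 ∨ y = .D3 := by
    revert l
    cases y <;> decide
  have e1 : y.jw (v ^ g) = v ^ f := by
    rcases hy with rfl | rfl <;> simp only [Ex.top] at e
    · rw [show f = g by omega]
      rfl
    · rw [show f = g * 2 by omega, pow_mul]
      rfl
  refine ⟨?_, e1⟩
  obtain ⟨a, h1, -, h3⟩ := K.card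
  have q0 := K.big
  rw [jy_ord hy, e1, show y.cen (v ^ g : ℕ) = 1 by rcases hy with rfl | rfl <;> rfl] at hh
  generalize v ^ f = w at *
  have k : y.jy w * a = x.jy w := mul_left_cancel₀ (show (w : ℤ) ^ 6 ≠ 0 by positivity) (by
    push_cast at h3 hh
    linear_combination h3 - a * hh)
  have w1 : (100 : ℤ) ≤ w := by omega
  have w2 : 100 * (w : ℤ) ≤ w ^ 2 := by nlinarith
  have w3 : 100 * (w : ℤ) ^ 2 ≤ w ^ 3 := by nlinarith
  have n0 : ((w : ℤ) ^ 2 - w + 1) * (w ^ 3 - 1) ≠ 0 := (mul_pos (by omega) (by omega)).ne'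
  rcases hx with rfl | rfl <;> rcases hy with rfl | rfl <;> simp only [Ex.jy, if_true, if_false,
    reduceCtorEq] at k
  · rfl
  · have : ((w : ℤ) ^ 3 - 1) * a = (w + 1) * (w ^ 2 - 1) :=
      mul_left_cancel₀ n0 (by linear_combination k)
    obtain a2 | a2 : (a : ℤ) = 1 ∨ (2 : ℤ) ≤ a := by omega
    · rw [a2] at this
      linarith
    · nlinarith
  · have : ((w : ℤ) + 1) * (w ^ 2 - 1) * a = w ^ 3 - 1 :=
      mul_left_cancel₀ n0 (by linear_combination k)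
    have : (1 : ℤ) ≤ a := by omega
    nlinarith
  · rfl

theorem JD.ree (K : JD x p f j h) (hv : v.Prime) (hg : 0 < g) (hh : ReeOrd (v ^ g : ℕ) h) :
    False := by
  have u2 := Nat.one_lt_pow hg.ne' hv.one_lt
  have u1 := fat_one u2
  obtain ⟨rfl, rfl, e⟩ : v = p ∧ j = 0 ∧ g * 4 ≤ f * 6 := by
    rcases hh.lt hv hg with L | L | L <;> obtain ⟨a, b, c, -⟩ := K.top L <;>
      exact ⟨a, b, by omega⟩
  rcases hh with ⟨-, a⟩ | ⟨-, a⟩ | ⟨-, a⟩
  · exact K.kill e (dim_of (N := 2) one_pos (by rw [a]; ring) (fat_pair u1 one_le_two))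
      (by omega) (by omega)
  · exact K.kill e (dim_of (N := 3) one_pos (by rw [a]; ring) (fat_pair u1 (i := 3) (j := 1)
      (by omega))) (by omega) (by omega)
  have d : (h : ℤ) * 1 = (v ^ g : ℕ) ^ 12 * (((v ^ g : ℕ) ^ 6 + 1) * ((v ^ g : ℕ) ^ 4 - 1) *
      (((v ^ g : ℕ) ^ 3 + 1) * ((v ^ g : ℕ) ^ 1 - 1))) := by
    rw [a]
    ring
  refine K.kill (K.ppart (pow_mul v g 12 ▸ sz_dvd (one_mul 1) (one_dvd _) d))
    (dim_of (s := 6 + 4 + (3 + 1)) one_pos d ?_) (by omega) (by omega)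
  rw [pow_add _ (6 + 4)]
  exact mul_le_mul (fat_pair u1 (by omega)) (fat_pair u1 (by omega))
    (mul_nonneg (by positivity) (fat_sub u1 1)) (by positivity)

theorem JD.lo (K : JD x p f j h) : (p ^ f) ^ 8 ≤ 5 * h := by
  have a := K.bd.1.trans (Nat.mul_le_mul_left 5 (Nat.mul_le_mul_left h (Nat.pow_le_pow_right
    K.hp.pos ((Nat.le_add_left j 0).trans (K.ppart (one_dvd h))))))
  rw [pow_mul, ← mul_assoc, pow_add _ 8 6] at a
  exact Nat.le_of_mul_le_mul_right a (pow_pos (pow_pos K.hp.pos f) 6)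

theorem JD.not_spor (K : JD x p f j h) : h ∉ sporOrd := fun e => by
  have h3 : ∀ x ∈ sporOrd, x < 2 ^ 180 := by decide +kernel
  have h4 := h3 h e
  have q0 := K.big
  have := (Nat.mul_le_mul q0 q0).trans ((sq _).ge.trans ((Nat.pow_le_pow_right (by omega)
    (show 2 ≤ 8 by omega)).trans K.lo))
  omega

theorem JD.not_alt (K : JD x p f j h) (hh : 2 * h = m.factorial) (hm : 9 * (p ^ f) ^ 2 ≤ 10 * m) :
    False := by
  have q0 := K.big
  have h2 := Nat.le_self_pow two_ne_zero (p ^ f)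
  obtain ⟨y, rfl⟩ : ∃ y, m = y + 8 := ⟨m - 8, by omega⟩
  have h3 := (Nat.le_mul_of_pos_left _ y.factorial_pos).trans
    (Nat.factorial_mul_pow_sub_le_factorial (Nat.le_add_right y 8))
  have h4 := K.bd.2.trans ((pow_mul _ 2 7).trans_le
    (Nat.pow_le_pow_left (show _ ≤ 2 * y by omega) 7))
  rw [Nat.add_sub_cancel_left, ← hh] at h3
  rw [mul_pow] at h4
  have := pw_le (w := y) (A := 8) (B := 7) (C := 2 ^ 8) (by omega) (by omega) (by omega)
  omega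

end Pool.Agent.Lib.MP_7d41f7_al
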