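import Pool.Agent.Lib.MP_7d41f7_al.C.KDef

/-! The list of the classification, with the Suzuki groups only in characteristic two. -/

set_option autoImplicit false

namespace Pool.Agent.Lib.MP_7d41f7_al

/-- The order formulas of the exceptional groups of Lie type. -/
def ExcOrd2 (u h : ℤ) : Prop :=
  h = u ^ 6 * (u ^ 6 - 1) * (u ^ 2 - 1) ∨
  h = u ^ 24 * (u ^ 12 - 1) * (u ^ 8 - 1) * (u ^ 6 - 1) * (u ^ 2 - 1) ∨
  h * Int.gcd 3 (u - 1) = u ^ 36 * (u ^ 12 - 1) * (u ^ 9 - 1) * (u ^ 8 - 1) * (u ^ 6 - 1) *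
    (u ^ 5 - 1) * (u ^ 2 - 1) ∨
  h * Int.gcd 3 (u + 1) = u ^ 36 * (u ^ 12 - 1) * (u ^ 9 + 1) * (u ^ 8 - 1) * (u ^ 6 - 1) *
    (u ^ 5 + 1) * (u ^ 2 - 1) ∨
  h * Int.gcd 2 (u - 1) = u ^ 63 * (u ^ 18 - 1) * (u ^ 14 - 1) * (u ^ 12 - 1) * (u ^ 10 - 1) *
    (u ^ 8 - 1) * (u ^ 6 - 1) * (u ^ 2 - 1) ∨
  h = u ^ 120 * (u ^ 30 - 1) * (u ^ 24 - 1) * (u ^ 20 - 1) * (u ^ 18 - 1) * (u ^ 14 - 1) *
    (u ^ 12 - 1) * (u ^ 8 - 1) * (u ^ 2 - 1) ∨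
  h = u ^ 12 * (u ^ 8 + u ^ 4 + 1) * (u ^ 6 - 1) * (u ^ 2 - 1) ∨
  (2 ∣ u ∧ h = u ^ 2 * (u ^ 2 + 1) * (u - 1)) ∨
  h = u ^ 3 * (u ^ 3 + 1) * (u - 1) ∨
  h = u ^ 12 * (u ^ 6 + 1) * (u ^ 4 - 1) * (u ^ 3 + 1) * (u - 1)

/-- `H` is on the list of the classification of finite simple groups: it is isomorphic to an
alternating group or to a projective special linear group, or isomorphic to a unitary, symplectic
or orthogonal group and of the order given by the formula for it, or its order is that of an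
exceptional group of Lie type, of a sporadic group or of the Tits group. -/
def OnList2 (H : Type) [Group H] : Prop :=
  (∃ m : ℕ, Nonempty (H ≃* alternatingGroup (Fin m))) ∨
  (∃ (m : ℕ) (K : Type) (_ : Field K) (_ : Finite K),
    Nonempty (H ≃* Matrix.ProjectiveSpecialLinearGroup (Fin m) K)) ∨
  (∃ m u : ℕ, 3 ≤ m ∧ IsSU H m u ∧ OrdU m u (Nat.card H)) ∨
  (∃ m u : ℕ, 2 ≤ m ∧ (IsSp H m u ∨ IsOm H (2 * m + 1) u) ∧ OrdB m u (Nat.card H)) ∨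
  (∃ m u : ℕ, 4 ≤ m ∧ IsOm H (2 * m) u ∧
    (OrdD 1 m u (Nat.card H) ∨ OrdD (-1) m u (Nat.card H))) ∨
  (∃ u : ℕ, IsPrimePow u ∧ ExcOrd2 u (Nat.card H)) ∨ Nat.card H ∈ sporOrd

theorem ExcOrd2.exc {u h : ℤ} (e : ExcOrd2 u h) : ExcOrd u h := by
  unfold ExcOrd2 at e
  unfold ExcOrd
  tauto

theorem OnList2.onList {H : Type} [Group H] (e : OnList2 H) : OnList H :=
  e.imp_right (.imp_right (.imp_right (.imp_right (.imp_right
    (.imp_left fun ⟨u, a, b⟩ => ⟨u, a, b.exc⟩)))))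

end Pool.Agent.Lib.MP_7d41f7_al
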