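import Pool.Agent.Lib.MP_7d41f7_al.C.CFin

/-! Reflections in the orthogonal groups. -/

set_option autoImplicit false

namespace Pool.Agent.Lib.MP_7d41f7_al

open Module

namespace Frm

variable {F V : Type} [Field F] [Finite F] {P : Sca F} [AddCommGroup V] [Module F V] [Finite V]
  {Φ : Frm P V} {v w e f : V} {g r s : Φ.Iso}

/-- The isometry is the reflection in `v`. -/
def IsRf (Φ : Frm P V) (v : V) (r : Φ.Iso) : Prop :=
  Φ.Q v ≠ 0 ∧ ∀ x, r.1 x = x - (Φ.B x v / Φ.Q v) • v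

/-- The dimension of the commutator space. -/
noncomputable def cd (Φ : Frm P V) (g : Φ.Iso) : ℕ := finrank F (mv g.1)

variable (hk : P.k = .O)
include hk

section

omit [Finite F] [Finite V]

theorem oe_smul (x : V) (a : F) (y : V) : Φ.B x (a • y) = a * Φ.B x y := by
  rw [B_smul, Sca.σ_O hk]

theorem oe_comm (x y : V) : Φ.B x y = Φ.B y x := by
  rw [Φ.sym, Sca.σ_O hk, Sca.ε_O hk, one_mul]

theorem oe_add (x y : V) : Φ.Q (x + y) = Φ.Q x + Φ.Q y + Φ.B x y := by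
  rw [Φ.add, Sca.τ_O hk]

theorem oe_sq (a : F) (x : V) : Φ.Q (a • x) = a * a * Φ.Q x := by
  rw [Φ.smul, Sca.σ_O hk]

theorem oe_self (x : V) : Φ.B x x = 2 * Φ.Q x := by
  rw [Φ.diag, Sca.ρ_O hk]

theorem oe_lin (x : V) (a : F) (y : V) :
    Φ.Q (x - a • y) = Φ.Q x + a * a * Φ.Q y - a * Φ.B x y := by
  rw [sub_eq_add_neg, ← neg_smul, oe_add hk, oe_sq hk, oe_smul hk]
  ring

theorem IsRf.neg (h : Φ.IsRf v r) : r.1 v = -v := by
  rw [h.2, oe_self hk, mul_div_cancel_right₀ _ h.1]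
  module

theorem IsRf.sq (h : Φ.IsRf v r) : r * r = 1 := Subtype.ext (LinearEquiv.ext fun x => by
  change r.1 (r.1 x) = x
  rw [h.2 x, map_sub, map_smul, h.neg hk, h.2 x]
  module)

theorem IsRf.smul (h : Φ.IsRf v r) {a : F} (ha : a ≠ 0) : Φ.IsRf (a • v) r := by
  have := h.1
  refine ⟨by simp [oe_sq hk, ha, this], fun x => ?_⟩
  rw [h.2, oe_smul hk, oe_sq hk, smul_smul]
  congr 2
  field_simp

omit hk in
theorem IsRf.conj (h : Φ.IsRf v r) (h' : Φ.IsRf (g.1 v) s) : s = g * r * g⁻¹ :=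
  eq_mul_inv_of_mul_eq (Subtype.ext (LinearEquiv.ext fun x => by
    change s.1 (g.1 x) = g.1 (r.1 x)
    rw [h'.2, h.2, g.2.1, g.2.2, map_sub, map_smul]))

omit hk in
theorem IsRf.le (h : Φ.IsRf v r) (g : Φ.Iso) : mv (g * r).1 ≤ mv g.1 ⊔ .span F {v} := fun y hy => by
  obtain ⟨x, rfl⟩ := mem_mv.1 hy
  refine Submodule.mem_sup.2 ⟨_, mem_mv.2 ⟨r.1 x, rfl⟩, -(Φ.B x v / Φ.Q v) • v,
    Submodule.smul_mem _ _ (Submodule.mem_span_singleton_self v), ?_⟩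
  change _ = g.1 (r.1 x) - x
  rw [h.2 x]
  module

theorem IsRf.sup (h : Φ.IsRf v r) (g : Φ.Iso) :
    mv (g * r).1 ⊔ .span F {v} = mv g.1 ⊔ .span F {v} := by
  refine le_antisymm (sup_le (h.le g) le_sup_right) (sup_le ?_ le_sup_right)
  simpa only [mul_assoc, h.sq hk, mul_one] using h.le (g * r)

theorem IsRf.out (h : Φ.IsRf v r) (hv : v ∈ mv g.1) : v ∉ mv (g * r).1 := fun c => by
  obtain ⟨x, rfl⟩ := mem_mv.1 hv
  have e := oe_lin (Φ := Φ) hk (g.1 x) 1 (g.1 x - x)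
  rw [one_smul, sub_sub_cancel, g.2.2] at e
  have e1 : Φ.B (g.1 x) (g.1 x - x) = Φ.Q (g.1 x - x) := by linear_combination e
  refine h.1 (e1.symm.trans (perp_fx_mv (g * r).2 (mem_fx.2 ?_) c))
  change g.1 (r.1 (g.1 x)) = _
  rw [h.2, e1, div_self h.1, one_smul, sub_sub_cancel]

end

variable (hn : Φ.Nd)
include hn

theorem exists_rf (hv : Φ.Q v ≠ 0) : ∃ r, Φ.IsRf v r := by
  let L : V →ₗ[F] V := LinearMap.id - ((Φ.Q v)⁻¹ • Φ.B.flip v).smulRight v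
  have e : ∀ x, L x = x - (Φ.B x v / Φ.Q v) • v := fun x => by simp [L, div_eq_inv_mul]
  refine (hn.mk_iso L (fun x y => ?_) fun x => ?_).elim fun g h =>
    ⟨⟨g, h.1⟩, hv, fun x => (h.2 x).trans (e x)⟩
  · simp only [e, map_sub, LinearMap.sub_apply, oe_smul hk, smul_B, oe_self hk v, oe_comm hk v y]
    field_simp
    ring
  · rw [e, oe_lin hk]
    field_simp
    ring

theorem IsRf.mem (h : Φ.IsRf v r) (hv : v ∉ mv g.1) : v ∈ mv (g * r).1 := by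
  obtain ⟨φ, h1, h2⟩ := Submodule.exists_le_ker_of_notMem hv
  obtain ⟨w, hw⟩ := hn.rep φ
  have h3 : g.1 w = w := mem_fx.1 (mem_fx_of_perp hn g.2 fun y hy =>
    B_comm0 ((hw y).trans (h2 hy)))
  have h4 : Φ.B w v / Φ.Q v ≠ 0 := div_ne_zero (oe_comm hk w v ▸ hw v ▸ h1) h.1
  refine mem_mv.2 ⟨(Φ.B w v / Φ.Q v)⁻¹ • w - v, ?_⟩
  change g.1 (r.1 _) - _ = _
  simp only [map_sub, map_neg, map_smul, h.neg hk, h.2 w, h3, smul_sub, inv_smul_smul₀ h4]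
  abel

theorem IsRf.up (h : Φ.IsRf v r) (hv : v ∉ mv g.1) :
    mv (g * r).1 = mv g.1 ⊔ .span F {v} ∧ Φ.cd (g * r) = Φ.cd g + 1 := by
  have := Module.Finite.of_finite (R := F) (M := V)
  have e := h.sup hk g
  rw [sup_eq_left.2 ((Submodule.span_singleton_le_iff_mem _ _).2 (h.mem hk hn hv))] at e
  exact ⟨e, by rw [cd, e, Submodule.finrank_sup_span_singleton hv, cd]⟩

theorem IsRf.down (h : Φ.IsRf v r) (hv : v ∈ mv g.1) : Φ.cd (g * r) + 1 = Φ.cd g := by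
  rw [← (h.up hk hn (h.out hk hv)).2, mul_assoc, h.sq hk, mul_one]

theorem rf_gen_aux (hd : 5 ≤ finrank F V) (k : ℕ) (h2 : k ≤ 2) :
    ∀ g : Φ.Iso, Φ.cd g = k → g ∈ Subgroup.closure {r | ∃ v, Φ.IsRf v r} := by
  have := Module.Finite.of_finite (R := F) (M := V)
  induction k with
  | zero =>
    intro g hg
    have e := Submodule.finrank_eq_zero.1 hg
    obtain rfl : g = 1 := Subtype.ext (LinearEquiv.ext fun x =>
      sub_eq_zero.1 ((Submodule.mem_bot F).1 (e ▸ mem_mv.2 ⟨x, rfl⟩)))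
    exact one_mem _
  | succ k ih =>
    have st : ∀ {v : V} {g r : Φ.Iso}, Φ.IsRf v r →
        g * r ∈ Subgroup.closure {r | ∃ v, Φ.IsRf v r} →
        g ∈ Subgroup.closure {r | ∃ v, Φ.IsRf v r} := fun h k =>
      (Subgroup.mul_mem_cancel_right _ (Subgroup.subset_closure (by exact ⟨_, h⟩))).1 k
    have key : ∀ g : Φ.Iso, Φ.cd g = k + 1 → ∀ v ∈ mv g.1, Φ.Q v ≠ 0 →
        g ∈ Subgroup.closure {r | ∃ v, Φ.IsRf v r} := fun g hg v hv h0 => by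
      obtain ⟨r, h⟩ := exists_rf hk hn h0
      exact st h (ih (by omega) _ (by have := h.down hk hn hv; omega))
    intro g hg
    by_cases c : ∃ v ∈ mv g.1, Φ.Q v ≠ 0
    · exact c.elim fun v h => key g hg v h.1 h.2
    push Not at c
    obtain ⟨w, w1, w2⟩ : ∃ w ∈ fx g.1, Φ.Q w ≠ 0 := by
      by_contra! a
      have a1 := hn.two_dim (U := fx g.1) fun x hx y hy => by
        simpa [a x hx, a y hy, a _ (add_mem hx hy)] using (oe_add (Φ := Φ) hk x y).symm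
      have a2 := finrank_mv_fx g.1
      rw [cd] at hg
      omega
    obtain ⟨u, u1, u2⟩ := (mv g.1).exists_mem_ne_zero_of_ne_bot fun e => by
      rw [cd, e, finrank_bot] at hg
      omega
    obtain ⟨x, hx⟩ : ∃ x, Φ.B x u ≠ 0 := not_forall.1 (mt hn.right u2)
    have q : ∀ m ∈ mv g.1, ∀ a : F, Φ.Q (m + a • w) = a * a * Φ.Q w := fun m hm a => by
      rw [oe_add hk, c m hm, oe_sq hk, oe_smul hk, B_comm0 (perp_fx_mv g.2 w1 hm)]
      ring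
    have q1 : Φ.Q (u + w) = Φ.Q w := by simpa using q u u1 1
    obtain ⟨r, hr⟩ := exists_rf hk hn w2
    obtain ⟨s, hs⟩ := exists_rf hk hn (q1.trans_ne w2)
    obtain ⟨b1, b2⟩ := hr.up hk hn fun h => w2 (c w h)
    have b3 := hs.down hk hn (g := g * r)
      (b1 ▸ Submodule.add_mem_sup u1 (Submodule.mem_span_singleton_self w))
    refine st hr (st hs (key _ (by omega) _ (mem_mv.2 ⟨x, rfl⟩) ?_))
    have b4 : r.1 (s.1 x) - x = -(Φ.B x (u + w) / Φ.Q w) • u + (Φ.B x u / Φ.Q w) • w := by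
      rw [hs.2, q1, map_sub, map_smul, map_add r.1, hr.neg hk, hr.2 x, hr.2 u,
        B_comm0 (perp_fx_mv g.2 w1 u1), map_add]
      match_scalars <;> field_simp <;> ring
    have b5 : (g * r * s).1 x - x = (g.1 (r.1 (s.1 x)) - r.1 (s.1 x) +
        -(Φ.B x (u + w) / Φ.Q w) • u) + (Φ.B x u / Φ.Q w) • w := by
      rw [add_assoc, ← b4, sub_add_sub_cancel]
      rfl
    rw [b5, q _ (add_mem (mem_mv.2 ⟨_, rfl⟩) (Submodule.smul_mem _ _ u1))]
    exact mul_ne_zero (mul_self_ne_zero.2 (div_ne_zero hx w2)) w2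

/-- The orthogonal group is generated by the reflections. -/
theorem rf_gen (hd : 5 ≤ finrank F V) : Subgroup.closure {r | ∃ v, Φ.IsRf v r} = ⊤ :=
  eq_top_iff.2 fun g _ => by
    obtain ⟨a, ha, e⟩ : g.1 ∈ (Subgroup.closure {r | ∃ v, Φ.IsRf v r}).map Φ.Iso.subtype :=
      (Subgroup.closure_le (Subgroup.map _ _)).2
        (fun y hy => ⟨⟨y, hy.1⟩, rf_gen_aux hk hn hd _ hy.2 _ rfl, rfl⟩) (le_Sm hn g.2)
    exact (Subtype.ext e : a = g) ▸ ha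

/-- The invariant of Dickson. -/
theorem exists_dk (hd : 5 ≤ finrank F V) : ∃ d : Φ.Iso →* ℤˣ, (∀ g, d g = (-1) ^ Φ.cd g) ∧
    ∀ v r, Φ.IsRf v r → d r = -1 := by
  have k0 : Φ.cd 1 = 0 := by
    rw [cd, show mv (1 : Φ.Iso).1 = ⊥ from eq_bot_iff.2 fun y hy => by
      obtain ⟨x, rfl⟩ := mem_mv.1 hy
      exact sub_self x, finrank_bot]
  have k1 : ∀ {v : V} {r : Φ.Iso}, Φ.IsRf v r → ∀ g : Φ.Iso,
      (-1 : ℤˣ) ^ Φ.cd (g * r) = -(-1) ^ Φ.cd g := fun {v r} h g => by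
    by_cases c : v ∈ mv g.1
    · rw [← h.down hk hn c, pow_succ, mul_neg_one, neg_neg]
    · rw [(h.up hk hn c).2, pow_succ, mul_neg_one]
  refine ⟨MonoidHom.mk' (fun g => (-1) ^ Φ.cd g) fun g a => ?_, fun _ => rfl, fun v r h => ?_⟩
  · have ha : a ∈ Subgroup.closure {r | ∃ v, Φ.IsRf v r} := rf_gen hk hn hd ▸ trivial
    induction ha using Subgroup.closure_induction_right with
    | one => simp [k0]
    | mul_right x _ y hy ih =>
      obtain ⟨v, h⟩ := hy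
      rw [← mul_assoc, k1 h, k1 h, ih, mul_neg]
    | mul_inv_cancel x _ y hy ih =>
      obtain ⟨v, h⟩ := hy
      rw [inv_eq_of_mul_eq_one_right (h.sq hk), ← mul_assoc, k1 h, k1 h, ih, mul_neg]
  · simpa [k0] using k1 h 1

omit [Finite F] [Finite V] in
theorem rf_conj_aux (h : Φ.Hyp e f) (hv : Φ.Q v ≠ 0) :
    ∃ e' f', Φ.Hyp e' f' ∧ v = e' + Φ.Q v • f' := by
  obtain ⟨y, y1, y2⟩ : ∃ y, Φ.Q y = 0 ∧ Φ.B v y ≠ 0 := by
    by_contra! a
    have a1 : v ∈ Φ.pl e f := ⟨a e h.qe, a f h.qf⟩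
    refine hv ((congrArg Φ.Q (Φ.res_nd.1 (h.nd_pl hn) v a1 fun x hx => ?_)).trans Q_zero)
    have := a _ ((h.Q_dec 1 (-Φ.Q x) hx).trans (by simp [Sca.τ_O hk, Sca.σ_O hk]))
    simpa [oe_smul hk, a e h.qe, a f h.qf] using this
  have y3 : Φ.B v ((Φ.B v y)⁻¹ • y) = 1 := by rw [oe_smul hk, inv_mul_cancel₀ y2]
  have y4 : Φ.Q ((Φ.B v y)⁻¹ • y) = 0 := by rw [oe_sq hk, y1, mul_zero]
  refine ⟨v - Φ.Q v • (Φ.B v y)⁻¹ • y, (Φ.B v y)⁻¹ • y, ⟨?_, y4, ?_⟩, (sub_add_cancel _ _).symm⟩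
  · rw [oe_lin hk, y3, y4]
    ring
  · rw [map_sub, LinearMap.sub_apply, smul_B, y3, B_self y4, mul_zero, sub_zero]

/-- The theorem of Witt for one vector. -/
theorem rf_conj (h : Φ.Hyp e f) (hr : Φ.IsRf v r) (hs : Φ.IsRf w s) {a : F}
    (ha : Φ.Q w = a * a * Φ.Q v) : ∃ g, s = g * r * g⁻¹ := by
  have a0 : a ≠ 0 := fun c => hs.1 (by simp [ha, c])
  have h1 := hr.smul hk a0
  obtain ⟨e₁, f₁, b1, c1⟩ := rf_conj_aux hk hn h h1.1
  obtain ⟨e₂, f₂, b2, c2⟩ := rf_conj_aux hk hn h hs.1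
  obtain ⟨g, hg, d1, d2⟩ := trans_hyp hn b1 b2
  refine ⟨⟨g, Sm_le hg⟩, h1.conj ?_⟩
  rwa [show g (a • v) = w by rw [c1, map_add, map_smul, d1, d2, oe_sq hk, ← ha, ← c2]]

end Frm

end Pool.Agent.Lib.MP_7d41f7_al
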