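import Pool.Agent.Lib.MP_7d41f7_al.D.QA

/-! The orthogonal group of plus type in dimension eight: the characteristic of the section divides
`q ^ 2 + 1`. -/

set_option autoImplicit false

namespace Pool.Agent.Lib.MP_7d41f7_al

open Finset

variable {h q a b r u v g m N X : ℕ}

/-- The numbers when `(q ^ 2 + 1) ^ 2 = X u ^ N`. -/
structure C4 (h u N a X : ℕ) : Prop where
  u5 : 5 ≤ u
  huge : 2 ^ 430 ≤ h
  x0 : 0 < X
  low : X * u ^ N ≤ 42 * a
  res : ∀ (ε : ℤ) (y : ℕ), ε = 1 ∨ ε = -1 → y ∣ a → (y : ℤ) ∣ (u : ℤ) ^ N - ε →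
    (y : ℤ) ∣ (X : ℤ) ^ 2 + ε * X + 1
  dvd : X * a * u ^ N ∣ 4 * h
  big : ∀ r, r.Prime → r ∣ a → 7 ≤ r

theorem K4.c4 (K : K4 h q a b) (hv : v.Prime) (hg : 0 < g) (hb : v ∣ b) (hN : (v ^ g) ^ N ∣ h) :
    ∃ X, C4 h (v ^ g) N a X ∧ X * (v ^ g) ^ N ∣ 4 * b ^ 2 := by
  have o := K.ob hv hb
  obtain ⟨X, hX⟩ := q4_ppZ (i := g * N) hv o
    ((Int.natCast_dvd_natCast.2 (pow_mul v g N ▸ hN)).trans K.dvd)
  rw [pow_mul, mul_comm] at hX
  have d : X * (v ^ g) ^ N ∣ 4 * b ^ 2 := hX ▸ (pow_dvd_pow_of_dvd K.b2 2).trans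
    (dvd_of_eq (by ring))
  have a0 : 0 < a := Nat.pos_of_ne_zero fun e => K.a3 (e ▸ dvd_zero 3)
  refine ⟨X, ⟨(q4_five hv o).trans (Nat.le_self_pow hg.ne' v), K.low.2.2,
    Nat.pos_of_ne_zero (by rintro rfl; simp at hX), ?_, fun ε y hε hy ⟨k, hk⟩ => ?_, ?_,
    fun r hr e => q4_seven hr (K.oa hr e)⟩, d⟩
  · have := Nat.le_of_dvd (by omega) K.a2
    rw [← hX]
    nlinarith
  · obtain ⟨l, hl⟩ := Int.natCast_dvd_natCast.2 (hy.trans K.a1)
    have e2 : ε ^ 2 = 1 := by rcases hε with rfl | rfl <;> norm_num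
    zify at hX
    push_cast at hk hl
    have e3 : (q : ℤ) ^ 2 + 1 = ε * X + 1 + y * (k * X - l) := by
      linear_combination hX + X * hk - hl
    rw [e3] at hX
    exact ⟨k * X - 2 * (k * X - l) * (ε * X + 1) - y * (k * X - l) ^ 2, by
      linear_combination hX + X * hk - X ^ 2 * e2⟩
  · rw [mul_right_comm]
    exact (Nat.mul_dvd_mul_right d a).trans ((dvd_of_eq (by ring)).trans
      (Nat.mul_dvd_mul_left 4 K.kept))

theorem C4.dvdW (C : C4 h u N a X) {e W : ℤ} (hh : h * e = u ^ N * W) :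
    ((X * a : ℕ) : ℤ) ∣ 4 * W ∧ (a : ℤ) ∣ W := by
  have u0 : (u : ℤ) ^ N ≠ 0 := pow_ne_zero _ (by have := C.u5; positivity)
  have d : ((X * a : ℕ) : ℤ) ∣ 4 * W := by
    have := (Int.natCast_dvd_natCast.2 C.dvd).mul_right e
    rw [Nat.cast_mul 4, mul_assoc _ (h : ℤ), hh, Nat.cast_mul, Nat.cast_pow] at this
    exact (mul_dvd_mul_iff_right u0).1 (this.trans (dvd_of_eq (by push_cast; ring)))
  have c : a.Coprime (2 ^ 2) := (Nat.coprime_two_right.2 (Nat.not_even_iff_odd.1 fun e =>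
    absurd (C.big 2 Nat.prime_two e.two_dvd) (by norm_num))).pow_right 2
  exact ⟨d, (Nat.isCoprime_iff_coprime.2 c).dvd_of_dvd_mul_left
    ((Int.natCast_dvd_natCast.2 (dvd_mul_left a X)).trans d)⟩

theorem C4.kill_aux (C : C4 h u N a X) {ε y : ℤ} (hε : ε = 1 ∨ ε = -1) (hy : y ∣ a)
    (hF : y ∣ (u : ℤ) ^ N - ε) : y.natAbs ≤ X ^ 2 + X + 1 := by
  have x0 : (1 : ℤ) ≤ X := by exact_mod_cast C.x0
  have := Int.le_of_dvd (by rcases hε with rfl | rfl <;> nlinarith)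
    (C.res ε y.natAbs hε (Int.dvd_natCast.1 hy) (Int.natAbs_dvd.2 hF))
  zify at this ⊢
  rcases hε with rfl | rfl <;> linarith

theorem C4.kill (C : C4 h u N a X) {e W F W' ε : ℤ} {s s' : ℕ} (he : 0 < e)
    (hh : h * e = u ^ N * W) (hW : W ≤ u ^ s) (hε : ε = 1 ∨ ε = -1) (hF : F ∣ (u : ℤ) ^ N - ε)
    (ha : (a : ℤ) ∣ F * W') (h0 : 0 < W') (h1 : W' ≤ 2 * u ^ s')
    (hs : 24 * (N + s) + 430 * (s + 2 * s') ≤ 430 * (3 * N)) : False := by
  have u0 : 0 < u := lt_of_lt_of_le (by norm_num) C.u5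
  have hp : (0 : ℤ) < h := Int.natCast_pos.2 ((Nat.two_pow_pos _).trans_le C.huge)
  have W0 : 0 < W := (mul_pos_iff_of_pos_left (by positivity)).1 (hh ▸ mul_pos hp he)
  have b1 : h ≤ u ^ N * u ^ s := by
    zify
    exact (le_mul_of_one_le_right hp.le he).trans (hh.trans_le
      (mul_le_mul_of_nonneg_left hW (by positivity)))
  have b2 : X * a ≤ 4 * u ^ s := by
    have := Int.le_of_dvd (by omega) (C.dvdW hh).1
    zify at this ⊢
    omega
  obtain ⟨y, z, hy, hz, e1⟩ := exists_dvd_and_dvd_of_dvd_mul ha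
  have b3 := C.kill_aux hε ⟨z, e1⟩ (hy.trans hF)
  have b4 : z.natAbs ≤ 2 * u ^ s' := by
    zify
    exact (Int.le_of_dvd h0 ((abs_dvd _ _).2 hz)).trans h1
  have x0 := C.x0
  have b5 : a ≤ 3 * X ^ 2 * (2 * u ^ s') := by
    rw [← Int.natAbs_natCast a, e1, Int.natAbs_mul]
    exact Nat.mul_le_mul (b3.trans (by nlinarith)) b4
  have b6 : u ^ N ≤ 252 * X * u ^ s' := Nat.le_of_mul_le_mul_left
    (C.low.trans ((Nat.mul_le_mul_left 42 b5).trans_eq (by ring))) x0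
  have b7 : X * (X * u ^ N) ≤ 42 * (4 * u ^ s) := (Nat.mul_le_mul_left X C.low).trans
    ((mul_left_comm X 42 a).trans_le (Nat.mul_le_mul_left 42 b2))
  have b8 : u ^ (3 * N) < 2 ^ 24 * u ^ (s + 2 * s') := calc
    u ^ (3 * N) = (u ^ N) ^ 2 * u ^ N := by ring
    _ ≤ (252 * X * u ^ s') ^ 2 * u ^ N := by gcongr
    _ = 252 ^ 2 * u ^ (2 * s') * (X * (X * u ^ N)) := by ring
    _ ≤ 252 ^ 2 * u ^ (2 * s') * (42 * (4 * u ^ s)) := Nat.mul_le_mul_left _ b7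
    _ = 10668672 * u ^ (s + 2 * s') := by ring
    _ < _ := Nat.mul_lt_mul_of_pos_right (by norm_num) (by positivity)
  have b9 := Nat.pow_lt_pow_left b8 (show 430 ≠ 0 by norm_num)
  rewrite [mul_pow, pow_right_comm] at b9
  refine b9.not_ge ((Nat.mul_le_mul_right _ (Nat.pow_le_pow_left (C.huge.trans b1) 24)).trans ?_)
  rw [← pow_add, ← pow_mul, ← pow_mul, ← pow_mul, ← pow_add]
  exact Nat.pow_le_pow_right u0 (by clear * - hs; omega)

theorem K4.exc4 (K : K4 h q a b) (hv : v.Prime) (hg : 0 < g) (hb : v ∣ b) :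
    ¬ ExcOrd2 (v ^ g : ℕ) h := by
  intro hh
  have hu : 2 ≤ v ^ g := hv.two_le.trans (Nat.le_self_pow hg.ne' v)
  have w : ∀ (N : ℕ) {e W η F W' ε : ℤ} {s s' : ℕ}, η * η = 1 → e ∣ (v ^ g : ℕ) - η → 0 < e →
      h * e = (v ^ g : ℕ) ^ N * W → W ≤ (v ^ g : ℕ) ^ s → ε = 1 ∨ ε = -1 →
      F ∣ ((v ^ g : ℕ) : ℤ) ^ N - ε → W = F * W' → 0 < W' → W' ≤ (v ^ g : ℕ) ^ s' →
      24 * (N + s) + 430 * (s + 2 * s') ≤ 430 * (3 * N) → False := by
    intro N e W η F W' ε s s' a1 a2 a3 a4 a5 a6 a7 a8 a9 a10 a11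
    obtain ⟨X, C, -⟩ := K.c4 hv hg hb (sz_dvd a1 a2 a4)
    exact C.kill a3 a4 a5 a6 a7 (a8 ▸ (C.dvdW a4).2) a9 (by linarith) a11
  have t : ¬ (2 : ℤ) ∣ (v ^ g : ℕ) := fun d => K.b3
    ((Nat.prime_two.dvd_of_dvd_pow (by exact_mod_cast d : 2 ∣ v ^ g)).trans hb)
  generalize v ^ g = u at hh hu w t
  have u1 := fat_one hu
  have s := fat_sub u1
  have s0 : ∀ i, (0 : ℤ) < u ^ (i + 1) - 1 := fun i =>
    sub_pos.2 (one_lt_pow₀ (by omega) i.succ_ne_zero)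
  have l : ∀ i, (u : ℤ) ^ i - 1 ≤ u ^ i := fun i => by omega
  have z : ∀ a b : ℤ, a ≠ 0 → (0 : ℤ) < Int.gcd a b := fun a b e =>
    Int.natCast_pos.2 (Int.gcd_pos_of_ne_zero_left _ e)
  have k : ∀ (J : List ℕ), (J.map fun i => (u : ℤ) ^ i - 1).prod ≤ u ^ J.sum := fun J => by
    induction J with
    | nil => simp
    | cons a J ih =>
      rw [List.map_cons, List.prod_cons, List.sum_cons, pow_add]
      exact mul_le_mul (l a) ih (List.prod_nonneg fun x hx => by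
        obtain ⟨i, -, rfl⟩ := List.mem_map.1 hx
        exact s i) (by positivity)
  have k0 : ∀ (J : List ℕ), 0 ∉ J → 0 < (J.map fun i => (u : ℤ) ^ i - 1).prod := fun J hJ =>
    List.prod_pos fun x hx => by
      obtain ⟨i, hi, rfl⟩ := List.mem_map.1 hx
      exact sub_pos.2 (one_lt_pow₀ (by omega) fun e => hJ (e ▸ hi))
  have p := fun i j => fat_pair u1 (i := i) (j := j)
  have p0 : ∀ i j, 0 < ((u : ℤ) ^ i + 1) * (u ^ (j + 1) - 1) := fun i j =>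
    mul_pos (by positivity) (s0 j)
  have pp : ∀ i j i' j' (J : List ℕ), j + 1 ≤ i → j' + 1 ≤ i' → 0 ∉ J →
      ((u : ℤ) ^ i + 1) * (u ^ (j + 1) - 1) * ((u ^ i' + 1) * (u ^ (j' + 1) - 1)) *
        (J.map fun i => (u : ℤ) ^ i - 1).prod ≤ u ^ (i + (j + 1) + (i' + (j' + 1)) + J.sum) :=
    fun i j i' j' J a b c => by
      rw [pow_add _ (_ + _) J.sum, pow_add _ (i + (j + 1))]
      exact mul_le_mul (mul_le_mul (p _ _ a) (p _ _ b) (p0 _ _).le (by positivity))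
        (k _) (k0 J c).le (by positivity)
  have dv : ∀ i j, (u : ℤ) ^ i - 1 ∣ (u : ℤ) ^ (i * j) - 1 := fun i j => by
    simpa [pow_mul] using sub_dvd_pow_sub_pow ((u : ℤ) ^ i) 1 j
  have o := one_mul (1 : ℤ)
  rcases hh with e | e | e | e | e | e | e | e | e | e
  · exact w 6 o (one_dvd _) one_pos (by simp [e, mul_assoc]) (k [6, 2]) (.inl rfl) (dv 6 1) rfl
      (k0 [2] (by decide)) (k [2]) (by decide)
  · exact w 24 o (one_dvd _) one_pos (by simp [e, mul_assoc]) (k [12, 8, 6, 2]) (.inl rfl)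
      (dv 12 2) rfl (k0 [8, 6, 2] (by decide)) (k _) (by decide)
  · exact w 36 o (Int.gcd_dvd_right _ _) (z _ _ three_ne_zero) (by simp [e, mul_assoc])
      (k [12, 9, 8, 6, 5, 2]) (.inl rfl) (dv 12 3) rfl (k0 [9, 8, 6, 5, 2] (by decide)) (k _)
      (by decide)
  · exact w 36 (η := -1) rfl (Int.gcd_dvd_right 3 (u + 1)) (z _ _ three_ne_zero)
      (by simp [e]; ring) (pp 9 7 5 1 [12, 6] (by decide) (by decide) (by decide)) (.inl rfl)
      (dv 12 3) (by simp; ring) (mul_pos (mul_pos (p0 9 7) (p0 5 1)) (k0 [6] (by decide)))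
      (pp 9 7 5 1 [6] (by decide) (by decide) (by decide)) (by decide)
  · exact w 63 (F := (u ^ 9 - 1) * (u ^ 6 + u ^ 5 + u ^ 4 + u ^ 3 + u ^ 2 + u + 1)) o
      (Int.gcd_dvd_right _ _) (z _ _ two_ne_zero) (by simp [e, mul_assoc])
      (k [18, 14, 12, 10, 8, 6, 2]) (.inl rfl)
      ⟨(u ^ 12 - u ^ 11 + u ^ 9 - u ^ 8 + u ^ 6 - u ^ 4 + u ^ 3 - u + 1) *
        (u ^ 36 - u ^ 33 + u ^ 27 - u ^ 24 + u ^ 18 - u ^ 12 + u ^ 9 - u ^ 3 + 1), by ring⟩
      (by simp; ring) (mul_pos (mul_pos (p0 9 7) (p0 7 5)) (k0 [12, 10, 2, 1] (by decide)))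
      (pp 9 7 7 5 [12, 10, 2, 1] (by decide) (by decide) (by decide)) (by decide)
  · exact w 120 o (one_dvd _) one_pos (by simp [e, mul_assoc]) (k [30, 24, 20, 18, 14, 12, 8, 2])
      (.inl rfl) (dv 30 4) rfl (k0 [24, 20, 18, 14, 12, 8, 2] (by decide)) (k _) (by decide)
  · refine w 12 (s := 10 + 6) (F := u ^ 8 + u ^ 4 + 1) o (one_dvd _) one_pos
      (W := (u ^ 8 + u ^ 4 + 1) * (u ^ 2 - 1) * (u ^ 6 - 1)) (by rw [e]; ring) ?_ (.inl rfl)
      ⟨u ^ 4 - 1, by ring⟩ (by simp; ring) (k0 [6, 2] (by decide)) (k _) (by decide)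
    rw [pow_add _ 10]
    refine mul_le_mul ?_ (l 6) (s 6) (by positivity)
    have := pow_le_pow_right₀ u1 (show 6 ≤ 8 by omega)
    have := pow_le_pow_right₀ u1 (show 2 ≤ 4 by omega)
    linarith
  · exact t e.1
  · exact w 3 o (one_dvd _) one_pos (by rw [e]; ring) (p 3 1 (by omega)) (.inr rfl)
      (by simp) rfl (s0 0) (l 1) (by decide)
  · refine w 12 (s' := 4 + (3 + 1)) (F := u ^ 6 + 1)
      (W' := (u ^ 4 - 1) * ((u ^ 3 + 1) * (u ^ 1 - 1)))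
      o (one_dvd _) one_pos (by simp [e]; ring)
      (pp 6 3 3 0 [] (by decide) (by decide) (by decide)) (.inl rfl) ⟨u ^ 6 - 1, by ring⟩
      (by simp; ring) (mul_pos (s0 3) (p0 3 0)) ?_ (by decide)
    rw [pow_add _ 4]
    exact mul_le_mul (l 4) (p 3 1 (by omega)) (p0 3 0).le (by positivity)

theorem cy_kill {w y z e c d : ℕ} (hr : r.Prime) (h2 : r ≠ 2) (hw : w = y * z + 1) (hy : r ∣ y)
    (hz : ¬ r ∣ z) (y0 : 0 < y) (hc : y ^ c ∣ h * e) (h0 : 0 < h) (he : 0 < e)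
    (hk : ∃ k, 0 < k ∧ k ≤ d ∧ r ^ h.factorization r ∣ w ^ k - 1) :
    ∃ k, 0 < k ∧ k ≤ d ∧ r ^ (c - 1) ∣ k * e := by
  have := Fact.mk hr
  obtain ⟨k, k0, kd, hk⟩ := hk
  have z0 : z ≠ 0 := fun c => hz (c ▸ dvd_zero r)
  have w1 : 1 < w := hw ▸ Nat.lt_add_of_pos_left (Nat.mul_pos y0 (Nat.pos_of_ne_zero z0))
  have e1 : w - 1 = y * z := by omega
  have a1 := padicValNat.pow_sub_pow (hr.odd_of_ne_two h2) w1 (e1 ▸ hy.mul_right z)
    (fun c => hr.not_dvd_one ((Nat.dvd_add_right (hy.mul_right z)).1 (hw ▸ c))) k0.ne'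
  rw [one_pow, e1, padicValNat.mul y0.ne' z0, padicValNat.eq_zero_of_not_dvd hz] at a1
  have a3 := (padicValNat_dvd_iff_le (Nat.sub_ne_zero_of_lt (Nat.one_lt_pow k0.ne' w1))).1 hk
  have a4 := (padicValNat_dvd_iff_le (Nat.mul_pos h0 he).ne').1
    (pow_mul r _ c ▸ (pow_dvd_pow_of_dvd (pow_padicValNat_dvd (p := r) (n := y)) c).trans hc)
  have a5 := one_le_padicValNat_of_dvd y0.ne' hy
  rw [padicValNat.mul h0.ne' he.ne'] at a4
  rw [Nat.factorization_def _ hr, a1] at a3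
  refine ⟨k, k0, kd, (padicValNat_dvd_iff_le (Nat.mul_pos k0 he).ne').2 ?_⟩
  rw [padicValNat.mul k0.ne' he.ne']
  rcases c with _ | c
  · omega
  · rw [Nat.add_sub_cancel]
    nlinarith

theorem C4.small (C : C4 h u N a X) {c n : ℕ} (hc : 2 ≤ c) (h1 : (u - 2) ^ c ≤ 53) (h2 : h ≤ u ^ n)
    (h3 : c ≤ 3 → n ≤ 135) : False := by
  have u5 := C.u5
  have a1 : c ≤ 3 := not_lt.1 fun k => absurd (((Nat.pow_le_pow_right three_pos k).trans
    (Nat.pow_le_pow_left (by omega) c)).trans h1) (by norm_num)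
  have a2 : u ≤ 9 := not_lt.1 fun k => absurd (((Nat.pow_le_pow_right (n := 8) (by omega) hc).trans
    (Nat.pow_le_pow_left (by omega) c)).trans h1) (by norm_num)
  exact absurd (C.huge.trans (h2.trans ((Nat.pow_le_pow_left a2 n).trans
    (Nat.pow_le_pow_right (by omega) (h3 a1))))) (by decide +kernel)

theorem C4.cop (C : C4 h u N a X) {e W Y : ℤ} {ρ : ℕ} (he : 0 < e) (hh : h * e = u ^ N * W)
    (hW : W ≤ u ^ (N + ρ)) (hY : Y ∣ W) (hc : ∀ r : ℕ, r.Prime → r ∣ a → ¬ (r : ℤ) ∣ Y) :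
    Y ≤ 42 * u ^ ρ ∧ h ≤ u ^ (2 * N + ρ) := by
  have u0 : (0 : ℤ) < u ^ N := pow_pos (by have := C.u5; omega) N
  have h0 : (0 : ℤ) < h := Int.natCast_pos.2 (lt_of_lt_of_le (by positivity) C.huge)
  have w0 : 0 < W := (mul_pos_iff_of_pos_left u0).1 (hh ▸ mul_pos h0 he)
  have cp : IsCoprime (a : ℤ) Y := Int.isCoprime_iff_gcd_eq_one.2
    (Nat.coprime_of_dvd fun r hr d1 d2 => hc r hr d1 (Int.natCast_dvd.2 d2))
  have a1 := (Int.le_of_dvd w0 (cp.mul_dvd (C.dvdW hh).2 hY)).trans hW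
  have a2 : (u : ℤ) ^ N ≤ 42 * a := by
    exact_mod_cast (Nat.le_mul_of_pos_left _ C.x0).trans C.low
  rw [pow_add] at a1 hW
  constructor
  · rcases le_total Y 0 with c | c
    · exact c.trans (by positivity)
    · exact le_of_mul_le_mul_left (by nlinarith) u0
  · have a3 : (h : ℤ) ≤ u ^ (2 * N + ρ) := by
      rw [two_mul, add_assoc, pow_add, pow_add]
      exact ((le_mul_of_one_le_right h0.le he).trans hh.le).trans
        (mul_le_mul_of_nonneg_left hW u0.le)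
    exact_mod_cast a3

/-- The primes of `a` have cyclic Sylow subgroups in a linear group of degree `d` over the field
with `w` elements. -/
def Cy4 (h a w d : ℕ) : Prop :=
  ∀ r, r.Prime → r ∣ a → ∃ k, 0 < k ∧ k ≤ d ∧ r ^ h.factorization r ∣ w ^ k - 1

theorem C4.lin_aux1 (x ε : ℤ) (m : ℕ) :
    (x - ε) ^ m * (x + ε) ^ ((m + 1) / 2) ∣ ∏ i ∈ Icc 2 (m + 1), (x ^ i - ε ^ i) := by
  induction m with
  | zero => simp
  | succ m ih =>
    rw [prod_Icc_succ_top (by omega), pow_succ (x - ε)]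
    rcases Nat.even_or_odd' m with ⟨k, rfl | rfl⟩
    · rw [show (2 * k + 1 + 1) / 2 = (2 * k + 1) / 2 + 1 by omega, pow_succ (x + ε),
        mul_mul_mul_comm, show 2 * k + 1 + 1 = 2 * (k + 1) by ring, pow_mul x, pow_mul ε]
      exact mul_dvd_mul ih ((dvd_of_eq (by ring)).trans (sub_dvd_pow_sub_pow (x ^ 2) (ε ^ 2) _))
    · rw [show (2 * k + 1 + 1 + 1) / 2 = (2 * k + 1 + 1) / 2 by omega, mul_right_comm]
      exact mul_dvd_mul ih (sub_dvd_pow_sub_pow _ _ _)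

theorem C4.lin_aux2 {A B w : ℕ} (h1 : u * w ≤ A * B) (h2 : u ^ 2 * w ≤ A ^ 2 * B) (m : ℕ) :
    u ^ m * w ^ ((m + 1) / 2) ≤ A ^ m * B ^ ((m + 1) / 2) := by
  induction m using Nat.twoStepInduction with
  | zero => simp
  | one => simpa using h1
  | more m ih _ =>
    rw [show (m + 2 + 1) / 2 = (m + 1) / 2 + 1 by omega, pow_add, pow_add A, pow_succ w, pow_succ B,
      mul_mul_mul_comm, mul_mul_mul_comm (A ^ m)]
    exact Nat.mul_le_mul ih h2

theorem C4.lin_aux3 (k : ℕ) : (k + 7) ^ 2 < 7 ^ (k + 5) ∧ 2 * k + 7 < 7 ^ (k + 2) := by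
  induction k with
  | zero => norm_num
  | succ k ih =>
    rw [show k + 1 + 5 = k + 5 + 1 by ring, show k + 1 + 2 = k + 2 + 1 by ring, pow_succ 7 (k + 5),
      pow_succ 7 (k + 2)]
    exact ⟨by nlinarith [ih.1], by omega⟩

theorem C4.lin_aux4 (C : C4 h u ((m + 1) * m / 2) a X) (hm : 2 ≤ m) {A B e : ℕ} {ε : ℤ}
    (hε : ε = 1 ∨ ε = -1) (hA : (A : ℤ) = u - ε) (hB : (B : ℤ) = u + ε) (e1 : e ∣ m + 1)
    (e2 : e ∣ A)
    (hh : (h : ℤ) * e = u ^ ((m + 1) * m / 2) * ∏ i ∈ Icc 2 (m + 1), ((u : ℤ) ^ i - ε ^ i))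
    (hW : ∏ i ∈ Icc 2 (m + 1), ((u : ℤ) ^ i - ε ^ i) ≤ u ^ ((m + 1) * m / 2 + m))
    (cy : Cy4 h a (u ^ 2) (m + 1)) : False := by
  have u5 := C.u5
  have s2 : ε ^ 2 = 1 := by rcases hε with rfl | rfl <;> norm_num
  have ab : u ^ 2 = A * B + 1 := by
    zify
    rw [hA, hB]
    linear_combination s2
  have e0 : 0 < e := Nat.pos_of_dvd_of_pos e1 m.succ_pos
  have e3 := Nat.le_of_dvd m.succ_pos e1
  have h0 : 0 < h := lt_of_lt_of_le (by positivity) C.huge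
  have A0 : 0 < A := by omega
  have B0 : 0 < B := by omega
  have Y := C4.lin_aux1 u ε m
  rw [← hA, ← hB] at Y
  have Y1 : A ^ m * B ^ ((m + 1) / 2) ∣ h * e := by
    have := Y.mul_left ((u : ℤ) ^ ((m + 1) * m / 2))
    rw [← hh] at this
    exact_mod_cast this
  have two : ∀ r, r.Prime → r ∣ a → r ∣ A → ¬ r ∣ B := fun r hr d d1 d2 => by
    have d3 : (r : ℤ) ∣ 2 := by
      have := dvd_sub (Int.natCast_dvd_natCast.2 d2) (Int.natCast_dvd_natCast.2 d1)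
      rw [hA, hB] at this
      exact (this.mul_right ε).trans (dvd_of_eq (by linear_combination 2 * s2))
    have := Nat.le_of_dvd two_pos (Int.natCast_dvd_natCast.1 d3)
    have := C.big r hr d
    omega
  have nA : ∀ r, r.Prime → r ∣ a → ¬ r ∣ A := fun r hr d d1 => by
    have r7 := C.big r hr d
    obtain ⟨k, k0, k1, k2⟩ := cy_kill hr (by omega) ab d1 (two r hr d d1) A0
      ((dvd_mul_right _ _).trans Y1) h0 e0 (cy r hr d)
    have : r ≤ m + 1 := (hr.dvd_mul.1 ((dvd_pow_self r (by omega)).trans k2)).elim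
      (fun c => (Nat.le_of_dvd k0 c).trans k1) fun c => (Nat.le_of_dvd e0 c).trans e3
    obtain ⟨j, rfl⟩ : ∃ j, m = j + 6 := ⟨m - 6, by omega⟩
    exact (C4.lin_aux3 j).1.not_ge ((Nat.pow_le_pow_left r7 _).trans
      ((Nat.le_of_dvd (Nat.mul_pos k0 e0) k2).trans (pow_two (j + 7) ▸ Nat.mul_le_mul k1 e3)))
  rcases hm.eq_or_lt with rfl | hm
  · have d := (C.dvdW hh).2
    have cp : IsCoprime (a : ℤ) A := Nat.isCoprime_iff_coprime.2
      (Nat.coprime_of_dvd fun r hr d => nA r hr d)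
    refine C.kill (F := u ^ 3 - ε) (W' := B) (s' := 1) (Int.natCast_pos.2 e0) hh hW hε dvd_rfl
      (cp.dvd_of_dvd_mul_left (d.trans (dvd_of_eq ?_))) (Int.natCast_pos.2 B0)
      (by rw [pow_one]; omega) (by norm_num)
    rw [show Icc 2 (2 + 1) = {2, 3} from rfl, prod_pair (by decide), hA, hB, pow_succ ε 2, s2]
    linear_combination (u ^ 3 - ε) * s2
  have nB : ∀ r, r.Prime → r ∣ a → ¬ r ∣ B := fun r hr d d1 => by
    have r7 := C.big r hr d
    obtain ⟨k, k0, k1, k2⟩ := cy_kill hr (by omega) (mul_comm A B ▸ ab) d1 (nA r hr d) B0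
      ((dvd_mul_left _ _).trans Y1) h0 e0 (cy r hr d)
    have k3 := (Nat.le_of_dvd k0 (((hr.coprime_iff_not_dvd.2 fun c =>
      nA r hr d (c.trans e2)).pow_left _).dvd_of_dvd_mul_right k2)).trans k1
    have : r ≤ m + 1 := (Nat.le_self_pow (by omega) r).trans k3
    obtain ⟨j, hj⟩ : ∃ j, (m + 1) / 2 - 1 = j + 2 := ⟨(m + 1) / 2 - 3, by omega⟩
    have := (C4.lin_aux3 j).2.trans_le ((Nat.pow_le_pow_left r7 _).trans (hj ▸ k3))
    omega
  obtain ⟨c1, c2⟩ := C.cop (Int.natCast_pos.2 e0) hh hW Y fun r hr d c => by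
    have c3 : r ∣ A ^ m * B ^ ((m + 1) / 2) := by exact_mod_cast c
    exact (hr.dvd_mul.1 c3).elim (fun c => nA r hr d (hr.dvd_of_dvd_pow c))
      fun c => nB r hr d (hr.dvd_of_dvd_pow c)
  have c3 : A ^ m * B ^ ((m + 1) / 2) ≤ u ^ m * 42 := by
    rw [mul_comm _ 42]
    exact_mod_cast c1
  obtain ⟨w, rfl⟩ : ∃ w, u = w + 2 := ⟨u - 2, by omega⟩
  have c4 := (C4.lin_aux2 (u := w + 2) (w := w) (A := A) (B := B) (by nlinarith) (by
    rcases hε with rfl | rfl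
    · obtain rfl : A = w + 1 := by omega
      obtain rfl : B = w + 3 := by omega
      nlinarith [Nat.zero_le (w ^ 2)]
    · obtain rfl : A = w + 3 := by omega
      obtain rfl : B = w + 1 := by omega
      nlinarith [Nat.zero_le (w ^ 2)]) m).trans c3
  refine C.small (c := (m + 1) / 2) (by omega)
    ((Nat.le_of_mul_le_mul_left c4 (by positivity)).trans (by norm_num)) c2 fun c => ?_
  have := Nat.mul_le_mul (show m + 1 ≤ 7 by omega) (show m ≤ 6 by omega)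
  omega

theorem C4.lin (C : C4 h u (m * (m - 1) / 2) a X) (hm : 3 ≤ m)
    (hh : h * Nat.gcd m (u - 1) = ordSL m u) (cy : Cy4 h a u m) : False := by
  obtain ⟨k, rfl⟩ : ∃ k, m = k + 1 := ⟨m - 1, by omega⟩
  have u5 := C.u5
  have c : ∀ i, ((u ^ i - 1 : ℕ) : ℤ) = (u : ℤ) ^ i - 1 := fun i => by
    rw [Nat.cast_pred (by positivity), Nat.cast_pow]
  refine C.lin_aux4 (A := u - 1) (B := u + 1) (by omega) (.inl rfl) (by omega) (by omega)
    (Nat.gcd_dvd_left _ _) (Nat.gcd_dvd_right _ _) ?_ ?_ fun r hr d => ?_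
  · rw [← Nat.cast_mul, hh, ordSL, Nat.cast_mul, Nat.cast_prod, Nat.cast_pow]
    simp only [c, one_pow, Nat.add_sub_cancel]
  · simp only [one_pow]
    refine (fat_prodA (by omega) k).trans_eq ?_
    rw [show k * (k + 3) = (k + 1) * k + k * 2 by ring, Nat.add_mul_div_right _ _ two_pos]
  · obtain ⟨j, j0, j1, j2⟩ := cy r hr d
    refine ⟨j, j0, j1, j2.trans ?_⟩
    rw [← pow_mul, mul_comm, pow_mul]
    exact Nat.sub_one_dvd_pow_sub_one _ _

theorem C4.uni (C : C4 h u (m * (m - 1) / 2) a X) (hm : 3 ≤ m) (hh : OrdU m u h)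
    (cy : Cy4 h a (u ^ 2) m) : False := by
  obtain ⟨k, rfl⟩ : ∃ k, m = k + 1 := ⟨m - 1, by omega⟩
  have u5 := C.u5
  have u1 : (1 : ℤ) ≤ u := by omega
  refine C.lin_aux4 (A := u + 1) (B := u - 1) (by omega) (.inr rfl) (by omega) (by omega)
    (Int.natCast_dvd_natCast.1 (Int.gcd_dvd_left _ _))
    (Int.natCast_dvd_natCast.1 (Int.gcd_dvd_right _ _)) hh ?_ cy
  rcases Nat.even_or_odd' k with ⟨j, rfl | rfl⟩
  · refine (fat_prodU u1 j).trans_eq ?_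
    rw [mul_left_comm _ 2, Nat.mul_div_cancel_left _ two_pos]
    ring
  · rw [prod_Icc_succ_top (by omega), Even.neg_one_pow ⟨j + 1, by ring⟩,
      show (2 * j + 1 + 1) * (2 * j + 1) = 2 * ((j + 1) * (2 * j + 1)) by ring,
      Nat.mul_div_cancel_left _ two_pos, show (j + 1) * (2 * j + 1) + (2 * j + 1) =
        j * (2 * j + 3) + (2 * j + 1 + 1) by ring, pow_add _ (j * _)]
    exact mul_le_mul (fat_prodU u1 j) (by omega) (fat_sub u1 _) (by positivity)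

theorem C4.sym_aux1 (u : ℤ) (c : ℕ) : (u ^ 2 - 1) ^ c ∣ ∏ i ∈ Icc 1 c, (u ^ (2 * i) - 1) := by
  have := prod_dvd_prod_of_dvd (s := Icc 1 c) (fun _ => u ^ 2 - 1) (fun i => u ^ (2 * i) - 1)
    fun i _ => pow_mul u 2 i ▸ sub_one_dvd_pow_sub_one _ i
  rwa [prod_const, Nat.card_Icc, Nat.add_sub_cancel] at this

theorem C4.sym_aux (C : C4 h u N a X) {e c d ρ : ℕ} {W : ℤ} (he : e ∣ 4)
    (hh : (h : ℤ) * e = u ^ N * W) (hW : W ≤ u ^ (N + ρ)) (hY : ((u : ℤ) ^ 2 - 1) ^ c ∣ W)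
    (cy : Cy4 h a u d) (hc : 2 ≤ c) (hd : d ≤ 2 * c + 2) :
    u ^ c * (u - 1) ^ c ≤ 42 * u ^ ρ ∧ h ≤ u ^ (2 * N + ρ) := by
  obtain ⟨w, rfl⟩ : ∃ w, u = w + 1 := ⟨u - 1, by have := C.u5; omega⟩
  have u5 := C.u5
  have e0 := Nat.pos_of_dvd_of_pos he four_pos
  have e1 : ((w + 1 : ℕ) : ℤ) ^ 2 - 1 = (w * (w + 2) : ℕ) := by push_cast; ring
  rw [e1] at hY
  obtain ⟨a1, a2⟩ := C.cop (Int.natCast_pos.2 e0) hh hW hY fun r hr ha hr' => by
    have r7 := C.big r hr ha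
    obtain ⟨k, k0, kd, hk⟩ := cy r hr ha
    obtain ⟨k, k0, kd, hk⟩ := cy_kill (w := (w + 1) ^ 2) (y := w * (w + 2)) (z := 1) (c := c) hr
      (by omega) (by ring) (hr.dvd_of_dvd_pow (by exact_mod_cast hr')) hr.not_dvd_one
      (Nat.mul_pos (by omega) (by omega)) (by exact_mod_cast hh ▸ hY.mul_left _)
      (lt_of_lt_of_le (by positivity) C.huge) e0
      ⟨k, k0, kd, hk.trans (by rw [← pow_mul, pow_mul']; exact Nat.sub_one_dvd_pow_sub_one _ 2)⟩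
    have a1 := Nat.le_of_dvd k0 (((Nat.coprime_primes hr Nat.prime_two).2 (by omega)).pow _
      2 |>.dvd_of_dvd_mul_right (hk.trans (Nat.mul_dvd_mul_left k he)))
    have a2 : ∀ j, 2 * (j + 1) + 4 < 7 ^ (j + 1) := fun j => by
      induction j with
      | zero => norm_num
      | succ j ih => rw [pow_succ]; omega
    obtain ⟨j, rfl⟩ : ∃ j, c = j + 2 := ⟨c - 2, by omega⟩
    have := (a2 j).trans_le ((Nat.pow_le_pow_left r7 _).trans a1)
    omega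
  refine ⟨le_trans ?_ (by exact_mod_cast a1 : (w * (w + 2)) ^ c ≤ _), a2⟩
  rw [← mul_pow, Nat.add_sub_cancel]
  exact Nat.pow_le_pow_left (by nlinarith) c

theorem C4.sym (C : C4 h u (m * m) a X) (hm : 2 ≤ m) (hh : OrdB m u h)
    (cy : Cy4 h a u (2 * m + 1)) : False := by
  have u5 := C.u5
  obtain ⟨a1, a2⟩ := C.sym_aux (c := m) (ρ := m)
    ((Int.natCast_dvd_natCast.1 (Int.gcd_dvd_left 2 _)).trans (by norm_num)) hh
    (mul_add_one m m ▸ fat_prodB (fat_one (by omega)) m) (C4.sym_aux1 _ m) cy hm (by omega)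
  rw [mul_comm 42, Nat.mul_le_mul_left_iff (by positivity)] at a1
  exact C.small hm ((Nat.pow_le_pow_left (by omega) m).trans (a1.trans (by omega))) a2
    fun k => by nlinarith

theorem C4.ort_aux {u : ℤ} (hu : 1 ≤ u) (hm : 2 ≤ m) (k : ℕ) :
    (u ^ m + 1) * ∏ i ∈ Icc 1 (k + 1), (u ^ (2 * i) - 1) ≤ u ^ (m + (k + 1) * (k + 2)) := by
  induction k with
  | zero => simpa using fat_pair hu hm
  | succ k ih =>
    rw [prod_Icc_succ_top (by omega), ← mul_assoc, show m + (k + 1 + 1) * (k + 1 + 2) =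
      m + (k + 1) * (k + 2) + 2 * (k + 1 + 1) by ring, pow_add u (m + _)]
    exact mul_le_mul ih (by omega) (fat_sub hu _) (by positivity)

theorem C4.ort (C : C4 h u (m * (m - 1)) a X) {ε : ℤ} (hε : ε = 1 ∨ ε = -1) (hm : 4 ≤ m)
    (hh : OrdD ε m u h) (cy : Cy4 h a u (2 * m)) : False := by
  have u5 := C.u5
  have u1 : (1 : ℤ) ≤ u := fat_one (by omega)
  obtain ⟨k, rfl⟩ : ∃ k, m = k + 3 := ⟨m - 3, by omega⟩
  obtain ⟨a1, a2⟩ := C.sym_aux (c := k + 2) (ρ := k + 3)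
    (Int.natCast_dvd_natCast.1 (Int.gcd_dvd_left 4 _)) (hh.trans (mul_assoc _ _ _))
    ((mul_le_mul_of_nonneg_right (by rcases hε with rfl | rfl <;> omega)
      (prod_nonneg fun i _ => fat_sub u1 _)).trans
        ((C4.ort_aux (m := k + 3) u1 (by omega) (k + 1)).trans_eq
          (congrArg _ (by rw [show k + 3 - 1 = k + 2 from rfl]; ring))))
    ((C4.sym_aux1 _ _).mul_left _) cy (by omega) (by omega)
  rw [pow_succ u (k + 2), mul_left_comm, Nat.mul_le_mul_left_iff (by positivity), pow_succ] at a1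
  refine C.small (c := k + 1) (by omega) ((Nat.pow_le_pow_left (m := u - 1) (by omega) _).trans
    (Nat.le_of_mul_le_mul_right (c := u - 1) (by omega) (by omega))) a2 fun c => ?_
  rw [show k + 3 - 1 = k + 2 from rfl]
  nlinarith

theorem K4.l2 (K : K4 h q a b) (hv : v.Prime) (hg : 0 < g) (hb : v ∣ b)
    (h1 : ∀ w, w.Prime → w ∣ b → w = v) (hh : h * Nat.gcd 2 (v ^ g - 1) = ordSL 2 (v ^ g)) :
    False := by
  have u1 : 1 ≤ v ^ g := Nat.one_le_pow _ _ hv.pos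
  have e1 : h * Nat.gcd 2 (v ^ g - 1) = (v ^ g) ^ 1 * ((v ^ g) ^ 2 - 1) := by simpa [ordSL] using hh
  obtain ⟨X, C, hX⟩ := K.c4 (N := 1) hv hg hb (Nat.Coprime.dvd_of_dvd_mul_right
    (((Nat.coprime_self_sub_right u1).2 (Nat.coprime_one_right _)).coprime_dvd_right
      (Nat.gcd_dvd_right 2 _) |>.pow_left 1) (e1 ▸ dvd_mul_right _ _))
  obtain ⟨d1, d2⟩ := C.dvdW (e := Nat.gcd 2 (v ^ g - 1))
    (W := (((v ^ g : ℕ) : ℤ) ^ 1 - 1) * (((v ^ g : ℕ) : ℤ) ^ 1 - -1)) (by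
      zify [Nat.one_le_pow 2 _ u1] at e1
      push_cast
      linear_combination e1)
  have v5 := q4_five hv (K.ob hv hb)
  have c : X.Coprime b := Nat.coprime_of_dvd fun w hw e e' => by
    obtain rfl := h1 w hw e'
    have k : (w : ℤ) ∣ 4 * ((w ^ g : ℕ) : ℤ) ^ 2 - 4 :=
      (Int.natCast_dvd_natCast.2 (e.mul_right a)).trans (d1.trans (dvd_of_eq (by ring)))
    have k2 : (w : ℤ) ∣ 4 * ((w ^ g : ℕ) : ℤ) ^ 2 := (dvd_pow (Int.natCast_dvd_natCast.2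
      (dvd_pow_self w hg.ne')) two_ne_zero).mul_left 4
    have := Int.le_of_dvd (by norm_num) ((dvd_sub_right k2).1 k)
    omega
  have x4 : X ≤ 4 := Nat.le_of_dvd (by norm_num)
    ((c.pow_right 2).dvd_of_dvd_mul_right ((dvd_mul_right _ _).trans hX))
  obtain ⟨y, z, hy, hz, e2⟩ := exists_dvd_and_dvd_of_dvd_mul d2
  have b1 := C.kill_aux (.inl rfl) ⟨z, e2⟩ hy
  have b2 := C.kill_aux (.inr rfl) ⟨y, e2.trans (mul_comm y z)⟩ hz
  have b3 : a ≤ 21 * 21 := by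
    rw [← Int.natAbs_natCast a, e2, Int.natAbs_mul]
    exact Nat.mul_le_mul (b1.trans (by nlinarith)) (b2.trans (by nlinarith))
  have b4 := K.big.trans ((Nat.le_self_pow (by norm_num) q).trans K.low.1)
  omega

end Pool.Agent.Lib.MP_7d41f7_al
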