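import Pool.Agent.Lib.MP_7d41f7_al.D.RDefs
import Pool.Agent.Lib.MP_7d41f7_al.D.JA

/-! The order formulas of the Suzuki and Ree groups. -/

set_option autoImplicit false

namespace Pool.Agent.Lib.MP_7d41f7_al

namespace Re

/-- The exponent of `q` in the order. -/
def N : Re → ℕ
  | .B2 => 2 | .G2 => 3 | .F4 => 12

/-- The degree of a bound for the prime powers prime to `q` in the order. -/
def b : Re → ℕ
  | .B2 => 1 | .G2 => 2 | .F4 => 4

/-- The cyclotomic value. -/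
def ph : Re → ℤ → ℤ
  | .B2, q => q ^ 2 + 1 | .G2, q => q ^ 2 - q + 1 | .F4, q => q ^ 4 - q ^ 2 + 1

/-- The rest of the order. -/
def xc : Re → ℤ → ℤ
  | .B2, q => q - 1 | .G2, q => q ^ 2 - 1 | .F4, q => (q ^ 4 - 1) ^ 2 * (q ^ 2 - q + 1)

variable {y : Re} {q : ℤ} {m r u k : ℕ}

theorem pp (y : Re) : y.p.Prime := by
  cases y
  exacts [Nat.prime_two, Nat.prime_three, Nat.prime_two]

theorem reeOrd {h : ℤ} (e : h = y.ord (y.q m)) : ReeOrd (y.q m) h := by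
  have d : (y.p : ℤ) ∣ y.q m := Int.natCast_dvd_natCast.2 (dvd_pow_self _ (by omega))
  cases y
  exacts [.inl ⟨d, e⟩, .inr (.inl ⟨d, e⟩), .inr (.inr ⟨d, e⟩)]

theorem ord_eq (y : Re) (q : ℤ) : y.ord q = q ^ y.N * (y.xc q * y.ph q) := by
  cases y <;> simp only [ord, N, xc, ph] <;> ring

theorem ph_dvd (y : Re) (q : ℤ) : y.ph q ∣ q ^ (y.e / 2) + 1 ∧
    q ^ (y.e / 2) + 1 ∣ y.xc q * y.ph q ∧ y.xc q * y.ph q ∣ (q ^ y.e - 1) ^ 2 := by
  cases y <;> simp only [ph, xc, e, Nat.reduceDiv]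
  · exact ⟨dvd_rfl, dvd_mul_left _ _, (q + 1) * (q ^ 4 - 1), by ring⟩
  · exact ⟨⟨q + 1, by ring⟩, ⟨q - 1, by ring⟩, (q ^ 2 + q + 1) * (q ^ 6 - 1), by ring⟩
  · exact ⟨⟨q ^ 2 + 1, by ring⟩, ⟨(q ^ 4 - 1) * (q ^ 2 - 1) * (q ^ 2 - q + 1), by ring⟩,
      (q ^ 2 + q + 1) * (q ^ 8 + q ^ 4 + 1), by ring⟩

theorem e_two (y : Re) : y.e = y.e / 2 * 2 ∧ y.e ∣ 12 ∧ 4 ≤ y.e ∧ y.N ≤ y.e := by
  cases y <;> decide

theorem q_two (y : Re) (m : ℕ) : 2 ≤ y.q m := Nat.one_lt_pow m.succ_ne_zero y.pp.one_lt |>.trans_le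
  (Nat.pow_le_pow_right y.pp.pos (by omega))

theorem tor_cast (y : Re) (m : ℕ) : (y.tor m : ℤ) = y.ph (y.q m) := by
  have h1 := Nat.le_self_pow two_ne_zero (y.q m)
  have h2 := Nat.pow_le_pow_right (one_le_two.trans (y.q_two m)) (show 2 ≤ 4 by omega)
  cases y <;> simp only [tor, ph] <;> push_cast [h1, h2] <;> rfl

theorem sq_one {i : ℕ} (hp : y.p = 2) (hu : u.Prime) (h0 : ¬ u ∣ y.q m)
    (h : (u : ℤ) ^ k ∣ ((y.q m : ℤ) ^ 2 + 1) ^ i) : (u : ℤ) ^ k ≤ (3 * y.q m) ^ i := by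
  obtain ⟨s, s0, hs⟩ : ∃ s : ℤ, 0 < s ∧ s ^ 2 = 2 * y.q m :=
    ⟨2 ^ (m + 1), by positivity, by rw [Re.q, hp]; push_cast; ring⟩
  have up : ¬ (u : ℤ) ∣ 2 := fun c =>
    h0 (prime_eq hu Nat.prime_two c ▸ hp ▸ dvd_pow_self _ (by omega))
  have pr := Nat.prime_iff_prime_int.1 hu
  have q2 := y.q_two m
  replace h0 := mt Int.natCast_dvd_natCast.1 h0
  generalize y.q m = q at *
  have s1 : s ≤ q := by nlinarith
  rw [show (q : ℤ) ^ 2 + 1 = (q + s + 1) * (q - s + 1) by linear_combination hs, mul_pow] at h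
  by_cases c : (u : ℤ) ∣ q + s + 1
  · refine (Int.le_of_dvd (by positivity) (pp_cancel hu (y := q - s + 1) (fun a => ?_) i
      (mul_comm ((q + s + 1) ^ i) _ ▸ h))).trans (pow_le_pow_left₀ (by omega) (by omega) i)
    exact (pr.dvd_or_dvd (hs ▸ dvd_pow ((pr.dvd_or_dvd ((dvd_sub c a).trans
      (dvd_of_eq (show _ = 2 * s by ring)))).resolve_left up) two_ne_zero)).elim up h0
  · exact (Int.le_of_dvd (pow_pos (by omega) i) (pp_cancel hu c i h)).trans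
      (pow_le_pow_left₀ (by omega) (by omega) i)

theorem xc_pp (hq : 100 ≤ y.q m) (hu : u.Prime) (h0 : ¬ u ∣ y.q m)
    (d1 : (u : ℤ) ^ k ∣ y.xc (y.q m)) :
    (u : ℤ) ^ k ≤ y.ph (y.q m) ∧ (u : ℤ) ^ k ≤ 3 * y.q m ^ y.b := by
  have q1 : 100 * (y.q m : ℤ) ≤ y.q m ^ 2 := by nlinarith
  have q2 : 100 * (y.q m : ℤ) ^ 2 ≤ y.q m ^ 4 := by nlinarith
  cases y <;> simp only [xc, ph, b, pow_one] at *
  · have := Int.le_of_dvd (by omega) d1
    omega
  · obtain ⟨η, h1, h2⟩ := sq_split (k := k * 2) hu (pow_mul (u : ℤ) k 2 ▸ pow_dvd_pow_of_dvd d1 2)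
    have := Int.le_of_dvd (b := 2 * (Re.q .G2 m - η)) (by omega)
      ((Int.pow_dvd_pow_iff two_ne_zero).1
        (pow_mul (u : ℤ) k 2 ▸ h2.trans (dvd_of_eq (by ring))))
    omega
  suffices (u : ℤ) ^ k ≤ 50 * (Re.q .F4 m : ℤ) ^ 2 by omega
  have key := sq_one (y := .F4) (i := 2) (k := k) rfl hu h0
  have up : ¬ (u : ℤ) ∣ 2 := fun c =>
    h0 (prime_eq hu Nat.prime_two c ▸ dvd_pow_self _ (by omega))
  generalize Re.q .F4 m = q at *
  have uq : ¬ (u : ℤ) ∣ q := mt Int.natCast_dvd_natCast.1 h0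
  by_cases c1 : (u : ℤ) ∣ q ^ 2 + 1
  · have := key (pp_cancel hu (y := q ^ 2 - 1) (fun a => up (by simpa using dvd_sub c1 a)) 2
      (pp_cancel hu (y := q ^ 2 - q + 1) (fun a => uq (by simpa using dvd_sub c1 a)) 1
        (d1.trans (dvd_of_eq (by ring)))))
    linarith
  have d2 := pp_cancel (k := k) (z := (q ^ 2 - 1) ^ 2 * tph (-1) q) hu c1 2
    (d1.trans (dvd_of_eq (by rw [tph]; ring)))
  by_cases c2 : u ∣ tm (-1) q
  · have := Int.le_of_dvd (by rw [tph]; omega)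
      (pp_cancel hu (tm_not (.inr (.inl rfl)) (by omega) hu c2).2 2 d2)
    rw [tph] at this
    omega
  obtain ⟨η, h4, h5⟩ := sq_split' hu 1 (pp_cancel hu (mt Int.natCast_dvd_natCast.1 c2) 1
    (d2.trans ((mul_dvd_mul_left _ (tph_split (.inr rfl))).trans (dvd_of_eq (by ring)))))
  have := Int.le_of_dvd (mul_pos (by omega) (mul_pos four_pos (pow_pos (by omega) 2))) h5
  rcases h4 with rfl | rfl <;> linarith

theorem pp_le (hq : 100 ≤ y.q m) (pr : ∀ r, r.Prime → r ∣ y.tor m → y.e < r) (hu : u.Prime)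
    (h0 : ¬ u ∣ y.q m) (h : (u : ℤ) ^ k ∣ y.ord (y.q m)) : u ^ k ≤ 3 * y.q m ^ y.b := by
  have d := pp_cancel hu (mt Int.natCast_dvd_natCast.1 h0) _ (y.ord_eq _ ▸ h)
  zify
  by_cases c1 : (u : ℤ) ∣ y.ph (y.q m)
  swap
  · exact (xc_pp hq hu h0 (pp_cancel hu c1 1 (by rwa [pow_one, mul_comm]))).2
  have c2 : ¬ (u : ℤ) ∣ 12 := fun a => by
    have := pr u hu (Int.natCast_dvd_natCast.1 (y.tor_cast m ▸ c1))
    have := y.e_two
    have := Int.le_of_dvd (by omega) a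
    have : u ≤ 12 := by omega
    interval_cases u <;> first | omega | exact absurd hu (by decide)
  replace pr := Nat.prime_iff_prime_int.1 hu
  have d1 := pp_cancel (k := k) (z := y.ph (y.q m)) hu (y := y.xc (y.q m)) (fun a => c2 (by
    generalize (y.q m : ℤ) = q at *
    cases y <;> simp only [xc, ph] at a c1
    · exact (dvd_sub (c1.mul_left 6) (a.mul_left (6 * (q + 1)))).trans (dvd_of_eq (by ring))
    · exact (dvd_add (c1.mul_left (4 * (q + 2))) (a.mul_left (-4 * (q + 1)))).trans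
        (dvd_of_eq (by ring))
    · rcases pr.dvd_or_dvd a with a | a
      · exact (dvd_add (c1.mul_left (4 * (q ^ 2 + 2)))
          ((pr.dvd_of_dvd_pow a).mul_left (-4 * (q ^ 2 + 1)))).trans (dvd_of_eq (by ring))
      · exact (dvd_add (c1.mul_left (6 * q)) (a.mul_left (-6 * (q ^ 3 + q ^ 2 - q - 2)))).trans
          (dvd_of_eq (by ring)))) 1 (by rwa [pow_one])
  have q1 : 100 * (y.q m : ℤ) ≤ y.q m ^ 2 := by nlinarith
  have q2 : 100 * (y.q m : ℤ) ^ 2 ≤ y.q m ^ 4 := by nlinarith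
  cases y <;> simp only [ph, b] at *
  · simpa using sq_one (y := .B2) (i := 1) rfl hu h0 (by rwa [pow_one])
  all_goals
    have := Int.le_of_dvd (by omega) d1
    omega

theorem ppart (hu : (y.p : ℤ) ^ k ∣ y.ord (y.q m)) : k ≤ (2 * m + 1) * y.N := by
  have c := pp_cancel (k := k) (z := (y.q m : ℤ) ^ y.N)
    (y := y.xc (y.q m) * y.ph (y.q m)) y.pp (fun a => lt_A_aux y.pp
    (g := (2 * m + 1) * y.e) (Nat.mul_pos (by omega) (by have := y.e_two; omega)) dvd_rfl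
      (Int.natCast_dvd_natCast.1 (by
        rw [Nat.cast_pred (pow_pos y.pp.pos _), pow_mul, Nat.cast_pow]
        exact (Nat.prime_iff_prime_int.1 y.pp).dvd_of_dvd_pow (a.trans (y.ph_dvd _).2.2)))) 1
    (by rwa [pow_one, mul_comm, ← ord_eq])
  rw [Re.q, Nat.cast_pow, ← pow_mul] at c
  exact (Nat.pow_dvd_pow_iff_le_right y.pp.one_lt).1 (by exact_mod_cast c)

theorem pow_lb {T p n a : ℕ} (hp : 1 < p) (hk : 0 < k) (h1 : T ∣ p ^ n + 1)
    (h2 : p ^ k ≡ 1 [MOD T]) (h3 : p ^ a + 1 < T) : a < n % k ∧ n % k + a < k := by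
  have b : ∀ i, T ∣ p ^ i + 1 → a < i := fun i d => (Nat.pow_lt_pow_iff_right hp).1 (by
    have := Nat.le_of_dvd (Nat.succ_pos _) d
    omega)
  have c : T ∣ p ^ (n % k) + 1 := by
    rw [← Nat.div_add_mod n k, pow_add, pow_mul] at h1
    simpa using (((((h2.pow (n / k)).mul_right _).add_right 1).dvd_iff dvd_rfl).1 h1)
  obtain ⟨j, e⟩ := Nat.exists_eq_add_of_le (Nat.mod_lt n hk).le
  generalize n % k = i at *
  subst e
  have := b j ((Nat.dvd_add_right ((Nat.modEq_iff_dvd' (pow_pos (one_pos.trans hp) _)).1 h2.symm)).1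
    ((c.mul_right (p ^ j)).trans (dvd_of_eq (by
      have := Nat.one_le_pow (i + j) p (by omega)
      rw [add_mul, ← pow_add]
      omega))))
  exact ⟨b i c, by omega⟩

theorem rad (hq : 100 ≤ y.q m) (hu : u.Prime) (hk : 0 < k)
    (h1 : (u : ℤ) ^ k ∣ y.q m ^ y.N * y.xc (y.q m)) (h2 : u ^ k ≡ 1 [MOD y.tor m]) :
    u = y.p ∧ y = .F4 ∧ (2 * m + 1) * 6 ≤ k := by
  have q1 : 100 * (y.q m : ℤ) ≤ y.q m ^ 2 := by nlinarith
  have q2 : 100 * (y.q m : ℤ) ^ 2 ≤ y.q m ^ 4 := by nlinarith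
  have tc := y.tor_cast m
  by_cases a : u = y.p
  · subst a
    have b := ppart (y.ord_eq _ ▸ h1.trans (mul_dvd_mul_left _ (dvd_mul_right _ _)))
    have d : y.tor m ∣ y.p ^ ((2 * m + 1) * (y.e / 2)) + 1 := by
      rw [pow_mul]
      exact_mod_cast tc ▸ (y.ph_dvd _).1
    have c := pow_lb (a := 2 * m + 1) hu.one_lt hk d h2 (by
      rw [← Re.q]
      cases y <;> simp only [ph] at tc <;> omega)
    have c1 := Nat.mod_le ((2 * m + 1) * (y.e / 2)) k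
    have c2 : k ≤ (2 * m + 1) * (y.e / 2) → (2 * m + 1) * (y.e / 2) % k + k ≤
        (2 * m + 1) * (y.e / 2) := fun l => by
      rw [Nat.mod_eq_sub_mod l]
      have := Nat.mod_le ((2 * m + 1) * (y.e / 2) - k) k
      omega
    cases y <;> simp only [e, N, ph, Nat.reduceDiv] at *
    · omega
    · omega
    have c := pow_lb (a := (2 * m + 1) * 2) hu.one_lt hk d h2 (by
      rw [pow_mul, ← Re.q]
      zify
      omega)
    exact ⟨trivial, trivial, by omega⟩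
  have h0 := mt (fun d => (Nat.prime_dvd_prime_iff_eq hu y.pp).1
    (hu.dvd_of_dvd_pow (n := 2 * m + 1) d)) a
  have h3 := (xc_pp hq hu h0 (pp_cancel hu (mt Int.natCast_dvd_natCast.1 h0) _ h1)).1
  have h4 := Nat.le_of_dvd (Nat.sub_pos_of_lt (Nat.one_lt_pow hk.ne' hu.one_lt))
    ((Nat.modEq_iff_dvd' (pow_pos hu.pos k)).1 h2.symm)
  have := pow_pos hu.pos k
  rw [← tc, ← Nat.cast_pow] at h3
  omega

end Re

end Pool.Agent.Lib.MP_7d41f7_al
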