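import Pool.Agent.Lib.MP_7d41f7_al.D.RA
import Pool.Agent.Lib.MP_7d41f7_al.D.JS
import Pool.Agent.Lib.MP_7d41f7_al.D.EK

/-! Sizes for the Suzuki and Ree groups. -/

set_option autoImplicit false

namespace Pool.Agent.Lib.MP_7d41f7_al

open Finset

variable {y z : Re} {x : Ex} {h j m n v g k r i M N D : ℕ} {I : Finset ℕ}

theorem Re.bd (y : Re) {w : ℤ} (hw : 2 ≤ w) : w ^ y.dim ≤ 3 * y.ord w ∧ y.ord w ≤ w ^ y.dim := by
  have e : ∀ i, 2 * w ^ i ≤ w ^ (i + 1) := fun i => by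
    rw [pow_succ']
    exact mul_le_mul_of_nonneg_right hw (by positivity)
  have p : ∀ i, 0 ≤ w ^ i := fun i => by positivity
  have w1 : 1 ≤ w := by omega
  have e1 : 2 * w ^ 1 ≤ w ^ 2 := e 1
  have e2 : 2 * w ^ 2 ≤ w ^ 3 := e 2
  have e3 : 2 * w ^ 3 ≤ w ^ 4 := e 3
  have e4 : 2 * w ^ 4 ≤ w ^ 5 := e 4
  have e5 : 2 * w ^ 5 ≤ w ^ 6 := e 5
  have e6 : 2 * w ^ 6 ≤ w ^ 7 := e 6
  cases y <;> simp only [Re.dim, Re.ord]
  · constructor <;> linarith [p 2]
  · constructor <;> linarith [p 3]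
  constructor
  · calc w ^ 26 = w ^ 12 * w ^ 6 * w ^ 3 * w ^ 5 := by ring
      _ ≤ w ^ 12 * (w ^ 6 + 1) * (w ^ 3 + 1) * (3 * ((w ^ 4 - 1) * (w - 1))) := by
        gcongr <;> linarith
      _ = _ := by ring
  · calc _ = w ^ 12 * ((w ^ 6 + 1) * (w ^ 4 - 1)) * ((w ^ 3 + 1) * (w ^ 1 - 1)) := by ring
      _ ≤ w ^ 12 * w ^ (6 + 4) * w ^ (3 + 1) := by
        gcongr
        exacts [mul_nonneg (by positivity) (fat_sub w1 1), fat_pair w1 (by omega),
          fat_pair w1 (by omega)]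
      _ = _ := by ring

/-- What is known about the order `h` of the section above the normal subgroup of order `p ^ j`. -/
structure RD (y : Re) (m j h : ℕ) : Prop where
  big : 2 ^ 2000 ≤ y.q m ^ y.dim
  pr : ∀ r, r.Prime → r ∣ y.tor m → y.e < r
  jj : j = 0 ∨ y = .F4 ∧ (2 * m + 1) * 6 ≤ j
  card : ∃ a : ℕ, 0 < a ∧ 2 * a ≤ y.e ∧ ((h * a * y.p ^ j : ℕ) : ℤ) = y.ord (y.q m)

theorem Re.q70 (h : 2 ^ 2000 ≤ y.q m ^ y.dim) : 2 ^ 70 ≤ y.q m := by
  by_contra a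
  exact absurd (h.trans ((Nat.pow_le_pow_left (not_le.1 a).le _).trans (Nat.pow_le_pow_right
    (by omega) (show y.dim ≤ 26 by cases y <;> decide)))) (by decide +kernel)

theorem RD.dvd (K : RD y m j h) : ((h * y.p ^ j : ℕ) : ℤ) ∣ y.ord (y.q m) :=
  K.card.elim fun a e => e.2.2 ▸ Int.natCast_dvd_natCast.2 (mul_dvd_mul_right (dvd_mul_right h a) _)

theorem RD.bd (K : RD y m j h) : y.q m ^ y.dim ≤ 18 * (h * y.p ^ j) ∧ h ≤ y.q m ^ y.dim := by
  obtain ⟨a, h1, h2, h3⟩ := K.card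
  obtain ⟨h4, h5⟩ := y.bd (w := y.q m) (by have := y.q_two m; omega)
  have h6 := Nat.mul_le_mul_left (h * y.p ^ j) (show a ≤ 6 by
    have := Nat.le_of_dvd (by omega) y.e_two.2.1
    omega)
  have h7 := Nat.le_mul_of_pos_right h (mul_pos h1 (pow_pos y.pp.pos j))
  rw [mul_right_comm] at h6
  rw [← mul_assoc] at h7
  rw [← h3, ← Nat.cast_pow] at h4 h5
  omega

theorem RD.ppart (K : RD y m j h) (d : y.p ^ i ∣ h) : i + j ≤ (2 * m + 1) * y.N :=
  Re.ppart (.trans (by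
    rw [pow_add]
    exact_mod_cast mul_dvd_mul_right d _) K.dvd)

theorem RD.lie (K : RD y m j h) (hv : v.Prime) (h1 : v ^ i ∣ h) (h2 : h ≤ (v ^ i) ^ 3) :
    v = y.p ∧ j = 0 := by
  have q0 := Re.q70 K.big
  have k : ∀ C B, h * y.p ^ j ≤ C * y.q m ^ B → B < y.dim → y.q m ≤ 18 * C := fun C B a =>
    pw_le (by omega) (K.bd.1.trans (mul_assoc 18 C _ ▸ Nat.mul_le_mul_left 18 a))
  by_cases e : v = y.p
  · subst e
    refine ⟨rfl, K.jj.resolve_right fun ⟨b, a⟩ => ?_⟩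
    have := K.ppart h1
    subst b
    have := k 1 24 ((Nat.mul_le_mul_right _ h2).trans (by
      rw [← pow_mul, ← pow_add, one_mul, Re.q, ← pow_mul]
      exact Nat.pow_le_pow_right hv.pos (by simp only [Re.N] at this; omega))) (by decide)
    omega
  have a := (h2.trans (Nat.pow_le_pow_left (Re.pp_le (by omega) K.pr hv
    (fun d => e ((Nat.prime_dvd_prime_iff_eq hv y.pp).1 (hv.dvd_of_dvd_pow d)))
    (.trans (by exact_mod_cast h1.mul_right _) K.dvd)) 3)).trans_eq (mul_pow _ _ _)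
  rw [← pow_mul] at a
  rcases K.jj with rfl | ⟨rfl, -⟩
  · have := k _ _ (by rwa [pow_zero, mul_one]) (by cases y <;> decide)
    omega
  · have := k (3 ^ 3) (4 * 3 + 12) ((Nat.mul_le_mul a (Nat.pow_le_pow_right two_pos
      ((Nat.le_add_left j 0).trans (K.ppart (one_dvd h))))).trans_eq (by
        rw [pow_add, mul_assoc, pow_mul 2]
        rfl)) (by decide)
    omega

theorem Re.cast (y : Re) (m i : ℕ) :
    (y.q m : ℤ) ^ i - 1 = (y.p ^ ((2 * m + 1) * i) - 1 : ℕ) := by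
  rw [Nat.cast_pred (pow_pos y.pp.pos _), pow_mul, Nat.cast_pow (y.p ^ _)]
  rfl

theorem RD.top (K : RD y m j h) (L : LT h v g N D I) :
    v = y.p ∧ j = 0 ∧ g * D = (2 * m + 1) * y.e ∧ N ≤ D ∧ (4 ∈ I → 4 ∣ D) := by
  obtain ⟨rfl, rfl⟩ := K.lie L.pv (pow_mul v g N ▸ L.pp) (pow_mul v g N ▸ L.le)
  obtain ⟨a, h1, h2, h3⟩ := K.card
  have g0 := L.g0
  have v1 := L.pv.pos
  obtain ⟨e1, e2, e3, e4⟩ := y.e_two
  have f3 : 3 ≤ m := by
    by_contra c
    exact absurd ((Re.q70 K.big).trans ((Nat.pow_le_pow_left (show y.p ≤ 3 by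
      cases y <;> decide) _).trans (Nat.pow_le_pow_right three_pos
        (show 2 * m + 1 ≤ 7 by omega)))) (by decide)
  have f0 := Nat.mul_le_mul (show 7 ≤ 2 * m + 1 by omega) (le_refl y.e)
  have z : ∀ n, (2 * m + 1) * y.e ≤ n → ∃ r, Prim y.p n r := fun n hn =>
    zsig L.pv.two_le (by omega) (by omega)
  rw [Re.ord_eq] at h3
  have up : ∀ i ∈ I, 3 ≤ i ∨ i = D → 3 ≤ g * i → (∃ r, Prim y.p (g * i) r) →
      g * i ∣ (2 * m + 1) * y.e := fun i hi a b ⟨r, hr⟩ =>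
    have pr := Nat.prime_iff_prime_int.1 hr.pr
    (hr.dvd_iff v1 (by omega) _).1 (Int.natCast_dvd_natCast.1 (y.cast m _ ▸ pr.dvd_of_dvd_pow
      (((pr.dvd_or_dvd (h3 ▸ Int.natCast_dvd_natCast.2
        (((L.all i hi a b r hr).mul_right _).mul_right _))).resolve_left fun d =>
          hr.not_dvd v1 (by omega) (hr.pr.dvd_of_dvd_pow (Int.natCast_dvd_natCast.1
            (pr.dvd_of_dvd_pow d)))).trans (y.ph_dvd _).2.2)))
  have lo : (2 * m + 1) * y.e ≤ g * D := by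
    obtain ⟨r, hr⟩ := z _ le_rfl
    have r7 := Nat.le_of_dvd (Nat.sub_pos_of_lt hr.pr.one_lt) (hr.dvd_pred v1 (by omega))
    have d := ((Nat.prime_iff_prime_int.1 hr.pr).dvd_or_dvd ((y.cast m _ ▸
      Int.natCast_dvd_natCast.2 hr.dvd).trans (dvd_of_eq (show _ = ((y.q m : ℤ) ^ (y.e / 2) + 1) *
        (y.q m ^ (y.e / 2) - 1) by
          rw [← sq_sub_sq, ← pow_mul, ← e1, one_pow])))).resolve_right fun d =>
        hr.min ((2 * m + 1) * (y.e / 2)) (Nat.mul_pos (by omega) (by omega))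
          (Nat.mul_lt_mul_of_pos_left (by omega) (by omega))
          (Int.natCast_dvd_natCast.1 (y.cast m _ ▸ d))
    have d1 := Int.natCast_dvd_natCast.1 (h3 ▸ (d.trans (y.ph_dvd _).2.1).mul_left _)
    rw [pow_zero, mul_one] at d1
    rcases L.div r hr.pr ((hr.pr.dvd_mul.1 d1).resolve_right fun c => by
      have := Nat.le_of_dvd h1 c
      omega) with c | ⟨i, hi, c⟩
    · exact absurd c.dvd (hr.not_dvd v1 (by omega))
    · exact (Nat.le_of_dvd (mul_pos g0 (L.bd i hi).1) ((hr.dvd_iff v1 (by omega) _).1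
        (pow_mul y.p g i ▸ c))).trans (Nat.mul_le_mul_left g (L.bd i hi).2)
  have e := (Nat.le_of_dvd (by omega) (up D L.mem (.inr rfl) (by omega) (z _ lo))).antisymm lo
  exact ⟨rfl, rfl, e, Nat.le_of_mul_le_mul_left (e ▸ (K.ppart (pow_mul y.p g N ▸ L.pp)).trans
    (Nat.mul_le_mul_left _ e4)) g0, fun c => Nat.dvd_of_mul_dvd_mul_left g0
      (e ▸ up 4 c (by omega) (by omega) (zsig L.pv.two_le (by omega) (by omega)))⟩

theorem RD.low (K : RD y m j h) (L : LT h v g N D I) (h4 : D ≤ 12) (h2 : (v ^ g) ^ M ≤ 6 * h) :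
    y.e * M ≤ y.dim * D := not_lt.1 fun h3 => by
  obtain ⟨rfl, -, hk, -⟩ := K.top L
  have q0 := Re.q70 K.big
  have a := Nat.pow_le_pow_left (h2.trans (Nat.mul_le_mul_left 6 K.bd.2)) D
  rw [pow_right_comm, ← pow_mul y.p, hk, pow_mul, mul_pow, ← pow_mul, ← pow_mul _ y.dim] at a
  have := pw_le (w := y.q m) (by omega) a h3
  have := Nat.pow_le_pow_right (show 0 < 6 by omega) h4
  omega

theorem RD.high (K : RD y m j h) (L : LT h v g N D I) (h4 : D ≤ 12) (h2 : h ≤ (v ^ g) ^ M) :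
    y.dim * D ≤ y.e * M := not_lt.1 fun h3 => by
  obtain ⟨rfl, rfl, hk, -⟩ := K.top L
  have q0 := Re.q70 K.big
  have a := K.bd.1
  rw [pow_zero, mul_one] at a
  replace a := Nat.pow_le_pow_left (a.trans (Nat.mul_le_mul_left 18 h2)) D
  rw [mul_pow, pow_right_comm (y.p ^ g), ← pow_mul y.p, hk, pow_mul, ← pow_mul _ y.e,
    ← pow_mul _ y.dim] at a
  have := pw_le (w := y.q m) (by omega) a h3
  have := Nat.pow_le_pow_right (show 0 < 18 by omega) h4
  omega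

theorem two_pow_le {u : ℕ} (hu : 2 ≤ u) (i : ℕ) : 2 * u ^ i ≤ u ^ (i + 1) :=
  pow_succ' u i ▸ Nat.mul_le_mul_right _ hu

theorem RD.lin (K : RD y m j h) (hv : v.Prime) (hg : 0 < g) (hn : 2 ≤ n)
    (hh : h * Nat.gcd n (v ^ g - 1) = ordSL n (v ^ g)) : False := by
  have L := lt_A hv hg hn hh
  have l := (K.top L).2.2.2.1
  have u2 := Nat.one_lt_pow hg.ne' hv.one_lt
  have h3 := congrArg (Nat.cast : ℕ → ℤ) hh
  rw [Nat.cast_mul, ordSL_cast u2] at h3
  have h4 := Nat.mul_le_mul_left h (Nat.gcd_le_left (v ^ g - 1) (two_pos.trans_le hn))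
  have e := two_pow_le u2
  obtain rfl | rfl | ⟨n, rfl⟩ : n = 2 ∨ n = 3 ∨ ∃ k, n = k + 4 := by
    by_cases a : n < 4
    · omega
    · exact .inr (.inr ⟨n - 4, by omega⟩)
  · refine absurd ((K.low (M := 3) L (by omega) ?_).antisymm (K.high L (by omega) (dim_A u2 hh)))
      (by cases y <;> decide)
    generalize v ^ g = u at *
    have : 2 * u ^ 1 ≤ u ^ 2 := e 1
    have : 2 * u ^ 2 ≤ u ^ 3 := e 2
    norm_num at h3
    zify at *
    linarith
  · refine absurd (K.low (M := 8) L (by omega) ?_) (by cases y <;> decide)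
    simp only [prod_Icc_succ_top, Nat.reduceLeDiff] at h3
    generalize v ^ g = u at *
    have : 2 * u ^ 5 ≤ u ^ 6 := e 5
    have : 2 * u ^ 6 ≤ u ^ 7 := e 6
    have : 2 * u ^ 7 ≤ u ^ 8 := e 7
    have := Nat.zero_le (u ^ 3)
    norm_num at h3
    zify at *
    linarith
  · have : (n + 4) * (n + 3) < _ := (Nat.div_lt_iff_lt_mul two_pos).1 (Nat.lt_add_one_of_le l)
    nlinarith

theorem RD.uni (K : RD y m j h) (hv : v.Prime) (hg : 0 < g) (hn : 3 ≤ n)
    (hh : OrdU n (v ^ g : ℕ) h) : False := by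
  have L := lt_2A hv hg hn hh
  have u2 := Nat.one_lt_pow hg.ne' hv.one_lt
  rcases hn.eq_or_lt with rfl | a
  · refine absurd ((K.low (M := 8) L (by decide) ?_).antisymm (K.high L (by decide) (dim_U u2 hh)))
      (by cases y <;> decide)
    have := mul_le_mul_of_nonneg_left (Int.le_of_dvd three_pos
      (Int.gcd_dvd_left 3 (((v ^ g : ℕ) : ℤ) + 1))) (Int.natCast_nonneg h)
    rw [OrdU, prod_Icc_succ_top (by omega), Icc_self, prod_singleton] at hh
    have e := two_pow_le u2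
    generalize v ^ g = u at *
    have : 2 * u ^ 3 ≤ u ^ 4 := e 3
    have : 2 * u ^ 4 ≤ u ^ 5 := e 4
    have : 2 * u ^ 6 ≤ u ^ 7 := e 6
    have : 2 * u ^ 7 ≤ u ^ 8 := e 7
    have := Nat.zero_le (u ^ 3)
    have := Nat.zero_le (u ^ 6)
    norm_num at hh
    zify at *
    linarith
  · have := (K.top L).2.2.2.2 (mem_image.2 ⟨4, mem_Icc.2 ⟨by omega, a⟩, rfl⟩)
    split_ifs at this <;> omega

theorem RD.sym (K : RD y m j h) (hv : v.Prime) (hg : 0 < g) (hn : 2 ≤ n)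
    (hh : OrdB n (v ^ g : ℕ) h) : False := by
  have L := lt_B hv hg hn hh
  obtain rfl := hn.antisymm (Nat.le_of_mul_le_mul_right (K.top L).2.2.2.1 (by omega))
  refine absurd (K.low (M := 10) L (by omega) ?_) (by cases y <;> decide)
  have := mul_le_mul_of_nonneg_left (Int.le_of_dvd two_pos
    (Int.gcd_dvd_left 2 (((v ^ g : ℕ) : ℤ) - 1))) (Int.natCast_nonneg h)
  rw [OrdB, prod_Icc_succ_top (by omega), Icc_self, prod_singleton] at hh
  rw [hh] at this
  simp only [Nat.reduceMul, Nat.reduceAdd] at this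
  have e := two_pow_le (Nat.one_lt_pow hg.ne' hv.one_lt)
  generalize v ^ g = u at *
  have : 2 * u ^ 6 ≤ u ^ 7 := e 6
  have : 2 * u ^ 7 ≤ u ^ 8 := e 7
  have : 2 * u ^ 8 ≤ u ^ 9 := e 8
  have : 2 * u ^ 9 ≤ u ^ 10 := e 9
  have := Nat.zero_le (u ^ 4)
  zify at *
  linarith

theorem RD.ort (K : RD y m j h) (hv : v.Prime) (hg : 0 < g) (hn : 4 ≤ n) {ε : ℤ}
    (hε : ε = 1 ∨ ε = -1) (hh : OrdD ε n (v ^ g : ℕ) h) : False := by
  have : n * (n - 1) ≤ 2 * n := by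
    rcases hε with rfl | rfl
    · exact (K.top (lt_D hv hg hn hh)).2.2.2.1.trans (by omega)
    · exact (K.top (lt_2D hv hg hn (by simpa only [OrdD, sub_neg_eq_add] using hh))).2.2.2.1
  have := Nat.mul_le_mul_left n (show 3 ≤ n - 1 by omega)
  omega

theorem RD.exc (K : RD y m j h) (hv : v.Prime) (hg : 0 < g)
    (hh : (h : ℤ) * x.cen (v ^ g : ℕ) = x.ord (v ^ g : ℕ)) : False := by
  have L := Ex.lt hv hg hh
  have l := (K.top L).2.2.2.1
  have u2 := Nat.one_lt_pow hg.ne' hv.one_lt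
  have k : ((v ^ g : ℕ) : ℤ) ^ 8 ≤ 2 * (((v ^ g : ℕ) ^ 6 - 1) * ((v ^ g : ℕ) ^ 2 - 1)) := by
    have e := two_pow_le u2
    generalize v ^ g = u at *
    have : 2 * u ^ 2 ≤ u ^ 3 := e 2
    have : 2 * u ^ 3 ≤ u ^ 4 := e 3
    have : 2 * u ^ 4 ≤ u ^ 5 := e 4
    have : 2 * u ^ 5 ≤ u ^ 6 := e 5
    have : 2 * u ^ 6 ≤ u ^ 7 := e 6
    have : 2 * u ^ 7 ≤ u ^ 8 := e 7
    have := Nat.zero_le (u ^ 2)
    zify at *
    linarith
  obtain rfl | rfl : x = .G2 ∨ x = .D3 := by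
    revert l
    cases x <;> decide
  · refine absurd (K.low (M := 14) L (by decide) ?_) (by cases y <;> decide)
    simp only [Ex.cen, Ex.ord, Nat.cast_one] at hh
    have := mul_le_mul_of_nonneg_left k (pow_nonneg (Int.natCast_nonneg (v ^ g)) 6)
    generalize v ^ g = u at *
    zify
    linarith [Int.natCast_nonneg h]
  · refine absurd (K.low (M := 28) L (by decide) ?_) (by cases y <;> decide)
    simp only [Ex.cen, Ex.ord, Nat.cast_one] at hh
    generalize v ^ g = u at *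
    have := mul_le_mul (show (u : ℤ) ^ 20 ≤ u ^ 12 * (u ^ 8 + u ^ 4 + 1) by
      have : (0 : ℤ) ≤ u ^ 16 + u ^ 12 := by positivity
      linarith) k (by positivity) (by positivity)
    zify
    linarith [Int.natCast_nonneg h]

theorem RD.ree (K : RD y m j h) (hh : (h : ℤ) = z.ord (z.q k)) : z = y ∧ k = m := by
  obtain ⟨h1, h2⟩ := z.bd (w := z.q k) (by have := z.q_two k; omega)
  rw [← hh, ← Nat.cast_pow] at h1 h2
  have key : ∀ {N D I}, LT h z.p (2 * k + 1) N D I → D ≤ 12 →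
      (y.e * z.dim = y.dim * D → z = y ∧ D = y.e) → z = y ∧ k = m := fun L l a => by
    obtain ⟨a, b⟩ := a ((K.low L l (show z.q k ^ _ ≤ _ by omega)).antisymm
      (K.high L l (show _ ≤ z.q k ^ _ by omega)))
    have := Nat.eq_of_mul_eq_mul_right (by have := y.e_two; omega) (b ▸ (K.top L).2.2.1)
    exact ⟨a, by omega⟩
  rcases (Re.reeOrd hh).lt z.pp (2 * k).succ_pos with L | L | L <;>
    exact key L (by omega) (by cases y <;> cases z <;> decide)

theorem RD.lo (K : RD y m j h) (hi : i + y.N ≤ y.dim) : y.q m ^ i ≤ 18 * h := by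
  have a := K.bd.1.trans (Nat.mul_le_mul_left 18 (Nat.mul_le_mul_left h (Nat.pow_le_pow_right
    y.pp.pos ((Nat.le_add_left j 0).trans (K.ppart (one_dvd h))))))
  have := y.q_two m
  rw [pow_mul, ← mul_assoc] at a
  exact Nat.le_of_mul_le_mul_right ((pow_add _ i y.N).ge.trans ((Nat.pow_le_pow_right (by omega)
    hi).trans a)) (pow_pos (by omega) y.N)

theorem Re.tor_bd (y : Re) (m : ℕ) : ∃ β, y.q m ^ β ≤ 2 * y.tor m ∧ y.tor m ≤ 2 * y.q m ^ β ∧
    β + 1 + y.N ≤ y.dim ∧ y.dim ≤ β * 7 ∧ y.dim ≤ y.N + β * 4 := by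
  have q2 := y.q_two m
  have tc := y.tor_cast m
  have : 2 * y.q m ≤ y.q m ^ 2 := sq (y.q m) ▸ Nat.mul_le_mul_right _ q2
  have : 2 * y.q m ^ 2 ≤ y.q m ^ 3 := two_pow_le q2 2
  have : 2 * y.q m ^ 3 ≤ y.q m ^ 4 := two_pow_le q2 3
  cases y <;> simp only [Re.ph] at tc
  exacts [⟨2, by zify at *; omega, by zify at *; omega, by decide⟩,
    ⟨2, by zify at *; omega, by zify at *; omega, by decide⟩,
    ⟨4, by zify at *; omega, by zify at *; omega, by decide⟩]

theorem RD.not_spor (K : RD y m j h) : h ∉ sporOrd := fun e => by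
  have h3 : ∀ x ∈ sporOrd, x < 2 ^ 180 := by decide +kernel
  have h4 := h3 h e
  have := (Nat.pow_le_pow_left (Re.q70 K.big) 3).trans (K.lo (by cases y <;> decide))
  omega

theorem RD.not_alt (K : RD y m j h) (hh : 2 * h = n.factorial)
    (hn : ∀ r, r.Prime → r ∣ y.tor m → r ∣ h → n < 2 * r) : False := by
  have n0 : 0 < n := Nat.pos_of_ne_zero fun e => by
    rw [e, Nat.factorial_zero] at hh
    omega
  have q2 := y.q_two m
  have e2 := y.e_two
  have d : h ∣ n.factorial := hh ▸ dvd_mul_left h 2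
  have t : y.tor m ∣ h := by
    obtain ⟨a, h1, h2, h3⟩ := K.card
    refine (Nat.coprime_of_dvd (n := a * y.p ^ j) fun r hr d1 d2 => ?_).dvd_of_dvd_mul_right
      (mul_assoc h a _ ▸ Int.natCast_dvd_natCast.1 (h3 ▸ y.ord_eq _ ▸ y.tor_cast m ▸
        (dvd_mul_left _ _).mul_left _))
    have := K.pr r hr d1
    have : y.p ≤ 3 := by cases y <;> decide
    rcases hr.dvd_mul.1 d2 with c | c
    · have := Nat.le_of_dvd h1 c
      omega
    · have := Nat.le_of_dvd y.pp.pos (hr.dvd_of_dvd_pow c)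
      omega
  have b0 := KD.not_alt_aux22 n0 (t.trans d) fun r hr e => hn r hr e (e.trans t)
  obtain ⟨β, b1, -, -, b2, b3⟩ := y.tor_bd m
  replace b1 := b1.trans (Nat.mul_le_mul_left 2 b0)
  have b4 : 200 ≤ n := by
    by_contra c
    exact absurd (K.big.trans ((Nat.pow_le_pow_right (by omega) b2).trans ((pow_mul _ β 7).trans_le
      (Nat.pow_le_pow_left (b1.trans (Nat.mul_le_mul_left 2 (Nat.mul_le_mul (show n ≤ 200 by omega)
        (Nat.pow_le_pow_right two_pos (show n ≤ 200 by omega))))) 7)))) (by decide +kernel)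
  obtain ⟨i, w, hw, e⟩ := Nat.exists_eq_pow_mul_and_not_dvd
    (show h ≠ 0 by have := n.factorial_pos; omega) y.p y.pp.ne_one
  have b5 := K4.not_alt_aux2 y.pp ((Dvd.intro _ e.symm).trans d)
  have b6 : w ≤ (y.q m ^ β) ^ 4 := by
    obtain ⟨c1, c2⟩ := y.bd (w := y.q m) (by omega)
    have c0 : (0 : ℤ) < y.q m ^ y.N := by positivity
    have c3 : (0 : ℤ) < y.q m ^ y.dim := by positivity
    rw [Re.ord_eq] at c1 c2
    have c4 := Int.le_of_dvd ((mul_pos_iff_of_pos_left c0).1 (by omega))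
      ((Nat.isCoprime_iff_coprime.2 ((y.pp.coprime_iff_not_dvd.2 hw).symm.pow_right
        (2 * m + 1))).pow_right.dvd_of_dvd_mul_left (y.ord_eq _ ▸ (Int.natCast_dvd_natCast.2
          ((Dvd.intro_left _ e.symm).mul_right _)).trans K.dvd))
    have c5 := c2.trans (pow_le_pow_right₀ (by omega) b3)
    rw [pow_add, mul_le_mul_iff_right₀ c0, pow_mul] at c5
    exact_mod_cast c4.trans c5
  refine absurd (KE.not_alt_aux1 b4) (not_lt.2 ?_)
  calc n.factorial = 2 * (y.p ^ i * w) := by rw [← hh, e]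
    _ ≤ 2 * (2 ^ n * (2 ^ 46 * (n * 2 ^ n)) ^ 4) := by
      gcongr
      exact b6.trans (Nat.pow_le_pow_left (b1.trans (Nat.mul_le_mul_right _ (by omega))) 4)
    _ = 2 ^ 185 * (n ^ 4 * 32 ^ n) := by
      rw [show 32 ^ n = (2 ^ n) ^ 5 by rw [← pow_mul, mul_comm, pow_mul]; rfl]
      ring

end Pool.Agent.Lib.MP_7d41f7_al
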