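import Pool.Agent.Lib.MP_7d41f7_al.C.FBC
import Pool.Agent.Lib.MP_7d41f7_al.C.VC

/-! The lemmas on elements of order prime to the characteristic with the sharp threshold. -/

set_option autoImplicit false

namespace Pool.Agent.Lib.MP_7d41f7_al

open Module

section ar

variable {t : Ty} {k : Kd} {n m q r j : ℕ}

theorem bg_one (h : 2 < k.wt * j) : 1 < j := by
  cases k <;> simp only [Kd.wt] at h <;> omega

theorem bg_of (h : 2 < j) : 2 < k.wt * j := by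
  cases k <;> simp only [Kd.wt] <;> omega

theorem ord_le' (hr : r.Prime) (h2 : 1 < Ord (t.kd.bs q) r) (h : (r : ℤ) ∣ t.ord n q) :
    Ord (t.kd.bs q) r ≤ n := by
  rcases n.eq_zero_or_pos with rfl | hn
  · have h4 : t.ord 0 q ∣ 2 ^ 2 := by cases t <;> simp [Ty.ord]
    exact absurd ((Nat.prime_dvd_prime_iff_eq hr Nat.prime_two).1 (Int.natCast_dvd_natCast.1
      ((Nat.prime_iff_prime_int.1 hr).dvd_of_dvd_pow (h.trans h4)))) (Ord.ne_two h2)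
  · exact Ty.ord_le hn hr h

theorem div_dim' (hr : r.Prime) (h2 : 2 < t.kd.wt * Ord (t.kd.bs q) r)
    (h3 : (r : ℤ) ∣ (t.kd.fc q : ℤ) ^ t.dim m - 1) (h4 : (r : ℤ) ∣ t.sing m q) :
    Ord (t.kd.bs q) r ∣ m ∧ t ≠ .B := by
  cases t
  · exact div_dim hr (by simpa [Ty.kd, Kd.wt] using h2) h3 h4
  all_goals simp only [Ty.kd, Kd.fc, Kd.bs, Kd.wt, Ty.dim, Ty.sing] at h2 h3 h4 ⊢
  · exact ⟨(Ord.dvd_iff _).1 (by rwa [← pow_mul]), by simp⟩
  · have h5 : (r : ℤ) ∣ ((q : ℤ) ^ 2) ^ 1 - 1 :=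
      (dvd_sub h3 (h4.mul_left q)).trans ⟨q + 1, by ring⟩
    exact absurd (Nat.le_of_dvd one_pos ((Ord.dvd_iff _).1 h5)) (by omega)
  · exact ⟨(Ord.dvd_iff _).1 (by rwa [← pow_mul]), by simp⟩
  · exact ⟨(Ord.dvd_iff _).1 (by rwa [← pow_mul]), by simp⟩

end ar

variable {F V : Type} [Field F] [Finite F] {P : Sca F} [AddCommGroup V] [Module F V] [Finite V]
  {Φ : Frm P V}

theorem Sca.cast_ne' {r : ℕ} (hr : r.Prime) (h : 2 < P.k.wt * P.j r) : (r : F) ≠ 0 :=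
  P.cast_ne hr (lt_trans one_pos (bg_one h))

omit [Finite F] in
theorem Sca.norm_ord' (P : Sca F) : ∃ m : ℕ, 0 < m ∧ (∀ c : F, c * P.σ c = 1 → c ^ m = 1) ∧
    ∀ r, r.Prime → r ∣ m → P.k.wt * P.j r ≤ 2 := by
  by_cases h : P.k = .U
  · refine ⟨P.q + 1, by omega, fun c hc => by rwa [P.σU h, ← pow_succ'] at hc, fun r hr hd => ?_⟩
    have h1 : Ord (-(P.q : ℤ)) r ∣ 1 := (Ord.dvd_iff 1).1 (by
      rw [pow_one, ← dvd_neg]
      simpa [add_comm] using Int.natCast_dvd_natCast.2 hd)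
    have := Nat.le_of_dvd one_pos h1
    simp only [Sca.j, h, Kd.wt, Kd.bs]
    omega
  · refine ⟨2, two_pos, fun c hc => by rwa [P.σN h, ← pow_two] at hc, fun r hr hd => ?_⟩
    by_contra h2
    exact Ord.ne_two (bg_one (not_le.1 h2)) ((Nat.prime_dvd_prime_iff_eq hr Nat.prime_two).1 hd)

namespace Frm

variable {g x y : V ≃ₗ[F] V} {W : Submodule F V} {r m n : ℕ} {t : Ty} {Γ : Type} [Group Γ]

theorem le_of_dvd' (hn : Φ.Nd) (hr : r.Prime) (h2 : 2 < P.k.wt * P.j r)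
    (h : r ∣ Nat.card Φ.Iso) : P.k.wt * P.j r ≤ finrank F V := by
  obtain ⟨t, n, hT⟩ := exists_ty hn
  have h3 := ord_le' (t := t) (n := n) (q := P.q) hr (hT.kd ▸ bg_one h2)
    (hT.ord ▸ Int.natCast_dvd_natCast.2 h)
  rw [hT.dim, Sca.j, ← hT.kd]
  exact (Nat.mul_le_mul_left _ h3).trans (wt_dim t n).1

theorem triv' (hW : (Φ.res W).Nd) (hy : y ∈ Φ.Iso) (hs : Stb y W) (hr : r.Prime)
    (h2 : 2 < P.k.wt * P.j r) {a : ℕ} (h1 : y ^ r ^ a = 1) (hd : finrank F W < P.k.wt * P.j r) :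
    ∀ w ∈ W, y w = w := by
  obtain ⟨y', hy', e⟩ := exists_res hy hs
  obtain ⟨i, -, hi⟩ := (Nat.dvd_prime_pow hr).1 (orderOf_dvd_of_pow_eq_one (fbcd_pow e h1))
  rcases i with _ | i
  · intro w hw
    rw [← e ⟨w, hw⟩, orderOf_eq_one_iff.1 hi]
    rfl
  · refine absurd (le_of_dvd' hW hr h2 ?_) hd.not_ge
    exact (dvd_pow_self r i.succ_ne_zero).trans (hi ▸ Subgroup.orderOf_dvd_natCard _ hy')

theorem min_mv' (hn : Φ.Nd) (hx : x ∈ Φ.Iso) (hr : r.Prime) (h2 : 2 < P.k.wt * P.j r)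
    (h1 : x ^ r = 1) (h0 : x ≠ 1) : P.k.wt * P.j r ≤ finrank F (mv x) := by
  by_contra hd
  have hm := Sca.cast_ne' hr h2
  have h3 := triv' (a := 1) (nd_mv hn hx h1 hm) hx (stb_mv (Commute.refl x)) hr h2
    (by rwa [pow_one]) (not_le.1 hd)
  refine h0 (LinearEquiv.ext fun v => sub_eq_zero.1 ?_)
  have h4 : x v - v ∈ mv x := mem_mv.2 ⟨v, rfl⟩
  exact fadja_dis h1 hm _ h4 (h3 _ h4)

theorem fpf_ty' (hW : (Φ.res W).IsTy t m) (hx : x ∈ Φ.Iso) (hs : Stb x W) (hr : r.Prime)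
    (h2 : 2 < P.k.wt * P.j r) (h1 : x ^ r = 1) (h0 : ∀ w ∈ W, x w = w → w = 0) :
    P.j r ∣ m ∧ t ≠ .B ∧ (r : ℤ) ∣ t.sing m P.q := by
  obtain ⟨h3, h4⟩ := fminb_res hx hs hr h1 h0
  have h5 : (r : ℤ) ∣ t.sing m P.q := hW.ns ▸ Int.natCast_dvd_natCast.2 h4
  rw [hW.dim] at h3
  simp only [Sca.j] at h2 ⊢
  rw [← hW.kd] at h2 h3 ⊢
  exact ⟨(div_dim' hr h2 h3 h5).1, (div_dim' hr h2 h3 h5).2, h5⟩

/-- The commutator space of an element of a class above `n / 2`. -/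
theorem mv_ty (hT : Φ.IsTy t n) (hx : x ∈ Φ.Iso) (hr : r.Prime) (h2 : 2 < P.k.wt * P.j r)
    (hj : n < 2 * P.j r) (h1 : x ^ r = 1) (h0 : x ≠ 1) :
    ∃ s, (Φ.res (mv x)).IsTy s (P.j r) ∧ s ≠ .B ∧ (r : ℤ) ∣ s.sing (P.j r) P.q ∧
      finrank F (mv x) = P.k.wt * P.j r := by
  have hr0 := Sca.cast_ne' hr h2
  obtain ⟨s, m, hW⟩ := exists_ty (nd_mv hT.nd hx h1 hr0)
  obtain ⟨d1, d2, d3⟩ := fpf_ty' hW hx (stb_mv (Commute.refl x)) hr h2 h1 (fadja_dis h1 hr0)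
  have h4 := min_mv' hT.nd hx hr h2 h1 h0
  have h5 := Submodule.finrank_le (mv x)
  have h6 := (wt_dim t n).2
  obtain ⟨h7, h8⟩ := wt_dim s m
  rw [hT.kd, ← hT.dim] at h6
  rw [hW.kd, ← hW.dim] at h7 h8
  have e1 : P.j r < m + 1 := lt_of_mul_lt_mul_left (h4.trans_lt h8) (Nat.zero_le _)
  have e2 : m < n + 1 := lt_of_mul_lt_mul_left ((h7.trans h5).trans_lt h6) (Nat.zero_le _)
  have e3 := bg_one h2
  obtain rfl := Nat.eq_of_dvd_of_lt_two_mul (by omega) d1 (by omega)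
  refine ⟨s, hW, d2, d3, ?_⟩
  rw [hW.dim, ← hW.kd]
  cases s <;> simp [Ty.dim, Ty.kd, Kd.wt] at d2 ⊢

/-- An invariant subspace of small dimension is fixed pointwise. -/
theorem le_fx (hx : x ∈ Φ.Iso) (hr : r.Prime) (hm : (r : F) ≠ 0) (h1 : x ^ r = 1)
    {U : Submodule F V} (hs : Stb x U)
    (h3 : ∀ d, 0 < d → d ≤ finrank F U → ¬ (r : ℤ) ∣ (P.k.fc P.q : ℤ) ^ d - 1) : U ≤ fx x := by
  have h5 : finrank F (U ⊓ mv x : Submodule F V) = 0 := by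
    by_contra h
    exact h3 _ (Nat.pos_of_ne_zero h) (Submodule.finrank_mono inf_le_left)
      (fminb_res (W := U ⊓ mv x) hx (fun w hw => ⟨hs w hw.1, stb_mv (Commute.refl x) w hw.2⟩) hr h1
        fun w hw => fadja_dis h1 hm w hw.2).1
  exact fun u hu => mem_fx.2 (sub_eq_zero.1 ((Submodule.eq_bot_iff _).1
    (Submodule.finrank_eq_zero.1 h5) _ ⟨sub_mem (hs u hu) hu, mem_mv.2 ⟨u, rfl⟩⟩))

theorem no_fix' (hn : Φ.Nd) (hx : x ∈ Φ.Iso) (hr : r.Prime) (h2 : 2 < P.k.wt * P.j r)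
    (h1 : x ^ r = 1) (h0 : x ≠ 1) {U : Submodule F V} (hU : Φ.Ti U)
    (h3 : ∀ d, 0 < d → d ≤ finrank F U → ¬ (r : ℤ) ∣ (P.k.fc P.q : ℤ) ^ d - 1)
    (h4 : finrank F V < 2 * finrank F U + P.k.wt * P.j r) : ¬ Stb x U := fun hs => by
  have hm := Sca.cast_ne' hr h2
  have h6 := le_fx hx hr hm h1 hs h3
  have h7 := (nd_fx hn hx h1 hm).two_dim (U := U.comap (fx x).subtype)
    fun a ha b hb => hU.2 a ha b hb
  rw [(Submodule.comapSubtypeEquivOfLe h6).finrank_eq] at h7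
  have h8 := min_mv' hn hx hr h2 h1 h0
  have h9 := finrank_mv_fx x
  omega

theorem index_cop' (hn : Φ.Nd) (hr : r.Prime) (h2 : 2 < P.k.wt * P.j r)
    {Ω : Subgroup (V ≃ₗ[F] V)} (h1 : Φ.Der ≤ Ω) : ¬ r ∣ Ω.relIndex Φ.Iso := by
  have hc : _root_.commutator Φ.Iso ≤ Ω.subgroupOf Φ.Iso := fun x hx =>
    h1 (by
      have := Subgroup.mem_map_of_mem Φ.Iso.subtype hx
      rwa [Subgroup.map_subtype_commutator] at this)
  refine fcenc_index (S := {g : Φ.Iso | finrank F (mv g.1) ≤ 2}) hr hc ?_ ?_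
  · rw [eq_top_iff]
    rintro ⟨x, hx⟩ -
    have h3 : Φ.Sm ≤ (Subgroup.closure {g : Φ.Iso | finrank F (mv g.1) ≤ 2}).map Φ.Iso.subtype :=
      (Subgroup.closure_le _).2 fun g hg => ⟨⟨g, hg.1⟩, Subgroup.subset_closure hg.2, rfl⟩
    obtain ⟨y, hy, rfl⟩ := h3 (le_Sm hn hx)
    exact hy
  · rintro ⟨g, hg⟩ h3 ⟨k, hk⟩
    have h4 : finrank F (mv g) ≤ 2 := h3
    rw [← Subgroup.orderOf_coe] at hk
    have hk' : orderOf g = r * k := hk
    have hp : 0 < orderOf g := orderOf_pos g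
    have hk0 : 0 < k := Nat.pos_of_ne_zero fun h => by
      rw [h, mul_zero] at hk'
      exact hp.ne' hk'
    have h5 := min_mv' hn (Φ.Iso.pow_mem hg k) hr h2
      (by rw [← pow_mul, mul_comm, ← hk', pow_orderOf_eq_one])
      (pow_ne_one_of_lt_orderOf hk0.ne' (by rw [hk']; exact lt_mul_left hk0 hr.one_lt))
    have h6 := Submodule.finrank_mono (mv_pow g k)
    omega

variable (Φ) in
/-- The centraliser of the commutator subgroup consists of scalars. -/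
def Cen : Prop :=
  ∀ z ∈ Φ.Iso, (∀ h ∈ Φ.Der, Commute h z) → ∃ c : F, c * P.σ c = 1 ∧ ∀ v, z v = c • v

omit [Finite F] [Finite V] in
theorem Rep.center' (hC : Φ.Cen) (R : Φ.Rep Γ) {z : Γ} (hz : z ∈ Subgroup.center Γ) :
    ∃ c : F, c * P.σ c = 1 ∧ ∀ v, R.ι z v = c • v :=
  hC _ (R.le ⟨z, rfl⟩) fun h hh => by
    obtain ⟨a, rfl⟩ := R.der hh
    exact Commute.map (Subgroup.mem_center_iff.1 hz a) R.ι

theorem card_PQ' (hT : Φ.IsTy t n) (hC : Φ.Cen) (R : Φ.Rep Γ) :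
    ∃ c : ℕ, (Nat.card (PQ Γ) : ℤ) * c = t.ord n P.q ∧
      ∀ r, r.Prime → r ∣ c → P.k.wt * P.j r ≤ 2 := by
  have := R.finite
  refine ⟨Nat.card (Subgroup.center Γ) * R.ι.range.relIndex Φ.Iso, ?_, fun r hr h => ?_⟩
  · have h1 := Subgroup.card_eq_card_quotient_mul_card_subgroup (Subgroup.center Γ)
    have h2 : Nat.card Γ = Nat.card (R.ι.range.subgroupOf Φ.Iso) :=
      Nat.card_congr ((MonoidHom.ofInjective R.inj).trans
        (Subgroup.subgroupOfEquivOfLe R.le).symm).toEquiv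
    have h3 := Subgroup.card_mul_index (R.ι.range.subgroupOf Φ.Iso)
    rw [← hT.ord, ← h3, ← h2, h1]
    push_cast
    rw [mul_assoc]
    rfl
  · by_contra h2
    rw [not_le] at h2
    rcases (Nat.Prime.dvd_mul hr).1 h with h3 | h3
    · have := Fact.mk hr
      obtain ⟨m, -, hm, hj⟩ := P.norm_ord'
      obtain ⟨⟨z, hz⟩, ha⟩ := exists_prime_orderOf_dvd_card' (G := Subgroup.center Γ) r h3
      obtain ⟨c, hc, hv⟩ := Rep.center' hC R hz
      have h4 : ∀ k : ℕ, ∀ v, (R.ι z ^ k) v = c ^ k • v := fun k => by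
        induction k with
        | zero => intro v; simp
        | succ k ih =>
          intro v
          rw [pow_succ, LinearEquiv.mul_apply, ih, hv, smul_smul, pow_succ]
      have h5 : z ^ m = 1 := R.inj (by
        rw [map_pow, map_one]
        ext v
        rw [h4, hm c hc, one_smul]
        rfl)
      rw [← Subgroup.orderOf_coe] at ha
      have h6 : r ∣ m := ha ▸ orderOf_dvd_of_pow_eq_one h5
      exact absurd (hj r hr h6) (not_le.2 h2)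
    · exact index_cop' hT.nd hr h2 R.der h3

omit [Finite F] [Finite V] in
theorem IsTy.lt' (hT : Φ.IsTy t n) {a : ℕ} (h : n < a) : finrank F V < P.k.wt * a := by
  have h1 := (wt_dim t n).2
  rw [hT.dim, ← hT.kd]
  exact h1.trans_le (Nat.mul_le_mul_left _ h)

theorem fcyc_fx' (hT : Φ.IsTy t n) (hr : r.Prime) (hb : 2 < P.k.wt * P.j r)
    (hj : n < 2 * P.j r) {y z : V ≃ₗ[F] V} (hy : y ∈ Φ.Iso) (hz : z ∈ Φ.Iso) (h1 : y ^ r = 1)
    (h2 : z ^ r = 1) (hc : Commute y z) (h0 : y ≠ 1) : fx y ≤ fx z := by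
  have h3 := min_mv' hT.nd hy hr hb h1 h0
  have h4 := finrank_mv_fx y
  have h5 := hT.lt' hj
  rw [mul_left_comm] at h5
  exact fun w hw => mem_fx.2 (triv' (nd_fx hT.nd hy h1 (Sca.cast_ne' hr hb)) hz (stb_fx hc) hr hb
    (a := 1) (by rw [pow_one, h2]) (by omega) w hw)

theorem fcyc_norm' (hT : Φ.IsTy t n) (hr : r.Prime) (hb : 2 < P.k.wt * P.j r)
    (hj : n < 2 * P.j r) {y z : V ≃ₗ[F] V} (hy : y ∈ Φ.Iso) (hz : z ∈ Φ.Iso) (h1 : y ^ r = 1)
    (h2 : z ^ r = 1) (hc : Commute y z) (h0 : y ≠ 1) {w : V} (hw : w ∈ mv z) :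
    ∑ k ∈ Finset.range r, (y ^ k) w = 0 := by
  refine (Submodule.disjoint_def.1 (compl_fx h2 (Sca.cast_ne' hr hb)).disjoint) _
    (fcyc_fx' hT hr hb hj hy hz h1 h2 hc h0 (mem_fx.2 ?_))
    (Submodule.sum_mem _ fun k _ => (stb_mv hc.symm).pow k w hw)
  have h3 := Finset.sum_range_succ (fun k => (y ^ k) w) r
  rw [Finset.sum_range_succ', h1, pow_zero, add_left_inj] at h3
  rw [map_sum, ← h3]
  exact Finset.sum_congr rfl fun k _ => by rw [pow_succ', LinearEquiv.mul_apply]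

theorem no_rank2' (hT : Φ.IsTy t n) (hr : r.Prime) (hg : 2 < P.k.wt * P.j r)
    (hj : n < 2 * P.j r) {a b : V ≃ₗ[F] V} (ha : a ∈ Φ.Iso) (hb : b ∈ Φ.Iso) (h1 : a ^ r = 1)
    (h2 : b ^ r = 1) (hc : Commute a b) (h0 : b ≠ 1) : a ∈ Subgroup.zpowers b := by
  by_contra hna
  have hrF : (r : F) ≠ 0 := Sca.cast_ne' hr hg
  have hp : ∀ i : ℕ, (b ^ i) ^ r = 1 := fun i => by rw [← pow_mul, mul_comm, pow_mul, h2, one_pow]
  have ho : orderOf b = r := haveI := Fact.mk hr; orderOf_eq_prime h2 h0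
  refine h0 (LinearEquiv.ext fun v => ?_)
  have hw : b v - v ∈ mv b := mem_mv.2 ⟨v, rfl⟩
  refine sub_eq_zero.1 ((smul_eq_zero_iff_right hrF).1 ?_)
  change (r : F) • (b v - v) = 0
  generalize b v - v = w at hw
  have h3 : ∑ i ∈ Finset.range r, ∑ k ∈ Finset.range r, ((a * b ^ i) ^ k) w = 0 :=
    Finset.sum_eq_zero fun i _ => fcyc_norm' hT hr hg hj (mul_mem ha (pow_mem hb i)) hb
      (by rw [(hc.pow_right i).mul_pow, h1, hp, one_mul]) h2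
      (hc.mul_left ((Commute.refl b).pow_left i))
      (fun h => hna (eq_inv_of_mul_eq_one_left h ▸ inv_mem (Subgroup.npow_mem_zpowers b i))) hw
  rw [Finset.sum_comm, Finset.sum_eq_single 0] at h3
  · simpa [Nat.cast_smul_eq_nsmul] using h3
  · intro k hk hk0
    have h4 := fcyc_norm' hT hr hg hj (pow_mem hb k) hb (hp k) h2 ((Commute.refl b).pow_left k)
      (pow_ne_one_of_lt_orderOf hk0 (ho ▸ Finset.mem_range.1 hk)) hw
    rw [← map_zero (a ^ k), ← h4, map_sum]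
    exact Finset.sum_congr rfl fun i _ => by
      rw [(hc.pow_right i).mul_pow, LinearEquiv.mul_apply, ← pow_mul, mul_comm i k, pow_mul]
  · exact fun h => absurd (Finset.mem_range.2 hr.pos) h

theorem cyc_rep' (hT : Φ.IsTy t n) (R : Φ.Rep Γ) (hr : r.Prime) (hb : 2 < P.k.wt * P.j r)
    (hj : n < 2 * P.j r) : Cyc Γ r := by
  have := R.finite
  intro S
  refine odd_cyc hr (Ord.ne_two (bg_one hb)) S.isPGroup' fun a b h1 h3 hc h0 => ?_
  set φ : (S : Subgroup Γ) →* (V ≃ₗ[F] V) := R.ι.comp (S : Subgroup Γ).subtype with hφ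
  have hi : Function.Injective φ := R.inj.comp Subtype.val_injective
  obtain ⟨k, hk⟩ := Subgroup.mem_zpowers_iff.1 (no_rank2' hT hr hb hj (a := φ a) (b := φ b)
    (R.le ⟨a, rfl⟩) (R.le ⟨b, rfl⟩) (by rw [← map_pow, h1, map_one])
    (by rw [← map_pow, h3, map_one]) (hc.map φ) fun h => h0 (hi (h.trans (map_one φ).symm)))
  exact Subgroup.mem_zpowers_iff.2 ⟨k, hi (by rw [map_zpow, hk])⟩

theorem cyc_PQ' (hT : Φ.IsTy t n) (R : Φ.Rep Γ) (hr : r.Prime) (hb : 2 < P.k.wt * P.j r)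
    (hj : n < 2 * P.j r) : Cyc (PQ Γ) r :=
  have := R.finite
  (cyc_rep' hT R hr hb hj).of_surj (QuotientGroup.mk'_surjective _) hr

/-- An element of prime order of a large class that commutes with `x` acts freely on `mv x`. -/
theorem adj_core' {u : ℕ} (hT : Φ.IsTy t n) (hr : r.Prime) (hu : u.Prime)
    (hb : 2 < P.k.wt * P.j r) (hb' : 2 < P.k.wt * P.j u) (hj : n < P.j u + P.j r) (hx : x ∈ Φ.Iso)
    (hy : y ∈ Φ.Iso) (hc : Commute x y) (h1 : x ^ r = 1) (h2 : y ^ u = 1) (h3 : y ≠ 1) :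
    ∀ w ∈ mv x, y w = w → w = 0 := by
  intro w hw hy0
  have h4 := min_mv' hT.nd hy hu hb' h2 h3
  have h5 := finrank_mv_fx y
  have h6 := hT.lt' hj
  rw [mul_add] at h6
  exact fadja_dis h1 (Sca.cast_ne' hr hb) w hw
    (triv' (nd_fx hT.nd hy h2 (Sca.cast_ne' hu hb')) hx (stb_fx hc.symm) hr hb (a := 1)
      (by rw [pow_one, h1]) (by omega) w (mem_fx.2 hy0))

/-- The vanishing theorem with an explicit level `k`. -/
theorem van_core' {k : ℕ} (hT : Φ.IsTy t n) (hC : Φ.Cen) (R : Φ.Rep Γ) (hr : r.Prime)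
    (hb : 2 < P.k.wt * P.j r) (hk : k ≤ t.wi n)
    (hf : ∀ x ∈ Φ.Iso, x ^ r = 1 → x ≠ 1 → ∀ U, Φ.Ti U → finrank F U = k → ¬ Stb x U)
    (hθ : ∀ l ≤ t.wi n, l ≠ k → ¬ (r : ℤ) ∣ th (t.kd.fc P.q) (t.wi n) (t.tt n P.q) k -
      th (t.kd.fc P.q) (t.wi n) (t.tt n P.q) l)
    (g : PQ Γ) (h : r ∣ orderOf g) : orderOf g ∈ Vo (PQ Γ) := by
  have hc : commutator Φ.Iso ≤ R.ι.range.subgroupOf Φ.Iso := fun x hx =>
    R.der ((Subgroup.map_subtype_commutator Φ.Iso).le (Subgroup.mem_map_of_mem _ hx))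
  have : (R.ι.range.subgroupOf Φ.Iso).Normal := ⟨fun x hx y => by
    have h1 := mul_mem (hc (Subgroup.commutator_mem_commutator (Subgroup.mem_top y)
      (Subgroup.mem_top x))) hx
    rwa [commutatorElement_def, inv_mul_cancel_right] at h1⟩
  obtain ⟨e⟩ := pq_congr
    ((MonoidHom.ofInjective R.inj).trans (Subgroup.subgroupOfEquivOfLe R.le).symm)
  have hs : Nat.card F = t.kd.fc P.q := hT.kd ▸ P.card
  rw [Vo_congr e, ← e.orderOf_eq g]
  refine polar_van hT.rk.polar Φ.Iso (fun g hg U hU => hU.map hg)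
    (fun U₁ U₂ W₁ W₂ h => hT.rk.witt U₁.2.1 W₁.2.1 U₂.2.1 W₂.2.1 U₁.2.2 W₁.2.2 U₂.2.2 W₂.2.2 h)
    _ hc hr (index_cop' hT.nd hr hb R.der) (fun z hz U => ?_) hk (fun x hx W e => ?_)
    (fun l hl hne => ?_) _ (by rwa [e.orderOf_eq])
  · obtain ⟨c, -, hc⟩ := hC z.1.1 z.1.2 fun y hy => show y * _ = _ * y from
      congrArg (fun a => a.1.1) (Subgroup.mem_center_iff.1 hz ⟨⟨y, R.le (R.der hy)⟩, R.der hy⟩)
    refine Submodule.eq_of_le_of_finrank_eq ?_ (LinearEquiv.finrank_map_eq _ _)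
    rintro _ ⟨v, hv, rfl⟩
    exact (hc v).symm ▸ U.1.smul_mem c hv
  · have ho : orderOf x.1 = r := (Subgroup.orderOf_coe x).trans hx
    exact hf x.1 x.2 (ho ▸ pow_orderOf_eq_one _)
      (fun h0 => hr.one_lt.ne' (by rw [← ho, h0, orderOf_one])) W.1 W.2.1 W.2.2 fun w hw =>
        e.le (Submodule.mem_map_of_mem hw)
  · rw [hs]
    exact hθ l hl hne

end Frm

end Pool.Agent.Lib.MP_7d41f7_al
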