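import Pool.Agent.Lib.MP_7d41f7_al.D.SMin

/-! The centraliser of an element of the top class of a unitary group. -/

set_option autoImplicit false

namespace Pool.Agent.Lib.MP_7d41f7_al

open Module

variable {F V : Type} [Field F] [Finite F] {P : Sca F} [AddCommGroup V] [Module F V] [Finite V]
  {Φ : Frm P V}

namespace Frm

variable {x y : V ≃ₗ[F] V} {r m : ℕ}

/-- The Wall form. -/
theorem wall_U (hk : P.k = .U) (hn : Φ.Nd) (hy : y ∈ Φ.Iso) (hm : mv y ≤ fx y) :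
    ∃ Ψ : Frm P (mv y), Ψ.Nd ∧ ∀ x ∈ Φ.Iso, Commute x y → ∀ x' : mv y ≃ₗ[F] mv y,
      (∀ w : mv y, (x' w : V) = x w) → x' ∈ Ψ.Iso := by
  obtain ⟨a, a0, ha⟩ : ∃ a : F, a ≠ 0 ∧ P.σ a = -a := by
    have h1 := P.card_τ ⟨0, P.τ_zero⟩
    rw [Sca.tk_U hk] at h1
    have := Finite.one_lt_card_iff_nontrivial.1 (h1 ▸ P.q2)
    obtain ⟨a, h⟩ := exists_ne (⟨0, P.τ_zero⟩ : {a // P.τ a = 0})
    exact ⟨a, fun h0 => h (Subtype.ext h0),
      eq_neg_of_add_eq_zero_right ((Sca.τ_U hk _).symm.trans a.2)⟩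
  obtain ⟨s, hs⟩ : ∃ s : mv y →ₗ[F] V, ∀ w : mv y, y (s w) - s w = w :=
    (((y : V →ₗ[F] V) - LinearMap.id).rangeRestrict.exists_rightInverse_of_surjective
      (LinearMap.range_rangeRestrict _)).imp fun s hs w =>
        congrArg Subtype.val (LinearMap.congr_fun hs w)
  have h1 : ∀ (u : mv y) v w, y v - v = y w - w → Φ.B u v = Φ.B u w := fun u v w h => by
    rw [← sub_eq_zero, ← map_sub]
    refine B_comm0 (perp_fx_mv hy (mem_fx.2 ?_) u.2)
    rw [map_sub, sub_eq_sub_iff_sub_eq_sub, h]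
  have h2 : ∀ u w : mv y, a * Φ.B w (s u) = P.σ (a * Φ.B u (s w)) := fun u w => by
    have h3 := perp_fx_mv hy (hm w.2) u.2
    have h4 := Φ.sym u (s w)
    rw [Sca.ε_U hk, one_mul] at h4
    rw [map_mul, ha, ← h4]
    rw [← hs u, ← hs w] at h3
    rw [← hs u, ← hs w]
    simp only [map_sub, LinearMap.sub_apply, hy.1] at h3 ⊢
    linear_combination (-a) * h3
  have h3 : ∀ x ∈ Φ.Iso, Commute x y → ∀ x' : mv y ≃ₗ[F] mv y, (∀ w : mv y, (x' w : V) = x w) →
      ∀ u w, a * Φ.B (x' u) (s (x' w)) = a * Φ.B u (s w) := fun x hx hc x' e u w => by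
    rw [h1 (x' u) _ (x (s w)), e, hx.1]
    rw [hs, e, ← hs w, map_sub, ← LinearEquiv.mul_apply, hc.eq, LinearEquiv.mul_apply]
  refine ⟨{ B := a • (Φ.B.domRestrict (mv y)).compl₂ s
            Q := fun u => a * Φ.B u (s u)
            sym := fun u w => by rw [Sca.ε_U hk, one_mul]; exact h2 u w
            add := fun u w => ?_
            smul := fun c u => ?_
            diag := fun u => by rw [Sca.ρ_U hk, one_mul]; rfl
            tr := fun u => P.tr_surj hk (h2 u u).symm }, fun u h => Subtype.ext (hn _ fun v => ?_),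
    fun x hx hc x' e => ⟨h3 x hx hc x' e, fun u => h3 x hx hc x' e u u⟩⟩
  · change _ = _ + P.τ (a * Φ.B u (s w))
    rw [Sca.τ_U hk, ← h2]
    simp only [map_add, LinearMap.add_apply, Submodule.coe_add]
    ring
  · rw [map_smul, Submodule.coe_smul, B_smul, smul_B]
    ring
  · rw [h1 u v (s ⟨_, mem_mv.2 ⟨v, rfl⟩⟩) (hs ⟨_, mem_mv.2 ⟨v, rfl⟩⟩).symm]
    exact (mul_eq_zero.1 (h ⟨_, mem_mv.2 ⟨v, rfl⟩⟩)).resolve_left a0

/-- Elements that commute with an element of the top class act freely. -/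
theorem free_U (hk : P.k = .U) (hn : Φ.Nd) (hr : r.Prime) (hb : 2 < P.j r)
    (hd : finrank F V = P.j r) (hx : x ∈ Φ.Iso) (h1 : x ^ r = 1) (h0 : ∀ v, x v = v → v = 0)
    (hy : y ∈ Φ.Iso) (hc : Commute x y) {v : V} (hv : v ≠ 0) (h : y v = v) : y = 1 := by
  by_contra hy1
  have := Module.Finite.of_finite (R := F) (M := V)
  have hw : P.k.wt * P.j r = P.j r := by rw [hk]; exact one_mul _
  have key : ∀ W : Submodule F V, Stb x W → 0 < finrank F W → P.j r ≤ 2 * finrank F W :=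
    fun W hs h => Nat.le_of_dvd (by omega) ((Ord.dvd_iff _).1 (by
      have := (fminb_res hx hs hr h1 fun w _ => h0 w).1
      rw [hk] at this ⊢
      simpa only [Kd.bs, Kd.fc, pow_mul, neg_sq, Nat.cast_pow] using this))
  have sY : Stb x (fx y) := stb_fx hc.symm
  have sM : Stb x (mv y) := stb_mv hc.symm
  have hf : v ∈ fx y := mem_fx.2 h
  have nM : mv y ≠ ⊥ := fun e => hy1 (LinearEquiv.ext fun w => sub_eq_zero.1
    ((Submodule.mem_bot F).1 (e ▸ mem_mv.2 ⟨w, rfl⟩)))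
  have a1 := key _ sY (Nat.pos_of_ne_zero fun e =>
    hv ((Submodule.mem_bot F).1 (Submodule.finrank_eq_zero.1 e ▸ hf)))
  have a2 := key _ sM (Nat.pos_of_ne_zero fun e => nM (Submodule.finrank_eq_zero.1 e))
  have a3 := finrank_mv_fx y
  rcases Nat.eq_zero_or_pos (finrank F ↥(fx y ⊓ mv y)) with c | c
  · have e := Submodule.finrank_sup_add_finrank_inf_eq (fx y) (mv y)
    have t : fx y ⊔ mv y = ⊤ := Submodule.eq_top_of_finrank_eq (by omega)
    refine hv (h0 v (triv' (a := 1) (Φ.res_nd.2 fun u hu k => hn u fun z => ?_) hx sY hr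
      (by omega) (by rwa [pow_one]) (by omega) v hf))
    obtain ⟨a, ha, b, hb, rfl⟩ := Submodule.mem_sup.1 (t ▸ Submodule.mem_top : z ∈ fx y ⊔ mv y)
    rw [map_add, k a ha, perp_fx_mv hy hu hb, add_zero]
  · have a4 := key _ (fun w hw => ⟨sY w hw.1, sM w hw.2⟩ : Stb x (fx y ⊓ mv y)) c
    have e : fx y ⊓ mv y = mv y := Submodule.eq_of_le_of_finrank_le inf_le_right (by omega)
    obtain ⟨Ψ, n, hΨ⟩ := wall_U hk hn hy (inf_eq_right.1 e)
    obtain ⟨g, -, hg⟩ := exists_res hx sM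
    obtain ⟨w, hw1, hw0⟩ := Submodule.exists_mem_ne_zero_of_ne_bot nM
    have := (min_mv' n (hΨ x hx hc g hg) hr (by omega) (fbcd_pow hg h1) fun e => hw0 (h0 w
      (by rw [← hg ⟨w, hw1⟩, e]; rfl))).trans (Submodule.finrank_le _)
    omega

omit [Finite F] in
theorem card_Q1_aux [Fintype F] [DecidableEq F] {X : Type} [Finite X] (f : X → F)
    (h : ∀ x, P.σ (f x) = f x) :
    Nat.card X = ∑ a ∈ Finset.univ.filter fun a => P.σ a = a, Nat.card {x // f x = a} := by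
  rw [Nat.card_congr (Equiv.sigmaFiberEquiv f).symm, Nat.card_sigma]
  refine (Finset.sum_subset (Finset.subset_univ _) fun a _ ha => ?_).symm
  have : IsEmpty {x // f x = a} := ⟨fun x => ha (by simpa using x.2 ▸ h x.1)⟩
  exact Nat.card_of_isEmpty

/-- The number of vectors with `Q v = 1`. -/
theorem card_Q1 (hT : Φ.IsTy .U m) (hm : 0 < m) :
    (Nat.card {v : V // Φ.Q v = 1} : ℤ) = (P.q : ℤ) ^ (m - 1) * ((P.q : ℤ) ^ m - (-1) ^ m) := by
  classical
  have := Fintype.ofFinite F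
  have hk : P.k = .U := hT.kd.symm
  have hq := P.q2
  have hF : Nat.card F = P.q ^ 2 := by rw [P.card, hk]; rfl
  have h1 : ∀ c, P.σ (P.τ c) = P.τ c := fun c => by rw [Sca.τ_U hk, map_add, P.σσ, add_comm]
  have h2 := card_Q1_aux P.τ h1
  rw [Finset.sum_congr rfl fun a ha => P.card_τ (Sca.tr_surj hk (Finset.mem_filter.1 ha).2),
    Finset.sum_const, smul_eq_mul, Sca.tk_U hk, hF, sq] at h2
  have h3 := card_Q1_aux (P := P) Φ.Q fun v => by
    obtain ⟨c, e⟩ := Φ.tr v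
    exact e ▸ h1 c
  have h0 : (0 : F) ∈ Finset.univ.filter fun a => P.σ a = a := by simp
  rw [← Finset.add_sum_erase _ _ h0, ← fcnta_ns, Finset.sum_congr rfl
    (g := fun _ => Nat.card {v : V // Φ.Q v = 1}) fun a ha => ?_, Finset.sum_const,
    Finset.card_erase_of_mem h0, ← Nat.eq_of_mul_eq_mul_right (by omega) h2, smul_eq_mul,
    Module.natCard_eq_pow_finrank (K := F), hF, hT.dim] at h3
  · obtain ⟨k, rfl⟩ := Nat.exists_eq_add_one_of_ne_zero hm.ne'
    have h4 := hT.ns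
    have h5 : ((-1 : ℤ) ^ k) ^ 2 = 1 := by rw [← pow_mul, mul_comm, pow_mul]; simp
    simp only [Ty.sing, Ty.dim, Nat.add_sub_cancel] at h3 h4 ⊢
    zify [show 1 ≤ P.q by omega] at h3
    refine mul_left_cancel₀ (a := (P.q : ℤ) - 1) (by omega) ?_
    linear_combination -h3 - h4 + h5
  · obtain ⟨h4, h5⟩ := Finset.mem_erase.1 ha
    obtain ⟨c, rfl⟩ := Sca.norm_surj hk (Finset.mem_filter.1 h5).2
    refine (Nat.card_congr ((MulAction.toPerm (Units.mk0 c (left_ne_zero_of_mul h4))).subtypeEquiv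
      fun v => ?_)).symm
    change _ ↔ Φ.Q (c • v) = _
    rw [Φ.smul, mul_eq_left₀ h4]

omit [Finite F] in
theorem free_dvd_U_aux (C : Subgroup (V ≃ₗ[F] V)) (hf : ∀ y ∈ C, ∀ v, v ≠ 0 → y v = v → y = 1)
    (p : V → Prop) (h0 : ∀ v, p v → v ≠ 0) (hp : ∀ y ∈ C, ∀ v, p v → p (y v)) :
    (Nat.card C : ℤ) ∣ Nat.card {v // p v} := by
  let S : SubMulAction C V := ⟨{v | p v}, fun c v hv => hp c c.2 v hv⟩
  have := Fintype.ofFinite S
  have h1 := free_sum (R := C) (X := S) (fun g a e => Subtype.ext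
    (hf g g.2 a (h0 a a.2) (congrArg Subtype.val e))) (fun _ => 1) fun _ _ => rfl
  rwa [Finset.sum_const, Finset.card_univ, ← Nat.card_eq_fintype_card, nsmul_one] at h1

/-- `C` acts freely on the nonzero vectors and on the vectors with `Q v = 1`. -/
theorem free_dvd_U (hT : Φ.IsTy .U m) (hm : 0 < m) (C : Subgroup (V ≃ₗ[F] V)) (hC : C ≤ Φ.Iso)
    (hf : ∀ y ∈ C, ∀ v, v ≠ 0 → y v = v → y = 1) :
    (Nat.card C : ℤ) ∣ (P.q : ℤ) ^ m - (-1) ^ m := by
  have h1 := free_dvd_U_aux C hf (fun v => Φ.Q v = 1)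
    (fun v h e => by simp [e, Q_zero] at h) fun y hy v h => ((hC hy).2 v).trans h
  obtain ⟨t, ht⟩ := free_dvd_U_aux C hf (fun v => v ≠ 0) (fun _ h => h)
    fun y _ v h => y.map_ne_zero_iff.2 h
  have h2 : Nat.card V = Nat.card {v : V // v ≠ 0} + 1 := by
    classical
    rw [← Nat.card_congr (Equiv.optionSubtypeNe (0 : V)), Finite.card_option]
  rw [Module.natCard_eq_pow_finrank (K := F), P.card, ← hT.kd, hT.dim] at h2
  rw [card_Q1 hT hm] at h1
  obtain ⟨k, rfl⟩ := Nat.exists_eq_add_one_of_ne_zero hm.ne'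
  refine IsCoprime.dvd_of_dvd_mul_left ⟨-t, (P.q : ℤ) ^ (k + 2), ?_⟩ h1
  simp only [Ty.kd, Kd.fc, Ty.dim, Nat.add_sub_cancel] at h2 ⊢
  zify at h2
  linear_combination h2 + ht

end Frm

end Pool.Agent.Lib.MP_7d41f7_al
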