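import Pool.Agent.Lib.MP_7d41f7_al.D.SMin
import Pool.Agent.Lib.MP_7d41f7_al.D.TDefs
import Pool.Agent.Lib.MP_7d41f7_al.D.UDefs

/-! Vanishing for the sharp range of classes. -/

set_option autoImplicit false

namespace Pool.Agent.Lib.MP_7d41f7_al

open Module

variable {t : Ty} {n q r k l : ℕ}

theorem ord_jc' (q r : ℕ) : Ord ((q : ℤ) ^ 2) r = jc (Ord q r) := by
  rw [Ord, Int.cast_pow, orderOf_pow' _ two_ne_zero, jc]
  change Ord q r / (Ord q r).gcd 2 = _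
  split_ifs with h
  · rw [(Nat.odd_iff.2 h).coprime_two_right, Nat.div_one]
  · rw [Nat.gcd_eq_right (Nat.dvd_of_mod_eq_zero (by omega))]

theorem gq_dvd {s i : ℕ} (h : (r : ℤ) ∣ gq s i) : (r : ℤ) ∣ (s : ℤ) ^ i - 1 :=
  h.trans ⟨_, (geom_sum_mul (s : ℤ) i).symm⟩

/-- The two factors of a difference of eigenvalues. -/
theorem th_dvd {s N τ : ℕ} (hr : r.Prime) (hk : k ≤ N) (hl : l ≤ N) (hne : l ≠ k)
    (h : (r : ℤ) ∣ th s N τ k - th s N τ l) :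
    (∃ d, 0 < d ∧ (l = k + d ∨ k = l + d) ∧ (r : ℤ) ∣ (s : ℤ) ^ d - 1) ∨
      ∃ a c, a + k + l = N + c ∧ (r : ℤ) ∣ τ * (s : ℤ) ^ a + s ^ c := by
  have hp : Prime (r : ℤ) := Nat.prime_iff_prime_int.1 hr
  rcases lt_or_gt_of_ne hne with h6 | h6
  · rw [← dvd_neg, neg_sub, th_sub _ _ _ h6.le hk] at h
    exact (hp.dvd_or_dvd h).imp (fun h => ⟨_, by omega, by omega, gq_dvd h⟩)
      fun h => ⟨_, _, by omega, h⟩
  · rw [th_sub _ _ _ h6.le hl] at h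
    exact (hp.dvd_or_dvd h).imp (fun h => ⟨_, by omega, by omega, gq_dvd h⟩)
      fun h => ⟨_, _, by omega, h⟩

theorem pow_eq_dvd {b : ℤ} {x y : ℕ} (h0 : 0 < Ord b r) (h : (r : ℤ) ∣ b ^ x - b ^ y) :
    ∃ z : ℤ, (x : ℤ) = y + Ord b r * z := by
  have h1 : IsOfFinOrder (b : ZMod r) := orderOf_pos_iff.1 h0
  have h2 := (ZMod.intCast_zmod_eq_zero_iff_dvd _ r).2 h
  push_cast at h2
  obtain ⟨z, hz⟩ := (h1.pow_eq_pow_iff_modEq.1 (sub_eq_zero.1 h2)).symm.dvd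
  exact ⟨z, by rw [Ord, ← hz]; ring⟩

/-- If `r` divides `q ^ x + q ^ y` then `x - y` is an odd multiple of half the order of `q`. -/
theorem plus_ord {x y : ℕ} (hr : r.Prime) (h2 : 2 < Ord q r)
    (h : (r : ℤ) ∣ (q : ℤ) ^ x + (q : ℤ) ^ y) :
    ∃ z : ℤ, 2 * (x : ℤ) = 2 * y + Ord q r * (2 * z + 1) := by
  obtain ⟨z, hz⟩ := pow_eq_dvd (x := 2 * x) (y := 2 * y) (b := q) (r := r) (by omega)
    (h.trans ⟨q ^ x - q ^ y, by ring⟩)
  push_cast at hz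
  rcases Int.even_or_odd' z with ⟨w, rfl | rfl⟩
  swap
  · exact ⟨w, hz⟩
  exfalso
  have h1 : IsOfFinOrder ((q : ℤ) : ZMod r) := orderOf_pos_iff.1 (show 0 < Ord q r by omega)
  have h3 : ((q : ℤ) : ZMod r) ^ y = ((q : ℤ) : ZMod r) ^ x :=
    h1.pow_eq_pow_iff_modEq.2 (Nat.modEq_iff_dvd.2 ⟨w, by
      change _ = (Ord q r : ℤ) * w
      linarith⟩)
  have h4 : (r : ℤ) ∣ (q : ℤ) ^ y - q ^ x := by
    rw [← ZMod.intCast_zmod_eq_zero_iff_dvd]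
    push_cast at h3 ⊢
    rw [h3, sub_self]
  have h5 : r ∣ 2 * q ^ y := by
    have := dvd_add h h4
    rw [show (q : ℤ) ^ x + q ^ y + (q ^ y - q ^ x) = 2 * q ^ y by ring] at this
    exact_mod_cast this
  rcases (Nat.Prime.dvd_mul hr).1 h5 with h7 | h7
  · exact Ord.ne_two (lt_trans one_lt_two h2) ((Nat.prime_dvd_prime_iff_eq hr Nat.prime_two).1 h7)
  · have := Ord.eq_zero hr (Int.natCast_dvd_natCast.2 (hr.dvd_of_dvd_pow h7))
    omega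

/-- The arithmetic conditions on the level `k`. -/
def VanK (t : Ty) (n q r k : ℕ) : Prop :=
  k ≤ t.wi n ∧ t.dim n < 2 * k + t.kd.wt * Ord (t.kd.bs q) r ∧
    (∀ d, 0 < d → d ≤ k → ¬ (r : ℤ) ∣ (t.kd.fc q : ℤ) ^ d - 1) ∧
    ∀ l ≤ t.wi n, l ≠ k → ¬ (r : ℤ) ∣ th (t.kd.fc q) (t.wi n) (t.tt n q) k -
      th (t.kd.fc q) (t.wi n) (t.tt n q) l

theorem vank_U (hr : r.Prime) (hn : 4 ≤ n) (hj : Ord (-(q : ℤ)) r = n ∨ Ord (-(q : ℤ)) r + 1 = n) :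
    ∃ k, VanK .U n q r k := by
  obtain ⟨j, e⟩ : ∃ j, Ord (-(q : ℤ)) r = j := ⟨_, rfl⟩
  have a : ∀ d, (r : ℤ) ∣ ((q ^ 2 : ℕ) : ℤ) ^ d - 1 → ∃ z, 2 * d = j * z := fun d h =>
    e ▸ (Ord.dvd_iff _).1 (by rwa [pow_mul, neg_sq, ← Nat.cast_pow])
  have b : ∀ d z, 0 < d → 2 * d = j * z → 2 * d = j ∨ j ≤ d := fun d z h0 h => by
    rcases z with _ | _ | z
    · omega
    · omega
    · rw [mul_add, mul_add] at h
      omega
  obtain ⟨k, k1, k2⟩ : ∃ k, (j % 2 = 0 → k = 1) ∧ (j % 2 = 1 → k = 2) :=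
    ⟨1 + j % 2, by omega, by omega⟩
  rw [e] at hj
  refine ⟨k, by simp only [Ty.wi]; omega, by simp only [Ty.dim, Ty.kd, Kd.wt, Kd.bs, e]; omega,
    fun d h0 hd h => ?_, fun l hl hne h => ?_⟩
  · obtain ⟨z, hz⟩ := a d h
    have := b d z h0 hz
    omega
  simp only [Ty.wi, Ty.kd, Kd.fc, Ty.tt] at hl h
  rcases th_dvd hr (by omega) hl hne h with ⟨d, h0, hd, h⟩ | ⟨x, y, hxy, h⟩
  · obtain ⟨z, hz⟩ := a d h
    have := b d z h0 hz
    omega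
  obtain ⟨z, hz⟩ := pow_eq_dvd (b := -(q : ℤ)) (r := r) (x := 2 * y) (y := 1 + 2 * (n % 2) + 2 * x)
    (by omega) (by
      rw [Odd.neg_pow (n := 1 + _ + _) ⟨n % 2 + x, by ring⟩, Even.neg_pow ⟨y, by ring⟩,
        sub_neg_eq_add, add_comm, pow_add, pow_mul, pow_mul]
      push_cast at h
      exact h)
  rw [e] at hz
  push_cast at hz
  rcases Nat.mod_two_eq_zero_or_one j with h2 | h2
  · obtain ⟨i, rfl⟩ := Nat.dvd_of_mod_eq_zero h2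
    push_cast at hz
    rw [mul_assoc] at hz
    omega
  · have : (j : ℤ) * z < j * 1 ∧ j * (-1 : ℤ) < j * z := by constructor <;> omega
    have h3 : (0 : ℤ) ≤ j := by positivity
    obtain rfl : z = 0 := by
      have h4 := lt_of_mul_lt_mul_left this.1 h3
      have h5 := lt_of_mul_lt_mul_left this.2 h3
      omega
    omega

/-- The exponent of the parameter of the dual polar graph. -/
def Ty.ex : Ty → ℕ
  | .Dp => 0
  | .Dm => 2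
  | _ => 1

theorem vank_of (hr : r.Prime) (ht : t ≠ .U) (he : 2 < Ord q r) (hk : k ≤ t.wi n)
    (h1 : t.dim n < 2 * k + 2 * jc (Ord q r)) (h2 : k < Ord q r) (h3 : t.wi n < k + Ord q r)
    (h4 : ∀ l ≤ t.wi n, l ≠ k → ∀ z : ℤ,
      2 * (t.ex + t.wi n : ℤ) ≠ 2 * (k + l) + Ord q r * (2 * z + 1)) : VanK t n q r k := by
  have a : t.kd.fc q = q ∧ t.kd.wt = 2 ∧ t.kd.bs q = (q : ℤ) ^ 2 ∧ t.tt n q = q ^ t.ex := by
    cases t <;> simp [Ty.kd, Kd.fc, Kd.wt, Kd.bs, Ty.tt, Ty.ex] at ht ⊢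
  rw [VanK, a.1, a.2.1, a.2.2.1, a.2.2.2, ord_jc']
  refine ⟨hk, h1, fun d h0 hd h => ?_, fun l hl hne h => ?_⟩
  · have := Nat.le_of_dvd h0 ((Ord.dvd_iff _).1 h)
    omega
  rcases th_dvd hr hk hl hne h with ⟨d, h0, hd, h⟩ | ⟨x, y, hxy, h⟩
  · have := Nat.le_of_dvd h0 ((Ord.dvd_iff _).1 h)
    omega
  · rw [Nat.cast_pow, ← pow_add] at h
    obtain ⟨z, hz⟩ := plus_ord hr he h
    refine h4 l hl hne z ?_
    push_cast at hz
    omega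

theorem vank_aux {a b j : ℕ} {z : ℤ} (h : 2 * (a : ℤ) = 2 * b + (2 * j : ℕ) * (2 * z + 1))
    (h1 : a < b + 3 * j) (h2 : b < a + 3 * j) : a = b + j ∨ b = a + j := by
  push_cast at h
  have h3 : (0 : ℤ) ≤ j := by positivity
  have h4 : (j : ℤ) * z < j * 1 ∧ j * (-2 : ℤ) < j * z := by constructor <;> nlinarith
  have h5 := lt_of_mul_lt_mul_left h4.1 h3
  have h6 := lt_of_mul_lt_mul_left h4.2 h3
  obtain rfl | rfl : z = 0 ∨ z = -1 := by omega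
  all_goals omega

theorem vank_O (hr : r.Prime) (ht : t ≠ .U) (he : 2 < Ord q r) (hn : jc (Ord q r) ≤ n)
    (hm : t = .Dm → 3 ≤ n) (h : n + 2 ≤ 2 * jc (Ord q r) ∨ n = 3 ∧ Ord q r = 4 ∧ (t = .B ∨ t = .C) ∨
      n = 5 ∧ Ord q r = 6 ∧ (t = .Dp ∨ t = .Dm)) : ∃ k, VanK t n q r k := by
  obtain ⟨e, e1⟩ : ∃ e, Ord q r = e := ⟨_, rfl⟩
  have key := fun k => vank_of (k := k) (n := n) hr ht he
  rw [e1] at key he hn h
  by_cases h0 : e % 2 = 1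
  · rw [jc, if_pos h0] at key hn h
    refine ⟨_, key (n + 1 - e) ?_ ?_ (by omega) ?_ fun l _ _ z hz => ?_⟩
    · cases t <;> simp [Ty.wi] at ht ⊢ <;> omega
    · cases t <;> simp [Ty.dim] at ht ⊢ <;> omega
    · cases t <;> simp [Ty.wi] at ht ⊢ <;> omega
    · obtain ⟨i, rfl⟩ : ∃ i, e = 2 * i + 1 := ⟨e / 2, by omega⟩
      push_cast at hz
      rw [add_mul, mul_assoc] at hz
      omega
  obtain ⟨j, rfl⟩ : ∃ j, e = 2 * j := ⟨e / 2, by omega⟩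
  rw [jc, if_neg h0, Nat.mul_div_cancel_left _ two_pos] at key hn h
  have key2 : ∀ k, k ≤ t.wi n → t.wi n ≤ n → t.ex ≤ 2 → n < 2 * j → t.dim n < 2 * k + 2 * j →
      (∀ l ≤ t.wi n, l ≠ k → t.ex + t.wi n ≠ k + l + j ∧ k + l ≠ t.ex + t.wi n + j) →
      ∃ k, VanK t n q r k := fun k a1 a2 a3 a4 a5 a6 =>
    ⟨k, key k a1 a5 (by omega) (by omega) fun l hl hne z hz => by
      have := vank_aux (a := t.ex + t.wi n) (b := k + l) (j := j) (z := z)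
        (by push_cast at hz ⊢; exact hz) (by omega) (by omega)
      have := a6 l hl hne
      omega⟩
  rcases h with h | ⟨rfl, h, h'⟩ | ⟨rfl, h, h'⟩
  · refine key2 (if t = .Dp then n + 1 - j else n + 2 - j) ?_ ?_ ?_ ?_ ?_ fun l => ?_ <;>
      cases t <;> simp [Ty.wi, Ty.ex, Ty.dim] at ht hm ⊢ <;> omega
  · refine key2 3 ?_ ?_ ?_ ?_ ?_ fun l => ?_ <;> rcases h' with rfl | rfl <;>
      (try simp only [Ty.wi, Ty.ex, Ty.dim]) <;> omega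
  · refine key2 4 ?_ ?_ ?_ ?_ ?_ fun l => ?_ <;> rcases h' with rfl | rfl <;>
      (try simp only [Ty.wi, Ty.ex, Ty.dim]) <;> omega

variable {F V : Type} [Field F] [Finite F] {P : Sca F} [AddCommGroup V] [Module F V] [Finite V]
  {Φ : Frm P V} {Γ : Type} [Group Γ]

theorem Frm.van_k (hT : Φ.IsTy t n) (hC : Φ.Cen) (R : Φ.Rep Γ) (hr : r.Prime)
    (hb : 2 < P.k.wt * P.j r) (hk : VanK t n P.q r k) (g : PQ Γ) (h : r ∣ orderOf g) :
    orderOf g ∈ Vo (PQ Γ) := by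
  obtain ⟨k1, k2, k3, k4⟩ := hk
  rw [hT.kd] at k2 k3
  exact Frm.van_core' hT hC R hr hb k1 (fun x hx h1 h0 U hU hd => Frm.no_fix' hT.nd hx hr hb h1 h0 hU
    (hd ▸ k3) (by rw [hT.dim, hd]; exact k2)) k4 g h

end Pool.Agent.Lib.MP_7d41f7_al
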