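import Pool.Agent.Lib.MP_7d41f7_al.D.UDefs
import Pool.Agent.Lib.MP_7d41f7_al.C.AK
import Pool.Agent.Lib.MP_7d41f7_al.L.AH

/-! Unitary groups of small dimension: the two classes of primes. -/

set_option autoImplicit false

namespace Pool.Agent.Lib.MP_7d41f7_al

open Finset

/-- The parameters. -/
structure Pu (n q : ℕ) : Prop where
  n4 : 4 ≤ n
  lt : n < 64
  big : 2 ^ 2000 ≤ q ^ (n * n)

/-- The order of `q` modulo a prime for which `-q` has order `j`. -/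
def dg (j : ℕ) : ℕ := if j % 2 = 1 then 2 * j else if j % 4 = 2 then j / 2 else j

/-- The absolute value of `(-q) ^ i - 1`. -/
def fu (q i : ℕ) : ℕ := if i % 2 = 1 then q ^ i + 1 else q ^ i - 1

/-- The order of the special unitary group. -/
def ordSU (n q : ℕ) : ℕ := q ^ (n * (n - 1) / 2) * ∏ i ∈ Icc 2 n, fu q i

variable {n q p f r u g c j m i : ℕ}

theorem Pu.q2 (P : Pu n q) : 2 ≤ q := by
  by_contra h
  have h1 : q ^ (n * n) ≤ 1 ^ (n * n) := Nat.pow_le_pow_left (by omega) _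
  have h2 : 1 < 2 ^ 2000 := Nat.one_lt_two_pow (Nat.succ_ne_zero _)
  rw [one_pow] at h1
  exact (h2.trans_le P.big).not_ge h1

/-- A power of two below a power of `q`. -/
theorem Pu.gap (P : Pu n q) {a e : ℕ} (h : a * (n * n) < 2000 * e) : 2 ^ a < q ^ e := by
  by_contra h1
  have h2 := Nat.pow_le_pow_left (not_lt.1 h1) (n * n)
  have h3 := Nat.pow_le_pow_left P.big e
  rw [← pow_mul, ← pow_mul] at h2 h3
  rw [mul_comm e] at h2
  exact (Nat.pow_lt_pow_right one_lt_two h).not_ge (h3.trans h2)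

theorem fu_cast (hq : 1 ≤ q) (i : ℕ) : (fu q i : ℤ) = q ^ i - (-1) ^ i := by
  unfold fu
  split_ifs with h
  · rw [(Nat.odd_iff.2 h).neg_one_pow]
    simp
  · rw [(Nat.even_iff.2 (by omega)).neg_one_pow, Nat.cast_sub (Nat.one_le_pow _ _ hq)]
    simp

theorem dvd_fu (hq : 1 ≤ q) (u i : ℕ) : u ∣ fu q i ↔ Ord (-(q : ℤ)) u ∣ i := by
  rw [← Int.natCast_dvd_natCast, fu_cast hq, (neg_pow_sub _ i).dvd_iff_dvd_right, Ord.dvd_iff]

theorem fu_pos (hq : 2 ≤ q) (hi : 0 < i) : 0 < fu q i := by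
  have := Nat.one_lt_pow hi.ne' hq
  unfold fu
  split_ifs <;> omega

theorem fu_one (q : ℕ) : fu q 1 = q + 1 := by simp [fu]

theorem ordSU_pos (hq : 2 ≤ q) (n : ℕ) : 0 < ordSU n q :=
  Nat.mul_pos (pow_pos (by omega) _) (prod_pos fun _ hi => fu_pos hq
    (by have := (mem_Icc.1 hi).1; omega))

theorem ordU_eq (hq : 1 ≤ q) (hn : 1 ≤ n) : Ty.U.ord n q = ordSU n q * (q + 1) := by
  simp only [Ty.ord, ordSU, Nat.cast_mul, Nat.cast_pow, Nat.cast_prod, fu_cast hq]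
  rw [← insert_Icc_succ_left_eq_Icc hn, prod_insert (by simp)]
  change _ * (_ * ∏ i ∈ Icc 2 n, _) = _
  ring

theorem ord_p (hp : p.Prime) (hq : p ∣ q) : Ord (-(q : ℤ)) p = 0 :=
  Ord.eq_zero hp (dvd_neg.2 (Int.natCast_dvd_natCast.2 hq))

theorem ord_one (hq : 1 ≤ q) (h : u ∣ q + 1) : Ord (-(q : ℤ)) u = 1 :=
  Nat.dvd_one.1 ((dvd_fu hq u 1).1 (fu_one q ▸ h))

theorem dg_fin : ∀ n < 64, 4 ≤ n → 3 ≤ dg n ∧ 3 ≤ dg (n - 1) ∧
    n * (n - 1) / 2 < Nat.lcm (dg n) (dg (n - 1)) ∧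
    (dg n = 2 * Ty.U.top n ∨ dg (n - 1) = 2 * Ty.U.top n) ∧ 3 ≤ Ty.U.top n := by
  decide +kernel

theorem a1_even (b : ℤ) (r : ℕ) (hi : Even i) : Ord (-b) r ∣ i ↔ Ord b r ∣ i := by
  rw [← Ord.dvd_iff, ← Ord.dvd_iff, hi.neg_pow]

theorem Prim.ord_dg (h : Prim q (dg j) r) (hq : 1 ≤ q) (hj : 3 ≤ j) : Ord (-(q : ℤ)) r = j := by
  have d3 : 3 ≤ dg j := by unfold dg; split_ifs <;> omega
  have e := h.ord_eq hq (by omega)
  have n1 := Ord.neg_sq (q : ℤ) r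
  unfold dg at h e d3
  split_ifs at h e d3 with c1 c2
  · exact h.ord_neg hq (Nat.odd_iff.2 c1)
  · obtain ⟨k, rfl⟩ : ∃ k, j = 2 * k := ⟨j / 2, by omega⟩
    rw [Nat.mul_div_cancel_left _ two_pos] at e d3
    have ok : Odd k := Nat.odd_iff.2 (by omega)
    rw [e] at n1
    obtain ⟨t, ht⟩ := (Nat.Coprime.dvd_mul_left (Nat.coprime_two_right.2 ok)).1 n1
    have n2 := (a1_even (q : ℤ) r (even_two_mul k)).2 (e ▸ dvd_mul_left k 2)
    rw [ht, mul_comm] at n2 ⊢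
    rcases (Nat.dvd_prime Nat.prime_two).1 (Nat.dvd_of_mul_dvd_mul_right (by omega) n2) with c | c
    · refine absurd ?_ (Ord.ne_two (b := q) (r := r) (by omega))
      have b1 := (Ord.dvd_iff (b := -(q : ℤ)) (r := r) k).2 (by rw [ht, c, mul_one])
      have b2 := (Ord.dvd_iff (b := (q : ℤ)) (r := r) k).2 (by rw [e])
      have b3 := (Int.dvd_add b1 b2).neg_right
      rw [ok.neg_pow, show -(-(q : ℤ) ^ k - 1 + (q ^ k - 1)) = (2 : ℕ) by push_cast; ring] at b3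
      exact (Nat.prime_dvd_prime_iff_eq h.pr Nat.prime_two).1 (Int.natCast_dvd_natCast.1 b3)
    · rw [c]
  · refine Nat.dvd_antisymm ((a1_even _ r (Nat.even_iff.2 (by omega))).2 (e ▸ dvd_rfl)) ?_
    obtain ⟨t, ht⟩ := (show 4 ∣ j by omega).trans (e ▸ n1)
    exact e ▸ (a1_even _ r (Nat.even_iff.2 (by omega))).1 dvd_rfl

theorem UC.dvd (h : UC n q m r) (P : Pu n q) (hc : g * c = ordSU n q) (hz : c ∣ q + 1) :
    r ∣ g := by
  have q2 := P.q2
  have n4 := P.n4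
  have tp := h.top
  have h1 : r ∣ g * c := hc ▸ (((dvd_fu (by omega) r m).2 (h.ord ▸ dvd_rfl)).trans
    (dvd_prod_of_mem _ (mem_Icc.2 (by omega)))).mul_left _
  refine ((h.pr.dvd_mul).1 h1).resolve_right fun e => ?_
  have := (ord_one (by omega) (e.trans hz)).symm.trans h.ord
  omega

theorem Pu.ppart (P : Pu n (p ^ f)) (hp : p.Prime) (hf : 0 < f) (hc : g * c = ordSU n (p ^ f))
    (hz : c ∣ p ^ f + 1) : g.factorization p = f * (n * (n - 1) / 2) := by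
  have q2 := P.q2
  have hq : p ∣ p ^ f := dvd_pow_self p hf.ne'
  have h0 := (hc ▸ ordSU_pos q2 n : 0 < g * c).ne'
  have h1 : ¬ p ∣ c := fun e => hp.one_lt.ne' (Nat.dvd_one.1 ((Nat.dvd_add_right hq).1 (e.trans hz)))
  have h2 : ¬ p ∣ ∏ i ∈ Icc 2 n, fu (p ^ f) i := fun e => by
    obtain ⟨i, hi, e⟩ := (hp.prime.dvd_finsetProd_iff _).1 e
    rw [dvd_fu (by omega), ord_p hp hq, zero_dvd_iff] at e
    have := (mem_Icc.1 hi).1
    omega
  have h4 : ∏ i ∈ Icc 2 n, fu (p ^ f) i ≠ 0 := fun e => h2 (e ▸ dvd_zero p)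
  have h3 := congrArg (fun x => x.factorization p) hc
  simp only [ordSU] at h3
  rwa [Nat.factorization_mul (left_ne_zero_of_mul h0) (right_ne_zero_of_mul h0),
    Nat.factorization_mul (pow_pos (by omega) _).ne' h4, Finsupp.add_apply,
    Finsupp.add_apply, Nat.factorization_eq_zero_of_not_dvd h1,
    Nat.factorization_eq_zero_of_not_dvd h2, add_zero, add_zero, ← pow_mul,
    Nat.factorization_pow_self hp] at h3

theorem Pu.ex (P : Pu n (p ^ f)) (hp : p.Prime) (hf : 0 < f) (hm : m = n ∨ m + 1 = n) :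
    ∃ s, Prim p (f * dg m) s ∧ Prim (p ^ f) (dg m) s ∧ UC n (p ^ f) m s := by
  have n4 := P.n4
  obtain ⟨d1, d2, -⟩ := dg_fin n P.lt n4
  have d3 : 3 ≤ dg m := by
    rcases hm with rfl | rfl
    exacts [d1, d2]
  obtain ⟨s, hs⟩ := zsig hp.two_le (d3.trans (Nat.le_mul_of_pos_left _ hf)) fun ⟨e1, e2⟩ => by
    have f2 : f ≤ 2 := by nlinarith
    have m6 : n ≤ 7 := by
      have : dg m = 6 ∨ dg m = 3 := by interval_cases f <;> omega
      unfold dg at this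
      split_ifs at this <;> omega
    have := P.gap (a := 2) (e := 1) (by nlinarith)
    rw [pow_one, e1] at this
    exact (Nat.pow_le_pow_right two_pos f2).not_gt this
  have h1 := hs.pow hp.pos hf (by omega)
  exact ⟨s, hs, h1, hs.pr, h1.ord_dg (Nat.one_le_pow _ _ hp.pos) (by omega), hm⟩

theorem Pu.free (P : Pu n (p ^ f)) (hp : p.Prime) (hf : 0 < f) {s s' k : ℕ}
    (h1 : Prim p (f * dg n) s) (h2 : Prim p (f * dg (n - 1)) s') (e1 : p ^ k ≡ 1 [MOD s])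
    (e2 : p ^ k ≡ 1 [MOD s']) (hk : k ≤ f * (n * (n - 1) / 2)) : k = 0 := by
  obtain ⟨d1, d2, d3, -⟩ := dg_fin n P.lt P.n4
  have one := Nat.one_le_pow k p hp.pos
  have a1 := (h1.dvd_iff hp.pos (Nat.mul_pos hf (by omega)) k).1 ((Nat.modEq_iff_dvd' one).1 e1.symm)
  have a2 := (h2.dvd_iff hp.pos (Nat.mul_pos hf (by omega)) k).1 ((Nat.modEq_iff_dvd' one).1 e2.symm)
  exact Nat.eq_zero_of_dvd_of_lt (Nat.lcm_mul_left f _ _ ▸ Nat.lcm_dvd a1 a2)
    (hk.trans_lt (Nat.mul_lt_mul_of_pos_left d3 hf))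

theorem a2_fu {a : ℕ} (ha : 0 < a) : fu q (2 ^ a) = q ^ 2 ^ a - 1 :=
  if_neg (by have := dvd_pow_self 2 ha.ne'; omega)

theorem a2_fu2 {a : ℕ} (ha : 0 < a) : fu q (2 ^ (a + 1)) = (q ^ 2 ^ a + 1) * fu q (2 ^ a) := by
  rw [a2_fu ha, a2_fu a.succ_pos, pow_succ, pow_mul, ← Nat.sq_sub_sq, one_pow]

theorem ord_two_pow {a : ℕ} (ha : 0 < a) (hu : u.Prime) (h2 : u ≠ 2) (hd : u ∣ q ^ 2 ^ a + 1) :
    Ord (-(q : ℤ)) u = 2 ^ (a + 1) := by
  have hq : 1 ≤ q := Nat.pos_of_ne_zero (by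
    rintro rfl
    rw [zero_pow (by positivity)] at hd
    exact hu.one_lt.ne' (Nat.dvd_one.1 hd))
  have hx : 1 ≤ q ^ 2 ^ a := Nat.one_le_pow _ _ hq
  have h4 := (dvd_fu hq u _).1 (a2_fu2 ha ▸ hd.mul_right _ : u ∣ fu q (2 ^ (a + 1)))
  have h5 : ¬ Ord (-(q : ℤ)) u ∣ 2 ^ a := fun h => by
    have h7 := Nat.dvd_sub hd (a2_fu ha ▸ (dvd_fu hq u _).2 h : u ∣ q ^ 2 ^ a - 1)
    rw [show q ^ 2 ^ a + 1 - (q ^ 2 ^ a - 1) = 2 by omega] at h7
    exact h2 ((Nat.prime_dvd_prime_iff_eq hu Nat.prime_two).1 h7)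
  obtain ⟨k, hk, e⟩ := (Nat.dvd_prime_pow Nat.prime_two).1 h4
  rw [e] at h5 ⊢
  obtain rfl : k = a + 1 := by
    by_contra hc
    exact h5 (pow_dvd_pow 2 (by omega))
  rfl

theorem once_su (hq : 2 ≤ q) (hc : g * c = ordSU n q) (hz : c ∣ q + 1) {a : ℕ} (ha : 0 < a)
    (h1 : 2 ^ (a + 1) ≤ n) (h3 : n < 2 * 2 ^ (a + 1)) (hu : u.Prime) (h2 : u ≠ 2)
    (hd : u ∣ q ^ 2 ^ a + 1) : g.factorization u = (q ^ 2 ^ a + 1).factorization u := by
  have hq1 : 1 ≤ q := by omega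
  have ho := ord_two_pow ha hu h2 hd
  have hi : 2 ^ (a + 1) = 2 * 2 ^ a := pow_succ' _ _
  have hi0 : 0 < 2 ^ a := by positivity
  have h0 := (hc ▸ ordSU_pos hq n : 0 < g * c).ne'
  have h4 : ∀ i ∈ Icc 2 n, fu q i ≠ 0 := fun i hi =>
    (fu_pos hq (by have := (mem_Icc.1 hi).1; omega)).ne'
  have h5 : ¬ u ∣ c := fun h => by
    have := ord_one hq1 (h.trans hz)
    omega
  have h6 : ¬ u ∣ q := fun h => by
    have := ord_p hu h
    omega
  have h7 : (g * c).factorization u = g.factorization u := by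
    rw [Nat.factorization_mul (left_ne_zero_of_mul h0) (right_ne_zero_of_mul h0),
      Finsupp.add_apply, Nat.factorization_eq_zero_of_not_dvd h5, add_zero]
  rw [← h7, hc, ordSU, Nat.factorization_mul (pow_ne_zero _ (by omega)) (prod_ne_zero_iff.2 h4),
    Finsupp.add_apply, Nat.factorization_eq_zero_of_not_dvd fun h => h6 (hu.dvd_of_dvd_pow h),
    zero_add, Nat.factorization_prod_apply h4, sum_eq_single (2 ^ (a + 1))]
  · rw [a2_fu2 ha, Nat.factorization_mul (by omega) (fu_pos hq hi0).ne', Finsupp.add_apply,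
      Nat.factorization_eq_zero_of_not_dvd (n := fu q (2 ^ a)), add_zero]
    intro h
    have := Nat.le_of_dvd hi0 ((dvd_fu hq1 u _).1 h)
    omega
  · intro k hk hne
    refine Nat.factorization_eq_zero_of_not_dvd fun h => hne ?_
    obtain ⟨t, ht⟩ := (dvd_fu hq1 u _).1 h
    have h8 := mem_Icc.1 hk
    rw [ho] at ht
    obtain rfl : t = 1 := by
      rcases t with _ | _ | t
      · omega
      · rfl
      · exfalso
        have : 2 ^ (a + 1) * (t + 1 + 1) = 2 * 2 ^ (a + 1) + 2 ^ (a + 1) * t := by ring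
        omega
    omega
  · exact fun h => absurd (mem_Icc.2 ⟨by omega, h1⟩) h

theorem tight_end (hq : 2 ≤ q) (hr : r.Prime) {a : ℕ} (ha : 0 < a)
    (hk : ∀ u, u.Prime → u ≠ 2 → u ∣ q ^ 2 ^ a + 1 →
      u ^ (q ^ 2 ^ a + 1).factorization u ≡ 1 [MOD r]) : r ∣ q ∨ r ∣ fu q (2 ^ a) := by
  have hx : 1 < q ^ 2 ^ a := Nat.one_lt_pow (by positivity) hq
  have hy : q ^ 2 ^ a + 1 ≡ 2 ^ (q ^ 2 ^ a + 1).factorization 2 [MOD r] := by
    have h4 : q ^ 2 ^ a + 1 ≠ 0 := by omega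
    generalize q ^ 2 ^ a + 1 = y at hk h4 ⊢
    rw [← ZMod.natCast_eq_natCast_iff]
    conv_lhs => rw [← Nat.prod_factorization_pow_eq_self h4, Finsupp.prod, Nat.cast_prod]
    refine prod_eq_single 2 (fun u hu h2 => ?_) fun h => ?_
    · rw [Nat.support_factorization] at hu
      have := (ZMod.natCast_eq_natCast_iff _ _ _).2
        (hk u (Nat.prime_of_mem_primeFactors hu) h2 (Nat.dvd_of_mem_primeFactors hu))
      rw [this, Nat.cast_one]
    · rw [Finsupp.notMem_support_iff.1 h, pow_zero, Nat.cast_one]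
  have h4 : (q ^ 2 ^ a + 1).factorization 2 < 2 := by
    by_contra h
    have h5 := (Nat.prime_two.pow_dvd_iff_le_factorization (by omega)).2 (not_lt.1 h)
    obtain ⟨j, rfl⟩ : ∃ j, a = j + 1 := ⟨a - 1, by omega⟩
    rw [pow_succ 2 j, pow_mul] at h5
    generalize q ^ 2 ^ j = x at h5
    have h6 : x ^ 2 % 4 = 0 ∨ x ^ 2 % 4 = 1 := by
      have : x % 4 = 0 ∨ x % 4 = 1 ∨ x % 4 = 2 ∨ x % 4 = 3 := by omega
      rcases this with h | h | h | h <;> simp [Nat.pow_mod, h]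
    omega
  generalize (q ^ 2 ^ a + 1).factorization 2 = e at hy h4
  interval_cases e
  · have h5 := (Nat.modEq_iff_dvd' (by omega)).1 hy.symm
    rw [pow_zero, Nat.add_sub_cancel] at h5
    exact Or.inl (hr.dvd_of_dvd_pow h5)
  · have h5 := (Nat.modEq_iff_dvd' (by omega)).1 hy.symm
    rw [show q ^ 2 ^ a + 1 - 2 ^ 1 = q ^ 2 ^ a - 1 by omega] at h5
    exact Or.inr (a2_fu ha ▸ h5)

theorem UC.tight (h : UC n (p ^ f) m r) (P : Pu n (p ^ f)) (hp : p.Prime) (hf : 0 < f)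
    (hc : g * c = ordSU n (p ^ f)) (hz : c ∣ p ^ f + 1) :
    ∃ u : ℕ, u.Prime ∧ ¬ Ord (-(p ^ f : ℕ)) u ∣ m ∧ ¬ u ^ g.factorization u ≡ 1 [MOD r] := by
  by_contra hcon
  push Not at hcon
  have hn := P.n4
  have hq := P.q2
  have hm := h.top
  have ho := h.ord
  have hm3 : 3 ≤ m := by omega
  have h1 := hcon p hp (by
    rw [ord_p hp (dvd_pow_self p hf.ne'), zero_dvd_iff]
    omega)
  rw [P.ppart hp hf hc hz, pow_mul] at h1
  generalize p ^ f = q at *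
  have hodd : ¬ 4 ∣ m := by
    intro h4
    have h2 : (r : ℤ) ∣ (q : ℤ) ^ (n * (n - 1) / 2) - 1 := by
      exact_mod_cast Nat.modEq_iff_dvd.1 h1.symm
    have h3 : 2 * (n * (n - 1) / 2) = n * (n - 1) :=
      Nat.mul_div_cancel' (Nat.even_mul_pred_self n).two_dvd
    generalize n * (n - 1) / 2 = N at h2 h3
    have h5 : m ∣ 2 * N := by
      rw [← ho, ← Ord.dvd_iff, (even_two_mul N).neg_pow]
      exact (Ord.dvd_iff _).2 (((Ord.dvd_iff _).1 h2).mul_left 2)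
    have h6 : Even N := by
      have := h4.trans h5
      exact Nat.even_iff.2 (by omega)
    obtain ⟨t, ht⟩ : m ∣ N := by rwa [← ho, ← Ord.dvd_iff, h6.neg_pow]
    rw [ht] at h3
    rcases hm with rfl | rfl
    · have h7 : m * (2 * t) = m * (m - 1) := by rw [← h3]; ring
      have := Nat.eq_of_mul_eq_mul_left (by omega) h7
      omega
    · have h7 : m * (2 * t) = m * (m + 1) := by
        rw [Nat.add_sub_cancel] at h3
        rw [mul_comm m (m + 1), ← h3]; ring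
      have := Nat.eq_of_mul_eq_mul_left (by omega) h7
      omega
  obtain ⟨a, ha, h2, h3⟩ : ∃ a, 0 < a ∧ 2 ^ (a + 1) ≤ n ∧ n < 2 * 2 ^ (a + 1) := by
    have h1 : 2 ≤ Nat.log 2 n := Nat.le_log_of_pow_le (by norm_num) hn
    refine ⟨Nat.log 2 n - 1, by omega, ?_⟩
    rw [show Nat.log 2 n - 1 + 1 = Nat.log 2 n by omega]
    refine ⟨Nat.pow_log_le_self 2 (by omega), ?_⟩
    have := Nat.lt_pow_succ_log_self (b := 2) (by norm_num) n
    rw [Nat.succ_eq_add_one, pow_succ] at this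
    omega
  rcases tight_end hq h.pr ha (fun u hu h4 hd => by
    rw [← once_su hq hc hz ha h2 h3 hu h4 hd]
    refine hcon u hu fun k => hodd (Dvd.dvd.trans ?_ k)
    rw [ord_two_pow ha hu h4 hd]
    exact pow_dvd_pow 2 (by omega : 2 ≤ a + 1)) with k | k
  · have := ord_p h.pr k
    omega
  · have := Nat.le_of_dvd (by positivity) ((dvd_fu (by omega) r _).1 k)
    rw [pow_succ] at h2
    omega

end Pool.Agent.Lib.MP_7d41f7_al
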