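import Pool.Agent.Lib.MP_7d41f7_al.D.UA

/-! Unitary groups of small dimension: sizes. -/

set_option autoImplicit false

namespace Pool.Agent.Lib.MP_7d41f7_al

open Finset

/-- The primes that may be adjacent to both classes. -/
def Slk (q u : ℕ) : Prop := u ∣ q + 1 ∧ (u = 2 → q % 4 = 3)

variable {n q v k u m r s c W x : ℕ}

theorem b1_lte {z : ℤ} {a b i : ℕ} (hu : u.Prime) (h1 : (u : ℤ) ∣ z - 1) (h2 : u = 2 → 4 ∣ z - 1)
    (ha : a ≠ 0) (hb : b ≠ 0) (hi : 0 < i) (ea : Associated (a : ℤ) (z ^ i - 1))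
    (eb : Associated (b : ℤ) (z - 1)) :
    a.factorization u = b.factorization u + i.factorization u := by
  have := Fact.mk hu
  have h3 : ¬ (u : ℤ) ∣ z := fun e => hu.one_lt.ne' (Nat.dvd_one.1 (Int.natCast_dvd_natCast.1
    (by simpa using dvd_sub e h1)))
  rw [Nat.factorization_def _ hu, Nat.factorization_def _ hu, Nat.factorization_def _ hu,
    ← Nat.cast_inj (R := ℕ∞), Nat.cast_add, padicValNat_eq_emultiplicity ha,
    padicValNat_eq_emultiplicity hb, padicValNat_eq_emultiplicity hi.ne',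
    ← Int.natCast_emultiplicity u a, ← Int.natCast_emultiplicity u b,
    emultiplicity_eq_of_associated_right ea, emultiplicity_eq_of_associated_right eb]
  rcases hu.eq_two_or_odd' with rfl | h4
  · simpa only [one_pow, ← Int.natCast_emultiplicity, Nat.cast_ofNat] using
      Int.two_pow_sub_pow' i (h2 rfl) h3
  · simpa only [one_pow] using Int.emultiplicity_pow_sub_pow hu h4 h1 h3 i

theorem Slk.val (hq : 2 ≤ q) (hu : u.Prime) (h : Slk q u) {i : ℕ} (hi : 0 < i) :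
    (fu q i).factorization u = (q + 1).factorization u + i.factorization u := by
  have e : -(q : ℤ) - 1 = -((q + 1 : ℕ) : ℤ) := by push_cast; ring
  refine b1_lte (z := -q) hu (e ▸ (Int.natCast_dvd_natCast.2 h.1).neg_right)
    (fun h2 => by have := h.2 h2; omega) (fu_pos hq hi).ne' q.succ_ne_zero hi ?_
    (e ▸ (Associated.refl _).neg_right)
  rw [fu_cast (by omega)]
  exact neg_pow_sub _ i

theorem slk_dvd (hq : 2 ≤ q) (hn : 1 ≤ n) (h : W ∣ ∏ i ∈ Icc 2 n, fu q i)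
    (hW : ∀ u, u.Prime → u ∣ W → Slk q u) : W ∣ (q + 1) ^ (n - 1) * n.factorial := by
  have h0 : ∀ i ∈ Icc 2 n, fu q i ≠ 0 := fun i hi =>
    (fu_pos hq (by have := (mem_Icc.1 hi).1; omega)).ne'
  have h1 := prod_ne_zero_iff.2 h0
  have h2 := ne_zero_of_dvd_ne_zero h1 h
  have h3 : (q + 1) ^ (n - 1) * n.factorial = ∏ i ∈ Icc 2 n, (q + 1) * i := by
    rw [prod_mul_distrib, prod_const, Nat.card_Icc, ← prod_Ico_id_eq_factorial,
      prod_eq_prod_Ico_succ_bot (by omega), one_mul]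
    rfl
  have h4 : ∀ i ∈ Icc 2 n, (q + 1) * i ≠ 0 := fun i hi =>
    mul_ne_zero q.succ_ne_zero (by have := (mem_Icc.1 hi).1; omega)
  rw [h3, ← Nat.factorization_prime_le_iff_dvd h2 (prod_ne_zero_iff.2 h4)]
  intro u hu
  by_cases e : u ∣ W
  · refine (((Nat.factorization_prime_le_iff_dvd h2 h1).2 h) u hu).trans_eq ?_
    rw [Nat.factorization_prod_apply h0, Nat.factorization_prod_apply h4]
    refine sum_congr rfl fun i hi => ?_
    have h5 : 0 < i := by have := (mem_Icc.1 hi).1; omega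
    rw [(hW u hu e).val hq hu h5, Nat.factorization_mul q.succ_ne_zero h5.ne', Finsupp.add_apply]
  · exact (Nat.factorization_eq_zero_of_not_dvd e).trans_le (Nat.zero_le _)

theorem b2_emult (hq : 2 ≤ q) (hv : v.Prime) {i : ℕ} (hi : 0 < i) :
    ((fu q i).factorization v : ℕ∞) = emultiplicity (v : ℤ) ((-(q : ℤ)) ^ i - 1) := by
  have := Fact.mk hv
  rw [Nat.factorization_def _ hv, padicValNat_eq_emultiplicity (fu_pos hq hi).ne',
    ← Int.natCast_emultiplicity, fu_cast (by omega),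
    emultiplicity_eq_of_associated_right (neg_pow_sub _ i)]

theorem fu_val (hq : 2 ≤ q) (hv : v.Prime) (h2 : v ≠ 2) (hvq : ¬ v ∣ q) {i : ℕ} (hi : 0 < i) :
    (fu q i).factorization v = if Ord (-(q : ℤ)) v ∣ i then
      (fu q (Ord (-(q : ℤ)) v)).factorization v + (i / Ord (-(q : ℤ)) v).factorization v
      else 0 := by
  have := Fact.mk hv
  split_ifs with h
  · obtain ⟨t, rfl⟩ := h
    have hj := Nat.pos_of_mul_pos_right hi
    have ht := Nat.pos_of_mul_pos_left hi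
    have h1 := Int.emultiplicity_pow_sub_pow hv (hv.odd_of_ne_two h2)
      ((Ord.dvd_iff (b := -(q : ℤ)) (r := v) _).2 dvd_rfl) (fun e => hvq
        (Int.natCast_dvd_natCast.1 (dvd_neg.1
          ((Nat.prime_iff_prime_int.1 hv).dvd_of_dvd_pow e)))) t
    rw [one_pow, ← pow_mul, ← b2_emult hq hv hi, ← b2_emult hq hv hj,
      ← padicValNat_eq_emultiplicity ht.ne', ← Nat.factorization_def _ hv] at h1
    rw [Nat.mul_div_cancel_left t hj]
    exact_mod_cast h1
  · exact Nat.factorization_eq_zero_of_not_dvd (mt (dvd_fu (by omega) v i).1 h)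

theorem fu_pp (hq : 2 ≤ q) (hv : v.Prime) (h2 : v ≠ 2) (hvq : ¬ v ∣ q)
    (h : v ^ k ∣ ∏ i ∈ Icc 2 n, fu q i) :
    v ^ k ≤ (v ^ (fu q (Ord (-(q : ℤ)) v)).factorization v * 2) ^ (n / Ord (-(q : ℤ)) v) := by
  have := Fact.mk hv
  have h0 : ∀ i ∈ Icc 2 n, fu q i ≠ 0 := fun i hi =>
    (fu_pos hq (by have := (mem_Icc.1 hi).1; omega)).ne'
  have h1 := (hv.pow_dvd_iff_le_factorization (prod_ne_zero_iff.2 h0)).1 h
  simp only [Nat.factorization_prod h0, Finsupp.coe_finsetSum, Finset.sum_apply] at h1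
  have h3 := h1.trans (sum_le_sum_of_subset (Icc_subset_Icc_left one_le_two))
  rw [sum_congr rfl fun i hi => fu_val hq hv h2 hvq (mem_Icc.1 hi).1] at h3
  generalize (fu q (Ord (-(q : ℤ)) v)).factorization v = y at h3 ⊢
  simp only [Nat.factorization_def _ hv] at h3
  rw [pp_SL_sum] at h3
  refine (Nat.pow_le_pow_right hv.pos h3).trans ?_
  rw [pow_add, mul_pow, pow_mul']
  refine Nat.mul_le_mul_left _ ?_
  have h4 : v ≤ 2 ^ (v - 1) := by
    have := @Nat.lt_two_pow_self (v - 1)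
    omega
  refine (Nat.pow_le_pow_left h4 _).trans ?_
  rw [← pow_mul, sub_one_mul_padicValNat_factorial]
  exact Nat.pow_le_pow_right two_pos (Nat.sub_le _ _)

theorem le_of_dvd_fu (hq : 2 ≤ q) (hm : 2 ≤ m) (h : x ∣ fu q m) (hc : x.Coprime (q + 1)) :
    x ≤ q ^ (m - 1) := by
  have h1 : q + 1 ∣ fu q m :=
    (dvd_fu (by omega) _ m).2 (by rw [ord_one (by omega) dvd_rfl]; exact one_dvd m)
  have h2 := Nat.le_of_dvd (fu_pos hq (by omega)) (hc.mul_dvd_of_dvd_of_dvd h h1)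
  have h3 : fu q m ≤ q ^ m + 1 := by
    unfold fu
    split_ifs <;> omega
  obtain ⟨l, rfl⟩ : ∃ l, m = l + 1 := ⟨m - 1, by omega⟩
  have h4 : 1 ≤ q ^ l := Nat.one_le_pow _ _ (by omega)
  rw [pow_succ] at h3
  refine Nat.le_of_mul_le_mul_right (h2.trans (h3.trans ?_)) (Nat.succ_pos q)
  rw [Nat.add_sub_cancel, mul_add_one]
  omega

theorem le_of_dvd_fu4 (hq : 2 ≤ q) (h : x ∣ fu q 4) (hc : x.Coprime (fu q 2)) :
    x ≤ q ^ 2 + 1 := by
  have h1 : fu q 4 = (q ^ 2 + 1) * fu q 2 := by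
    zify
    rw [fu_cast (by omega), fu_cast (by omega)]
    ring
  exact Nat.le_of_dvd (Nat.succ_pos _) (hc.dvd_of_dvd_mul_right (h1 ▸ h))

theorem b1_two (hq : 2 ≤ q) (h4 : q % 4 = 1) (n : ℕ) : (∏ i ∈ Icc 1 n, fu q i).factorization 2 ≤
    n + n.factorial.factorization 2 + (q - 1).factorization 2 * (n / 2) := by
  induction n with
  | zero => simp
  | succ n ih =>
    have h0 : fu q (n + 1) ≠ 0 := (fu_pos hq n.succ_pos).ne'
    rw [prod_Icc_succ_top (by omega), Nat.factorization_mul (prod_ne_zero_iff.2 fun i hi =>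
      (fu_pos hq (mem_Icc.1 hi).1).ne') h0, Nat.factorial_succ,
      Nat.factorization_mul n.add_one_ne_zero n.factorial_ne_zero, Finsupp.add_apply,
      Finsupp.add_apply]
    by_cases e : (n + 1) % 2 = 1
    · have h1 : (fu q (n + 1)).factorization 2 < 2 := by
        rw [← not_le, ← Nat.prime_two.pow_dvd_iff_le_factorization h0, fu, if_pos e]
        have := Nat.pow_mod q (n + 1) 4
        rw [h4, one_pow] at this
        omega
      rw [show (n + 1) / 2 = n / 2 by omega]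
      omega
    · have h1 := b1_lte (z := q) (b := q - 1) Nat.prime_two (by omega) (fun _ => by omega) h0
        (by omega) n.add_one_pos
        (by rw [fu_cast (by omega), (Nat.even_iff.2 (by omega)).neg_one_pow])
        (by rw [Nat.cast_sub (by omega), Nat.cast_one])
      rw [show (n + 1) / 2 = n / 2 + 1 by omega, mul_add_one, h1]
      omega

theorem fu_two (hq : 2 ≤ q) (h4 : q % 4 = 1) (h : 2 ^ k ∣ ∏ i ∈ Icc 2 n, fu q i) :
    2 ^ k ≤ 4 ^ n * q ^ (n / 2) := by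
  have h1 := (Nat.prime_two.pow_dvd_iff_le_factorization (prod_ne_zero_iff.2 fun i hi =>
    (fu_pos hq (mem_Icc.1 hi).1).ne')).1 (h.trans (prod_dvd_prod_of_subset _ _ _
      (Icc_subset_Icc_left one_le_two)))
  have h2 := b1_two hq h4 n
  have h3 := Nat.factorization_factorial_le_div_pred Nat.prime_two n
  have h5 : 2 ^ (q - 1).factorization 2 ≤ q :=
    (Nat.ordProj_le 2 (by omega)).trans (Nat.sub_le _ _)
  calc 2 ^ k ≤ 2 ^ (2 * n + (q - 1).factorization 2 * (n / 2)) :=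
        Nat.pow_le_pow_right two_pos (by omega)
    _ ≤ _ := by
      rw [pow_add, pow_mul, pow_mul]
      exact Nat.mul_le_mul_left _ (Nat.pow_le_pow_left h5 _)

/-- The degree of the bound for the other primes. -/
def dx (n : ℕ) : ℕ := if n = 4 then 2 else n - 1

theorem not_slk_le (hq : 2 ≤ q) (hn : 4 ≤ n) (hv : v.Prime) (hvq : ¬ v ∣ q) (hs : ¬ Slk q v)
    (h : v ^ k ∣ ∏ i ∈ Icc 2 n, fu q i) : v ^ k ≤ 4 ^ n * q ^ dx n := by
  have h4 : ∀ t ≤ n, 2 ^ t ≤ 4 ^ n := fun t ht =>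
    (Nat.pow_le_pow_left (by omega) t).trans (Nat.pow_le_pow_right (by omega) ht)
  by_cases h2 : v = 2
  · subst h2
    have e : q % 4 = 1 := by
      by_contra e
      exact hs ⟨by omega, fun _ => by omega⟩
    refine (fu_two hq e h).trans (Nat.mul_le_mul_left _ (Nat.pow_le_pow_right (by omega) ?_))
    unfold dx
    split_ifs <;> omega
  have hb := fu_pp hq hv h2 hvq h
  have hd := dvd_fu (q := q) (by omega) v
  generalize Ord (-(q : ℤ)) v = j at hb hd
  have hy : v ^ (fu q j).factorization v ∣ fu q j := Nat.ordProj_dvd _ _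
  have hp : 0 < q ^ dx n := pow_pos (by omega) _
  have h1 : ¬ v ∣ q + 1 := fun e => hs ⟨e, fun e => absurd e h2⟩
  by_cases h0 : n / j = 0
  · rw [h0, pow_zero] at hb
    exact hb.trans (Nat.mul_pos (pow_pos (by omega) _) hp)
  have j0 : j ≠ 0 := fun e => h0 (by rw [e, Nat.div_zero])
  have j1 : j ≠ 1 := fun e => h1 (fu_one q ▸ (hd 1).2 (by rw [e]))
  by_cases h44 : n = 4 ∧ j = 4
  · obtain ⟨rfl, rfl⟩ := h44
    have := le_of_dvd_fu4 hq hy
      (((Nat.Prime.coprime_iff_not_dvd hv).2 fun e => by simpa using (hd 2).1 e).pow_left _)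
    have e : dx 4 = 2 := rfl
    rw [e] at hp ⊢
    norm_num at hb ⊢
    omega
  have hy2 := le_of_dvd_fu hq (by omega) hy (((Nat.Prime.coprime_iff_not_dvd hv).2 h1).pow_left _)
  refine hb.trans ((Nat.pow_le_pow_left (Nat.mul_le_mul_right 2 hy2) _).trans ?_)
  rw [mul_pow, ← pow_mul, mul_comm]
  refine Nat.mul_le_mul (h4 _ (Nat.div_le_self _ _)) (Nat.pow_le_pow_right (by omega) ?_)
  unfold dx
  split_ifs with e
  · subst e
    have j4 : j ≤ 4 := by
      by_contra e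
      exact h0 (Nat.div_eq_of_lt (by omega))
    interval_cases j <;> simp_all
  · have := Nat.mul_div_le n j
    rw [Nat.sub_one_mul]
    have := Nat.pos_of_ne_zero h0
    omega

theorem ordSU_bd (hq : 2 ≤ q) (hn : 1 ≤ n) :
    q ^ (n * n - 1) ≤ 2 ^ n * ordSU n q ∧ ordSU n q ≤ 2 ^ n * q ^ (n * n - 1) := by
  induction n, hn using Nat.le_induction with
  | base => simp [ordSU]
  | succ n hn ih =>
    have e : ordSU (n + 1) q = ordSU n q * (q ^ n * fu q (n + 1)) := by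
      unfold ordSU
      rw [Nat.triangle_succ, prod_Icc_succ_top (by omega), pow_add]
      ring
    have e2 : (n + 1) * (n + 1) - 1 = (n * n - 1) + (n + (n + 1)) := by
      have := Nat.mul_pos hn hn
      have : (n + 1) * (n + 1) = n * n + (n + (n + 1)) := by ring
      omega
    have hf : q ^ (n + 1) ≤ 2 * fu q (n + 1) ∧ fu q (n + 1) ≤ 2 * q ^ (n + 1) := by
      have : 1 < q ^ (n + 1) := Nat.one_lt_pow (Nat.succ_ne_zero n) hq
      unfold fu
      split_ifs <;> omega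
    rw [e, e2, pow_add, pow_add q n]
    constructor
    · calc _ ≤ 2 ^ n * ordSU n q * (q ^ n * (2 * fu q (n + 1))) :=
            Nat.mul_le_mul ih.1 (Nat.mul_le_mul_left _ hf.1)
        _ = _ := by ring
    · calc _ ≤ 2 ^ n * q ^ (n * n - 1) * (q ^ n * (2 * q ^ (n + 1))) :=
            Nat.mul_le_mul ih.2 (Nat.mul_le_mul_left _ hf.2)
        _ = _ := by ring

theorem b3_cop (hq : 2 ≤ q) (h : UC n q m r) :
    r ∣ fu q m ∧ ∀ i, ¬ m ∣ i → r.Coprime (fu q i) :=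
  ⟨(dvd_fu (by omega) r m).2 (by rw [h.ord]), fun i hi =>
    (Nat.Prime.coprime_iff_not_dvd h.pr).2 fun e => hi (h.ord ▸ (dvd_fu (by omega) r i).1 e)⟩

theorem UC.le (hq : 2 ≤ q) (hn : 4 ≤ n) (h1 : UC n q n r) (h2 : UC n q (n - 1) s) :
    r - 1 ≤ q ^ dx n ∧ s - 1 ≤ q ^ (n - 2) := by
  have a1 := b3_cop hq h1
  have a2 := b3_cop hq h2
  have b1 := le_of_dvd_fu hq (by omega) a1.1
    (fu_one q ▸ a1.2 1 fun e => by have := Nat.le_of_dvd one_pos e; omega)
  have b2 := le_of_dvd_fu hq (by omega) a2.1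
    (fu_one q ▸ a2.2 1 fun e => by have := Nat.le_of_dvd one_pos e; omega)
  refine ⟨?_, (Nat.sub_le _ _).trans b2⟩
  unfold dx
  split_ifs with e
  · subst e
    have := le_of_dvd_fu4 hq a1.1 (a1.2 2 (by decide))
    omega
  · omega

theorem slk_le (hq : 2 ≤ q) (hn : 1 ≤ n) (hl : n < 64) (h : W ∣ ∏ i ∈ Icc 2 n, fu q i)
    (hW : ∀ u, u.Prime → u ∣ W → Slk q u) : W ≤ 2 ^ (7 * n) * q ^ (n - 1) := by
  have h1 := Nat.le_of_dvd (Nat.mul_pos (pow_pos (by omega) _) n.factorial_pos) (slk_dvd hq hn h hW)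
  have h2 : n.factorial ≤ 2 ^ (6 * n) := by
    rw [pow_mul]
    exact n.factorial_le_pow.trans (Nat.pow_le_pow_left (by omega) n)
  have h3 : (q + 1) ^ (n - 1) ≤ 2 ^ n * q ^ (n - 1) :=
    (Nat.pow_le_pow_left (show q + 1 ≤ 2 * q by omega) _).trans (by
      rw [mul_pow]
      exact Nat.mul_le_mul_right _ (Nat.pow_le_pow_right (by omega) (by omega)))
  calc W ≤ 2 ^ n * q ^ (n - 1) * 2 ^ (6 * n) := h1.trans (Nat.mul_le_mul h3 h2)
    _ = _ := by ring

/-- A divisor of the order that is prime to `q`. -/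
theorem dvd_prod_fu (h : x ∣ ordSU n q) (hc : x.Coprime q) : x ∣ ∏ i ∈ Icc 2 n, fu q i :=
  (hc.pow_right _).dvd_of_dvd_mul_left h

theorem Slk.not_dvd (hu : u.Prime) (h : Slk q u) : ¬ u ∣ q := fun e =>
  hu.one_lt.ne' (Nat.dvd_one.1 ((Nat.dvd_add_right e).1 h.1))

theorem b4_gap (P : Pu n q) {a d e : ℕ} (hx : x ≤ 2 ^ a * q ^ d)
    (h : a * (n * n) + 2000 * d < 2000 * e) : x < q ^ e := by
  obtain ⟨y, rfl⟩ : ∃ y, e = y + d := ⟨e - d, by omega⟩
  rw [pow_add]
  exact hx.trans_lt (Nat.mul_lt_mul_of_pos_right (P.gap (by omega))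
    (pow_pos (zero_lt_two.trans_le P.q2) _))

theorem b4_fin : ∀ n < 64, 4 ≤ n → dx n ≤ n - 1 ∧
    35 * n * (n * n) + 2000 * (5 * (n - 1)) < 2000 * (n * (n - 1) / 2 * 3) ∧
    (22 * n + 6) * (n * n) + 2000 * (3 * (n - 1) + dx n + (n - 2)) < 2000 * (n * n - 1) ∧
    (14 * n + 6) * (n * n) + 2000 * (n - 1 + 4 * dx n + (n - 2)) < 2000 * (n * n - 1) := by
  decide +kernel

theorem b4_cop (hW : ∀ u, u.Prime → u ∣ W → Slk q u) : W.Coprime q :=
  Nat.coprime_of_dvd fun u hu e => (hW u hu e).not_dvd hu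

theorem b4_pow (hv : v.Prime) (h : Slk q v) (hu : u.Prime) (e : u ∣ v ^ k) : Slk q u :=
  (Nat.prime_dvd_prime_iff_eq hu hv).1 (hu.dvd_of_dvd_pow e) ▸ h

theorem Pu.sec (P : Pu n q) (hv : v.Prime) (hvq : ¬ v ∣ q) (h : v ^ k ∣ ordSU n q) :
    (v ^ k) ^ 5 < (q ^ (n * (n - 1) / 2)) ^ 3 := by
  have n4 := P.n4
  obtain ⟨f1, f2, -⟩ := b4_fin n P.lt n4
  have d := dvd_prod_fu h ((hv.coprime_iff_not_dvd.2 hvq).pow_left k)
  have a : v ^ k ≤ 2 ^ (7 * n) * q ^ (n - 1) := by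
    by_cases s : Slk q v
    · exact slk_le P.q2 (by omega) P.lt d fun u => b4_pow hv s
    · refine (not_slk_le P.q2 n4 hv hvq s d).trans (Nat.mul_le_mul ?_
        (Nat.pow_le_pow_right (zero_lt_two.trans_le P.q2) f1))
      rw [show 4 = 2 ^ 2 from rfl, ← pow_mul]
      exact Nat.pow_le_pow_right zero_lt_two (by omega)
  rw [← pow_mul q]
  refine b4_gap P ((Nat.pow_le_pow_left a 5).trans_eq ?_) f2
  ring

theorem Pu.cross (P : Pu n q) (hv : v.Prime) (hvq : ¬ v ∣ q) (h : W * v ^ k ∣ ordSU n q)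
    (hW : ∀ u, u.Prime → u ∣ W → Slk q u) (h1 : UC n q n r) (h2 : UC n q (n - 1) s) (hc : c ≤ n) :
    W * (v ^ k) ^ 3 * ((r - 1) * (s - 1)) * c < ordSU n q := by
  have n4 := P.n4
  obtain ⟨-, -, f1, f2⟩ := b4_fin n P.lt n4
  have d := dvd_prod_fu h ((b4_cop hW).mul_left ((hv.coprime_iff_not_dvd.2 hvq).pow_left k))
  obtain ⟨u1, u2⟩ := UC.le P.q2 n4 h1 h2
  have c6 : c ≤ 2 ^ 6 := by have := P.lt; omega
  refine Nat.lt_of_mul_lt_mul_left (a := 2 ^ n) (lt_of_lt_of_le ?_ (ordSU_bd P.q2 (by omega)).1)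
  by_cases t : Slk q v
  · have a := slk_le P.q2 (by omega) P.lt d fun u hu e =>
      ((Nat.Prime.dvd_mul hu).1 e).elim (hW u hu) (b4_pow hv t hu)
    have b : W * (v ^ k) ^ 3 ≤ (2 ^ (7 * n) * q ^ (n - 1)) ^ 3 := by
      refine le_trans ?_ (Nat.pow_le_pow_left a 3)
      rw [mul_pow]
      exact Nat.mul_le_mul_right _ (Nat.le_self_pow three_ne_zero W)
    refine b4_gap P ((Nat.mul_le_mul_left _ (Nat.mul_le_mul (Nat.mul_le_mul b
      (Nat.mul_le_mul u1 u2)) c6)).trans_eq ?_) f1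
    ring
  · have a := slk_le P.q2 (by omega) P.lt ((dvd_mul_right _ _).trans d) hW
    have b := Nat.pow_le_pow_left (not_slk_le P.q2 n4 hv hvq t ((dvd_mul_left _ _).trans d)) 3
    refine b4_gap P ((Nat.mul_le_mul_left _ (Nat.mul_le_mul (Nat.mul_le_mul (Nat.mul_le_mul a b)
      (Nat.mul_le_mul u1 u2)) c6)).trans_eq ?_) f2
    rw [show 4 ^ n = 2 ^ (2 * n) from (pow_mul 2 2 n).symm]
    ring

end Pool.Agent.Lib.MP_7d41f7_al
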