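import Pool.Agent.Lib.MP_7d41f7_al.L.GA
import Pool.Agent.Lib.MP_7d41f7_al.L.AZ

/-! Groups with two classes of primes with cyclic Sylow subgroups. -/

set_option autoImplicit false

namespace Pool.Agent.Lib.MP_7d41f7_al

open Subgroup

/-- The primes in `A` have cyclic Sylow subgroups and are adjacent only to primes in `D`. -/
def Cls (G : Type) [Group G] (A D E : ℕ → Prop) : Prop :=
  ∀ r, A r → r.Prime ∧ r ∣ Nat.card G ∧ Cyc G r ∧ Tight G r ∧ D r ∧ ¬ E r ∧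
    ∀ u, u.Prime → u ≠ r → Adj G u r → D u

variable {G : Type} [Group G] [Finite G] {A B D E : ℕ → Prop} {p r s : ℕ}

theorem Cls.link (h1 : Cls G A D E) (h2 : Cls G B E D) (hr : A r) (hs : B s) (M : Subgroup G)
    [M.Normal] (e : r ∣ Nat.card M) : s ∣ Nat.card M := by
  obtain ⟨a1, -, a2, -, -, -, a3⟩ := h1 r hr
  obtain ⟨b1, b2, -, b3, b4, b5, -⟩ := h2 s hs
  exact dvd_of_dvd M a1 a2 e b1 b2 b3 fun a => b5 (a3 s b1
    (fun e => (h1 r hr).2.2.2.2.2.1 (e ▸ b4)) a)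

theorem Cls.top (h1 : Cls G A D E) (hr : A r) {K : Subgroup G} [K.Normal]
    (H : Subgroup (G ⧸ K)) [H.Normal] (e : r ∣ Nat.card H) :
    ∃ b d, H.index = b * d ∧ b ∣ r - 1 ∧ ∀ u, u.Prime → u ∣ d → D u := by
  obtain ⟨a1, -, a2, -, a3, -, a4⟩ := h1 r hr
  have sj := QuotientGroup.mk'_surjective K
  obtain ⟨L, -, l1, -, l3, l4⟩ := exists_top H a1 (a2.of_surj sj a1) e
  refine ⟨_, _, (relIndex_mul_index l1).symm.trans (mul_comm _ _), l3, fun u hu d => ?_⟩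
  by_cases c : u = r
  · exact c ▸ a3
  · exact a4 u hu c (((l4 u hu d).resolve_left c).of_surj sj)

theorem two_cls (h1 : Cls G A D E) (h2 : Cls G B E D) (hp : p.Prime) (p1 : ¬ D p) (p2 : ¬ E p)
    (hr : A r) (hs : B s)
    (fr : ∀ k, p ^ k ≡ 1 [MOD r] → p ^ k ≡ 1 [MOD s] → p ^ k ∣ Nat.card G → k = 0)
    (sec : ∀ v k, v.Prime → v ≠ p → v ^ k ∣ Nat.card G →
      (v ^ k) ^ 5 < (p ^ (Nat.card G).factorization p) ^ 3) :
    ∃ (K : Subgroup G) (_ : K.Normal) (H : Subgroup (G ⧸ K)), H.Normal ∧ IsSimpleGroup H ∧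
      ¬ IsMulCommutative H ∧ centralizer (H : Set (G ⧸ K)) = ⊥ ∧
      (∀ u, u.Prime → u ∣ Nat.card K → D u ∧ E u) ∧ ∀ t, A t ∨ B t → t ∣ Nat.card H := by
  obtain ⟨a1, a2, a3, -, a4, a5, a6⟩ := h1 r hr
  obtain ⟨b1, b2, -, -, b4, b5, b6⟩ := h2 s hs
  obtain ⟨K, _, k1, kmax⟩ := exists_core (G := G) a1
  have k2 : ∀ t, B t → ¬ t ∣ Nat.card K := fun t ht e => k1 (h2.link h1 ht hr K e)
  have k3 : ∀ t, A t ∨ B t → ¬ t ∣ Nat.card K := fun t ht e =>
    ht.elim (fun ht => k2 s hs (h1.link h2 ht hs K e)) fun ht => k2 t ht e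
  have kp : ¬ p ∣ Nat.card K := fun e => by
    have a : p ≠ r := fun e => p1 (e ▸ a4)
    have b : p ≠ s := fun e => p2 (e ▸ b4)
    exact (hp.factorization_pos_of_dvd Nat.card_pos.ne' e).ne' (fr _
      (free_mod K a1 a2 k1 hp a fun c => p1 (a6 p hp a c))
      (free_mod K b1 b2 (k2 s hs) hp b fun c => p2 (b6 p hp b c))
      ((Nat.ordProj_dvd _ _).trans K.card_subgroup_dvd_card))
  have sj := QuotientGroup.mk'_surjective K
  have cm : ∀ M : Subgroup (G ⧸ K), Nat.card (M.comap (QuotientGroup.mk' K)) =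
      Nat.card K * Nat.card M := fun M => by
    refine Nat.eq_of_mul_eq_mul_right (Nat.pos_of_ne_zero M.index_ne_zero_of_finite) ?_
    rw [mul_assoc, M.card_mul_index, ← index_comap_of_surjective M sj, card_mul_index,
      ← index_eq_card, card_mul_index]
  have al : ∀ M : Subgroup (G ⧸ K), M.Normal → M ≠ ⊥ → ∀ t, A t ∨ B t → t ∣ Nat.card M :=
    fun M hM h0 t ht => by
      have a : r ∣ Nat.card (M.comap (QuotientGroup.mk' K)) := by
        by_contra e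
        refine h0 (le_bot_iff.1 fun x hx => ?_)
        obtain ⟨x, rfl⟩ := sj x
        exact (QuotientGroup.eq_one_iff x).2 (kmax _ inferInstance e hx)
      have b := ht.elim (fun ht => h2.link h1 hs ht _ (h1.link h2 hr hs _ a))
        fun ht => h1.link h2 hr ht _ a
      have c : t.Prime := ht.elim (fun ht => (h1 t ht).1) fun ht => (h2 t ht).1
      exact (c.dvd_mul.1 (cm M ▸ b)).resolve_left (k3 t ht)
  have : Nontrivial (G ⧸ K) := QuotientGroup.nontrivial_iff.2 fun e => k1 (by rwa [e, card_top])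
  have ne : s ≠ r := fun e => a5 (e ▸ b4)
  obtain ⟨H, hH, h0, c1, c2, c3⟩ := exists_socle (G := G ⧸ K) b1 a1 ne (a3.of_surj sj a1)
    (fun a => b5 (a6 s b1 ne (a.of_surj sj))) fun M hM h0 =>
      ⟨al M hM h0 s (.inr hs), al M hM h0 r (.inl hr)⟩
  refine ⟨K, inferInstance, H, hH, c1, c2, c3, fun u hu huK => ?_, al H hH h0⟩
  by_contra hu'
  obtain ⟨k, -, e1, e2⟩ := section_GL K b1 a1 (k2 s hs) k1 kmax (fun M _ => h1.link h2 hr hs M)
    hu huK fun a => hu' ⟨a6 u hu (fun e => k1 (e ▸ huK)) a.2,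
      b6 u hu (fun e => k2 s hs (e ▸ huK)) a.1⟩
  have hne : u ≠ p := fun e => kp (e ▸ huK)
  have e3 : p ^ (Nat.card G).factorization p ∣ K.index :=
    (Nat.Coprime.pow_left _ (hp.coprime_iff_not_dvd.2 kp)).dvd_of_dvd_mul_left
      (K.card_mul_index ▸ Nat.ordProj_dvd _ _)
  exact (sec u k hu hne (e1.trans K.card_subgroup_dvd_card)).not_ge
    (pp_GL hu hp hne.symm (e3.trans e2))

end Pool.Agent.Lib.MP_7d41f7_al
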