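import Pool.Agent.Lib.MP_7d41f7_al.D.KDef3
import Pool.Agent.Lib.MP_7d41f7_al.D.TDefs

/-! The groups of rank two with an isolated torus: the interface. -/

set_option autoImplicit false

namespace Pool.Agent.Lib.MP_7d41f7_al

/-- The value `q ^ 2 + b q + 1`. -/
def tph (b : ℤ) (q : ℕ) : ℤ := (q : ℤ) ^ 2 + b * q + 1

/-- The order of the centre of the covering group. -/
def tdd (b : ℤ) (q : ℕ) : ℕ := Int.gcd (2 + b ^ 2) (tph b q)

/-- The order of the isolated torus. -/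
def tm (b : ℤ) (q : ℕ) : ℕ := (tph b q / tdd b q).toNat

/-- The cofactor of the order of the isolated torus. -/
def tw (b : ℤ) (q : ℕ) : ℕ :=
  if b = 0 then q ^ 4 * (q ^ 2 - 1) ^ 2 else q ^ 3 * (q ^ 2 - 1) * ((q : ℤ) - b).toNat

/-- What is known about a group with the order and the vanishing orders of `PSL(3, q)` (`b = 1`),
`PSU(3, q)` (`b = -1`) or `PSp(4, q)` (`b = 0`). -/
structure OData (G : Type) [Group G] (b : ℤ) (q : ℕ) : Prop where
  card : Nat.card G = tm b q * tw b q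
  tor : ∃ x : G, orderOf x = tm b q
  adj : ∀ r u, r.Prime → u.Prime → r ∣ tm b q → ¬ u ∣ tm b q → ¬ Adj G u r
  pv : b ≠ -1 → ∃ n ∈ Vo G, ∃ i, n ∣ q ^ i

/-- The section is the expected group. -/
def OHit (H : Type) [Group H] (b : ℤ) (q : ℕ) : Prop :=
  b = 1 ∧ IsSL H 3 q ∨ b = -1 ∧ IsSU H 3 q ∨ b = 0 ∧ IsSp H 2 q

theorem ExcOrd3.exc2 {u h : ℤ} (e : ExcOrd3 u h) : ExcOrd2 u h := by
  unfold ExcOrd3 at e
  unfold ExcOrd2
  tauto

theorem OnList3.onList2 {H : Type} [Group H] (e : OnList3 H) : OnList2 H := by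
  rcases e with e | ⟨m, u, F, _, _, -, e⟩ | e | ⟨m, u, e1, e2⟩ | e | ⟨u, a, b⟩ | e
  · exact .inl e
  · exact .inr (.inl ⟨m, F, _, ‹_›, e⟩)
  · exact .inr (.inr (.inl e))
  · exact .inr (.inr (.inr (.inl ⟨m, u, by omega, e1.imp And.right And.right, e2⟩)))
  · exact .inr (.inr (.inr (.inr (.inl e))))
  · exact .inr (.inr (.inr (.inr (.inr (.inl ⟨u, a, b.exc2⟩)))))
  · exact .inr (.inr (.inr (.inr (.inr (.inr e)))))

end Pool.Agent.Lib.MP_7d41f7_al
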