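import Pool.Agent.Lib.MP_7d41f7_al.D.YK

/-! Identification in the same characteristic. -/

set_option autoImplicit false

namespace Pool.Agent.Lib.MP_7d41f7_al

open Finset

variable {h n p f q g : ℕ} {t : Ty}

theorem Rng.top (R : Rng t n) : 3 ≤ t.top n ∧ t.top n ≤ n ∧ n ≤ t.top n + 1 ∧
    (t.top n = 3 → n = 3 ∧ (t = .B ∨ t = .C)) := by
  obtain ⟨h0, h1, -, h2, h3⟩ := R
  cases t <;> simp [Ty.top] at * <;> omega

theorem KD.same_dvd (K : KD h t n q) {e r : ℕ} (he : Gq t n e) (hr : Prim q e r) : r ∣ h := by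
  have q3 := K.par.q3
  have e3 : 3 ≤ e := he.1.1
  have o := hr.ord_eq (by omega) (by omega)
  have a : r ^ 1 ∣ pk q e := pk_pow (by rw [Int.natAbs_natCast]; omega) (by omega) hr.pr o
    (by rw [pow_one]; exact (Ty.dvd_top_aux (by omega)).1 hr.dvd)
  exact pow_one r ▸ K.kept r 1 hr.pr (o ▸ .inl he) ((Int.natCast_dvd_natCast.2 a).trans
    (pk_ord_dvd K.par.rng.1 e3 he.1.2.1))

theorem KD.same (hp : p.Prime) (hf : 0 < f) (K : KD h t n (p ^ f)) {N D : ℕ} {I : Finset ℕ}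
    (L : LT h p g N D I) : ∃ τ, 0 < τ ∧ g * τ = 2 * f ∧ D = τ * t.top n ∧
      τ * (t.top n - 1) ∈ I ∧ 2 * N ≤ τ * t.pos n + 2 := by
  have R := K.par.rng
  have n3 := R.2.1
  have g1 := R.top.1
  obtain ⟨-, G1, G2, -⟩ := tb_xc t R.mem.1 n R.mem.2 R
  obtain ⟨s, hs⟩ : ∃ s, t.top n = s + 1 := ⟨t.top n - 1, by omega⟩
  have k : ∀ i, 2 ≤ i → Gq t n (2 * i) → ∃ j ∈ I, f * (2 * i) ∣ g * j := fun i i2 hi => by
    have a := Nat.le_mul_of_pos_left (2 * i) hf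
    obtain ⟨r, hr⟩ := zsig hp.two_le (by omega : 3 ≤ f * (2 * i)) fun ⟨c1, c2⟩ => by
      have q3 := K.par.q3
      obtain rfl : f = 1 := by
        rcases f with _ | _ | f
        · omega
        · rfl
        · nlinarith
      rw [c1] at q3
      omega
    rcases L.div r hr.pr (K.same_dvd hi (hr.pow hp.pos hf (by omega))) with rfl | ⟨j, hj, e⟩
    · exact absurd dvd_rfl (hr.not_dvd hp.pos (by omega))
    · exact ⟨j, hj, (hr.dvd_iff hp.pos (by omega) _).1 (by rwa [pow_mul])⟩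
  have le : ∀ j ∈ I, 0 < g * j ∧ g * j ≤ g * D := fun j hj =>
    ⟨Nat.mul_pos L.g0 (L.bd j hj).1, Nat.mul_le_mul_left _ (L.bd j hj).2⟩
  have e1 : g * D = f * (2 * t.top n) := by
    obtain ⟨j, hj, e⟩ := k _ (by omega) G1
    refine le_antisymm (not_lt.1 fun c => ?_) ((Nat.le_of_dvd (le j hj).1 e).trans (le j hj).2)
    have a := Nat.le_mul_of_pos_left (2 * t.top n) hf
    obtain ⟨r, hr⟩ := zsig hp.two_le (by omega : 3 ≤ g * D) (by omega)
    have o := hr.ord_eq hp.pos (by omega)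
    obtain ⟨i, i0, i1, e⟩ := Ty.dvd_top (t := t) (q := p ^ f) n3 hr.pr
      (Ord.ne_two (b := p) (by omega)) (fun c => hr.not_dvd hp.pos (by omega)
        (hr.pr.dvd_of_dvd_pow c)) ((Int.natCast_dvd_natCast.2
          (L.all D L.mem (.inr rfl) (by omega) r hr)).trans K.dvd)
    exact c.not_ge ((Nat.le_of_dvd (Nat.mul_pos hf i0) ((hr.dvd_iff hp.pos (by omega) _).1
      (by rwa [pow_mul]))).trans (Nat.mul_le_mul_left _ i1))
  obtain ⟨j, hj, c, e2⟩ := k s (by omega) (by rwa [hs, Nat.add_sub_cancel] at G2)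
  obtain rfl : c = 1 := by
    have a := le j hj
    rw [e1, e2] at a
    rcases c with _ | _ | c
    · simp at a
    · rfl
    have := Nat.le_of_mul_le_mul_left ((mul_assoc f _ _).symm.trans_le a.2) hf
    rw [mul_add, mul_add] at this
    omega
  have e3 : D * s = j * t.top n := Nat.eq_of_mul_eq_mul_left L.g0 (by
    rw [← mul_assoc, ← mul_assoc, e1, e2]
    ring)
  have cp : (t.top n).Coprime s := by
    rw [hs, Nat.coprime_self_add_left]
    exact Nat.coprime_one_left s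
  obtain ⟨τ, rfl⟩ := cp.dvd_of_dvd_mul_right (Dvd.intro_left _ e3.symm)
  have e4 : g * τ = 2 * f := Nat.eq_of_mul_eq_mul_right (by omega : 0 < t.top n) (by
    rw [mul_assoc, mul_comm τ, e1]
    ring)
  have e5 : j = τ * s := Nat.eq_of_mul_eq_mul_right (by omega : 0 < t.top n) (by
    rw [← e3]
    ring)
  refine ⟨τ, Nat.pos_of_ne_zero (by rintro rfl; omega), e4, mul_comm _ _,
    by rwa [hs, Nat.add_sub_cancel, ← e5], Nat.le_of_mul_le_mul_left ?_ L.g0⟩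
  have := Ty.ppart (t := t) hp hf (by omega : 2 ≤ n)
    ((Int.natCast_dvd_natCast.2 (pow_mul p g N ▸ L.pp)).trans K.dvd)
  have a := L.g0
  rw [mul_add, ← mul_assoc g τ, e4]
  nlinarith

theorem KD.not_low (K : KD h t n q) (ht : t ≠ .Dm) {e : ℕ}
    (hh : (h : ℤ) ∣ 2 * q ^ e * (q ^ n + 1) * ∏ i ∈ Icc 1 (n - 1), ((q : ℤ) ^ (2 * i) - 1)) :
    False := by
  have R := K.par.rng
  have hn := R.2.1
  have hq := K.par.q3
  obtain ⟨u, hu⟩ := zsig (a := q) (m := n) (by omega) hn (by omega)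
  have ho := hu.ord_eq (by omega) (by omega)
  have hup : Prime (u : ℤ) := Nat.prime_iff_prime_int.1 hu.pr
  obtain ⟨W, hW⟩ : ∃ W, W = ∏ i ∈ Icc 1 (n - 1), ((q : ℤ) ^ (2 * i) - 1) := ⟨_, rfl⟩
  have hW0 : W ≠ 0 := by
    rw [hW, prod_ne_zero_iff]
    intro i hi
    have : (1 : ℤ) < q ^ (2 * i) :=
      one_lt_pow₀ (by exact_mod_cast (by omega)) (by have := (mem_Icc.1 hi).1; omega)
    omega
  obtain ⟨W', h1, h2⟩ := (Int.finiteMultiplicity_iff.2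
    ⟨by simpa using hu.pr.ne_one, hW0⟩ : FiniteMultiplicity (u : ℤ) W).exists_eq_pow_mul_and_not_dvd
  generalize multiplicity (u : ℤ) W = i at h1
  have hd : (u : ℤ) ∣ (q : ℤ) ^ n - 1 := (Ord.dvd_iff n).2 ho.dvd
  have h3 : ((q : ℤ) ^ n - 1) * W ∣ t.ord n q := by
    have e : ∏ i ∈ Icc 1 n, ((q : ℤ) ^ (2 * i) - 1) = (q ^ n - 1) * W * (q ^ n + 1) := by
      obtain ⟨m, rfl⟩ : ∃ m, n = m + 1 := ⟨n - 1, by omega⟩
      rw [prod_Icc_succ_top (by omega), hW, Nat.add_sub_cancel]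
      ring
    cases t
    · exact (R.1 rfl).elim
    · simp only [Ty.ord, e]
      exact (dvd_mul_right _ _).mul_left _
    · simp only [Ty.ord, e]
      exact ((dvd_mul_right _ _).mul_left _).mul_left _
    · simp only [Ty.ord, if_neg (show n ≠ 0 by omega), ← hW, mul_assoc]
      exact (dvd_mul_left _ _).mul_left _
    · exact (ht rfl).elim
  have h4 : u ^ (i + 1) ∣ h := by
    refine K.kept u (i + 1) hu.pr (ho.symm ▸ (tb_xc t R.mem.1 n R.mem.2 R).2.2.2.1 ht)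
      (dvd_trans ?_ h3)
    rw [h1, Nat.cast_pow, pow_succ']
    exact mul_dvd_mul hd (dvd_mul_right _ _)
  have h5 : (u : ℤ) ∣ 2 * q ^ e * (q ^ n + 1) * W' := by
    have := (Int.natCast_dvd_natCast.2 h4).trans hh
    rw [← hW, h1, Nat.cast_pow, pow_succ, mul_left_comm] at this
    exact (mul_dvd_mul_iff_left (pow_ne_zero _ hup.ne_zero)).1 this
  have h6 : ¬ (u : ℤ) ∣ 2 := fun d => Ord.ne_two (b := q) (by omega)
    ((Nat.prime_dvd_prime_iff_eq hu.pr Nat.prime_two).1 (Int.natCast_dvd_natCast.1 d))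
  rcases hup.dvd_or_dvd h5 with d | d
  · rcases hup.dvd_or_dvd d with d | d
    · rcases hup.dvd_or_dvd d with d | d
      · exact h6 d
      · exact hu.not_dvd (by omega) (by omega)
          (Int.natCast_dvd_natCast.1 (hup.dvd_of_dvd_pow d))
    · have := dvd_sub d hd
      rw [show (q : ℤ) ^ n + 1 - (q ^ n - 1) = 2 by ring] at this
      exact h6 this
  · exact h2 d

theorem KD.lin_aux (l : ℕ) : 2 * (l + 4) + 1 ≤ 3 ^ (l + 2) := by
  induction l with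
  | zero => norm_num
  | succ l ih => rw [show l + 1 + 2 = l + 2 + 1 from rfl, pow_succ]; omega

theorem KD.lin (hp : p.Prime) (hf : 0 < f) (K : KD h t n (p ^ f)) {m : ℕ} (hg : 0 < g)
    (hm : 2 ≤ m) (hh : h * Nat.gcd m (p ^ g - 1) = ordSL m (p ^ g)) :
    (t = .B ∨ t = .C) ∧ m = n ∧ p ^ g = (p ^ f) ^ 2 := by
  obtain ⟨τ, h0, h1, h2, -, h4⟩ := K.same hp hf (lt_A hp hg hm hh)
  obtain ⟨hU, hn, -, hDm, hDp⟩ := K.par.rng
  have hq := K.par.q3
  rw [h2] at h4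
  obtain ⟨k, rfl⟩ : ∃ k, n = k + 1 := ⟨n - 1, by omega⟩
  have hτ : τ = 1 := by
    by_contra hne
    refine KData.lin_aux1 (c := 2) h0 h4 (by omega) ?_
    have hk : 2 ≤ k := by omega
    cases t <;> simp only [Ty.pos, Ty.top, Nat.add_sub_cancel, ne_eq, not_true_eq_false,
      true_imp_iff] at hU hDp ⊢ <;> nlinarith
  subst hτ
  rw [mul_one] at h1
  rw [one_mul] at h2
  have e : p ^ g = (p ^ f) ^ 2 := by rw [h1, ← pow_mul, mul_comm]
  rw [e] at hh ⊢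
  generalize p ^ f = q at *
  have hz := congrArg (Nat.cast : ℕ → ℤ) hh
  rw [Nat.cast_mul, KData.lin_aux2 (by omega)] at hz
  have e1 : ∏ i ∈ Icc 1 k, ((q : ℤ) ^ (2 * i) - 1) =
      (q ^ 2 - 1) * ∏ i ∈ Icc 2 k, ((q : ℤ) ^ (2 * i) - 1) := by
    rw [← Finset.insert_Icc_succ_left_eq_Icc (show 1 ≤ k by omega), prod_insert (by simp)]
    rfl
  cases t with
  | U => exact absurd rfl hU
  | C => exact ⟨Or.inr rfl, h2, rfl⟩
  | B => exact ⟨Or.inl rfl, h2, rfl⟩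
  | Dp =>
    exfalso
    refine K.not_low (by simp) (e := m * (m - 1)) ((Dvd.intro _ hz).trans ?_)
    have : m = k := h2
    rw [Nat.add_sub_cancel, e1, this]
    exact Dvd.intro_left (2 * (q ^ (k + 1) + 1) * (q ^ 2 - 1)) (by ring)
  | Dm =>
    exfalso
    have : m = k + 1 := h2
    subst this
    have hk := hDm rfl
    have hd := mul_dvd_mul_right K.dvd (Nat.gcd (k + 1) (q ^ 2 - 1) : ℕ)
    have hq' : (3 : ℤ) ≤ q := by exact_mod_cast hq
    have hP : 0 < ∏ i ∈ Icc 2 k, ((q : ℤ) ^ (2 * i) - 1) := prod_pos fun i hi => by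
      have : (1 : ℤ) < q ^ (2 * i) :=
        one_lt_pow₀ (by omega) (by have := (mem_Icc.1 hi).1; omega)
      omega
    have hle : ((Nat.gcd (k + 1) (q ^ 2 - 1) : ℕ) : ℤ) ≤ (k + 1 : ℕ) := by
      exact_mod_cast Nat.gcd_le_left _ k.succ_pos
    have hpos : (0 : ℤ) < (Nat.gcd (k + 1) (q ^ 2 - 1) : ℕ) := by
      exact_mod_cast Nat.gcd_pos_of_pos_left _ k.succ_pos
    rw [hz] at hd
    generalize ((Nat.gcd (k + 1) (q ^ 2 - 1) : ℕ) : ℤ) = d at *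
    simp only [Ty.ord, Nat.add_sub_cancel] at hd
    rw [e1, prod_Icc_succ_top (by omega)] at hd
    generalize ∏ i ∈ Icc 2 k, ((q : ℤ) ^ (2 * i) - 1) = P at *
    have h5 : ((q : ℤ) ^ ((k + 1) * k) * P * (q ^ (k + 1) + 1)) * (q ^ (k + 1) - 1) ∣
        ((q : ℤ) ^ ((k + 1) * k) * P * (q ^ (k + 1) + 1)) * (2 * (q ^ 2 - 1) * d) := by
      refine (dvd_of_eq ?_).trans (hd.trans (dvd_of_eq ?_)) <;> ring
    have h6 := Int.le_of_dvd (mul_pos (by nlinarith) hpos)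
      ((mul_dvd_mul_iff_left (by positivity)).1 h5)
    obtain ⟨l, rfl⟩ : ∃ l, k = l + 3 := ⟨k - 3, by omega⟩
    have h7 : ((2 * (l + 4) + 1 : ℕ) : ℤ) ≤ q ^ (l + 2) := by
      exact_mod_cast (KD.lin_aux l).trans (Nat.pow_le_pow_left hq _)
    have h8 : (9 : ℤ) ≤ q ^ 2 := by nlinarith
    have h9 : (q : ℤ) ^ (l + 3 + 1) = q ^ 2 * q ^ (l + 2) := by ring
    rw [h9] at h6
    push_cast at h7 hle
    generalize (q : ℤ) ^ 2 = y at *
    generalize (q : ℤ) ^ (l + 2) = z at *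
    nlinarith [mul_le_mul_of_nonneg_left hle (show 0 ≤ y - 1 by omega),
      mul_le_mul_of_nonneg_left h7 (show 0 ≤ y by omega)]

theorem KD.uni (hp : p.Prime) (hf : 0 < f) (K : KD h t n (p ^ f)) {m : ℕ} (hg : 0 < g)
    (hm : 3 ≤ m) (hh : OrdU m (p ^ g : ℕ) h) : False := by
  obtain ⟨τ, t0, e1, e2, e3, -⟩ := K.same hp hf (lt_2A hp hg hm hh)
  obtain ⟨i, hi, e3⟩ := mem_image.1 e3
  obtain ⟨g1, -, -, g2⟩ := K.par.rng.top
  obtain ⟨s, hs⟩ : ∃ s, t.top n = s + 3 := ⟨t.top n - 3, by omega⟩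
  have hi' := mem_Icc.1 hi
  rw [hs] at e2 e3
  rw [show s + 3 - 1 = s + 2 from rfl, mul_add] at e3
  rw [mul_add] at e2
  have a : τ % 4 = 0 → τ * s % 4 = 0 := fun e =>
    Nat.mod_eq_zero_of_dvd ((Nat.dvd_of_mod_eq_zero e).mul_right s)
  have b : s = 0 ∨ τ ≤ τ * s := (Nat.eq_zero_or_pos s).imp_right (Nat.le_mul_of_pos_right τ)
  obtain ⟨rfl, rfl, rfl⟩ : s = 0 ∧ τ = 2 ∧ m = 4 := by
    rcases b with rfl | b <;> split_ifs at e2 e3 <;> omega
  obtain ⟨rfl, ht⟩ := g2 hs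
  obtain rfl : g = f := by omega
  refine K.not_low (by rcases ht with rfl | rfl <;> decide) (e := 6) ((Dvd.intro _ hh).trans ⟨2, ?_⟩)
  simp only [show Icc 1 (3 - 1) = {1, 2} from rfl, show Icc 2 4 = {2, 3, 4} from rfl]
  rw [prod_insert (by decide), prod_insert (by decide), prod_insert (by decide), prod_singleton,
    prod_singleton]
  ring

theorem KD.sym_aux1 {τ x i T : ℕ} (hT : 0 < T) (h1 : 2 * x = τ * T) (h2 : 2 * i = τ * (T - 1)) :
    ∃ σ, τ = 2 * σ ∧ x = σ * T := by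
  obtain ⟨T, rfl⟩ : ∃ k, T = k + 1 := ⟨T - 1, by omega⟩
  rw [Nat.add_sub_cancel] at h2
  obtain ⟨σ, rfl⟩ : 2 ∣ τ := by rw [mul_add] at h1; omega
  exact ⟨σ, rfl, by rw [mul_assoc] at h1; omega⟩

theorem KD.sym_aux2 (R : Rng t n) {σ : ℕ} (h0 : 0 < σ)
    (h1 : σ * t.top n * (σ * t.top n - 1) ≤ σ * t.pos n + 1) : σ = 1 := by
  have a := R.top.1
  have b : t.pos n ≤ t.top n * (t.top n + 1) := by
    obtain ⟨h2, h3, -⟩ := R
    obtain ⟨k, rfl⟩ : ∃ k, n = k + 1 := ⟨n - 1, by omega⟩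
    cases t <;> simp only [Ty.pos, Ty.top, Nat.add_sub_cancel, ne_eq, not_true_eq_false] at h2 ⊢ <;>
      nlinarith
  generalize t.top n = T at *
  by_contra c
  have d : 2 * T ≤ σ * T := Nat.mul_le_mul_right _ (by omega)
  have e := Nat.mul_le_mul_left (σ * T) (show T + 1 + 1 ≤ σ * T - 1 by omega)
  have e' := Nat.mul_le_mul_left σ b
  rw [← mul_assoc] at e'
  rw [mul_add (σ * T) (T + 1)] at e
  omega

theorem KD.sym (hp : p.Prime) (hf : 0 < f) (K : KD h t n (p ^ f)) {m : ℕ} (hg : 0 < g)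
    (hm : 2 ≤ m) (hh : OrdB m (p ^ g : ℕ) h) : (t = .B ∨ t = .C) ∧ m = n ∧ p ^ g = p ^ f := by
  obtain ⟨τ, t0, e1, e2, e3, e4⟩ := K.same hp hf (lt_B hp hg hm hh)
  obtain ⟨i, -, e3⟩ := mem_image.1 e3
  have R := K.par.rng
  obtain ⟨σ, rfl, rfl⟩ := KD.sym_aux1 (by have := R.top.1; omega) e2 e3
  rw [mul_assoc 2 σ] at e4
  obtain rfl := KD.sym_aux2 (σ := σ) R (by omega)
    ((Nat.mul_le_mul_left _ (Nat.sub_le _ _)).trans (by omega))
  obtain rfl : g = f := by omega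
  have hn := R.2.1
  cases t
  · exact (R.1 rfl).elim
  · exact ⟨Or.inr rfl, one_mul _, rfl⟩
  · exact ⟨Or.inl rfl, one_mul _, rfl⟩
  · refine (K.not_low (by simp) (e := (n - 1) * (n - 1)) ?_).elim
    rw [OrdB, one_mul] at hh
    exact (Dvd.intro _ hh).trans ⟨2 * ((p ^ g : ℕ) ^ n + 1), by simp only [Ty.top]; ring⟩
  · obtain ⟨k, rfl⟩ : ∃ k, n = k + 1 := ⟨n - 1, by omega⟩
    simp only [Ty.top, Ty.pos, Nat.add_sub_cancel] at e4
    nlinarith

theorem KD.dp (hp : p.Prime) (hf : 0 < f) (K : KD h t n (p ^ f)) {m : ℕ} (hg : 0 < g)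
    (hm : 4 ≤ m) (hh : OrdD 1 m (p ^ g : ℕ) h) : t = .Dp ∧ m = n ∧ p ^ g = p ^ f := by
  obtain ⟨τ, t0, e1, e2, e3, e4⟩ := K.same hp hf (lt_D hp hg hm hh)
  obtain ⟨i, -, e3⟩ := mem_image.1 e3
  have R := K.par.rng
  obtain ⟨a1, -, -, a2⟩ := R.top
  obtain ⟨x, rfl⟩ : ∃ x, m = x + 1 := ⟨m - 1, by omega⟩
  rw [Nat.add_sub_cancel] at e2 e4
  split_ifs at e3
  · exfalso
    obtain ⟨y, hy⟩ : ∃ y, t.top n = y + 3 := ⟨t.top n - 3, by omega⟩
    rw [hy] at e2 e3 a2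
    rw [show y + 3 - 1 = y + 2 from rfl] at e3
    rw [mul_add] at e2 e3
    obtain rfl : τ = 2 := by omega
    obtain rfl : x = 3 := by omega
    obtain ⟨rfl, rfl | rfl⟩ := a2 (by omega) <;> simp [Ty.pos] at e4
  obtain ⟨σ, rfl, rfl⟩ := KD.sym_aux1 (by omega) e2 e3
  rw [mul_assoc 2 σ] at e4
  obtain rfl := KD.sym_aux2 (σ := σ) R (by omega)
    ((Nat.mul_le_mul (Nat.le_add_right _ 1) (Nat.sub_le _ _)).trans (by omega))
  obtain rfl : g = f := by omega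
  have hn := R.2.1
  cases t
  · exact (R.1 rfl).elim
  · simp only [Ty.top, Ty.pos] at e4; nlinarith
  · simp only [Ty.top, Ty.pos] at e4; nlinarith
  · exact ⟨rfl, by simp only [Ty.top]; omega, rfl⟩
  · obtain ⟨k, rfl⟩ : ∃ k, n = k + 1 := ⟨n - 1, by omega⟩
    simp only [Ty.top, Ty.pos, Nat.add_sub_cancel] at e4
    nlinarith

theorem KD.dm (hp : p.Prime) (hf : 0 < f) (K : KD h t n (p ^ f)) {m : ℕ} (hg : 0 < g)
    (hm : 4 ≤ m) (hh : OrdD (-1) m (p ^ g : ℕ) h) : t = .Dm ∧ m = n ∧ p ^ g = p ^ f := by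
  simp only [OrdD, sub_neg_eq_add] at hh
  obtain ⟨τ, t0, e1, e2, e3, e4⟩ := K.same hp hf (lt_2D hp hg hm hh)
  obtain ⟨i, -, e3⟩ := mem_image.1 e3
  have R := K.par.rng
  obtain ⟨σ, rfl, rfl⟩ := KD.sym_aux1 (by have := R.top.1; omega) e2 e3
  rw [mul_assoc 2 σ] at e4
  obtain rfl := KD.sym_aux2 (σ := σ) R (by omega) (by omega)
  obtain rfl : g = f := by omega
  rw [one_mul] at hh ⊢
  have d := Dvd.intro _ hh
  have hn := R.2.1
  cases t
  · exact (R.1 rfl).elim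
  · exact (K.not_low (e := n * (n - 1)) (by simp) (d.trans ⟨2, by simp only [Ty.top]; ring⟩)).elim
  · exact (K.not_low (e := n * (n - 1)) (by simp) (d.trans ⟨2, by simp only [Ty.top]; ring⟩)).elim
  · exfalso
    obtain ⟨k, rfl⟩ : ∃ k, n = k + 2 := ⟨n - 2, by omega⟩
    refine K.not_low (e := (k + 1) * k) (by simp) (d.trans ?_)
    simp only [Ty.top, show k + 2 - 1 = k + 1 from rfl, Nat.add_sub_cancel]
    rw [prod_Icc_succ_top (by omega)]
    exact ⟨2 * (((p ^ g : ℕ) : ℤ) ^ (k + 2) + 1) * (((p ^ g : ℕ) : ℤ) ^ (k + 1) - 1), by ring⟩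
  · exact ⟨rfl, rfl, rfl⟩

theorem KD.exc (hp : p.Prime) (hf : 0 < f) (K : KD h t n (p ^ f)) (hg : 0 < g) :
    ¬ ExcOrd (p ^ g : ℕ) h := by
  intro hh
  obtain ⟨x, hx, L⟩ : ∃ x ∈ excData, LT h p g x.1 x.2.1 x.2.2 := by
    rcases hh with e | e | e | e | e | e | e
    · exact lt_exc1 hp hg rfl (Or.inl e)
    · exact lt_exc1 hp hg rfl (Or.inr (Or.inl e))
    · exact lt_exc1 hp hg rfl (Or.inr (Or.inr (Or.inl e)))
    · exact lt_exc2 hp hg rfl (Or.inl e)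
    · exact lt_exc1 hp hg rfl (Or.inr (Or.inr (Or.inr (Or.inl e))))
    · exact lt_exc1 hp hg rfl (Or.inr (Or.inr (Or.inr (Or.inr e))))
    · exact lt_exc2 hp hg rfl (Or.inr e)
  obtain ⟨τ, h0, -, h2, h3, h4⟩ := K.same hp hf L
  have R := K.par.rng
  have a1 : τ * 3 ≤ τ * t.top n := Nat.mul_le_mul_left _ R.top.1
  have a3 : x.2.1 ≤ 30 := (by decide : ∀ x ∈ excData, x.2.1 ≤ 30) x hx
  exact (tb_exc t R.mem.1 n R.mem.2 R x hx τ (by omega) h2 h3).not_ge h4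

end Pool.Agent.Lib.MP_7d41f7_al
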