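import Pool.Agent.Lib.MP_7d41f7_al.D.YP
import Pool.Agent.Lib.MP_7d41f7_al.D.YS

/-! The order of the section. -/

set_option autoImplicit false

namespace Pool.Agent.Lib.MP_7d41f7_al

open Finset

variable {k h a n p f q c u v : ℕ} {t : Ty}

/-- What is known about the order `h` of the section. -/
structure KD (h : ℕ) (t : Ty) (n q : ℕ) : Prop where
  par : Par2 t n q
  dvd : (h : ℤ) ∣ t.ord n q
  kept : ∀ u i : ℕ, u.Prime → Kp t n (Ord q u) → ((u ^ i : ℕ) : ℤ) ∣ t.ord n q → u ^ i ∣ h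

theorem tight_ar (P : Par2 t n q) {g r : ℕ} (hc : (g : ℤ) * c = t.ord n q)
    (hc' : ∀ r, r.Prime → r ∣ c → Ord q r ≤ 2) (hr : r.Prime) (hg : Gq t n (Ord q r)) :
    ∃ u, u.Prime ∧ 2 < Ord q u ∧ ¬ Ad n (Ord q r) (Ord q u) ∧
      ¬ u ^ g.factorization u ≡ 1 [MOD r] := by
  have R := P.rng
  have hq : 2 ≤ q := Nat.le_of_succ_le P.q3
  have h3 : 3 ≤ Ord q r := hg.1.1
  obtain ⟨y, ⟨hy, ha⟩, hw⟩ := (tb_tw t R.mem.1 n R.mem.2 R _ (hg.lt R) hg).ex hq (by omega)
  by_contra hn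
  refine hw r hr rfl ?_
  have hp : pk (q : ℤ) y ≠ 0 := pk_pos.ne'
  have g0 : g ≠ 0 := fun e => (t.ord_pos hq n).ne' (by rw [← hc, e]; simp)
  rw [← Nat.prod_factorization_pow_eq_self hp]
  refine prod_induction _ (· ≡ 1 [MOD r]) (fun _ _ i j => by simpa using i.mul j) rfl
    fun u hu => ?_
  have u1 := Nat.prime_of_mem_primeFactors hu
  have u2 : Ord q u = y := pk_ord u1 (Nat.dvd_of_mem_primeFactors hu)
  have u3 : ¬ u ∣ c := fun e => by have := hc' u u1 e; have := hy.1; omega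
  have e : (pk (q : ℤ) y).factorization u = g.factorization u := by
    refine le_antisymm ((u1.pow_dvd_iff_le_factorization g0).1 ?_)
      ((u1.pow_dvd_iff_le_factorization hp).1 ?_)
    · refine ((u1.coprime_iff_not_dvd.2 u3).pow_left _).dvd_of_dvd_mul_right ?_
      have := (Int.natCast_dvd_natCast.2 (Nat.ordProj_dvd (pk (q : ℤ) y) u)).trans
        (pk_ord_dvd R.1 hy.1 hy.2.1)
      rw [← hc] at this
      exact_mod_cast this
    · rw [← u2]
      exact one_pow_dvd R.1 hq (by have := R.2.1; omega) u1 (u2 ▸ hy)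
        ((Int.natCast_dvd_natCast.2 (Nat.ordProj_dvd g u)).trans ⟨c, hc.symm⟩)
  rw [e]
  by_contra k
  exact hn ⟨u, u1, by have := hy.1; omega, u2 ▸ ha, k⟩

theorem not_k2 (P : Par2 t n q) {g : ℕ} (hc : (g : ℤ) * c = t.ord n q)
    (hc' : ∀ r, r.Prime → r ∣ c → Ord q r ≤ 2) (hk : k ∣ g) (hu : u.Prime) (h0 : Ord q u ≠ 0)
    (free : ∀ r, r.Prime → Gq t n (Ord q r) →
      u ^ k.factorization u ≡ 1 [MOD r ^ g.factorization r]) : ¬ u ∣ k := by
  intro uk
  have q2 : 2 ≤ q := Nat.le_of_succ_le P.q3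
  have g0 : g ≠ 0 := fun e => (t.ord_pos q2 n).ne' (by rw [← hc, e]; simp)
  have h4 : 1 < u ^ k.factorization u := Nat.one_lt_pow
    (hu.factorization_pos_of_dvd (ne_zero_of_dvd_ne_zero g0 hk) uk).ne' hu.one_lt
  have h5 : u ^ k.factorization u ≤ Bd2 n q := Ty.pp_le2 (t := t) (by have := P.rng.2.1; omega) q2
    hu (fun e => h0 (Ord.eq_zero hu (Int.natCast_dvd_natCast.2 e)))
    (hc ▸ (Int.natCast_dvd_natCast.2 ((Nat.ordProj_dvd k u).trans hk)).mul_right _)
  have h6 : pr q (gs t n) ∣ u ^ k.factorization u - 1 := by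
    refine (Nat.dvd_iff_prime_pow_dvd_dvd _ _).2 fun r i hr hi => ?_
    rcases i with _ | i
    · simp
    have a1 := (mem_filter.1 (pr_ord hr ((dvd_pow_self r i.succ_ne_zero).trans hi))).2
    have a2 := pk_ord_dvd (q := q) P.rng.1 a1.1.1 a1.1.2.1
    rw [← hc, ← Nat.cast_mul, Int.natCast_dvd_natCast] at a2
    have a3 := ((hr.coprime_iff_not_dvd.2 fun d => by
      have := hc' r hr d
      have := a1.1.1
      omega).pow_left _).dvd_of_dvd_mul_right ((pr_pow hr hi).trans a2)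
    exact (pow_dvd_pow r ((hr.pow_dvd_iff_le_factorization g0).1 a3)).trans
      ((Nat.modEq_iff_dvd' h4.le).1 (free r hr a1).symm)
  have h7 : pr q (gs t n) ≤ Bd2 n q := (Nat.le_of_dvd (by omega) h6).trans (by omega)
  exact absurd ((Nat.pow_le_pow_left h7 3).trans (Nat.pow_le_pow_right (by omega) (by norm_num)))
    P.sz1.not_ge

theorem not_a2 (P : Par2 t n q) (hu : u.Prime) (h0 : xcl t n ≠ 0) (hx : Ord q u = xcl t n)
    (top : ∀ r, r.Prime → Gq t n (Ord q r) → u ∣ r - 1) : False := by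
  have R := P.rng
  obtain ⟨y, hy, hw⟩ := ((tb_xc t R.mem.1 n R.mem.2 R).1 h0).2.2.2.ex
    (Nat.le_of_succ_le P.q3) h0
  exact hw u hu hx (not_a_aux2 _ pk_pos fun r hr e => top r hr ((pk_ord hr e).symm ▸ hy))

theorem KD.pos (K : KD h t n q) : 0 < h := Nat.pos_of_ne_zero fun e =>
  (t.ord_pos (Nat.le_of_succ_le K.par.q3) n).ne' (zero_dvd_iff.1 (by simpa [e] using K.dvd))

theorem KD.pr_dvd (K : KD h t n q) {s : Finset ℕ} (hs : ∀ e ∈ s, Kp t n e) : pr q s ∣ h := by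
  refine (Nat.dvd_iff_prime_pow_dvd_dvd _ _).2 fun r i hr hi => ?_
  rcases i with _ | i
  · simp
  have a1 := hs _ (pr_ord hr ((dvd_pow_self r i.succ_ne_zero).trans hi))
  have R := K.par.rng
  have a2 : 3 ≤ Ord q r ∧ Pres t n (Ord q r) := by
    rcases a1 with a | ⟨a, b⟩
    · exact ⟨a.1.1, a.1.2.1⟩
    · have := (tb_xc t R.mem.1 n R.mem.2 R).1 (a ▸ b)
      exact a ▸ ⟨this.1, this.2.2.1⟩
  exact K.kept r _ hr a1
    ((Int.natCast_dvd_natCast.2 (pr_pow hr hi)).trans (pk_ord_dvd R.1 a2.1 a2.2))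

theorem KD.gs_dvd (K : KD h t n q) : pr q (gs t n) ∣ h :=
  K.pr_dvd fun _ he => .inl (mem_filter.1 he).2

theorem KD.ks_dvd (K : KD h t n q) : pr q (ks t n) ∣ h :=
  K.pr_dvd fun _ he => (mem_filter.1 he).2

theorem KD.not_spor (K : KD h t n q) : h ∉ sporOrd := by
  intro e
  have h3 : ∀ x ∈ sporOrd, x < 2 ^ 180 := by decide +kernel
  exact absurd (h3 h e) (K.par.sz2.trans_le (Nat.le_of_dvd K.pos K.gs_dvd)).not_gt

theorem KD.not_alt_aux21 {j : ℕ} (hj : 10 ≤ j) : 16 * (j + 1) ≤ 2 ^ j := by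
  induction j, hj using Nat.le_induction with
  | base => norm_num
  | succ j _ ih => rw [pow_succ]; omega

theorem KD.not_alt_aux22 {T m : ℕ} (h0 : 0 < m) (d : T ∣ m.factorial)
    (hm : ∀ r, r.Prime → r ∣ T → m < 2 * r) : T ≤ m * 2 ^ m := by
  have sq : Squarefree T := Nat.squarefree_iff_prime_squarefree.2 fun r hr e => by
    have a2 := hm r hr ((dvd_mul_right r r).trans e)
    have a3 := (hr.pow_dvd_iff_le_factorization (Nat.factorial_ne_zero m)).1
      (pow_two r ▸ e.trans d)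
    rw [Nat.factorization_factorial hr (Nat.log_lt_of_lt_pow' two_ne_zero (a2.trans_le
      (pow_two r ▸ Nat.mul_le_mul_right r hr.two_le))), Nat.Ico_succ_singleton, sum_singleton,
      pow_one, Nat.le_div_iff_mul_le hr.pos] at a3
    omega
  have b : T ∣ m * (2 * (m / 2)).choose (m / 2) := by
    rw [← Nat.prod_primeFactors_of_squarefree sq]
    refine prod_primes_dvd _ (fun r hr => (Nat.prime_of_mem_primeFactors hr).prime) fun r hr => ?_
    have pr := Nat.prime_of_mem_primeFactors hr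
    have a1 := hm r pr (Nat.dvd_of_mem_primeFactors hr)
    have a2 := pr.dvd_factorial.1 ((Nat.dvd_of_mem_primeFactors hr).trans d)
    by_cases e : r = m
    · exact e ▸ dvd_mul_right _ _
    · exact (pr.dvd_choose (by omega) (by omega) (by omega)).mul_left m
  refine (Nat.le_of_dvd (Nat.mul_pos h0 (Nat.choose_pos (by omega))) b).trans
    (Nat.mul_le_mul_left m ((Nat.choose_le_two_pow _ _).trans
      (Nat.pow_le_pow_right two_pos (by omega))))

theorem KD.not_alt {m : ℕ} (hp : p.Prime) (K : KD h t n (p ^ f)) (hh : 2 * h = m.factorial)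
    (hm : ∀ r, r.Prime → Gq t n (Ord (p ^ f : ℕ) r) → r ∣ h → m < 2 * r) : False := by
  have T2 := K.gs_dvd
  have m0 : 0 < m := Nat.pos_of_ne_zero fun e => by
    rw [e, Nat.factorial_zero] at hh
    omega
  have b0 : pr (p ^ f) (gs t n) ≤ m * 2 ^ m := KD.not_alt_aux22 m0 (hh ▸ T2.mul_left 2)
    fun r hr e => hm r hr (mem_filter.1 (pr_ord hr e)).2 (e.trans T2)
  have b3 : 170 ≤ m := by
    by_contra k
    have a := K.par.sz2.trans_le (b0.trans (Nat.mul_le_mul (show m ≤ 2 ^ 8 by omega)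
      (Nat.pow_le_pow_right two_pos (show m ≤ 170 by omega))))
    exact absurd a (by decide +kernel)
  have b1 : Bd2 n (p ^ f) ^ 5 < 2 ^ ((m / 16 + m) * 3) := by
    have a := KD.not_alt_aux21 (j := m / 16) (by omega)
    rw [pow_mul, pow_add]
    exact K.par.sz1.trans_le (Nat.pow_le_pow_left
      (b0.trans (Nat.mul_le_mul_right _ (by omega))) 3)
  have n3 := K.par.rng.2.1
  have b4 : ∀ v k, v.Prime → v ≠ p → v ^ k ∣ h → (v ^ k) ^ 5 < 2 ^ ((m / 16 + m) * 3) :=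
    fun v k hv hn e => (Nat.pow_le_pow_left (Ty.pp_le2 (by omega) (Nat.le_of_succ_le K.par.q3) hv
      (fun e => hn ((Nat.prime_dvd_prime_iff_eq hv hp).1 (hv.dvd_of_dvd_pow e)))
        ((Int.natCast_dvd_natCast.2 e).trans K.dvd)) 5).trans_lt b1
  by_cases e : 2 = p
  · have c := b4 3 _ Nat.prime_three (by omega) (Nat.Coprime.dvd_of_dvd_mul_left
      (Nat.Coprime.pow_left _ (by norm_num)) (hh ▸ not_alt_aux1 (a := m / 9) Nat.prime_three
        (by omega)))
    rw [← pow_mul, show (m / 9 + 3 * (m / 9)) * 5 = 20 * (m / 9) by ring, pow_mul] at c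
    have := (Nat.pow_le_pow_left (show 2 ^ 31 ≤ 3 ^ 20 by norm_num) _).trans_lt c
    rw [← pow_mul, Nat.pow_lt_pow_iff_right one_lt_two] at this
    omega
  · have c := not_alt_aux1 (a := m / 4) (m := m) Nat.prime_two (by omega)
    rw [← hh, show m / 4 + 2 * (m / 4) = 3 * (m / 4) - 1 + 1 by omega, pow_succ',
      Nat.mul_dvd_mul_iff_left two_pos] at c
    have := b4 2 _ Nat.prime_two e c
    rw [← pow_mul, Nat.pow_lt_pow_iff_right one_lt_two] at this
    omega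

theorem KD.cross (K : KD h t n q) (hv : v.Prime) (hq : ¬ v ∣ q) (hg : ¬ Gq t n (Ord q v))
    (h1 : v ^ k ∣ h) (h2 : h ^ 3 ≤ (v ^ k) ^ 8) : False := by
  have a1 : v ^ k * pr q (gs t n) ∣ h := ((hv.coprime_iff_not_dvd.2 fun d =>
    hg (mem_filter.1 (pr_ord hv d)).2).pow_left k).mul_dvd_of_dvd_of_dvd h1 K.gs_dvd
  have a2 := (Nat.pow_le_pow_left (Nat.le_of_dvd K.pos a1) 3).trans h2
  rw [mul_pow, show (8 : ℕ) = 3 + 5 from rfl, pow_add,
    Nat.mul_le_mul_left_iff (pow_pos (pow_pos hv.pos k) 3)] at a2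
  have a3 : v ^ k ≤ Bd2 n q := Ty.pp_le2 (t := t) (by have := K.par.rng.2.1; omega)
    (Nat.le_of_succ_le K.par.q3) hv hq ((Int.natCast_dvd_natCast.2 h1).trans K.dvd)
  exact absurd (a2.trans (Nat.pow_le_pow_left a3 5)) K.par.sz1.not_ge

theorem KD.cross_good (K : KD h t n q) (hv : v.Prime) (hg : Gq t n (Ord q v))
    (h1 : v ^ k ∣ h) (h2 : h ^ 3 ≤ (v ^ k) ^ 7) : False := by
  have a1 := one_pow_dvd K.par.rng.1 (Nat.le_of_succ_le K.par.q3)
    (by have := K.par.rng.2.1; omega) hv hg.1 ((Int.natCast_dvd_natCast.2 h1).trans K.dvd)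
  exact absurd (((Nat.pow_le_pow_left (Nat.le_of_dvd K.pos K.ks_dvd) 3).trans h2).trans
    (Nat.pow_le_pow_left (Nat.le_of_dvd pk_pos a1) 7)) (K.par.sz3 hg).not_ge

theorem KD.l2_three {g : ℕ} (K : KD h t 3 q) (hv : v.Prime) (hg : Gq t 3 (Ord q v))
    (hh : h * Nat.gcd 2 (v ^ g - 1) = ordSL 2 (v ^ g)) (h0 : 0 < g)
    (h1 : ∀ w, w.Prime → Ord q w = Ord q v → w = v) : False := by
  have q3 := K.par.q3
  have R := K.par.rng
  have tb : ∀ t ∈ [Ty.B, .C, .Dp, .Dm], Rng t 3 → ∀ e < 64, Gq t 3 e → (e = 3 ∨ e = 4 ∨ e = 6) ∧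
      dgs ((gs t 3).erase e) = 4 ∧ ls ((gs t 3).erase e) ≤ 10 := by decide +kernel
  obtain ⟨e3, d4, l10⟩ := tb t R.mem.1 R _ (hg.lt R) hg
  have m : ∀ e ∈ (gs t 3).erase (Ord q v), Gq t 3 e := fun e he =>
    (mem_filter.1 (mem_of_mem_erase he)).2
  obtain ⟨w, hw⟩ : ∃ w, v ^ g = w + 1 := ⟨_, (Nat.succ_pred_eq_of_pos (pow_pos hv.pos g)).symm⟩
  have e1 : ordSL 2 (v ^ g) = v ^ g * (w * (w + 2)) := by
    rw [ordSL, Icc_self, prod_singleton, hw,
      Nat.sub_eq_of_eq_add (show (w + 1) ^ 2 = w * (w + 2) + 1 by ring)]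
    simp
  have c1 : (v ^ g).Coprime (w * (w + 2)) := by
    rw [hw]
    exact Nat.Coprime.mul_right (by simp) (by simp [show w + 2 = w + 1 + 1 from rfl])
  rw [e1, show v ^ g - 1 = w by omega] at hh
  have d1 : v ^ g ∣ h := (c1.coprime_dvd_right
    ((Nat.gcd_dvd_right 2 w).mul_right _)).dvd_of_dvd_mul_right (hh ▸ dvd_mul_right _ _)
  have d2 : h ∣ v ^ g * (w * (w + 2)) := hh ▸ dvd_mul_right _ _
  have d3 := K.pr_dvd (s := {Ord q v}) fun e he => .inl (mem_singleton.1 he ▸ hg)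
  rw [pr, prod_singleton] at d3
  have e2 : pk q (Ord q v) = v ^ g := Nat.dvd_antisymm
    ((Nat.coprime_of_dvd fun r hr a b => Nat.not_coprime_of_dvd_of_dvd hr.one_lt
      (h1 r hr (pk_ord hr a) ▸ dvd_pow_self r h0.ne') b c1).dvd_of_dvd_mul_right (d3.trans d2))
    (one_pow_dvd R.1 (by omega) three_pos hv hg.1 ((Int.natCast_dvd_natCast.2 d1).trans K.dvd))
  have d4' := (Nat.coprime_of_dvd fun r hr a b => notMem_erase _ _
    (pk_ord hr (e2 ▸ b) ▸ pr_ord hr a)).dvd_of_dvd_mul_left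
      ((K.pr_dvd fun e he => .inl (m e he)).trans d2)
  obtain ⟨z, z0, z1, z2⟩ := pk_small q3 e3
  rw [e2, hw, Nat.cast_succ, add_sub_cancel_right] at z2
  have d5 : pr q ((gs t 3).erase (Ord q v)) ∣ z * (w + 2) := by
    refine Int.natCast_dvd_natCast.1 (IsCoprime.dvd_of_dvd_mul_left
      (y := (q : ℤ) ^ 2 * (q ^ 2 - 1))
      (Int.isCoprime_iff_gcd_eq_one.2 (Nat.coprime_of_dvd fun r hr a b => ?_))
      ((Int.natCast_dvd_natCast.2 d4').trans ?_))
    · have := (m _ (pr_ord hr a)).1.1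
      exact (Ord.of_mul hr (Int.natCast_dvd.2 b)).elim (by omega) fun c => by
        have := Nat.le_of_dvd two_pos c
        omega
    · push_cast
      rw [← mul_assoc]
      exact mul_dvd_mul_right z2 _
  have b1 := Nat.le_of_dvd (by positivity) d5
  have b2 := pr_ge (Nat.le_of_succ_le q3) fun e he => (m e he).1.1
  have b3 := pk_le (e := Ord q v) (Nat.le_of_succ_le q3) (by omega)
  rw [e2, hw, show (Ord q v).totient = 2 by rcases e3 with c | c | c <;> rw [c] <;> decide] at b3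
  have b4 := K.par.lt (α := 13) (g := 1) (by omega)
  rw [d4] at b2
  have b5 : z * (w + 2) ≤ 2 * q * (4 * q ^ 2) := Nat.mul_le_mul (by omega) (by nlinarith)
  have b6 := b2.trans (Nat.mul_le_mul (Nat.pow_le_pow_right two_pos l10) (b1.trans b5))
  have b7 := Nat.mul_lt_mul_of_pos_right b4 (pow_pos (by omega : 0 < q) 3)
  linarith

end Pool.Agent.Lib.MP_7d41f7_al
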