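import Pool.Agent.Lib.MP_7d41f7_al.D.YT

/-! Products of primitive parts. -/

set_option autoImplicit false

namespace Pool.Agent.Lib.MP_7d41f7_al

open Finset

variable {t : Ty} {n e x q : ℕ}

theorem Wit.ex {P : ℕ → Prop} (h : Wit P x) (hq : 2 ≤ q) (hx : x ≠ 0) :
    ∃ y, P y ∧ ∀ u, u.Prime → Ord q u = x → ¬ pk q y ≡ 1 [MOD u] := by
  have k : ∀ y β, P y → ¬ x ∣ β → Nc q y β →
      ∃ y, P y ∧ ∀ u, u.Prime → Ord q u = x → ¬ pk q y ≡ 1 [MOD u] := fun y β h1 h2 h3 =>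
    ⟨y, h1, fun u hu e h4 => (e ▸ h3 u hu h4 :).elim hx h2⟩
  rcases h with ⟨a, -, h | h⟩ | ⟨y, hy, h1, h2, h3⟩
  · exact k _ _ h.1 h.2 (nc_two hq a)
  · exact k _ _ h.1 h.2 (nc_three hq a)
  · have h4 : y.Prime ∧ y ≠ 2 := by
      simp only [List.mem_cons, List.not_mem_nil, or_false] at hy
      rcases hy with rfl | rfl | rfl | rfl | rfl | rfl <;> norm_num
    exact (nc_prime hq h4.1 h4.2).elim (k _ _ h1 h3) (k _ _ h2 h3)

theorem pr_ge (hq : 2 ≤ q) {s : Finset ℕ} (hs : ∀ e ∈ s, 3 ≤ e) :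
    q ^ dgs s ≤ 2 ^ ls s * pr q s := by
  rw [dgs, ls, pr, ← prod_pow_eq_pow_sum, ← prod_pow_eq_pow_sum, ← prod_mul_distrib]
  exact prod_le_prod' fun e he => (pk_ge (b := q) hq (hs e he)).trans
    (Nat.mul_le_mul_right _ (Nat.lt_size_self _).le)

theorem pr_ord {s : Finset ℕ} {r : ℕ} (hr : r.Prime) (h : r ∣ pr q s) : Ord q r ∈ s := by
  obtain ⟨e, he, h1⟩ := (hr.prime.dvd_finsetProd_iff _).1 h
  rwa [pk_ord hr h1]

theorem pr_pow {s : Finset ℕ} {r i : ℕ} (hr : r.Prime) (h : r ^ (i + 1) ∣ pr q s) :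
    r ^ (i + 1) ∣ pk q (Ord q r) := by
  rw [pr, ← mul_prod_erase _ _ (pr_ord hr ((dvd_pow_self r i.succ_ne_zero).trans h))] at h
  exact (Nat.Coprime.pow_left _ (hr.coprime_iff_not_dvd.2 fun h1 =>
    notMem_erase _ _ (pr_ord (q := q) hr h1))).dvd_of_dvd_mul_right h

/-- The parameters. -/
structure Par2 (t : Ty) (n q : ℕ) : Prop where
  rng : Rng t n
  big : 2 ^ 2000 ≤ q ^ (2 * n ^ 2 + n)

theorem Par2.q3 (P : Par2 t n q) : 3 ≤ q := by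
  by_contra h
  have h1 := P.rng.2.2.1
  have h2 := (Nat.pow_le_pow_iff_right one_lt_two).1
    (P.big.trans (Nat.pow_le_pow_left (by omega : q ≤ 2) _))
  nlinarith

theorem Par2.lt (P : Par2 t n q) {α g : ℕ} (h : α * (2 * n ^ 2 + n) < 2000 * g) :
    2 ^ α < q ^ g := by
  refine lt_of_pow_lt_pow_left₀ (2 * n ^ 2 + n) (Nat.zero_le _) ?_
  rw [← pow_mul, ← pow_mul, mul_comm g, pow_mul q]
  exact ((Nat.pow_lt_pow_right one_lt_two h).trans_eq (pow_mul 2 _ g)).trans_le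
    (Nat.pow_le_pow_left P.big g)

theorem Par2.sz1_aux (P : Par2 t n q) {s : Finset ℕ} (hs : ∀ e ∈ s, 3 ≤ e) {α β c : ℕ}
    (h1 : β ≤ c * dgs s) (h2 : (α + c * ls s) * (2 * n ^ 2 + n) < 2000 * (c * dgs s - β)) :
    2 ^ α * q ^ β < pr q s ^ c := by
  have h3 := P.q3
  have h4 := Nat.pow_le_pow_left (pr_ge (by omega : 2 ≤ q) hs) c
  have h5 := Nat.mul_lt_mul_of_pos_right (P.lt h2) (pow_pos (by omega : 0 < q) β)
  rw [← pow_add q, Nat.sub_add_cancel h1, mul_comm c (dgs s), pow_mul] at h5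
  refine Nat.lt_of_mul_lt_mul_left (a := (2 ^ ls s) ^ c) ?_
  rw [← mul_pow]
  refine lt_of_eq_of_lt ?_ (h5.trans_le h4)
  ring

theorem Par2.sz1_aux2 (t : Ty) (n : ℕ) : ∀ e ∈ gs t n, 3 ≤ e := fun _ he => (mem_filter.1 he).2.1.1

theorem Par2.sz1 (P : Par2 t n q) : Bd2 n q ^ 5 < pr q (gs t n) ^ 3 := by
  obtain ⟨h1, h2, -⟩ := tb_sz t P.rng.mem.1 n P.rng.mem.2 P.rng
  refine lt_of_eq_of_lt ?_ (P.sz1_aux (Par2.sz1_aux2 t n) h1 h2)
  rw [Bd2, show 8 = 2 ^ 3 from rfl, mul_pow, mul_pow, mul_pow, ← pow_mul, ← pow_mul, ← pow_mul,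
    ← mul_assoc, ← pow_add, mul_comm n 5, ← mul_assoc, show 3 * 5 = 15 from rfl]

theorem Par2.sz2 (P : Par2 t n q) : 2 ^ 180 < pr q (gs t n) := by
  obtain ⟨-, -, h, -⟩ := tb_sz t P.rng.mem.1 n P.rng.mem.2 P.rng
  have := P.sz1_aux (α := 180) (β := 0) (c := 1) (Par2.sz1_aux2 t n) (Nat.zero_le _)
    (by rwa [one_mul, one_mul, Nat.sub_zero])
  rwa [pow_zero, mul_one, pow_one] at this

theorem Par2.sz3 (P : Par2 t n q) (he : Gq t n e) : pk q e ^ 7 < pr q (ks t n) ^ 3 := by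
  obtain ⟨h1, h2⟩ := (tb_sz t P.rng.mem.1 n P.rng.mem.2 P.rng).2.2.2 e
    (mem_filter.2 ⟨mem_range.2 (he.lt P.rng), he⟩)
  have h3 := P.q3
  have h4 := he.1.1
  refine lt_of_le_of_lt ?_ (P.sz1_aux (fun x hx => (mem_filter.1 hx).2.elim (fun h => h.1.1)
    fun h => h.1 ▸ ((tb_xc t P.rng.mem.1 n P.rng.mem.2 P.rng).1 (h.1 ▸ h.2)).1) h1 h2)
  rw [← mul_pow, mul_comm 7, pow_mul]
  exact Nat.pow_le_pow_left ((pk_le (by omega) (by omega)).trans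
    (Nat.pow_le_pow_left (by omega) _)) 7

end Pool.Agent.Lib.MP_7d41f7_al
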