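import Pool.Agent.Lib.MP_7d41f7_al.L.SPerm

/-! No element of an abelian normal Sylow subgroup is vanishing. -/

set_option autoImplicit false

namespace Pool.Agent.Lib.MP_7d41f7_al

open Finset Pool.Agent.Lib.MP_b6945b_al

variable {p k : ℕ}

theorem sum_pow_mod {R ι : Type} [CommRing R] (hp : p.Prime) (n : ℕ) (s : Finset ι) (f : ι → R) :
    ∃ m, (∑ i ∈ s, f i) ^ p ^ n = ∑ i ∈ s, f i ^ p ^ n + p * m := by
  induction s using Finset.cons_induction with
  | empty => exact ⟨0, by simp [hp.ne_zero]⟩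
  | cons a s ha ih =>
    obtain ⟨m, hm⟩ := ih
    obtain ⟨r, hr⟩ := exists_add_pow_prime_pow_eq hp (f a) (∑ i ∈ s, f i) n
    exact ⟨m + f a * (∑ i ∈ s, f i) * r, by rw [sum_cons, sum_cons, hr, hm]; ring⟩

theorem ito_van {G : Type} [Group G] [Finite G] (K : Subgroup G) [hN : K.Normal]
    [hc : IsMulCommutative K] (hp : p.Prime) (hK : Nat.card K = p ^ k) (hi : ¬ p ∣ K.index)
    (j : ℕ) : p ^ j ∉ Vo G := by
  intro hV
  have := Fintype.ofFinite G
  have := Fintype.ofFinite (G ⧸ K)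
  have := Fact.mk hp
  obtain ⟨I⟩ := exists_irrData G
  obtain ⟨z, hz, i, h0⟩ := (mem_Vo I _).1 hV
  have hzK : z ∈ K := (QuotientGroup.eq_one_iff z).1 (orderOf_eq_one_iff.1
    (Nat.eq_one_of_dvd_coprimes ((hp.coprime_iff_not_dvd.2 hi).pow_left j)
      (hz ▸ orderOf_map_dvd (QuotientGroup.mk' K) z) (orderOf_dvd_natCard _)))
  let F : G ⧸ K → K := Quotient.lift (fun g => ⟨g * z * g⁻¹, hN.conj_mem z hzK g⟩) fun a b e => by
    have h1 : a⁻¹ * b * z = z * (a⁻¹ * b) := congrArg Subtype.val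
      (hc.is_comm.comm ⟨_, QuotientGroup.leftRel_apply.1 e⟩ ⟨z, hzK⟩)
    refine Subtype.ext ?_
    calc a * z * a⁻¹ = a * (z * (a⁻¹ * b)) * b⁻¹ := by group
      _ = b * z * b⁻¹ := by rw [← h1]; group
  have h1 : ∑ t, I.ρ i (F t) = 0 := by
    rw [I.scalar_of_comm i (∑ t, I.ρ i (F t)) fun g => ?_, Matrix.trace_sum,
      sum_eq_zero fun t _ => ?_, zero_div, zero_smul]
    · obtain ⟨a, rfl⟩ := QuotientGroup.mk_surjective t
      exact (I.χ_conj i a z).trans h0
    rw [sum_mul, mul_sum, ← Equiv.sum_comp (MulAction.toPerm g)]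
    refine sum_congr rfl fun t _ => ?_
    obtain ⟨a, rfl⟩ := QuotientGroup.mk_surjective t
    rw [← map_mul, ← map_mul]
    congr 1
    change g * a * z * (g * a)⁻¹ * g = g * (a * z * a⁻¹)
    group
  let _ : CommGroup K := { (inferInstance : Group K) with mul_comm := hc.is_comm.comm }
  obtain ⟨m, hm⟩ := sum_pow_mod hp k univ fun t => MonoidAlgebra.of ℤ K (F t)
  let φ := MonoidAlgebra.lift ℤ _ K ((I.ρ i).comp K.subtype)
  have h2 := congrArg φ hm
  simp only [map_pow, map_sum, map_add, map_mul, map_natCast, φ, MonoidAlgebra.lift_of,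
    MonoidHom.comp_apply, Subgroup.subtype_apply] at h2
  rw [h1, zero_pow (pow_pos hp.pos k).ne', sum_congr rfl fun t _ => (show I.ρ i (F t) ^ p ^ k = 1 by
    rw [← map_pow, ← Subgroup.coe_pow, ← hK, pow_card_eq_one', Subgroup.coe_one, map_one]),
    sum_const, card_univ, ← Nat.card_eq_fintype_card, ← Subgroup.index_eq_card] at h2
  have hp0 : (p : ℂ) ≠ 0 := Nat.cast_ne_zero.2 hp.ne_zero
  have h3 : φ m = algebraMap ℂ _ (-(K.index : ℂ) / p) := by
    rw [Algebra.algebraMap_eq_smul_one, div_eq_inv_mul, mul_smul, eq_inv_smul_iff₀ hp0, neg_smul,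
      Nat.cast_smul_eq_nsmul, Nat.cast_smul_eq_nsmul, nsmul_eq_mul]
    exact eq_neg_of_add_eq_zero_right h2.symm
  have : Nonempty (Fin (I.d i)) := ⟨⟨0, I.pos i⟩⟩
  have h4 := (isIntegral_algebraMap_iff (algebraMap ℂ _).injective).1
    (h3 ▸ (IsIntegral.of_finite ℤ m).map φ)
  obtain ⟨V, hV⟩ := exists_val p
  have h5 := mul_mem_nonunits hV (mem_of_isIntegral V h4)
  rw [mul_div_cancel₀ _ hp0] at h5
  exact hi (Int.natCast_dvd_natCast.1 (dvd_neg.1
    (int_dvd_of_mem (n := -K.index) hV (by exact_mod_cast h5))))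

end Pool.Agent.Lib.MP_7d41f7_al
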